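import Pool.Agent.Lib.MP_3d9a2b_pr.Climb

set_option autoImplicit false

/-! Task VH1: the climb lemma, uniformly for the exponents `γ ∈ [1 / 2, 1]`. -/

namespace Pool.Agent.Lib.MP_3d9a2b_pr

open MeasureTheory ProbabilityTheory Filter Topology
open scoped NNReal ENNReal

/-- `climb` with its explicit constants -/
private theorem vh1_climb (γ : ℝ) (hγ : 0 < γ)
    (k : ℕ → ℝ → ℝ) (M σ G u y₀ : ℝ) (n : ℕ) (hσ : 0 ≤ σ) (hG : 0 ≤ G) (hyu : y₀ < u)
    (hn : (u - y₀) / γ + -2 * Real.log (climbC γ / 4) / γ ^ 2 ≤ n)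
    (hint : ∀ l < n, ∀ y, Integrable (fun x => k (l + 1) (y - 2 * x)) (gaussianReal γ 1))
    (hstep : ∀ l < n, ∀ y, ∫ x, k (l + 1) (y - 2 * x) ∂(gaussianReal γ 1) ≤ k l y)
    (hlow : ∀ l ≤ n, ∀ y, M - σ * l ≤ k l y)
    (hhigh : ∀ l ≤ n, ∀ y, u ≤ y → M - σ * l + G ≤ k l y) :
    M - σ * ((1 - Real.exp (-γ ^ 2 / 2))⁻¹ * (4 / climbC γ)) +
      G * (climbC γ / 2) * Real.exp (- γ * (u - y₀)) ≤ k 0 y₀ := by
  set c0 := climbC γ with hc0
  have hc0pos : 0 < c0 := climbC_pos hγ
  have hc0le : c0 ≤ 1 := climbC_le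
  have hγ2 : 0 < γ ^ 2 := by positivity
  set q := Real.exp (-γ ^ 2 / 2) with hq
  have hq0 : 0 < q := Real.exp_pos _
  have hq1 : q < 1 := by
    rw [hq, Real.exp_lt_one_iff]; linarith
  have hlog : Real.log (c0 / 4) ≤ 0 := Real.log_nonpos (by positivity) (by linarith)
  set E : ℝ → ℝ := fun y => Real.exp (γ / 2 * (y - u)) with hE
  have hEpos : ∀ y, 0 < E y := fun y => Real.exp_pos _
  have hE1 : ∀ y, y < u → E y ≤ 1 := by
    intro y hy
    rw [hE]; simp only
    rw [Real.exp_le_one_iff]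
    nlinarith
  have hEint : ∀ y, Integrable (fun x => E (y - 2 * x)) (gaussianReal γ 1) := by
    intro y
    have : (fun x => E (y - 2 * x)) =
        fun x => Real.exp (γ / 2 * (y - u)) * Real.exp ((-γ) * x) := by
      funext x; rw [hE, ← Real.exp_add]; congr 1; ring
    rw [this]
    exact (climb_exp_int γ _).const_mul _
  have hEq : ∀ y, ∫ x, E (y - 2 * x) ∂(gaussianReal γ 1) = q * E y := by
    intro y
    have : (fun x => E (y - 2 * x)) =
        fun x => Real.exp (γ / 2 * (y - u)) * Real.exp ((-γ) * x) := by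
      funext x; rw [hE, ← Real.exp_add]; congr 1; ring
    rw [this, integral_const_mul, climb_exp, hq, hE, ← Real.exp_add, ← Real.exp_add]
    congr 1; ring
  set lam := c0 / 4 * E y₀ with hlam
  have hlampos : 0 < lam := by have := hEpos y₀; positivity
  have h1q : 0 < 1 - q := by linarith
  set Q := (1 - q)⁻¹ with hQ
  have hQpos : 0 < Q := by positivity
  have hQ1 : Q * (1 - q) = 1 := by rw [hQ]; field_simp
  have key : ∀ m l : ℕ, l + m = n → ∀ y < u,
      M - σ * l - σ * (Q * (E y / lam)) + G * (c0 * E y ^ 2 - lam * E y - q ^ m * E y) ≤ k l y := by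
    intro m
    induction m with
    | zero =>
      intro l hl y hy
      have h1 := hlow l (by omega) y
      have h2 : c0 * E y ^ 2 - lam * E y - q ^ 0 * E y ≤ 0 := by
        have e1 := hE1 y hy
        have e0 := hEpos y
        have : c0 * E y ^ 2 ≤ E y := by nlinarith [mul_nonneg hc0pos.le e0.le]
        have : 0 ≤ lam * E y := by positivity
        rw [pow_zero]; linarith
      have h3 : 0 ≤ σ * (Q * (E y / lam)) := by
        have e0 := hEpos y
        positivity
      have h4 : G * (c0 * E y ^ 2 - lam * E y - q ^ 0 * E y) ≤ 0 :=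
        mul_nonpos_of_nonneg_of_nonpos hG h2
      linarith
    | succ m ih =>
      intro l hl y hy
      have e0 := hEpos y
      rcases le_or_gt (E y) lam with hcase | hcase
      · have h1 := hlow l (by omega) y
        have h2 : c0 * E y ^ 2 - lam * E y - q ^ (m + 1) * E y ≤ 0 := by
          have : c0 * E y ^ 2 ≤ lam * E y := by
            nlinarith [mul_nonneg (sub_nonneg.mpr hcase) e0.le, mul_nonneg (sub_nonneg.mpr hc0le) (sq_nonneg (E y))]
          have : 0 ≤ q ^ (m + 1) * E y := by positivity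
          linarith
        have h3 : 0 ≤ σ * (Q * (E y / lam)) := by positivity
        have h4 : G * (c0 * E y ^ 2 - lam * E y - q ^ (m + 1) * E y) ≤ 0 :=
          mul_nonpos_of_nonneg_of_nonpos hG h2
        linarith
      · obtain ⟨hψi, hψ⟩ := climb_psi γ hγ u y hy
        set ψ : ℝ → ℝ := fun x => if u ≤ y - 2 * x then (1 : ℝ)
          else climbC γ * Real.exp (γ / 2 * (y - 2 * x - u)) ^ 2 with hψdef
        have hb : ∀ x, M - σ * ((l + 1 : ℕ) : ℝ) + (G * ψ x -
            (σ * (Q / lam) + G * lam + G * q ^ m) * E (y - 2 * x)) ≤ k (l + 1) (y - 2 * x) := by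
          intro x
          have e1 := hEpos (y - 2 * x)
          by_cases hx : u ≤ y - 2 * x
          · have := hhigh (l + 1) (by omega) (y - 2 * x) hx
            have hψx : ψ x = 1 := by rw [hψdef]; simp only; rw [if_pos hx]
            rw [hψx]
            have : 0 ≤ (σ * (Q / lam) + G * lam + G * q ^ m) * E (y - 2 * x) := by positivity
            linarith
          · have := ih (l + 1) (by omega) (y - 2 * x) (not_le.mp hx)
            have hψx : ψ x = c0 * E (y - 2 * x) ^ 2 := by
              rw [hψdef]; simp only; rw [if_neg hx]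
            rw [hψx]
            refine le_trans (le_of_eq ?_) this
            ring
        have hF : Integrable (fun x => M - σ * ((l + 1 : ℕ) : ℝ) + (G * ψ x -
            (σ * (Q / lam) + G * lam + G * q ^ m) * E (y - 2 * x))) (gaussianReal γ 1) :=
          (integrable_const _).add ((hψi.const_mul _).sub ((hEint y).const_mul _))
        have hmono := integral_mono hF (hint l (by omega) y) hb
        have hval : ∫ x, (M - σ * ((l + 1 : ℕ) : ℝ) + (G * ψ x -
            (σ * (Q / lam) + G * lam + G * q ^ m) * E (y - 2 * x))) ∂(gaussianReal γ 1) =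
            M - σ * ((l + 1 : ℕ) : ℝ) + (G * ∫ x, ψ x ∂(gaussianReal γ 1) -
              (σ * (Q / lam) + G * lam + G * q ^ m) * (q * E y)) := by
          have hi1 : Integrable (fun x => G * ψ x) (gaussianReal γ 1) := hψi.const_mul _
          have hi2 : Integrable (fun x => (σ * (Q / lam) + G * lam + G * q ^ m) * E (y - 2 * x))
              (gaussianReal γ 1) := (hEint y).const_mul _
          have hi3 : Integrable (fun x => G * ψ x -
              (σ * (Q / lam) + G * lam + G * q ^ m) * E (y - 2 * x)) (gaussianReal γ 1) :=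
            hi1.sub hi2
          have hi4 : Integrable (fun _ : ℝ => M - σ * ((l + 1 : ℕ) : ℝ)) (gaussianReal γ 1) :=
            integrable_const _
          rw [integral_add hi4 hi3, integral_sub hi1 hi2, integral_const_mul,
            integral_const_mul, hEq, integral_const]
          simp
        have hk := hstep l (by omega) y
        refine le_trans ?_ (le_trans hmono hk)
        rw [hval]
        have hr : (1 : ℝ) ≤ E y / lam := by rw [le_div_iff₀ hlampos]; linarith
        have hr' : σ ≤ σ * (Q * (1 - q)) * (E y / lam) := by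
          rw [hQ1]; nlinarith
        have hGψ : G * (c0 * E y ^ 2) ≤ G * ∫ x, ψ x ∂(gaussianReal γ 1) :=
          mul_le_mul_of_nonneg_left hψ hG
        have hGl : G * lam * (q * E y) ≤ G * lam * E y := by
          apply mul_le_mul_of_nonneg_left _ (by positivity)
          nlinarith
        have e3 : σ * (Q / lam) * (q * E y) = σ * (Q * (E y / lam)) - σ * (Q * (1 - q)) * (E y / lam) := by
          ring
        have e4 : G * q ^ m * (q * E y) = G * (q ^ (m + 1) * E y) := by ring
        have e5 : (σ * (Q / lam) + G * lam + G * q ^ m) * (q * E y) =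
            σ * (Q / lam) * (q * E y) + G * lam * (q * E y) + G * q ^ m * (q * E y) := by ring
        rw [e5, e3, e4]
        have e6 : σ * ((l + 1 : ℕ) : ℝ) = σ * l + σ := by push_cast; ring
        have e7 : G * (c0 * E y ^ 2 - lam * E y - q ^ (m + 1) * E y) =
            G * (c0 * E y ^ 2) - G * lam * E y - G * (q ^ (m + 1) * E y) := by ring
        rw [e6, e7]
        linarith
  have hfin := key n 0 (by omega) y₀ hyu
  refine le_trans ?_ hfin
  have e0 := hEpos y₀
  have h1 : E y₀ / lam = 4 / c0 := by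
    rw [hlam]; field_simp
  have h2 : q ^ n ≤ c0 / 4 * E y₀ := by
    have e1 : q ^ n = Real.exp (-γ ^ 2 / 2 * n) := by
      rw [hq, ← Real.exp_nat_mul]; congr 1; ring
    have e2 : c0 / 4 * E y₀ = Real.exp (Real.log (c0 / 4) + γ / 2 * (y₀ - u)) := by
      rw [Real.exp_add, Real.exp_log (by positivity)]
    rw [e1, e2]
    apply Real.exp_le_exp.mpr
    have h3 : γ ^ 2 / 2 * ((u - y₀) / γ + -2 * Real.log (c0 / 4) / γ ^ 2) ≤ γ ^ 2 / 2 * n :=
      mul_le_mul_of_nonneg_left hn (by positivity)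
    have h4 : γ ^ 2 / 2 * ((u - y₀) / γ + -2 * Real.log (c0 / 4) / γ ^ 2) =
        γ / 2 * (u - y₀) - Real.log (c0 / 4) := by
      field_simp
      ring
    rw [h4] at h3
    linarith
  have h5 : Real.exp (-γ * (u - y₀)) = E y₀ ^ 2 := by
    rw [hE, ← Real.exp_nat_mul]; congr 1; push_cast; ring
  rw [h1, h5]
  have h6 : c0 / 2 * E y₀ ^ 2 ≤ c0 * E y₀ ^ 2 - lam * E y₀ - q ^ n * E y₀ := by
    have : q ^ n * E y₀ ≤ c0 / 4 * E y₀ * E y₀ := mul_le_mul_of_nonneg_right h2 e0.le
    rw [hlam]
    nlinarith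
  have h7 := mul_le_mul_of_nonneg_left h6 hG
  simp only [Nat.cast_zero, mul_zero, sub_zero]
  linarith


/-- This is `climb` for the exponent `γ / 2` and the walk `2 y` (`y ↦ y + z`, `z ~ N(-γ / 2, 1)`,
becomes `2 y ↦ 2 y - 2 x`, `x ~ N(γ / 2, 1)`), with constants which do not depend on `γ`: restate
`climb` with its explicit constants `(1 - q)⁻¹ * (4 / c0)`, `c0 / 2`,
`-2 * Real.log (c0 / 4) / γ ^ 2`, `c0 = climbC γ`, `q = exp (-γ ^ 2 / 2)` (same proof) and bound
them for `γ ∈ [1 / 4, 1 / 2]`. -/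
theorem climb2 : ∃ Cr co Cn : ℝ, 0 ≤ Cr ∧ 0 < co ∧ co ≤ 1 ∧ 1 ≤ Cn ∧
    ∀ γ : ℝ, 1 / 2 ≤ γ → γ ≤ 1 →
    ∀ (k : ℕ → ℝ → ℝ) (M σ G u y₀ : ℝ) (n : ℕ), 0 ≤ σ → 0 ≤ G → y₀ < u →
      Cn * (1 + (u - y₀)) ≤ n →
      (∀ l < n, ∀ y, Integrable (fun z => k (l + 1) (y + z)) (gaussianReal (-(γ / 2)) 1)) →
      (∀ l < n, ∀ y, ∫ z, k (l + 1) (y + z) ∂(gaussianReal (-(γ / 2)) 1) ≤ k l y) →
      (∀ l ≤ n, ∀ y, M - σ * l ≤ k l y) →
      (∀ l ≤ n, ∀ y, u ≤ y → M - σ * l + G ≤ k l y) →
      M - σ * Cr + G * co * Real.exp (- γ * (u - y₀)) ≤ k 0 y₀ := by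
  set cm : ℝ := Real.exp (-4) * (1 - Real.exp (-1)) with hcm
  have hcmpos : 0 < cm := by
    have : Real.exp (-1) < 1 := by
      rw [Real.exp_lt_one_iff]; norm_num
    exact mul_pos (Real.exp_pos _) (by linarith)
  have hcmle : cm ≤ 1 := by
    have h1 : Real.exp (-4) ≤ 1 := by
      rw [Real.exp_le_one_iff]; norm_num
    have h2 := Real.exp_pos (-1)
    have h3 : 1 - Real.exp (-1) ≤ 1 := by linarith
    have h4 : 0 ≤ 1 - Real.exp (-1) := by
      have : Real.exp (-1) < 1 := by
        rw [Real.exp_lt_one_iff]; norm_num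
      linarith
    calc cm ≤ 1 * 1 := mul_le_mul h1 h3 h4 zero_le_one
      _ = 1 := one_mul 1
  set qm : ℝ := Real.exp (-(1 / 32)) with hqm
  have hqm1 : qm < 1 := by
    rw [hqm, Real.exp_lt_one_iff]; norm_num
  have hlogm : Real.log (cm / 4) ≤ 0 := Real.log_nonpos (by positivity) (by linarith)
  refine ⟨(1 - qm)⁻¹ * (4 / cm), cm / 2, 9 + -32 * Real.log (cm / 4), ?_, by positivity,
    by linarith, by linarith, ?_⟩
  · have : 0 < 1 - qm := by linarith
    positivity
  intro γ hγ1 hγ2 k M σ G u y₀ n hσ hG hyu hn hint hstep hlow hhigh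
  set g : ℝ := γ / 2 with hg
  have hg0 : 0 < g := by linarith
  have hg1 : 1 / 4 ≤ g := by linarith
  have hg2 : g ≤ 1 / 2 := by linarith
  have hgsq1 : 1 / 16 ≤ g ^ 2 := by nlinarith
  have hgsq2 : g ^ 2 ≤ 1 / 4 := by nlinarith
  have hc0 : cm ≤ climbC g := by
    unfold climbC
    have h1 : Real.exp (-4) ≤ Real.exp (-16 * g ^ 2) := Real.exp_le_exp.2 (by linarith)
    have h2 : Real.exp (-16 * g ^ 2) ≤ Real.exp (-1) := Real.exp_le_exp.2 (by linarith)
    have h3 : Real.exp (-1) < 1 := by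
      rw [Real.exp_lt_one_iff]; norm_num
    exact mul_le_mul h1 (by linarith) (by linarith) (Real.exp_pos _).le
  have hc0pos : 0 < climbC g := climbC_pos hg0
  have hq : Real.exp (-g ^ 2 / 2) ≤ qm := Real.exp_le_exp.2 (by linarith)
  -- the integrals
  have hmap : (gaussianReal g 1).map (fun x => -x) = gaussianReal (-g) 1 := by
    rw [gaussianReal_map_neg]
  have hmeas : Measurable (fun x : ℝ => -x) := measurable_neg
  have hemb : MeasurableEmbedding (fun x : ℝ => -x) := (MeasurableEquiv.neg ℝ).measurableEmbedding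
  have hI : ∀ (f : ℝ → ℝ) (Y : ℝ), (∫ x, f ((Y - 2 * x) / 2) ∂(gaussianReal g 1)) =
      ∫ z, f (Y / 2 + z) ∂(gaussianReal (-g) 1) := by
    intro f Y
    rw [← hmap, hemb.integral_map]
    congr 1
    funext x
    congr 1
    ring
  have hIi : ∀ (f : ℝ → ℝ) (Y : ℝ), Integrable (fun z => f (Y / 2 + z)) (gaussianReal (-g) 1) →
      Integrable (fun x => f ((Y - 2 * x) / 2)) (gaussianReal g 1) := by
    intro f Y h
    rw [← hmap, hemb.integrable_map_iff] at h
    refine h.congr (Eventually.of_forall fun x => ?_)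
    simp only [Function.comp]
    congr 1
    ring
  have hmain := vh1_climb g hg0 (fun l Y => k l (Y / 2)) M σ G (2 * u) (2 * y₀) n hσ hG
    (by linarith) ?_ ?_ ?_ ?_ ?_
  · have e1 : -g * (2 * u - 2 * y₀) = -γ * (u - y₀) := by rw [hg]; ring
    have e2 : 2 * y₀ / 2 = y₀ := by ring
    rw [e1] at hmain
    simp only [e2] at hmain
    refine le_trans ?_ hmain
    have h1q : 0 < 1 - qm := by linarith
    have h1 : (1 - Real.exp (-g ^ 2 / 2))⁻¹ * (4 / climbC g) ≤ (1 - qm)⁻¹ * (4 / cm) := by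
      have hA : (1 - Real.exp (-g ^ 2 / 2))⁻¹ ≤ (1 - qm)⁻¹ := by
        apply inv_anti₀ h1q
        linarith
      have hB : 4 / climbC g ≤ 4 / cm := div_le_div_of_nonneg_left (by norm_num) hcmpos hc0
      exact mul_le_mul hA hB (by positivity) (by positivity)
    have h2 := mul_le_mul_of_nonneg_left h1 hσ
    have h3 : G * (cm / 2) * Real.exp (-γ * (u - y₀)) ≤
        G * (climbC g / 2) * Real.exp (-γ * (u - y₀)) := by
      apply mul_le_mul_of_nonneg_right _ (Real.exp_pos _).le
      exact mul_le_mul_of_nonneg_left (by linarith) hG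
    linarith
  · refine le_trans ?_ hn
    have h1 : (2 * u - 2 * y₀) / g ≤ 8 * (u - y₀) := by
      rw [div_le_iff₀ hg0]
      nlinarith [mul_nonneg (sub_nonneg.2 hyu.le) (sub_nonneg.2 hg1)]
    have hlog : Real.log (cm / 4) ≤ Real.log (climbC g / 4) :=
      Real.log_le_log (by positivity) (by linarith)
    have hlog0 : Real.log (climbC g / 4) ≤ 0 :=
      Real.log_nonpos (by positivity) (by linarith [climbC_le (γ := g)])
    have h2 : -2 * Real.log (climbC g / 4) / g ^ 2 ≤ -32 * Real.log (cm / 4) := by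
      rw [div_le_iff₀ (by positivity)]
      have ha : -2 * Real.log (climbC g / 4) ≤ -2 * Real.log (cm / 4) := by linarith
      have hb : 0 ≤ -Real.log (cm / 4) := by linarith
      nlinarith [mul_nonneg hb (sub_nonneg.2 hgsq1)]
    have h3 : 0 ≤ -32 * Real.log (cm / 4) := by linarith
    have h4 : 0 ≤ u - y₀ := by linarith
    nlinarith [mul_nonneg h3 h4]
  · intro l hl Y
    exact hIi (k (l + 1)) Y (hint l hl (Y / 2))
  · intro l hl Y
    rw [hI (k (l + 1)) Y]
    exact hstep l hl (Y / 2)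
  · intro l hl Y
    exact hlow l hl (Y / 2)
  · intro l hl Y hY
    exact hhigh l hl (Y / 2) (by linarith)

end Pool.Agent.Lib.MP_3d9a2b_pr
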