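import Pool.Agent.Lib.MP_3d9a2b_pr.V.DP
import Pool.Agent.Lib.MP_3d9a2b_pr.V.Climb2
import Pool.Agent.Lib.MP_3d9a2b_pr.U.Recur

set_option autoImplicit false

/-! Task VH2: the probability that `N` cells contain a chain of gain `v` made of interface steps
only. -/

namespace Pool.Agent.Lib.MP_3d9a2b_pr

open MeasureTheory ProbabilityTheory Filter Topology
open scoped NNReal ENNReal

namespace VBase

/-- prepend one coordinate -/
def vcons (p : ℝ × (ℕ → ℝ)) : ℕ → ℝ := fun n => Nat.casesOn n p.1 p.2

@[simp] lemma vcons_zero (p : ℝ × (ℕ → ℝ)) : vcons p 0 = p.1 := rfl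
@[simp] lemma vcons_succ (p : ℝ × (ℕ → ℝ)) (n : ℕ) : vcons p (n + 1) = p.2 n := rfl

lemma measurable_vcons : Measurable vcons := by
  refine measurable_pi_lambda _ fun n => ?_
  cases n with
  | zero => exact measurable_fst
  | succ n => exact (measurable_pi_apply n).comp measurable_snd

lemma map_vcons (μ : Measure ℝ) [IsProbabilityMeasure μ] :
    (μ.prod (Measure.infinitePi (fun _ : ℕ => μ))).map vcons =
      Measure.infinitePi (fun _ : ℕ => μ) := by
  refine Measure.eq_infinitePi _ fun s t ht => ?_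
  classical
  obtain ⟨N, hN⟩ : ∃ N, s ⊆ Finset.range (N + 1) :=
    ⟨s.sup id, fun i hi => Finset.mem_range.2 (Nat.lt_succ_of_le (Finset.le_sup (f := id) hi))⟩
  set t' : ℕ → Set ℝ := fun i => if i ∈ s then t i else Set.univ with ht'
  have hmt' : ∀ i, MeasurableSet (t' i) := fun i => by
    simp only [ht']; split_ifs
    · exact ht i
    · exact MeasurableSet.univ
  have hpre : vcons ⁻¹' (Set.pi s t) =
      (t' 0) ×ˢ (Set.pi (Finset.range N) (fun i => t' (i + 1))) := by
    ext p
    simp only [Set.mem_preimage, Set.mem_pi, Set.mem_prod, Finset.coe_range, Set.mem_Iio, ht']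
    constructor
    · intro h
      constructor
      · split_ifs with h0
        · exact h 0 h0
        · trivial
      · intro i _
        split_ifs with h0
        · exact h (i + 1) h0
        · trivial
    · rintro ⟨h0, h1⟩ i hi
      have hiN := Finset.mem_range.1 (hN hi)
      cases i with
      | zero => simpa [Finset.mem_coe.1 hi] using h0
      | succ i =>
        have := h1 i (by omega)
        simpa [Finset.mem_coe.1 hi] using this
  rw [Measure.map_apply measurable_vcons (MeasurableSet.pi (Finset.countable_toSet _)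
    (fun i _ => ht i)), hpre, Measure.prod_prod]
  rw [Measure.infinitePi_pi _ (fun i _ => hmt' _)]
  have h2 : ∏ i ∈ s, μ (t i) = ∏ i ∈ Finset.range (N + 1), μ (t' i) := by
    rw [← Finset.prod_subset hN]
    · refine Finset.prod_congr rfl fun i hi => ?_
      simp [ht', hi]
    · intro i _ hi
      simp [ht', hi]
  rw [h2, Finset.prod_range_succ', mul_comm]

lemma shx_vcons (p : ℝ × (ℕ → ℝ)) : shx 1 (vcons p) = p.2 := by
  funext n; simp [shx]

/-- integrate a section over the first coordinate -/
lemma real_eq_integral (μ : Measure ℝ) [IsProbabilityMeasure μ] {T : Set (ℕ → ℝ)}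
    (hT : MeasurableSet T) :
    (Measure.infinitePi (fun _ : ℕ => μ)).real T =
      ∫ z, (Measure.infinitePi (fun _ : ℕ => μ)).real {ζ | vcons (z, ζ) ∈ T} ∂μ := by
  have h1 : (Measure.infinitePi (fun _ : ℕ => μ)) T =
      ∫⁻ z, (Measure.infinitePi (fun _ : ℕ => μ)) {ζ | vcons (z, ζ) ∈ T} ∂μ := by
    conv_lhs => rw [← map_vcons μ]
    rw [Measure.map_apply measurable_vcons hT, Measure.prod_apply (measurable_vcons hT)]
    rfl
  rw [measureReal_def, h1, integral_eq_lintegral_of_nonneg_ae
    (Eventually.of_forall fun z => measureReal_nonneg)]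
  · congr 1
    refine lintegral_congr fun z => ?_
    rw [measureReal_def, ENNReal.ofReal_toReal (measure_ne_top _ _)]
  · refine Measurable.aestronglyMeasurable ?_
    exact (measurable_measure_prodMk_left (measurable_vcons hT)).ennreal_toReal

lemma integrable_section (μ : Measure ℝ) [IsProbabilityMeasure μ] {T : Set (ℕ → ℝ)}
    (hT : MeasurableSet T) :
    Integrable (fun z => (Measure.infinitePi (fun _ : ℕ => μ)).real {ζ | vcons (z, ζ) ∈ T}) μ := by
  refine Integrable.mono' (integrable_const (1 : ℝ)) ?_ (Eventually.of_forall fun z => ?_)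
  · exact ((measurable_measure_prodMk_left (measurable_vcons hT)).ennreal_toReal).aestronglyMeasurable
  · rw [Real.norm_of_nonneg measureReal_nonneg]; exact measureReal_le_one

/-- sum of the gains of `e` interface steps -/
noncomputable def W (b : ℝ) (e : ℕ) (z : ℕ → ℝ) : ℝ := ∑ j ∈ Finset.range e, (- z j + b)

lemma W_zero (b : ℝ) (z : ℕ → ℝ) : W b 0 z = 0 := by simp [W]

lemma W_succ (b : ℝ) (e : ℕ) (z : ℕ → ℝ) : W b (e + 1) z = - z 0 + b + W b e (shx 1 z) := by
  simp only [W, Finset.sum_range_succ', shx]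
  ring

lemma measurable_W (b : ℝ) (e : ℕ) : Measurable (W b e) := by
  unfold W
  fun_prop

/-- success set of the walk which is at `y` (the cost of the start being paid) -/
def GA (b L₀ v : ℝ) (m : ℕ) (y : ℝ) : Set (ℕ → ℝ) :=
  {z | z ∈ vGood b L₀ m v ∨ ∃ e < m, v ≤ y + W b e z - |z e|}

variable {b L₀ v : ℝ}

lemma GA_mono {m : ℕ} {y y' : ℝ} (h : y ≤ y') : GA b L₀ v m y ⊆ GA b L₀ v m y' := by
  rintro z (h1 | ⟨e, he, h1⟩)
  · exact Or.inl h1
  · exact Or.inr ⟨e, he, by linarith⟩

lemma GA_step {m : ℕ} {y : ℝ} {z : ℕ → ℝ} (h : shx 1 z ∈ GA b L₀ v m (y + (- z 0 + b))) :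
    z ∈ GA b L₀ v (m + 1) y := by
  rcases h with h | ⟨e, he, h⟩
  · exact Or.inl (vGood_shift (by omega) h)
  · refine Or.inr ⟨e + 1, by omega, ?_⟩
    rw [W_succ]
    simp only [shx] at h ⊢
    linarith

lemma GA_start {m : ℕ} {z : ℕ → ℝ} (h : shx 1 z ∈ GA b L₀ v m (- z 0 + b - |z 0|)) :
    z ∈ vGood b L₀ (m + 1) v := by
  rcases h with h | ⟨e, he, h⟩
  · exact vGood_shift (by omega) h
  · refine ⟨0, e + 1, by omega, by omega, ?_⟩
    have h1 : W b (e + 1) z ≤ vLL b L₀ (e + 1 - 0) (shx 0 z) := by
      have := vLL_inter b L₀ (e + 1) z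
      exact this
    rw [W_succ] at h1
    simp only [shx] at h h1 ⊢
    linarith

lemma measurableSet_GA_prod (m : ℕ) :
    MeasurableSet {p : ℝ × (ℕ → ℝ) | p.2 ∈ GA b L₀ v m p.1} := by
  have : {p : ℝ × (ℕ → ℝ) | p.2 ∈ GA b L₀ v m p.1} =
      (Prod.snd ⁻¹' vGood b L₀ m v) ∪ ⋃ e : ℕ, {p : ℝ × (ℕ → ℝ) | e < m ∧
        v ≤ p.1 + W b e p.2 - |p.2 e|} := by
    ext p; simp [GA]
  rw [this]
  refine (measurable_snd (measurableSet_vGood _ _ _ _)).union (MeasurableSet.iUnion fun e => ?_)
  have h1 : Measurable (fun p : ℝ × (ℕ → ℝ) => W b e p.2) := (measurable_W b e).comp measurable_snd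
  have h3 : MeasurableSet {p : ℝ × (ℕ → ℝ) | v ≤ p.1 + W b e p.2 - |p.2 e|} := by
    refine measurableSet_le measurable_const ((measurable_fst.add h1).sub ?_)
    exact ((measurable_pi_apply e).comp measurable_snd).norm
  exact (MeasurableSet.const (e < m)).inter h3

lemma measurableSet_GA (m : ℕ) (y : ℝ) : MeasurableSet (GA b L₀ v m y) :=
  (measurable_prodMk_left (x := y)) (measurableSet_GA_prod m)

section
variable (b L₀ v) (B : ℝ)

/-- the success probability -/
noncomputable def kk (m : ℕ) (y : ℝ) : ℝ :=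
  (Measure.infinitePi (fun _ : ℕ => gaussianReal B 1)).real (GA b L₀ v m y)

noncomputable def gg (m : ℕ) : ℝ :=
  (Measure.infinitePi (fun _ : ℕ => gaussianReal B 1)).real (vGood b L₀ m v)

end

variable {B : ℝ}

lemma kk_mono {m : ℕ} {y y' : ℝ} (h : y ≤ y') : kk b L₀ v B m y ≤ kk b L₀ v B m y' :=
  measureReal_mono (GA_mono h)

lemma kk_nonneg {m : ℕ} {y : ℝ} : 0 ≤ kk b L₀ v B m y := measureReal_nonneg

lemma kk_le_one {m : ℕ} {y : ℝ} : kk b L₀ v B m y ≤ 1 := measureReal_le_one

lemma measurable_kk (m : ℕ) : Measurable (kk b L₀ v B m) :=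
  Monotone.measurable (fun _ _ h => kk_mono h)

lemma integrable_kk (m : ℕ) {g : ℝ → ℝ} (hg : Measurable g) (μ : Measure ℝ)
    [IsProbabilityMeasure μ] : Integrable (fun z => kk b L₀ v B m (g z)) μ := by
  refine Integrable.mono' (integrable_const (1 : ℝ)) ?_ (Eventually.of_forall fun z => ?_)
  · exact ((measurable_kk m).comp hg).aestronglyMeasurable
  · rw [Real.norm_of_nonneg kk_nonneg]; exact kk_le_one

lemma gg_start (m : ℕ) :
    ∫ z, kk b L₀ v B m (- z + b - |z|) ∂gaussianReal B 1 ≤ gg b L₀ v B (m + 1) := by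
  unfold gg
  rw [real_eq_integral (gaussianReal B 1) (measurableSet_vGood b L₀ (m + 1) v)]
  refine integral_mono (integrable_kk m (by fun_prop) _)
    (integrable_section _ (measurableSet_vGood _ _ _ _)) fun z => ?_
  refine measureReal_mono fun ζ hζ => ?_
  refine GA_start ?_
  rw [shx_vcons]
  simpa using hζ

lemma kk_step (m : ℕ) (y : ℝ) :
    ∫ z, kk b L₀ v B m (y + (- z + b)) ∂gaussianReal B 1 ≤ kk b L₀ v B (m + 1) y := by
  conv_rhs => unfold kk
  rw [real_eq_integral (gaussianReal B 1) (measurableSet_GA (m + 1) y)]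
  refine integral_mono (integrable_kk m (by fun_prop) _)
    (integrable_section _ (measurableSet_GA _ _)) fun z => ?_
  refine measureReal_mono fun ζ hζ => ?_
  refine GA_step ?_
  rw [shx_vcons]
  simpa using hζ

lemma kk_abandon (m : ℕ) (y : ℝ) : gg b L₀ v B m ≤ kk b L₀ v B m y :=
  measureReal_mono fun _ h => Or.inl h

lemma prob_two {B : ℝ} (h0 : 0 ≤ B) (h1 : B ≤ 1) :
    1 / 2 ≤ (gaussianReal B 1).real {z : ℝ | |z| ≤ 2} := by
  have hvar : ∫ z, z ^ 2 ∂gaussianReal B 1 = 1 + B ^ 2 := by
    have h := variance_eq_sub (μ := gaussianReal B 1) (X := id) (memLp_id_gaussianReal 2)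
    rw [variance_id_gaussianReal] at h
    have hi : ∫ x, id x ∂gaussianReal B 1 = B := integral_id_gaussianReal
    rw [hi] at h
    simp only [NNReal.coe_one, Pi.pow_apply, id_eq] at h
    linarith
  have hint : Integrable (fun z : ℝ => z ^ 2) (gaussianReal B 1) := by
    have := (memLp_id_gaussianReal (μ := B) (v := 1) 2).integrable_sq
    simpa using this
  have hm := mul_meas_ge_le_integral_of_nonneg (μ := gaussianReal B 1)
    (f := fun z : ℝ => z ^ 2) (Eventually.of_forall fun z => sq_nonneg z) hint 4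
  rw [hvar] at hm
  have hc : (gaussianReal B 1).real {z : ℝ | |z| ≤ 2}ᶜ ≤ 1 / 2 := by
    have hsub : {z : ℝ | |z| ≤ 2}ᶜ ⊆ {z : ℝ | 4 ≤ z ^ 2} := by
      intro z hz
      simp only [Set.mem_compl_iff, Set.mem_ofPred_eq, not_le] at hz
      simp only [Set.mem_ofPred_eq]
      rw [← sq_abs]
      nlinarith
    have h2 := measureReal_mono (μ := gaussianReal B 1) hsub
    have h3 : 4 * (gaussianReal B 1).real {z : ℝ | 4 ≤ z ^ 2} ≤ 1 + B ^ 2 := hm
    nlinarith
  have hms : MeasurableSet {z : ℝ | |z| ≤ 2} := measurableSet_le (by fun_prop) measurable_const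
  have h4 := measureReal_compl (μ := gaussianReal B 1) hms
  rw [h4] at hc
  simp at hc
  linarith

lemma kk_win (h0 : 0 ≤ B) (h1 : B ≤ 1) (m : ℕ) (y : ℝ) (hy : v + 2 ≤ y) :
    1 / 2 ≤ kk b L₀ v B (m + 1) y := by
  have hms : MeasurableSet {z : ℝ | |z| ≤ 2} := measurableSet_le (by fun_prop) measurable_const
  have h2 : (gaussianReal B 1).real {z : ℝ | |z| ≤ 2} =
      (Measure.infinitePi (fun _ : ℕ => gaussianReal B 1)).real {ζ | |ζ 0| ≤ 2} := by
    conv_lhs => rw [measureReal_def, ← Measure.infinitePi_map_eval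
      (fun _ : ℕ => gaussianReal B 1) 0, Measure.map_apply (by fun_prop) hms]
    rfl
  refine (prob_two h0 h1).trans (h2.le.trans (measureReal_mono fun ζ hζ =>
    Or.inr ⟨0, by omega, ?_⟩))
  have : |ζ 0| ≤ 2 := hζ
  rw [W_zero]
  linarith

end VBase

open VBase in
theorem base_tail : ∃ c₀ CN : ℝ, 0 < c₀ ∧ c₀ ≤ 1 ∧ 1 ≤ CN ∧ ∀ b L₀ B γ : ℝ, 0 ≤ b → b ≤ 1 / 2 →
    γ = 2 * (B - b) → 1 / 2 ≤ γ → γ ≤ 1 → ∀ (N : ℕ) (V : ℝ), 0 ≤ V → CN * (1 + V) ≤ N →
    ∀ v : ℝ, 0 ≤ v → v ≤ V →
      min (1 / 4) (c₀ * N * Real.exp (-γ * v)) ≤ (nuX 1 B).real (vGood b L₀ N v) := by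
  obtain ⟨Cr, co, Cn, hCr, hco, hco1, hCn, hclimb⟩ := climb2
  set c' : ℝ := co * Real.exp (-6) / (8 * (1 + Cr)) with hc'
  have hc'0 : 0 < c' := by positivity
  have hc'1 : c' ≤ 1 := by
    rw [hc', div_le_one (by positivity)]
    have : Real.exp (-6 : ℝ) ≤ 1 := Real.exp_le_one_iff.2 (by norm_num)
    nlinarith [Real.exp_pos (-6 : ℝ)]
  refine ⟨c' / 2, 14 * Cn + 4, by positivity, by linarith, by linarith, ?_⟩
  intro b L₀ B γ hb0 hb1 hγ hγ0 hγ1 N V hV hN v hv0 hvV
  have hB0 : 0 ≤ B := by linarith
  have hB1 : B ≤ 1 := by linarith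
  have hnu : nuX 1 B = Measure.infinitePi (fun _ : ℕ => gaussianReal B 1) := by
    unfold nuX
    simp
  rw [hnu]
  set σ : ℝ := c' * Real.exp (-γ * v) with hσ
  have hσ0 : 0 < σ := by positivity
  set Ns : ℝ := Cn * (7 + v) + 2 with hNs
  -- the law of one step
  have hmap : (gaussianReal B 1).map (fun z => - z + b) = gaussianReal (-(γ / 2)) 1 := by
    have h1 : (gaussianReal B 1).map (fun z : ℝ => - z) = gaussianReal (-B) 1 := by
      have := gaussianReal_map_neg (μ := B) (v := 1)
      exact this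
    have h2 : (fun z : ℝ => - z + b) = (fun z => z + b) ∘ (fun z => - z) := rfl
    rw [h2, ← Measure.map_map (by fun_prop) (by fun_prop), h1, gaussianReal_map_add_const]
    congr 1
    rw [hγ]; ring
  have key : ∀ n : ℕ, min (1 / 4) (σ * (n - Ns)) ≤ gg b L₀ v B n := by
    intro n
    induction n using Nat.strong_induction_on with
    | _ n ih =>
      rcases lt_or_ge (n : ℝ) Ns with hlt | hge
      · refine (min_le_right _ _).trans (le_trans ?_ measureReal_nonneg)
        exact mul_nonpos_of_nonneg_of_nonpos hσ0.le (by linarith)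
      · have hn9 : (9 : ℝ) ≤ n := by
          have : (9 : ℝ) ≤ Ns := by rw [hNs]; nlinarith
          linarith
        have hn2 : 9 ≤ n := by exact_mod_cast hn9
        obtain ⟨m, rfl⟩ : ∃ m, n = m + 1 := ⟨n - 1, by omega⟩
        obtain ⟨m', hm'⟩ : ∃ m', m = m' + 1 := ⟨m - 1, by omega⟩
        set Φ : ℝ := min (1 / 4) (σ * (((m + 1 : ℕ) : ℝ) - Ns)) with hΦ
        have hΦ4 : Φ ≤ 1 / 4 := min_le_left _ _
        have hlow : ∀ l ≤ m', ∀ y, Φ - σ - σ * l ≤ kk b L₀ v B (m - l) y := by
          intro l hl y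
          refine le_trans ?_ (kk_abandon (m - l) y)
          refine le_trans ?_ (ih (m - l) (by omega))
          have hcast : ((m - l : ℕ) : ℝ) = m - l := by
            rw [Nat.cast_sub (by omega)]
          rw [hcast]
          have hl0 : (0 : ℝ) ≤ l := Nat.cast_nonneg _
          refine le_min ?_ ?_
          · nlinarith
          · have : Φ ≤ σ * (((m + 1 : ℕ) : ℝ) - Ns) := min_le_right _ _
            push_cast at this
            nlinarith
        have hmain := hclimb γ hγ0 hγ1 (fun l y => kk b L₀ v B (m - l) y) (Φ - σ) σ (1 / 4)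
          (v + 2) (-4) m' hσ0.le (by norm_num) (by linarith)
          (by
            have h1 : ((m' + 1 + 1 : ℕ) : ℝ) = m' + 2 := by push_cast; ring
            rw [hm', h1, hNs] at hge
            have h2 : Cn * (1 + (v + 2 - -4)) = Cn * (7 + v) := by ring
            rw [h2]
            linarith)
          (fun l _ y => integrable_kk _ (by fun_prop) _)
          (fun l hl y => by
            have h1 : m - l = (m - (l + 1)) + 1 := by omega
            have e := integral_map (μ := gaussianReal B 1) (φ := fun z : ℝ => - z + b)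
              (f := fun z => kk b L₀ v B (m - (l + 1)) (y + z)) (by fun_prop)
              ((measurable_kk (m - (l + 1))).comp
                (by fun_prop : Measurable fun z : ℝ => y + z)).aestronglyMeasurable
            rw [h1, ← hmap, e]
            exact kk_step (m - (l + 1)) y)
          (fun l hl y => hlow l hl y)
          (fun l hl y hy => by
            have h1 : m - l = (m - l - 1) + 1 := by omega
            have h2 : 1 / 2 ≤ kk b L₀ v B (m - l) y := by
              rw [h1]
              exact kk_win hB0 hB1 _ y hy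
            have h3 : 0 ≤ σ * l := by positivity
            linarith)
        simp only [Nat.sub_zero] at hmain
        have hexp : Real.exp (-6) * Real.exp (-γ * v) ≤ Real.exp (-γ * (v + 2 - -4)) := by
          rw [← Real.exp_add]
          apply Real.exp_le_exp.2
          nlinarith
        set R : ℝ := 1 / 4 * co * Real.exp (-γ * (v + 2 - -4)) - σ * Cr with hR
        have hR2 : 2 * σ ≤ R := by
          have h1 : σ * (8 * (1 + Cr)) = co * (Real.exp (-6) * Real.exp (-γ * v)) := by
            rw [hσ, hc']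
            field_simp
          have h2 : co * (Real.exp (-6) * Real.exp (-γ * v)) ≤
              co * Real.exp (-γ * (v + 2 - -4)) := mul_le_mul_of_nonneg_left hexp hco.le
          rw [hR]
          nlinarith [mul_nonneg hσ0.le hCr]
        refine le_trans ?_ (gg_start m)
        have hE : MeasurableSet {z : ℝ | |z| ≤ 2} :=
          measurableSet_le (by fun_prop) measurable_const
        have hint : ∫ z, (Φ - σ + Set.indicator {z : ℝ | |z| ≤ 2} (fun _ => R) z)
            ∂gaussianReal B 1 ≤ ∫ z, kk b L₀ v B m (- z + b - |z|) ∂gaussianReal B 1 := by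
          refine integral_mono ?_ (integrable_kk _ (by fun_prop) _) fun z => ?_
          · exact (integrable_const _).add ((integrable_const R).indicator hE)
          · have h0 := hlow 0 (by omega) (- z + b - |z|)
            simp only [Nat.cast_zero, mul_zero, sub_zero, Nat.sub_zero] at h0
            by_cases hz : z ∈ {z : ℝ | |z| ≤ 2}
            · simp only [Set.indicator_of_mem hz]
              have hz' : |z| ≤ 2 := hz
              have h1 := kk_mono (b := b) (L₀ := L₀) (v := v) (B := B) (m := m)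
                (show (-4 : ℝ) ≤ - z + b - |z| by linarith [le_abs_self z])
              linarith
            · simp only [Set.indicator_of_notMem hz, add_zero]
              exact h0
        refine le_trans ?_ hint
        rw [integral_add (integrable_const _) ((integrable_const R).indicator hE),
          integral_indicator_const _ hE]
        simp only [integral_const, probReal_univ, smul_eq_mul, one_mul]
        have hp := prob_two hB0 hB1
        have hRσ : 0 ≤ R := by linarith
        nlinarith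
  have hfin := key N
  refine le_trans ?_ hfin
  refine min_le_min_left _ ?_
  have hN' : 2 * Ns ≤ N := by
    rw [hNs]
    refine le_trans ?_ hN
    nlinarith
  rw [hσ]
  have h2 : 0 ≤ c' * Real.exp (-γ * v) := by positivity
  have h3 : (N : ℝ) / 2 ≤ N - Ns := by linarith
  calc c' / 2 * N * Real.exp (-γ * v) = c' * Real.exp (-γ * v) * (N / 2) := by ring
    _ ≤ c' * Real.exp (-γ * v) * (N - Ns) := mul_le_mul_of_nonneg_left h3 h2

end Pool.Agent.Lib.MP_3d9a2b_pr
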