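import Pool.Agent.Lib.MP_3d9a2b_pr.V.Defs
import Pool.Agent.Lib.MP_3d9a2b_pr.Bits

set_option autoImplicit false

/-! Task VB1: functions of disjoint blocks of bits are independent. -/

namespace Pool.Agent.Lib.MP_3d9a2b_pr

open MeasureTheory ProbabilityTheory Filter Topology
open scoped NNReal ENNReal

section
variable {α : ℝ} {Ω Ω' : Type} [MeasurableSpace Ω] [MeasurableSpace Ω'] {P : Measure Ω}
  {P' : Measure Ω'} [IsProbabilityMeasure P'] (M : Model α P P')

private theorem vb1_meas (S : Set ℕ) (G : (ℕ → Bool) → ℝ≥0∞) (hG : Measurable G)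
    (hdep : ∀ u v : ℕ → Bool, (∀ n ∈ S, u n = v n) → G u = G v) :
    Measurable[⨆ n ∈ S, MeasurableSpace.comap (M.ξ n) inferInstance]
      (fun ω' => G (fun n => M.ξ n ω')) := by
  classical
  have h1 : (fun ω' => G (fun n => M.ξ n ω')) =
      G ∘ (fun ω' => fun n => if n ∈ S then M.ξ n ω' else false) := by
    funext ω'
    simp only [Function.comp_apply]
    apply hdep
    intro n hn
    rw [if_pos hn]
  rw [h1]
  refine hG.comp ?_
  refine @measurable_pi_lambda _ _ _ (_) _ _ fun n => ?_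
  by_cases hn : n ∈ S
  · simp only [if_pos hn]
    have h2 : MeasurableSpace.comap (M.ξ n) inferInstance ≤
        ⨆ n ∈ S, MeasurableSpace.comap (M.ξ n) inferInstance :=
      le_iSup₂ (f := fun n (_ : n ∈ S) => MeasurableSpace.comap (M.ξ n) inferInstance) n hn
    exact (comap_measurable (M.ξ n)).mono h2 le_rfl
  · simp only [if_neg hn]
    exact @measurable_const _ _ _ (_) _

/-- `G i` depends only on the bits with index in `S i`, the sets `S i` are disjoint. -/
theorem bits_prod (K : ℕ) (S : ℕ → Set ℕ) (hS : ∀ i < K, ∀ j < K, i ≠ j → Disjoint (S i) (S j))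
    (G : ℕ → (ℕ → Bool) → ℝ≥0∞) (hG : ∀ i < K, Measurable (G i))
    (hdep : ∀ i < K, ∀ u v : ℕ → Bool, (∀ n ∈ S i, u n = v n) → G i u = G i v) :
    ∫⁻ ω', ∏ i ∈ Finset.range K, G i (fun n => M.ξ n ω') ∂P' =
      ∏ i ∈ Finset.range K, ∫⁻ ω', G i (fun n => M.ξ n ω') ∂P' := by
  induction K with
  | zero => simp
  | succ K ih =>
    have ih' := ih (fun i hi j hj => hS i (by omega) j (by omega)) (fun i hi => hG i (by omega))
      (fun i hi => hdep i (by omega))
    rw [Finset.prod_range_succ, ← ih']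
    simp_rw [Finset.prod_range_succ]
    have hle : ∀ n, MeasurableSpace.comap (M.ξ n) inferInstance ≤ ‹MeasurableSpace Ω'› :=
      fun n => (M.measurable_ξ n).comap_le
    have hle' : ∀ T : Set ℕ, (⨆ n ∈ T, MeasurableSpace.comap (M.ξ n) inferInstance) ≤
        ‹MeasurableSpace Ω'› := fun T => iSup₂_le fun n _ => hle n
    have hdisj : Disjoint (⋃ i ∈ Finset.range K, S i) (S K) := by
      rw [Set.disjoint_iUnion₂_left]
      intro i hi
      have hi' : i < K := Finset.mem_range.1 hi
      exact hS i (by omega) K (by omega) (by omega)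
    have hind := indep_iSup_of_disjoint (m := fun n => MeasurableSpace.comap (M.ξ n) inferInstance)
      hle M.iIndep_ξ.iIndep hdisj
    have hm1 : Measurable[⨆ n ∈ ⋃ i ∈ Finset.range K, S i,
        MeasurableSpace.comap (M.ξ n) inferInstance]
        (fun ω' => ∏ i ∈ Finset.range K, G i (fun n => M.ξ n ω')) := by
      refine vb1_meas M _ (fun b => ∏ i ∈ Finset.range K, G i b) ?_ ?_
      · exact Finset.measurable_prod _ fun i hi => hG i (by
          have := Finset.mem_range.1 hi
          omega)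
      · intro u v huv
        refine Finset.prod_congr rfl fun i hi => ?_
        have hi' : i < K := Finset.mem_range.1 hi
        exact hdep i (by omega) u v fun n hn => huv n (Set.mem_biUnion hi hn)
    have hm2 : Measurable[⨆ n ∈ S K, MeasurableSpace.comap (M.ξ n) inferInstance]
        (fun ω' => G K (fun n => M.ξ n ω')) :=
      vb1_meas M _ (G K) (hG K (by omega)) (hdep K (by omega))
    exact lintegral_mul_eq_lintegral_mul_lintegral_of_independent_measurableSpace
      (hle' _) (hle' _) hind hm1 hm2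

private noncomputable def vb1_Y (n : ℕ) (ω' : Ω') : ℝ := (if M.ξ n ω' then (1 : ℝ) else 0) - 1 / 2

private theorem vb1_Y_meas (n : ℕ) : Measurable (vb1_Y M n) := by
  unfold vb1_Y
  exact ((measurable_of_countable (fun b : Bool => if b then (1 : ℝ) else 0)).comp
    (M.measurable_ξ n)).sub_const _

private theorem vb1_Y_abs (n : ℕ) (ω' : Ω') : |vb1_Y M n ω'| = 1 / 2 := by
  unfold vb1_Y
  split_ifs <;> norm_num [abs_of_nonneg, abs_of_neg]

private theorem vb1_Y_int (n : ℕ) : Integrable (vb1_Y M n) P' := by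
  refine Integrable.of_bound (vb1_Y_meas M n).aestronglyMeasurable (1 / 2)
    (ae_of_all _ fun ω' => ?_)
  rw [Real.norm_eq_abs, vb1_Y_abs]

private theorem vb1_Y_mean (n : ℕ) : ∫ ω', vb1_Y M n ω' ∂P' = 0 := by
  have h1 := M.integral_W (fun _ => true) 1 (fun _ => n) (by
    intro i hi j hj _
    omega)
  have h2 : ∀ ω', Model.W (fun _ => true) 1 (fun _ => n) (fun n => M.ξ n ω') =
      vb1_Y M n ω' + 1 / 2 := by
    intro ω'
    simp [Model.W, vb1_Y]
  simp_rw [h2] at h1
  rw [integral_add (vb1_Y_int M n) (integrable_const _)] at h1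
  simp at h1
  linarith

private theorem vb1_Y_mul (n m : ℕ) :
    ∫ ω', vb1_Y M n ω' * vb1_Y M m ω' ∂P' = if n = m then 1 / 4 else 0 := by
  split_ifs with h
  · subst h
    have h1 : ∀ ω', vb1_Y M n ω' * vb1_Y M n ω' = 1 / 4 := by
      intro ω'
      rw [← abs_mul_abs_self, vb1_Y_abs]
      norm_num
    simp_rw [h1]
    simp
  · have hind : IndepFun (vb1_Y M n) (vb1_Y M m) P' := by
      have h1 := M.iIndep_ξ.indepFun h
      have hm : Measurable (fun b : Bool => (if b then (1 : ℝ) else 0) - 1 / 2) :=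
        measurable_of_countable _
      exact h1.comp hm hm
    have h2 := hind.integral_mul_eq_mul_integral (vb1_Y_meas M n).aestronglyMeasurable
      (vb1_Y_meas M m).aestronglyMeasurable
    simp only [Pi.mul_apply] at h2
    rw [h2, vb1_Y_mean, zero_mul]

private theorem vb1_part (l : ℕ → ℝ) (N : ℕ) :
    ∫ ω', (∑ n ∈ Finset.range N, vb1_Y M n ω' * l n) ^ 2 ∂P' =
      (∑ n ∈ Finset.range N, l n ^ 2) / 4 := by
  have h1 : ∀ ω', (∑ n ∈ Finset.range N, vb1_Y M n ω' * l n) ^ 2 =
      ∑ n ∈ Finset.range N, ∑ m ∈ Finset.range N, (l n * l m) * (vb1_Y M n ω' * vb1_Y M m ω') := by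
    intro ω'
    rw [sq, Finset.sum_mul_sum]
    refine Finset.sum_congr rfl fun n _ => Finset.sum_congr rfl fun m _ => ?_
    ring
  have hint : ∀ n m, Integrable (fun ω' => (l n * l m) * (vb1_Y M n ω' * vb1_Y M m ω')) P' := by
    intro n m
    refine Integrable.const_mul ?_ _
    refine Integrable.of_bound
      ((vb1_Y_meas M n).mul (vb1_Y_meas M m)).aestronglyMeasurable (1 / 4)
      (ae_of_all _ fun ω' => ?_)
    rw [Real.norm_eq_abs, abs_mul, vb1_Y_abs, vb1_Y_abs]
    norm_num
  simp_rw [h1]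
  rw [integral_finsetSum _ fun n _ => integrable_finsetSum _ fun m _ => hint n m]
  simp_rw [integral_finsetSum _ fun m (_ : m ∈ Finset.range N) => hint _ m, integral_const_mul,
    vb1_Y_mul]
  rw [Finset.sum_div]
  refine Finset.sum_congr rfl fun n hn => ?_
  rw [Finset.sum_eq_single n]
  · rw [if_pos rfl]
    ring
  · intro m _ hmn
    rw [if_neg (Ne.symm hmn), mul_zero]
  · intro h
    exact absurd hn h

/-- second moment of a centred sum of bits -/
theorem bits_sq (l : ℕ → ℝ) (hl : Summable l) (hl0 : ∀ n, 0 ≤ l n) :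
    ∫⁻ ω', ENNReal.ofReal ((∑' n, ((if M.ξ n ω' then (1 : ℝ) else 0) - 1 / 2) * l n) ^ 2) ∂P' =
      ENNReal.ofReal ((∑' n, l n ^ 2) / 4) := by
  have hs : ∀ ω', Summable (fun n => vb1_Y M n ω' * l n) := by
    intro ω'
    refine Summable.of_norm_bounded (g := fun n => 1 / 2 * l n) (hl.mul_left _) fun n => ?_
    rw [Real.norm_eq_abs, abs_mul, vb1_Y_abs, abs_of_nonneg (hl0 n)]
  have hlim : ∀ ω', Tendsto (fun N => ∑ n ∈ Finset.range N, vb1_Y M n ω' * l n) atTop
      (𝓝 (∑' n, vb1_Y M n ω' * l n)) := fun ω' => (hs ω').hasSum.tendsto_sum_nat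
  have hbd : ∀ N ω', |∑ n ∈ Finset.range N, vb1_Y M n ω' * l n| ≤ 1 / 2 * ∑' n, l n := by
    intro N ω'
    refine (Finset.abs_sum_le_sum_abs _ _).trans ?_
    have h1 : ∀ n, |vb1_Y M n ω' * l n| = 1 / 2 * l n := by
      intro n
      rw [abs_mul, vb1_Y_abs, abs_of_nonneg (hl0 n)]
    simp_rw [h1]
    rw [← Finset.mul_sum]
    exact mul_le_mul_of_nonneg_left (hl.sum_le_tsum _ fun n _ => hl0 n) (by norm_num)
  have hmeas : ∀ N, Measurable (fun ω' => ∑ n ∈ Finset.range N, vb1_Y M n ω' * l n) :=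
    fun N => Finset.measurable_sum _ fun n _ => (vb1_Y_meas M n).mul_const _
  have hT := tendsto_integral_of_dominated_convergence (μ := P')
    (F := fun N ω' => (∑ n ∈ Finset.range N, vb1_Y M n ω' * l n) ^ 2)
    (f := fun ω' => (∑' n, vb1_Y M n ω' * l n) ^ 2) (fun _ => (1 / 2 * ∑' n, l n) ^ 2)
    (fun N => ((hmeas N).pow_const 2).aestronglyMeasurable) (integrable_const _)
    (fun N => ae_of_all _ fun ω' => by
      rw [Real.norm_eq_abs, abs_pow]
      exact pow_le_pow_left₀ (abs_nonneg _) (hbd N ω') 2)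
    (ae_of_all _ fun ω' => (hlim ω').pow 2)
  simp_rw [vb1_part] at hT
  have hl2 : Summable (fun n => l n ^ 2) := by
    have h1 : ∀ n, l n ≤ ∑' n, l n := fun n => hl.le_tsum n fun m _ => hl0 m
    refine Summable.of_nonneg_of_le (fun n => sq_nonneg _) (fun n => ?_)
      (hl.mul_left (∑' n, l n))
    rw [sq]
    exact mul_le_mul_of_nonneg_right (h1 n) (hl0 n)
  have hT2 : Tendsto (fun N => (∑ n ∈ Finset.range N, l n ^ 2) / 4) atTop
      (𝓝 ((∑' n, l n ^ 2) / 4)) := hl2.hasSum.tendsto_sum_nat.div_const 4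
  have heq := tendsto_nhds_unique hT hT2
  rw [← heq, ofReal_integral_eq_lintegral_ofReal]
  · rfl
  · have hm : Measurable (fun ω' => ∑' n, vb1_Y M n ω' * l n) :=
      measurable_of_tendsto_metrizable hmeas (tendsto_pi_nhds.2 hlim)
    refine Integrable.of_bound (hm.pow_const 2).aestronglyMeasurable ((1 / 2 * ∑' n, l n) ^ 2)
      (ae_of_all _ fun ω' => ?_)
    rw [Real.norm_eq_abs, abs_pow]
    refine pow_le_pow_left₀ (abs_nonneg _) ?_ 2
    exact le_of_tendsto (hlim ω').abs (Eventually.of_forall fun N => hbd N ω')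
  · exact ae_of_all _ fun ω' => sq_nonneg _

end

end Pool.Agent.Lib.MP_3d9a2b_pr
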