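import Pool.Agent.Lib.MP_3d9a2b_pr.V.Defs
import Pool.Agent.Lib.MP_3d9a2b_pr.U.Recur

set_option autoImplicit false

/-! Task VI3: functions of disjoint blocks of the environment are independent. -/

namespace Pool.Agent.Lib.MP_3d9a2b_pr

open MeasureTheory ProbabilityTheory Filter Topology
open scoped NNReal ENNReal

theorem measurable_shx (m : ℕ) : Measurable (shx m) := by
  unfold shx
  exact measurable_pi_lambda _ fun j => measurable_pi_apply _

private theorem vi3_shx_glue (m : ℕ) (p : (Fin m → ℝ) × (ℕ → ℝ)) : shx m (ue_glue m p) = p.2 := by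
  funext j
  unfold shx ue_glue
  rw [dif_neg (by omega), Nat.add_sub_cancel]

private theorem vi3_map_glue (a B : ℝ) (D : ℕ) :
    ((Measure.pi (fun _ : Fin D => gaussianReal (B * a) a.toNNReal)).prod (nuX a B)).map
      (ue_glue D) = nuX a B := ue_map_glue _ D

private theorem vi3_prob (a B : ℝ) : IsProbabilityMeasure (nuX a B) := by
  unfold nuX
  infer_instance

/-- shift invariance -/
theorem map_shx_nuX (a B : ℝ) (m : ℕ) : (nuX a B).map (shx m) = nuX a B := by
  have hprob := vi3_prob a B
  have h1 := vi3_map_glue a B m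
  have h2 : (nuX a B).map (shx m) =
      ((Measure.pi (fun _ : Fin m => gaussianReal (B * a) a.toNNReal)).prod (nuX a B)).map
        (fun p => p.2) := by
    conv_lhs => rw [← h1]
    rw [Measure.map_map (measurable_shx m) (ue_measurable_glue m)]
    congr 1
    funext p
    exact vi3_shx_glue m p
  rw [h2]
  have h3 := Measure.map_snd_prod
    (μ := Measure.pi (fun _ : Fin m => gaussianReal (B * a) a.toNNReal)) (ν := nuX a B)
  rw [measure_univ, one_smul] at h3
  exact h3

private theorem vi3_blocks (a B : ℝ) (N : ℕ) (f : (ℕ → ℝ) → ℕ) (hf : Measurable f)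
    (hdep : ∀ x y : ℕ → ℝ, (∀ i < N, x i = y i) → f x = f y) : ∀ (M : ℕ) (s : ℕ → Set ℕ),
      nuX a B {x | ∀ k < M, f (shx (k * N) x) ∈ s k} =
        ∏ k ∈ Finset.range M, nuX a B {x | f x ∈ s k} := by
  have hprob := vi3_prob a B
  intro M
  induction M with
  | zero =>
    intro s
    simp
  | succ M ih =>
    intro s
    have hms : ∀ (m : ℕ) (t : Set ℕ), MeasurableSet {x : ℕ → ℝ | f (shx m x) ∈ t} := fun m t =>
      (hf.comp (measurable_shx m)) (MeasurableSet.of_discrete (s := t))
    have hS : MeasurableSet {x : ℕ → ℝ | ∀ k < M + 1, f (shx (k * N) x) ∈ s k} := by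
      have e : {x : ℕ → ℝ | ∀ k < M + 1, f (shx (k * N) x) ∈ s k} =
          ⋂ k : Fin (M + 1), {x : ℕ → ℝ | f (shx (k * N) x) ∈ s k} := by
        ext x
        simp only [Set.mem_ofPred_eq, Set.mem_iInter]
        exact ⟨fun h k => h k k.2, fun h k hk => h ⟨k, hk⟩⟩
      rw [e]
      exact MeasurableSet.iInter fun k => hms _ _
    have hF : MeasurableSet {x : ℕ → ℝ | f x ∈ s 0} :=
      hf (MeasurableSet.of_discrete (s := s 0))
    set F : (Fin N → ℝ) → ℕ := fun b => f (ue_glue N (b, fun _ => 0)) with hFdef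
    have hFg : ∀ p : (Fin N → ℝ) × (ℕ → ℝ), f (ue_glue N p) = F p.1 := by
      intro p
      apply hdep
      intro i hi
      unfold ue_glue
      rw [dif_pos hi, dif_pos hi]
    have hshift : ∀ (p : (Fin N → ℝ) × (ℕ → ℝ)) (k : ℕ),
        shx ((k + 1) * N) (ue_glue N p) = shx (k * N) p.2 := by
      intro p k
      rw [← vi3_shx_glue N p]
      funext j
      unfold shx
      congr 1
      ring
    rw [Finset.prod_range_succ', ← ih (fun k => s (k + 1))]
    have h1 : nuX a B {x | f x ∈ s 0} =
        Measure.pi (fun _ : Fin N => gaussianReal (B * a) a.toNNReal) {b | F b ∈ s 0} := by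
      conv_lhs => rw [← vi3_map_glue a B N]
      rw [Measure.map_apply (ue_measurable_glue N) hF]
      have e : ue_glue N ⁻¹' {x | f x ∈ s 0} = {b | F b ∈ s 0} ×ˢ Set.univ := by
        ext p
        simp only [Set.mem_preimage, Set.mem_ofPred_eq, Set.mem_prod, Set.mem_univ, and_true, hFg]
      rw [e, Measure.prod_prod, measure_univ, mul_one]
    rw [h1]
    conv_lhs => rw [← vi3_map_glue a B N]
    rw [Measure.map_apply (ue_measurable_glue N) hS]
    have e : ue_glue N ⁻¹' {x | ∀ k < M + 1, f (shx (k * N) x) ∈ s k} =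
        {b | F b ∈ s 0} ×ˢ {x | ∀ k < M, f (shx (k * N) x) ∈ s (k + 1)} := by
      ext p
      simp only [Set.mem_preimage, Set.mem_ofPred_eq, Set.mem_prod]
      have e0 : shx (0 * N) (ue_glue N p) = ue_glue N p := by
        funext j
        unfold shx
        rw [zero_mul, add_zero]
      constructor
      · intro h
        refine ⟨?_, fun k hk => ?_⟩
        · have := h 0 (by omega)
          rwa [e0, hFg] at this
        · have := h (k + 1) (by omega)
          rwa [hshift] at this
      · rintro ⟨h0, h2⟩ k hk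
        rcases Nat.eq_zero_or_pos k with rfl | hk0
        · rwa [e0, hFg]
        · obtain ⟨k, rfl⟩ : ∃ l, k = l + 1 := ⟨k - 1, by omega⟩
          rw [hshift]
          exact h2 k (by omega)
    rw [e, Measure.prod_prod, mul_comm]

/-- `f` depends on the first `N` coordinates only -/
theorem blocks_iid (a B : ℝ) (N M : ℕ) (f : (ℕ → ℝ) → ℕ) (hf : Measurable f)
    (hdep : ∀ x y : ℕ → ℝ, (∀ i < N, x i = y i) → f x = f y) :
    (nuX a B).map (fun x (k : Fin M) => f (shx (k * N) x)) =
      Measure.pi (fun _ : Fin M => (nuX a B).map f) := by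
  have hprob := vi3_prob a B
  have hprob2 : IsProbabilityMeasure ((nuX a B).map f) :=
    Measure.isProbabilityMeasure_map hf.aemeasurable
  symm
  apply Measure.pi_eq
  intro s hs
  have hm : Measurable (fun x (k : Fin M) => f (shx (k * N) x)) :=
    measurable_pi_lambda _ fun k => hf.comp (measurable_shx _)
  rw [Measure.map_apply hm (MeasurableSet.univ_pi hs)]
  set s' : ℕ → Set ℕ := fun k => if h : k < M then s ⟨k, h⟩ else Set.univ with hs'
  have h1 : (fun x (k : Fin M) => f (shx (k * N) x)) ⁻¹' (Set.univ.pi s) =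
      {x | ∀ k < M, f (shx (k * N) x) ∈ s' k} := by
    ext x
    simp only [Set.mem_preimage, Set.mem_pi, Set.mem_univ, forall_const, Set.mem_ofPred_eq, hs']
    constructor
    · intro h k hk
      rw [dif_pos hk]
      exact h ⟨k, hk⟩
    · intro h k
      have := h k k.2
      rwa [dif_pos k.2] at this
  rw [h1, vi3_blocks a B N f hf hdep M s', Finset.prod_range]
  refine Finset.prod_congr rfl fun k _ => ?_
  rw [Measure.map_apply hf (hs k)]
  have e : s' k = s k := by
    rw [hs']
    simp only
    rw [dif_pos k.2]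
  rw [e]
  rfl

end Pool.Agent.Lib.MP_3d9a2b_pr
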