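import Pool.Agent.Lib.MP_3d9a2b_pr.V.Defs
import Pool.Agent.Lib.MP_3d9a2b_pr.U.Core

set_option autoImplicit false

/-! Task VB2: pathwise estimates in an interface cell. -/

namespace Pool.Agent.Lib.MP_3d9a2b_pr

open MeasureTheory ProbabilityTheory Filter Topology
open scoped NNReal ENNReal

section
variable {α : ℝ} {Ω Ω' : Type} [MeasurableSpace Ω] [MeasurableSpace Ω'] {P : Measure Ω}
  {P' : Measure Ω'} (M : Model α P P')

/-- relative length, cut at `w`, of the excursion `n` if it starts in `[z, w)`, and `0` otherwise -/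
noncomputable def clen (θ z w : ℝ) (n : ℕ) (ω' : Ω') : ℝ := by
  classical
  exact if z ≤ M.left n ω' ∧ M.left n ω' < w then (min (M.right n ω') w - M.left n ω') / θ else 0

theorem vb2_clen_pos {θ z w : ℝ} {n : ℕ} {ω' : Ω'} (h : z ≤ M.left n ω' ∧ M.left n ω' < w) :
    clen M θ z w n ω' = (min (M.right n ω') w - M.left n ω') / θ := by
  unfold clen
  exact if_pos h

theorem vb2_clen_neg {θ z w : ℝ} {n : ℕ} {ω' : Ω'} (h : ¬ (z ≤ M.left n ω' ∧ M.left n ω' < w)) :
    clen M θ z w n ω' = 0 := by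
  unfold clen
  exact if_neg h

theorem clen_nonneg {θ : ℝ} (hθ : 0 < θ) (z w : ℝ) (n : ℕ) (ω' : Ω') :
    0 ≤ clen M θ z w n ω' := by
  by_cases h : z ≤ M.left n ω' ∧ M.left n ω' < w
  · rw [vb2_clen_pos M h]
    apply div_nonneg _ hθ.le
    have := M.left_lt_right n ω'
    exact sub_nonneg.2 (le_min this.le h.2.le)
  · rw [vb2_clen_neg M h]

/-- `z ∈ R` is not inside an excursion -/
theorem vb2_or {z : ℝ} {ω' : Ω'} (hz : z ∈ M.R ω') (n : ℕ) :
    z ≤ M.left n ω' ∨ M.right n ω' ≤ z := by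
  by_contra hcon
  push Not at hcon
  exact M.not_mem_of_mem_Ioo (n := n) (x := z) ⟨hcon.1, hcon.2⟩ hz

theorem vb2_len {θ z w : ℝ} (hθ : 0 < θ) (hzw : z ≤ w) {ω' : Ω'} (hz : z ∈ M.R ω') (n : ℕ) :
    (M.len w n ω' - M.len z n ω') / θ = clen M θ z w n ω' := by
  have hlr := M.left_lt_right n ω'
  unfold Model.len
  rcases vb2_or M hz n with h | h
  · rw [min_eq_right (h.trans hlr.le), min_eq_right h]
    by_cases h2 : M.left n ω' < w
    · rw [vb2_clen_pos M ⟨h, h2⟩, min_eq_left h2.le]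
      ring
    · rw [vb2_clen_neg M (fun h3 => h2 h3.2)]
      push Not at h2
      rw [min_eq_right (h2.trans hlr.le), min_eq_right h2]
      simp
  · rw [vb2_clen_neg M (fun h3 => absurd h3.1 (not_le.2 (lt_of_lt_of_le hlr h))),
      min_eq_left (h.trans hzw), min_eq_left (hlr.le.trans (h.trans hzw)), min_eq_left h,
      min_eq_left (hlr.le.trans h)]
    simp

/-- `z ∈ R`: the excursions starting in `[z, w)` cover `[z, w]` -/
theorem hasSum_clen {θ z w : ℝ} (hθ : 0 < θ) (hz0 : 0 ≤ z) (hzw : z ≤ w) {ω' : Ω'}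
    (hz : z ∈ M.R ω') : HasSum (fun n => clen M θ z w n ω') ((w - z) / θ) := by
  have h := (M.uc_hasSum_len hz0 hzw ω').div_const θ
  simpa only [vb2_len M hθ hzw hz] using h

theorem vb2_mono (ω' : Ω') : Monotone (nextPt (M.R ω')) := by
  intro s t hst
  unfold nextPt
  obtain ⟨r, hr, hr2⟩ := M.regen.unbounded ω' t
  exact csInf_le_csInf ⟨s, fun x hx => hx.2.le⟩ ⟨r, hr, hr2⟩
    (fun x hx => ⟨hx.1, lt_of_le_of_lt hst hx.2⟩)

theorem vb2_le_next (ω' : Ω') (t : ℝ) : t ≤ nextPt (M.R ω') t := by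
  unfold nextPt
  obtain ⟨r, hr, hr2⟩ := M.regen.unbounded ω' t
  exact le_csInf ⟨r, hr, hr2⟩ (fun x hx => hx.2.le)

theorem hasSum_clen_sq {θ z w : ℝ} (hθ : 0 < θ) (hz0 : 0 ≤ z) (hzw : z ≤ w) {ω' : Ω'}
    (hz : z ∈ M.R ω') : HasSum (fun n => clen M θ z w n ω' ^ 2) (vV (M.R ω') θ z w) := by
  set F : ℝ → ℝ := fun t => min (nextPt (M.R ω') t) w - t with hF
  have hFm : Measurable F := ((vb2_mono M ω').measurable.min measurable_const).sub measurable_id
  have hFi : IntegrableOn F (Set.Ioo z w) := by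
    have : IsFiniteMeasure (volume.restrict (Set.Ioo z w)) := ⟨by simp⟩
    refine Integrable.of_bound hFm.aestronglyMeasurable (w - z) ?_
    rw [ae_restrict_iff' measurableSet_Ioo]
    refine ae_of_all _ fun t ht => ?_
    have h1 := vb2_le_next M ω' t
    have h2 : min (nextPt (M.R ω') t) w ≤ w := min_le_right _ _
    have h3 : t ≤ min (nextPt (M.R ω') t) w := le_min h1 ht.2.le
    rw [Real.norm_eq_abs, abs_of_nonneg (by simp only [hF]; linarith)]
    simp only [hF]
    linarith [ht.1]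
  set S : ℕ → Set ℝ := fun n => Set.Ioo (M.left n ω') (M.right n ω') ∩ Set.Ioo z w with hS
  have hSU : ⋃ n, S n = Set.Ioo z w \ M.R ω' := by
    rw [hS, ← Set.iUnion_inter, M.iUnion_Ioo]
    ext x
    simp only [Set.mem_inter_iff, Set.mem_sdiff, Set.mem_Ici, Set.mem_Ioo]
    constructor
    · rintro ⟨⟨_, h⟩, h'⟩
      exact ⟨h', h⟩
    · rintro ⟨h', h⟩
      exact ⟨⟨hz0.trans h'.1.le, h⟩, h'⟩
  have hSi : IntegrableOn F (⋃ n, S n) := by
    rw [hSU]
    exact hFi.mono_set Set.sdiff_subset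
  have h1 := hasSum_integral_iUnion (μ := volume) (f := F) (s := S)
    (fun n => measurableSet_Ioo.inter measurableSet_Ioo)
    (fun n m hnm => (M.disjoint_Ioo ω' n m hnm).mono Set.inter_subset_left Set.inter_subset_left)
    hSi
  have h2 : ∫ t in ⋃ n, S n, F t = ∫ t in z..w, F t := by
    rw [intervalIntegral.integral_of_le hzw, integral_Ioc_eq_integral_Ioo, hSU]
    refine setIntegral_congr_set ?_
    have := M.regen.null ω'
    exact sdiff_null_ae_eq_self this
  rw [h2] at h1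
  have h3 := h1.mul_left (2 / θ ^ 2)
  unfold vV
  refine h3.congr_fun ?_ |> fun h => h
  intro n
  have hlr := M.left_lt_right n ω'
  by_cases hn : z ≤ M.left n ω' ∧ M.left n ω' < w
  · rw [vb2_clen_pos M hn]
    have hSn : S n = Set.Ioo (M.left n ω') (min (M.right n ω') w) := by
      simp only [hS]
      rw [Set.Ioo_inter_Ioo]
      congr 1
      exact sup_of_le_left hn.1
    have hlm : M.left n ω' ≤ min (M.right n ω') w := le_min hlr.le hn.2.le
    have h4 : ∫ t in S n, F t = ∫ t in (M.left n ω')..(min (M.right n ω') w),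
        (min (M.right n ω') w - t) := by
      rw [hSn, intervalIntegral.integral_of_le hlm, integral_Ioc_eq_integral_Ioo]
      refine setIntegral_congr_fun measurableSet_Ioo fun t ht => ?_
      simp only [hF]
      rw [M.nextPt_eq_right ht.1.le (lt_of_lt_of_le ht.2 (min_le_left _ _))]
    rw [h4, intervalIntegral.integral_sub intervalIntegrable_const
      intervalIntegral.intervalIntegrable_id, intervalIntegral.integral_const, integral_id,
      smul_eq_mul]
    field_simp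
    ring
  · rw [vb2_clen_neg M hn]
    have hSn : S n = ∅ := by
      simp only [hS]
      ext x
      simp only [Set.mem_inter_iff, Set.mem_Ioo, Set.mem_empty_iff_false, iff_false]
      rintro ⟨⟨a1, a2⟩, a3, a4⟩
      rcases vb2_or M hz n with h | h
      · exact hn ⟨h, a1.trans a4⟩
      · linarith
    rw [hSn]
    simp

/-- the fraction of time below in the cell `[w - θ, w)`, entered at the point `z` of `R` -/
theorem pp_near_half {θ κ : ℝ} (hθ : 0 < θ) {j : ℕ} {z : ℝ} {ω' : Ω'} (hz : z ∈ M.R ω')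
    (hz1 : θ * j ≤ z) (hz2 : z ≤ θ * (j + κ)) (hκ : κ ≤ 1) :
    |M.pp θ j ω' - 1 / 2| ≤ κ +
      |∑' n, ((if M.ξ n ω' then (1 : ℝ) else 0) - 1 / 2) * clen M θ z (θ * (j + 1)) n ω'| := by
  have hj0 : 0 ≤ θ * (j : ℝ) := by positivity
  have hz0 : 0 ≤ z := hj0.trans hz1
  have hzw : z ≤ θ * (j + 1) := hz2.trans (mul_le_mul_of_nonneg_left (by linarith) hθ.le)
  have h1 := (M.uc_hasSum_T hz0 hzw ω').div_const θ
  have e1 : ∀ n, (if M.ξ n ω' then (1 : ℝ) else 0) *
      (M.len (θ * (j + 1)) n ω' - M.len z n ω') / θ =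
      (if M.ξ n ω' then (1 : ℝ) else 0) * clen M θ z (θ * (j + 1)) n ω' := by
    intro n
    rw [← vb2_len M hθ hzw hz n]
    ring
  simp only [e1] at h1
  have h2 := (hasSum_clen M hθ hz0 hzw hz).mul_left (1 / 2 : ℝ)
  have h3 := h1.sub h2
  have e2 : ∀ n, (if M.ξ n ω' then (1 : ℝ) else 0) * clen M θ z (θ * (j + 1)) n ω' -
      1 / 2 * clen M θ z (θ * (j + 1)) n ω' =
      ((if M.ξ n ω' then (1 : ℝ) else 0) - 1 / 2) * clen M θ z (θ * (j + 1)) n ω' := by
    intro n
    ring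
  simp only [e2] at h3
  rw [h3.tsum_eq]
  have hA0 := M.uc_T_diff_nonneg hj0 hz1 ω'
  have hA1 := M.uc_T_diff_le hj0 hz1 ω'
  have e3 : M.pp θ j ω' - 1 / 2 = ((M.T z ω' - M.T (θ * j) ω') / θ - (z - θ * j) / θ / 2)
      + ((M.T (θ * (j + 1)) ω' - M.T z ω') / θ - 1 / 2 * ((θ * (j + 1) - z) / θ)) := by
    unfold Model.pp
    field_simp
    ring
  rw [e3]
  refine (abs_add_le _ _).trans (add_le_add_left ?_ _)
  have h4 : (M.T z ω' - M.T (θ * j) ω') / θ ≤ (z - θ * j) / θ :=
    div_le_div_of_nonneg_right hA1 hθ.le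
  have h5 : 0 ≤ (M.T z ω' - M.T (θ * j) ω') / θ := div_nonneg hA0 hθ.le
  have h6 : (z - θ * j) / θ ≤ κ := by
    rw [div_le_iff₀ hθ]
    linarith
  rw [abs_le]
  constructor <;> linarith

end

/-- weight of an interface cell: `σ` is the deviation of `p` from `1 / 2` up to `κ` -/
theorem psi_le_near {a p x κ σ : ℝ} (hp0 : 0 ≤ p) (hp1 : p ≤ 1) (ha : 0 ≤ a) (hκ : 0 < κ)
    (h : |p - 1 / 2| ≤ κ + |σ|) (hσ : |σ| ≤ 1 / 2) :
    psi a p x ≤ vKA a κ x + 4 * σ ^ 2 * vKB a κ x := by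
  have h1 : psi a p x ≤ Real.exp (-x + a / 2 + 2 * κ * |x|) * Real.exp (2 * |σ| * |x|) := by
    rw [← Real.exp_add]
    apply Real.exp_le_exp.2
    have h2 : 2 * a * (p * (1 - p)) ≤ a / 2 := by nlinarith [sq_nonneg (2 * p - 1)]
    have h3 : -2 * p * x ≤ -x + 2 * (κ + |σ|) * |x| := by
      have h4 : -(2 * (p - 1 / 2) * x) ≤ 2 * (κ + |σ|) * |x| := by
        calc -(2 * (p - 1 / 2) * x) ≤ |2 * (p - 1 / 2) * x| := neg_le_abs _
          _ = 2 * |p - 1 / 2| * |x| := by
              rw [abs_mul, abs_mul]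
              norm_num
          _ ≤ 2 * (κ + |σ|) * |x| := by gcongr
      linarith
    linarith
  have h2 : Real.exp (2 * |σ| * |x|) ≤ Real.exp (2 * κ * |x|) + σ ^ 2 / κ ^ 2 * Real.exp |x| := by
    have hE : 0 < Real.exp |x| := Real.exp_pos _
    rcases le_total |σ| κ with hc | hc
    · have h3 : Real.exp (2 * |σ| * |x|) ≤ Real.exp (2 * κ * |x|) := by
        apply Real.exp_le_exp.2
        gcongr
      have h4 : 0 ≤ σ ^ 2 / κ ^ 2 * Real.exp |x| := by positivity
      linarith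
    · have h3 : Real.exp (2 * |σ| * |x|) ≤ Real.exp |x| := by
        apply Real.exp_le_exp.2
        have := mul_le_mul_of_nonneg_right hσ (abs_nonneg x)
        linarith
      have h4 : 1 ≤ σ ^ 2 / κ ^ 2 := by
        rw [one_le_div (by positivity), ← sq_abs σ]
        exact pow_le_pow_left₀ hκ.le hc 2
      have h5 : 0 < Real.exp (2 * κ * |x|) := Real.exp_pos _
      nlinarith
  have hE : 0 < Real.exp (-x + a / 2 + 2 * κ * |x|) := Real.exp_pos _
  refine h1.trans ((mul_le_mul_of_nonneg_left h2 hE.le).trans (le_of_eq ?_))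
  unfold vKA vKB
  field_simp

end Pool.Agent.Lib.MP_3d9a2b_pr
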