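import Pool.Agent.Lib.MP_3d9a2b_pr.V.CondTail
import Pool.Agent.Lib.MP_3d9a2b_pr.V.CellI

set_option autoImplicit false

/-! Task VD3: the cells entered and left by interface steps are almost filled with tiny
excursions, conditionally on the scenario. -/

namespace Pool.Agent.Lib.MP_3d9a2b_pr

open MeasureTheory ProbabilityTheory Filter Topology
open scoped NNReal ENNReal

section
variable {α : ℝ} {Ω Ω' : Type} [MeasurableSpace Ω] [MeasurableSpace Ω'] {P : Measure Ω}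
  {P' : Measure Ω'} [IsProbabilityMeasure P'] (M : Model α P P')

/-- relative length of the excursion `n` if it is contained in the cell `j` -/
private noncomputable def vd3a (θ : ℝ) (j n : ℕ) (ω' : Ω') : ℝ :=
  (M.inCell θ j n).indicator (fun ω' => M.rlen θ n ω') ω'

open Classical in
private noncomputable def vd3I (θ : ℝ) (j n : ℕ) (ω' : Ω') : Set ℝ :=
  if ω' ∈ M.inCell θ j n then Set.Ioo (M.left n ω') (M.right n ω') else ∅

omit [IsProbabilityMeasure P'] in
private theorem vd3_a_nonneg {θ : ℝ} (hθ : 0 < θ) (j n : ℕ) (ω' : Ω') : 0 ≤ vd3a M θ j n ω' := by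
  unfold vd3a
  refine Set.indicator_nonneg (fun ω' _ => ?_) ω'
  exact div_nonneg (sub_nonneg.2 (M.left_lt_right n ω').le) hθ.le

omit [IsProbabilityMeasure P'] in
private theorem vd3_a_le {θ : ℝ} (hθ : 0 < θ) (j n : ℕ) (ω' : Ω') : vd3a M θ j n ω' ≤ 1 := by
  unfold vd3a
  by_cases h : ω' ∈ M.inCell θ j n
  · rw [Set.indicator_of_mem h]
    unfold Model.rlen
    rw [div_le_one hθ]
    obtain ⟨h1, h2⟩ := h
    nlinarith
  · rw [Set.indicator_of_notMem h]
    norm_num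

omit [IsProbabilityMeasure P'] in
private theorem vd3_vol {θ : ℝ} (hθ : 0 < θ) (j n : ℕ) (ω' : Ω') :
    volume (vd3I M θ j n ω') = ENNReal.ofReal (θ * vd3a M θ j n ω') := by
  unfold vd3I vd3a
  by_cases h : ω' ∈ M.inCell θ j n
  · rw [if_pos h, Set.indicator_of_mem h, Real.volume_Ioo]
    unfold Model.rlen
    rw [mul_div_cancel₀ _ hθ.ne']
  · rw [if_neg h, Set.indicator_of_notMem h, mul_zero, ENNReal.ofReal_zero, measure_empty]

omit [IsProbabilityMeasure P'] in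
private theorem vd3_sub (θ : ℝ) (j n : ℕ) (ω' : Ω') :
    vd3I M θ j n ω' ⊆ Set.Ioo (θ * j) (θ * (j + 1)) := by
  unfold vd3I
  split_ifs with h
  · exact Set.Ioo_subset_Ioo h.1 h.2
  · exact Set.empty_subset _

omit [IsProbabilityMeasure P'] in
private theorem vd3_sub' (θ : ℝ) (j n : ℕ) (ω' : Ω') :
    vd3I M θ j n ω' ⊆ Set.Ioo (M.left n ω') (M.right n ω') := by
  unfold vd3I
  split_ifs with h
  · exact le_rfl
  · exact Set.empty_subset _

omit [IsProbabilityMeasure P'] in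
private theorem vd3_disj (θ : ℝ) (j : ℕ) (ω' : Ω') :
    Pairwise (Function.onFun Disjoint fun n => vd3I M θ j n ω') := by
  intro n m hnm
  exact (M.disjoint_Ioo ω' n m hnm).mono (vd3_sub' M θ j n ω') (vd3_sub' M θ j m ω')

omit [IsProbabilityMeasure P'] in
private theorem vd3_meas (θ : ℝ) (j n : ℕ) (ω' : Ω') : MeasurableSet (vd3I M θ j n ω') := by
  unfold vd3I
  split_ifs with h
  · exact measurableSet_Ioo
  · exact MeasurableSet.empty

omit [IsProbabilityMeasure P'] in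
private theorem vd3_tsum_vol (θ : ℝ) (j : ℕ) (ω' : Ω') :
    ∑' n, volume (vd3I M θ j n ω') = volume (⋃ n, vd3I M θ j n ω') :=
  (measure_iUnion (vd3_disj M θ j ω') (vd3_meas M θ j · ω')).symm

omit [IsProbabilityMeasure P'] in
private theorem vd3_tsum_le {θ : ℝ} (hθ : 0 < θ) (j : ℕ) (ω' : Ω') :
    ∑' n, ENNReal.ofReal (θ * vd3a M θ j n ω') ≤ ENNReal.ofReal θ := by
  simp_rw [← vd3_vol M hθ]
  rw [vd3_tsum_vol]
  refine (measure_mono (Set.iUnion_subset fun n => vd3_sub M θ j n ω')).trans (le_of_eq ?_)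
  rw [Real.volume_Ioo]
  congr 1
  ring

omit [IsProbabilityMeasure P'] in
private theorem vd3_summable {θ : ℝ} (hθ : 0 < θ) (j : ℕ) (ω' : Ω') :
    Summable fun n => vd3a M θ j n ω' := by
  have h1 := ENNReal.summable_toReal (ne_top_of_le_ne_top ENNReal.ofReal_ne_top
    (vd3_tsum_le M hθ j ω'))
  have h2 : ∀ n, (ENNReal.ofReal (θ * vd3a M θ j n ω')).toReal = θ * vd3a M θ j n ω' := fun n =>
    ENNReal.toReal_ofReal (mul_nonneg hθ.le (vd3_a_nonneg M hθ j n ω'))
  simp_rw [h2] at h1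
  exact (summable_mul_left_iff hθ.ne').1 h1

omit [IsProbabilityMeasure P'] in
private theorem vd3_summable_sq {θ : ℝ} (hθ : 0 < θ) (j : ℕ) (ω' : Ω') :
    Summable fun n => vd3a M θ j n ω' ^ 2 := by
  refine Summable.of_nonneg_of_le (fun n => sq_nonneg _) (fun n => ?_) (vd3_summable M hθ j ω')
  have h1 := vd3_a_nonneg M hθ j n ω'
  have h2 := vd3_a_le M hθ j n ω'
  nlinarith

omit [IsProbabilityMeasure P'] in
private theorem vd3_sq (θ : ℝ) (j n : ℕ) (ω' : Ω') :
    (M.inCell θ j n).indicator (fun ω' => M.rlen θ n ω' ^ 2) ω' = vd3a M θ j n ω' ^ 2 := by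
  unfold vd3a
  by_cases h : ω' ∈ M.inCell θ j n
  · rw [Set.indicator_of_mem h, Set.indicator_of_mem h]
  · rw [Set.indicator_of_notMem h, Set.indicator_of_notMem h]
    norm_num

omit [IsProbabilityMeasure P'] in
private theorem vd3_cover {θ : ℝ} (hθ : 0 < θ) (j : ℕ) (ω' : Ω') :
    Set.Ioo (θ * j) (θ * (j + 1)) \ M.R ω' ⊆ (⋃ n, vd3I M θ j n ω') ∪
      (Set.Ioo (θ * j) (min (nextPt (M.R ω') (θ * j)) (θ * (j + 1))) ∪
        ({t | θ * (j + 1) < nextPt (M.R ω') t} ∩ Set.Ioc (θ * j) (θ * (j + 1)))) := by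
  rintro t ⟨⟨ht1, ht2⟩, htR⟩
  have hj : 0 ≤ θ * (j : ℝ) := by positivity
  obtain ⟨n, hn1, hn2⟩ := (M.mem_compl_iff ω' t).2 ⟨hj.trans ht1.le, htR⟩
  rcases lt_or_ge (M.left n ω') (θ * j) with h1 | h1
  · right
    left
    rw [M.nextPt_eq_right h1.le (ht1.trans hn2)]
    exact ⟨ht1, lt_min hn2 ht2⟩
  · rcases le_or_gt (M.right n ω') (θ * (j + 1)) with h2 | h2
    · left
      rw [Set.mem_iUnion]
      refine ⟨n, ?_⟩
      unfold vd3I
      have h3 : ω' ∈ M.inCell θ j n := ⟨h1, h2⟩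
      rw [if_pos h3]
      exact ⟨hn1, hn2⟩
    · right
      right
      refine ⟨?_, ht1, ht2.le⟩
      show θ * (j + 1) < nextPt (M.R ω') t
      rw [M.nextPt_eq_right hn1.le hn2]
      exact h2

omit [IsProbabilityMeasure P'] in
private theorem vd3_int_ind (j : ℕ) (θ : ℝ) (hθ : 0 < θ) (ω' : Ω') :
    volume ({t | θ * (j + 1) < nextPt (M.R ω') t} ∩ Set.Ioc (θ * j) (θ * (j + 1))) =
      ENNReal.ofReal (∫ t in (θ * j)..(θ * (j + 1)),
        (Set.Ioi (θ * (j + 1 : ℝ))).indicator (fun _ => (1 : ℝ)) (nextPt (M.R ω') t)) := by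
  have hm : MeasurableSet {t | θ * (j + 1) < nextPt (M.R ω') t} :=
    measurableSet_lt measurable_const (vb2_mono M ω').measurable
  have h1 : ∀ t, (Set.Ioi (θ * (j + 1 : ℝ))).indicator (fun _ => (1 : ℝ)) (nextPt (M.R ω') t) =
      {t | θ * (j + 1) < nextPt (M.R ω') t}.indicator 1 t := by
    intro t
    by_cases h : θ * (j + 1) < nextPt (M.R ω') t
    · rw [Set.indicator_of_mem (show nextPt (M.R ω') t ∈ Set.Ioi (θ * (j + 1 : ℝ)) from h),
        Set.indicator_of_mem (show t ∈ {t | θ * (j + 1) < nextPt (M.R ω') t} from h)]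
      rfl
    · rw [Set.indicator_of_notMem (show nextPt (M.R ω') t ∉ Set.Ioi (θ * (j + 1 : ℝ)) from h),
        Set.indicator_of_notMem (show t ∉ {t | θ * (j + 1) < nextPt (M.R ω') t} from h)]
  simp_rw [h1]
  rw [intervalIntegral.integral_of_le (by nlinarith), integral_indicator_one hm, Measure.real,
    Measure.restrict_apply hm, ENNReal.ofReal_toReal]
  refine ne_top_of_le_ne_top ?_ (measure_mono Set.inter_subset_right)
  rw [Real.volume_Ioc]
  exact ENNReal.ofReal_ne_top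

omit [IsProbabilityMeasure P'] in
private theorem vd3_C_nonneg {θ : ℝ} (hθ : 0 < θ) (j : ℕ) (ω' : Ω') :
    0 ≤ ∫ t in (θ * j)..(θ * (j + 1)),
      (Set.Ioi (θ * (j + 1 : ℝ))).indicator (fun _ => (1 : ℝ)) (nextPt (M.R ω') t) :=
  intervalIntegral.integral_nonneg (by nlinarith) fun t _ =>
    Set.indicator_nonneg (fun _ _ => zero_le_one) _

omit [IsProbabilityMeasure P'] in
private theorem vd3_intble (ω' : Ω') (w a b : ℝ) :
    IntervalIntegrable (fun t => min (nextPt (M.R ω') t) w - t) volume a b := by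
  have h1 : Monotone (fun t => min (nextPt (M.R ω') t) w) :=
    fun s s' h => min_le_min_right _ (vb2_mono M ω' h)
  exact (h1.intervalIntegrable).sub (continuous_id.intervalIntegrable _ _)

omit [IsProbabilityMeasure P'] in
private theorem vd3_sq_int {θ : ℝ} (hθ : 0 < θ) (j n : ℕ) (ω' : Ω') :
    ENNReal.ofReal (θ ^ 2 / 2 * vd3a M θ j n ω' ^ 2) =
      ∫⁻ t in vd3I M θ j n ω', ENNReal.ofReal (min (nextPt (M.R ω') t) (θ * (j + 1)) - t) := by
  unfold vd3a vd3I
  by_cases h : ω' ∈ M.inCell θ j n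
  · rw [if_pos h, Set.indicator_of_mem h]
    set l := M.left n ω' with hl
    set r := M.right n ω' with hr
    have hlr : l ≤ r := (M.left_lt_right n ω').le
    have h1 : ∫⁻ t in Set.Ioo l r, ENNReal.ofReal (min (nextPt (M.R ω') t) (θ * (j + 1)) - t) =
        ∫⁻ t in Set.Ioo l r, ENNReal.ofReal (r - t) := by
      refine setLIntegral_congr_fun measurableSet_Ioo fun t ht => ?_
      show ENNReal.ofReal (min (nextPt (M.R ω') t) (θ * (j + 1)) - t) = ENNReal.ofReal (r - t)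
      rw [M.nextPt_eq_right ht.1.le ht.2, min_eq_left h.2]
    have hi : Integrable (fun t : ℝ => r - t) (volume.restrict (Set.Ioo l r)) :=
      ((continuous_const.sub continuous_id).integrableOn_Icc (a := l) (b := r)).mono_set
        Set.Ioo_subset_Icc_self
    have h2 : ∫ t in Set.Ioo l r, (r - t) = (r - l) ^ 2 / 2 := by
      rw [← integral_Ioc_eq_integral_Ioo, ← intervalIntegral.integral_of_le hlr,
        intervalIntegral.integral_comp_sub_left (fun x => x) r, integral_id]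
      ring
    rw [h1, ← ofReal_integral_eq_lintegral_ofReal hi ((ae_restrict_iff' measurableSet_Ioo).mpr
      (Eventually.of_forall fun t ht => by
        show (0 : ℝ) ≤ r - t
        linarith [ht.2])), h2]
    congr 1
    unfold Model.rlen
    rw [← hl, ← hr]
    field_simp
  · rw [if_neg h, Set.indicator_of_notMem h]
    simp

omit [IsProbabilityMeasure P'] in
private theorem vd3_sq_le {θ : ℝ} (hθ : 0 < θ) (j : ℕ) (ω' : Ω') :
    ∑' n, vd3a M θ j n ω' ^ 2 ≤
      2 / θ ^ 2 * ∫ t in (θ * j)..(θ * (j + 1)), (min (nextPt (M.R ω') t) (θ * (j + 1)) - t) := by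
  have hle : θ * j ≤ θ * (j + 1 : ℝ) := by nlinarith
  have hnn : ∀ t ∈ Set.Ioo (θ * j) (θ * (j + 1 : ℝ)),
      0 ≤ min (nextPt (M.R ω') t) (θ * (j + 1)) - t := fun t ht =>
    sub_nonneg.2 (le_min (vb2_le_next M ω' t) ht.2.le)
  have h1 : ∑' n, ENNReal.ofReal (θ ^ 2 / 2 * vd3a M θ j n ω' ^ 2) ≤
      ENNReal.ofReal (∫ t in (θ * j)..(θ * (j + 1)),
        (min (nextPt (M.R ω') t) (θ * (j + 1)) - t)) := by
    simp_rw [vd3_sq_int M hθ]
    rw [← lintegral_iUnion (vd3_meas M θ j · ω') (vd3_disj M θ j ω')]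
    refine (lintegral_mono_set (Set.iUnion_subset fun n => vd3_sub M θ j n ω')).trans
      (le_of_eq ?_)
    rw [intervalIntegral.integral_of_le hle, integral_Ioc_eq_integral_Ioo]
    refine (ofReal_integral_eq_lintegral_ofReal ?_ ((ae_restrict_iff' measurableSet_Ioo).mpr
      (Eventually.of_forall hnn))).symm
    have h2 := (vd3_intble M ω' (θ * (j + 1)) (θ * j) (θ * (j + 1))).1
    exact h2.mono_set Set.Ioo_subset_Ioc_self
  have hs : Summable fun n => θ ^ 2 / 2 * vd3a M θ j n ω' ^ 2 :=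
    (vd3_summable_sq M hθ j ω').mul_left _
  have hC : 0 ≤ ∫ t in (θ * j)..(θ * (j + 1)),
      (min (nextPt (M.R ω') t) (θ * (j + 1)) - t) :=
    intervalIntegral.integral_nonneg hle fun t ht =>
      sub_nonneg.2 (le_min (vb2_le_next M ω' t) ht.2)
  rw [← ENNReal.ofReal_tsum_of_nonneg (fun n => by positivity) hs,
    ENNReal.ofReal_le_ofReal_iff hC, tsum_mul_left] at h1
  have h3 := mul_le_mul_of_nonneg_left h1 (by positivity : 0 ≤ 2 / θ ^ 2)
  refine le_trans (le_of_eq ?_) h3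
  field_simp

/-- pathwise: with `u = θ j`, `w = θ (j + 1)` -/
theorem cell_gain_path {θ : ℝ} (hθ : 0 < θ) (j : ℕ) (ω' : Ω') :
    Summable (fun n => (M.inCell θ j n).indicator (fun ω' => M.rlen θ n ω') ω') ∧
    Summable (fun n => (M.inCell θ j n).indicator (fun ω' => M.rlen θ n ω' ^ 2) ω') ∧
    1 - ((min (nextPt (M.R ω') (θ * j)) (θ * (j + 1)) - θ * j) +
        ∫ t in (θ * j)..(θ * (j + 1)), (Set.Ioi (θ * (j + 1 : ℝ))).indicator (fun _ => (1 : ℝ))
          (nextPt (M.R ω') t)) / θ ≤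
      ∑' n, (M.inCell θ j n).indicator (fun ω' => M.rlen θ n ω') ω' ∧
    ∑' n, (M.inCell θ j n).indicator (fun ω' => M.rlen θ n ω' ^ 2) ω' ≤
      2 / θ ^ 2 * ∫ t in (θ * j)..(θ * (j + 1)), (min (nextPt (M.R ω') t) (θ * (j + 1)) - t) := by
  simp_rw [vd3_sq M]
  refine ⟨vd3_summable M hθ j ω', vd3_summable_sq M hθ j ω', ?_, vd3_sq_le M hθ j ω'⟩
  show _ ≤ ∑' n, vd3a M θ j n ω'
  have hle : θ * j ≤ θ * (j + 1 : ℝ) := by nlinarith
  have hA : 0 ≤ min (nextPt (M.R ω') (θ * j)) (θ * (j + 1)) - θ * j :=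
    sub_nonneg.2 (le_min (vb2_le_next M ω' _) hle)
  have hB := vd3_C_nonneg M hθ j ω'
  have hs := vd3_summable M hθ j ω'
  have hS0 : 0 ≤ ∑' n, vd3a M θ j n ω' := tsum_nonneg fun n => vd3_a_nonneg M hθ j n ω'
  have h1 : ENNReal.ofReal θ ≤ ENNReal.ofReal (θ * ∑' n, vd3a M θ j n ω' +
      ((min (nextPt (M.R ω') (θ * j)) (θ * (j + 1)) - θ * j) +
        ∫ t in (θ * j)..(θ * (j + 1)), (Set.Ioi (θ * (j + 1 : ℝ))).indicator (fun _ => (1 : ℝ))
          (nextPt (M.R ω') t))) := by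
    have e0 : ENNReal.ofReal θ = volume (Set.Ioo (θ * j) (θ * (j + 1 : ℝ)) \ M.R ω') := by
      rw [measure_sdiff_null (M.regen.null ω'), Real.volume_Ioo]
      congr 1
      ring
    rw [e0]
    refine (measure_mono (vd3_cover M hθ j ω')).trans ?_
    refine (measure_union_le _ _).trans ?_
    rw [ENNReal.ofReal_add (by positivity) (by linarith), ENNReal.ofReal_add hA hB]
    refine add_le_add ?_ ((measure_union_le _ _).trans (add_le_add ?_ ?_))
    · rw [← vd3_tsum_vol, ← tsum_mul_left, ENNReal.ofReal_tsum_of_nonneg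
        (fun n => mul_nonneg hθ.le (vd3_a_nonneg M hθ j n ω')) (hs.mul_left θ)]
      simp_rw [vd3_vol M hθ]
      exact le_rfl
    · rw [Real.volume_Ioo]
    · rw [vd3_int_ind M j θ hθ ω']
  rw [ENNReal.ofReal_le_ofReal_iff (by positivity)] at h1
  rw [sub_le_iff_le_add, ← mul_le_mul_iff_right₀ hθ]
  have e1 : θ * (∑' n, vd3a M θ j n ω' +
      ((min (nextPt (M.R ω') (θ * j)) (θ * (j + 1)) - θ * j) +
        ∫ t in (θ * j)..(θ * (j + 1)), (Set.Ioi (θ * (j + 1 : ℝ))).indicator (fun _ => (1 : ℝ))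
          (nextPt (M.R ω') t)) / θ) = θ * ∑' n, vd3a M θ j n ω' +
      ((min (nextPt (M.R ω') (θ * j)) (θ * (j + 1)) - θ * j) +
        ∫ t in (θ * j)..(θ * (j + 1)), (Set.Ioi (θ * (j + 1 : ℝ))).indicator (fun _ => (1 : ℝ))
          (nextPt (M.R ω') t)) := by
    field_simp
  rw [e1, mul_one]
  exact h1

/-! ### Averages given the scenario -/

private theorem vd3_rpow_int {θ : ℝ} (hθ : 0 < θ) {c : ℝ} (hc : 0 ≤ c) :
    ∫⁻ s in Set.Ioo (0 : ℝ) θ, ENNReal.ofReal (c * (s / θ) ^ (-(1 / 2 : ℝ))) =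
      ENNReal.ofReal (2 * c * θ) := by
  have hii : IntervalIntegrable (fun s : ℝ => s ^ (-(1 / 2 : ℝ))) volume 0 θ :=
    intervalIntegral.intervalIntegrable_rpow' (by norm_num)
  have hi1 : IntegrableOn (fun s : ℝ => s ^ (-(1 / 2 : ℝ))) (Set.Ioo 0 θ) volume :=
    hii.1.mono_set Set.Ioo_subset_Ioc_self
  have e : ∀ s ∈ Set.Ioo (0 : ℝ) θ, c * (s / θ) ^ (-(1 / 2 : ℝ)) =
      c * (θ ^ (-(1 / 2 : ℝ)))⁻¹ * s ^ (-(1 / 2 : ℝ)) := by
    intro s hs
    rw [Real.div_rpow hs.1.le hθ.le]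
    field_simp
  have hval : ∫ s in Set.Ioo (0 : ℝ) θ, c * (s / θ) ^ (-(1 / 2 : ℝ)) = 2 * c * θ := by
    rw [setIntegral_congr_fun measurableSet_Ioo e, integral_const_mul,
      ← integral_Ioc_eq_integral_Ioo, ← intervalIntegral.integral_of_le hθ.le,
      integral_rpow (Or.inl (by norm_num))]
    have h1 : (-(1 / 2 : ℝ) + 1) = 1 / 2 := by norm_num
    rw [h1, Real.zero_rpow (by norm_num), sub_zero]
    have h2 : θ ^ (1 / 2 : ℝ) = θ * θ ^ (-(1 / 2 : ℝ)) := by
      have h3 : θ ^ (1 / 2 : ℝ) = θ ^ ((1 : ℝ) + -(1 / 2)) := by norm_num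
      rw [h3, Real.rpow_add hθ, Real.rpow_one]
    rw [h2]
    have h4 : θ ^ (-(1 / 2 : ℝ)) ≠ 0 := (Real.rpow_pos_of_pos hθ _).ne'
    field_simp
  have hint : IntegrableOn (fun s : ℝ => c * (s / θ) ^ (-(1 / 2 : ℝ))) (Set.Ioo 0 θ) volume :=
    IntegrableOn.congr_fun (f := fun s : ℝ => c * (θ ^ (-(1 / 2 : ℝ)))⁻¹ * s ^ (-(1 / 2 : ℝ)))
      (Integrable.const_mul hi1 (c * (θ ^ (-(1 / 2 : ℝ)))⁻¹)) (fun s hs => (e s hs).symm)
      measurableSet_Ioo
  rw [← hval]
  refine (ofReal_integral_eq_lintegral_ofReal hint ?_).symm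
  refine (ae_restrict_iff' measurableSet_Ioo).mpr (Eventually.of_forall fun s hs => ?_)
  exact mul_nonneg hc (Real.rpow_nonneg (div_nonneg hs.1.le hθ.le) _)

private theorem vd3_rpow_int' {θ u : ℝ} (hθ : 0 < θ) {c : ℝ} (hc : 0 ≤ c) :
    ∫⁻ t in Set.Ioo u (u + θ), ENNReal.ofReal (c * ((u + θ - t) / θ) ^ (-(1 / 2 : ℝ))) =
      ENNReal.ofReal (2 * c * θ) := by
  rw [← vd3_rpow_int hθ hc]
  have hmp : MeasurePreserving (fun t : ℝ => u + θ - t) volume volume :=
    Measure.measurePreserving_sub_left volume (u + θ)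
  have h1 := hmp.setLIntegral_comp_preimage (s := Set.Ioo (0 : ℝ) θ) measurableSet_Ioo
    (f := fun s => ENNReal.ofReal (c * (s / θ) ^ (-(1 / 2 : ℝ))))
    (by fun_prop)
  rw [← h1]
  congr 2
  ext t
  simp only [Set.mem_Ioo, Set.mem_preimage]
  constructor
  · rintro ⟨h2, h3⟩
    exact ⟨by linarith, by linarith⟩
  · rintro ⟨h2, h3⟩
    exact ⟨by linarith, by linarith⟩

/-- layer cake -/
private theorem vd3_cake {x t w : ℝ} :
    ENNReal.ofReal (min x w - t) =
      ∫⁻ s in Set.Ioo 0 (w - t), (if t + s < x then 1 else 0 : ℝ≥0∞) := by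
  have hm : MeasurableSet {s : ℝ | t + s < x} :=
    measurableSet_lt (measurable_const.add measurable_id) measurable_const
  have h1 : ∀ s : ℝ, (if t + s < x then 1 else 0 : ℝ≥0∞) = {s : ℝ | t + s < x}.indicator 1 s := by
    intro s
    rw [Set.indicator_apply]
    rfl
  simp_rw [h1]
  rw [lintegral_indicator_one hm, Measure.restrict_apply hm]
  have h2 : {s : ℝ | t + s < x} ∩ Set.Ioo 0 (w - t) = Set.Ioo 0 (min x w - t) := by
    ext s
    simp only [Set.mem_inter_iff, Set.mem_ofPred_eq, Set.mem_Ioo]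
    constructor
    · rintro ⟨h3, h4, h5⟩
      refine ⟨h4, ?_⟩
      have : t + s < min x w := lt_min h3 (by linarith)
      linarith
    · rintro ⟨h3, h4⟩
      have h5 : t + s < min x w := by linarith
      exact ⟨h5.trans_le (min_le_left _ _), h3, by linarith [h5.trans_le (min_le_right x w)]⟩
  rw [h2, Real.volume_Ioo, sub_zero]

/-- average of `min (D t) w - t` -/
private theorem vd3_E1 {S : Set Ω'} (hS : MeasurableSet S) {D : Ω' → ℝ} (hD : Measurable D)
    {θ t w c : ℝ} (hθ : 0 < θ) (hc : 0 ≤ c) (htw : w - t ≤ θ)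
    (h : ∀ s, 0 < s → t + s ≤ w → P' (S ∩ {ω | t + s < D ω}) ≤
      ENNReal.ofReal (c * (s / θ) ^ (-(1 / 2 : ℝ))) * P' S) :
    ∫⁻ ω in S, ENNReal.ofReal (min (D ω) w - t) ∂P' ≤ ENNReal.ofReal (2 * c * θ) * P' S := by
  simp_rw [vd3_cake (t := t) (w := w)]
  have hm : Measurable (Function.uncurry fun (ω : Ω') (s : ℝ) =>
      (if t + s < D ω then 1 else 0 : ℝ≥0∞)) := by
    refine Measurable.ite ?_ measurable_const measurable_const
    exact measurableSet_lt (measurable_const.add measurable_snd) (hD.comp measurable_fst)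
  rw [lintegral_lintegral_swap hm.aemeasurable]
  calc ∫⁻ s in Set.Ioo 0 (w - t), ∫⁻ ω in S, (if t + s < D ω then 1 else 0 : ℝ≥0∞) ∂P'
      ≤ ∫⁻ s in Set.Ioo 0 (w - t), ENNReal.ofReal (c * (s / θ) ^ (-(1 / 2 : ℝ))) * P' S := by
        refine setLIntegral_mono' measurableSet_Ioo fun s hs => ?_
        refine le_trans (le_of_eq ?_) (h s hs.1 (by linarith [hs.2]))
        have hms : MeasurableSet {ω | t + s < D ω} := measurableSet_lt measurable_const hD
        have h1 : ∀ ω, (if t + s < D ω then 1 else 0 : ℝ≥0∞) =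
            {ω | t + s < D ω}.indicator 1 ω := by
          intro ω
          rw [Set.indicator_apply]
          rfl
        simp_rw [h1]
        rw [lintegral_indicator_one hms, Measure.restrict_apply hms, Set.inter_comm]
    _ ≤ ∫⁻ s in Set.Ioo 0 θ, ENNReal.ofReal (c * (s / θ) ^ (-(1 / 2 : ℝ))) * P' S :=
        lintegral_mono_set (Set.Ioo_subset_Ioo_right htw)
    _ = ENNReal.ofReal (2 * c * θ) * P' S := by
        rw [lintegral_mul_const _ (by fun_prop), vd3_rpow_int hθ hc]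

/-- from `∫⁻` to `∫` -/
private theorem vd3_toReal {S : Set Ω'} {f : Ω' → ℝ} (hf : Measurable f) (hf0 : ∀ ω, 0 ≤ f ω)
    {c : ℝ} (hc : 0 ≤ c) (h : ∫⁻ ω in S, ENNReal.ofReal (f ω) ∂P' ≤ ENNReal.ofReal c * P' S) :
    ∫ ω in S, f ω ∂P' ≤ c * P'.real S := by
  rw [integral_eq_lintegral_of_nonneg_ae (ae_of_all _ hf0) hf.aestronglyMeasurable]
  have h1 := ENNReal.toReal_mono (ENNReal.mul_ne_top ENNReal.ofReal_ne_top (measure_ne_top _ _)) h
  rwa [ENNReal.toReal_mul, ENNReal.toReal_ofReal hc] at h1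

/-- the process `D` cut to `[0, w + 1)` -/
private noncomputable def vd3E (θ : ℝ) (j : ℕ) (q : ℝ × Ω') : ℝ :=
  if 0 ≤ q.1 ∧ q.1 < θ * (j + 1) + 1 then nextPt (M.R q.2) q.1 else 0

private theorem vd3_E_meas {θ : ℝ} (hθ : 0 < θ) (j : ℕ) : Measurable (vd3E M θ j) := by
  have h1 := measurable_nextPt_prod M.regen (t := θ * (j + 1) + 1) (by positivity)
  have h2 : @Prod.instMeasurableSpace ℝ Ω' inferInstance (past M.R (θ * (j + 1) + 1)) ≤
      @Prod.instMeasurableSpace ℝ Ω' inferInstance inferInstance :=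
    sup_le_sup le_rfl (MeasurableSpace.comap_mono (past_le M.regen _))
  exact h1.mono h2 le_rfl

omit [IsProbabilityMeasure P'] in
private theorem vd3_E_eq {θ : ℝ} (hθ : 0 < θ) (j : ℕ) {t : ℝ}
    (ht : t ∈ Set.Ioc (θ * j) (θ * (j + 1 : ℝ))) (ω : Ω') :
    vd3E M θ j (t, ω) = nextPt (M.R ω) t := by
  have hj : 0 ≤ θ * (j : ℝ) := by positivity
  unfold vd3E
  exact if_pos ⟨hj.trans ht.1.le, by linarith [ht.2]⟩

private noncomputable def vd3B (θ : ℝ) (j : ℕ) (ω : Ω') : ℝ :=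
  ∫ t in (θ * j)..(θ * (j + 1)), (Set.Ioi (θ * (j + 1 : ℝ))).indicator (fun _ => (1 : ℝ))
    (nextPt (M.R ω) t)

private noncomputable def vd3C (θ : ℝ) (j : ℕ) (ω : Ω') : ℝ :=
  ∫ t in (θ * j)..(θ * (j + 1)), (min (nextPt (M.R ω) t) (θ * (j + 1)) - t)

private theorem vd3_B_nonneg {θ : ℝ} (hθ : 0 < θ) (j : ℕ) (ω : Ω') : 0 ≤ vd3B M θ j ω :=
  vd3_C_nonneg M hθ j ω

omit [IsProbabilityMeasure P'] in
private theorem vd3_C_nonneg' {θ : ℝ} (hθ : 0 < θ) (j : ℕ) (ω : Ω') : 0 ≤ vd3C M θ j ω :=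
  intervalIntegral.integral_nonneg (by nlinarith) fun t ht =>
    sub_nonneg.2 (le_min (vb2_le_next M ω t) ht.2)

omit [IsProbabilityMeasure P'] in
private theorem vd3_B_eq {θ : ℝ} (hθ : 0 < θ) (j : ℕ) (ω : Ω') :
    ENNReal.ofReal (vd3B M θ j ω) = ∫⁻ t in Set.Ioc (θ * j) (θ * (j + 1 : ℝ)),
      (if θ * (j + 1) < vd3E M θ j (t, ω) then 1 else 0 : ℝ≥0∞) := by
  unfold vd3B
  rw [← vd3_int_ind M j θ hθ ω]
  have hm : MeasurableSet {t | θ * (j + 1) < nextPt (M.R ω) t} :=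
    measurableSet_lt measurable_const (vb2_mono M ω).measurable
  have h1 : ∫⁻ t in Set.Ioc (θ * j) (θ * (j + 1 : ℝ)),
      (if θ * (j + 1) < vd3E M θ j (t, ω) then 1 else 0 : ℝ≥0∞) =
      ∫⁻ t in Set.Ioc (θ * j) (θ * (j + 1 : ℝ)),
        {t | θ * (j + 1) < nextPt (M.R ω) t}.indicator 1 t := by
    refine setLIntegral_congr_fun measurableSet_Ioc fun t ht => ?_
    show (if θ * (j + 1) < vd3E M θ j (t, ω) then 1 else 0 : ℝ≥0∞) = _
    rw [vd3_E_eq M hθ j ht ω, Set.indicator_apply]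
    rfl
  rw [h1, lintegral_indicator_one hm, Measure.restrict_apply hm]

omit [IsProbabilityMeasure P'] in
private theorem vd3_C_eq {θ : ℝ} (hθ : 0 < θ) (j : ℕ) (ω : Ω') :
    ENNReal.ofReal (vd3C M θ j ω) = ∫⁻ t in Set.Ioc (θ * j) (θ * (j + 1 : ℝ)),
      ENNReal.ofReal (min (vd3E M θ j (t, ω)) (θ * (j + 1)) - t) := by
  have hle : θ * j ≤ θ * (j + 1 : ℝ) := by nlinarith
  unfold vd3C
  rw [intervalIntegral.integral_of_le hle]
  refine (ofReal_integral_eq_lintegral_ofReal (vd3_intble M ω (θ * (j + 1)) (θ * j)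
    (θ * (j + 1))).1 ((ae_restrict_iff' measurableSet_Ioc).mpr (Eventually.of_forall
      fun t ht => sub_nonneg.2 (le_min (vb2_le_next M ω t) ht.2)))).trans ?_
  refine setLIntegral_congr_fun measurableSet_Ioc fun t ht => ?_
  show _ = ENNReal.ofReal (min (vd3E M θ j (t, ω)) (θ * (j + 1)) - t)
  rw [vd3_E_eq M hθ j ht ω]

private theorem vd3_gB {θ : ℝ} (hθ : 0 < θ) (j : ℕ) : Measurable (Function.uncurry
    fun (ω : Ω') (t : ℝ) => (if θ * (j + 1) < vd3E M θ j (t, ω) then 1 else 0 : ℝ≥0∞)) := by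
  refine Measurable.ite ?_ measurable_const measurable_const
  exact measurableSet_lt measurable_const
    ((vd3_E_meas M hθ j).comp (measurable_snd.prodMk measurable_fst))

private theorem vd3_gC {θ : ℝ} (hθ : 0 < θ) (j : ℕ) : Measurable (Function.uncurry
    fun (ω : Ω') (t : ℝ) => ENNReal.ofReal (min (vd3E M θ j (t, ω)) (θ * (j + 1)) - t)) := by
  refine Measurable.ennreal_ofReal ?_
  exact (((vd3_E_meas M hθ j).comp (measurable_snd.prodMk measurable_fst)).min
    measurable_const).sub measurable_snd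

private theorem vd3_B_meas {θ : ℝ} (hθ : 0 < θ) (j : ℕ) : Measurable (vd3B M θ j) := by
  have h1 : vd3B M θ j = fun ω => (∫⁻ t in Set.Ioc (θ * j) (θ * (j + 1 : ℝ)),
      (if θ * (j + 1) < vd3E M θ j (t, ω) then 1 else 0 : ℝ≥0∞)).toReal := by
    funext ω
    rw [← vd3_B_eq M hθ j ω, ENNReal.toReal_ofReal (vd3_B_nonneg M hθ j ω)]
  rw [h1]
  exact ((vd3_gB M hθ j).lintegral_prod_right').ennreal_toReal

private theorem vd3_C_meas {θ : ℝ} (hθ : 0 < θ) (j : ℕ) : Measurable (vd3C M θ j) := by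
  have h1 : vd3C M θ j = fun ω => (∫⁻ t in Set.Ioc (θ * j) (θ * (j + 1 : ℝ)),
      ENNReal.ofReal (min (vd3E M θ j (t, ω)) (θ * (j + 1)) - t)).toReal := by
    funext ω
    rw [← vd3_C_eq M hθ j ω, ENNReal.toReal_ofReal (vd3_C_nonneg' M hθ j ω)]
  rw [h1]
  exact ((vd3_gC M hθ j).lintegral_prod_right').ennreal_toReal

omit [IsProbabilityMeasure P'] in
private theorem vd3_B_le {θ : ℝ} (hθ : 0 < θ) (j : ℕ) (ω : Ω') : vd3B M θ j ω ≤ θ := by
  have h1 : ENNReal.ofReal (vd3B M θ j ω) ≤ ENNReal.ofReal θ := by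
    rw [vd3B, ← vd3_int_ind M j θ hθ ω]
    refine (measure_mono Set.inter_subset_right).trans (le_of_eq ?_)
    rw [Real.volume_Ioc]
    congr 1
    ring
  exact (ENNReal.ofReal_le_ofReal_iff hθ.le).1 h1

omit [IsProbabilityMeasure P'] in
private theorem vd3_C_le {θ : ℝ} (hθ : 0 < θ) (j : ℕ) (ω : Ω') : vd3C M θ j ω ≤ θ * θ := by
  have hle : θ * j ≤ θ * (j + 1 : ℝ) := by nlinarith
  have h1 : vd3C M θ j ω ≤ ∫ _ in (θ * j)..(θ * (j + 1 : ℝ)), θ := by
    apply intervalIntegral.integral_mono_on hle (vd3_intble M ω _ _ _)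
      intervalIntegrable_const
    intro t ht
    have := min_le_right (nextPt (M.R ω) t) (θ * (j + 1))
    have h3 := ht.1
    nlinarith
  rw [intervalIntegral.integral_const, smul_eq_mul] at h1
  have e : (θ * (j + 1 : ℝ) - θ * j) * θ = θ * θ := by ring
  rwa [e] at h1

theorem cell_gain (h0 : 9 / 10 ≤ α) (h1 : α < 1) {θ : ℝ} (hθ : 0 < θ) (p : ℕ → ℕ) (k : ℕ)
    (hp0 : p 0 = 0) (hp : ∀ i < k, p i < p (i + 1)) {i : ℕ} (hi0 : 0 < i) (hik : i < k)
    (e1 : p i = p (i - 1) + 1) (e2 : p (i + 1) = p i + 1) :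
    (1 / 2 - 1000 * (1 - α)) * P'.real (M.ER θ p k) ≤
      ∫ ω' in M.ER θ p k, ∑' n, (M.inCell θ (p i) n).indicator
        (fun ω' => M.rlen θ n ω' / 2 - M.rlen θ n ω' ^ 2) ω' ∂P' := by
  set j := p i with hj
  set S := M.ER θ p k with hS
  have hSe : S = ERs M.R θ p k := rfl
  have hSm : MeasurableSet S := M.𝒢_le _ (M.measurableSet_ER θ p k)
  set u : ℝ := θ * j with hu
  set w : ℝ := θ * (j + 1) with hw
  have huw : w = u + θ := by rw [hw, hu]; ring
  set c : ℝ := 100 * (1 - α) with hc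
  have hc0 : 0 ≤ c := by rw [hc]; linarith
  -- the conditional tail
  have htail : ∀ t, u ≤ t → t < w → ∀ s, 0 < s → t + s ≤ w →
      P' (S ∩ {ω | t + s < nextPt (M.R ω) t}) ≤
        ENNReal.ofReal (c * (s / θ) ^ (-(1 / 2 : ℝ))) * P' S := by
    intro t ht1 ht2 s hs hts
    have h2 := cond_tail h0 h1 M.regen hθ p k hp0 hp hi0 hik e1 e2 ht1 ht2 hs hts
    rw [← hSe, ← hc] at h2
    rw [← ENNReal.ofReal_toReal (measure_ne_top P' (S ∩ {ω | t + s < nextPt (M.R ω) t})),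
      ← ENNReal.ofReal_toReal (measure_ne_top P' S),
      ← ENNReal.ofReal_mul (by positivity)]
    exact ENNReal.ofReal_le_ofReal h2
  have hE1 : ∀ t, u ≤ t → t < w →
      ∫⁻ ω in S, ENNReal.ofReal (min (nextPt (M.R ω) t) w - t) ∂P' ≤
        ENNReal.ofReal (2 * c * θ) * P' S := fun t ht1 ht2 =>
    vd3_E1 hSm (M.regen.measurable_nextPt t) hθ hc0 (by linarith) (htail t ht1 ht2)
  -- `A`
  set A : Ω' → ℝ := fun ω => min (nextPt (M.R ω) u) w - u with hA
  have hAm : Measurable A := ((M.regen.measurable_nextPt u).min measurable_const).sub_const _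
  have hA0 : ∀ ω, 0 ≤ A ω := fun ω => sub_nonneg.2 (le_min (vb2_le_next M ω u) (by linarith))
  have hAle : ∀ ω, A ω ≤ θ := fun ω => by
    have := min_le_right (nextPt (M.R ω) u) w
    simp only [hA]
    linarith
  have hAint : ∫ ω in S, A ω ∂P' ≤ (2 * c * θ) * P'.real S :=
    vd3_toReal hAm hA0 (by positivity) (hE1 u le_rfl (by linarith))
  -- `B`
  have hBint : ∫ ω in S, vd3B M θ j ω ∂P' ≤ (2 * c * θ) * P'.real S := by
    refine vd3_toReal (vd3_B_meas M hθ j) (vd3_B_nonneg M hθ j) (by positivity) ?_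
    simp_rw [vd3_B_eq M hθ j]
    rw [lintegral_lintegral_swap (vd3_gB M hθ j).aemeasurable, ← hu, ← hw]
    rw [setLIntegral_congr (Ioo_ae_eq_Ioc (a := u) (b := w)).symm]
    calc ∫⁻ t in Set.Ioo u w, ∫⁻ ω in S, (if w < vd3E M θ j (t, ω) then 1 else 0 : ℝ≥0∞) ∂P'
        ≤ ∫⁻ t in Set.Ioo u w, ENNReal.ofReal (c * ((u + θ - t) / θ) ^ (-(1 / 2 : ℝ))) * P' S := by
          refine setLIntegral_mono' measurableSet_Ioo fun t ht => ?_
          have h2 := htail t ht.1.le ht.2 (w - t) (by linarith [ht.2]) (by linarith)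
          have e3 : t + (w - t) = w := by ring
          rw [e3] at h2
          rw [← huw]
          refine le_trans (le_of_eq ?_) h2
          have hms : MeasurableSet {ω | w < nextPt (M.R ω) t} :=
            measurableSet_lt measurable_const (M.regen.measurable_nextPt t)
          have h3 : ∀ ω, (if w < vd3E M θ j (t, ω) then 1 else 0 : ℝ≥0∞) =
              {ω | w < nextPt (M.R ω) t}.indicator 1 ω := by
            intro ω
            rw [vd3_E_eq M hθ j ⟨ht.1, ht.2.le⟩ ω, Set.indicator_apply]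
            rfl
          simp_rw [h3]
          rw [lintegral_indicator_one hms, Measure.restrict_apply hms, Set.inter_comm]
      _ = ENNReal.ofReal (2 * c * θ) * P' S := by
          rw [lintegral_mul_const _ (by fun_prop), huw, vd3_rpow_int' hθ hc0]
  -- `C`
  have hCint : ∫ ω in S, vd3C M θ j ω ∂P' ≤ (2 * c * θ * θ) * P'.real S := by
    refine vd3_toReal (vd3_C_meas M hθ j) (vd3_C_nonneg' M hθ j) (by positivity) ?_
    simp_rw [vd3_C_eq M hθ j]
    rw [lintegral_lintegral_swap (vd3_gC M hθ j).aemeasurable, ← hu, ← hw]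
    rw [setLIntegral_congr (Ioo_ae_eq_Ioc (a := u) (b := w)).symm]
    calc ∫⁻ t in Set.Ioo u w, ∫⁻ ω in S, ENNReal.ofReal (min (vd3E M θ j (t, ω)) w - t) ∂P'
        ≤ ∫⁻ t in Set.Ioo u w, ENNReal.ofReal (2 * c * θ) * P' S := by
          refine setLIntegral_mono' measurableSet_Ioo fun t ht => ?_
          refine le_trans (le_of_eq ?_) (hE1 t ht.1.le ht.2)
          refine lintegral_congr fun ω => ?_
          rw [vd3_E_eq M hθ j ⟨ht.1, ht.2.le⟩ ω]
      _ = ENNReal.ofReal (2 * c * θ * θ) * P' S := by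
          rw [setLIntegral_const, Real.volume_Ioo, huw, add_sub_cancel_left,
            ENNReal.ofReal_mul (by positivity : 0 ≤ 2 * c * θ)]
          ring
  -- the integrand
  have hTeq : ∀ ω, ∑' n, (M.inCell θ j n).indicator
      (fun ω' => M.rlen θ n ω' / 2 - M.rlen θ n ω' ^ 2) ω =
      (∑' n, vd3a M θ j n ω) / 2 - ∑' n, vd3a M θ j n ω ^ 2 := by
    intro ω
    rw [← tsum_div_const, ← ((vd3_summable M hθ j ω).div_const 2).tsum_sub
      (vd3_summable_sq M hθ j ω)]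
    refine tsum_congr fun n => ?_
    unfold vd3a
    by_cases h : ω ∈ M.inCell θ j n
    · rw [Set.indicator_of_mem h, Set.indicator_of_mem h]
    · rw [Set.indicator_of_notMem h, Set.indicator_of_notMem h]
      norm_num
  have ham : ∀ n, Measurable (vd3a M θ j n) := by
    intro n
    have hl : Measurable (M.left n) := (M.measurable_left n).mono M.𝒢_le le_rfl
    have hr : Measurable (M.right n) := (M.measurable_right n).mono M.𝒢_le le_rfl
    refine Measurable.indicator ?_ ?_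
    · exact (hr.sub hl).div_const θ
    · exact (measurableSet_le measurable_const hl).inter (measurableSet_le hr measurable_const)
  have hs1m : Measurable fun ω => ∑' n, vd3a M θ j n ω := by
    refine measurable_of_tendsto_metrizable (f := fun N ω => ∑ n ∈ Finset.range N, vd3a M θ j n ω)
      (fun N => Finset.measurable_fun_sum _ fun n _ => ham n) ?_
    rw [tendsto_pi_nhds]
    exact fun ω => (vd3_summable M hθ j ω).hasSum.tendsto_sum_nat
  have hs2m : Measurable fun ω => ∑' n, vd3a M θ j n ω ^ 2 := by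
    refine measurable_of_tendsto_metrizable
      (f := fun N ω => ∑ n ∈ Finset.range N, vd3a M θ j n ω ^ 2)
      (fun N => Finset.measurable_fun_sum _ fun n _ => (ham n).pow_const 2) ?_
    rw [tendsto_pi_nhds]
    exact fun ω => (vd3_summable_sq M hθ j ω).hasSum.tendsto_sum_nat
  have hs1le : ∀ ω, ∑' n, vd3a M θ j n ω ≤ 1 := by
    intro ω
    have h2 := vd3_tsum_le M hθ j ω
    rw [← ENNReal.ofReal_tsum_of_nonneg
      (fun n => mul_nonneg hθ.le (vd3_a_nonneg M hθ j n ω)) ((vd3_summable M hθ j ω).mul_left θ),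
      ENNReal.ofReal_le_ofReal_iff hθ.le, tsum_mul_left] at h2
    nlinarith
  have hs1nn : ∀ ω, 0 ≤ ∑' n, vd3a M θ j n ω := fun ω =>
    tsum_nonneg fun n => vd3_a_nonneg M hθ j n ω
  have hs2nn : ∀ ω, 0 ≤ ∑' n, vd3a M θ j n ω ^ 2 := fun ω => tsum_nonneg fun n => sq_nonneg _
  have hs2le : ∀ ω, ∑' n, vd3a M θ j n ω ^ 2 ≤ 1 := fun ω =>
    ((vd3_summable_sq M hθ j ω).tsum_le_tsum (fun n => by
      have h2 := vd3_a_nonneg M hθ j n ω
      have h3 := vd3_a_le M hθ j n ω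
      nlinarith) (vd3_summable M hθ j ω)).trans (hs1le ω)
  have hTint : Integrable (fun ω => (∑' n, vd3a M θ j n ω) / 2 - ∑' n, vd3a M θ j n ω ^ 2)
      (P'.restrict S) := by
    refine (integrable_const (2 : ℝ)).mono' ((hs1m.div_const 2).sub hs2m).aestronglyMeasurable
      (ae_of_all _ fun ω => ?_)
    rw [Real.norm_eq_abs, abs_le]
    constructor <;> linarith [hs1le ω, hs1nn ω, hs2nn ω, hs2le ω]
  have hAi : Integrable A (P'.restrict S) := by
    refine (integrable_const θ).mono' hAm.aestronglyMeasurable (ae_of_all _ fun ω => ?_)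
    rw [Real.norm_eq_abs, abs_of_nonneg (hA0 ω)]
    exact hAle ω
  have hBi : Integrable (vd3B M θ j) (P'.restrict S) := by
    refine (integrable_const θ).mono' (vd3_B_meas M hθ j).aestronglyMeasurable
      (ae_of_all _ fun ω => ?_)
    rw [Real.norm_eq_abs, abs_of_nonneg (vd3_B_nonneg M hθ j ω)]
    exact vd3_B_le M hθ j ω
  have hCi : Integrable (vd3C M θ j) (P'.restrict S) := by
    refine (integrable_const (θ * θ)).mono' (vd3_C_meas M hθ j).aestronglyMeasurable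
      (ae_of_all _ fun ω => ?_)
    rw [Real.norm_eq_abs, abs_of_nonneg (vd3_C_nonneg' M hθ j ω)]
    exact vd3_C_le M hθ j ω
  simp_rw [hTeq]
  have hlow : ∀ ω, 1 / 2 - (A ω + vd3B M θ j ω) / (2 * θ) - 2 / θ ^ 2 * vd3C M θ j ω ≤
      (∑' n, vd3a M θ j n ω) / 2 - ∑' n, vd3a M θ j n ω ^ 2 := by
    intro ω
    obtain ⟨_, _, h2, h3⟩ := cell_gain_path M hθ j ω
    simp_rw [vd3_sq M] at h3
    have h2' : 1 - (A ω + vd3B M θ j ω) / θ ≤ ∑' n, vd3a M θ j n ω := h2
    have h3' : ∑' n, vd3a M θ j n ω ^ 2 ≤ 2 / θ ^ 2 * vd3C M θ j ω := h3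
    have e3 : (A ω + vd3B M θ j ω) / (2 * θ) = (A ω + vd3B M θ j ω) / θ / 2 := by
      field_simp
    rw [e3]
    linarith
  have hfin := integral_mono (((integrable_const (1 / 2 : ℝ)).sub ((hAi.add hBi).div_const
    (2 * θ))).sub (hCi.const_mul (2 / θ ^ 2))) hTint hlow
  refine le_trans ?_ hfin
  have e4 : ∫ ω in S, ((1 / 2 : ℝ) - (A ω + vd3B M θ j ω) / (2 * θ) -
      2 / θ ^ 2 * vd3C M θ j ω) ∂P' = 1 / 2 * P'.real S -
      (∫ ω in S, A ω ∂P' + ∫ ω in S, vd3B M θ j ω ∂P') / (2 * θ) -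
      2 / θ ^ 2 * ∫ ω in S, vd3C M θ j ω ∂P' := by
    have i2 : Integrable (fun ω => (A ω + vd3B M θ j ω) / (2 * θ)) (P'.restrict S) :=
      (hAi.add hBi).div_const (2 * θ)
    have i1 : Integrable (fun ω => (1 / 2 : ℝ) - (A ω + vd3B M θ j ω) / (2 * θ))
        (P'.restrict S) := (integrable_const _).sub i2
    have e5 : ∫ ω in S, (A ω + vd3B M θ j ω) / (2 * θ) ∂P' =
        (∫ ω in S, A ω ∂P' + ∫ ω in S, vd3B M θ j ω ∂P') / (2 * θ) := by
      rw [integral_div, integral_add hAi hBi]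
    rw [integral_sub i1 (hCi.const_mul _), integral_sub (integrable_const _) i2, e5,
      integral_const_mul, setIntegral_const, smul_eq_mul]
    ring
  change _ ≤ ∫ ω in S, ((1 / 2 : ℝ) - (A ω + vd3B M θ j ω) / (2 * θ) -
      2 / θ ^ 2 * vd3C M θ j ω) ∂P'
  rw [e4]
  have hQ0 : 0 ≤ P'.real S := measureReal_nonneg
  have h5 : (∫ ω in S, A ω ∂P' + ∫ ω in S, vd3B M θ j ω ∂P') / (2 * θ) ≤ 2 * c * P'.real S := by
    rw [div_le_iff₀ (by positivity)]
    nlinarith
  have h6 : 2 / θ ^ 2 * ∫ ω in S, vd3C M θ j ω ∂P' ≤ 4 * c * P'.real S := by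
    have h7 := mul_le_mul_of_nonneg_left hCint (by positivity : 0 ≤ 2 / θ ^ 2)
    refine h7.trans (le_of_eq ?_)
    field_simp
    ring
  rw [hc] at h5 h6
  have h8 : 0 ≤ (1 - α) * P'.real S := mul_nonneg (by linarith) hQ0
  nlinarith

end

end Pool.Agent.Lib.MP_3d9a2b_pr
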