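import Pool.Agent.Lib.MP_3d9a2b_pr.V.RegenL

set_option autoImplicit false

/-! Task VD2: tail estimates for the excursions inside the cells which are entered and left by
interface steps, conditionally on the scenario. -/

namespace Pool.Agent.Lib.MP_3d9a2b_pr

open MeasureTheory ProbabilityTheory Filter Topology
open scoped NNReal ENNReal

section
variable {α : ℝ} {Ω' : Type} [MeasurableSpace Ω'] {P' : Measure Ω'} [IsProbabilityMeasure P']
  {R : Ω' → Set ℝ}

private theorem vd2_mono {p : ℕ → ℕ} {k : ℕ} (hp : ∀ i < k, p i < p (i + 1)) :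
    ∀ i j, i ≤ j → j ≤ k → p i ≤ p j := by
  intro i j hij
  induction j, hij using Nat.le_induction with
  | base => intro _; exact le_rfl
  | succ j _ ih =>
    intro hj
    exact (ih (by omega)).trans (hp j (by omega)).le

private theorem vd2_ER_meas {θ : ℝ} (hθ : 0 < θ) (p : ℕ → ℕ) (m : ℕ)
    (hp : ∀ i < m, p i < p (i + 1)) :
    MeasurableSet[past R (θ * (p m + 1))] (ERs R θ p (m + 1)) := by
  have h1 : ERs R θ p (m + 1) = ⋂ i : Fin (m + 1), {ω | nextPt (R ω) (θ * (p i + 1)) ∈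
      Set.Ioc (θ * p (i + 1)) (θ * (p (i + 1) + 1 / 2))} := by
    ext ω
    simp only [ERs, Set.mem_ofPred_eq, Set.mem_iInter]
    exact ⟨fun h i => h i i.2, fun h i hi => h ⟨i, hi⟩⟩
  rw [h1]
  refine MeasurableSet.iInter fun i => ?_
  have hi : (i : ℕ) ≤ m := by omega
  have h2 : (p i : ℝ) ≤ p m := by exact_mod_cast vd2_mono hp i m hi le_rfl
  exact (measurable_nextPt_past R (r := θ * (p i + 1)) (t := θ * (p m + 1)) (by positivity)
    (mul_le_mul_of_nonneg_left (by linarith) hθ.le)) measurableSet_Ioc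

private theorem vd2_ER_zero (θ : ℝ) (p : ℕ → ℕ) : ERs R θ p 0 = Set.univ := by
  ext ω
  simp [ERs]

/-- `ERs m` belongs to the past of `θ (p m + 1)` -/
private theorem vd2_ER_meas' {θ : ℝ} (hθ : 0 < θ) (p : ℕ → ℕ) (m : ℕ)
    (hp : ∀ i < m, p i < p (i + 1)) :
    MeasurableSet[past R (θ * (p m + 1))] (ERs R θ p m) := by
  rcases Nat.eq_zero_or_pos m with rfl | hm
  · rw [vd2_ER_zero]
    exact @MeasurableSet.univ _ (past R (θ * (p 0 + 1)))
  · obtain ⟨n, rfl⟩ : ∃ n, m = n + 1 := ⟨m - 1, by omega⟩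
    have h1 := vd2_ER_meas (R := R) hθ p n (fun i hi => hp i (by omega))
    have h2 : (p n : ℝ) ≤ p (n + 1) := by exact_mod_cast (hp n (by omega)).le
    exact past_mono R (mul_le_mul_of_nonneg_left (by linarith) hθ.le) _ h1

/-- one step of the chain -/
private theorem vd2_step (h0 : 1 / 2 ≤ α) (h1 : α < 1) (hR : IsStableRegenerative α R P') {θ : ℝ}
    (hθ : 0 < θ) (p : ℕ → ℕ) (hp0 : p 0 = 0) (m : ℕ) (hp : ∀ i < m, p i < p (i + 1))
    (F : ℝ → ℝ≥0∞) (hF : Measurable F) : ∃ u : Ω' → ℝ,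
      (∀ ω ∈ ERs R θ p m, u ω ∈ Set.Ioc 0 θ) ∧
      ∫⁻ ω in ERs R θ p m, F (nextPt (R ω) (θ * (p m + 1))) ∂P' =
        ∫⁻ ω in ERs R θ p m, (∫⁻ v in Set.Ioi (0 : ℝ), F (θ * (p m + 1) + v) *
          ENNReal.ofReal (rho α (u ω) v)) ∂P' := by
  have h00 : 0 < α := by linarith
  rcases Nat.eq_zero_or_pos m with rfl | hm
  · refine ⟨fun _ => θ, fun _ _ => ⟨hθ, le_rfl⟩, ?_⟩
    have e : θ * ((p 0 : ℝ) + 1) = θ := by rw [hp0]; push_cast; ring
    rw [vd2_ER_zero, e]
    simp only [Measure.restrict_univ]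
    rw [law_D h00 h1 hR hθ F hF, lintegral_const, measure_univ, mul_one]
  · obtain ⟨n, rfl⟩ : ∃ n, m = n + 1 := ⟨m - 1, by omega⟩
    have hpn : (p n : ℝ) < p (n + 1) := by exact_mod_cast hp n (by omega)
    have hE := vd2_ER_meas (R := R) hθ p n (fun i hi => hp i (by omega))
    have hEm : MeasurableSet (ERs R θ p (n + 1)) := past_le hR _ _ hE
    have hlast : ∀ ω ∈ ERs R θ p (n + 1), nextPt (R ω) (θ * (p n + 1)) ∈
        Set.Ioc (θ * (p (n + 1) : ℝ)) (θ * (p (n + 1) + 1 / 2)) := fun ω hω => hω n (by omega)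
    have hlt : ∀ ω ∈ ERs R θ p (n + 1), nextPt (R ω) (θ * (p n + 1)) <
        θ * ((p (n + 1) : ℝ) + 1) := fun ω hω => by
      have := (hlast ω hω).2
      nlinarith
    have h2 := markov h00 h1 hR (t := θ * (p n + 1)) (w := θ * (p (n + 1) + 1))
      (by positivity) (mul_lt_mul_of_pos_left (by linarith) hθ)
      ((ERs R θ p (n + 1)).indicator (fun _ => (1 : ℝ≥0∞)))
      ((@measurable_const _ _ _ (past R (θ * (p n + 1))) _).indicator hE) F hF
    refine ⟨fun ω => θ * (p (n + 1) + 1) - nextPt (R ω) (θ * (p n + 1)), ?_, ?_⟩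
    · intro ω hω
      have h3 := hlt ω hω
      have h4 := (hlast ω hω).1
      constructor
      · linarith
      · linarith
    · rw [← lintegral_indicator hEm, ← lintegral_indicator hEm]
      refine Eq.trans (lintegral_congr fun ω => ?_) (h2.trans (lintegral_congr fun ω => ?_))
      · by_cases hω : ω ∈ ERs R θ p (n + 1)
        · rw [Set.indicator_of_mem hω, if_pos (hlt ω hω), Set.indicator_of_mem hω, one_mul]
        · rw [Set.indicator_of_notMem hω, Set.indicator_of_notMem hω, zero_mul, ite_self]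
      · by_cases hω : ω ∈ ERs R θ p (n + 1)
        · rw [Set.indicator_of_mem hω, if_pos (hlt ω hω), Set.indicator_of_mem hω, one_mul]
        · rw [Set.indicator_of_notMem hω, Set.indicator_of_notMem hω, zero_mul, ite_self]

private theorem vd2_le (h0 : 1 / 2 ≤ α) (h1 : α < 1) (hR : IsStableRegenerative α R P') {θ : ℝ}
    (hθ : 0 < θ) (p : ℕ → ℕ) (hp0 : p 0 = 0) (m : ℕ) (hp : ∀ i < m, p i < p (i + 1))
    (F : ℝ → ℝ≥0∞) (hF : Measurable F) (c : ℝ≥0∞)
    (hc : ∀ u ∈ Set.Ioc 0 θ, ∫⁻ v in Set.Ioi (0 : ℝ), F (θ * (p m + 1) + v) *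
          ENNReal.ofReal (rho α u v) ≤ c) :
    ∫⁻ ω in ERs R θ p m, F (nextPt (R ω) (θ * (p m + 1))) ∂P' ≤ c * P' (ERs R θ p m) := by
  obtain ⟨u, hu, he⟩ := vd2_step h0 h1 hR hθ p hp0 m hp F hF
  have hEm : MeasurableSet (ERs R θ p m) := past_le hR _ _ (vd2_ER_meas' hθ p m hp)
  rw [he]
  calc ∫⁻ ω in ERs R θ p m, (∫⁻ v in Set.Ioi (0 : ℝ), F (θ * (p m + 1) + v) *
          ENNReal.ofReal (rho α (u ω) v)) ∂P' ≤ ∫⁻ _ in ERs R θ p m, c ∂P' :=
        setLIntegral_mono' hEm fun ω hω => hc (u ω) (hu ω hω)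
    _ = c * P' (ERs R θ p m) := setLIntegral_const _ _

private theorem vd2_ge (h0 : 1 / 2 ≤ α) (h1 : α < 1) (hR : IsStableRegenerative α R P') {θ : ℝ}
    (hθ : 0 < θ) (p : ℕ → ℕ) (hp0 : p 0 = 0) (m : ℕ) (hp : ∀ i < m, p i < p (i + 1))
    (F : ℝ → ℝ≥0∞) (hF : Measurable F) (c : ℝ≥0∞)
    (hc : ∀ u ∈ Set.Ioc 0 θ, c ≤ ∫⁻ v in Set.Ioi (0 : ℝ), F (θ * (p m + 1) + v) *
          ENNReal.ofReal (rho α u v)) :
    c * P' (ERs R θ p m) ≤ ∫⁻ ω in ERs R θ p m, F (nextPt (R ω) (θ * (p m + 1))) ∂P' := by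
  obtain ⟨u, hu, he⟩ := vd2_step h0 h1 hR hθ p hp0 m hp F hF
  have hEm : MeasurableSet (ERs R θ p m) := past_le hR _ _ (vd2_ER_meas' hθ p m hp)
  rw [he]
  calc c * P' (ERs R θ p m) = ∫⁻ _ in ERs R θ p m, c ∂P' := (setLIntegral_const _ _).symm
    _ ≤ _ := setLIntegral_mono' hEm fun ω hω => hc (u ω) (hu ω hω)

/-- factorisation at an interface step `m` -/
private theorem vd2_frac (h0 : 1 / 2 ≤ α) (h1 : α < 1) (hR : IsStableRegenerative α R P') {θ : ℝ}
    (hθ : 0 < θ) (p : ℕ → ℕ) (k : ℕ) (hp0 : p 0 = 0) (hp : ∀ i < k, p i < p (i + 1)) {m : ℕ}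
    (hmk : m < k) (e : p (m + 1) = p m + 1) : ∃ b : ℝ≥0∞,
      (∀ A : Set Ω', MeasurableSet[past R (θ * (p m + 1))] A →
        P' (ERs R θ p k ∩ A) ≤ 4 * b * P' A) ∧
      b * (ENNReal.ofReal (1 - 5 * (1 - α)) * P' (ERs R θ p m)) ≤ P' (ERs R θ p k) := by
  obtain ⟨H, hHm, _, hH4, hHf⟩ := future h0 h1 hR hθ p k hp0 hp (i := m + 1) (by omega) (by omega)
  simp only [Nat.add_sub_cancel] at hHf
  set W : Set ℝ := Set.Ioc (θ * (p (m + 1) : ℝ)) (θ * (p (m + 1) + 1 / 2)) with hW
  set D : Ω' → ℝ := fun ω => nextPt (R ω) (θ * (p m + 1)) with hD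
  set S : Set Ω' := {ω | D ω ∈ W ∧
      ∀ j, m + 1 ≤ j → j < k → nextPt (R ω) (θ * (p j + 1)) ∈
        Set.Ioc (θ * p (j + 1)) (θ * (p (j + 1) + 1 / 2))} with hS
  have hT0 : 0 ≤ θ * ((p m : ℝ) + 1) := by positivity
  have hDp : Measurable[past R (θ * (p m + 1))] D := measurable_nextPt_past R hT0 le_rfl
  have hDm : Measurable D := hR.measurable_nextPt _
  have hWm : MeasurableSet (D ⁻¹' W) := hDm measurableSet_Ioc
  have hb : ∀ z ∈ W, H z ≤ 4 * ⨅ z' ∈ W, H z' := by
    intro z hz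
    have h3 : H z / 4 ≤ ⨅ z' ∈ W, H z' := by
      refine le_iInf₂ fun z' hz' => ?_
      exact ENNReal.div_le_of_le_mul' (hH4 z hz z' hz')
    calc H z = 4 * (H z / 4) := (ENNReal.mul_div_cancel (by norm_num) (by norm_num)).symm
      _ ≤ 4 * ⨅ z' ∈ W, H z' := by gcongr
  set b : ℝ≥0∞ := ⨅ z' ∈ W, H z' with hbdef
  have hbl : ∀ z ∈ W, b ≤ H z := fun z hz => iInf₂_le z hz
  have hSsub : ERs R θ p k ⊆ S := by
    intro ω hω
    exact ⟨hω m hmk, fun j _ hj => hω j hj⟩
  have hSsub2 : ERs R θ p m ∩ S ⊆ ERs R θ p k := by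
    rintro ω ⟨h3, h4, h5⟩ i hi
    rcases lt_trichotomy i m with h6 | h6 | h6
    · exact h3 i h6
    · subst h6
      exact h4
    · exact h5 i (by omega) hi
  have hSm : MeasurableSet S := by
    have h3 : S = D ⁻¹' W ∩ ⋂ j : Fin k, {ω | m + 1 ≤ (j : ℕ) → nextPt (R ω) (θ * (p j + 1)) ∈
        Set.Ioc (θ * p (j + 1)) (θ * (p (j + 1) + 1 / 2))} := by
      ext ω
      simp only [hS, Set.mem_ofPred_eq, Set.mem_inter_iff, Set.mem_preimage, Set.mem_iInter]
      constructor
      · rintro ⟨h3, h4⟩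
        exact ⟨h3, fun j hj => h4 j hj j.2⟩
      · rintro ⟨h3, h4⟩
        exact ⟨h3, fun j hj hj2 => h4 ⟨j, hj2⟩ hj⟩
    rw [h3]
    refine hWm.inter (MeasurableSet.iInter fun j => ?_)
    by_cases hj : m + 1 ≤ (j : ℕ)
    · simp only [hj, true_imp_iff]
      exact (hR.measurable_nextPt _) measurableSet_Ioc
    · simp only [hj, false_imp_iff]
      exact MeasurableSet.univ
  refine ⟨b, ?_, ?_⟩
  · intro A hA
    have hAm : MeasurableSet A := past_le hR _ _ hA
    have h3 := hHf (A.indicator (fun _ => 1))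
      ((@measurable_const _ _ _ (past R (θ * (p m + 1))) _).indicator hA)
    calc P' (ERs R θ p k ∩ A) ≤ P' (A ∩ S) := measure_mono fun ω hω => ⟨hω.2, hSsub hω.1⟩
      _ = ∫⁻ ω in S, A.indicator (fun _ => 1) ω ∂P' := by
          rw [lintegral_indicator hAm, setLIntegral_const, one_mul,
            Measure.restrict_apply hAm]
      _ = ∫⁻ ω in D ⁻¹' W, A.indicator (fun _ => 1) ω * H (D ω) ∂P' := h3
      _ ≤ ∫⁻ ω in D ⁻¹' W, A.indicator (fun _ => 1) ω * (4 * b) ∂P' := by
          refine setLIntegral_mono' hWm fun ω hω => ?_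
          gcongr
          exact hb (D ω) hω
      _ ≤ ∫⁻ ω, A.indicator (fun _ => 1) ω * (4 * b) ∂P' := setLIntegral_le_lintegral _ _
      _ = 4 * b * P' A := by
          rw [lintegral_mul_const _ (measurable_const.indicator hAm), lintegral_indicator hAm,
            setLIntegral_const, one_mul, mul_comm]
  · have hE := vd2_ER_meas' (R := R) hθ p m (fun i hi => hp i (by omega))
    have hEm : MeasurableSet (ERs R θ p m) := past_le hR _ _ hE
    have h3 := hHf ((ERs R θ p m).indicator (fun _ => 1))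
      ((@measurable_const _ _ _ (past R (θ * (p m + 1))) _).indicator hE)
    have h4 : ENNReal.ofReal (1 - 5 * (1 - α)) * P' (ERs R θ p m) ≤
        ∫⁻ ω in ERs R θ p m, W.indicator (fun _ => (1 : ℝ≥0∞)) (D ω) ∂P' := by
      refine vd2_ge h0 h1 hR hθ p hp0 m (fun i hi => hp i (by omega))
        (W.indicator (fun _ => 1)) (measurable_const.indicator measurableSet_Ioc) _ ?_
      intro u hu
      refine (rho_low_one h0 h1 hθ hu.1 hu.2).trans ?_
      rw [← lintegral_indicator measurableSet_Ioc, ← lintegral_indicator measurableSet_Ioi]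
      refine lintegral_mono fun v => ?_
      by_cases hv : v ∈ Set.Ioc 0 (θ / 2)
      · have hv0 : v ∈ Set.Ioi (0 : ℝ) := hv.1
        have hv1 : θ * (p m + 1) + v ∈ W := by
          rw [hW, e]
          push_cast
          exact ⟨by linarith [hv.1], by linarith [hv.2]⟩
        rw [Set.indicator_of_mem hv, Set.indicator_of_mem hv0, Set.indicator_of_mem hv1, one_mul]
      · rw [Set.indicator_of_notMem hv]
        exact zero_le
    calc b * (ENNReal.ofReal (1 - 5 * (1 - α)) * P' (ERs R θ p m))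
        ≤ b * ∫⁻ ω in ERs R θ p m, W.indicator (fun _ => (1 : ℝ≥0∞)) (D ω) ∂P' := by gcongr
      _ = ∫⁻ ω in ERs R θ p m, b * W.indicator (fun _ => (1 : ℝ≥0∞)) (D ω) ∂P' := by
          rw [lintegral_const_mul]
          exact (measurable_const.indicator measurableSet_Ioc).comp hDm
      _ ≤ ∫⁻ ω in D ⁻¹' W, (ERs R θ p m).indicator (fun _ => 1) ω * H (D ω) ∂P' := by
          rw [← lintegral_indicator hEm, ← lintegral_indicator hWm]
          refine lintegral_mono fun ω => ?_
          by_cases h5 : ω ∈ ERs R θ p m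
          · by_cases h6 : D ω ∈ W
            · rw [Set.indicator_of_mem h5, Set.indicator_of_mem h6, mul_one,
                Set.indicator_of_mem (show ω ∈ D ⁻¹' W from h6), Set.indicator_of_mem h5, one_mul]
              exact hbl _ h6
            · rw [Set.indicator_of_mem h5, Set.indicator_of_notMem h6, mul_zero]
              exact zero_le
          · rw [Set.indicator_of_notMem h5]
            exact zero_le
      _ = ∫⁻ ω in S, (ERs R θ p m).indicator (fun _ => 1) ω ∂P' := h3.symm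
      _ = P' (ERs R θ p m ∩ S) := by
          rw [lintegral_indicator hEm, setLIntegral_const, one_mul, Measure.restrict_apply hEm]
      _ ≤ P' (ERs R θ p k) := measure_mono hSsub2

/-- if there is no point in `(t0, t]` then the next points agree -/
private theorem vd2_next_eq (hR : IsStableRegenerative α R P') (ω : Ω') {t0 t : ℝ} (h : t0 ≤ t)
    (h2 : t < nextPt (R ω) t0) : nextPt (R ω) t = nextPt (R ω) t0 := by
  have hbd : ∀ t : ℝ, BddBelow {r | r ∈ R ω ∧ t < r} := fun t => ⟨t, fun r hr => hr.2.le⟩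
  have hne : ∀ t : ℝ, {r | r ∈ R ω ∧ t < r}.Nonempty := fun t => by
    obtain ⟨r, hr, htr⟩ := hR.unbounded ω t
    exact ⟨r, hr, htr⟩
  apply le_antisymm
  · refine le_csInf (hne t0) fun r hr => ?_
    have h3 : nextPt (R ω) t0 ≤ r := csInf_le (hbd t0) hr
    exact csInf_le (hbd t) ⟨hr.1, h2.trans_le h3⟩
  · exact csInf_le_csInf (hbd t0) (hne t) fun r hr => ⟨hr.1, h.trans_lt hr.2⟩

/-- the law of `D t0` has no atom -/
private theorem vd2_atom (h0 : 1 / 2 ≤ α) (h1 : α < 1) (hR : IsStableRegenerative α R P')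
    {t0 t : ℝ} (ht : 0 < t0) : P' {ω | nextPt (R ω) t0 = t} = 0 := by
  have h2 := law_D (by linarith) h1 hR ht (({t} : Set ℝ).indicator (fun _ => 1))
    (measurable_const.indicator (measurableSet_singleton t))
  have hm : MeasurableSet {ω | nextPt (R ω) t0 = t} :=
    (hR.measurable_nextPt t0) (measurableSet_singleton t)
  have h3 : ∫⁻ ω, ({t} : Set ℝ).indicator (fun _ => (1 : ℝ≥0∞)) (nextPt (R ω) t0) ∂P' =
      P' {ω | nextPt (R ω) t0 = t} := by
    rw [← lintegral_indicator_one hm]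
    refine lintegral_congr fun ω => ?_
    by_cases h4 : nextPt (R ω) t0 = t
    · rw [Set.indicator_of_mem (show nextPt (R ω) t0 ∈ ({t} : Set ℝ) from h4),
        Set.indicator_of_mem (show ω ∈ {ω | nextPt (R ω) t0 = t} from h4)]
      rfl
    · rw [Set.indicator_of_notMem (show nextPt (R ω) t0 ∉ ({t} : Set ℝ) from h4),
        Set.indicator_of_notMem (show ω ∉ {ω | nextPt (R ω) t0 = t} from h4)]
  rw [← h3, h2]
  refine (lintegral_eq_zero_iff' ?_).2 ?_
  · refine AEMeasurable.mul ?_ ?_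
    · exact ((measurable_const.indicator (measurableSet_singleton t)).comp
        (measurable_const.add measurable_id)).aemeasurable
    · exact ((measurable_rho α).comp (measurable_const.prodMk measurable_id)).ennreal_ofReal.aemeasurable
  · have h4 : ∀ᵐ v ∂(volume.restrict (Set.Ioi (0 : ℝ))), v ≠ t - t0 := by
      refine ae_restrict_of_ae ?_
      exact (measure_eq_zero_iff_ae_notMem (μ := volume) (s := {t - t0})).1 (by simp)
    filter_upwards [h4] with v hv
    have h5 : t0 + v ∉ ({t} : Set ℝ) := by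
      intro h6
      apply hv
      have h7 : t0 + v = t := h6
      linarith
    show ({t} : Set ℝ).indicator (fun _ => (1 : ℝ≥0∞)) (t0 + v) * _ = 0
    rw [Set.indicator_of_notMem h5, zero_mul]

/-- VD2. Tail of the excursion straddling `t`, in a cell entered and left by interface steps. -/
theorem cond_tail (h0 : 9 / 10 ≤ α) (h1 : α < 1) (hR : IsStableRegenerative α R P') {θ : ℝ}
    (hθ : 0 < θ) (p : ℕ → ℕ) (k : ℕ) (hp0 : p 0 = 0) (hp : ∀ i < k, p i < p (i + 1)) {i : ℕ}
    (hi0 : 0 < i) (hik : i < k) (e1 : p i = p (i - 1) + 1) (e2 : p (i + 1) = p i + 1) {t s : ℝ}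
    (ht1 : θ * p i ≤ t) (ht2 : t < θ * (p i + 1)) (hs : 0 < s) (hts : t + s ≤ θ * (p i + 1)) :
    P'.real (ERs R θ p k ∩ {ω | t + s < nextPt (R ω) t}) ≤
      100 * (1 - α) * (s / θ) ^ (-(1 / 2 : ℝ)) * P'.real (ERs R θ p k) := by
  obtain ⟨m, rfl⟩ : ∃ m, i = m + 1 := ⟨i - 1, by omega⟩
  simp only [Nat.add_sub_cancel] at e1
  have h00 : 1 / 2 ≤ α := by linarith
  have hpm : ∀ i < m, p i < p (i + 1) := fun i hi => hp i (by omega)
  have hpm1 : ∀ i < m + 1, p i < p (i + 1) := fun i hi => hp i (by omega)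
  have ht0 : θ * (p (m + 1) : ℝ) = θ * (p m + 1) := by rw [e1]; push_cast; ring
  set t0 : ℝ := θ * ((p m : ℝ) + 1) with ht0d
  have ht00 : 0 < t0 := by positivity
  have ht1' : t0 ≤ t := by rw [← ht0]; exact ht1
  have hw : θ * ((p (m + 1) : ℝ) + 1) = t0 + θ := by rw [mul_add, ht0]; ring
  rw [hw] at ht2 hts
  set w : ℝ := t0 + θ with hwd
  have hsθ : s ≤ θ := by linarith
  set c₂ : ℝ≥0∞ := ENNReal.ofReal (3 * (1 - α) * (s / θ) ^ (-(1 / 2 : ℝ))) with hc₂
  set c₁ : ℝ≥0∞ := ENNReal.ofReal (1 - 5 * (1 - α)) with hc₁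
  obtain ⟨b₁, hb₁, hb₁'⟩ := vd2_frac h00 h1 hR hθ p k hp0 hp (m := m) (by omega) e1
  obtain ⟨b₂, hb₂, hb₂'⟩ := vd2_frac h00 h1 hR hθ p k hp0 hp (m := m + 1) (by omega) e2
  rw [← hc₁] at hb₁' hb₂'
  -- the tail of the kernel
  have hFm : Measurable ((Set.Ioi (t + s)).indicator (fun _ => (1 : ℝ≥0∞))) :=
    measurable_const.indicator measurableSet_Ioi
  have htail : ∀ T u : ℝ, T ≤ t → u ∈ Set.Ioc 0 θ →
      ∫⁻ v in Set.Ioi (0 : ℝ), (Set.Ioi (t + s)).indicator (fun _ => (1 : ℝ≥0∞)) (T + v) *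
        ENNReal.ofReal (rho α u v) ≤ c₂ := by
    intro T u hT hu
    refine le_trans ?_ (rho_tail h00 h1 hu.1 hu.2 hs hsθ)
    rw [← lintegral_indicator measurableSet_Ioi, ← lintegral_indicator measurableSet_Ioi]
    refine lintegral_mono fun v => ?_
    by_cases hv : T + v ∈ Set.Ioi (t + s)
    · have hv1 : v ∈ Set.Ioi s := by
        have h3 : t + s < T + v := hv
        show s < v
        linarith
      have hv0 : v ∈ Set.Ioi (0 : ℝ) := lt_trans hs hv1
      rw [Set.indicator_of_mem hv0, Set.indicator_of_mem hv, Set.indicator_of_mem hv1, one_mul]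
    · refine le_trans (le_of_eq ?_) (zero_le)
      by_cases hv0 : v ∈ Set.Ioi (0 : ℝ)
      · rw [Set.indicator_of_mem hv0, Set.indicator_of_notMem hv, zero_mul]
      · rw [Set.indicator_of_notMem hv0]
  -- the events
  set A₁ : Set Ω' := ERs R θ p m ∩ {ω | t + s < nextPt (R ω) t0} with hA₁
  set A₂ : Set Ω' := ERs R θ p (m + 1) ∩ ({ω | nextPt (R ω) t0 < t} ∩
    {ω | t + s < nextPt (R ω) t}) with hA₂
  have hA₁m : MeasurableSet[past R (θ * (p m + 1))] A₁ := by
    refine @MeasurableSet.inter _ (past R (θ * (p m + 1))) _ _ (vd2_ER_meas' hθ p m hpm) ?_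
    exact (measurable_nextPt_past R ht00.le le_rfl) measurableSet_Ioi
  have hA₂m : MeasurableSet[past R (θ * (p (m + 1) + 1))] A₂ := by
    rw [hw]
    refine @MeasurableSet.inter _ (past R w) _ _ ?_
      (@MeasurableSet.inter _ (past R w) _ _ ?_ ?_)
    · have := vd2_ER_meas' (R := R) hθ p (m + 1) hpm1
      rwa [hw] at this
    · exact (measurable_nextPt_past R ht00.le (by linarith)) measurableSet_Iio
    · exact (measurable_nextPt_past R (by linarith) (by linarith)) measurableSet_Ioi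
  have hPA₁ : P' A₁ ≤ c₂ * P' (ERs R θ p m) := by
    have h3 := vd2_le h00 h1 hR hθ p hp0 m hpm ((Set.Ioi (t + s)).indicator (fun _ => 1)) hFm c₂
      (fun u hu => htail t0 u ht1' hu)
    refine le_trans (le_of_eq ?_) h3
    have hEm : MeasurableSet (ERs R θ p m) := past_le hR _ _ (vd2_ER_meas' hθ p m hpm)
    have hm2 : MeasurableSet {ω | t + s < nextPt (R ω) t0} :=
      (hR.measurable_nextPt t0) measurableSet_Ioi
    rw [hA₁, Set.inter_comm, ← Measure.restrict_apply hm2, ← lintegral_indicator_one hm2]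
    rfl
  have hPA₂ : P' A₂ ≤ c₂ * P' (ERs R θ p (m + 1)) := by
    rcases ht1'.eq_or_lt with h3 | h3
    · have h4 : A₂ = ∅ := by
        rw [hA₂, ← h3]
        ext ω
        simp only [Set.mem_inter_iff, Set.mem_ofPred_eq, Set.mem_empty_iff_false, iff_false]
        rintro ⟨_, h5, _⟩
        have h6 : t0 ≤ nextPt (R ω) t0 := by
          obtain ⟨r, hr, hsr⟩ := hR.unbounded ω t0
          exact le_csInf ⟨r, hr, hsr⟩ fun x hx => hx.2.le
        linarith
      rw [h4, measure_empty]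
      exact zero_le
    · have hE := vd2_ER_meas (R := R) hθ p m (fun i hi => hp i (by omega))
      have hEm : MeasurableSet (ERs R θ p (m + 1)) := past_le hR _ _ hE
      have h4 := markov (by linarith) h1 hR (t := t0) (w := t) ht00.le h3
        ((ERs R θ p (m + 1)).indicator (fun _ => (1 : ℝ≥0∞)))
        ((@measurable_const _ _ _ (past R t0) _).indicator hE)
        ((Set.Ioi (t + s)).indicator (fun _ => 1)) hFm
      have hA₂m' : MeasurableSet A₂ := past_le hR _ _ hA₂m
      calc P' A₂ = ∫⁻ ω, A₂.indicator 1 ω ∂P' := (lintegral_indicator_one hA₂m').symm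
        _ = ∫⁻ ω, (if nextPt (R ω) t0 < t then (ERs R θ p (m + 1)).indicator (fun _ => (1 : ℝ≥0∞)) ω *
            (Set.Ioi (t + s)).indicator (fun _ => (1 : ℝ≥0∞)) (nextPt (R ω) t) else 0) ∂P' := by
            refine lintegral_congr fun ω => ?_
            by_cases h5 : nextPt (R ω) t0 < t
            · rw [if_pos h5]
              by_cases h6 : ω ∈ ERs R θ p (m + 1)
              · rw [Set.indicator_of_mem h6, one_mul]
                by_cases h7 : t + s < nextPt (R ω) t
                · rw [Set.indicator_of_mem (show ω ∈ A₂ from ⟨h6, h5, h7⟩),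
                    Set.indicator_of_mem (show nextPt (R ω) t ∈ Set.Ioi (t + s) from h7)]
                  rfl
                · rw [Set.indicator_of_notMem (show ω ∉ A₂ from fun h8 => h7 h8.2.2),
                    Set.indicator_of_notMem (show nextPt (R ω) t ∉ Set.Ioi (t + s) from h7)]
              · rw [Set.indicator_of_notMem h6, zero_mul,
                  Set.indicator_of_notMem (show ω ∉ A₂ from fun h8 => h6 h8.1)]
            · rw [if_neg h5, Set.indicator_of_notMem (show ω ∉ A₂ from fun h8 => h5 h8.2.1)]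
        _ = _ := h4
        _ ≤ ∫⁻ ω, c₂ * (ERs R θ p (m + 1)).indicator 1 ω ∂P' := by
            refine lintegral_mono fun ω => ?_
            split_ifs with h5
            · by_cases h6 : ω ∈ ERs R θ p (m + 1)
              · rw [Set.indicator_of_mem h6, one_mul, Set.indicator_of_mem h6, Pi.one_apply,
                  mul_one]
                refine htail t (t - nextPt (R ω) t0) le_rfl ⟨by linarith, ?_⟩
                have h7 := (h6 m (by omega)).1
                rw [ht0] at h7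
                linarith
              · rw [Set.indicator_of_notMem h6, zero_mul]
                exact zero_le
            · exact zero_le
        _ = c₂ * P' (ERs R θ p (m + 1)) := by
            rw [lintegral_const_mul _ (measurable_one.indicator hEm), lintegral_indicator_one hEm]
  have hcover : ERs R θ p k ∩ {ω | t + s < nextPt (R ω) t} ⊆
      (ERs R θ p k ∩ A₁) ∪ ((ERs R θ p k ∩ A₂) ∪ {ω | nextPt (R ω) t0 = t}) := by
    rintro ω ⟨h3, h4⟩
    have h4' : t + s < nextPt (R ω) t := h4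
    rcases lt_trichotomy (nextPt (R ω) t0) t with h5 | h5 | h5
    · right
      left
      exact ⟨h3, fun j hj => h3 j (by omega), h5, h4⟩
    · right
      right
      exact h5
    · left
      refine ⟨h3, fun j hj => h3 j (by omega), ?_⟩
      show t + s < nextPt (R ω) t0
      rwa [vd2_next_eq hR ω ht1' h5] at h4'
  have hmain : c₁ * P' (ERs R θ p k ∩ {ω | t + s < nextPt (R ω) t}) ≤
      8 * c₂ * P' (ERs R θ p k) := by
    calc c₁ * P' (ERs R θ p k ∩ {ω | t + s < nextPt (R ω) t})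
        ≤ c₁ * (P' (ERs R θ p k ∩ A₁) + (P' (ERs R θ p k ∩ A₂) + 0)) := by
          gcongr
          refine (measure_mono hcover).trans ((measure_union_le _ _).trans ?_)
          gcongr
          refine (measure_union_le _ _).trans ?_
          rw [vd2_atom h00 h1 hR ht00]
      _ ≤ c₁ * (4 * b₁ * (c₂ * P' (ERs R θ p m)) +
            (4 * b₂ * (c₂ * P' (ERs R θ p (m + 1))) + 0)) := by
          gcongr
          · exact (hb₁ A₁ hA₁m).trans (by gcongr)
          · exact (hb₂ A₂ hA₂m).trans (by gcongr)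
      _ = 4 * c₂ * (b₁ * (c₁ * P' (ERs R θ p m))) +
            4 * c₂ * (b₂ * (c₁ * P' (ERs R θ p (m + 1)))) := by ring
      _ ≤ 4 * c₂ * P' (ERs R θ p k) + 4 * c₂ * P' (ERs R θ p k) := by gcongr
      _ = 8 * c₂ * P' (ERs R θ p k) := by ring
  -- real numbers
  have hr0 : 0 ≤ (s / θ) ^ (-(1 / 2 : ℝ)) := by positivity
  have hc₂0 : 0 ≤ 3 * (1 - α) * (s / θ) ^ (-(1 / 2 : ℝ)) :=
    mul_nonneg (by linarith) hr0
  have hmain2 := ENNReal.toReal_mono (by
    refine ENNReal.mul_ne_top (ENNReal.mul_ne_top (by norm_num) ENNReal.ofReal_ne_top)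
      (measure_ne_top _ _)) hmain
  rw [ENNReal.toReal_mul, ENNReal.toReal_mul, ENNReal.toReal_mul, hc₁, hc₂,
    ENNReal.toReal_ofReal (by linarith), ENNReal.toReal_ofReal hc₂0] at hmain2
  simp only [ENNReal.toReal_ofNat] at hmain2
  change (1 - 5 * (1 - α)) * P'.real (ERs R θ p k ∩ {ω | t + s < nextPt (R ω) t}) ≤
    8 * (3 * (1 - α) * (s / θ) ^ (-(1 / 2 : ℝ))) * P'.real (ERs R θ p k) at hmain2
  have hx0 : 0 ≤ P'.real (ERs R θ p k ∩ {ω | t + s < nextPt (R ω) t}) := measureReal_nonneg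
  have hy0 : 0 ≤ P'.real (ERs R θ p k) := measureReal_nonneg
  have hz0 : 0 ≤ (1 - α) * (s / θ) ^ (-(1 / 2 : ℝ)) * P'.real (ERs R θ p k) :=
    mul_nonneg (mul_nonneg (by linarith) hr0) hy0
  nlinarith

end

end Pool.Agent.Lib.MP_3d9a2b_pr
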