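import Pool.Agent.Lib.MP_3d9a2b_pr.V.LawD

set_option autoImplicit false

/-! Task VA3: bounds for the kernel `rho` near `α = 1`. -/

namespace Pool.Agent.Lib.MP_3d9a2b_pr

open MeasureTheory ProbabilityTheory Filter Topology
open scoped NNReal ENNReal

private lemma va3_beta {α : ℝ} (h0 : 0 < α) (h1 : α < 1) :
    1 / beta α (1 - α) = Real.sin (Real.pi * (1 - α)) / Real.pi := by
  have hs : Real.sin (Real.pi * (1 - α)) = Real.sin (Real.pi * α) := by
    rw [mul_sub, mul_one, Real.sin_pi_sub]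
  have h : beta α (1 - α) = Real.pi / Real.sin (Real.pi * α) := by
    rw [← Real.Gamma_mul_Gamma_one_sub α]
    unfold ProbabilityTheory.beta
    rw [add_sub_cancel, Real.Gamma_one, div_one]
  rw [h, hs, one_div_div]

theorem beta_const_le {α : ℝ} (h0 : 0 < α) (h1 : α < 1) : 1 / beta α (1 - α) ≤ 1 - α := by
  rw [va3_beta h0 h1, div_le_iff₀ Real.pi_pos, mul_comm (1 - α)]
  exact Real.sin_le (mul_nonneg Real.pi_pos.le (by linarith))

theorem beta_const_ge {α : ℝ} (h0 : 1 / 2 ≤ α) (h1 : α < 1) :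
    2 / Real.pi * (1 - α) ≤ 1 / beta α (1 - α) := by
  rw [va3_beta (by linarith) h1, le_div_iff₀ Real.pi_pos]
  have hpi := Real.pi_pos
  have h := Real.mul_le_sin (x := Real.pi * (1 - α)) (by
    exact mul_nonneg hpi.le (by linarith)) (by nlinarith)
  refine le_trans (le_of_eq ?_) h
  field_simp

private lemma va3_beta_pos {α : ℝ} (h0 : 0 < α) (h1 : α < 1) : 0 < 1 / beta α (1 - α) :=
  one_div_pos.mpr (beta_pos h0 (by linarith))

private lemma va3_ker_nonneg {α u v : ℝ} (hu : 0 < u) (hv : 0 < v) :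
    0 ≤ u ^ α * v ^ (-α) / (u + v) := by positivity

/-- `u^α v^{-α}/(u+v) ≤ 1/v` for `v ≤ u` -/
private lemma va3_small {α u v : ℝ} (h1 : α < 1) (hv : 0 < v) (hvu : v ≤ u) :
    u ^ α * v ^ (-α) / (u + v) ≤ 1 / v := by
  have hu : 0 < u := lt_of_lt_of_le hv hvu
  rw [div_le_div_iff₀ (by linarith) hv, one_mul]
  have h2 : u ^ α * v ^ (-α) = (u / v) ^ α := by
    rw [Real.rpow_neg hv.le, Real.div_rpow hu.le hv.le, div_eq_mul_inv]
  have h3 : (u / v) ^ α ≤ u / v := by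
    have : (u / v) ^ α ≤ (u / v) ^ (1 : ℝ) :=
      Real.rpow_le_rpow_of_exponent_le ((one_le_div hv).mpr hvu) h1.le
    rwa [Real.rpow_one] at this
  rw [h2]
  calc (u / v) ^ α * v ≤ u / v * v := mul_le_mul_of_nonneg_right h3 hv.le
    _ = u := div_mul_cancel₀ _ hv.ne'
    _ ≤ u + v := by linarith

/-- `u^α v^{-α}/(u+v) ≤ u^α v^{-α-1}` -/
private lemma va3_large {α u v : ℝ} (hu : 0 < u) (hv : 0 < v) :
    u ^ α * v ^ (-α) / (u + v) ≤ u ^ α * v ^ (-α - 1) := by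
  rw [Real.rpow_sub_one hv.ne', mul_div_assoc' (u ^ α)]
  exact div_le_div_of_nonneg_left (by positivity) hv (by linarith)

private lemma va3_int_small {s M : ℝ} (hs : 0 < s) (hM : s ≤ M) :
    ∫⁻ v in Set.Ioc s M, ENNReal.ofReal (1 / v) = ENNReal.ofReal (Real.log (M / s)) := by
  have hM0 : 0 < M := lt_of_lt_of_le hs hM
  have h0 : (0:ℝ) ∉ Set.uIcc s M := by
    rw [Set.uIcc_of_le hM]
    intro h
    exact absurd h.1 (not_le.mpr hs)
  rw [← integral_one_div_of_pos hs hM0, intervalIntegral.integral_of_le hM,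
    ofReal_integral_eq_lintegral_ofReal]
  · exact (intervalIntegral.intervalIntegrable_one_div (fun x hx h => h0 (h ▸ hx))
      continuousOn_id).1
  · refine (ae_restrict_iff' measurableSet_Ioc).mpr (Eventually.of_forall fun v hv => ?_)
    exact one_div_nonneg.mpr (hs.trans hv.1).le

private lemma va3_int_large {α u M : ℝ} (h0 : 0 < α) (hu : 0 < u) (hM : u ≤ M) :
    ∫⁻ v in Set.Ioi M, ENNReal.ofReal (u ^ α * v ^ (-α - 1)) ≤ ENNReal.ofReal (1 / α) := by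
  have hM0 : 0 < M := lt_of_lt_of_le hu hM
  have hint : IntegrableOn (fun v : ℝ => u ^ α * v ^ (-α - 1)) (Set.Ioi M) :=
    (integrableOn_Ioi_rpow_of_lt (by linarith) hM0).const_mul _
  rw [← ofReal_integral_eq_lintegral_ofReal hint]
  · refine ENNReal.ofReal_le_ofReal ?_
    rw [integral_const_mul, integral_Ioi_rpow_of_lt (by linarith) hM0]
    have e : -α - 1 + 1 = -α := by ring
    rw [e, neg_div_neg_eq, mul_div_assoc', div_le_div_iff_of_pos_right h0,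
      Real.rpow_neg hM0.le, ← div_eq_mul_inv, div_le_one (by positivity)]
    exact Real.rpow_le_rpow hu.le hM h0.le
  · refine (ae_restrict_iff' measurableSet_Ioi).mpr (Eventually.of_forall fun v hv => ?_)
    have : 0 < v := hM0.trans hv
    positivity

private lemma va3_log_le {y : ℝ} (hy : 1 ≤ y) : Real.log y + 2 ≤ 3 * y ^ (1 / 2 : ℝ) := by
  have hy0 : 0 < y := by linarith
  have h1 : Real.log (y ^ (1 / 2 : ℝ)) = 1 / 2 * Real.log y := Real.log_rpow hy0 _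
  have h2 : Real.log (y ^ (1 / 2 : ℝ)) ≤ y ^ (1 / 2 : ℝ) - 1 :=
    Real.log_le_sub_one_of_pos (by positivity)
  have h3 : 0 ≤ y ^ (1 / 2 : ℝ) := by positivity
  linarith

private lemma va3_ofReal_rho_le {α u v K : ℝ} (h0 : 0 < α) (h1 : α < 1) (hu : 0 < u)
    (hv : 0 < v) (hK : u ^ α * v ^ (-α) / (u + v) ≤ K) :
    ENNReal.ofReal (rho α u v) ≤ ENNReal.ofReal (1 - α) * ENNReal.ofReal K := by
  rw [← ENNReal.ofReal_mul (by linarith)]
  refine ENNReal.ofReal_le_ofReal ?_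
  unfold rho
  exact mul_le_mul (beta_const_le h0 h1) hK (va3_ker_nonneg hu hv) (by linarith)

theorem rho_tail {α θ u s : ℝ} (h0 : 1 / 2 ≤ α) (h1 : α < 1) (hu : 0 < u) (huθ : u ≤ θ)
    (hs : 0 < s) (hsθ : s ≤ θ) :
    ∫⁻ v in Set.Ioi s, ENNReal.ofReal (rho α u v) ≤
      ENNReal.ofReal (3 * (1 - α) * (s / θ) ^ (-(1 / 2 : ℝ))) := by
  have hα : 0 < α := by linarith
  set M := max s u with hM
  have hsM : s ≤ M := le_max_left _ _
  have huM : u ≤ M := le_max_right _ _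
  have hMθ : M ≤ θ := max_le hsθ huθ
  have hM0 : 0 < M := lt_of_lt_of_le hs hsM
  have hθ : 0 < θ := lt_of_lt_of_le hs hsθ
  have hsplit : Set.Ioi s = Set.Ioc s M ∪ Set.Ioi M := (Set.Ioc_union_Ioi_eq_Ioi hsM).symm
  have hA : ∫⁻ v in Set.Ioc s M, ENNReal.ofReal (rho α u v) ≤
      ENNReal.ofReal (1 - α) * ENNReal.ofReal (Real.log (M / s)) := by
    rw [← va3_int_small hs hsM, ← lintegral_const_mul' _ _ ENNReal.ofReal_ne_top]
    refine setLIntegral_mono' measurableSet_Ioc (fun v hv => ?_)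
    have hv0 : 0 < v := hs.trans hv.1
    refine va3_ofReal_rho_le hα h1 hu hv0 (va3_small h1 hv0 ?_)
    rcases le_total s u with h | h
    · rw [hM, max_eq_right h] at hv
      exact hv.2
    · rw [hM, max_eq_left h] at hv
      exact absurd hv.2 (not_le.mpr hv.1)
  have hB : ∫⁻ v in Set.Ioi M, ENNReal.ofReal (rho α u v) ≤
      ENNReal.ofReal (1 - α) * ENNReal.ofReal 2 := by
    calc ∫⁻ v in Set.Ioi M, ENNReal.ofReal (rho α u v)
        ≤ ∫⁻ v in Set.Ioi M, ENNReal.ofReal (1 - α) *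
            ENNReal.ofReal (u ^ α * v ^ (-α - 1)) := by
          refine setLIntegral_mono' measurableSet_Ioi (fun v hv => ?_)
          exact va3_ofReal_rho_le hα h1 hu (hM0.trans hv) (va3_large hu (hM0.trans hv))
      _ = ENNReal.ofReal (1 - α) * ∫⁻ v in Set.Ioi M, ENNReal.ofReal (u ^ α * v ^ (-α - 1)) :=
          lintegral_const_mul' _ _ ENNReal.ofReal_ne_top
      _ ≤ ENNReal.ofReal (1 - α) * ENNReal.ofReal 2 := by
          refine mul_le_mul_right (le_trans (va3_int_large hα hu huM)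
            (ENNReal.ofReal_le_ofReal ?_)) _
          rw [div_le_iff₀ hα]
          linarith
  rw [hsplit, lintegral_union measurableSet_Ioi (Set.Ioc_disjoint_Ioi le_rfl)]
  refine (add_le_add hA hB).trans ?_
  have hlog : 0 ≤ Real.log (M / s) := Real.log_nonneg ((one_le_div hs).mpr hsM)
  rw [← mul_add, ← ENNReal.ofReal_add hlog (by norm_num), ← ENNReal.ofReal_mul (by linarith)]
  refine ENNReal.ofReal_le_ofReal ?_
  have h2 : Real.log (M / s) ≤ Real.log (θ / s) :=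
    Real.log_le_log (by positivity) (div_le_div_of_nonneg_right hMθ hs.le)
  have h3 := va3_log_le ((one_le_div hs).mpr hsθ)
  have h4 : (s / θ) ^ (-(1 / 2 : ℝ)) = (θ / s) ^ (1 / 2 : ℝ) := by
    rw [Real.rpow_neg (by positivity), ← Real.inv_rpow (by positivity), inv_div]
  rw [h4]
  have h5 : Real.log (M / s) + 2 ≤ 3 * (θ / s) ^ (1 / 2 : ℝ) := by linarith
  calc (1 - α) * (Real.log (M / s) + 2) ≤ (1 - α) * (3 * (θ / s) ^ (1 / 2 : ℝ)) :=
        mul_le_mul_of_nonneg_left h5 (by linarith)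
    _ = 3 * (1 - α) * (θ / s) ^ (1 / 2 : ℝ) := by ring

theorem rho_cell {α θ u : ℝ} (h0 : 1 / 2 ≤ α) (h1 : α < 1) (hu : 0 < u) (huθ : u ≤ θ) {m : ℕ}
    (hm : 1 ≤ m) :
    ∫⁻ v in Set.Ico (θ * m) (θ * (m + 1)), ENNReal.ofReal (rho α u v) ≤
      ENNReal.ofReal ((1 - α) * (m : ℝ) ^ (-(1 + α))) := by
  have hα : 0 < α := by linarith
  have hθ : 0 < θ := lt_of_lt_of_le hu huθ
  have hm0 : (0:ℝ) < m := by exact_mod_cast hm
  have hθm : 0 < θ * m := by positivity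
  have hbd : ∀ v ∈ Set.Ico (θ * m) (θ * (m + 1)), ENNReal.ofReal (rho α u v) ≤
      ENNReal.ofReal (1 - α) * ENNReal.ofReal (θ⁻¹ * (m : ℝ) ^ (-(1 + α))) := by
    intro v hv
    have hv0 : 0 < v := lt_of_lt_of_le hθm hv.1
    refine va3_ofReal_rho_le hα h1 hu hv0 ((va3_large hu hv0).trans ?_)
    have e1 : v ^ (-α - 1) ≤ (θ * m) ^ (-α - 1) :=
      Real.rpow_le_rpow_of_nonpos hθm hv.1 (by linarith)
    have e2 : u ^ α ≤ θ ^ α := Real.rpow_le_rpow hu.le huθ hα.le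
    calc u ^ α * v ^ (-α - 1) ≤ θ ^ α * (θ * m) ^ (-α - 1) :=
          mul_le_mul e2 e1 (by positivity) (by positivity)
      _ = θ⁻¹ * (m : ℝ) ^ (-(1 + α)) := by
          rw [Real.mul_rpow hθ.le hm0.le, ← mul_assoc, ← Real.rpow_add hθ]
          have : α + (-α - 1) = -1 := by ring
          rw [this, Real.rpow_neg_one]
          congr 2
          ring
  calc ∫⁻ v in Set.Ico (θ * m) (θ * (m + 1)), ENNReal.ofReal (rho α u v)
      ≤ ∫⁻ _v in Set.Ico (θ * m) (θ * (m + 1)),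
          ENNReal.ofReal (1 - α) * ENNReal.ofReal (θ⁻¹ * (m : ℝ) ^ (-(1 + α))) :=
        setLIntegral_mono' measurableSet_Ico hbd
    _ = ENNReal.ofReal (1 - α) * ENNReal.ofReal (θ⁻¹ * (m : ℝ) ^ (-(1 + α))) *
          ENNReal.ofReal θ := by
        rw [setLIntegral_const, Real.volume_Ico]
        congr 2
        ring
    _ = ENNReal.ofReal ((1 - α) * (m : ℝ) ^ (-(1 + α))) := by
        rw [← ENNReal.ofReal_mul (by linarith), ← ENNReal.ofReal_mul (by
          have : 0 ≤ 1 - α := by linarith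
          positivity)]
        congr 1
        field_simp

theorem rho_low_one {α θ u : ℝ} (h0 : 1 / 2 ≤ α) (h1 : α < 1) (hθ : 0 < θ) (hu : 0 < u)
    (huθ : u ≤ θ) :
    ENNReal.ofReal (1 - 5 * (1 - α)) ≤
      ∫⁻ v in Set.Ioc 0 (θ / 2), ENNReal.ofReal (rho α u v) := by
  have hα : 0 < α := by linarith
  have htot := rho_total hα h1 hu
  have hsplit : Set.Ioi (0:ℝ) = Set.Ioc 0 (θ / 2) ∪ Set.Ioi (θ / 2) :=
    (Set.Ioc_union_Ioi_eq_Ioi (by linarith)).symm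
  rw [hsplit, lintegral_union measurableSet_Ioi (Set.Ioc_disjoint_Ioi le_rfl)] at htot
  have htail := rho_tail (s := θ / 2) h0 h1 hu huθ (by linarith) (by linarith)
  have h5 : 3 * (1 - α) * (θ / 2 / θ) ^ (-(1 / 2 : ℝ)) ≤ 5 * (1 - α) := by
    have e1 : θ / 2 / θ = 1 / 2 := by field_simp
    have e2 : (1 / 2 : ℝ) ^ (-(1 / 2 : ℝ)) = Real.sqrt 2 := by
      rw [Real.rpow_neg (by norm_num), ← Real.inv_rpow (by norm_num), Real.sqrt_eq_rpow]
      norm_num
    rw [e1, e2]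
    have e3 : Real.sqrt 2 ≤ 5 / 3 := by
      rw [Real.sqrt_le_left (by norm_num)]
      norm_num
    nlinarith
  have h6 : (1 : ℝ≥0∞) ≤ (∫⁻ v in Set.Ioc 0 (θ / 2), ENNReal.ofReal (rho α u v)) +
      ENNReal.ofReal (5 * (1 - α)) := by
    rw [← htot]
    exact add_le_add le_rfl (htail.trans (ENNReal.ofReal_le_ofReal h5))
  rw [ENNReal.ofReal_sub _ (by linarith : (0:ℝ) ≤ 5 * (1 - α)), ENNReal.ofReal_one]
  exact tsub_le_iff_right.mpr h6

private lemma va3_half_rpow {α : ℝ} (h1 : α < 1) (h0 : 0 < α) : (1 / 2 : ℝ) ≤ (1 / 2 : ℝ) ^ α := by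
  have := Real.rpow_le_rpow_of_exponent_ge (x := (1 / 2 : ℝ)) (by norm_num) (by norm_num) h1.le
  rwa [Real.rpow_one] at this

theorem rho_low {α θ u : ℝ} (h0 : 1 / 2 ≤ α) (h1 : α < 1) (hθ : 0 < θ) (hu : θ / 2 ≤ u)
    (huθ : u ≤ θ) {l : ℕ} (hl : 2 ≤ l) :
    ENNReal.ofReal ((1 - α) / 8 * ((l : ℝ) ^ 2)⁻¹) ≤
      ∫⁻ v in Set.Ioc (θ * (l - 1)) (θ * (l - 1 / 2)), ENNReal.ofReal (rho α u v) := by
  have hα : 0 < α := by linarith
  have hu0 : 0 < u := by linarith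
  have hl2 : (2:ℝ) ≤ l := by exact_mod_cast hl
  have hη : 0 < 1 - α := by linarith
  have hpi := Real.pi_pos
  have hpi4 := Real.pi_le_four
  have hbd : ∀ v ∈ Set.Ioc (θ * (l - 1)) (θ * ((l:ℝ) - 1 / 2)),
      ENNReal.ofReal ((1 - α) / 4 * (((l : ℝ) ^ 2)⁻¹ * θ⁻¹)) ≤ ENNReal.ofReal (rho α u v) := by
    intro v hv
    have hv0 : 0 < v := lt_of_le_of_lt (mul_nonneg hθ.le (by linarith)) hv.1
    refine ENNReal.ofReal_le_ofReal ?_
    have hL : (0:ℝ) < l - 1 / 2 := by linarith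
    have e1 : θ ^ α * (1 / 2) ≤ u ^ α := by
      have a1 : (θ / 2) ^ α ≤ u ^ α := Real.rpow_le_rpow (by linarith) hu hα.le
      have a2 : (θ / 2) ^ α = θ ^ α * (1 / 2) ^ α := by
        rw [← Real.mul_rpow hθ.le (by norm_num)]
        congr 1
        ring
      have a3 := va3_half_rpow h1 hα
      have a4 : 0 < θ ^ α := by positivity
      nlinarith
    have e2 : θ ^ (-α) * ((l:ℝ) - 1 / 2)⁻¹ ≤ v ^ (-α) := by
      have a1 : (θ * ((l:ℝ) - 1 / 2)) ^ (-α) ≤ v ^ (-α) :=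
        Real.rpow_le_rpow_of_nonpos hv0 hv.2 (by linarith)
      have a2 : (θ * ((l:ℝ) - 1 / 2)) ^ (-α) = θ ^ (-α) * ((l:ℝ) - 1 / 2) ^ (-α) :=
        Real.mul_rpow hθ.le hL.le
      have a3 : ((l:ℝ) - 1 / 2)⁻¹ ≤ ((l:ℝ) - 1 / 2) ^ (-α) := by
        rw [← Real.rpow_neg_one]
        exact Real.rpow_le_rpow_of_exponent_le (by linarith) (by linarith)
      have a4 : 0 < θ ^ (-α) := by positivity
      nlinarith
    have e3 : u + v ≤ θ * ((l:ℝ) + 1 / 2) := by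
      have := hv.2
      nlinarith
    have hθθ : θ ^ α * θ ^ (-α) = 1 := by
      rw [← Real.rpow_add hθ]
      simp
    have hnum : 1 / 2 * ((l:ℝ) - 1 / 2)⁻¹ ≤ u ^ α * v ^ (-α) := by
      calc 1 / 2 * ((l:ℝ) - 1 / 2)⁻¹
          = (θ ^ α * (1 / 2)) * (θ ^ (-α) * ((l:ℝ) - 1 / 2)⁻¹) := by
            calc 1 / 2 * ((l:ℝ) - 1 / 2)⁻¹ = (θ ^ α * θ ^ (-α)) * (1 / 2 * ((l:ℝ) - 1 / 2)⁻¹) := by
                  rw [hθθ, one_mul]
              _ = _ := by ring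
        _ ≤ u ^ α * v ^ (-α) := mul_le_mul e1 e2 (by positivity) (by positivity)
    have hker : 1 / 2 * ((l:ℝ) ^ 2)⁻¹ * θ⁻¹ ≤ u ^ α * v ^ (-α) / (u + v) := by
      rw [le_div_iff₀ (by linarith)]
      refine le_trans ?_ hnum
      have a0 : (0:ℝ) < (l:ℝ) ^ 2 := by positivity
      calc 1 / 2 * ((l:ℝ) ^ 2)⁻¹ * θ⁻¹ * (u + v)
          ≤ 1 / 2 * ((l:ℝ) ^ 2)⁻¹ * θ⁻¹ * (θ * ((l:ℝ) + 1 / 2)) :=
            mul_le_mul_of_nonneg_left e3 (by positivity)
        _ = 1 / 2 * (((l:ℝ) + 1 / 2) / (l:ℝ) ^ 2) := by field_simp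
        _ ≤ 1 / 2 * ((l:ℝ) - 1 / 2)⁻¹ := by
            refine mul_le_mul_of_nonneg_left ?_ (by norm_num)
            rw [inv_eq_one_div, div_le_div_iff₀ a0 hL]
            nlinarith
    have hb := beta_const_ge h0 h1
    have hb2 : (1 - α) / 2 ≤ 1 / beta α (1 - α) := by
      refine le_trans ?_ hb
      have : (1:ℝ) / 2 ≤ 2 / Real.pi := by
        rw [div_le_div_iff₀ (by norm_num) hpi]
        linarith
      nlinarith
    unfold rho
    calc (1 - α) / 4 * (((l : ℝ) ^ 2)⁻¹ * θ⁻¹)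
        = (1 - α) / 2 * (1 / 2 * ((l:ℝ) ^ 2)⁻¹ * θ⁻¹) := by ring
      _ ≤ 1 / beta α (1 - α) * (u ^ α * v ^ (-α) / (u + v)) :=
          mul_le_mul hb2 hker (by positivity) (va3_beta_pos hα h1).le
  calc ENNReal.ofReal ((1 - α) / 8 * ((l : ℝ) ^ 2)⁻¹)
      = ENNReal.ofReal ((1 - α) / 4 * (((l : ℝ) ^ 2)⁻¹ * θ⁻¹)) * ENNReal.ofReal (θ / 2) := by
        rw [← ENNReal.ofReal_mul (by positivity)]
        congr 1
        field_simp
        ring
    _ = ∫⁻ _v in Set.Ioc (θ * (l - 1)) (θ * ((l:ℝ) - 1 / 2)),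
          ENNReal.ofReal ((1 - α) / 4 * (((l : ℝ) ^ 2)⁻¹ * θ⁻¹)) := by
        rw [setLIntegral_const, Real.volume_Ioc]
        congr 2
        ring
    _ ≤ _ := setLIntegral_mono' measurableSet_Ioc hbd

theorem rho_ratio {α θ u u' v : ℝ} (h0 : 0 < α) (h1 : α < 1) (hθ : 0 < θ) (hu : θ / 2 ≤ u)
    (huθ : u ≤ θ) (hu' : θ / 2 ≤ u') (huθ' : u' ≤ θ) (hv : 0 < v) :
    rho α u v ≤ 4 * rho α u' v := by
  have hu0 : 0 < u := by linarith
  have hu0' : 0 < u' := by linarith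
  have e1 : u ^ α ≤ 2 * u' ^ α := by
    have a1 : u ^ α ≤ (2 * u') ^ α := Real.rpow_le_rpow hu0.le (by linarith) h0.le
    have a2 : (2 * u') ^ α = 2 ^ α * u' ^ α := Real.mul_rpow (by norm_num) hu0'.le
    have a3 : (2:ℝ) ^ α ≤ 2 := by
      have := Real.rpow_le_rpow_of_exponent_le (x := (2 : ℝ)) (by norm_num) h1.le
      rwa [Real.rpow_one] at this
    have a4 : 0 < u' ^ α := by positivity
    nlinarith
  have key : u ^ α * v ^ (-α) / (u + v) ≤ 4 * (u' ^ α * v ^ (-α) / (u' + v)) := by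
    rw [mul_div_assoc', div_le_div_iff₀ (by linarith) (by linarith)]
    have hv' : 0 < v ^ (-α) := by positivity
    have hw : 0 < u' ^ α := by positivity
    calc u ^ α * v ^ (-α) * (u' + v) ≤ 2 * u' ^ α * v ^ (-α) * (2 * (u + v)) := by
          refine mul_le_mul (mul_le_mul_of_nonneg_right e1 hv'.le) (by linarith) (by linarith)
            (by positivity)
      _ = 4 * (u' ^ α * v ^ (-α)) * (u + v) := by ring
  unfold rho
  calc 1 / beta α (1 - α) * (u ^ α * v ^ (-α) / (u + v))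
      ≤ 1 / beta α (1 - α) * (4 * (u' ^ α * v ^ (-α) / (u' + v))) :=
        mul_le_mul_of_nonneg_left key (va3_beta_pos h0 h1).le
    _ = 4 * (1 / beta α (1 - α) * (u' ^ α * v ^ (-α) / (u' + v))) := by ring

end Pool.Agent.Lib.MP_3d9a2b_pr
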