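import Pool.Agent.Lib.MP_3d9a2b_pr.V.Markov
import Pool.Agent.Lib.MP_3d9a2b_pr.V.Rho

set_option autoImplicit false

/-! Task VA4: the functional `vV`. -/

namespace Pool.Agent.Lib.MP_3d9a2b_pr

open MeasureTheory ProbabilityTheory Filter Topology
open scoped NNReal ENNReal

section
variable {α : ℝ} {Ω' : Type} [MeasurableSpace Ω'] {P' : Measure Ω'} [IsProbabilityMeasure P']
  {R : Ω' → Set ℝ}

omit [IsProbabilityMeasure P'] in
private theorem va4_le (hR : IsStableRegenerative α R P') (ω : Ω') (s : ℝ) :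
    s ≤ nextPt (R ω) s := by
  unfold nextPt
  obtain ⟨r, hr, hsr⟩ := hR.unbounded ω s
  exact le_csInf ⟨r, hr, hsr⟩ fun x hx => hx.2.le

omit [IsProbabilityMeasure P'] in
private theorem va4_mono (hR : IsStableRegenerative α R P') (ω : Ω') :
    Monotone (fun s => nextPt (R ω) s) := by
  intro s s' h
  obtain ⟨r, hr, hsr⟩ := hR.unbounded ω s'
  exact csInf_le_csInf ⟨s, fun x hx => hx.2.le⟩ ⟨r, hr, hsr⟩ fun x hx => ⟨hx.1, h.trans_lt hx.2⟩

private theorem va4_int (hR : IsStableRegenerative α R P') (ω : Ω') (w a b : ℝ) :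
    IntervalIntegrable (fun t => min (nextPt (R ω) t) w - t) volume a b := by
  have h1 : Monotone (fun t => min (nextPt (R ω) t) w) :=
    fun s s' h => min_le_min_right _ (va4_mono hR ω h)
  exact (h1.intervalIntegrable).sub (continuous_id.intervalIntegrable _ _)

private theorem va4_nn (hR : IsStableRegenerative α R P') (ω : Ω') {w t : ℝ} (h : t ≤ w) :
    0 ≤ min (nextPt (R ω) t) w - t :=
  sub_nonneg.2 (le_min (va4_le hR ω t) h)

theorem vV_nonneg (hR : IsStableRegenerative α R P') {θ z w : ℝ} (hzw : z ≤ w)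
    (ω : Ω') : 0 ≤ vV (R ω) θ z w := by
  unfold vV
  refine mul_nonneg (by positivity) (intervalIntegral.integral_nonneg hzw fun t ht => ?_)
  exact va4_nn hR ω ht.2

theorem vV_le_one (hR : IsStableRegenerative α R P') {θ z w : ℝ} (hθ : 0 < θ) (hzw : z ≤ w)
    (hθw : w - θ ≤ z) (ω : Ω') : vV (R ω) θ z w ≤ 1 := by
  unfold vV
  have h1 : ∫ t in z..w, (min (nextPt (R ω) t) w - t) ≤ ∫ t in z..w, (w - t) := by
    apply intervalIntegral.integral_mono_on hzw (va4_int hR ω w z w)
    · exact (continuous_const.sub continuous_id).intervalIntegrable _ _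
    · intro t _
      exact sub_le_sub_right (min_le_right _ _) _
  have h2 : ∫ t in z..w, (w - t) = (w - z) ^ 2 / 2 := by
    rw [intervalIntegral.integral_comp_sub_left (fun x => x) w, integral_id]
    ring
  have h3 : (w - z) ^ 2 ≤ θ ^ 2 := pow_le_pow_left₀ (by linarith) (by linarith) 2
  rw [h2] at h1
  have h4 : 2 / θ ^ 2 * (∫ t in z..w, (min (nextPt (R ω) t) w - t)) ≤ 2 / θ ^ 2 * (θ ^ 2 / 2) :=
    mul_le_mul_of_nonneg_left (by linarith) (by positivity)
  refine h4.trans (le_of_eq ?_)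
  field_simp

private theorem va4_meas {X : Type} [MeasurableSpace X] (E : ℝ × X → ℝ) (hE : Measurable E)
    (z : X → ℝ) (hz : Measurable z) (w : ℝ) :
    Measurable (fun ω => ∫ t, if z ω < t ∧ t < w then min (E (t, ω)) w - t else 0) := by
  have h1 : Measurable (Function.uncurry (fun (t : ℝ) (ω : X) =>
      if z ω < t ∧ t < w then min (E (t, ω)) w - t else 0)) := by
    apply Measurable.ite
    · exact (measurableSet_lt (hz.comp measurable_snd) measurable_fst).inter
        (measurableSet_lt measurable_fst measurable_const)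
    · exact (hE.min measurable_const).sub measurable_fst
    · exact measurable_const
  exact h1.stronglyMeasurable.integral_prod_left.measurable

/-- the process `D` cut to `[0, w)` -/
private noncomputable def va4E (R : Ω' → Set ℝ) (w : ℝ) (q : ℝ × Ω') : ℝ :=
  if 0 ≤ q.1 ∧ q.1 < w then nextPt (R q.2) q.1 else 0

theorem measurable_vV (hR : IsStableRegenerative α R P') {θ w : ℝ} (hw : 0 < w) {z : Ω' → ℝ}
    (hz : Measurable[past R w] z) (hz0 : ∀ ω, 0 ≤ z ω) (hzw : ∀ ω, z ω ≤ w) :
    Measurable[past R w] (fun ω => vV (R ω) θ (z ω) w) := by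
  have h1 := @va4_meas Ω' (past R w) (va4E R w) (measurable_nextPt_prod hR hw) z hz w
  have h2 : (fun ω => vV (R ω) θ (z ω) w) = fun ω => 2 / θ ^ 2 *
      ∫ t, if z ω < t ∧ t < w then min (va4E R w (t, ω)) w - t else 0 := by
    funext ω
    unfold vV
    congr 1
    rw [intervalIntegral.integral_of_le (hzw ω), integral_Ioc_eq_integral_Ioo,
      ← integral_indicator measurableSet_Ioo]
    congr 1
    funext t
    rw [Set.indicator_apply]
    by_cases ht : z ω < t ∧ t < w
    · rw [if_pos ht, if_pos (show t ∈ Set.Ioo (z ω) w from ht)]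
      unfold va4E
      rw [if_pos ⟨(hz0 ω).trans ht.1.le, ht.2⟩]
    · rw [if_neg ht, if_neg (show ¬ t ∈ Set.Ioo (z ω) w from ht)]
  rw [h2]
  exact h1.const_mul _

/-- `vV` as a lower integral -/
private theorem va4_lint (hR : IsStableRegenerative α R P') {θ z w : ℝ} (hzw : z ≤ w) (ω : Ω') :
    ENNReal.ofReal (vV (R ω) θ z w) = ENNReal.ofReal (2 / θ ^ 2) *
      ∫⁻ s in Set.Ioo z w, ENNReal.ofReal (min (nextPt (R ω) s) w - s) := by
  unfold vV
  rw [ENNReal.ofReal_mul (by positivity), intervalIntegral.integral_of_le hzw,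
    integral_Ioc_eq_integral_Ioo]
  congr 1
  have h1 : IntegrableOn (fun t => min (nextPt (R ω) t) w - t) (Set.Ioo z w) volume :=
    ((intervalIntegrable_iff_integrableOn_Ioo_of_le hzw).1 (va4_int hR ω w z w))
  rw [ofReal_integral_eq_lintegral_ofReal h1]
  exact (ae_restrict_mem measurableSet_Ioo).mono fun t ht => va4_nn hR ω ht.2.le

private theorem va4_rpow {α θ c : ℝ} (h1 : α < 1) (hθ : 0 < θ) (hc : 0 ≤ c) (hcθ : c ≤ θ) :
    ∫⁻ r in Set.Ioo (0 : ℝ) c, ENNReal.ofReal (3 * (1 - α) * (r / θ) ^ (-(1 / 2 : ℝ))) ≤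
      ENNReal.ofReal (6 * (1 - α) * θ) := by
  have hI : IntervalIntegrable (fun r : ℝ => r ^ (-(1 / 2 : ℝ))) volume 0 c :=
    intervalIntegral.intervalIntegrable_rpow' (by norm_num)
  have hIoo : IntegrableOn (fun r : ℝ => r ^ (-(1 / 2 : ℝ))) (Set.Ioo 0 c) volume :=
    (intervalIntegrable_iff_integrableOn_Ioo_of_le hc).1 hI
  have hval : ∫ r in Set.Ioo 0 c, r ^ (-(1 / 2 : ℝ)) = 2 * c ^ (1 / 2 : ℝ) := by
    rw [← integral_Ioc_eq_integral_Ioo, ← intervalIntegral.integral_of_le hc,
      integral_rpow (Or.inl (by norm_num))]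
    have e : (-(1 / 2 : ℝ)) + 1 = 1 / 2 := by norm_num
    rw [e, Real.zero_rpow (by norm_num)]
    ring
  have h2 : ∀ r ∈ Set.Ioo (0 : ℝ) c, ENNReal.ofReal (3 * (1 - α) * (r / θ) ^ (-(1 / 2 : ℝ))) =
      ENNReal.ofReal (3 * (1 - α) * θ ^ (1 / 2 : ℝ)) * ENNReal.ofReal (r ^ (-(1 / 2 : ℝ))) := by
    intro r hr
    have hθ' : 0 ≤ 3 * (1 - α) * θ ^ (1 / 2 : ℝ) :=
      mul_nonneg (by linarith) (Real.rpow_nonneg hθ.le _)
    rw [← ENNReal.ofReal_mul hθ']
    congr 1
    rw [Real.div_rpow hr.1.le hθ.le, Real.rpow_neg hθ.le]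
    have := Real.rpow_pos_of_pos hθ (1 / 2 : ℝ)
    field_simp
  rw [setLIntegral_congr_fun measurableSet_Ioo h2, lintegral_const_mul' _ _ ENNReal.ofReal_ne_top,
    ← ofReal_integral_eq_lintegral_ofReal hIoo, hval, ← ENNReal.ofReal_mul]
  · apply ENNReal.ofReal_le_ofReal
    have h3 : c ^ (1 / 2 : ℝ) ≤ θ ^ (1 / 2 : ℝ) := Real.rpow_le_rpow hc hcθ (by norm_num)
    have h4 : θ ^ (1 / 2 : ℝ) * θ ^ (1 / 2 : ℝ) = θ := by
      rw [← Real.rpow_add hθ]
      norm_num
    have h5 : 3 * (1 - α) * θ ^ (1 / 2 : ℝ) * (2 * c ^ (1 / 2 : ℝ)) ≤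
        3 * (1 - α) * θ ^ (1 / 2 : ℝ) * (2 * θ ^ (1 / 2 : ℝ)) := by
      apply mul_le_mul_of_nonneg_left
      · linarith
      · exact mul_nonneg (by linarith) (Real.rpow_nonneg hθ.le _)
    refine h5.trans (le_of_eq ?_)
    calc 3 * (1 - α) * θ ^ (1 / 2 : ℝ) * (2 * θ ^ (1 / 2 : ℝ))
        = 6 * (1 - α) * (θ ^ (1 / 2 : ℝ) * θ ^ (1 / 2 : ℝ)) := by ring
      _ = 6 * (1 - α) * θ := by rw [h4]
  · exact mul_nonneg (by linarith) (Real.rpow_nonneg hθ.le _)
  · exact (ae_restrict_mem measurableSet_Ioo).mono fun r hr => Real.rpow_nonneg hr.1.le _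

/-- the inner bound: `∫ min v c rho(u, v) dv ≤ 6 (1 - α) θ` -/
private theorem va4_inner {α θ u c : ℝ} (h0 : 1 / 2 ≤ α) (h1 : α < 1) (hu : 0 < u) (huθ : u ≤ θ)
    (hc : 0 ≤ c) (hcθ : c ≤ θ) :
    ∫⁻ v in Set.Ioi (0 : ℝ), ENNReal.ofReal (min v c) * ENNReal.ofReal (rho α u v) ≤
      ENNReal.ofReal (6 * (1 - α) * θ) := by
  have hθ : 0 < θ := hu.trans_le huθ
  have hm : Measurable (fun v : ℝ => ENNReal.ofReal (rho α u v)) :=
    ENNReal.measurable_ofReal.comp ((measurable_rho α).comp (measurable_const.prodMk measurable_id))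
  -- layer cake
  have e1 : ∀ v ∈ Set.Ioi (0 : ℝ), ENNReal.ofReal (min v c) * ENNReal.ofReal (rho α u v) =
      ∫⁻ r in Set.Ioo (0 : ℝ) c, (Set.Ioi r).indicator (fun v => ENNReal.ofReal (rho α u v)) v := by
    intro v hv
    have hv' : (0 : ℝ) < v := hv
    have e2 : ∀ r, (Set.Ioi r).indicator (fun v => ENNReal.ofReal (rho α u v)) v =
        (Set.Iio v).indicator (fun _ => ENNReal.ofReal (rho α u v)) r := by
      intro r
      rw [Set.indicator_apply, Set.indicator_apply]
      rfl
    simp only [e2]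
    rw [lintegral_indicator measurableSet_Iio, setLIntegral_const,
      Measure.restrict_apply measurableSet_Iio]
    have e3 : Set.Iio v ∩ Set.Ioo 0 c = Set.Ioo 0 (min v c) := by
      ext r
      simp only [Set.mem_inter_iff, Set.mem_Iio, Set.mem_Ioo, lt_min_iff]
      tauto
    rw [e3, Real.volume_Ioo, sub_zero, mul_comm]
  rw [setLIntegral_congr_fun measurableSet_Ioi e1]
  rw [lintegral_lintegral_swap]
  · refine le_trans (setLIntegral_mono' measurableSet_Ioo fun r hr => ?_)
      (va4_rpow h1 hθ hc hcθ)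
    have e4 : ∫⁻ v in Set.Ioi (0 : ℝ), (Set.Ioi r).indicator
        (fun v => ENNReal.ofReal (rho α u v)) v = ∫⁻ v in Set.Ioi r, ENNReal.ofReal (rho α u v) := by
      rw [lintegral_indicator measurableSet_Ioi, Measure.restrict_restrict measurableSet_Ioi,
        Set.Ioi_inter_Ioi, sup_eq_left.2 hr.1.le]
    rw [e4]
    exact rho_tail h0 h1 hu huθ hr.1 (hr.2.le.trans hcθ)
  · apply Measurable.aemeasurable
    have e5 : (Function.uncurry fun (v r : ℝ) =>
        (Set.Ioi r).indicator (fun v => ENNReal.ofReal (rho α u v)) v) =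
        fun q : ℝ × ℝ => if q.2 < q.1 then ENNReal.ofReal (rho α u q.1) else 0 := by
      funext q
      obtain ⟨v, r⟩ := q
      simp only [Function.uncurry_apply_pair, Set.indicator_apply, Set.mem_Ioi]
    rw [e5]
    exact Measurable.ite (measurableSet_lt measurable_snd measurable_fst) (hm.comp measurable_fst)
      measurable_const

private theorem va4_min (s v w : ℝ) : min (s + v) w - s = min v (w - s) := by
  rcases le_total (s + v) w with h | h
  · rw [min_eq_left h, min_eq_left (by linarith)]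
    ring
  · rw [min_eq_right h, min_eq_right (by linarith)]

private theorem va4_prod (hR : IsStableRegenerative α R P') {w : ℝ} (hw : 0 < w) :
    Measurable (va4E R w) := by
  have h1 := measurable_nextPt_prod hR hw
  refine h1.mono ?_ le_rfl
  exact sup_le_sup le_rfl (MeasurableSpace.comap_mono (past_le hR w))

/-- the conditional expectation of `vV` given the past is at most `12 (1 - α)` -/
theorem vV_cond (h0 : 1 / 2 ≤ α) (h1 : α < 1) (hR : IsStableRegenerative α R P') {θ t w : ℝ}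
    (hθ : 0 < θ) (ht : 0 ≤ t) (htw : t < w) (Ψ : Ω' → ℝ≥0∞) (hΨ : Measurable[past R t] Ψ)
    (hΨ0 : ∀ ω, ¬ (w - θ ≤ nextPt (R ω) t ∧ nextPt (R ω) t < w) → Ψ ω = 0) :
    ∫⁻ ω, Ψ ω * ENNReal.ofReal (vV (R ω) θ (nextPt (R ω) t) w) ∂P' ≤
      ENNReal.ofReal (12 * (1 - α)) * ∫⁻ ω, Ψ ω ∂P' := by
  have hα : 0 < α := by linarith
  have hw : 0 < w := ht.trans_lt htw
  have hΨm : Measurable Ψ := hΨ.mono (past_le hR t) le_rfl
  have hDm : Measurable (fun ω => nextPt (R ω) t) := hR.measurable_nextPt t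
  set C : ℝ≥0∞ := ENNReal.ofReal (6 * (1 - α) * θ)
  -- pointwise identity
  have e1 : ∀ ω, Ψ ω * ENNReal.ofReal (vV (R ω) θ (nextPt (R ω) t) w) =
      ENNReal.ofReal (2 / θ ^ 2) * ∫⁻ s in Set.Ioo t w,
        (if nextPt (R ω) t < s then Ψ ω * ENNReal.ofReal (min (va4E R w (s, ω)) w - s) else 0) := by
    intro ω
    by_cases hω : w - θ ≤ nextPt (R ω) t ∧ nextPt (R ω) t < w
    · rw [va4_lint hR hω.2.le, ← mul_assoc, mul_comm (Ψ ω), mul_assoc]
      congr 1
      have e2 : ∀ s ∈ Set.Ioo t w, (if nextPt (R ω) t < s then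
          Ψ ω * ENNReal.ofReal (min (va4E R w (s, ω)) w - s) else 0) =
          (Set.Ioi (nextPt (R ω) t)).indicator
            (fun s => Ψ ω * ENNReal.ofReal (min (nextPt (R ω) s) w - s)) s := by
        intro s hs
        rw [Set.indicator_apply]
        unfold va4E
        rw [if_pos (show 0 ≤ (s, ω).1 ∧ (s, ω).1 < w from ⟨ht.trans hs.1.le, hs.2⟩)]
        rfl
      rw [setLIntegral_congr_fun measurableSet_Ioo e2, lintegral_indicator measurableSet_Ioi,
        Measure.restrict_restrict measurableSet_Ioi]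
      have e3 : Set.Ioi (nextPt (R ω) t) ∩ Set.Ioo t w = Set.Ioo (nextPt (R ω) t) w := by
        ext s
        simp only [Set.mem_inter_iff, Set.mem_Ioi, Set.mem_Ioo]
        constructor
        · rintro ⟨a, -, b⟩
          exact ⟨a, b⟩
        · rintro ⟨a, b⟩
          exact ⟨a, (va4_le hR ω t).trans_lt a, b⟩
      rw [e3, lintegral_const_mul'']
      apply AEMeasurable.ennreal_ofReal
      apply Measurable.aemeasurable
      exact ((va4_mono hR ω).measurable.min measurable_const).sub measurable_id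
    · rw [hΨ0 ω hω]
      simp
  have hG : Measurable (Function.uncurry fun (ω : Ω') (s : ℝ) =>
      (if nextPt (R ω) t < s then Ψ ω * ENNReal.ofReal (min (va4E R w (s, ω)) w - s) else 0)) := by
    apply Measurable.ite
    · exact measurableSet_lt (hDm.comp measurable_fst) measurable_snd
    · apply (hΨm.comp measurable_fst).mul
      apply ENNReal.measurable_ofReal.comp
      exact ((((va4_prod hR hw).comp measurable_swap)).min measurable_const).sub measurable_snd
    · exact measurable_const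
  have hH : Measurable (Function.uncurry fun (ω : Ω') (s : ℝ) =>
      (if nextPt (R ω) t < s then Ψ ω * C else 0)) := by
    apply Measurable.ite
    · exact measurableSet_lt (hDm.comp measurable_fst) measurable_snd
    · exact (hΨm.comp measurable_fst).mul measurable_const
    · exact measurable_const
  simp only [e1]
  rw [lintegral_const_mul' _ _ ENNReal.ofReal_ne_top,
    lintegral_lintegral_swap hG.aemeasurable]
  -- the inner integral for fixed `s`
  have e4 : ∀ s ∈ Set.Ioo t w, ∫⁻ ω, (if nextPt (R ω) t < s then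
      Ψ ω * ENNReal.ofReal (min (va4E R w (s, ω)) w - s) else 0) ∂P' ≤
      ∫⁻ ω, (if nextPt (R ω) t < s then Ψ ω * C else 0) ∂P' := by
    intro s hs
    have e5 : ∀ ω, va4E R w (s, ω) = nextPt (R ω) s := by
      intro ω
      unfold va4E
      rw [if_pos (show 0 ≤ (s, ω).1 ∧ (s, ω).1 < w from ⟨ht.trans hs.1.le, hs.2⟩)]
    simp only [e5]
    have hF : Measurable (fun y : ℝ => ENNReal.ofReal (min y w - s)) :=
      ENNReal.measurable_ofReal.comp ((measurable_id.min measurable_const).sub measurable_const)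
    rw [markov hα h1 hR ht hs.1 Ψ hΨ (fun y => ENNReal.ofReal (min y w - s)) hF]
    apply lintegral_mono
    intro ω
    show (if nextPt (R ω) t < s then _ else _) ≤ (if nextPt (R ω) t < s then _ else _)
    by_cases hts : nextPt (R ω) t < s
    · rw [if_pos hts, if_pos hts]
      by_cases hω : w - θ ≤ nextPt (R ω) t ∧ nextPt (R ω) t < w
      · gcongr
        have h2 := va4_inner (θ := θ) (u := s - nextPt (R ω) t) (c := w - s) h0 h1
          (by linarith) (by linarith [hs.2, hω.1]) (by linarith [hs.2]) (by linarith [hω.1])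
        refine le_trans (le_of_eq ?_) h2
        apply lintegral_congr
        intro v
        rw [va4_min]
      · rw [hΨ0 ω hω]
        simp
    · rw [if_neg hts, if_neg hts]
  refine le_trans (mul_le_mul_right (setLIntegral_mono' measurableSet_Ioo e4) _) ?_
  rw [← lintegral_lintegral_swap hH.aemeasurable]
  have e7 : ∀ ω, ∫⁻ s in Set.Ioo t w, (if nextPt (R ω) t < s then Ψ ω * C else 0) ≤
      C * ENNReal.ofReal θ * Ψ ω := by
    intro ω
    by_cases hω : w - θ ≤ nextPt (R ω) t ∧ nextPt (R ω) t < w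
    · have e8 : ∀ s, (if nextPt (R ω) t < s then Ψ ω * C else 0) =
          (Set.Ioi (nextPt (R ω) t)).indicator (fun _ => Ψ ω * C) s := by
        intro s
        rw [Set.indicator_apply]
        rfl
      simp only [e8]
      rw [lintegral_indicator measurableSet_Ioi, setLIntegral_const,
        Measure.restrict_apply measurableSet_Ioi]
      have h3 : volume (Set.Ioi (nextPt (R ω) t) ∩ Set.Ioo t w) ≤ ENNReal.ofReal θ := by
        have h4 : Set.Ioi (nextPt (R ω) t) ∩ Set.Ioo t w ⊆ Set.Ioo (nextPt (R ω) t) w :=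
          fun s hs => ⟨hs.1, hs.2.2⟩
        refine (measure_mono h4).trans ?_
        rw [Real.volume_Ioo]
        exact ENNReal.ofReal_le_ofReal (by linarith [hω.1])
      calc Ψ ω * C * volume (Set.Ioi (nextPt (R ω) t) ∩ Set.Ioo t w)
          ≤ Ψ ω * C * ENNReal.ofReal θ := by gcongr
        _ = C * ENNReal.ofReal θ * Ψ ω := by ring
    · rw [hΨ0 ω hω]
      simp
  refine le_trans (mul_le_mul_right (lintegral_mono e7) _) ?_
  rw [lintegral_const_mul' _ _ (ENNReal.mul_ne_top ENNReal.ofReal_ne_top ENNReal.ofReal_ne_top),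
    ← mul_assoc, ← mul_assoc]
  refine mul_le_mul_left ?_ _
  rw [← ENNReal.ofReal_mul (by positivity), ← ENNReal.ofReal_mul]
  · apply ENNReal.ofReal_le_ofReal
    apply le_of_eq
    field_simp
    ring
  · apply mul_nonneg (by positivity)
    apply mul_nonneg (by linarith) hθ.le

/-- the same for the first cell -/
theorem vV_first (h0 : 1 / 2 ≤ α) (h1 : α < 1) (hR : IsStableRegenerative α R P') {θ : ℝ}
    (hθ : 0 < θ) :
    ∫⁻ ω, ENNReal.ofReal (vV (R ω) θ 0 θ) ∂P' ≤ ENNReal.ofReal (12 * (1 - α)) := by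
  have hα : 0 < α := by linarith
  set C : ℝ≥0∞ := ENNReal.ofReal (6 * (1 - α) * θ) with hC
  have e1 : ∀ ω, ENNReal.ofReal (vV (R ω) θ 0 θ) = ENNReal.ofReal (2 / θ ^ 2) *
      ∫⁻ s in Set.Ioo 0 θ, ENNReal.ofReal (min (va4E R θ (s, ω)) θ - s) := by
    intro ω
    rw [va4_lint hR hθ.le]
    congr 1
    apply setLIntegral_congr_fun measurableSet_Ioo
    intro s hs
    simp only
    unfold va4E
    rw [if_pos (show 0 ≤ (s, ω).1 ∧ (s, ω).1 < θ from ⟨hs.1.le, hs.2⟩)]
  have hG : Measurable (Function.uncurry fun (ω : Ω') (s : ℝ) =>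
      ENNReal.ofReal (min (va4E R θ (s, ω)) θ - s)) := by
    apply ENNReal.measurable_ofReal.comp
    exact ((((va4_prod hR hθ).comp measurable_swap)).min measurable_const).sub measurable_snd
  simp only [e1]
  rw [lintegral_const_mul' _ _ ENNReal.ofReal_ne_top,
    lintegral_lintegral_swap hG.aemeasurable]
  have e4 : ∀ s ∈ Set.Ioo 0 θ, ∫⁻ ω, ENNReal.ofReal (min (va4E R θ (s, ω)) θ - s) ∂P' ≤ C := by
    intro s hs
    have e5 : ∀ ω, va4E R θ (s, ω) = nextPt (R ω) s := by
      intro ω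
      unfold va4E
      rw [if_pos (show 0 ≤ (s, ω).1 ∧ (s, ω).1 < θ from ⟨hs.1.le, hs.2⟩)]
    simp only [e5]
    have hF : Measurable (fun y : ℝ => ENNReal.ofReal (min y θ - s)) :=
      ENNReal.measurable_ofReal.comp ((measurable_id.min measurable_const).sub measurable_const)
    rw [law_D hα h1 hR hs.1 (fun y => ENNReal.ofReal (min y θ - s)) hF]
    have h2 := va4_inner (θ := θ) (u := s) (c := θ - s) h0 h1
      hs.1 hs.2.le (by linarith [hs.2]) (by linarith [hs.1])
    refine le_trans (le_of_eq ?_) h2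
    apply lintegral_congr
    intro v
    rw [va4_min]
  refine le_trans (mul_le_mul_right (setLIntegral_mono' measurableSet_Ioo e4) _) ?_
  rw [setLIntegral_const, Real.volume_Ioo, sub_zero, hC, ← mul_assoc,
    ← ENNReal.ofReal_mul (by positivity), ← ENNReal.ofReal_mul]
  · apply ENNReal.ofReal_le_ofReal
    apply le_of_eq
    field_simp
    ring
  · apply mul_nonneg (by positivity)
    apply mul_nonneg (by linarith) hθ.le

end

end Pool.Agent.Lib.MP_3d9a2b_pr
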