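import Pool.Agent.Lib.MP_3d9a2b_pr.V.BitsBlock
import Pool.Agent.Lib.MP_3d9a2b_pr.V.CellI
import Pool.Agent.Lib.MP_3d9a2b_pr.V.VV
import Pool.Agent.Lib.MP_3d9a2b_pr.Limit

set_option autoImplicit false

/-! Task VB3: average over the signs (given `R`) of the weight of a complete scenario. -/

namespace Pool.Agent.Lib.MP_3d9a2b_pr

open MeasureTheory ProbabilityTheory Filter Topology
open scoped NNReal ENNReal

set_option linter.unusedSectionVars false

/-- the square of the sum of centred bits with the weights `c`, as a lower limit -/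
@[irreducible] noncomputable def vb3_sq (c : ℕ → ℝ) (u : ℕ → Bool) : ℝ≥0∞ :=
  liminf (fun N : ℕ => ENNReal.ofReal ((∑ n ∈ Finset.range N,
    ((if u n then (1 : ℝ) else 0) - 1 / 2) * c n) ^ 2)) atTop

theorem vb3_measurable_sq : Measurable (fun q : (ℕ → ℝ) × (ℕ → Bool) => vb3_sq q.1 q.2) := by
  unfold vb3_sq
  refine Measurable.liminf fun N => ?_
  refine ENNReal.measurable_ofReal.comp (Measurable.pow_const ?_ 2)
  apply Finset.measurable_sum
  intro n _
  refine Measurable.mul (Measurable.sub ?_ measurable_const)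
    ((measurable_pi_apply n).comp measurable_fst)
  exact (measurable_of_countable (fun b : Bool => if b then (1 : ℝ) else 0)).comp
    ((measurable_pi_apply n).comp measurable_snd)

theorem vb3_abs_bit (b : Bool) : |(if b then (1 : ℝ) else 0) - 1 / 2| ≤ 1 / 2 := by
  cases b
  · norm_num
  · norm_num

theorem vb3_summable {c : ℕ → ℝ} (hc : Summable c) (hc0 : ∀ n, 0 ≤ c n) (u : ℕ → Bool) :
    Summable (fun n => ((if u n then (1 : ℝ) else 0) - 1 / 2) * c n) := by
  refine Summable.of_norm_bounded hc fun n => ?_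
  rw [Real.norm_eq_abs, abs_mul, abs_of_nonneg (hc0 n)]
  have := mul_le_mul_of_nonneg_right (vb3_abs_bit (u n)) (hc0 n)
  linarith [hc0 n]

theorem vb3_sq_eq {c : ℕ → ℝ} (hc : Summable c) (hc0 : ∀ n, 0 ≤ c n) (u : ℕ → Bool) :
    vb3_sq c u = ENNReal.ofReal ((∑' n, ((if u n then (1 : ℝ) else 0) - 1 / 2) * c n) ^ 2) := by
  have h1 := (vb3_summable hc hc0 u).hasSum.tendsto_sum_nat
  have h2 := (ENNReal.continuous_ofReal.tendsto _).comp (h1.pow 2)
  unfold vb3_sq
  exact h2.liminf_eq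

theorem vb3_sq_congr {c : ℕ → ℝ} {u v : ℕ → Bool} (h : ∀ n, c n ≠ 0 → u n = v n) :
    vb3_sq c u = vb3_sq c v := by
  unfold vb3_sq
  have : ∀ N : ℕ, ∑ n ∈ Finset.range N, ((if u n then (1 : ℝ) else 0) - 1 / 2) * c n =
      ∑ n ∈ Finset.range N, ((if v n then (1 : ℝ) else 0) - 1 / 2) * c n := by
    intro N
    refine Finset.sum_congr rfl fun n _ => ?_
    by_cases hn : c n = 0
    · rw [hn, mul_zero, mul_zero]
    · rw [h n hn]
  simp_rw [this]

/-- weight of the cells strictly between `c` and `d`, covered by one excursion -/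
noncomputable def vb3_g (x : ℕ → ℝ) (c d : ℕ) (b : Bool) : ℝ :=
  if b then Real.exp (-2 * ∑ j ∈ Finset.Ico (c + 1) d, x j) else 1

theorem vb3_g_nonneg (x : ℕ → ℝ) (c d : ℕ) (b : Bool) : 0 ≤ vb3_g x c d b := by
  unfold vb3_g
  split_ifs
  · exact (Real.exp_pos _).le
  · exact zero_le_one

theorem vb3_g_trivial (x : ℕ → ℝ) {c d : ℕ} (h : d ≤ c + 1) (b : Bool) : vb3_g x c d b = 1 := by
  unfold vb3_g
  rw [Finset.Ico_eq_empty (by omega)]
  simp

theorem vb3_g_mean (x : ℕ → ℝ) {c d : ℕ} (h : c < d) :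
    (vb3_g x c d true + vb3_g x c d false) / 2 = vE (d - c) (shx c x) := by
  unfold vb3_g vE shx
  have : ∑ j ∈ Finset.Ico 1 (d - c), x (j + c) = ∑ j ∈ Finset.Ico (c + 1) d, x j := by
    rw [Finset.sum_Ico_add' (fun j => x j) 1 (d - c) c]
    congr 1
    ext j
    simp only [Finset.mem_Ico]
    omega
  rw [this]
  simp only [if_true, Bool.false_eq_true, if_false]
  ring

/-- the weight of the `i`-th block of cells -/
noncomputable def vb3_H (a κ : ℝ) (x : ℕ → ℝ) (q : ℕ → ℕ) (J : ℕ → Bool) (i : ℕ)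
    (c : ℕ → ℕ → ℝ) (ν : ℕ → ℕ) (u : ℕ → Bool) : ℝ≥0∞ :=
  if J i then ENNReal.ofReal (vKA a κ (x (q i))) +
    ENNReal.ofReal (4 * vKB a κ (x (q i))) * vb3_sq (c i) u
  else ENNReal.ofReal (NN a (x (q i)) * vb3_g x (q i) (q (i + 1)) (u (ν i)))

theorem vb3_measurable_H (a κ : ℝ) (x : ℕ → ℝ) (q : ℕ → ℕ) (J : ℕ → Bool) (i : ℕ) :
    Measurable (fun r : ((ℕ → ℕ → ℝ) × (ℕ → ℕ)) × (ℕ → Bool) =>
      vb3_H a κ x q J i r.1.1 r.1.2 r.2) := by
  unfold vb3_H
  by_cases hJ : J i = true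
  · simp only [hJ, if_true]
    have h0 : Measurable (fun r : ((ℕ → ℕ → ℝ) × (ℕ → ℕ)) × (ℕ → Bool) => (r.1.1 i, r.2)) :=
      ((measurable_pi_apply i).comp (measurable_fst.comp measurable_fst)).prodMk measurable_snd
    have h1 := vb3_measurable_sq.comp h0
    have h2 := Measurable.const_mul h1 (ENNReal.ofReal (4 * vKB a κ (x (q i))))
    exact Measurable.const_add h2 (ENNReal.ofReal (vKA a κ (x (q i))))
  · simp only [Bool.not_eq_true] at hJ
    simp only [hJ, Bool.false_eq_true, if_false]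
    have h0 : Measurable (fun r : ((ℕ → ℕ → ℝ) × (ℕ → ℕ)) × (ℕ → Bool) => (r.1.2 i, r.2)) :=
      ((measurable_pi_apply i).comp (measurable_snd.comp measurable_fst)).prodMk measurable_snd
    have h1 : Measurable (fun r : ((ℕ → ℕ → ℝ) × (ℕ → ℕ)) × (ℕ → Bool) => r.2 (r.1.2 i)) :=
      Measurable.comp (g := fun r : ℕ × (ℕ → Bool) => r.2 r.1) Model.measurable_eval h0
    exact (measurable_of_countable (fun b : Bool =>
      ENNReal.ofReal (NN a (x (q i)) * vb3_g x (q i) (q (i + 1)) b))).comp h1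

theorem vKA_nonneg (a κ x : ℝ) : 0 ≤ vKA a κ x := by
  unfold vKA
  positivity

theorem vKB_nonneg (a κ x : ℝ) : 0 ≤ vKB a κ x := by
  unfold vKB
  positivity

theorem vb3_NN_pos {a x : ℝ} (ha : 0 ≤ a) : 0 < NN a x := zero_lt_one.trans_le (uc_one_le_NN ha)

section
variable {α : ℝ} {Ω Ω' : Type} [MeasurableSpace Ω] [MeasurableSpace Ω'] {P : Measure Ω}
  {P' : Measure Ω'} [IsProbabilityMeasure P'] (M : Model α P P')

/-- freezing, for lintegrals -/
theorem vb3_freeze {𝒱 : Type*} [MeasurableSpace 𝒱] (X : Ω' → 𝒱)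
    (hX : Measurable[M.𝒢] X) (F : 𝒱 × (ℕ → Bool) → ℝ≥0∞) (hF : Measurable F) :
    ∫⁻ ω', F (X ω', fun n => M.ξ n ω') ∂P' =
      ∫⁻ ω', ∫⁻ ω'', F (X ω', fun n => M.ξ n ω'') ∂P' ∂P' := by
  have hXm : Measurable X := hX.mono M.𝒢_le le_rfl
  have hb := M.measurable_bits
  have hmap := (indepFun_iff_map_prod_eq_prod_map_map hXm.aemeasurable hb.aemeasurable).1
    (M.indepFun_of_measurable X hX)
  have hpair : Measurable (fun ω' => (X ω', fun n => M.ξ n ω')) := hXm.prodMk hb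
  rw [← lintegral_map hF hpair, hmap, lintegral_prod _ hF.aemeasurable,
    lintegral_map hF.lintegral_prod_right' hXm]
  refine lintegral_congr fun ω' => ?_
  exact lintegral_map (f := fun y => F (X ω', y)) (hF.comp measurable_prodMk_left) hb

theorem vb3_next_mem (ω' : Ω') (t : ℝ) : nextPt (M.R ω') t ∈ M.R ω' := by
  obtain ⟨r, hr, hr2⟩ := M.regen.unbounded ω' t
  have hne : ({r | r ∈ M.R ω' ∧ t < r} : Set ℝ).Nonempty := ⟨r, hr, hr2⟩
  have hcl := csInf_mem_closure hne ⟨t, fun x hx => hx.2.le⟩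
  have hsub : closure {r | r ∈ M.R ω' ∧ t < r} ⊆ M.R ω' :=
    closure_minimal (fun x hx => hx.1) (M.regen.isClosed ω')
  exact hsub hcl

theorem vb3_land_mem (θ : ℝ) (p : ℕ → ℕ) (ω' : Ω') (i : ℕ) : land (M.R ω') θ p i ∈ M.R ω' := by
  cases i with
  | zero => exact M.regen.zero_mem ω'
  | succ i => exact vb3_next_mem M ω' _

theorem vb3_measurable_land (θ : ℝ) (p : ℕ → ℕ) (i : ℕ) :
    Measurable[M.𝒢] (fun ω' => land (M.R ω') θ p i) := by
  cases i with
  | zero => exact @measurable_const _ _ _ M.𝒢 _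
  | succ i => exact M.measurable_nextPt _

theorem vb3_measurable_clen (θ : ℝ) (p : ℕ → ℕ) (i n : ℕ) (w : ℝ) :
    Measurable[M.𝒢] (fun ω' => clen M θ (land (M.R ω') θ p i) w n ω') := by
  unfold clen
  refine Measurable.ite ?_ ?_ (@measurable_const _ _ _ M.𝒢 _)
  · refine @MeasurableSet.inter _ M.𝒢 _ _ ?_ ?_
    · exact @measurableSet_le _ _ _ _ _ M.𝒢 _ _ _ _ _ (vb3_measurable_land M θ p i)
        (M.measurable_left n)
    · exact M.measurable_left n measurableSet_Iio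
  · exact (((M.measurable_right n).min (@measurable_const _ _ _ M.𝒢 _)).sub
      (M.measurable_left n)).div_const _

/-- the facts about a scenario used below -/
structure Vb3Geo (θ κ : ℝ) (q : ℕ → ℕ) (J : ℕ → Bool) (k : ℕ) (ω' : Ω') : Prop where
  q0 : q 0 = 0
  q1 : ∀ i ≤ k, q i < q (i + 1)
  g1 : ∀ i ≤ k, θ * q (i + 1) ≤ nextPt (M.R ω') (θ * (q i + 1))
  g2 : ∀ i < k, nextPt (M.R ω') (θ * (q i + 1)) < θ * (q (i + 1) + 1)
  J1 : ∀ i, J i = true → i < k ∧ q (i + 1) = q i + 1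
  J2 : ∀ i, J i = true → land (M.R ω') θ q i ≤ θ * (q i + κ)

theorem Vb3Geo.land_ge {θ κ : ℝ} {q : ℕ → ℕ} {J : ℕ → Bool} {k : ℕ} {ω' : Ω'}
    (h : Vb3Geo M θ κ q J k ω') {i : ℕ} (hi : i ≤ k) : θ * q i ≤ land (M.R ω') θ q i := by
  cases i with
  | zero =>
    rw [h.q0]
    simp [land]
  | succ i => exact h.g1 i (by omega)

theorem Vb3Geo.land_lt {θ κ : ℝ} (hθ : 0 < θ) {q : ℕ → ℕ} {J : ℕ → Bool} {k : ℕ} {ω' : Ω'}
    (h : Vb3Geo M θ κ q J k ω') {i : ℕ} (hi : i ≤ k) :
    land (M.R ω') θ q i < θ * (q i + 1) := by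
  cases i with
  | zero =>
    rw [h.q0]
    simp [land, hθ]
  | succ i => exact h.g2 i (by omega)

/-- the set of indices of bits of the `i`-th block -/
def vb3_S (θ : ℝ) (q : ℕ → ℕ) (J : ℕ → Bool) (ω' : Ω') (i : ℕ) : Set ℕ :=
  if J i then {n | land (M.R ω') θ q i ≤ M.left n ω' ∧ M.left n ω' < θ * (q i + 1)}
  else if q i + 2 ≤ q (i + 1) then {M.mi θ q ω' i} else ∅

theorem Vb3Geo.straddle {θ κ : ℝ} (hθ : 0 < θ) {q : ℕ → ℕ} {J : ℕ → Bool} {k : ℕ} {ω' : Ω'}
    (h : Vb3Geo M θ κ q J k ω') {i : ℕ} (hi : i ≤ k) (h2 : q i + 2 ≤ q (i + 1)) :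
    M.left (M.mi θ q ω' i) ω' ≤ θ * (q i + 1) ∧
      θ * (q i + 1) < M.right (M.mi θ q ω' i) ω' ∧
      θ * q (i + 1) ≤ M.right (M.mi θ q ω' i) ω' := by
  have h2' : ((q i : ℕ) : ℝ) + 2 ≤ q (i + 1) := by exact_mod_cast h2
  have h0 : θ * (q i + 1) < nextPt (M.R ω') (θ * (q i + 1)) := by
    refine lt_of_lt_of_le ?_ (h.g1 i hi)
    exact mul_lt_mul_of_pos_left (by linarith) hθ
  have h1 := M.idx_spec (M.exists_excursion (x := θ * (q i + 1)) (by positivity) h0)
  have h3 := M.nextPt_eq_right h1.1 h1.2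
  refine ⟨h1.1, h1.2, ?_⟩
  have := h.g1 i hi
  rw [h3] at this
  exact this

theorem Vb3Geo.mem_S {θ κ : ℝ} (hθ : 0 < θ) {q : ℕ → ℕ} {J : ℕ → Bool} {k : ℕ} {ω' : Ω'}
    (h : Vb3Geo M θ κ q J k ω') {i : ℕ} (hi : i ≤ k) {n : ℕ} (hn : n ∈ vb3_S M θ q J ω' i) :
    land (M.R ω') θ q i ≤ M.left n ω' ∧ M.left n ω' ≤ θ * (q i + 1) ∧
      (q (i + 1) = q i + 1 → M.left n ω' < θ * (q i + 1)) := by
  unfold vb3_S at hn
  split_ifs at hn with h1 h2
  · exact ⟨hn.1, hn.2.le, fun _ => hn.2⟩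
  · rw [Set.mem_singleton_iff] at hn
    subst hn
    obtain ⟨s1, s2, s3⟩ := h.straddle M hθ hi h2
    refine ⟨?_, s1, fun h3 => by omega⟩
    rcases vb2_or M (vb3_land_mem M θ q ω' i) (M.mi θ q ω' i) with h3 | h3
    · exact h3
    · have := h.land_lt M hθ hi
      linarith
  · exact absurd hn (Set.notMem_empty _)

theorem Vb3Geo.disjoint {θ κ : ℝ} (hθ : 0 < θ) {q : ℕ → ℕ} {J : ℕ → Bool} {k : ℕ} {ω' : Ω'}
    (h : Vb3Geo M θ κ q J k ω') :
    ∀ i < k + 1, ∀ j < k + 1, i ≠ j → Disjoint (vb3_S M θ q J ω' i) (vb3_S M θ q J ω' j) := by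
  have key : ∀ i j, i < j → j < k + 1 →
      Disjoint (vb3_S M θ q J ω' i) (vb3_S M θ q J ω' j) := by
    intro i j hij hj
    rw [Set.disjoint_left]
    intro n hn hn'
    obtain ⟨a1, a2, a3⟩ := h.mem_S M hθ (by omega) hn
    obtain ⟨b1, b2, b3⟩ := h.mem_S M hθ (by omega) hn'
    have c1 := h.land_ge M (i := j) (by omega)
    have c2 : q (i + 1) ≤ q j :=
      Model.p_mono (k := k + 1) (fun i hi => h.q1 i (by omega)) (by omega) (by omega)
    have c3 := h.q1 i (by omega)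
    have c4 : θ * (q j : ℝ) ≤ θ * (q i + 1) := c1.trans (b1.trans a2)
    have c5 : (q j : ℝ) ≤ q i + 1 := le_of_mul_le_mul_left c4 hθ
    have c6 : q j ≤ q i + 1 := by exact_mod_cast c5
    have c7 : q (i + 1) = q i + 1 := by omega
    have c8 : ((q j : ℕ) : ℝ) = q i + 1 := by
      have : q j = q i + 1 := by omega
      exact_mod_cast this
    rw [c8] at c1
    exact absurd (c1.trans b1) (not_le.2 (a3 c7))
  intro i hi j hj hij
  rcases lt_or_gt_of_ne hij with h1 | h1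
  · exact key i j h1 hj
  · exact (key j i h1 hi).symm

/-- the relative lengths of the excursions of the `i`-th block -/
noncomputable def vb3_c (θ : ℝ) (q : ℕ → ℕ) (ω' : Ω') (i n : ℕ) : ℝ :=
  clen M θ (land (M.R ω') θ q i) (θ * (q i + 1)) n ω'

theorem Vb3Geo.hasSum_c {θ κ : ℝ} (hθ : 0 < θ) {q : ℕ → ℕ} {J : ℕ → Bool} {k : ℕ} {ω' : Ω'}
    (h : Vb3Geo M θ κ q J k ω') {i : ℕ} (hi : i ≤ k) :
    HasSum (vb3_c M θ q ω' i) ((θ * (q i + 1) - land (M.R ω') θ q i) / θ) := by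
  have h1 : 0 ≤ θ * (q i : ℝ) := by positivity
  exact hasSum_clen M hθ (h1.trans (h.land_ge M hi)) (h.land_lt M hθ hi).le
    (vb3_land_mem M θ q ω' i)

theorem Vb3Geo.hasSum_c_sq {θ κ : ℝ} (hθ : 0 < θ) {q : ℕ → ℕ} {J : ℕ → Bool} {k : ℕ} {ω' : Ω'}
    (h : Vb3Geo M θ κ q J k ω') {i : ℕ} (hi : i ≤ k) :
    HasSum (fun n => vb3_c M θ q ω' i n ^ 2)
      (vV (M.R ω') θ (land (M.R ω') θ q i) (θ * (q i + 1))) := by
  have h1 : 0 ≤ θ * (q i : ℝ) := by positivity
  exact hasSum_clen_sq M hθ (h1.trans (h.land_ge M hi)) (h.land_lt M hθ hi).le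
    (vb3_land_mem M θ q ω' i)

theorem Vb3Geo.block {θ κ a : ℝ} (hθ : 0 < θ) (ha : 0 ≤ a) (hκ : 0 < κ) (hκ1 : κ ≤ 1 / 2)
    (x : ℕ → ℝ) {q : ℕ → ℕ} {J : ℕ → Bool} {k : ℕ} {ω' : Ω'}
    (h : Vb3Geo M θ κ q J k ω') {i : ℕ} (hi : i ≤ k) :
    ENNReal.ofReal (∏ j ∈ Finset.Ico (q i) (q (i + 1)), psi a (M.pp θ j ω') (x j)) ≤
      vb3_H a κ x q J i (vb3_c M θ q ω') (M.mi θ q ω') (fun n => M.ξ n ω') := by
  have hP := M.isProbabilityMeasure_P
  have hpp := fun j => pp_mem M hθ j ω'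
  have hsum := h.hasSum_c M hθ hi
  have hc0 : ∀ n, 0 ≤ vb3_c M θ q ω' i n := fun n => clen_nonneg M hθ _ _ _ _
  unfold vb3_H
  by_cases hJ : J i = true
  · rw [if_pos hJ]
    have hq := (h.J1 i hJ).2
    rw [hq, Finset.prod_Ico_succ_top (le_refl _), Finset.Ico_self, Finset.prod_empty, one_mul]
    have h1 : 0 ≤ θ * (q i : ℝ) := by positivity
    have h2 := pp_near_half M hθ (j := q i) (vb3_land_mem M θ q ω' i) (h.land_ge M hi)
      (h.J2 i hJ) (by linarith : κ ≤ 1)
    set σ : ℝ := ∑' n, ((if M.ξ n ω' then (1 : ℝ) else 0) - 1 / 2) *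
      clen M θ (land (M.R ω') θ q i) (θ * (q i + 1)) n ω' with hσ
    have h3 : HasSum (fun n => ((if M.ξ n ω' then (1 : ℝ) else 0) - 1 / 2) *
      clen M θ (land (M.R ω') θ q i) (θ * (q i + 1)) n ω') σ :=
      (vb3_summable hsum.summable hc0 (fun n => M.ξ n ω')).hasSum
    have hS : (θ * (q i + 1) - land (M.R ω') θ q i) / θ ≤ 1 := by
      rw [div_le_one hθ]
      have := h.land_ge M hi
      linarith
    have h4 : |σ| ≤ 1 / 2 := by
      have h5 : ∀ n, |((if M.ξ n ω' then (1 : ℝ) else 0) - 1 / 2) *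
          clen M θ (land (M.R ω') θ q i) (θ * (q i + 1)) n ω'| ≤ 1 / 2 *
          clen M θ (land (M.R ω') θ q i) (θ * (q i + 1)) n ω' := by
        intro n
        have h6 : 0 ≤ clen M θ (land (M.R ω') θ q i) (θ * (q i + 1)) n ω' := hc0 n
        rw [abs_mul, abs_of_nonneg h6]
        exact mul_le_mul_of_nonneg_right (vb3_abs_bit _) h6
      have h6 := hasSum_le (fun n => (abs_le.1 (h5 n)).2) h3 (hsum.mul_left (1 / 2))
      have h7 := hasSum_le (fun n => (abs_le.1 (h5 n)).1) (hsum.mul_left (1 / 2)).neg h3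
      rw [abs_le]
      constructor <;> linarith
    have h5 := psi_le_near (x := x (q i)) (hpp (q i)).1 (hpp (q i)).2 ha hκ h2 h4
    refine (ENNReal.ofReal_le_ofReal h5).trans ?_
    rw [vb3_sq_eq hsum.summable hc0, ENNReal.ofReal_add (vKA_nonneg _ _ _)
      (mul_nonneg (by positivity) (vKB_nonneg _ _ _)),
      ← ENNReal.ofReal_mul (mul_nonneg (by norm_num) (vKB_nonneg _ _ _))]
    refine add_le_add le_rfl (ENNReal.ofReal_le_ofReal (le_of_eq ?_))
    have h6 : ∑' n, ((if M.ξ n ω' then (1 : ℝ) else 0) - 1 / 2) * vb3_c M θ q ω' i n = σ := rfl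
    rw [h6]
    ring
  · rw [if_neg hJ]
    apply ENNReal.ofReal_le_ofReal
    have hlt := h.q1 i hi
    rw [Finset.prod_eq_prod_Ico_succ_bot hlt]
    refine mul_le_mul (psi_le ha (hpp _).1 (hpp _).2) (le_of_eq ?_)
      (Finset.prod_nonneg fun j _ => uc_psi_nonneg _ _ _) (vb3_NN_pos ha).le
    rcases Nat.lt_or_ge (q (i + 1)) (q i + 2) with h2 | h2
    · rw [vb3_g_trivial x (by omega), Finset.Ico_eq_empty (by omega), Finset.prod_empty]
    · obtain ⟨s1, s2, s3⟩ := h.straddle M hθ hi h2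
      have h3 : ∀ j ∈ Finset.Ico (q i + 1) (q (i + 1)), psi a (M.pp θ j ω') (x j) =
          if M.ξ (M.mi θ q ω' i) ω' then Real.exp (-2 * x j) else 1 := by
        intro j hj
        rw [Finset.mem_Ico] at hj
        have hj1 : ((q i : ℕ) : ℝ) + 1 ≤ j := by exact_mod_cast hj.1
        have hj2 : ((j : ℕ) : ℝ) + 1 ≤ q (i + 1) := by exact_mod_cast hj.2
        rw [M.uc_pp_eq hθ (ν := M.mi θ q ω' i)
          (s1.trans (mul_le_mul_of_nonneg_left hj1 hθ.le))
          (le_trans (mul_le_mul_of_nonneg_left hj2 hθ.le) s3)]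
        unfold psi
        split_ifs <;> simp
      rw [Finset.prod_congr rfl h3]
      unfold vb3_g
      split_ifs with hb
      · rw [← Real.exp_sum, ← Finset.mul_sum]
      · simp

theorem Vb3Geo.prod_le {θ κ a : ℝ} (hθ : 0 < θ) (ha : 0 ≤ a) (hκ : 0 < κ) (hκ1 : κ ≤ 1 / 2)
    (x : ℕ → ℝ) {q : ℕ → ℕ} {J : ℕ → Bool} {k : ℕ} {ω' : Ω'}
    (h : Vb3Geo M θ κ q J k ω') :
    ENNReal.ofReal (∏ j ∈ Finset.range (q (k + 1)), psi a (M.pp θ j ω') (x j)) ≤
      ∏ i ∈ Finset.range (k + 1),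
        vb3_H a κ x q J i (vb3_c M θ q ω') (M.mi θ q ω') (fun n => M.ξ n ω') := by
  have key : ∀ l ≤ k + 1, ENNReal.ofReal (∏ j ∈ Finset.range (q l), psi a (M.pp θ j ω') (x j)) ≤
      ∏ i ∈ Finset.range l,
        vb3_H a κ x q J i (vb3_c M θ q ω') (M.mi θ q ω') (fun n => M.ξ n ω') := by
    intro l
    induction l with
    | zero =>
      intro _
      rw [h.q0]
      simp
    | succ l ih =>
      intro hl
      have h1 := ih (by omega)
      have h2 := h.q1 l (by omega)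
      rw [← Finset.prod_range_mul_prod_Ico _ h2.le, ENNReal.ofReal_mul
        (Finset.prod_nonneg fun j _ => uc_psi_nonneg _ _ _), Finset.prod_range_succ]
      exact mul_le_mul' h1 (h.block M hθ ha hκ hκ1 x (by omega))
  exact key (k + 1) le_rfl

/-- mean of the weight of a block -/
noncomputable def vb3_L (a κ θ : ℝ) (x : ℕ → ℝ) (q : ℕ → ℕ) (J : ℕ → Bool) (ω' : Ω')
    (i : ℕ) : ℝ :=
  if J i then vKA a κ (x (q i)) +
    vKB a κ (x (q i)) * vV (M.R ω') θ (land (M.R ω') θ q i) (θ * (q i + 1))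
  else NN a (x (q i)) * vE (q (i + 1) - q i) (shx (q i) x)

theorem Vb3Geo.inner {θ κ a : ℝ} (hθ : 0 < θ) (ha : 0 ≤ a)
    (x : ℕ → ℝ) {q : ℕ → ℕ} {J : ℕ → Bool} {k : ℕ} {ω' : Ω'}
    (h : Vb3Geo M θ κ q J k ω') :
    ∫⁻ ω'', ∏ i ∈ Finset.range (k + 1),
        vb3_H a κ x q J i (vb3_c M θ q ω') (M.mi θ q ω') (fun n => M.ξ n ω'') ∂P' =
      ∏ i ∈ Finset.range (k + 1), ENNReal.ofReal (vb3_L M a κ θ x q J ω' i) := by
  have hP := M.isProbabilityMeasure_P
  have hmeas : ∀ i, Measurable (fun u : ℕ → Bool =>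
      vb3_H a κ x q J i (vb3_c M θ q ω') (M.mi θ q ω') u) := fun i =>
    Measurable.comp (g := fun r : ((ℕ → ℕ → ℝ) × (ℕ → ℕ)) × (ℕ → Bool) =>
      vb3_H a κ x q J i r.1.1 r.1.2 r.2)
      (f := fun u : ℕ → Bool => ((vb3_c M θ q ω', M.mi θ q ω'), u))
      (vb3_measurable_H a κ x q J i) measurable_prodMk_left
  have h1 := bits_prod M (k + 1) (vb3_S M θ q J ω') (h.disjoint M hθ)
    (fun i u => vb3_H a κ x q J i (vb3_c M θ q ω') (M.mi θ q ω') u)
    (fun i _ => hmeas i) (by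
      intro i hi u v huv
      simp only [vb3_H]
      by_cases hJ : J i = true
      · rw [if_pos hJ, if_pos hJ]
        congr 2
        apply vb3_sq_congr
        intro n hn
        apply huv
        unfold vb3_S
        rw [if_pos hJ]
        by_contra hcon
        exact hn (vb2_clen_neg M hcon)
      · rw [if_neg hJ, if_neg hJ]
        rcases Nat.lt_or_ge (q (i + 1)) (q i + 2) with h2 | h2
        · rw [vb3_g_trivial x (by omega), vb3_g_trivial x (by omega)]
        · rw [huv (M.mi θ q ω' i) (by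
            unfold vb3_S
            rw [if_neg hJ, if_pos h2]
            exact Set.mem_singleton _)])
  rw [h1]
  refine Finset.prod_congr rfl fun i hi => ?_
  rw [Finset.mem_range] at hi
  have hi' : i ≤ k := by omega
  have hsum := h.hasSum_c M hθ hi'
  have hc0 : ∀ n, 0 ≤ vb3_c M θ q ω' i n := fun n => clen_nonneg M hθ _ _ _ _
  simp only [vb3_H, vb3_L]
  by_cases hJ : J i = true
  · simp only [hJ, if_true]
    have h3 : Measurable (fun ω'' => (vb3_c M θ q ω' i, fun n => M.ξ n ω'')) :=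
      measurable_const.prodMk M.measurable_bits
    have hS := vb3_measurable_sq.comp h3
    have hS' : ((fun q : (ℕ → ℝ) × (ℕ → Bool) => vb3_sq q.1 q.2) ∘
        (fun ω'' => (vb3_c M θ q ω' i, fun n => M.ξ n ω''))) =
        fun ω'' => vb3_sq (vb3_c M θ q ω' i) (fun n => M.ξ n ω'') := rfl
    rw [hS'] at hS
    have h2 : ∫⁻ ω'', vb3_sq (vb3_c M θ q ω' i) (fun n => M.ξ n ω'') ∂P' =
        ENNReal.ofReal (vV (M.R ω') θ (land (M.R ω') θ q i) (θ * (q i + 1)) / 4) := by
      simp_rw [vb3_sq_eq hsum.summable hc0]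
      rw [bits_sq M _ hsum.summable hc0, (h.hasSum_c_sq M hθ hi').tsum_eq]
    have h4 : ∀ S : Ω' → ℝ≥0∞, Measurable S → ∀ A B : ℝ≥0∞,
        ∫⁻ ω'', (A + B * S ω'') ∂P' = A + B * ∫⁻ ω'', S ω'' ∂P' := by
      intro S hS A B
      rw [lintegral_add_left measurable_const, lintegral_const, measure_univ, mul_one,
        lintegral_const_mul _ hS]
    refine (h4 _ hS _ _).trans ?_
    rw [h2, ← ENNReal.ofReal_mul (mul_nonneg (by norm_num) (vKB_nonneg _ _ _)),
      ← ENNReal.ofReal_add (vKA_nonneg _ _ _) (mul_nonneg (mul_nonneg (by norm_num)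
        (vKB_nonneg _ _ _)) (div_nonneg (vV_nonneg M.regen (h.land_lt M hθ hi').le ω')
        (by norm_num)))]
    congr 1
    ring
  · simp only [Bool.not_eq_true] at hJ
    simp only [hJ, Bool.false_eq_true, if_false]
    have h2 := uc_integral_bit M (fun b => NN a (x (q i)) * vb3_g x (q i) (q (i + 1)) b)
      (M.mi θ q ω' i)
    have hm : Measurable (fun ω'' => NN a (x (q i)) *
        vb3_g x (q i) (q (i + 1)) (M.ξ (M.mi θ q ω' i) ω'')) :=
      (measurable_of_countable (fun b => NN a (x (q i)) * vb3_g x (q i) (q (i + 1)) b)).comp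
        (M.measurable_ξ _)
    have h0 : ∀ b, 0 ≤ NN a (x (q i)) * vb3_g x (q i) (q (i + 1)) b := fun b =>
      mul_nonneg (vb3_NN_pos ha).le (vb3_g_nonneg _ _ _ _)
    rw [← ofReal_integral_eq_lintegral_ofReal ?_ (ae_of_all _ fun ω'' => h0 _), h2]
    · congr 1
      rw [← vb3_g_mean x (h.q1 i hi')]
      ring
    · refine Integrable.of_bound hm.aestronglyMeasurable
        (NN a (x (q i)) * vb3_g x (q i) (q (i + 1)) true +
          NN a (x (q i)) * vb3_g x (q i) (q (i + 1)) false) (ae_of_all _ fun ω'' => ?_)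
      rw [Real.norm_eq_abs, abs_of_nonneg (h0 _)]
      have a1 := h0 true
      have a2 := h0 false
      cases M.ξ (M.mi θ q ω' i) ω''
      · linarith
      · linarith

/-- what a step means -/
theorem vb3_step {R : Set ℝ} {θ κ : ℝ} (hθ : 0 < θ) (hκ : 0 < κ) (hκ1 : κ ≤ 1 / 2) {p : ℕ → ℕ}
    {f : ℕ → Bool} {i : ℕ} (hp : p i < p (i + 1)) (hf : f i = true → p (i + 1) = p i + 1)
    (h : vStep R θ κ p f i) :
    θ * p (i + 1) ≤ nextPt R (θ * (p i + 1)) ∧ nextPt R (θ * (p i + 1)) < θ * (p (i + 1) + 1) ∧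
      (f i = true → nextPt R (θ * (p i + 1)) ≤ θ * (p i + 1 + κ)) := by
  unfold vStep at h
  by_cases h1 : f i = true
  · rw [if_pos h1] at h
    have h2 : ((p (i + 1) : ℕ) : ℝ) = p i + 1 := by exact_mod_cast hf h1
    rw [h2]
    refine ⟨h.1, lt_of_le_of_lt h.2 (mul_lt_mul_of_pos_left (by linarith) hθ), fun _ => h.2⟩
  · rw [if_neg h1] at h
    by_cases h2 : p (i + 1) ≤ p i + 1
    · rw [if_pos h2] at h
      have h3 : ((p (i + 1) : ℕ) : ℝ) = p i + 1 := by
        have : p (i + 1) = p i + 1 := by omega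
        exact_mod_cast this
      rw [h3]
      refine ⟨le_trans (mul_le_mul_of_nonneg_left (by linarith) hθ.le) h.1.le,
        lt_of_lt_of_le h.2 (le_of_eq (by ring)), fun h4 => absurd h4 h1⟩
    · rw [if_neg h2] at h
      exact ⟨h.1, h.2, fun h4 => absurd h4 h1⟩

theorem vb3_measurable_step (θ κ : ℝ) (p : ℕ → ℕ) (f : ℕ → Bool) (i : ℕ) :
    MeasurableSet[M.𝒢] {ω' | vStep (M.R ω') θ κ p f i} := by
  unfold vStep
  split_ifs
  · exact M.measurable_nextPt _ measurableSet_Icc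
  · exact M.measurable_nextPt _ measurableSet_Ioo
  · exact M.measurable_nextPt _ measurableSet_Ico

theorem vb3_measurable_E (θ κ : ℝ) (p : ℕ → ℕ) (f : ℕ → Bool) (k : ℕ) :
    MeasurableSet[M.𝒢] {ω' | ∀ i < k, vStep (M.R ω') θ κ p f i} := by
  have h : {ω' | ∀ i < k, vStep (M.R ω') θ κ p f i} =
      ⋂ i ∈ Finset.range k, {ω' | vStep (M.R ω') θ κ p f i} := by
    ext ω
    simp
  rw [h]
  exact @Finset.measurableSet_biInter _ _ M.𝒢 _ _ fun i _ => vb3_measurable_step M θ κ p f i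

/-- the general inequality, in terms of `q`, `J` -/
theorem vb3_main {θ a κ : ℝ} (hθ : 0 < θ) (ha : 0 ≤ a) (hκ : 0 < κ) (hκ1 : κ ≤ 1 / 2)
    (x : ℕ → ℝ) (q : ℕ → ℕ) (J : ℕ → Bool) (k : ℕ) (Ec : Set Ω') (hEc : MeasurableSet[M.𝒢] Ec)
    (hgeo : ∀ ω' ∈ Ec, Vb3Geo M θ κ q J k ω') :
    ∫⁻ ω' in Ec, ENNReal.ofReal (∏ j ∈ Finset.range (q (k + 1)),
        psi a (M.pp θ j ω') (x j)) ∂P' ≤
      ∫⁻ ω' in Ec, ∏ i ∈ Finset.range (k + 1), ENNReal.ofReal (vb3_L M a κ θ x q J ω' i) ∂P' := by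
  have hEcm : MeasurableSet Ec := M.𝒢_le _ hEc
  set I : Ω' → ℝ≥0∞ := Ec.indicator (fun _ => (1 : ℝ≥0∞)) with hI
  have hIm : Measurable[M.𝒢] I := by
    rw [hI]
    exact (@measurable_const _ _ _ M.𝒢 _).indicator hEc
  have hcm : Measurable[M.𝒢] (fun ω' => vb3_c M θ q ω') := by
    refine @measurable_pi_lambda _ _ _ M.𝒢 _ _ fun i => ?_
    refine @measurable_pi_lambda _ _ _ M.𝒢 _ _ fun n => ?_
    exact vb3_measurable_clen M θ q i n _
  have hνm := M.measurable_mi θ q
  set F : (ℝ≥0∞ × ((ℕ → ℕ → ℝ) × (ℕ → ℕ))) × (ℕ → Bool) → ℝ≥0∞ := fun r =>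
    r.1.1 * ∏ i ∈ Finset.range (k + 1), vb3_H a κ x q J i r.1.2.1 r.1.2.2 r.2 with hF
  have hFm : Measurable F := by
    rw [hF]
    refine Measurable.mul (measurable_fst.comp measurable_fst) ?_
    apply Finset.measurable_prod
    intro i _
    have h0 : Measurable (fun r : (ℝ≥0∞ × ((ℕ → ℕ → ℝ) × (ℕ → ℕ))) × (ℕ → Bool) =>
        (r.1.2, r.2)) := (measurable_snd.comp measurable_fst).prodMk measurable_snd
    have h1 := (vb3_measurable_H a κ x q J i).comp h0
    exact h1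
  have hfr := vb3_freeze M (fun ω' => (I ω', (vb3_c M θ q ω', M.mi θ q ω')))
    (hIm.prodMk (hcm.prodMk hνm)) F hFm
  rw [← lintegral_indicator hEcm, ← lintegral_indicator hEcm]
  calc ∫⁻ ω', Ec.indicator (fun ω' => ENNReal.ofReal (∏ j ∈ Finset.range (q (k + 1)),
        psi a (M.pp θ j ω') (x j))) ω' ∂P'
      ≤ ∫⁻ ω', F ((I ω', (vb3_c M θ q ω', M.mi θ q ω')), fun n => M.ξ n ω') ∂P' := by
        refine lintegral_mono fun ω' => ?_
        by_cases h : ω' ∈ Ec
        · rw [Set.indicator_of_mem h, hF]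
          simp only
          rw [hI, Set.indicator_of_mem h, one_mul]
          exact (hgeo ω' h).prod_le M hθ ha hκ hκ1 x
        · rw [Set.indicator_of_notMem h]
          exact bot_le
    _ = ∫⁻ ω', ∫⁻ ω'', F ((I ω', (vb3_c M θ q ω', M.mi θ q ω')), fun n => M.ξ n ω'') ∂P' ∂P' :=
        hfr
    _ = ∫⁻ ω', Ec.indicator (fun ω' => ∏ i ∈ Finset.range (k + 1),
          ENNReal.ofReal (vb3_L M a κ θ x q J ω' i)) ω' ∂P' := by
        refine lintegral_congr fun ω' => ?_
        by_cases h : ω' ∈ Ec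
        · rw [Set.indicator_of_mem h, hF]
          simp only
          rw [hI, Set.indicator_of_mem h]
          simp only [one_mul]
          exact (hgeo ω' h).inner M hθ ha x
        · rw [Set.indicator_of_notMem h, hF]
          simp only
          rw [hI, Set.indicator_of_notMem h]
          simp

theorem vb3_vE_one (y : ℕ → ℝ) : vE 1 y = 1 := by
  unfold vE
  simp

theorem core_bits {θ a κ : ℝ} (hθ : 0 < θ) (ha : 0 ≤ a) (hκ : 0 < κ) (hκ1 : κ ≤ 1 / 2) {n : ℕ}
    (x : ℕ → ℝ) (p : ℕ → ℕ) (f : ℕ → Bool) (k : ℕ) (hp0 : p 0 = 0)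
    (hp : ∀ i < k, p i < p (i + 1)) (hf : ∀ i < k, f i = true → p (i + 1) = p i + 1)
    (hpn : p k < n) :
    ∫ ω' in {ω' | (∀ i < k, vStep (M.R ω') θ κ p f i) ∧
          θ * n ≤ nextPt (M.R ω') (θ * (p k + 1))},
        ∏ j ∈ Finset.range n, psi a (M.pp θ j ω') (x j) ∂P' ≤
      (∫ ω' in {ω' | ∀ i < k, vStep (M.R ω') θ κ p f i}, ∏ i ∈ Finset.range k,
        (if vI f i then vKA a κ (x (p i)) +
          vKB a κ (x (p i)) * vV (M.R ω') θ (land (M.R ω') θ p i) (θ * (p i + 1)) else 1) ∂P') *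
      (∏ i ∈ Finset.range k, (if vI f i then 1 else NN a (x (p i)) *
        (if f i then 1 else vE (p (i + 1) - p i) (shx (p i) x)))) *
      (NN a (x (p k)) * vE (n - p k) (shx (p k) x)) := by
  have hP := M.isProbabilityMeasure_P
  set q : ℕ → ℕ := fun i => if i ≤ k then p i else n with hqdef
  have hqp : ∀ i ≤ k, q i = p i := fun i hi => by simp [hqdef, hi]
  have hqn : q (k + 1) = n := by simp [hqdef]
  have hq : ∀ i ≤ k, q i < q (i + 1) := by
    intro i hi
    rw [hqp i hi]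
    rcases hi.lt_or_eq with h | rfl
    · rw [hqp (i + 1) h]
      exact hp i h
    · rw [hqn]
      exact hpn
  set J : ℕ → Bool := fun i => decide (i < k) && vI f i with hJdef
  have hJ : ∀ i < k, J i = vI f i := fun i hi => by simp [hJdef, hi]
  have hJk : J k = false := by simp [hJdef]
  have hJ' : ∀ i, J i = true → i < k ∧ vI f i = true := by
    intro i hi
    simp only [hJdef, Bool.and_eq_true, decide_eq_true_eq] at hi
    exact hi
  have hland : ∀ ω', ∀ i ≤ k, land (M.R ω') θ q i = land (M.R ω') θ p i := by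
    intro ω' i hi
    cases i with
    | zero => rfl
    | succ i =>
      change nextPt (M.R ω') (θ * (q i + 1)) = nextPt (M.R ω') (θ * (p i + 1))
      rw [hqp i (by omega)]
  set E : Set Ω' := {ω' | ∀ i < k, vStep (M.R ω') θ κ p f i} with hE
  set Ec : Set Ω' := {ω' | (∀ i < k, vStep (M.R ω') θ κ p f i) ∧
          θ * n ≤ nextPt (M.R ω') (θ * (p k + 1))} with hEc
  have hEm𝒢 : MeasurableSet[M.𝒢] E := vb3_measurable_E M θ κ p f k
  have hEm : MeasurableSet E := M.𝒢_le _ hEm𝒢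
  have hEcm𝒢 : MeasurableSet[M.𝒢] Ec := by
    have h : Ec = E ∩ (fun ω' => nextPt (M.R ω') (θ * (p k + 1))) ⁻¹' Set.Ici (θ * n) := by
      ext ω
      simp [hEc, hE]
    rw [h]
    exact @MeasurableSet.inter _ M.𝒢 _ _ hEm𝒢 (M.measurable_nextPt _ measurableSet_Ici)
  have hEcm : MeasurableSet Ec := M.𝒢_le _ hEcm𝒢
  have hEcE : Ec ⊆ E := fun ω hω => hω.1
  have hstep : ∀ ω' ∈ E, ∀ i < k, _ := fun ω' h i hi =>
    vb3_step hθ hκ hκ1 (hp i hi) (hf i hi) (h i hi)
  -- landing points of interface cells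
  have hlandI : ∀ ω' ∈ E, ∀ i < k, vI f i = true →
      θ * p i ≤ land (M.R ω') θ p i ∧ land (M.R ω') θ p i ≤ θ * (p i + κ) := by
    intro ω' h i hi hv
    unfold vI at hv
    simp only [Bool.and_eq_true, Bool.or_eq_true, decide_eq_true_eq] at hv
    cases i with
    | zero =>
      rw [hp0]
      simp only [land, Nat.cast_zero, mul_zero, zero_add, le_refl, true_and]
      positivity
    | succ i =>
      have hfi : f i = true := by
        rcases hv.2 with h1 | h1
        · exact absurd h1 (by omega)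
        · simpa using h1
      have h1 := hstep ω' h i (by omega)
      have h2 : ((p (i + 1) : ℕ) : ℝ) = p i + 1 := by exact_mod_cast hf i (by omega) hfi
      refine ⟨h1.1, ?_⟩
      rw [h2]
      exact h1.2.2 hfi
  have hgeo : ∀ ω' ∈ Ec, Vb3Geo M θ κ q J k ω' := by
    intro ω' hω
    have hωE := hEcE hω
    refine ⟨by rw [hqp 0 (Nat.zero_le _), hp0], hq, ?_, ?_, ?_, ?_⟩
    · intro i hi
      rw [hqp i hi]
      rcases hi.lt_or_eq with h | rfl
      · rw [hqp (i + 1) h]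
        exact (hstep ω' hωE i h).1
      · rw [hqn]
        exact hω.2
    · intro i hi
      rw [hqp i hi.le, hqp (i + 1) hi]
      exact (hstep ω' hωE i hi).2.1
    · intro i hi
      obtain ⟨h1, h2⟩ := hJ' i hi
      refine ⟨h1, ?_⟩
      rw [hqp i h1.le, hqp (i + 1) h1]
      unfold vI at h2
      simp only [Bool.and_eq_true] at h2
      exact hf i h1 h2.1
    · intro i hi
      obtain ⟨h1, h2⟩ := hJ' i hi
      rw [hqp i h1.le, hland ω' i h1.le]
      exact (hlandI ω' hωE i h1 h2).2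
  have hmain := vb3_main M hθ ha hκ hκ1 x q J k Ec hEcm𝒢 hgeo
  rw [hqn] at hmain
  -- the functions
  set W : Ω' → ℝ := fun ω' => ∏ i ∈ Finset.range k,
        (if vI f i then vKA a κ (x (p i)) +
          vKB a κ (x (p i)) * vV (M.R ω') θ (land (M.R ω') θ p i) (θ * (p i + 1)) else 1) with hW
  set C1 : ℝ := ∏ i ∈ Finset.range k, (if vI f i then 1 else NN a (x (p i)) *
        (if f i then 1 else vE (p (i + 1) - p i) (shx (p i) x))) with hC1
  set C2 : ℝ := NN a (x (p k)) * vE (n - p k) (shx (p k) x) with hC2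
  have hvE : ∀ m y, 0 ≤ vE m y := by
    intro m y
    unfold vE
    positivity
  have hC1n : 0 ≤ C1 := by
    refine Finset.prod_nonneg fun i _ => ?_
    split_ifs
    · exact zero_le_one
    · exact mul_nonneg (vb3_NN_pos ha).le zero_le_one
    · exact mul_nonneg (vb3_NN_pos ha).le (hvE _ _)
  have hC2n : 0 ≤ C2 := mul_nonneg (vb3_NN_pos ha).le (hvE _ _)
  -- range of `vV` on `E`
  have hvV : ∀ ω' ∈ E, ∀ i < k, vI f i = true →
      0 ≤ vV (M.R ω') θ (land (M.R ω') θ p i) (θ * (p i + 1)) ∧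
      vV (M.R ω') θ (land (M.R ω') θ p i) (θ * (p i + 1)) ≤ 1 := by
    intro ω' h i hi hv
    obtain ⟨h1, h2⟩ := hlandI ω' h i hi hv
    have h3 : land (M.R ω') θ p i ≤ θ * (p i + 1) :=
      h2.trans (mul_le_mul_of_nonneg_left (by linarith) hθ.le)
    exact ⟨vV_nonneg M.regen h3 ω', vV_le_one M.regen hθ h3 (by linarith) ω'⟩
  have hW0 : ∀ ω' ∈ E, 0 ≤ W ω' := by
    intro ω' h
    refine Finset.prod_nonneg fun i hi => ?_
    rw [Finset.mem_range] at hi
    split_ifs with hv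
    · exact add_nonneg (vKA_nonneg _ _ _) (mul_nonneg (vKB_nonneg _ _ _) (hvV ω' h i hi hv).1)
    · exact zero_le_one
  -- the product of the means
  have hprod : ∀ ω' ∈ E, ∏ i ∈ Finset.range (k + 1), ENNReal.ofReal (vb3_L M a κ θ x q J ω' i) =
      ENNReal.ofReal (W ω') * ENNReal.ofReal (C1 * C2) := by
    intro ω' h
    have hterm : ∀ i ∈ Finset.range k, vb3_L M a κ θ x q J ω' i =
        (if vI f i then vKA a κ (x (p i)) +
          vKB a κ (x (p i)) * vV (M.R ω') θ (land (M.R ω') θ p i) (θ * (p i + 1)) else 1) *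
        (if vI f i then 1 else NN a (x (p i)) *
        (if f i then 1 else vE (p (i + 1) - p i) (shx (p i) x))) := by
      intro i hi
      rw [Finset.mem_range] at hi
      unfold vb3_L
      rw [hJ i hi, hqp i hi.le, hqp (i + 1) hi, hland ω' i hi.le]
      by_cases hv : vI f i = true
      · simp only [hv, if_true, mul_one]
      · simp only [Bool.not_eq_true] at hv
        simp only [hv, Bool.false_eq_true, if_false, one_mul]
        by_cases hfi : f i = true
        · simp only [hfi, if_true, mul_one]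
          have : p (i + 1) - p i = 1 := by
            have := hf i hi hfi
            omega
          rw [this, vb3_vE_one, mul_one]
        · simp only [Bool.not_eq_true] at hfi
          simp only [hfi, Bool.false_eq_true, if_false]
    have hlast : vb3_L M a κ θ x q J ω' k = C2 := by
      unfold vb3_L
      rw [hJk, hqp k le_rfl, hqn]
      simp [hC2]
    have hL0 : ∀ i ∈ Finset.range k, 0 ≤ vb3_L M a κ θ x q J ω' i := by
      intro i hi
      rw [hterm i hi]
      rw [Finset.mem_range] at hi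
      by_cases hv : vI f i = true
      · simp only [hv, if_true, mul_one]
        exact add_nonneg (vKA_nonneg _ _ _) (mul_nonneg (vKB_nonneg _ _ _) (hvV ω' h i hi hv).1)
      · simp only [Bool.not_eq_true] at hv
        simp only [hv, Bool.false_eq_true, if_false, one_mul]
        refine mul_nonneg (vb3_NN_pos ha).le ?_
        split_ifs
        · exact zero_le_one
        · exact hvE _ _
    rw [Finset.prod_range_succ, hlast, ← ENNReal.ofReal_prod_of_nonneg hL0,
      Finset.prod_congr rfl hterm, Finset.prod_mul_distrib,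
      ← ENNReal.ofReal_mul (mul_nonneg (hW0 ω' h) hC1n), ← ENNReal.ofReal_mul (hW0 ω' h)]
    congr 1
    ring
  -- integrability of `W` on `E`
  have hWi : IntegrableOn W E P' := by
    -- measurable version
    set W' : Ω' → ℝ := fun ω' => ∏ i ∈ Finset.range k,
        (if vI f i then vKA a κ (x (p i)) +
          vKB a κ (x (p i)) * (∑' m, ENNReal.ofReal (vb3_c M θ p ω' i m ^ 2)).toReal else 1)
      with hW'
    have hW'm : Measurable W' := by
      apply Finset.measurable_prod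
      intro i _
      split_ifs
      · refine measurable_const.add (Measurable.const_mul ?_ _)
        refine Measurable.ennreal_toReal (Measurable.ennreal_tsum fun m => ?_)
        exact ENNReal.measurable_ofReal.comp
          (((vb3_measurable_clen M θ p i m _).mono M.𝒢_le le_rfl).pow_const 2)
      · exact measurable_const
    have hWW' : ∀ ω' ∈ E, W' ω' = W ω' := by
      intro ω' h
      refine Finset.prod_congr rfl fun i hi => ?_
      rw [Finset.mem_range] at hi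
      split_ifs with hv
      · obtain ⟨h1, h2⟩ := hlandI ω' h i hi hv
        have h3 : land (M.R ω') θ p i ≤ θ * (p i + 1) :=
          h2.trans (mul_le_mul_of_nonneg_left (by linarith) hθ.le)
        have h4 := hasSum_clen_sq M hθ ((by positivity : (0 : ℝ) ≤ θ * p i).trans h1) h3
          (vb3_land_mem M θ p ω' i)
        have h5 : ∑' m, ENNReal.ofReal (vb3_c M θ p ω' i m ^ 2) =
            ENNReal.ofReal (vV (M.R ω') θ (land (M.R ω') θ p i) (θ * (p i + 1))) := by
          rw [← h4.tsum_eq, ENNReal.ofReal_tsum_of_nonneg (fun m => sq_nonneg _) h4.summable]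
          rfl
        rw [h5, ENNReal.toReal_ofReal (hvV ω' h i hi hv).1]
      · rfl
    have hb : ∀ ω' ∈ E, ‖W ω'‖ ≤ ∏ i ∈ Finset.range k,
        (1 + vKA a κ (x (p i)) + vKB a κ (x (p i))) := by
      intro ω' h
      rw [Real.norm_eq_abs, abs_of_nonneg (hW0 ω' h)]
      refine Finset.prod_le_prod (fun i hi => ?_) fun i hi => ?_
      · rw [Finset.mem_range] at hi
        split_ifs with hv
        · exact add_nonneg (vKA_nonneg _ _ _)
            (mul_nonneg (vKB_nonneg _ _ _) (hvV ω' h i hi hv).1)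
        · exact zero_le_one
      · rw [Finset.mem_range] at hi
        have a1 := vKA_nonneg a κ (x (p i))
        have a2 := vKB_nonneg a κ (x (p i))
        split_ifs with hv
        · have a3 := mul_le_mul_of_nonneg_left (hvV ω' h i hi hv).2 a2
          linarith
        · linarith
    refine Integrable.of_bound (C := ∏ i ∈ Finset.range k,
        (1 + vKA a κ (x (p i)) + vKB a κ (x (p i)))) ?_ ?_
    · refine (hW'm.aestronglyMeasurable (μ := P'.restrict E)).congr ?_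
      rw [Filter.EventuallyEq, ae_restrict_iff' hEm]
      exact ae_of_all _ hWW'
    · rw [ae_restrict_iff' hEm]
      exact ae_of_all _ hb
  have hWint0 : 0 ≤ ∫ ω' in E, W ω' ∂P' := by
    refine setIntegral_nonneg hEm fun ω' h => hW0 ω' h
  have hpsim : Measurable (fun ω' => ∏ j ∈ Finset.range n, psi a (M.pp θ j ω') (x j)) := by
    apply Finset.measurable_prod
    intro j _
    have hm := measurable_pp M hθ j
    unfold psi
    fun_prop
  rw [integral_eq_lintegral_of_nonneg_ae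
    (ae_of_all _ fun ω' => Finset.prod_nonneg fun j _ => uc_psi_nonneg _ _ _)
    hpsim.aestronglyMeasurable]
  apply ENNReal.toReal_le_of_le_ofReal (mul_nonneg (mul_nonneg hWint0 hC1n) hC2n)
  refine hmain.trans ?_
  calc ∫⁻ ω' in Ec, ∏ i ∈ Finset.range (k + 1), ENNReal.ofReal (vb3_L M a κ θ x q J ω' i) ∂P'
      ≤ ∫⁻ ω' in E, ∏ i ∈ Finset.range (k + 1), ENNReal.ofReal (vb3_L M a κ θ x q J ω' i) ∂P' :=
        lintegral_mono_set hEcE
    _ = ∫⁻ ω' in E, ENNReal.ofReal (W ω') * ENNReal.ofReal (C1 * C2) ∂P' :=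
        setLIntegral_congr_fun hEm hprod
    _ = (∫⁻ ω' in E, ENNReal.ofReal (W ω') ∂P') * ENNReal.ofReal (C1 * C2) :=
        lintegral_mul_const' _ _ ENNReal.ofReal_ne_top
    _ = ENNReal.ofReal ((∫ ω' in E, W ω' ∂P') * C1 * C2) := by
        have h0 : 0 ≤ᵐ[P'.restrict E] W := by
          rw [Filter.EventuallyLE, ae_restrict_iff' hEm]
          exact ae_of_all _ fun ω' h => hW0 ω' h
        rw [← ofReal_integral_eq_lintegral_ofReal hWi h0, ← ENNReal.ofReal_mul hWint0, mul_assoc]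

end

end Pool.Agent.Lib.MP_3d9a2b_pr
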