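import Pool.Agent.Lib.MP_3d9a2b_pr.V.Defs

set_option autoImplicit false

/-! Task VG1: elementary properties of the best gain `vLL` and of the events `vGood`. -/

namespace Pool.Agent.Lib.MP_3d9a2b_pr

open MeasureTheory ProbabilityTheory Filter Topology
open scoped NNReal ENNReal

private theorem vg1_shx_shx (i j : ℕ) (x : ℕ → ℝ) : shx i (shx j x) = shx (i + j) x := by
  funext k
  simp only [shx]
  congr 1
  omega

private theorem vg1_shx_zero (x : ℕ → ℝ) : shx 0 x = x := by
  funext k
  simp only [shx, add_zero]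

private theorem vg1_measurable_shx (m : ℕ) : Measurable (shx m) :=
  measurable_pi_lambda _ fun j => measurable_pi_apply (j + m)

theorem vLL_zero (b L₀ : ℝ) (x : ℕ → ℝ) : vLL b L₀ 0 x = 0 := by
  rw [vLL]

theorem vLL_succ (b L₀ : ℝ) (N : ℕ) (x : ℕ → ℝ) : vLL b L₀ (N + 1) x =
    max (- x 0 + b + vLL b L₀ N (shx 1 x))
      (Finset.sup' (Finset.univ : Finset (Fin (N + 1))) Finset.univ_nonempty
        (fun l => - (2 * Real.log ((l : ℕ) + 1) + L₀) - |x 0| - |x ((l : ℕ) + 1)|
          + vLL b L₀ (N - l) (shx (l + 1) x))) := by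
  rw [vLL]

/-- `vLL N` depends on the coordinates `0, ..., N` only -/
theorem vLL_congr {b L₀ : ℝ} {N : ℕ} {x y : ℕ → ℝ} (h : ∀ i ≤ N, x i = y i) :
    vLL b L₀ N x = vLL b L₀ N y := by
  induction N using Nat.strong_induction_on generalizing x y with
  | _ N ih =>
    rcases N with _ | N
    · rw [vLL_zero, vLL_zero]
    · rw [vLL_succ, vLL_succ, h 0 (by omega)]
      congr 1
      · rw [ih N (by omega) (x := shx 1 x) (y := shx 1 y) (fun i hi => h (i + 1) (by omega))]
      · refine Finset.sup'_congr _ rfl fun l _ => ?_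
        have hl := l.2
        rw [h ((l : ℕ) + 1) (by omega), ih (N - l) (by omega) (x := shx (l + 1) x)
          (y := shx (l + 1) y) (fun i hi => h (i + (l + 1)) (by omega))]

theorem measurable_vLL (b L₀ : ℝ) (N : ℕ) : Measurable (vLL b L₀ N) := by
  induction N using Nat.strong_induction_on with
  | _ N ih =>
    rcases N with _ | N
    · have : vLL b L₀ 0 = fun _ => (0 : ℝ) := funext fun x => vLL_zero b L₀ x
      rw [this]
      exact measurable_const
    · have : vLL b L₀ (N + 1) = fun x => max (- x 0 + b + vLL b L₀ N (shx 1 x))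
        ((Finset.univ : Finset (Fin (N + 1))).sup' Finset.univ_nonempty
          (fun (l : Fin (N + 1)) (x : ℕ → ℝ) =>
            - (2 * Real.log ((l : ℕ) + 1) + L₀) - |x 0| - |x ((l : ℕ) + 1)|
              + vLL b L₀ (N - l) (shx (l + 1) x)) x) := by
        funext x
        rw [vLL_succ, Finset.sup'_apply]
      rw [this]
      refine Measurable.max ?_ ?_
      · exact (((measurable_pi_apply 0).neg).add_const b).add
          ((ih N (by omega)).comp (vg1_measurable_shx 1))
      · refine Finset.measurable_sup' _ fun l _ => ?_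
        have hl := l.2
        refine Measurable.add ?_ ((ih (N - l) (by omega)).comp (vg1_measurable_shx (l + 1)))
        exact ((measurable_const.sub (measurable_pi_apply 0).abs)).sub
          (measurable_pi_apply ((l : ℕ) + 1)).abs

private theorem vg1_step1 (b L₀ : ℝ) (N : ℕ) (x : ℕ → ℝ) :
    - x 0 + b + vLL b L₀ N (shx 1 x) ≤ vLL b L₀ (N + 1) x := by
  rw [vLL_succ]
  exact le_max_left _ _

private theorem vg1_step2 (b L₀ : ℝ) {N l : ℕ} (hl : l ≤ N) (x : ℕ → ℝ) :
    - (2 * Real.log ((l : ℝ) + 1) + L₀) - |x 0| - |x (l + 1)|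
      + vLL b L₀ (N - l) (shx (l + 1) x) ≤ vLL b L₀ (N + 1) x := by
  rw [vLL_succ]
  refine le_trans ?_ (le_max_right _ _)
  exact Finset.le_sup' (fun l : Fin (N + 1) =>
    - (2 * Real.log ((l : ℕ) + 1) + L₀) - |x 0| - |x ((l : ℕ) + 1)|
          + vLL b L₀ (N - l) (shx (l + 1) x)) (Finset.mem_univ (⟨l, by omega⟩ : Fin (N + 1)))

/-- superadditivity (induction on `m`, `shx` of `shx`) -/
theorem vLL_add (b L₀ : ℝ) (m n : ℕ) (x : ℕ → ℝ) :
    vLL b L₀ m x + vLL b L₀ n (shx m x) ≤ vLL b L₀ (m + n) x := by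
  induction m using Nat.strong_induction_on generalizing x with
  | _ m ih =>
    rcases m with _ | m
    · rw [vLL_zero, vg1_shx_zero, zero_add, zero_add]
    · have e : m + 1 + n = (m + n) + 1 := by omega
      rw [e]
      have key : vLL b L₀ (m + 1) x ≤ vLL b L₀ (m + n + 1) x - vLL b L₀ n (shx (m + 1) x) := by
        conv_lhs => rw [vLL_succ]
        refine max_le ?_ (Finset.sup'_le _ _ fun l _ => ?_)
        · have h1 := ih m (by omega) (shx 1 x)
          rw [vg1_shx_shx] at h1
          have h2 := vg1_step1 b L₀ (m + n) x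
          linarith
        · have hl := l.2
          have h1 := ih (m - l) (by omega) (shx (l + 1) x)
          rw [vg1_shx_shx] at h1
          have e1 : m - (l : ℕ) + ((l : ℕ) + 1) = m + 1 := by omega
          have e2 : m - (l : ℕ) + n = m + n - (l : ℕ) := by omega
          rw [e1, e2] at h1
          have h2 := vg1_step2 b L₀ (N := m + n) (l := l) (by omega) x
          linarith
      linarith

/-- interface steps only -/
theorem vLL_inter (b L₀ : ℝ) (N : ℕ) (x : ℕ → ℝ) :
    ∑ j ∈ Finset.range N, (- x j + b) ≤ vLL b L₀ N x := by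
  induction N generalizing x with
  | zero => rw [vLL_zero, Finset.sum_range_zero]
  | succ N ih =>
    rw [Finset.sum_range_succ']
    have h1 := ih (shx 1 x)
    have h2 := vg1_step1 b L₀ N x
    have h3 : ∑ j ∈ Finset.range N, (- (shx 1 x) j + b) = ∑ k ∈ Finset.range N, (- x (k + 1) + b) :=
      rfl
    rw [h3] at h1
    linarith

/-- one long excursion -/
theorem vLL_jump (b L₀ : ℝ) {l : ℕ} (hl : 1 ≤ l) (x : ℕ → ℝ) :
    - (2 * Real.log l + L₀) - |x 0| - |x l| ≤ vLL b L₀ l x := by
  obtain ⟨k, rfl⟩ : ∃ k, l = k + 1 := ⟨l - 1, by omega⟩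
  have h := vg1_step2 b L₀ (le_refl k) x
  rw [Nat.sub_self, vLL_zero, add_zero] at h
  push_cast
  exact h

private theorem vg1_sum_shift (x : ℕ → ℝ) {N k m : ℕ} (h : k + m ≤ N) :
    ∑ j ∈ Finset.range (k + 1), |shx m x j| ≤ ∑ j ∈ Finset.range (N + 1), |x j| := by
  have e : ∑ j ∈ Finset.range (k + 1), |shx m x j| =
      ∑ j ∈ (Finset.range (k + 1)).map (addRightEmbedding m), |x j| := by
    rw [Finset.sum_map]
    rfl
  rw [e]
  refine Finset.sum_le_sum_of_subset_of_nonneg ?_ fun _ _ _ => abs_nonneg _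
  intro j hj
  rw [Finset.mem_map] at hj
  obtain ⟨i, hi, rfl⟩ := hj
  rw [Finset.mem_range] at hi ⊢
  simp only [addRightEmbedding_apply]
  omega

private theorem vg1_bound (b L₀ : ℝ) (N : ℕ) : ∃ C : ℝ, ∀ x : ℕ → ℝ,
    |vLL b L₀ N x| ≤ C + 3 * ((N : ℝ) + 1) * ∑ j ∈ Finset.range (N + 1), |x j| := by
  induction N using Nat.strong_induction_on with
  | _ N ih =>
    rcases N with _ | N
    · refine ⟨0, fun x => ?_⟩
      rw [vLL_zero, abs_zero]
      have : (0 : ℝ) ≤ ∑ j ∈ Finset.range (0 + 1), |x j| := Finset.sum_nonneg fun _ _ => abs_nonneg _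
      positivity
    · choose! c hc using ih
      have hS : ∀ x : ℕ → ℝ, (0 : ℝ) ≤ ∑ j ∈ Finset.range (N + 1 + 1), |x j| :=
        fun x => Finset.sum_nonneg fun _ _ => abs_nonneg _
      have hN : (0 : ℝ) ≤ N := Nat.cast_nonneg N
      refine ⟨|b| + ∑ k ∈ Finset.range (N + 1), (|c k| + |2 * Real.log ((k : ℝ) + 1) + L₀|)
        + ∑ k ∈ Finset.range (N + 1), |c k|, fun x => ?_⟩
      have hx : ∀ j, j < N + 2 → |x j| ≤ ∑ j ∈ Finset.range (N + 1 + 1), |x j| := fun j hj =>
        Finset.single_le_sum (f := fun j => |x j|) (fun _ _ => abs_nonneg _) (Finset.mem_range.2 hj)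
      have hck : ∀ k, k < N + 1 → |c k| ≤ ∑ k ∈ Finset.range (N + 1), |c k| := fun k hk =>
        Finset.single_le_sum (f := fun k => |c k|) (fun _ _ => abs_nonneg _) (Finset.mem_range.2 hk)
      have hdk : ∀ k, k < N + 1 → |c k| + |2 * Real.log ((k : ℝ) + 1) + L₀| ≤
          ∑ k ∈ Finset.range (N + 1), (|c k| + |2 * Real.log ((k : ℝ) + 1) + L₀|) := fun k hk =>
        Finset.single_le_sum (f := fun k => |c k| + |2 * Real.log ((k : ℝ) + 1) + L₀|)
          (fun _ _ => add_nonneg (abs_nonneg _) (abs_nonneg _)) (Finset.mem_range.2 hk)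
      have hC0 : (0 : ℝ) ≤ ∑ k ∈ Finset.range (N + 1), |c k| :=
        Finset.sum_nonneg fun _ _ => abs_nonneg _
      have hD0 : (0 : ℝ) ≤ ∑ k ∈ Finset.range (N + 1), (|c k| + |2 * Real.log ((k : ℝ) + 1) + L₀|) :=
        Finset.sum_nonneg fun _ _ => add_nonneg (abs_nonneg _) (abs_nonneg _)
      set S := ∑ j ∈ Finset.range (N + 1 + 1), |x j| with hSdef
      have hS0 : 0 ≤ S := hS x
      have hsub : ∀ k m, k + m = N + 1 → 1 ≤ m →
          |vLL b L₀ k (shx m x)| ≤ |c k| + 3 * ((N : ℝ) + 1) * S := by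
        intro k m hkm hm
        have h1 := hc k (by omega) (shx m x)
        have h2 := vg1_sum_shift x (N := N + 1) (k := k) (m := m) (by omega)
        have h3 : (k : ℝ) ≤ N := by exact_mod_cast (by omega : k ≤ N)
        have h4 : 3 * ((k : ℝ) + 1) * ∑ j ∈ Finset.range (k + 1), |shx m x j| ≤
            3 * ((N : ℝ) + 1) * S := by
          apply mul_le_mul (by linarith) h2 (Finset.sum_nonneg fun _ _ => abs_nonneg _) (by linarith)
        have h5 := le_abs_self (c k)
        linarith
      push_cast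
      have hx0 := hx 0 (by omega)
      have hAbs := hsub N 1 (by omega) (le_refl 1)
      have hcN := hck N (by omega)
      have hb := abs_le.1 (le_refl |b|)
      have hx0' := abs_le.1 (le_refl |x 0|)
      have hA' := abs_le.1 (le_refl |vLL b L₀ N (shx 1 x)|)
      rw [abs_le]
      constructor
      · have h2 := vg1_step1 b L₀ N x
        linarith [hb.1, hb.2, hx0'.1, hx0'.2, hA'.1, hA'.2]
      · rw [vLL_succ]
        refine max_le ?_ (Finset.sup'_le _ _ fun l _ => ?_)
        · linarith [hb.1, hb.2, hx0'.1, hx0'.2, hA'.1, hA'.2]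
        · have hl := l.2
          have hB := hsub (N - l) (l + 1) (by omega) (by omega)
          have hB' := abs_le.1 (le_refl |vLL b L₀ (N - l) (shx (l + 1) x)|)
          have hdl := hdk l (by omega)
          have hcl := hck (N - l) (by omega)
          have hL := abs_le.1 (le_refl |2 * Real.log (((l : ℕ) : ℝ) + 1) + L₀|)
          have hxl := abs_nonneg (x ((l : ℕ) + 1))
          have hx00 := abs_nonneg (x 0)
          have hcl0 := abs_nonneg (c (l : ℕ))
          have hb0 := abs_nonneg b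
          linarith [hL.1, hB'.2]

theorem integrable_vLL (b L₀ B : ℝ) (N : ℕ) : Integrable (vLL b L₀ N) (nuX 1 B) := by
  obtain ⟨C, hC⟩ := vg1_bound b L₀ N
  haveI : IsProbabilityMeasure (nuX 1 B) := by
    unfold nuX
    infer_instance
  have hint : Integrable (fun x : ℕ → ℝ => C + 3 * ((N : ℝ) + 1) *
      ∑ j ∈ Finset.range (N + 1), |x j|) (nuX 1 B) := by
    refine (integrable_const C).add (Integrable.const_mul ?_ _)
    refine integrable_finset_sum _ fun j _ => ?_
    have h1 : Integrable (fun y : ℝ => y) (gaussianReal (B * 1) (1 : ℝ).toNNReal) :=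
      (memLp_id_gaussianReal (1 : ℝ≥0)).integrable (by simp)
    exact ((measurePreserving_eval_infinitePi
      (fun _ : ℕ => gaussianReal (B * 1) (1 : ℝ).toNNReal) j).integrable_comp_of_integrable h1).abs
  refine hint.mono (measurable_vLL b L₀ N).aestronglyMeasurable (Filter.Eventually.of_forall fun x => ?_)
  rw [Real.norm_eq_abs, Real.norm_eq_abs]
  exact (hC x).trans (le_abs_self _)

theorem measurableSet_vGood (b L₀ : ℝ) (N : ℕ) (v : ℝ) : MeasurableSet (vGood b L₀ N v) := by
  have : vGood b L₀ N v = ⋃ (s : ℕ) (e : ℕ) (_ : s ≤ e ∧ e < N),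
      {x : ℕ → ℝ | v ≤ vLL b L₀ (e - s) (shx s x) - |x s| - |x e|} := by
    ext x
    simp only [vGood, Set.mem_setOf_eq, Set.mem_iUnion, exists_prop, and_assoc]
  rw [this]
  refine MeasurableSet.iUnion fun s => MeasurableSet.iUnion fun e => MeasurableSet.iUnion fun _ => ?_
  refine measurableSet_le measurable_const ?_
  exact (((measurable_vLL b L₀ (e - s)).comp (vg1_measurable_shx s)).sub
    (measurable_pi_apply s).abs).sub (measurable_pi_apply e).abs

theorem vGood_congr {b L₀ : ℝ} {N : ℕ} {v : ℝ} {x y : ℕ → ℝ} (h : ∀ i < N, x i = y i) :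
    x ∈ vGood b L₀ N v ↔ y ∈ vGood b L₀ N v := by
  have key : ∀ {x y : ℕ → ℝ}, (∀ i < N, x i = y i) → x ∈ vGood b L₀ N v → y ∈ vGood b L₀ N v := by
    rintro x y h ⟨s, e, hse, he, hv⟩
    refine ⟨s, e, hse, he, ?_⟩
    rw [← vLL_congr (x := shx s x) (y := shx s y) (fun i hi => h (i + s) (by omega)),
      ← h s (by omega), ← h e he]
    exact hv
  exact ⟨key h, key fun i hi => (h i hi).symm⟩

theorem vGood_anti {b L₀ : ℝ} {N : ℕ} {v v' : ℝ} (h : v ≤ v') :
    vGood b L₀ N v' ⊆ vGood b L₀ N v := by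
  rintro x ⟨s, e, hse, he, hv⟩
  exact ⟨s, e, hse, he, h.trans hv⟩

theorem vGood_shift {b L₀ : ℝ} {N N' m : ℕ} {v : ℝ} {x : ℕ → ℝ} (h : m + N ≤ N')
    (hx : shx m x ∈ vGood b L₀ N v) : x ∈ vGood b L₀ N' v := by
  obtain ⟨s, e, hse, he, hv⟩ := hx
  refine ⟨s + m, e + m, by omega, by omega, ?_⟩
  rw [vg1_shx_shx] at hv
  have e1 : e + m - (s + m) = e - s := by omega
  rw [e1]
  exact hv

/-- two good blocks can be linked -/
theorem vGood_link {b L₀ : ℝ} {N M i j : ℕ} {u w v : ℝ} {x : ℕ → ℝ} (hij : i < j) (hj : j < M)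
    (hi : shx (i * N) x ∈ vGood b L₀ N u) (hj' : shx (j * N) x ∈ vGood b L₀ N w)
    (h : v + 2 * Real.log (((j - i : ℕ) + 1 : ℝ) * N) + L₀ ≤ u + w) :
    x ∈ vGood b L₀ (N * M) v := by
  obtain ⟨s, e, hse, he, hv⟩ := hi
  obtain ⟨s', e', hse', he', hv'⟩ := hj'
  rw [vg1_shx_shx] at hv hv'
  have a1 : (i + 1) * N ≤ j * N := Nat.mul_le_mul_right N (by omega)
  have a2 : (j + 1) * N ≤ M * N := Nat.mul_le_mul_right N (by omega)
  rw [Nat.add_mul, Nat.one_mul] at a1 a2
  have a3 : (j - i) * N = j * N - i * N := Nat.sub_mul j i N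
  have a4 : M * N = N * M := Nat.mul_comm M N
  refine ⟨s + i * N, e' + j * N, by omega, by omega, ?_⟩
  have e1 : e' + j * N - (s + i * N) = (e - s) + (((s' + j * N) - (e + i * N)) + (e' - s')) := by
    omega
  rw [e1]
  have h1 := vLL_add b L₀ (e - s) (((s' + j * N) - (e + i * N)) + (e' - s')) (shx (s + i * N) x)
  have h2 := vLL_add b L₀ ((s' + j * N) - (e + i * N)) (e' - s') (shx (e + i * N) x)
  have h3 := vLL_jump b L₀ (l := (s' + j * N) - (e + i * N)) (by omega) (shx (e + i * N) x)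
  rw [vg1_shx_shx] at h1 h2
  have e2 : e - s + (s + i * N) = e + i * N := by omega
  have e3 : s' + j * N - (e + i * N) + (e + i * N) = s' + j * N := by omega
  rw [e2] at h1
  rw [e3] at h2
  have e4 : (shx (e + i * N) x) 0 = x (e + i * N) := by
    simp only [shx, zero_add]
  have e5 : (shx (e + i * N) x) (s' + j * N - (e + i * N)) = x (s' + j * N) := by
    simp only [shx]
    rw [e3]
  rw [e4, e5] at h3
  have e6 : (shx (i * N) x) s = x (s + i * N) := rfl
  have e7 : (shx (i * N) x) e = x (e + i * N) := rfl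
  have e8 : (shx (j * N) x) s' = x (s' + j * N) := rfl
  have e9 : (shx (j * N) x) e' = x (e' + j * N) := rfl
  rw [e6, e7] at hv
  rw [e8, e9] at hv'
  have hlog : Real.log ((s' + j * N - (e + i * N) : ℕ) : ℝ) ≤
      Real.log (((j - i : ℕ) + 1 : ℝ) * N) := by
    apply Real.log_le_log
    · exact_mod_cast (by omega : 0 < s' + j * N - (e + i * N))
    · have : s' + j * N - (e + i * N) ≤ ((j - i) + 1) * N := by
        rw [Nat.add_mul, Nat.one_mul]
        omega
      exact_mod_cast this
  linarith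

end Pool.Agent.Lib.MP_3d9a2b_pr
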