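import Pool.Agent.Lib.MP_3d9a2b_pr.V.DP

set_option autoImplicit false

/-! Task VG2: measurable selection of an optimal scenario. -/

namespace Pool.Agent.Lib.MP_3d9a2b_pr

open MeasureTheory ProbabilityTheory Filter Topology
open scoped NNReal ENNReal

/-- prepend a step of length `m` to a scenario -/
private def vg2_cons (m : ℕ) (s : (ℕ → ℕ) × ℕ) : (ℕ → ℕ) × ℕ :=
  (fun j => if j = 0 then 0 else s.1 (j - 1) + m, s.2 + 1)

/-- scenarios of total length `N` -/
private def vg2_valid (N : ℕ) (s : (ℕ → ℕ) × ℕ) : Prop :=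
  s.1 0 = 0 ∧ (∀ j < s.2, s.1 j < s.1 (j + 1)) ∧ s.1 s.2 = N

private theorem vg2_valid_cons {m N : ℕ} (hm : 1 ≤ m) {s : (ℕ → ℕ) × ℕ} (hs : vg2_valid N s) :
    vg2_valid (N + m) (vg2_cons m s) := by
  obtain ⟨h1, h2, h3⟩ := hs
  refine ⟨by simp [vg2_cons], ?_, ?_⟩
  · intro j hj
    simp only [vg2_cons] at hj ⊢
    rcases Nat.eq_zero_or_pos j with rfl | hj0
    · simp [h1]
      omega
    · obtain ⟨i, rfl⟩ := Nat.exists_eq_succ_of_ne_zero hj0.ne'
      have := h2 i (by omega)
      simp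
      exact this
  · simp [vg2_cons, h3]

private theorem vg2_gain_cons (b L₀ : ℝ) (m : ℕ) {s : (ℕ → ℕ) × ℕ} (hs : s.1 0 = 0)
    (x : ℕ → ℝ) :
    gainS b L₀ (vg2_cons m s).1 (vg2_cons m s).2 x =
      (if m = 1 then - x 0 + b else - (2 * Real.log (m : ℝ) + L₀) - |x 0| - |x m|) +
        gainS b L₀ s.1 s.2 (shx m x) := by
  unfold gainS vg2_cons
  simp only
  rw [Finset.sum_range_succ']
  rw [add_comm]
  congr 1
  · simp [hs]
  · refine Finset.sum_congr rfl fun i _ => ?_
    simp only [Nat.add_eq_zero_iff, one_ne_zero, and_false, if_false, Nat.add_sub_cancel]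
    have e0 : (if i + 1 = 0 then 0 else s.1 (i + 1 - 1) + m) = s.1 i + m := by simp
    have e1 : (if i + 1 + 1 = 0 then 0 else s.1 (i + 1 + 1 - 1) + m) = s.1 (i + 1) + m := by simp
    have e2 : (s.1 (i + 1) + m = s.1 i + m + 1) ↔ (s.1 (i + 1) = s.1 i + 1) := by omega
    have e3 : s.1 (i + 1) + m - (s.1 i + m) = s.1 (i + 1) - s.1 i := by omega
    simp only [e2, e3, shx]

private theorem vg2_list {b L₀ : ℝ} (h : 0 ≤ b + L₀) (N : ℕ) :
    ∃ L : List ((ℕ → ℕ) × ℕ), (∀ s ∈ L, vg2_valid N s) ∧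
      ∀ x, ∃ s ∈ L, vLL b L₀ N x = gainS b L₀ s.1 s.2 x := by
  induction N using Nat.strong_induction_on with
  | _ N ih =>
    rcases Nat.eq_zero_or_pos N with rfl | hN
    · refine ⟨[(fun _ => 0, 0)], ?_, ?_⟩
      · intro s hs
        rw [List.mem_singleton] at hs
        subst hs
        exact ⟨rfl, fun j hj => absurd hj (by simp), rfl⟩
      · intro x
        refine ⟨_, List.mem_singleton_self _, ?_⟩
        rw [vLL_zero]
        simp [gainS]
    · obtain ⟨N, rfl⟩ := Nat.exists_eq_succ_of_ne_zero hN.ne'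
      choose! L hL1 hL2 using ih
      refine ⟨(List.range (N + 1)).flatMap fun l => (L (N - l)).map (vg2_cons (l + 1)), ?_, ?_⟩
      · intro s hs
        rw [List.mem_flatMap] at hs
        obtain ⟨l, hl, hs⟩ := hs
        rw [List.mem_map] at hs
        obtain ⟨s', hs', rfl⟩ := hs
        rw [List.mem_range] at hl
        have := vg2_valid_cons (m := l + 1) (by omega) (hL1 (N - l) (by omega) s' hs')
        have e : N - l + (l + 1) = N.succ := by omega
        rwa [e] at this
      · intro x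
        have hstep : ∀ l < N + 1, ∃ s ∈ (List.range (N + 1)).flatMap
            fun l => (L (N - l)).map (vg2_cons (l + 1)), gainS b L₀ s.1 s.2 x =
            (if l + 1 = 1 then - x 0 + b
              else - (2 * Real.log ((l + 1 : ℕ) : ℝ) + L₀) - |x 0| - |x (l + 1)|) +
              vLL b L₀ (N - l) (shx (l + 1) x) := by
          intro l hl
          obtain ⟨s, hs, hsx⟩ := hL2 (N - l) (by omega) (shx (l + 1) x)
          refine ⟨vg2_cons (l + 1) s, ?_, ?_⟩
          · rw [List.mem_flatMap]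
            exact ⟨l, List.mem_range.2 hl, List.mem_map.2 ⟨s, hs, rfl⟩⟩
          · rw [vg2_gain_cons b L₀ (l + 1) (hL1 (N - l) (by omega) s hs).1 x, hsx]
        rw [Nat.succ_eq_add_one, vLL_succ]
        obtain ⟨l, _, hl⟩ := Finset.exists_mem_eq_sup' (Finset.univ_nonempty (α := Fin (N + 1)))
          (fun l : Fin (N + 1) => - (2 * Real.log ((l : ℕ) + 1) + L₀) - |x 0| - |x ((l : ℕ) + 1)|
            + vLL b L₀ (N - l) (shx (l + 1) x))
        rw [hl]
        obtain ⟨s0, hs0, hs0x⟩ := hstep 0 (by omega)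
        simp only [zero_add, if_true, Nat.sub_zero] at hs0x
        by_cases hmax : - (2 * Real.log (((l : ℕ) : ℝ) + 1) + L₀) - |x 0| - |x ((l : ℕ) + 1)|
            + vLL b L₀ (N - l) (shx (l + 1) x) ≤ - x 0 + b + vLL b L₀ N (shx 1 x)
        · refine ⟨s0, hs0, ?_⟩
          rw [max_eq_left hmax, hs0x]
        · push Not at hmax
          have hl0 : (l : ℕ) ≠ 0 := by
            intro h0
            rw [h0] at hmax
            simp only [Nat.cast_zero, zero_add, Real.log_one, mul_zero, Nat.sub_zero] at hmax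
            have h1 := neg_abs_le (x 0)
            have h2 := le_abs_self (x 0)
            have h3 := abs_nonneg (x 1)
            linarith
          obtain ⟨s, hs, hsx⟩ := hstep l l.2
          refine ⟨s, hs, ?_⟩
          rw [max_eq_right hmax.le, hsx, if_neg (by omega)]
          push_cast
          rfl

private theorem vg2_measurable_gainS (b L₀ : ℝ) (p : ℕ → ℕ) (k : ℕ) :
    Measurable (gainS b L₀ p k) := by
  unfold gainS
  refine Finset.measurable_sum _ fun i _ => ?_
  have hm : ∀ j : ℕ, Measurable fun x : ℕ → ℝ => x j := fun j => measurable_pi_apply j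
  split_ifs
  · exact (hm _).neg.add_const _
  · exact (measurable_const.sub (hm _).abs).sub (hm _).abs

/-- Induction on `N` (an excursion of length one is never better than an interface step when
`0 ≤ b + L₀`): the space is the disjoint union of the finitely many measurable sets `A i`, and on
`A i` the scenario `p i` with `k i` steps is optimal. -/
theorem vLL_select {b L₀ : ℝ} (h : 0 ≤ b + L₀) (N : ℕ) : ∃ (n : ℕ) (p : ℕ → ℕ → ℕ) (k : ℕ → ℕ)
    (A : ℕ → Set (ℕ → ℝ)), (∀ i < n, MeasurableSet (A i)) ∧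
      (∀ i < n, ∀ j < n, i ≠ j → Disjoint (A i) (A j)) ∧ (∀ x, ∃ i < n, x ∈ A i) ∧
      ∀ i < n, p i 0 = 0 ∧ (∀ j < k i, p i j < p i (j + 1)) ∧ p i (k i) = N ∧
        ∀ x ∈ A i, vLL b L₀ N x = gainS b L₀ (p i) (k i) x := by
  classical
  obtain ⟨L, hL1, hL2⟩ := vg2_list h N
  set s : ℕ → (ℕ → ℕ) × ℕ := fun i => L.getD i (fun _ => 0, 0) with hs
  have hsL : ∀ i < L.length, s i ∈ L := by
    intro i hi
    simp only [hs, List.getD_eq_getElem _ _ hi]
    exact List.getElem_mem hi
  set E : ℕ → Set (ℕ → ℝ) := fun i => {x | vLL b L₀ N x = gainS b L₀ (s i).1 (s i).2 x} with hE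
  have hEm : ∀ i, MeasurableSet (E i) := fun i =>
    measurableSet_eq_fun (measurable_vLL b L₀ N) (vg2_measurable_gainS b L₀ _ _)
  refine ⟨L.length, fun i => (s i).1, fun i => (s i).2,
    fun i => E i \ ⋃ j ∈ Finset.range i, E j, ?_, ?_, ?_, ?_⟩
  · intro i _
    exact (hEm i).diff (Finset.measurableSet_biUnion _ fun j _ => hEm j)
  · intro i _ j _ hij
    rw [Set.disjoint_left]
    rintro x ⟨hxi, hxi'⟩ ⟨hxj, hxj'⟩
    rcases lt_or_gt_of_ne hij with hlt | hlt
    · exact hxj' (Set.mem_biUnion (Finset.mem_coe.2 (Finset.mem_range.2 hlt)) hxi)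
    · exact hxi' (Set.mem_biUnion (Finset.mem_coe.2 (Finset.mem_range.2 hlt)) hxj)
  · intro x
    obtain ⟨t, ht, htx⟩ := hL2 x
    obtain ⟨i, hi, hit⟩ := List.getElem_of_mem ht
    have hex : ∃ i, i < L.length ∧ x ∈ E i := by
      refine ⟨i, hi, ?_⟩
      simp only [hE, hs, Set.mem_ofPred_eq, List.getD_eq_getElem _ _ hi, hit]
      exact htx
    refine ⟨Nat.find hex, (Nat.find_spec hex).1, (Nat.find_spec hex).2, ?_⟩
    intro hx
    rw [Set.mem_iUnion₂] at hx
    obtain ⟨j, hj, hxj⟩ := hx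
    have hj' := Finset.mem_range.1 hj
    exact Nat.find_min hex hj' ⟨hj'.trans (Nat.find_spec hex).1, hxj⟩
  · intro i hi
    obtain ⟨h1, h2, h3⟩ := hL1 (s i) (hsL i hi)
    exact ⟨h1, h2, h3, fun x hx => hx.1⟩

end Pool.Agent.Lib.MP_3d9a2b_pr
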