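import Pool.Agent.Lib.MP_3d9a2b_pr.U.Defs
import Pool.Agent.Lib.MP_3d9a2b_pr.Window

set_option autoImplicit false

/-! Definitions for the asymptotics of the slope as `α → 1`. A cell is an interval
`[θ j, θ (j + 1))`. -/

namespace Pool.Agent.Lib.MP_3d9a2b_pr

open MeasureTheory ProbabilityTheory Filter Topology
open scoped NNReal ENNReal

/-! ### The stable regenerative set -/

/-- the density of the overshoot `D t - t` at `v > 0` -/
noncomputable def rho (α t v : ℝ) : ℝ := 1 / beta α (1 - α) * (t ^ α * v ^ (-α) / (t + v))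

/-- the information contained in the variables `D r`, `0 ≤ r ≤ t` -/
@[instance_reducible] noncomputable def past {Ω' : Type} (R : Ω' → Set ℝ) (t : ℝ) : MeasurableSpace Ω' :=
  MeasurableSpace.comap (fun ω (r : Set.Icc (0 : ℝ) t) => nextPt (R ω) r) inferInstance

/-- the point of `R` at which the path enters the `i`-th visited cell `p i` -/
noncomputable def land (R : Set ℝ) (θ : ℝ) (p : ℕ → ℕ) : ℕ → ℝ
  | 0 => 0
  | i + 1 => nextPt R (θ * (p i + 1))

/-- `(2 / θ ^ 2) ∫_z^w (min (D t) w - t) dt`, the sum of the squares of the relative lengths (cut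
at `w`) of the excursions which start in `[z, w)` -/
noncomputable def vV (R : Set ℝ) (θ z w : ℝ) : ℝ :=
  2 / θ ^ 2 * ∫ t in z..w, (min (nextPt R t) w - t)

/-! ### Upper bound -/

/-- the `i`-th step of the path goes from the visited cell `p i` to the visited cell `p (i + 1)`;
`f i = true`: the step is good, it lands at the very beginning of the next cell -/
def vStep (R : Set ℝ) (θ κ : ℝ) (p : ℕ → ℕ) (f : ℕ → Bool) (i : ℕ) : Prop :=
  if f i = true then nextPt R (θ * (p i + 1)) ∈ Set.Icc (θ * (p i + 1)) (θ * (p i + 1 + κ))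
  else if p (i + 1) ≤ p i + 1 then
    nextPt R (θ * (p i + 1)) ∈ Set.Ioo (θ * (p i + 1 + κ)) (θ * (p i + 2))
  else nextPt R (θ * (p i + 1)) ∈ Set.Ico (θ * p (i + 1)) (θ * (p (i + 1) + 1))

/-- the cell `p i` is an interface cell: it is entered and left by good steps -/
def vI (f : ℕ → Bool) (i : ℕ) : Bool := f i && (decide (i = 0) || f (i - 1))

/-- weight of a step of `m` cells: the cells `1, ..., m - 1` lie in one excursion -/
noncomputable def vE (m : ℕ) (x : ℕ → ℝ) : ℝ := (1 + Real.exp (-2 * ∑ j ∈ Finset.Ico 1 m, x j)) / 2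

/-- bound for the probability of a bad step of `m` cells -/
noncomputable def vq (α κ : ℝ) (m : ℕ) : ℝ :=
  if m ≤ 1 then 3 * (1 - α) * κ ^ (-(1 / 2 : ℝ)) else (1 - α) * ((m - 1 : ℕ) : ℝ) ^ (-(1 + α))

/-- the two parts of the weight of an interface cell -/
noncomputable def vKA (a κ x : ℝ) : ℝ := Real.exp (-x + a / 2 + 2 * κ * |x|) * Real.exp (2 * κ * |x|)

/-- the two parts of the weight of an interface cell -/
noncomputable def vKB (a κ x : ℝ) : ℝ :=
  Real.exp (-x + a / 2 + 2 * κ * |x|) * (Real.exp |x| / (4 * κ ^ 2))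

/-- weight of an interface cell -/
noncomputable def vK (a κ η x : ℝ) : ℝ := vKA a κ x + 12 * η * vKB a κ x

/-- renewal-type upper bound for the partition function of `n` cells, the first of which has been
entered by a good step (`true`) or by a bad step (`false`) -/
noncomputable def vY (a κ α : ℝ) : Bool → ℕ → (ℕ → ℝ) → ℝ
  | _, 0, _ => 0
  | g, n + 1, x => (if g then vK a κ (1 - α) (x 0) else NN a (x 0)) * vY a κ α true n (shx 1 x)
      + ∑ m : Fin n, vq α κ (m + 1) * (NN a (x 0) * vE (m + 1) x) *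
          vY a κ α false (n - m) (shx (m + 1) x)
      + NN a (x 0) * vE (n + 1) x
termination_by _ n => n

/-! ### Lower bound -/

/-- the gain of a scenario (`p i`, `i ≤ k`, are the visited cells) in the coarse environment `x` -/
noncomputable def gainS (b L₀ : ℝ) (p : ℕ → ℕ) (k : ℕ) (x : ℕ → ℝ) : ℝ :=
  ∑ i ∈ Finset.range k, if p (i + 1) = p i + 1 then - x (p i) + b
    else - (2 * Real.log ((p (i + 1) - p i : ℕ) : ℝ) + L₀) - |x (p i)| - |x (p (i + 1))|

/-- the best gain of a scenario covering `N` cells: the steps are interface steps (one cell, gain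
`- x + b`) or long excursions above the interface -/
noncomputable def vLL (b L₀ : ℝ) : ℕ → (ℕ → ℝ) → ℝ
  | 0, _ => 0
  | N + 1, x => max (- x 0 + b + vLL b L₀ N (shx 1 x))
      (Finset.sup' (Finset.univ : Finset (Fin (N + 1))) Finset.univ_nonempty
        (fun l => - (2 * Real.log ((l : ℕ) + 1) + L₀) - |x 0| - |x ((l : ℕ) + 1)|
          + vLL b L₀ (N - l) (shx (l + 1) x)))
termination_by N => N

/-- there is a chain of gain at least `v` inside the first `N` cells -/
def vGood (b L₀ : ℝ) (N : ℕ) (v : ℝ) : Set (ℕ → ℝ) :=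
  {x | ∃ s e : ℕ, s ≤ e ∧ e < N ∧ v ≤ vLL b L₀ (e - s) (shx s x) - |x s| - |x e|}

/-- tail bound for the best chain in a window of `N` cells -/
def vH (b L₀ B γ : ℝ) (N : ℕ) (β V : ℝ) : Prop := ∀ v : ℝ, 2 * Real.log N ≤ v → v ≤ V →
  min (1 / 4) (β * N * Real.exp (-γ * v)) ≤ (nuX 1 B).real (vGood b L₀ N v)

namespace Model

variable {α : ℝ} {Ω Ω' : Type} [MeasurableSpace Ω] [MeasurableSpace Ω'] {P : Measure Ω}
  {P' : Measure Ω'} (M : Model α P P')

/-- The frozen energy of a scenario: above the interface on the excursions `mi i` with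
`s i = true`, the sign being averaged elsewhere. -/
noncomputable def XA (h θ t : ℝ) (p : ℕ → ℕ) (s : ℕ → Bool) (k : ℕ) (ω : Ω) (ω' : Ω') : ℝ :=
  (M.y h t ω - M.y h 0 ω) / 2 - (∑ i ∈ Finset.range k, if s i = true then
    M.y h (min (M.right (M.mi θ p ω' i) ω') t) ω - M.y h (min (M.left (M.mi θ p ω' i) ω') t) ω
    else 0) / 2

/-- relative length of an excursion -/
noncomputable def rlen (θ : ℝ) (n : ℕ) (ω' : Ω') : ℝ := (M.right n ω' - M.left n ω') / θ

/-- the excursion `n` is contained in the cell `j` -/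
def inCell (θ : ℝ) (j n : ℕ) : Set Ω' := {ω' | θ * j ≤ M.left n ω' ∧ M.right n ω' ≤ θ * (j + 1)}

end Model

end Pool.Agent.Lib.MP_3d9a2b_pr
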