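import Pool.Agent.Lib.MP_3d9a2b_pr.V.Defs
import Pool.Agent.Lib.MP_3d9a2b_pr.U.GaussU

set_option autoImplicit false

/-! Task VC1: Gaussian estimates for the upper bound. -/

namespace Pool.Agent.Lib.MP_3d9a2b_pr

open MeasureTheory ProbabilityTheory Filter Topology
open scoped NNReal ENNReal

theorem measurable_vK (a κ η : ℝ) : Measurable (vK a κ η) := by
  unfold vK vKA vKB
  fun_prop

private theorem g2_one_add_rpow {t ζ : ℝ} (ht : 0 ≤ t) (h1 : ζ ≤ 1) : (1 + t) ^ ζ ≤ 1 + t := by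
  calc (1 + t) ^ ζ ≤ (1 + t) ^ (1 : ℝ) :=
        Real.rpow_le_rpow_of_exponent_le (by linarith) h1
    _ = 1 + t := Real.rpow_one _

private theorem g2_abs_le (y : ℝ) : |y| ≤ 2 * Real.exp (|y| / 2) := by
  have := Real.add_one_le_exp (|y| / 2)
  linarith

/-- pointwise bound for the weight of an interface cell -/
private theorem g2_pt {a ζ κ η y : ℝ} (ha0 : 0 ≤ a) (ha1 : a ≤ 1) (h0 : 0 ≤ ζ) (h1 : ζ ≤ 1)
    (hκ : 0 < κ) (hκ1 : κ ≤ 1 / 8) (hη : 0 ≤ η) :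
    vK a κ η y ^ ζ ≤ Real.exp (ζ * a / 2) * Real.exp (-ζ * y) +
      16 * (κ + η / κ ^ 2) * (Real.exp (3 * y) + Real.exp (-3 * y)) := by
  have hy0 := abs_nonneg y
  set Y := |y| with hY
  set u : ℝ := Real.exp (-y + a / 2 + 4 * κ * Y) with hu
  have hu0 : 0 < u := Real.exp_pos _
  set t : ℝ := 3 * (η / κ ^ 2) * Real.exp Y with ht
  have ht0 : 0 ≤ t := by positivity
  have hvK : vK a κ η y ≤ u * (1 + t) := by
    unfold vK vKA vKB
    rw [← hY]
    have e1 : Real.exp (-y + a / 2 + 2 * κ * Y) * Real.exp (2 * κ * Y) = u := by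
      rw [hu, ← Real.exp_add]
      congr 1
      ring
    have e2 : Real.exp (-y + a / 2 + 2 * κ * Y) ≤ u := by
      rw [hu]
      apply Real.exp_le_exp.2
      nlinarith
    rw [e1]
    have e3 : 12 * η * (Real.exp (-y + a / 2 + 2 * κ * Y) * (Real.exp Y / (4 * κ ^ 2))) =
        Real.exp (-y + a / 2 + 2 * κ * Y) * t := by
      rw [ht]
      field_simp
      ring
    rw [e3]
    have e4 := mul_le_mul_of_nonneg_right e2 ht0
    linarith
  have hvK0 : 0 ≤ vK a κ η y := by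
    unfold vK vKA vKB
    positivity
  set L : ℝ := Real.exp (ζ * a / 2) * Real.exp (-ζ * y) with hL
  have hL0 : 0 < L := by positivity
  have hL1 : L ≤ 2 * Real.exp Y := by
    rw [hL]
    have e1 : Real.exp (ζ * a / 2) ≤ 2 := by
      refine le_trans (Real.exp_le_exp.2 ?_) uf_half
      nlinarith
    have e2 : Real.exp (-ζ * y) ≤ Real.exp Y := by
      apply Real.exp_le_exp.2
      have := neg_abs_le y
      rw [← hY] at this
      nlinarith
    exact mul_le_mul e1 e2 (Real.exp_pos _).le (by norm_num)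
  set s : ℝ := 4 * κ * ζ * Y with hs
  have hs0 : 0 ≤ s := by positivity
  have hs1 : s ≤ Y / 2 := by
    rw [hs]
    have h2 : 4 * κ * ζ ≤ 1 / 2 := by nlinarith
    nlinarith
  have hs2 : s ≤ 4 * κ * Y := by
    rw [hs]
    have h2 : 4 * κ * ζ ≤ 4 * κ := by nlinarith
    nlinarith
  have huz : u ^ ζ = L * Real.exp s := by
    rw [hu, ← Real.exp_mul, hL, hs, ← Real.exp_add, ← Real.exp_add]
    congr 1
    ring
  have hexpY : Real.exp (Y / 2) * Real.exp (Y / 2) = Real.exp Y := by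
    rw [← Real.exp_add]
    congr 1
    ring
  have hes : Real.exp s ≤ 1 + 8 * κ * Real.exp Y := by
    have h2 := uf_exp_le (y := s)
    have h3 : s * Real.exp s ≤ 4 * κ * Y * Real.exp (Y / 2) :=
      mul_le_mul hs2 (Real.exp_le_exp.2 hs1) (Real.exp_pos _).le (by positivity)
    have h4 : 4 * κ * Y * Real.exp (Y / 2) ≤ 4 * κ * (2 * Real.exp (Y / 2)) * Real.exp (Y / 2) := by
      apply mul_le_mul_of_nonneg_right _ (Real.exp_pos _).le
      exact mul_le_mul_of_nonneg_left (g2_abs_le y) (by positivity)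
    have h5 : 4 * κ * (2 * Real.exp (Y / 2)) * Real.exp (Y / 2) = 8 * κ * Real.exp Y := by
      rw [← hexpY]
      ring
    linarith
  have hes2 : Real.exp s ≤ Real.exp Y := Real.exp_le_exp.2 (by linarith)
  have hE3 : Real.exp Y * (Real.exp Y * Real.exp Y) = Real.exp (3 * Y) := by
    rw [← Real.exp_add, ← Real.exp_add]
    congr 1
    ring
  have hE1 : 1 ≤ Real.exp Y := Real.one_le_exp hy0
  have hE2 : Real.exp Y * Real.exp Y ≤ Real.exp (3 * Y) := by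
    rw [← hE3]
    nlinarith [mul_pos (Real.exp_pos Y) (Real.exp_pos Y)]
  have hE4 : Real.exp (3 * Y) ≤ Real.exp (3 * y) + Real.exp (-3 * y) := by
    rcases abs_cases y with ⟨h2, _⟩ | ⟨h2, _⟩
    · rw [hY, h2]
      linarith [Real.exp_pos (-3 * y)]
    · rw [hY, h2]
      have e : 3 * -y = -3 * y := by ring
      rw [e]
      linarith [Real.exp_pos (3 * y)]
  have hq : 0 ≤ η / κ ^ 2 := by positivity
  calc vK a κ η y ^ ζ ≤ (u * (1 + t)) ^ ζ := Real.rpow_le_rpow hvK0 hvK h0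
    _ = u ^ ζ * (1 + t) ^ ζ := Real.mul_rpow hu0.le (by linarith)
    _ ≤ u ^ ζ * (1 + t) := mul_le_mul_of_nonneg_left (g2_one_add_rpow ht0 h1) (by positivity)
    _ = L * Real.exp s + L * Real.exp s * t := by rw [huz]; ring
    _ ≤ L * (1 + 8 * κ * Real.exp Y) + 2 * Real.exp Y * Real.exp Y * t := by
        have h2 := mul_le_mul_of_nonneg_left hes hL0.le
        have h3 : L * Real.exp s ≤ 2 * Real.exp Y * Real.exp Y :=
          mul_le_mul hL1 hes2 (Real.exp_pos _).le (by positivity)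
        have h4 := mul_le_mul_of_nonneg_right h3 ht0
        linarith
    _ = L + 8 * κ * (L * Real.exp Y) + 6 * (η / κ ^ 2) * Real.exp (3 * Y) := by
        rw [← hE3, ht]
        ring
    _ ≤ L + 8 * κ * (2 * Real.exp (3 * Y)) + 6 * (η / κ ^ 2) * Real.exp (3 * Y) := by
        have h2 : L * Real.exp Y ≤ 2 * Real.exp (3 * Y) := by
          have h3 := mul_le_mul_of_nonneg_right hL1 (Real.exp_pos Y).le
          nlinarith
        have h3 : 8 * κ * (L * Real.exp Y) ≤ 8 * κ * (2 * Real.exp (3 * Y)) :=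
          mul_le_mul_of_nonneg_left h2 (by positivity)
        linarith
    _ ≤ L + 16 * (κ + η / κ ^ 2) * Real.exp (3 * Y) := by
        have h2 : 0 ≤ (η / κ ^ 2) * Real.exp (3 * Y) := by positivity
        nlinarith
    _ ≤ L + 16 * (κ + η / κ ^ 2) * (Real.exp (3 * y) + Real.exp (-3 * y)) := by
        have h2 : 0 ≤ 16 * (κ + η / κ ^ 2) := by positivity
        have h3 := mul_le_mul_of_nonneg_left hE4 h2
        linarith

private theorem g2_two {a B ζ κ η : ℝ} (ha : 1 / 2 ≤ a) (ha1 : a ≤ 1) (h0 : 1 / 2 ≤ ζ)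
    (hB : ζ ≤ B) (hB1 : B ≤ 1) (hκ : 0 < κ) (hκ1 : κ ≤ 1 / 8) (hη : 0 ≤ η) :
    ∫⁻ y, ENNReal.ofReal ((vK a κ η y) ^ ζ) ∂gaussianReal (B * a) a.toNNReal ≤
      ENNReal.ofReal (Real.exp (-(ζ * a * (B - (1 + ζ) / 2))) +
        32 * Real.exp 8 * (κ + η / κ ^ 2)) := by
  have ha0 : 0 < a := by linarith
  set c : ℝ := 16 * (κ + η / κ ^ 2) with hc
  have hc0 : 0 ≤ c := by positivity
  have h1 : ∀ y : ℝ, ENNReal.ofReal ((vK a κ η y) ^ ζ) ≤
      ENNReal.ofReal (Real.exp (ζ * a / 2)) * ENNReal.ofReal (Real.exp (-ζ * y)) +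
      ENNReal.ofReal c * (ENNReal.ofReal (Real.exp (3 * y)) +
        ENNReal.ofReal (Real.exp (-3 * y))) := by
    intro y
    refine (ENNReal.ofReal_le_ofReal (g2_pt ha0.le ha1 (by linarith) (by linarith) hκ hκ1 hη)).trans
      (le_of_eq ?_)
    rw [← hc, ENNReal.ofReal_add (by positivity) (by positivity),
      ENNReal.ofReal_mul (Real.exp_pos _).le, ENNReal.ofReal_mul hc0,
      ENNReal.ofReal_add (Real.exp_pos _).le (Real.exp_pos _).le]
  refine (lintegral_mono h1).trans ?_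
  rw [lintegral_add_left (by fun_prop), lintegral_const_mul _ (by fun_prop),
    lintegral_const_mul _ (by fun_prop), lintegral_add_left (by fun_prop), uf_lexp ha0,
    uf_lexp ha0, uf_lexp ha0, ← ENNReal.ofReal_mul (Real.exp_pos _).le,
    ← ENNReal.ofReal_add (Real.exp_pos _).le (Real.exp_pos _).le, ← ENNReal.ofReal_mul hc0,
    ← ENNReal.ofReal_add (by positivity) (by positivity)]
  apply ENNReal.ofReal_le_ofReal
  have e1 : Real.exp (ζ * a / 2) * Real.exp (-ζ * B * a + (-ζ) ^ 2 * a / 2) =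
      Real.exp (-(ζ * a * (B - (1 + ζ) / 2))) := by
    rw [← Real.exp_add]
    congr 1
    ring
  have hBa : B * a ≤ 1 := by nlinarith
  have hBa0 : 0 ≤ B * a := by
    have : 0 ≤ B := by linarith
    positivity
  have e2 : Real.exp (3 * B * a + 3 ^ 2 * a / 2) ≤ Real.exp 8 := by
    apply Real.exp_le_exp.2
    nlinarith
  have e3 : Real.exp (-3 * B * a + (-3) ^ 2 * a / 2) ≤ Real.exp 8 := by
    apply Real.exp_le_exp.2
    nlinarith
  rw [e1]
  have e4 : c * (Real.exp (3 * B * a + 3 ^ 2 * a / 2) + Real.exp (-3 * B * a + (-3) ^ 2 * a / 2)) ≤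
      c * (Real.exp 8 + Real.exp 8) := mul_le_mul_of_nonneg_left (add_le_add e2 e3) hc0
  have e5 : c * (Real.exp 8 + Real.exp 8) = 32 * Real.exp 8 * (κ + η / κ ^ 2) := by
    rw [hc]
    ring
  linarith

private theorem g2_E {a B ζ : ℝ} (ha : 0 < a) (h0 : 0 ≤ ζ) (hB : ζ ≤ B) :
    ∫⁻ y, ENNReal.ofReal (Real.exp (-2 * ζ * y)) ∂gaussianReal (B * a) a.toNNReal ≤ 1 := by
  rw [uf_lexp ha]
  have : Real.exp (-2 * ζ * B * a + (-2 * ζ) ^ 2 * a / 2) ≤ 1 := by
    rw [Real.exp_le_one_iff]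
    have e : -2 * ζ * B * a + (-2 * ζ) ^ 2 * a / 2 = -(2 * ζ * a * (B - ζ)) := by ring
    rw [e]
    have : 0 ≤ 2 * ζ * a * (B - ζ) := by
      have : 0 ≤ B - ζ := by linarith
      positivity
    linarith
  calc ENNReal.ofReal (Real.exp (-2 * ζ * B * a + (-2 * ζ) ^ 2 * a / 2)) ≤ ENNReal.ofReal 1 :=
        ENNReal.ofReal_le_ofReal this
    _ = 1 := ENNReal.ofReal_one

private theorem g2_sum_exp (ζ : ℝ) (m : ℕ) (x : ℕ → ℝ) :
    ENNReal.ofReal (Real.exp (-2 * ∑ j ∈ Finset.Ico 1 m, x j) ^ ζ) =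
      ∏ j ∈ Finset.Ico 1 m, ENNReal.ofReal (Real.exp (-2 * ζ * x j)) := by
  rw [← Real.exp_mul, ← ENNReal.ofReal_prod_of_nonneg (fun j _ => (Real.exp_pos _).le),
    ← Real.exp_sum]
  congr 2
  rw [Finset.mul_sum, Finset.sum_mul]
  refine Finset.sum_congr rfl fun j _ => ?_
  ring

/-- the two factors of the weight of a step -/
private theorem g2_split (a B : ℝ) (F E : ℝ → ℝ≥0∞) (hF : Measurable F) (hE : Measurable E)
    (m : ℕ) :
    ∫⁻ x, F (x 0) * ∏ j ∈ Finset.Ico 1 m, E (x j) ∂nuX a B =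
      (∫⁻ y, F y ∂gaussianReal (B * a) a.toNNReal) *
        (∫⁻ y, E y ∂gaussianReal (B * a) a.toNNReal) ^ (m - 1) := by
  have hn : (0 : ℕ) ∉ Finset.Ico 1 m := by simp
  have h1 := uf_prod a B (fun j => if j = 0 then F else E)
    (fun j => by split_ifs <;> assumption) (insert 0 (Finset.Ico 1 m))
  rw [Finset.prod_insert hn] at h1
  have h2 : ∀ x : ℕ → ℝ, ∏ j ∈ insert 0 (Finset.Ico 1 m), (if j = 0 then F else E) (x j) =
      F (x 0) * ∏ j ∈ Finset.Ico 1 m, E (x j) := by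
    intro x
    rw [Finset.prod_insert hn, if_pos rfl]
    congr 1
    refine Finset.prod_congr rfl fun j hj => ?_
    rw [if_neg (by have := (Finset.mem_Ico.1 hj).1; omega)]
  simp_rw [h2] at h1
  rw [h1, if_true]
  congr 1
  rw [Finset.prod_congr rfl (g := fun _ => ∫⁻ y, E y ∂gaussianReal (B * a) a.toNNReal)
    (fun j hj => by rw [if_neg (by have := (Finset.mem_Ico.1 hj).1; omega)]),
    Finset.prod_const, Nat.card_Ico]

private theorem g2_one {a B ζ : ℝ} (ha : 1 / 2 ≤ a) (ha1 : a ≤ 1) (h0 : 1 / 2 ≤ ζ)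
    (hB : ζ ≤ B) (hB1 : B ≤ 1) (m : ℕ) :
    ∫⁻ x, ENNReal.ofReal ((NN a (x 0) * vE m x) ^ ζ) ∂nuX a B ≤ ENNReal.ofReal 8 := by
  have ha0 : 0 < a := by linarith
  have hζ0 : 0 ≤ ζ := by linarith
  have hζ1 : ζ ≤ 1 := by linarith
  set F : ℝ → ℝ≥0∞ := fun y => ENNReal.ofReal (2 * (1 + Real.exp (-2 * ζ * y))) with hF
  set E : ℝ → ℝ≥0∞ := fun y => ENNReal.ofReal (Real.exp (-2 * ζ * y)) with hE
  have hFm : Measurable F := by rw [hF]; fun_prop
  have hEm : Measurable E := by rw [hE]; fun_prop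
  have hpt : ∀ x : ℕ → ℝ, ENNReal.ofReal ((NN a (x 0) * vE m x) ^ ζ) ≤
      F (x 0) * ∏ j ∈ Finset.Ico 1 1, E (x j) + F (x 0) * ∏ j ∈ Finset.Ico 1 m, E (x j) := by
    intro x
    have n0 : 0 ≤ NN a (x 0) := by linarith [uf_NN_ge (x := x 0) ha0.le]
    set w := Real.exp (-2 * ∑ j ∈ Finset.Ico 1 m, x j) with hw
    have hw0 : 0 < w := Real.exp_pos _
    have h1 : ((1 + w) / 2) ^ ζ ≤ 1 + w ^ ζ := by
      calc ((1 + w) / 2) ^ ζ ≤ (1 + w) ^ ζ :=
            Real.rpow_le_rpow (by positivity) (by linarith) hζ0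
        _ ≤ 1 ^ ζ + w ^ ζ := Real.rpow_add_le_add_rpow (by norm_num) hw0.le hζ0 hζ1
        _ = 1 + w ^ ζ := by rw [Real.one_rpow]
    have h2 : (NN a (x 0) * vE m x) ^ ζ ≤ 2 * (1 + Real.exp (-2 * ζ * x 0)) * (1 + w ^ ζ) := by
      unfold vE
      rw [Real.mul_rpow n0 (by positivity)]
      exact mul_le_mul (uf_NN_rpow ha0 ha1 hζ1) h1 (by positivity) (by positivity)
    refine (ENNReal.ofReal_le_ofReal h2).trans (le_of_eq ?_)
    rw [ENNReal.ofReal_mul (by positivity), ENNReal.ofReal_add (by norm_num) (by positivity),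
      mul_add, hw, g2_sum_exp]
    simp only [ENNReal.ofReal_one, Finset.Ico_self, Finset.prod_empty, hF, hE]
  refine (lintegral_mono hpt).trans ?_
  have hm1 : Measurable fun x : ℕ → ℝ => F (x 0) * ∏ j ∈ Finset.Ico 1 1, E (x j) := by
    simp only [Finset.Ico_self, Finset.prod_empty, mul_one]
    exact hFm.comp (measurable_pi_apply 0)
  rw [lintegral_add_left hm1, g2_split a B F E hFm hEm, g2_split a B F E hFm hEm]
  have hF4 := uf_F (a := a) (B := B) (ζ := ζ) ha0 hζ0 hB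
  have hE1 := g2_E (a := a) (B := B) (ζ := ζ) ha0 hζ0 hB
  have h8 : ENNReal.ofReal 8 = ENNReal.ofReal 4 * 1 + ENNReal.ofReal 4 * 1 := by
    rw [mul_one, ← ENNReal.ofReal_add (by norm_num) (by norm_num)]
    norm_num
  rw [h8]
  refine add_le_add (mul_le_mul' hF4 ?_) (mul_le_mul' hF4 ?_)
  · exact pow_le_one' hE1 _
  · exact pow_le_one' hE1 _

theorem gauss2 : ∃ C₄ C₆ : ℝ, 1 ≤ C₄ ∧ 0 ≤ C₆ ∧ ∀ a B ζ : ℝ, 1 / 2 ≤ a → a ≤ 1 → 1 / 2 ≤ ζ →
    ζ ≤ B → B ≤ 1 →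
    (∀ m : ℕ, ∫⁻ x, ENNReal.ofReal ((NN a (x 0) * vE m x) ^ ζ) ∂nuX a B ≤ ENNReal.ofReal C₄) ∧
    ∀ κ η : ℝ, 0 < κ → κ ≤ 1 / 8 → 0 ≤ η → η ≤ 1 →
      ∫⁻ y, ENNReal.ofReal ((vK a κ η y) ^ ζ) ∂gaussianReal (B * a) a.toNNReal ≤
        ENNReal.ofReal (Real.exp (-(ζ * a * (B - (1 + ζ) / 2))) + C₆ * (κ + η / κ ^ 2)) := by
  refine ⟨8, 32 * Real.exp 8, by norm_num, by positivity, ?_⟩
  intro a B ζ ha ha1 h0 hB hB1
  exact ⟨g2_one ha ha1 h0 hB hB1, fun κ η hκ hκ1 hη _ => g2_two ha ha1 h0 hB hB1 hκ hκ1 hη⟩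

end Pool.Agent.Lib.MP_3d9a2b_pr
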