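import Pool.Agent.Lib.MP_3d9a2b_pr.V.Defs
import Pool.Agent.Lib.MP_3d9a2b_pr.U.Params

set_option autoImplicit false

/-! Task VC3: choice of the parameters for the upper bound (real analysis only). -/

namespace Pool.Agent.Lib.MP_3d9a2b_pr

open Filter Topology

private theorem pu_exp {y t : ℝ} (ht : t ≤ y) (ht0 : 0 ≤ t) (ht1 : t ≤ 1) :
    Real.exp (-y) ≤ 1 - t / 2 := by
  have h1 : Real.exp (-y) ≤ Real.exp (-t) := Real.exp_le_exp.2 (by linarith)
  have h2 : 1 + t ≤ Real.exp t := by linarith [Real.add_one_le_exp t]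
  have h3 : Real.exp (-t) * Real.exp t = 1 := by
    rw [← Real.exp_add]; simp
  have h4 : 0 < Real.exp (-t) := Real.exp_pos _
  have h5 : Real.exp (-t) * (1 + t) ≤ 1 := by
    calc Real.exp (-t) * (1 + t) ≤ Real.exp (-t) * Real.exp t :=
          mul_le_mul_of_nonneg_left h2 h4.le
      _ = 1 := h3
  nlinarith

/-- sum of the bounds for the bad steps -/
private theorem pu_sum {α q K C₄ : ℝ} (hC₄ : 1 ≤ C₄) (hK : 20 ≤ K) (hq : 0 < q)
    (hq0 : q ≤ 1 / (24 * K ^ 2)) (hη : q ^ 4 = 1 - α) (n : ℕ) :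
    ∑ m ∈ Finset.Ico 1 n, (vq α (q / 8) m) ^ (1 / 2 + K * q) * C₄ ≤ 3 * C₄ * q / K := by
  have hK0 : 0 < K := by linarith
  have hKq : K * q ≤ 1 / 4 := by
    have h1 : K * q ≤ K * (1 / (24 * K ^ 2)) := mul_le_mul_of_nonneg_left hq0 hK0.le
    have h2 : K * (1 / (24 * K ^ 2)) = 1 / (24 * K) := by field_simp
    have h3 : 1 / (24 * K) ≤ 1 / 4 := by
      apply one_div_le_one_div_of_le <;> linarith
    linarith
  have hKq0 : 0 < K * q := by positivity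
  have hq24 : 24 * q ≤ 1 / K ^ 2 := by
    have : 1 / (24 * K ^ 2) = (1 / K ^ 2) / 24 := by field_simp
    linarith
  have hqK : q ≤ 1 / K := by
    have h1 : 1 / K ^ 2 ≤ 1 / K := by
      apply one_div_le_one_div_of_le hK0
      nlinarith
    linarith
  have hq1 : q ≤ 1 / 20 := by
    have : 1 / K ≤ 1 / 20 := one_div_le_one_div_of_le (by norm_num) hK
    linarith
  have hη0 : 0 < q ^ 4 := by positivity
  -- the first term
  have hfirst : (vq α (q / 8) 1) ^ (1 / 2 + K * q) ≤ q / K := by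
    have hv : vq α (q / 8) 1 = 3 * q ^ 4 * (q / 8) ^ (-(1 / 2 : ℝ)) := by
      unfold vq
      rw [if_pos (le_refl 1), hη]
    have h8 : (q / 8) ^ (-(1 / 2 : ℝ)) ≤ 8 / q := by
      have : (8 / q) = (q / 8) ^ (-(1 : ℝ)) := by
        rw [Real.rpow_neg_one, inv_div]
      rw [this]
      apply Real.rpow_le_rpow_of_exponent_ge (by positivity) (by linarith) (by norm_num)
    have hb : vq α (q / 8) 1 ≤ 24 * q ^ 3 := by
      rw [hv]
      calc 3 * q ^ 4 * (q / 8) ^ (-(1 / 2 : ℝ)) ≤ 3 * q ^ 4 * (8 / q) :=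
            mul_le_mul_of_nonneg_left h8 (by positivity)
        _ = 24 * q ^ 3 := by field_simp; ring
    have hb0 : 0 < vq α (q / 8) 1 := by
      rw [hv]; positivity
    have hb1 : vq α (q / 8) 1 ≤ 1 := by
      refine hb.trans ?_
      have : q ^ 3 ≤ (1 / 20) ^ 3 := pow_le_pow_left₀ hq.le hq1 3
      norm_num at this
      linarith
    calc (vq α (q / 8) 1) ^ (1 / 2 + K * q) ≤ (vq α (q / 8) 1) ^ (1 / 2 : ℝ) :=
          Real.rpow_le_rpow_of_exponent_ge hb0 hb1 (by linarith)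
      _ = Real.sqrt (vq α (q / 8) 1) := by rw [Real.sqrt_eq_rpow]
      _ ≤ Real.sqrt ((q / K) ^ 2) := by
          apply Real.sqrt_le_sqrt
          refine hb.trans ?_
          rw [div_pow]
          calc 24 * q ^ 3 = (24 * q) * q ^ 2 := by ring
            _ ≤ (1 / K ^ 2) * q ^ 2 := mul_le_mul_of_nonneg_right hq24 (by positivity)
            _ = q ^ 2 / K ^ 2 := by ring
      _ = q / K := Real.sqrt_sq (by positivity)
  -- the other terms
  have hrest : ∀ m : ℕ, 2 ≤ m → (vq α (q / 8) m) ^ (1 / 2 + K * q) ≤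
      q ^ 2 * ((m - 1 : ℕ) : ℝ) ^ (-(1 + K * q)) := by
    intro m hm
    have hm1 : (1 : ℝ) ≤ ((m - 1 : ℕ) : ℝ) := by
      have : 1 ≤ m - 1 := by omega
      exact_mod_cast this
    have hv : vq α (q / 8) m = q ^ 4 * ((m - 1 : ℕ) : ℝ) ^ (-(1 + α)) := by
      unfold vq
      rw [if_neg (by omega), hη]
    rw [hv, Real.mul_rpow hη0.le (Real.rpow_nonneg (by linarith) _), ← Real.rpow_mul (by linarith)]
    apply mul_le_mul
    · have h1 : (q ^ 4) ^ (1 / 2 + K * q) ≤ (q ^ 4) ^ (1 / 2 : ℝ) := by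
        apply Real.rpow_le_rpow_of_exponent_ge hη0 _ (by linarith)
        calc q ^ 4 ≤ 1 ^ 4 := pow_le_pow_left₀ hq.le (by linarith) 4
          _ = 1 := one_pow 4
      have h2 : (q ^ 4) ^ (1 / 2 : ℝ) = q ^ 2 := by
        rw [← Real.sqrt_eq_rpow, show q ^ 4 = (q ^ 2) ^ 2 by ring, Real.sqrt_sq (by positivity)]
      rwa [h2] at h1
    · apply Real.rpow_le_rpow_of_exponent_le hm1
      have hα : α = 1 - q ^ 4 := by linarith
      rw [hα]
      have h4 : q ^ 4 ≤ K * q := by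
        have : q ^ 3 ≤ 1 := pow_le_one₀ hq.le (by linarith)
        nlinarith
      nlinarith
    · exact Real.rpow_nonneg (by linarith) _
    · positivity
  have hcase : ∑ m ∈ Finset.Ico 1 n, (vq α (q / 8) m) ^ (1 / 2 + K * q) ≤ 3 * q / K := by
    rcases Nat.lt_or_ge n 2 with hn | hn
    · rw [Finset.Ico_eq_empty (by omega)]
      simp
      positivity
    · rw [Finset.sum_eq_sum_Ico_succ_bot (by omega)]
      have h1 : ∑ m ∈ Finset.Ico (1 + 1) n, (vq α (q / 8) m) ^ (1 / 2 + K * q) ≤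
          ∑ m ∈ Finset.Ico (1 + 1) n, q ^ 2 * ((m - 1 : ℕ) : ℝ) ^ (-(1 + K * q)) := by
        apply Finset.sum_le_sum
        intro m hm
        rw [Finset.mem_Ico] at hm
        exact hrest m (by omega)
      have h2 : ∑ m ∈ Finset.Ico (1 + 1) n, q ^ 2 * ((m - 1 : ℕ) : ℝ) ^ (-(1 + K * q)) =
          q ^ 2 * ∑ j ∈ Finset.Ico 1 (n - 1), (j : ℝ) ^ (-(1 + K * q)) := by
        rw [Finset.mul_sum]
        have e : Finset.Ico (1 + 1) n = Finset.Ico (1 + 1) (n - 1 + 1) := by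
          congr 1; omega
        rw [e, ← Finset.sum_Ico_add' (fun m : ℕ => q ^ 2 * ((m - 1 : ℕ) : ℝ) ^ (-(1 + K * q)))
          1 (n - 1) 1]
        apply Finset.sum_congr rfl
        intro j _
        simp
      have h3 := ug_sum hKq0 (n - 1)
      have h4 : q ^ 2 * ∑ j ∈ Finset.Ico 1 (n - 1), (j : ℝ) ^ (-(1 + K * q)) ≤
          q ^ 2 * (1 + 1 / (K * q)) := mul_le_mul_of_nonneg_left h3 (by positivity)
      have h5 : q ^ 2 * (1 + 1 / (K * q)) = q ^ 2 + q / K := by field_simp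
      have h6 : q ^ 2 ≤ q / K := by
        rw [le_div_iff₀ hK0]
        have : q * K ≤ 1 := by
          rw [le_div_iff₀ hK0] at hqK
          exact hqK
        nlinarith
      have h7 : 3 * q / K = q / K + (q / K + q / K) := by ring
      rw [h7]
      refine add_le_add hfirst ?_
      refine h1.trans ?_
      rw [h2]
      linarith
  rw [← Finset.sum_mul]
  calc (∑ m ∈ Finset.Ico 1 n, (vq α (q / 8) m) ^ (1 / 2 + K * q)) * C₄ ≤ (3 * q / K) * C₄ :=
        mul_le_mul_of_nonneg_right hcase (by linarith)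
    _ = 3 * C₄ * q / K := by ring

/-- `η = 1 - α`, `κ = η ^ (1 / 4) / 8`, `ζ = 1 / 2 + δ`, `δ = K η ^ (1 / 4)` with `K` large. -/
theorem params_up (C₄ C₆ : ℝ) (hC₄ : 1 ≤ C₄) (hC₆ : 0 ≤ C₆) : ∃ K α₀ : ℝ, 0 < K ∧ 1 / 2 ≤ α₀ ∧
    α₀ < 1 ∧ ∀ α : ℝ, α₀ ≤ α → α < 1 → 3 / 4 + K * (1 - α) ^ (1 / 4 : ℝ) ≤ 1 ∧
      ∃ ζ κ S ε : ℝ, 1 / 2 ≤ ζ ∧ ζ ≤ 3 / 4 ∧ 0 < κ ∧ κ ≤ 1 / 8 ∧ 0 ≤ S ∧ S ≤ 1 / 2 ∧ 0 < ε ∧
        (∀ n : ℕ, ∑ m ∈ Finset.Ico 1 n, (vq α κ m) ^ ζ * C₄ ≤ S) ∧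
        ∀ a B : ℝ, 1 / 2 ≤ a → a ≤ 1 → 3 / 4 + K * (1 - α) ^ (1 / 4 : ℝ) ≤ B → B ≤ 1 →
          (Real.exp (-(ζ * a * (B - (1 + ζ) / 2))) + C₆ * (κ + (1 - α) / κ ^ 2))
            + 2 * C₄ * S + ε ≤ 1 := by
  obtain ⟨K, hKdef⟩ : ∃ K : ℝ, K = 20 * C₄ + 16 * C₆ := ⟨_, rfl⟩
  have hK : 20 ≤ K := by linarith
  have hK0 : 0 < K := by linarith
  have hq0pos : 0 < 1 / (24 * K ^ 2) := by positivity
  have hq0le : 1 / (24 * K ^ 2) ≤ 1 / 9600 := by
    apply one_div_le_one_div_of_le (by norm_num)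
    nlinarith
  have hq04 : (1 / (24 * K ^ 2)) ^ 4 ≤ 1 / 2 := by
    calc (1 / (24 * K ^ 2)) ^ 4 ≤ (1 / 9600) ^ 4 := pow_le_pow_left₀ hq0pos.le hq0le 4
      _ ≤ 1 / 2 := by norm_num
  refine ⟨K, 1 - (1 / (24 * K ^ 2)) ^ 4, hK0, by linarith, ?_, ?_⟩
  · have : 0 < (1 / (24 * K ^ 2)) ^ 4 := by positivity
    linarith
  intro α hα hα1
  obtain ⟨q, hqdef⟩ : ∃ q : ℝ, q = (1 - α) ^ (1 / 4 : ℝ) := ⟨_, rfl⟩
  have hη : 0 < 1 - α := by linarith
  have hq : 0 < q := by rw [hqdef]; positivity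
  have hq4 : q ^ 4 = 1 - α := by
    rw [hqdef, ← Real.rpow_natCast, ← Real.rpow_mul hη.le]
    norm_num
  have hq0 : q ≤ 1 / (24 * K ^ 2) := by
    by_contra hcon
    push Not at hcon
    have : (1 / (24 * K ^ 2)) ^ 4 < q ^ 4 := pow_lt_pow_left₀ hcon hq0pos.le (by norm_num)
    linarith
  have hKq : K * q ≤ 1 / 480 := by
    have h1 : K * q ≤ K * (1 / (24 * K ^ 2)) := mul_le_mul_of_nonneg_left hq0 hK0.le
    have h2 : K * (1 / (24 * K ^ 2)) = 1 / (24 * K) := by field_simp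
    have h3 : 1 / (24 * K) ≤ 1 / 480 := by
      apply one_div_le_one_div_of_le <;> linarith
    linarith
  have hKq0 : 0 < K * q := by positivity
  have hq9600 : q ≤ 1 / 9600 := hq0.trans hq0le
  rw [← hqdef]
  refine ⟨by linarith, 1 / 2 + K * q, q / 8, 3 * C₄ * q / K, K * q / 64, by linarith, by linarith,
    by positivity, by linarith, by positivity, ?_, by positivity,
    fun n => pu_sum hC₄ hK hq hq0 hq4 n, ?_⟩
  · rw [div_le_iff₀ hK0]
    nlinarith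
  · intro a B ha ha1 hB hB1
    have hy : K * q / 8 ≤ (1 / 2 + K * q) * a * (B - (1 + (1 / 2 + K * q)) / 2) := by
      have h1 : K * q / 2 ≤ B - (1 + (1 / 2 + K * q)) / 2 := by linarith
      have h2 : 1 / 4 ≤ (1 / 2 + K * q) * a := by nlinarith
      have h3 : (1 / 4) * (K * q / 2) ≤ (1 / 2 + K * q) * a * (B - (1 + (1 / 2 + K * q)) / 2) :=
        mul_le_mul h2 h1 (by positivity) (by linarith)
      linarith
    have hexp := pu_exp hy (by positivity) (by linarith)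
    have hκ : q / 8 + (1 - α) / (q / 8) ^ 2 ≤ q / 4 := by
      rw [← hq4]
      have : q ^ 4 / (q / 8) ^ 2 = 64 * q ^ 2 := by field_simp; norm_num
      rw [this]
      nlinarith
    have hC : C₆ * (q / 8 + (1 - α) / (q / 8) ^ 2) ≤ C₆ * (q / 4) :=
      mul_le_mul_of_nonneg_left hκ hC₆
    have hC6K : C₆ * (q / 4) ≤ K * q / 64 := by nlinarith
    have hC4K : 2 * C₄ * (3 * C₄ * q / K) ≤ K * q / 64 := by
      have e : 2 * C₄ * (3 * C₄ * q / K) = 6 * C₄ ^ 2 * q / K := by ring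
      rw [e, div_le_iff₀ hK0]
      have h1 : (20 * C₄) ^ 2 ≤ K ^ 2 := by
        apply pow_le_pow_left₀ (by linarith)
        linarith
      nlinarith
    have : 1 - K * q / 8 / 2 + K * q / 64 + K * q / 64 + K * q / 64 ≤ 1 := by linarith
    linarith

end Pool.Agent.Lib.MP_3d9a2b_pr
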