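import Pool.Agent.Lib.MP_3d9a2b_pr.V.Recur2
import Pool.Agent.Lib.MP_3d9a2b_pr.V.Gauss2
import Pool.Agent.Lib.MP_3d9a2b_pr.V.ParamsUp
import Pool.Agent.Lib.MP_3d9a2b_pr.U.Slope

set_option autoImplicit false

/-! Task VC4: the free energy vanishes above the line of slope `3 / 4 + K (1 - α) ^ (1 / 4)`. -/

namespace Pool.Agent.Lib.MP_3d9a2b_pr

open MeasureTheory ProbabilityTheory Filter Topology
open scoped NNReal ENNReal

section
variable {α : ℝ} {Ω Ω' : Type} [MeasurableSpace Ω] [MeasurableSpace Ω'] {P : Measure Ω}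
  {P' : Measure Ω'} [IsProbabilityMeasure P] [IsProbabilityMeasure P'] (M : Model α P P')

/-- fractional moment of the partition function -/
theorem vc4_lintegral_Z_rpow_le {lam h θ ζ D : ℝ} (hlam : 0 < lam) (hh : 0 ≤ h) (hθ : 0 < θ)
    (hζ0 : 0 < ζ) (hζ1 : ζ ≤ 1) (n : ℕ)
    (Y : (ℕ → ℝ) → ℝ) (hYm0 : Measurable Y) (hY0 : ∀ x, 1 / 2 ≤ Y x)
    (hpart : ∀ x, ∫ ω', ∏ j ∈ Finset.range n, psi (lam ^ 2 * θ) (M.pp θ j ω') (x j) ∂P' ≤ Y x)
    (hD : ∫⁻ x, ENNReal.ofReal ((Y x) ^ ζ) ∂nuX (lam ^ 2 * θ) (h / lam) ≤ ENNReal.ofReal D) :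
    ∫⁻ ω, ENNReal.ofReal ((M.Z lam h (θ * n) ω) ^ ζ) ∂P ≤ ENNReal.ofReal D := by
  set a := lam ^ 2 * θ with ha
  have ha0 : 0 < a := by positivity
  have ht : 0 ≤ θ * n := by positivity
  have hXm := measurable_X M lam h θ
  set W : Ω → ℝ := fun ω => Y (M.X lam h θ ω) with hW
  have hYm : Measurable W := hYm0.comp hXm
  have hY2 : ∀ ω, 1 / 2 ≤ W ω := fun ω => hY0 _
  have hYp : ∀ ω, 0 < W ω := fun ω => lt_of_lt_of_le (by norm_num) (hY2 ω)
  -- the moment of `Y`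
  have hYD : ∫⁻ ω, ENNReal.ofReal (W ω ^ ζ) ∂P ≤ ENNReal.ofReal D := by
    refine le_trans (le_of_eq ?_) hD
    rw [← law_X M hlam hθ, lintegral_map _ hXm]
    exact (hYm0.pow_const ζ).ennreal_ofReal
  have hZ0 : ∀ ω, 0 ≤ M.Z lam h (θ * n) ω := fun ω => integral_nonneg fun _ => (Real.exp_pos _).le
  have hFi := lzF_integrable M hlam hh ht (h := h) (t := θ * n)
  have hFm := lzF_measurable M lam h (θ * n) ht
  -- the mixed term
  have hmix : ∫⁻ ω, ENNReal.ofReal (W ω ^ (ζ - 1) * M.Z lam h (θ * n) ω) ∂P ≤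
      ENNReal.ofReal D := by
    set g : (ℕ → ℝ) → ℝ := fun x => (Y x) ^ (ζ - 1) with hg
    have hgm : Measurable g := hYm0.pow_const _
    have hg0 : ∀ x, 0 ≤ g x := fun x =>
      Real.rpow_nonneg (le_trans (by norm_num) (hY0 x)) _
    have hgC : ∀ x, g x ≤ (1 / 2 : ℝ) ^ (ζ - 1) := fun x =>
      Real.rpow_le_rpow_of_nonpos (by norm_num) (hY0 x) (by linarith)
    have hco := coarse M (h := h) hlam hθ n g hgm hg0 _ hgC
    have hm1 : Measurable (fun q : Ω × Ω' => ENNReal.ofReal (g (M.X lam h θ q.1) *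
        Real.exp (-2 * lam * (M.J (θ * n) q.1 q.2 + h * M.T (θ * n) q.2)))) :=
      ((hgm.comp (hXm.comp measurable_fst)).mul hFm).ennreal_ofReal
    have hm2 : Measurable (fun q : Ω × Ω' => ENNReal.ofReal (g (M.X lam h θ q.1) *
        ∏ j ∈ Finset.range n, psi a (M.pp θ j q.2) (M.X lam h θ q.1 j))) :=
      ((hgm.comp (hXm.comp measurable_fst)).mul
        (uj_measurable_prod M hθ n a)).ennreal_ofReal
    calc ∫⁻ ω, ENNReal.ofReal (W ω ^ (ζ - 1) * M.Z lam h (θ * n) ω) ∂P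
        = ∫⁻ ω, ∫⁻ ω', ENNReal.ofReal (g (M.X lam h θ ω) *
          Real.exp (-2 * lam * (M.J (θ * n) ω ω' + h * M.T (θ * n) ω'))) ∂P' ∂P := by
          refine lintegral_congr_ae ?_
          filter_upwards [hFi.prod_right_ae] with ω hω
          have h3 : Integrable (fun ω' => g (M.X lam h θ ω) *
              Real.exp (-2 * lam * (M.J (θ * n) ω ω' + h * M.T (θ * n) ω'))) P' :=
            Integrable.const_mul hω _
          rw [← ofReal_integral_eq_lintegral_ofReal h3 (ae_of_all _ fun ω' =>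
            mul_nonneg (hg0 _) (Real.exp_pos _).le), integral_const_mul]
          rfl
      _ = ∫⁻ ω', ∫⁻ ω, ENNReal.ofReal (g (M.X lam h θ ω) *
          Real.exp (-2 * lam * (M.J (θ * n) ω ω' + h * M.T (θ * n) ω'))) ∂P ∂P' :=
          lintegral_lintegral_swap hm1.aemeasurable
      _ ≤ ∫⁻ ω', ∫⁻ ω, ENNReal.ofReal (g (M.X lam h θ ω) *
          ∏ j ∈ Finset.range n, psi a (M.pp θ j ω') (M.X lam h θ ω j)) ∂P ∂P' :=
          lintegral_mono_ae hco
      _ = ∫⁻ ω, ∫⁻ ω', ENNReal.ofReal (g (M.X lam h θ ω) *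
          ∏ j ∈ Finset.range n, psi a (M.pp θ j ω') (M.X lam h θ ω j)) ∂P' ∂P :=
          (lintegral_lintegral_swap hm2.aemeasurable).symm
      _ ≤ ∫⁻ ω, ENNReal.ofReal (W ω ^ ζ) ∂P := by
          refine lintegral_mono fun ω => ?_
          have h3 : Integrable (fun ω' => g (M.X lam h θ ω) *
              ∏ j ∈ Finset.range n, psi a (M.pp θ j ω') (M.X lam h θ ω j)) P' :=
            (uj_integrable_prod M hθ n ha0.le _).const_mul _
          rw [← ofReal_integral_eq_lintegral_ofReal h3 (ae_of_all _ fun ω' =>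
            mul_nonneg (hg0 _) (Finset.prod_nonneg fun j _ => (uj_psi_pos _ _ _).le)),
            integral_const_mul]
          refine ENNReal.ofReal_le_ofReal ?_
          have h4 := hpart (M.X lam h θ ω)
          have h5 : W ω ^ (ζ - 1) * W ω = W ω ^ ζ := by
            nth_rewrite 2 [← Real.rpow_one (W ω)]
            rw [← Real.rpow_add (hYp ω)]; congr 1; ring
          rw [← h5]
          exact mul_le_mul_of_nonneg_left h4 (hg0 _)
      _ ≤ ENNReal.ofReal D := hYD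
  -- conclusion
  have hZm : Measurable (M.Z lam h (θ * n)) :=
    (StronglyMeasurable.integral_prod_right' (ν := P') (f := lzF M lam h (θ * n))
      hFm.stronglyMeasurable).measurable
  calc ∫⁻ ω, ENNReal.ofReal ((M.Z lam h (θ * n) ω) ^ ζ) ∂P
      ≤ ∫⁻ ω, (ENNReal.ofReal (1 - ζ) * ENNReal.ofReal (W ω ^ ζ) +
        ENNReal.ofReal ζ * ENNReal.ofReal (W ω ^ (ζ - 1) * M.Z lam h (θ * n) ω)) ∂P := by
        refine lintegral_mono fun ω => ?_
        rw [← ENNReal.ofReal_mul (by linarith), ← ENNReal.ofReal_mul hζ0.le,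
          ← ENNReal.ofReal_add]
        · exact ENNReal.ofReal_le_ofReal (uj_rpow_le (hZ0 ω) (hYp ω) hζ0.le hζ1)
        · exact mul_nonneg (by linarith) (Real.rpow_nonneg (hYp ω).le _)
        · exact mul_nonneg hζ0.le (mul_nonneg (Real.rpow_nonneg (hYp ω).le _) (hZ0 ω))
    _ = ENNReal.ofReal (1 - ζ) * ∫⁻ ω, ENNReal.ofReal (W ω ^ ζ) ∂P +
        ENNReal.ofReal ζ * ∫⁻ ω, ENNReal.ofReal (W ω ^ (ζ - 1) * M.Z lam h (θ * n) ω) ∂P := by
        have hm3 : Measurable fun ω => ENNReal.ofReal (W ω ^ (ζ - 1) * M.Z lam h (θ * n) ω) :=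
          ((hYm.pow_const (ζ - 1)).mul hZm).ennreal_ofReal
        rw [lintegral_add_left ((hYm.pow_const ζ).ennreal_ofReal.const_mul _),
          lintegral_const_mul _ (hYm.pow_const ζ).ennreal_ofReal, lintegral_const_mul _ hm3]
    _ ≤ ENNReal.ofReal (1 - ζ) * ENNReal.ofReal D + ENNReal.ofReal ζ * ENNReal.ofReal D := by
        gcongr
    _ = ENNReal.ofReal D := by
        rw [← add_mul, ← ENNReal.ofReal_add (by linarith) hζ0.le]
        simp

/-- as `integral_log_Z_le` (U/FinalU.lean), for an arbitrary upper bound `Y` instead of `YY` -/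
theorem integral_log_Z_le2 {lam h θ ζ D : ℝ} (hlam : 0 < lam) (hh : 0 ≤ h) (hθ : 0 < θ)
    (h0 : 0 < α) (h1 : α < 1) (hζ0 : 0 < ζ) (hζ1 : ζ ≤ 1) (hD0 : 0 ≤ D) (n : ℕ)
    (Y : (ℕ → ℝ) → ℝ) (hYm : Measurable Y) (hY : ∀ x, 1 / 2 ≤ Y x)
    (hpart : ∀ x, ∫ ω', ∏ j ∈ Finset.range n, psi (lam ^ 2 * θ) (M.pp θ j ω') (x j) ∂P' ≤ Y x)
    (hD : ∫⁻ x, ENNReal.ofReal ((Y x) ^ ζ) ∂nuX (lam ^ 2 * θ) (h / lam) ≤ ENNReal.ofReal D) :
    ∫ ω, Real.log (M.Z lam h (θ * n) ω) ∂P ≤ D / ζ := by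
  have ht : 0 ≤ θ * n := by positivity
  have hZ0 : ∀ ω, 0 ≤ M.Z lam h (θ * n) ω := fun ω => integral_nonneg fun _ => (Real.exp_pos _).le
  have hFm := lzF_measurable M lam h (θ * n) ht
  have hZm : Measurable (M.Z lam h (θ * n)) :=
    (StronglyMeasurable.integral_prod_right' (ν := P') (f := lzF M lam h (θ * n))
      hFm.stronglyMeasurable).measurable
  have h2 := vc4_lintegral_Z_rpow_le M hlam hh hθ hζ0 hζ1 n Y hYm hY hpart hD
  have h3 : Integrable (fun ω => (M.Z lam h (θ * n) ω) ^ ζ) P := by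
    refine (lintegral_ofReal_ne_top_iff_integrable (hZm.pow_const ζ).aestronglyMeasurable
      (ae_of_all _ fun ω => Real.rpow_nonneg (hZ0 ω) _)).1 ?_
    exact ne_top_of_le_ne_top ENNReal.ofReal_ne_top h2
  have h4 : ∫ ω, (M.Z lam h (θ * n) ω) ^ ζ ∂P ≤ D := by
    rw [← ofReal_integral_eq_lintegral_ofReal h3 (ae_of_all _ fun ω =>
      Real.rpow_nonneg (hZ0 ω) _)] at h2
    exact (ENNReal.ofReal_le_ofReal_iff hD0).1 h2
  calc ∫ ω, Real.log (M.Z lam h (θ * n) ω) ∂P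
      ≤ ∫ ω, (M.Z lam h (θ * n) ω) ^ ζ / ζ ∂P :=
        integral_mono (integrable_log_Z M hlam hh ht) (h3.div_const ζ)
          fun ω => Real.log_le_rpow_div (hZ0 ω) hζ0
    _ = (∫ ω, (M.Z lam h (θ * n) ω) ^ ζ ∂P) / ζ := integral_div _ _
    _ ≤ D / ζ := by gcongr

end

/-- uniform bound of the averaged logarithm above the line of slope
`3 / 4 + K (1 - α) ^ (1 / 4)` -/
theorem vc4_upper : ∃ K α₀ : ℝ, 0 < K ∧ 1 / 2 ≤ α₀ ∧ α₀ < 1 ∧ ∀ α : ℝ, α₀ ≤ α → α < 1 →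
    ∀ {Ω Ω' : Type} [MeasurableSpace Ω] [MeasurableSpace Ω'] (P : Measure Ω) (P' : Measure Ω')
      [IsProbabilityMeasure P] [IsProbabilityMeasure P'] (M : Model α P P') (lam h : ℝ),
      0 < lam → (3 / 4 + K * (1 - α) ^ (1 / 4 : ℝ)) * lam ≤ h →
      ∃ C : ℝ, ∀ᶠ t in atTop, ∫ ω, Real.log (M.Z lam h t ω) ∂P ≤ C := by
  obtain ⟨C₄, C₆, hC₄, hC₆, hg⟩ := gauss2
  obtain ⟨K, α₀, hK, hα₀, hα₀', hpar⟩ := params_up C₄ C₆ hC₄ hC₆
  refine ⟨K, α₀, hK, hα₀, hα₀', ?_⟩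
  intro α h0 h1 Ω Ω' _ _ P P' _ _ M lam h hlam hh
  obtain ⟨hle, ζ, κ, S, ε, hζ, hζ1, hκ, hκ1, hS0, hS, hε, hq, hrest⟩ := hpar α h0 h1
  have hα : 1 / 2 ≤ α := hα₀.trans h0
  have hpow : 0 ≤ (1 - α) ^ (1 / 4 : ℝ) := Real.rpow_nonneg (by linarith) _
  set s := 3 / 4 + K * (1 - α) ^ (1 / 4 : ℝ) with hs
  have hs34 : 3 / 4 ≤ s := by
    have : 0 ≤ K * (1 - α) ^ (1 / 4 : ℝ) := by positivity
    linarith
  have hs0 : 0 < s := by linarith
  set h₁ := min h lam with hh₁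
  have hh₁0 : 0 ≤ h₁ := le_min (le_trans (by positivity) hh) hlam.le
  have hh₁s : s * lam ≤ h₁ := le_min hh (by nlinarith)
  refine ⟨2 * C₄ / ε / ζ, ?_⟩
  filter_upwards [eventually_ge_atTop (1 / lam ^ 2), eventually_gt_atTop 0] with t ht1 ht0
  have hr1 : 1 ≤ lam ^ 2 * t := by
    rw [div_le_iff₀ (by positivity)] at ht1
    linarith
  set n := ⌈lam ^ 2 * t⌉₊ with hn
  have hn1 : lam ^ 2 * t ≤ n := Nat.le_ceil _
  have hn2 : (n : ℝ) < lam ^ 2 * t + 1 := Nat.ceil_lt_add_one (by linarith)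
  have hn0 : (0 : ℝ) < n := by linarith
  have hn3 : 1 ≤ n := by exact_mod_cast hn0
  set θ := t / n with hθ
  have hθ0 : 0 < θ := by positivity
  have hθn : θ * n = t := by rw [hθ]; field_simp
  have ha1 : lam ^ 2 * θ ≤ 1 := by
    rw [hθ, ← mul_div_assoc, div_le_iff₀ hn0]
    linarith
  have ha2 : 1 / 2 ≤ lam ^ 2 * θ := by
    rw [hθ, ← mul_div_assoc, le_div_iff₀ hn0]
    linarith
  have hB1 : s ≤ h₁ / lam := by rw [le_div_iff₀ hlam]; exact hh₁s
  have hB2 : h₁ / lam ≤ 1 := by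
    rw [div_le_one hlam]
    exact min_le_right _ _
  obtain ⟨g1, g2⟩ := hg (lam ^ 2 * θ) (h₁ / lam) ζ ha2 ha1 hζ (by linarith) hB2
  have hfr := frac_rec2 (a := lam ^ 2 * θ) (κ := κ) (α := α) (B := h₁ / lam) (ζ := ζ)
    (ρ := Real.exp (-(ζ * (lam ^ 2 * θ) * (h₁ / lam - (1 + ζ) / 2))) +
      C₆ * (κ + (1 - α) / κ ^ 2)) (C₄ := C₄) (S := S) (ε := ε) (by linarith) hα h1 hκ
    (by linarith) (by linarith) (by
      have : 0 ≤ C₆ * (κ + (1 - α) / κ ^ 2) := by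
        have : 0 ≤ (1 - α) / κ ^ 2 := div_nonneg (by linarith) (by positivity)
        positivity
      have := Real.exp_pos (-(ζ * (lam ^ 2 * θ) * (h₁ / lam - (1 + ζ) / 2)))
      linarith) hC₄ hS0 hS hε g1 (g2 κ (1 - α) hκ hκ1 (by linarith) (by linarith)) hq
    (hrest _ _ ha2 ha1 hB1 hB2) n
  have hmain := integral_log_Z_le2 M hlam hh₁0 hθ0 (by linarith) h1 (by linarith)
    (by linarith : ζ ≤ 1) (by positivity) n
    (vY (lam ^ 2 * θ) κ α true n) (measurable_vY _ _ _ _ _)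
    (fun x => vY_ge_half (by positivity) hκ (by linarith) h1 true hn3 x)
    (fun x => partition2 M hα h1 hθ0 (by positivity) hκ (by linarith) hn3 x) hfr
  rw [hθn] at hmain
  have hh0 : 0 ≤ h := le_trans (by positivity) hh
  exact (integral_mono_ae (integrable_log_Z M hlam hh0 ht0.le)
    (integrable_log_Z M hlam hh₁0 ht0.le)
    (log_Z_anti M hlam hh₁0 (min_le_left _ _) ht0.le)).trans hmain

theorem deloc2 : ∃ K α₀ : ℝ, 0 < K ∧ 1 / 2 ≤ α₀ ∧ α₀ < 1 ∧ ∀ α : ℝ, α₀ ≤ α → α < 1 →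
    ∀ {Ω Ω' : Type} [MeasurableSpace Ω] [MeasurableSpace Ω'] (P : Measure Ω) (P' : Measure Ω')
      [IsProbabilityMeasure P] [IsProbabilityMeasure P'] (M : Model α P P') (lam h : ℝ),
      0 < lam → (3 / 4 + K * (1 - α) ^ (1 / 4 : ℝ)) * lam ≤ h →
      Tendsto (fun t => 1 / t * ∫ ω, Real.log (M.Z lam h t ω) ∂P) atTop (𝓝 0) := by
  obtain ⟨K, α₀, hK, hα₀, hα₀', hdel⟩ := vc4_upper
  refine ⟨K, α₀, hK, hα₀, hα₀', ?_⟩
  intro α hαα₀ h1 Ω Ω' _ _ P P' _ _ M lam h hlam hup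
  have hα : 1 / 2 ≤ α := hα₀.trans hαα₀
  have h0 : 0 < α := by linarith
  obtain ⟨C, hC⟩ := hdel α hαα₀ h1 P P' M lam h hlam hup
  have hpow : 0 ≤ (1 - α) ^ (1 / 4 : ℝ) := Real.rpow_nonneg (by linarith) _
  have hh' : 1 / (1 + α) * lam ≤ h := by
    refine le_trans ?_ hup
    have h3 : 1 / (1 + α) ≤ 3 / 4 := by
      rw [div_le_iff₀ (by linarith)]
      linarith
    have h4 : 0 ≤ K * (1 - α) ^ (1 / 4 : ℝ) := by positivity
    gcongr
    linarith
  obtain ⟨C', hC'⟩ := integral_log_Z_lower h0 h1 P P' M hlam hh'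
  have hlam2 : 0 < lam ^ 2 := by positivity
  have hT : Tendsto (fun t => Real.log (lam ^ 2 * t) / t) atTop (𝓝 0) := by
    have h2 := (Real.tendsto_pow_log_div_mul_add_atTop (1 / lam ^ 2) 0 1
      (by positivity : 1 / lam ^ 2 ≠ 0)).comp (tendsto_id.const_mul_atTop hlam2)
    refine h2.congr fun t => ?_
    simp only [Function.comp_apply, id, pow_one, add_zero]
    congr 1
    field_simp
  have hI : Tendsto (fun t : ℝ => t⁻¹) atTop (𝓝 0) := tendsto_inv_atTop_zero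
  have hlo : Tendsto (fun t => - ((1 + α) * (Real.log (lam ^ 2 * t) / t) + C' * t⁻¹))
      atTop (𝓝 0) := by
    have := ((hT.const_mul (1 + α)).add (hI.const_mul C')).neg
    simpa using this
  have hhi : Tendsto (fun t : ℝ => C * t⁻¹) atTop (𝓝 0) := by
    simpa using hI.const_mul C
  refine tendsto_of_tendsto_of_tendsto_of_le_of_le' hlo hhi ?_ ?_
  · filter_upwards [hC', eventually_gt_atTop 0] with t h3 ht
    have e : - ((1 + α) * (Real.log (lam ^ 2 * t) / t) + C' * t⁻¹) =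
        1 / t * (- ((1 + α) * Real.log (lam ^ 2 * t) + C')) := by
      field_simp
    rw [e]
    gcongr
  · filter_upwards [hC, eventually_gt_atTop 0] with t h3 ht
    rw [one_div, mul_comm]
    gcongr

end Pool.Agent.Lib.MP_3d9a2b_pr
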