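import Mathlib

set_option autoImplicit false

/-! Task VI1: stochastic domination of product measures. -/

namespace Pool.Agent.Lib.MP_3d9a2b_pr

open MeasureTheory ProbabilityTheory Filter Topology
open scoped NNReal ENNReal

private theorem dom_layer (F : ℕ → ℝ≥0∞) (hF : Monotone F) (t : ℕ) :
    F t = F 0 + ∑' k : ℕ, (F (k + 1) - F k) * ({t : ℕ | k + 1 ≤ t}.indicator (fun _ => (1 : ℝ≥0∞)) t) := by
  have h1 : ∀ t : ℕ, F t = F 0 + ∑ k ∈ Finset.range t, (F (k + 1) - F k) := by
    intro t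
    induction t with
    | zero => simp
    | succ n ih =>
      rw [Finset.sum_range_succ, ← add_assoc, ← ih]
      exact (add_tsub_cancel_of_le (hF (Nat.le_succ n))).symm
  rw [tsum_eq_sum (s := Finset.range t)]
  · rw [h1 t]
    congr 1
    apply Finset.sum_congr rfl
    intro k hk
    rw [Finset.mem_range] at hk
    rw [Set.indicator_of_mem (show t ∈ {t : ℕ | k + 1 ≤ t} from hk), mul_one]
  · intro k hk
    rw [Finset.mem_range, not_lt] at hk
    rw [Set.indicator_of_notMem (show t ∉ {t : ℕ | k + 1 ≤ t} by simp; omega), mul_zero]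

private theorem dom_formula (μ : Measure ℕ) [IsProbabilityMeasure μ] (F : ℕ → ℝ≥0∞)
    (hF : Monotone F) :
    ∫⁻ t, F t ∂μ = F 0 + ∑' k : ℕ, (F (k + 1) - F k) * μ {t | k + 1 ≤ t} := by
  rw [lintegral_congr (dom_layer F hF), lintegral_add_left measurable_const, lintegral_const,
    measure_univ, mul_one, lintegral_tsum (fun k => (measurable_of_countable _).aemeasurable)]
  congr 1
  apply tsum_congr
  intro k
  rw [lintegral_const_mul _ (measurable_of_countable _),
    lintegral_indicator (MeasurableSet.of_discrete), setLIntegral_one]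

/-- one coordinate: an upper set of `ℕ` is empty or of the form `{t | a ≤ t}` -/
theorem dom_lintegral (μ₁ μ₂ : Measure ℕ) [IsProbabilityMeasure μ₁] [IsProbabilityMeasure μ₂]
    (h : ∀ a : ℕ, μ₁ {t | a ≤ t} ≤ μ₂ {t | a ≤ t}) (F : ℕ → ℝ≥0∞) (hF : Monotone F) :
    ∫⁻ t, F t ∂μ₁ ≤ ∫⁻ t, F t ∂μ₂ := by
  rw [dom_formula μ₁ F hF, dom_formula μ₂ F hF]
  exact add_le_add le_rfl (ENNReal.tsum_le_tsum fun k => mul_le_mul' le_rfl (h (k + 1)))

private theorem dom_pi_succ (M : ℕ) (μ : Measure ℕ) [IsProbabilityMeasure μ]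
    (U : Set (Fin (M + 1) → ℕ)) :
    Measure.pi (fun _ : Fin (M + 1) => μ) U =
      ∫⁻ x, Measure.pi (fun _ : Fin M => μ) {y | (Fin.cons x y : Fin (M + 1) → ℕ) ∈ U} ∂μ := by
  have h := measurePreserving_piFinSuccAbove (fun _ : Fin (M + 1) => μ) 0
  have h2 := h.symm
  have hU : MeasurableSet U := (Set.to_countable U).measurableSet
  rw [← h2.measure_preimage hU.nullMeasurableSet]
  rw [Measure.prod_apply (MeasurableEquiv.measurable _ hU)]
  apply lintegral_congr
  intro x
  congr 1
  ext y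
  have h3 : (MeasurableEquiv.piFinSuccAbove (fun _ : Fin (M + 1) => ℕ) 0).symm (x, y)
      = (Fin.cons x y : Fin (M + 1) → ℕ) := by
    exact Fin.insertNth_zero' x y
  simp only [Set.mem_preimage, Set.mem_setOf_eq, h3]

/-- induction on `M` (Fubini) -/
theorem dom_pi (M : ℕ) (μ₁ μ₂ : Measure ℕ) [IsProbabilityMeasure μ₁] [IsProbabilityMeasure μ₂]
    (h : ∀ a : ℕ, μ₁ {t | a ≤ t} ≤ μ₂ {t | a ≤ t}) (U : Set (Fin M → ℕ)) (hU : IsUpperSet U) :
    Measure.pi (fun _ : Fin M => μ₁) U ≤ Measure.pi (fun _ : Fin M => μ₂) U := by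
  induction M with
  | zero =>
    rw [Measure.pi_of_empty (fun _ : Fin 0 => μ₁), Measure.pi_of_empty (fun _ : Fin 0 => μ₂)]
  | succ n ih =>
    rw [dom_pi_succ, dom_pi_succ]
    calc ∫⁻ x, Measure.pi (fun _ : Fin n => μ₁) {y | (Fin.cons x y : Fin (n + 1) → ℕ) ∈ U} ∂μ₁
        ≤ ∫⁻ x, Measure.pi (fun _ : Fin n => μ₂) {y | (Fin.cons x y : Fin (n + 1) → ℕ) ∈ U} ∂μ₁ := by
          apply lintegral_mono
          intro x
          apply ih
          intro y y' hyy hy
          refine hU ?_ hy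
          intro i
          refine Fin.cases ?_ (fun j => ?_) i
          · simp
          · simpa using hyy j
      _ ≤ ∫⁻ x, Measure.pi (fun _ : Fin n => μ₂) {y | (Fin.cons x y : Fin (n + 1) → ℕ) ∈ U} ∂μ₂ := by
          apply dom_lintegral μ₁ μ₂ h
          intro x x' hxx
          apply measure_mono
          intro y hy
          refine hU ?_ hy
          intro i
          refine Fin.cases ?_ (fun j => ?_) i
          · simpa using hxx
          · simp

end Pool.Agent.Lib.MP_3d9a2b_pr
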