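import Pool.Agent.Lib.MP_3d9a2b_pr.V.Defs
import Pool.Agent.Lib.MP_3d9a2b_pr.Jensen

set_option autoImplicit false

/-! Task VE2: average over the signs, the bits of the selected excursions being tilted. -/

namespace Pool.Agent.Lib.MP_3d9a2b_pr

open MeasureTheory ProbabilityTheory Filter Topology
open scoped NNReal ENNReal

/-- tilt of one bit: `exp (c ξ)`, normalised to have mean one -/
noncomputable def vtw (c : ℝ) (b : Bool) : ℝ := 2 * (if b = true then Real.exp c else 1) /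
  (1 + Real.exp c)

namespace Model

variable {α : ℝ} {Ω Ω' : Type} [MeasurableSpace Ω] [MeasurableSpace Ω'] {P : Measure Ω}
  {P' : Measure Ω'} (M : Model α P P')

/-- the scenario, with the excursions `mi i`, `s i = true`, above the interface -/
noncomputable def wS (θ : ℝ) (p : ℕ → ℕ) (s : ℕ → Bool) (k : ℕ) (ω' : Ω') : ℝ :=
  M.iR θ p k ω' * ∏ i ∈ Finset.range k, (if s i = true then
    (if M.ξ (M.mi θ p ω' i) ω' = true then 0 else 1) else 1)

open Classical in
/-- the tilt of the bits of the selected excursions -/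
noncomputable def tilt (lam h t : ℝ) (sel : ℕ → Set Ω') (N₀ : ℕ) (ω : Ω) (ω' : Ω') : ℝ :=
  ∏ n ∈ Finset.range N₀, if ω' ∈ sel n then vtw (-2 * lam * M.yinc h t n ω ω') (M.ξ n ω') else 1

/-! ### Auxiliary lemmas on the bits -/

private noncomputable def x2WS (s : ℕ → Bool) (k : ℕ) (m : ℕ → ℕ) (b : ℕ → Bool) : ℝ :=
  ∏ i ∈ Finset.range k, (if s i = true then (if b (m i) = true then 0 else 1) else 1)

private theorem x2WS_nonneg (s : ℕ → Bool) (k : ℕ) (m : ℕ → ℕ) (b : ℕ → Bool) :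
    0 ≤ x2WS s k m b :=
  Finset.prod_nonneg fun i _ => by split_ifs <;> simp

private theorem x2WS_le_one (s : ℕ → Bool) (k : ℕ) (m : ℕ → ℕ) (b : ℕ → Bool) :
    x2WS s k m b ≤ 1 :=
  Finset.prod_le_one (fun i _ => by split_ifs <;> simp) (fun i _ => by split_ifs <;> simp)

private theorem x2WS_measurable (s : ℕ → Bool) (k : ℕ) :
    Measurable (fun q : (ℕ → ℕ) × (ℕ → Bool) => x2WS s k q.1 q.2) := by
  unfold x2WS
  apply Finset.measurable_prod
  intro i _
  have h0 : Measurable (fun q : (ℕ → ℕ) × (ℕ → Bool) => (q.1 i, q.2)) :=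
    ((measurable_pi_apply i).comp measurable_fst).prodMk measurable_snd
  have h1 : Measurable (fun q : (ℕ → ℕ) × (ℕ → Bool) => q.2 (q.1 i)) :=
    Measurable.comp (g := fun q : ℕ × (ℕ → Bool) => q.2 q.1) measurable_eval h0
  exact (measurable_of_countable (fun b : Bool =>
    if s i = true then (if b = true then (0 : ℝ) else 1) else 1)).comp h1

private theorem x2_bit [IsProbabilityMeasure P'] (n : ℕ) (g : Bool → ℝ) :
    ∫ ω', g (M.ξ n ω') ∂P' = (g true + g false) / 2 := by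
  have hm : ∀ b : Bool, MeasurableSet (M.ξ n ⁻¹' {b}) := fun b =>
    M.measurable_ξ n MeasurableSet.of_discrete
  have hr : ∀ b : Bool, P'.real (M.ξ n ⁻¹' {b}) = 1 / 2 := by
    intro b
    rw [measureReal_def, M.fair' n b]
    simp
  have h1 : ∀ ω', g (M.ξ n ω') = (M.ξ n ⁻¹' {true}).indicator (fun _ => g true) ω' +
      (M.ξ n ⁻¹' {false}).indicator (fun _ => g false) ω' := by
    intro ω'
    cases h : M.ξ n ω'
    · rw [Set.indicator_of_notMem (by simp [h]), Set.indicator_of_mem (by simp [h]), zero_add]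
    · rw [Set.indicator_of_mem (by simp [h]), Set.indicator_of_notMem (by simp [h]), add_zero]
  simp_rw [h1]
  rw [integral_add ((integrable_const _).indicator (hm true))
    ((integrable_const _).indicator (hm false)), integral_indicator_const _ (hm true),
    integral_indicator_const _ (hm false), hr, hr, smul_eq_mul, smul_eq_mul]
  ring

private theorem x2_prod [IsProbabilityMeasure P'] (S : Finset ℕ) (g : ℕ → Bool → ℝ) :
    ∫ ω', ∏ n ∈ S, g n (M.ξ n ω') ∂P' = ∏ n ∈ S, (g n true + g n false) / 2 := by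
  have hI : iIndepFun (fun n : S => M.ξ n) P' := M.iIndep_ξ.precomp Subtype.val_injective
  have h := hI.integral_fun_prod_comp (f := fun (n : S) (b : Bool) => g n b)
    (fun n => (M.measurable_ξ n).aemeasurable)
    (fun n => (measurable_of_countable _).aestronglyMeasurable)
  have h1 : ∀ ω', ∏ n ∈ S, g n (M.ξ n ω') = ∏ n : S, g n (M.ξ n ω') := fun ω' =>
    (Finset.prod_coe_sort S (fun n => g n (M.ξ n ω'))).symm
  simp_rw [h1]
  rw [h, ← Finset.prod_coe_sort S (fun n => (g n true + g n false) / 2)]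
  exact Finset.prod_congr rfl fun n _ => M.x2_bit n (g n)

private theorem x2_core [IsProbabilityMeasure P'] (s : ℕ → Bool) (k N₀ n : ℕ) (m : ℕ → ℕ)
    (v : ℕ → Bool → ℝ) (φ : Bool → ℝ)
    (hm : ∀ i < k, ∀ j < k, m i = m j → i = j)
    (hv : ∀ j, v j true + v j false = 2)
    (hd : ∀ j < N₀, (∃ i < k, s i = true ∧ m i = j) → ∀ b, v j b = 1)
    (hn : n < N₀ → ∀ b, v n b = 1) :
    ∫ ω', x2WS s k m (fun j => M.ξ j ω') * (∏ j ∈ Finset.range N₀, v j (M.ξ j ω')) *
        φ (M.ξ n ω') ∂P' =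
      (1 / 2) ^ ((Finset.range k).filter (fun i => s i = true)).card *
        (if ∃ i < k, s i = true ∧ m i = n then φ false else (φ true + φ false) / 2) := by
  classical
  set I : Finset ℕ := ((Finset.range k).filter (fun i => s i = true)).image m with hI
  have hIm : ∀ j, j ∈ I ↔ ∃ i < k, s i = true ∧ m i = j := by
    intro j
    rw [hI, Finset.mem_image]
    simp only [Finset.mem_filter, Finset.mem_range, and_assoc]
  have hIc : I.card = ((Finset.range k).filter (fun i => s i = true)).card := by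
    rw [hI]
    apply Finset.card_image_of_injOn
    intro i hi j hj hij
    simp only [Finset.coe_filter, Finset.mem_range, Set.mem_ofPred_eq] at hi hj
    exact hm i hi.1 j hj.1 hij
  set S : Finset ℕ := Finset.range N₀ ∪ I ∪ {n} with hS
  have hSI : S ∩ I = I := by
    rw [Finset.inter_eq_right, hS]
    intro j hj
    simp [hj]
  have hSN : S ∩ Finset.range N₀ = Finset.range N₀ := by
    rw [Finset.inter_eq_right, hS]
    intro j hj
    simp only [Finset.mem_union]
    exact Or.inl (Or.inl hj)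
  have hSn : n ∈ S := by
    rw [hS]
    simp
  have hint : ∀ ω', x2WS s k m (fun j => M.ξ j ω') * (∏ j ∈ Finset.range N₀, v j (M.ξ j ω')) *
        φ (M.ξ n ω') = ∏ j ∈ S, (if j ∈ I then (if M.ξ j ω' = true then (0 : ℝ) else 1) else 1) *
          (if j ∈ Finset.range N₀ then v j (M.ξ j ω') else 1) *
          (if j = n then φ (M.ξ j ω') else 1) := by
    intro ω'
    rw [Finset.prod_mul_distrib, Finset.prod_mul_distrib, Finset.prod_ite_mem,
      Finset.prod_ite_mem, hSI, hSN, Finset.prod_ite_eq', if_pos hSn, hI, Finset.prod_image]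
    · congr 2
      unfold x2WS
      rw [Finset.prod_filter]
    · intro i hi j hj hij
      simp only [Finset.coe_filter, Finset.mem_range, Set.mem_ofPred_eq] at hi hj
      exact hm i hi.1 j hj.1 hij
  simp_rw [hint]
  rw [M.x2_prod S (fun j b => (if j ∈ I then (if b = true then (0 : ℝ) else 1) else 1) *
          (if j ∈ Finset.range N₀ then v j b else 1) * (if j = n then φ b else 1))]
  have h2 : ∀ j ∈ S, ((if j ∈ I then (if true = true then (0 : ℝ) else 1) else 1) *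
          (if j ∈ Finset.range N₀ then v j true else 1) * (if j = n then φ true else 1) +
        (if j ∈ I then (if false = true then (0 : ℝ) else 1) else 1) *
          (if j ∈ Finset.range N₀ then v j false else 1) * (if j = n then φ false else 1)) / 2 =
      (if j ∈ I then (1 / 2 : ℝ) else 1) *
        (if j = n then (if ∃ i < k, s i = true ∧ m i = n then φ false else (φ true + φ false) / 2)
          else 1) := by
    intro j _
    have e1 : j ∈ I → ∀ b, (if j ∈ Finset.range N₀ then v j b else 1) = 1 := by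
      intro hj b
      split_ifs with hjN
      · exact hd j (Finset.mem_range.1 hjN) ((hIm j).1 hj) b
      · rfl
    have e2 : j = n → ∀ b, (if j ∈ Finset.range N₀ then v j b else 1) = 1 := by
      intro hj b
      split_ifs with hjN
      · rw [hj] at hjN ⊢
        exact hn (Finset.mem_range.1 hjN) b
      · rfl
    have e3 : (if j ∈ Finset.range N₀ then v j true else 1) +
        (if j ∈ Finset.range N₀ then v j false else 1) = 2 := by
      split_ifs with hjN
      · exact hv j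
      · norm_num
    by_cases hj : j ∈ I
    · have hj' := (hIm j).1 hj
      rw [e1 hj true, e1 hj false]
      by_cases hjn : j = n
      · have hj'' : ∃ i < k, s i = true ∧ m i = n := by rw [← hjn]; exact hj'
        simp only [if_pos hj, if_pos hjn, if_pos hj'', if_true, Bool.false_eq_true, if_false]
        ring
      · simp only [if_pos hj, if_neg hjn, if_true, Bool.false_eq_true, if_false]
        ring
    · have hj' : ¬ ∃ i < k, s i = true ∧ m i = j := fun h => hj ((hIm j).2 h)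
      by_cases hjn : j = n
      · have hj'' : ¬ ∃ i < k, s i = true ∧ m i = n := by rw [← hjn]; exact hj'
        rw [e2 hjn true, e2 hjn false]
        simp only [if_neg hj, if_pos hjn, if_neg hj'']
        ring
      · simp only [if_neg hj, if_neg hjn, one_mul, mul_one]
        rw [e3]
        norm_num
  rw [Finset.prod_congr rfl h2, Finset.prod_mul_distrib, Finset.prod_ite_mem, hSI,
    Finset.prod_const, hIc, Finset.prod_ite_eq', if_pos hSn]

private theorem x2_freeze [IsProbabilityMeasure P'] (s : ℕ → Bool) (k N₀ n : ℕ) (f : Ω' → ℝ)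
    (m : Ω' → ℕ → ℕ) (v : Ω' → ℕ → Bool → ℝ) (φ : Bool → ℝ)
    (hf : Measurable[M.𝒢] f) (hm : Measurable[M.𝒢] m) (hv : Measurable[M.𝒢] v)
    (hfi : Integrable f P') (hvb : ∀ ω' j b, |v ω' j b| ≤ 2) (hφ : ∀ b, |φ b| ≤ 1)
    (hinj : ∀ ω', f ω' ≠ 0 → ∀ i < k, ∀ j < k, m ω' i = m ω' j → i = j)
    (hv2 : ∀ ω' j, v ω' j true + v ω' j false = 2)
    (hd : ∀ ω', f ω' ≠ 0 → ∀ j < N₀, (∃ i < k, s i = true ∧ m ω' i = j) → ∀ b, v ω' j b = 1)
    (hn : ∀ ω', f ω' ≠ 0 → n < N₀ → ∀ b, v ω' n b = 1) :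
    Integrable (fun ω' => f ω' * (x2WS s k (m ω') (fun j => M.ξ j ω') *
      (∏ j ∈ Finset.range N₀, v ω' j (M.ξ j ω')) * φ (M.ξ n ω'))) P' ∧
    ∫ ω', f ω' * (x2WS s k (m ω') (fun j => M.ξ j ω') *
      (∏ j ∈ Finset.range N₀, v ω' j (M.ξ j ω')) * φ (M.ξ n ω')) ∂P' =
     (1 / 2) ^ ((Finset.range k).filter (fun i => s i = true)).card *
      ∫ ω', f ω' * (if ∃ i < k, s i = true ∧ m ω' i = n then φ false else
        (φ true + φ false) / 2) ∂P' := by
  classical
  have hX : Measurable[M.𝒢] (fun ω' => (f ω', (m ω', v ω'))) := hf.prodMk (hm.prodMk hv)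
  have hF1 : Measurable (fun q : (ℝ × (ℕ → ℕ) × (ℕ → Bool → ℝ)) × (ℕ → Bool) =>
      x2WS s k q.1.2.1 q.2 * (∏ j ∈ Finset.range N₀, q.1.2.2 j (q.2 j)) * φ (q.2 n)) := by
    apply Measurable.mul
    · apply Measurable.mul
      · exact (x2WS_measurable s k).comp
          ((measurable_fst.comp (measurable_snd.comp measurable_fst)).prodMk measurable_snd)
      · apply Finset.measurable_prod
        intro j _
        have h1 : Measurable (fun q : (ℝ × (ℕ → ℕ) × (ℕ → Bool → ℝ)) × (ℕ → Bool) =>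
            (q.1.2.2 j, q.2 j)) := by
          refine Measurable.prodMk ?_ ?_
          · exact (measurable_pi_apply j).comp (measurable_snd.comp
              (measurable_snd.comp measurable_fst))
          · exact (measurable_pi_apply j).comp measurable_snd
        have h2 : Measurable (fun q : (Bool → ℝ) × Bool => q.1 q.2) := by
          have h3 : Measurable (fun q : Bool × (Bool → ℝ) => q.2 q.1) :=
            measurable_from_prod_countable_right fun b => measurable_pi_apply b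
          exact h3.comp (measurable_snd.prodMk measurable_fst)
        exact h2.comp h1
    · exact (measurable_of_countable φ).comp ((measurable_pi_apply n).comp measurable_snd)
  have hF : Measurable (fun q : (ℝ × (ℕ → ℕ) × (ℕ → Bool → ℝ)) × (ℕ → Bool) =>
      q.1.1 * (x2WS s k q.1.2.1 q.2 * (∏ j ∈ Finset.range N₀, q.1.2.2 j (q.2 j)) *
        φ (q.2 n))) := (measurable_fst.comp measurable_fst).mul hF1
  have hpair : Measurable (fun ω' => ((f ω', (m ω', v ω')), fun j => M.ξ j ω')) :=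
    (hX.mono M.𝒢_le le_rfl).prodMk M.measurable_bits
  have hGm : Measurable (fun ω' => x2WS s k (m ω') (fun j => M.ξ j ω') *
      (∏ j ∈ Finset.range N₀, v ω' j (M.ξ j ω')) * φ (M.ξ n ω')) := by
    exact hF1.comp hpair
  have hint : Integrable (fun ω' => f ω' * (x2WS s k (m ω') (fun j => M.ξ j ω') *
      (∏ j ∈ Finset.range N₀, v ω' j (M.ξ j ω')) * φ (M.ξ n ω'))) P' := by
    refine hfi.mul_bdd (c := 2 ^ N₀) hGm.aestronglyMeasurable (ae_of_all _ fun ω' => ?_)
    rw [Real.norm_eq_abs, abs_mul, abs_mul, abs_of_nonneg (x2WS_nonneg _ _ _ _), Finset.abs_prod]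
    have h1 : ∏ j ∈ Finset.range N₀, |v ω' j (M.ξ j ω')| ≤ 2 ^ N₀ := by
      calc ∏ j ∈ Finset.range N₀, |v ω' j (M.ξ j ω')| ≤ ∏ _j ∈ Finset.range N₀, (2 : ℝ) :=
            Finset.prod_le_prod (fun j _ => abs_nonneg _) (fun j _ => hvb ω' j _)
        _ = 2 ^ N₀ := by rw [Finset.prod_const, Finset.card_range]
    have h2 : 0 ≤ ∏ j ∈ Finset.range N₀, |v ω' j (M.ξ j ω')| :=
      Finset.prod_nonneg fun j _ => abs_nonneg _
    have h3 := x2WS_le_one s k (m ω') (fun j => M.ξ j ω')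
    have h4 := x2WS_nonneg s k (m ω') (fun j => M.ξ j ω')
    have h5 := hφ (M.ξ n ω')
    calc _ ≤ 1 * 2 ^ N₀ * 1 := mul_le_mul (mul_le_mul h3 h1 h2 zero_le_one) h5 (abs_nonneg _)
          (by positivity)
      _ = 2 ^ N₀ := by ring
  refine ⟨hint, ?_⟩
  have h := M.freeze (fun ω' => (f ω', (m ω', v ω'))) hX
    (fun q : (ℝ × (ℕ → ℕ) × (ℕ → Bool → ℝ)) × (ℕ → Bool) =>
      q.1.1 * (x2WS s k q.1.2.1 q.2 * (∏ j ∈ Finset.range N₀, q.1.2.2 j (q.2 j)) *
        φ (q.2 n))) hF hint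
  simp only at h
  rw [h, ← integral_const_mul]
  refine integral_congr_ae (ae_of_all _ fun ω' => ?_)
  simp only
  rw [integral_const_mul]
  by_cases hf0 : f ω' = 0
  · rw [hf0]; ring
  · rw [M.x2_core s k N₀ n (m ω') (v ω') φ (hinj ω' hf0) (hv2 ω') (hd ω' hf0) (hn ω' hf0)]
    ring

private theorem x2_cc (s : ℕ → Bool) (k : ℕ) (m : ℕ → ℕ) (n : ℕ)
    (hm : ∀ i < k, ∀ j < k, m i = m j → i = j) [Decidable (∃ i < k, s i = true ∧ m i = n)] :
    (cc (fun i => !(s i)) k m n + cc (fun _ => false) k m n) / 2 =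
      if ∃ i < k, s i = true ∧ m i = n then 0 else 1 / 2 := by
  have h1 : (cc (fun i => !(s i)) k m n + cc (fun _ => false) k m n) / 2 =
      1 / 2 + ∑ i ∈ Finset.range k, if m i = n then (if s i = true then (-(1 / 2) : ℝ) else 0)
        else 0 := by
    unfold cc
    have h2 : ∀ a b : ℝ, (1 / 2 + a + (1 / 2 + b)) / 2 = 1 / 2 + (a + b) / 2 := by
      intro a b; ring
    rw [h2, ← Finset.sum_add_distrib, Finset.sum_div]
    congr 1
    refine Finset.sum_congr rfl fun i _ => ?_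
    by_cases h3 : m i = n
    · rw [if_pos h3, if_pos h3, if_pos h3]
      cases h4 : s i
      · simp [h4]
      · simp [h4]
    · rw [if_neg h3, if_neg h3, if_neg h3]
      ring
  rw [h1]
  split_ifs with h
  · obtain ⟨i₀, hi₀, hs, hin⟩ := h
    rw [Finset.sum_eq_single i₀]
    · rw [if_pos hin, if_pos hs]
      ring
    · intro j hj hji
      rw [if_neg]
      intro hjn
      exact hji (hm j (by simpa using hj) i₀ hi₀ (hjn.trans hin.symm))
    · intro h
      exact absurd (Finset.mem_range.2 hi₀) h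
  · rw [Finset.sum_eq_zero, add_zero]
    intro i hi
    split_ifs with h2 h3
    · exact absurd ⟨i, Finset.mem_range.1 hi, h3, h2⟩ h
    · rfl
    · rfl

/-! ### The tilt -/

private theorem x2_vtw_sum (c : ℝ) : vtw c true + vtw c false = 2 := by
  unfold vtw
  have h : (1 + Real.exp c) ≠ 0 := by positivity
  simp only [if_true, Bool.false_eq_true, if_false]
  field_simp
  ring

private theorem x2_vtw_nonneg (c : ℝ) (b : Bool) : 0 ≤ vtw c b := by
  unfold vtw
  have h := Real.exp_pos c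
  split_ifs <;> positivity

private theorem x2_vtw_le (c : ℝ) (b : Bool) : vtw c b ≤ 2 := by
  unfold vtw
  have h := Real.exp_pos c
  rw [div_le_iff₀ (by positivity)]
  split_ifs <;> linarith

private theorem x2_vtw_measurable (b : Bool) : Measurable (fun c => vtw c b) := by
  unfold vtw
  cases b
  · simp only [Bool.false_eq_true, if_false]
    fun_prop
  · simp only [if_true]
    fun_prop

open Classical in
private noncomputable def x2v (lam h t : ℝ) (sel : ℕ → Set Ω') (ω : Ω) (ω' : Ω') (n : ℕ)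
    (b : Bool) : ℝ :=
  if ω' ∈ sel n then vtw (-2 * lam * M.yinc h t n ω ω') b else 1

private theorem x2_tilt (lam h t : ℝ) (sel : ℕ → Set Ω') (N₀ : ℕ) (ω : Ω) (ω' : Ω') :
    M.tilt lam h t sel N₀ ω ω' =
      ∏ n ∈ Finset.range N₀, M.x2v lam h t sel ω ω' n (M.ξ n ω') := rfl

private theorem x2v_nonneg (lam h t : ℝ) (sel : ℕ → Set Ω') (ω : Ω) (ω' : Ω') (n : ℕ)
    (b : Bool) : 0 ≤ M.x2v lam h t sel ω ω' n b := by
  unfold x2v
  split_ifs
  · exact x2_vtw_nonneg _ _
  · norm_num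

private theorem x2v_le (lam h t : ℝ) (sel : ℕ → Set Ω') (ω : Ω) (ω' : Ω') (n : ℕ)
    (b : Bool) : M.x2v lam h t sel ω ω' n b ≤ 2 := by
  unfold x2v
  split_ifs
  · exact x2_vtw_le _ _
  · norm_num

private theorem x2v_abs_le (lam h t : ℝ) (sel : ℕ → Set Ω') (ω : Ω) (ω' : Ω') (n : ℕ)
    (b : Bool) : |M.x2v lam h t sel ω ω' n b| ≤ 2 := by
  rw [abs_of_nonneg (M.x2v_nonneg lam h t sel ω ω' n b)]
  exact M.x2v_le lam h t sel ω ω' n b

private theorem x2v_sum (lam h t : ℝ) (sel : ℕ → Set Ω') (ω : Ω) (ω' : Ω') (n : ℕ) :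
    M.x2v lam h t sel ω ω' n true + M.x2v lam h t sel ω ω' n false = 2 := by
  unfold x2v
  split_ifs
  · exact x2_vtw_sum _
  · norm_num

private theorem x2v_measurable (lam h t : ℝ) (sel : ℕ → Set Ω')
    (hselm : ∀ n, MeasurableSet[M.𝒢] (sel n)) (ω : Ω) :
    Measurable[M.𝒢] (M.x2v lam h t sel ω) := by
  refine @measurable_pi_lambda _ _ _ M.𝒢 _ _ fun n => ?_
  refine @measurable_pi_lambda _ _ _ M.𝒢 _ _ fun b => ?_
  unfold x2v
  refine Measurable.ite (hselm n) ?_ measurable_const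
  exact (x2_vtw_measurable b).comp ((M.measurable_yinc_𝒢 h t n ω).const_mul _)

private theorem x2_tilt_nonneg (lam h t : ℝ) (sel : ℕ → Set Ω') (N₀ : ℕ) (ω : Ω) (ω' : Ω') :
    0 ≤ M.tilt lam h t sel N₀ ω ω' := by
  rw [x2_tilt]
  exact Finset.prod_nonneg fun n _ => M.x2v_nonneg lam h t sel ω ω' n _

private theorem x2_tilt_le (lam h t : ℝ) (sel : ℕ → Set Ω') (N₀ : ℕ) (ω : Ω) (ω' : Ω') :
    M.tilt lam h t sel N₀ ω ω' ≤ 2 ^ N₀ := by
  rw [x2_tilt]
  calc ∏ n ∈ Finset.range N₀, M.x2v lam h t sel ω ω' n (M.ξ n ω') ≤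
        ∏ _n ∈ Finset.range N₀, (2 : ℝ) :=
        Finset.prod_le_prod (fun n _ => M.x2v_nonneg lam h t sel ω ω' n _)
          (fun n _ => M.x2v_le lam h t sel ω ω' n _)
    _ = 2 ^ N₀ := by rw [Finset.prod_const, Finset.card_range]

private theorem x2_tilt_measurable (lam h t : ℝ) (sel : ℕ → Set Ω')
    (hselm : ∀ n, MeasurableSet[M.𝒢] (sel n)) (N₀ : ℕ) :
    Measurable (fun q : Ω × Ω' => M.tilt lam h t sel N₀ q.1 q.2) := by
  unfold tilt
  apply Finset.measurable_prod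
  intro n _
  refine Measurable.ite ?_ ?_ measurable_const
  · exact measurable_snd (M.𝒢_le _ (hselm n))
  · have h1 : Measurable (fun q : ℝ × Bool => vtw q.1 q.2) := by
      have h3 : Measurable (fun q : Bool × ℝ => vtw q.2 q.1) :=
        measurable_from_prod_countable_right fun b => x2_vtw_measurable b
      exact h3.comp (measurable_snd.prodMk measurable_fst)
    exact h1.comp (((M.measurable_yinc h t n).const_mul _).prodMk
      ((M.measurable_ξ n).comp measurable_snd))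

private theorem x2_wS (θ : ℝ) (p : ℕ → ℕ) (s : ℕ → Bool) (k : ℕ) (ω' : Ω') :
    M.wS θ p s k ω' = M.iR θ p k ω' * x2WS s k (M.mi θ p ω') (fun n => M.ξ n ω') := rfl

private theorem x2_wS_nonneg (θ : ℝ) (p : ℕ → ℕ) (s : ℕ → Bool) (k : ℕ) (ω' : Ω') :
    0 ≤ M.wS θ p s k ω' := by
  rw [x2_wS]
  exact mul_nonneg (M.iR_nonneg θ p k ω') (x2WS_nonneg _ _ _ _)

private theorem x2_wS_le (θ : ℝ) (p : ℕ → ℕ) (s : ℕ → Bool) (k : ℕ) (ω' : Ω') :
    M.wS θ p s k ω' ≤ 1 := by
  rw [x2_wS]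
  exact mul_le_one₀ (M.iR_le_one θ p k ω') (x2WS_nonneg _ _ _ _) (x2WS_le_one _ _ _ _)

private theorem x2_wS_measurable (θ : ℝ) (p : ℕ → ℕ) (s : ℕ → Bool) (k : ℕ) :
    Measurable (M.wS θ p s k) :=
  (M.measurable_iR θ p k).mul
    ((x2WS_measurable s k).comp ((M.measurable_mi' θ p).prodMk M.measurable_bits))

/-- the average over the bits, for the weights of the scenario -/
private theorem x2_int [IsProbabilityMeasure P'] {lam h θ t : ℝ} (hθ : 0 < θ)
    (p : ℕ → ℕ) (s : ℕ → Bool) (k : ℕ) (hp : ∀ i < k, p i < p (i + 1))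
    (sel : ℕ → Set Ω') (hselm : ∀ n, MeasurableSet[M.𝒢] (sel n))
    (hsel : ∀ ω' ∈ M.ER θ p k, ∀ n, ω' ∈ sel n → ∀ i < k, s i = true → n ≠ M.mi θ p ω' i)
    (N₀ n : ℕ) (ω : Ω) (f : Ω' → ℝ) (hf : Measurable[M.𝒢] f) (hfi : Integrable f P')
    (φ : Bool → ℝ) (hφ : ∀ b, |φ b| ≤ 1)
    (hfE : ∀ ω', f ω' ≠ 0 → ω' ∈ M.ER θ p k ∧ (n < N₀ → ω' ∉ sel n))
    [∀ ω', Decidable (∃ i < k, s i = true ∧ M.mi θ p ω' i = n)] :
    Integrable (fun ω' => f ω' * (x2WS s k (M.mi θ p ω') (fun j => M.ξ j ω') *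
      M.tilt lam h t sel N₀ ω ω' * φ (M.ξ n ω'))) P' ∧
    ∫ ω', f ω' * (x2WS s k (M.mi θ p ω') (fun j => M.ξ j ω') *
      M.tilt lam h t sel N₀ ω ω' * φ (M.ξ n ω')) ∂P' =
     (1 / 2) ^ ((Finset.range k).filter (fun i => s i = true)).card *
      ∫ ω', f ω' * (if ∃ i < k, s i = true ∧ M.mi θ p ω' i = n then φ false else
        (φ true + φ false) / 2) ∂P' := by
  have hh := M.x2_freeze s k N₀ n f (M.mi θ p) (M.x2v lam h t sel ω) φ hf
    (M.measurable_mi θ p) (M.x2v_measurable lam h t sel hselm ω) hfi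
    (fun ω' j b => M.x2v_abs_le lam h t sel ω ω' j b) hφ
    (fun ω' h0 => M.ER_inj hθ hp (hfE ω' h0).1)
    (fun ω' j => M.x2v_sum lam h t sel ω ω' j) ?_ ?_
  · refine ⟨hh.1, hh.2.trans ?_⟩
    congr 1
    refine integral_congr_ae (ae_of_all _ fun ω' => ?_)
    simp only
    congr 1
    split_ifs <;> rfl
  · intro ω' h0 j _ hj b
    obtain ⟨i, hi, hs, hij⟩ := hj
    unfold x2v
    rw [if_neg]
    intro hmem
    exact hsel ω' (hfE ω' h0).1 j hmem i hi hs hij.symm
  · intro ω' h0 hn b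
    unfold x2v
    rw [if_neg ((hfE ω' h0).2 hn)]

/-! ### The energies -/

open Classical in
private noncomputable def x2SX (h t : ℝ) (sel : ℕ → Set Ω') (N₀ : ℕ) (ω : Ω) (ω' : Ω') : ℝ :=
  ∑ n ∈ Finset.range N₀, if ω' ∈ sel n ∧ M.ξ n ω' = true then M.yinc h t n ω ω' else 0

open Classical in
private noncomputable def x2SY (h t : ℝ) (sel : ℕ → Set Ω') (N₀ : ℕ) (ω : Ω) (ω' : Ω') : ℝ :=
  ∑ n ∈ Finset.range N₀, if ω' ∈ sel n then M.yinc h t n ω ω' else 0

private theorem x2SX_measurable (h t : ℝ) (sel : ℕ → Set Ω')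
    (hselm : ∀ n, MeasurableSet[M.𝒢] (sel n)) (N₀ : ℕ) :
    Measurable (fun q : Ω × Ω' => M.x2SX h t sel N₀ q.1 q.2) := by
  refine Finset.measurable_fun_sum _ fun n _ => ?_
  refine Measurable.ite ?_ (M.measurable_yinc h t n) measurable_const
  have h1 : MeasurableSet {ω' : Ω' | ω' ∈ sel n ∧ M.ξ n ω' = true} :=
    (M.𝒢_le _ (hselm n)).inter (M.measurable_ξ n (measurableSet_singleton true))
  exact measurable_snd h1

private theorem x2SY_measurable (h t : ℝ) (sel : ℕ → Set Ω')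
    (hselm : ∀ n, MeasurableSet[M.𝒢] (sel n)) (N₀ : ℕ) :
    Measurable (fun q : Ω × Ω' => M.x2SY h t sel N₀ q.1 q.2) := by
  refine Finset.measurable_fun_sum _ fun n _ => ?_
  refine Measurable.ite ?_ (M.measurable_yinc h t n) measurable_const
  exact measurable_snd (M.𝒢_le _ (hselm n))

private theorem x2S_bound (h : ℝ) {t : ℝ} (ht : 0 ≤ t) (sel : ℕ → Set Ω') (N₀ : ℕ) (ω : Ω) :
    ∃ C : ℝ, 0 ≤ C ∧ (∀ ω', |M.x2SX h t sel N₀ ω ω'| ≤ C) ∧ ∀ ω', |M.x2SY h t sel N₀ ω ω'| ≤ C := by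
  obtain ⟨C, hC0, hC⟩ := M.exists_bound_yinc h ht ω
  refine ⟨N₀ * C, by positivity, fun ω' => ?_, fun ω' => ?_⟩
  · unfold x2SX
    refine (Finset.abs_sum_le_sum_abs _ _).trans ?_
    refine (Finset.sum_le_card_nsmul _ _ C fun i _ => ?_).trans (by simp)
    split_ifs
    · exact hC i ω'
    · simpa using hC0
  · unfold x2SY
    refine (Finset.abs_sum_le_sum_abs _ _).trans ?_
    refine (Finset.sum_le_card_nsmul _ _ C fun i _ => ?_).trans (by simp)
    split_ifs
    · exact hC i ω'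
    · simpa using hC0

private noncomputable def x2AN (h θ t : ℝ) (p : ℕ → ℕ) (s : ℕ → Bool) (k N : ℕ) (ω : Ω)
    (ω' : Ω') : ℝ :=
  (M.XbarN h θ t p (fun i => !(s i)) k N ω ω' + M.XbarN h θ t p (fun _ => false) k N ω ω') / 2

private theorem x2_XA (h θ t : ℝ) (p : ℕ → ℕ) (s : ℕ → Bool) (k : ℕ) (ω : Ω) (ω' : Ω') :
    M.XA h θ t p s k ω ω' = (M.Xbar h θ t p (fun i => !(s i)) k ω ω' +
      M.Xbar h θ t p (fun _ => false) k ω ω') / 2 := by
  have h1 : ∀ D : ℕ → ℝ, ∑ i ∈ Finset.range k, (if (!(s i)) = true then (1 / 2 : ℝ) else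
      -(1 / 2)) * D i + ∑ i ∈ Finset.range k, (if false = true then (1 / 2 : ℝ) else
      -(1 / 2)) * D i = - ∑ i ∈ Finset.range k, if s i = true then D i else 0 := by
    intro D
    rw [← Finset.sum_add_distrib, ← Finset.sum_neg_distrib]
    refine Finset.sum_congr rfl fun i _ => ?_
    cases h2 : s i
    · simp
    · simp
      ring
  have h2 := h1 (fun i => M.y h (min (M.right (M.mi θ p ω' i) ω') t) ω -
    M.y h (min (M.left (M.mi θ p ω' i) ω') t) ω)
  unfold XA Xbar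
  linarith

private theorem x2_XA_measurable (h θ t : ℝ) (p : ℕ → ℕ) (s : ℕ → Bool) (k : ℕ) :
    Measurable (fun q : Ω × Ω' => M.XA h θ t p s k q.1 q.2) := by
  simp_rw [M.x2_XA]
  exact ((M.measurable_Xbar h θ t p _ k).add (M.measurable_Xbar h θ t p _ k)).div_const _

private theorem x2_XA_integrable [IsProbabilityMeasure P'] (h θ : ℝ) {t : ℝ} (ht : 0 ≤ t)
    (p : ℕ → ℕ) (s : ℕ → Bool) (k : ℕ) (ω : Ω) :
    Integrable (fun ω' => M.XA h θ t p s k ω ω') P' := by
  simp_rw [M.x2_XA]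
  exact ((M.integrable_Xbar h θ ht p _ k ω).add (M.integrable_Xbar h θ ht p _ k ω)).div_const _

/-! ### The exchange identity for finitely many excursions -/

open Classical in
private noncomputable def x2f (h θ t : ℝ) (p : ℕ → ℕ) (k : ℕ) (sel : ℕ → Set Ω') (N₀ n : ℕ)
    (ω : Ω) (ω' : Ω') : ℝ :=
  M.iR θ p k ω' * M.yinc h t n ω ω' * (if n < N₀ ∧ ω' ∈ sel n then 0 else 1)

private theorem x2f_measurable (h θ t : ℝ) (p : ℕ → ℕ) (k : ℕ) (sel : ℕ → Set Ω')
    (hselm : ∀ n, MeasurableSet[M.𝒢] (sel n)) (N₀ n : ℕ) (ω : Ω) :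
    Measurable[M.𝒢] (M.x2f h θ t p k sel N₀ n ω) := by
  unfold x2f
  refine ((M.measurable_iR_𝒢 θ p k).mul (M.measurable_yinc_𝒢 h t n ω)).mul ?_
  refine Measurable.ite ?_ measurable_const measurable_const
  by_cases hn : n < N₀
  · have h1 : {ω' : Ω' | n < N₀ ∧ ω' ∈ sel n} = sel n := by
      ext ω'
      simp [hn]
    rw [h1]
    exact hselm n
  · have h1 : {ω' : Ω' | n < N₀ ∧ ω' ∈ sel n} = ∅ := by
      ext ω'
      simp [hn]
    rw [h1]
    exact @MeasurableSet.empty _ M.𝒢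

open Classical in
private theorem x2f_integrable [IsProbabilityMeasure P'] (h θ : ℝ) {t : ℝ} (ht : 0 ≤ t)
    (p : ℕ → ℕ) (k : ℕ) (sel : ℕ → Set Ω')
    (hselm : ∀ n, MeasurableSet[M.𝒢] (sel n)) (N₀ n : ℕ) (ω : Ω) :
    Integrable (M.x2f h θ t p k sel N₀ n ω) P' := by
  obtain ⟨C, hC0, hC⟩ := M.exists_bound_yinc h ht ω
  refine Integrable.of_bound ((M.x2f_measurable h θ t p k sel hselm N₀ n ω).mono M.𝒢_le
    le_rfl).aestronglyMeasurable C (ae_of_all _ fun ω' => ?_)
  unfold x2f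
  rw [Real.norm_eq_abs, abs_mul, abs_mul, abs_of_nonneg (M.iR_nonneg θ p k ω')]
  have h1 : |if n < N₀ ∧ ω' ∈ sel n then (0 : ℝ) else 1| ≤ 1 := by
    split_ifs <;> simp
  calc _ ≤ 1 * C * 1 := mul_le_mul (mul_le_mul (M.iR_le_one θ p k ω') (hC n ω') (abs_nonneg _)
          zero_le_one) h1 (abs_nonneg _) (by positivity)
    _ = C := by ring

private theorem x2f_ne {h θ t : ℝ} {p : ℕ → ℕ} {k : ℕ} {sel : ℕ → Set Ω'} {N₀ n : ℕ}
    {ω : Ω} {ω' : Ω'} (h0 : M.x2f h θ t p k sel N₀ n ω ω' ≠ 0) :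
    ω' ∈ M.ER θ p k ∧ (n < N₀ → ω' ∉ sel n) := by
  unfold x2f at h0
  constructor
  · by_contra hne
    apply h0
    rw [iR, Set.indicator_of_notMem hne, zero_mul, zero_mul]
  · intro hn hmem
    apply h0
    rw [if_pos ⟨hn, hmem⟩, mul_zero]

private noncomputable def x2G (lam h θ t : ℝ) (p : ℕ → ℕ) (s : ℕ → Bool) (k : ℕ)
    (sel : ℕ → Set Ω') (N₀ : ℕ) (ω : Ω) (ω' : Ω') : ℝ :=
  M.wS θ p s k ω' * M.tilt lam h t sel N₀ ω ω' * (M.XE h t ω ω' - M.x2SX h t sel N₀ ω ω') -
    (1 / 2) ^ ((Finset.range k).filter (fun i => s i = true)).card *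
      (M.iR θ p k ω' * (M.XA h θ t p s k ω ω' - M.x2SY h t sel N₀ ω ω' / 2))

private noncomputable def x2GN (lam h θ t : ℝ) (p : ℕ → ℕ) (s : ℕ → Bool) (k : ℕ)
    (sel : ℕ → Set Ω') (N₀ N : ℕ) (ω : Ω) (ω' : Ω') : ℝ :=
  M.wS θ p s k ω' * M.tilt lam h t sel N₀ ω ω' * (M.XN h t N ω ω' - M.x2SX h t sel N₀ ω ω') -
    (1 / 2) ^ ((Finset.range k).filter (fun i => s i = true)).card *
      (M.iR θ p k ω' * (M.x2AN h θ t p s k N ω ω' - M.x2SY h t sel N₀ ω ω' / 2))

private theorem x2G_measurable (lam h θ : ℝ) {t : ℝ} (ht : 0 ≤ t) (p : ℕ → ℕ) (s : ℕ → Bool)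
    (k : ℕ) (sel : ℕ → Set Ω') (hselm : ∀ n, MeasurableSet[M.𝒢] (sel n)) (N₀ : ℕ) :
    Measurable (fun q : Ω × Ω' => M.x2G lam h θ t p s k sel N₀ q.1 q.2) :=
  ((((M.x2_wS_measurable θ p s k).comp measurable_snd).mul
    (M.x2_tilt_measurable lam h t sel hselm N₀)).mul
      ((M.measurable_X h ht).sub (M.x2SX_measurable h t sel hselm N₀))).sub
    ((((M.measurable_iR θ p k).comp measurable_snd).mul
      ((M.x2_XA_measurable h θ t p s k).sub
        ((M.x2SY_measurable h t sel hselm N₀).div_const _))).const_mul _)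

private theorem x2GN_measurable (lam h θ t : ℝ) (p : ℕ → ℕ) (s : ℕ → Bool)
    (k : ℕ) (sel : ℕ → Set Ω') (hselm : ∀ n, MeasurableSet[M.𝒢] (sel n)) (N₀ N : ℕ) :
    Measurable (fun q : Ω × Ω' => M.x2GN lam h θ t p s k sel N₀ N q.1 q.2) :=
  ((((M.x2_wS_measurable θ p s k).comp measurable_snd).mul
    (M.x2_tilt_measurable lam h t sel hselm N₀)).mul
      ((M.measurable_XN h t N).sub (M.x2SX_measurable h t sel hselm N₀))).sub
    ((((M.measurable_iR θ p k).comp measurable_snd).mul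
      ((((M.measurable_XbarN h θ t p _ k N).add (M.measurable_XbarN h θ t p _ k N)).div_const
        _).sub ((M.x2SY_measurable h t sel hselm N₀).div_const _))).const_mul _)

private noncomputable def x2phi (b : Bool) : ℝ := if b = true then 1 else 0

private theorem x2phi_true : x2phi true = 1 := by simp [x2phi]

private theorem x2phi_false : x2phi false = 0 := by simp [x2phi]

private theorem x2_sum {N₀ N : ℕ} (hN : N₀ ≤ N) (a : ℕ → ℝ) :
    ∑ n ∈ Finset.range N₀, a n = ∑ n ∈ Finset.range N, if n < N₀ then a n else 0 := by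
  rw [← Finset.sum_filter]
  congr 1
  ext n
  simp only [Finset.mem_range, Finset.mem_filter]
  omega

open Classical in
private theorem x2GN_eq {lam h θ t : ℝ} (hθ : 0 < θ) (p : ℕ → ℕ) (s : ℕ → Bool) (k : ℕ)
    (hp : ∀ i < k, p i < p (i + 1)) (sel : ℕ → Set Ω')
    (hsel : ∀ ω' ∈ M.ER θ p k, ∀ n, ω' ∈ sel n → ∀ i < k, s i = true → n ≠ M.mi θ p ω' i)
    {N₀ N : ℕ} (hN : N₀ ≤ N) (ω : Ω) (ω' : Ω') :
    M.x2GN lam h θ t p s k sel N₀ N ω ω' = ∑ n ∈ Finset.range N,
      (M.x2f h θ t p k sel N₀ n ω ω' * (x2WS s k (M.mi θ p ω') (fun j => M.ξ j ω') *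
        M.tilt lam h t sel N₀ ω ω' * x2phi (M.ξ n ω')) -
      (1 / 2) ^ ((Finset.range k).filter (fun i => s i = true)).card *
        (M.x2f h θ t p k sel N₀ n ω ω' * (if ∃ i < k, s i = true ∧ M.mi θ p ω' i = n then
          x2phi false else (x2phi true + x2phi false) / 2))) := by
  unfold x2GN
  rw [Finset.sum_sub_distrib, ← Finset.mul_sum, M.x2_wS]
  congr 1
  · unfold XN x2SX
    rw [x2_sum hN, ← Finset.sum_sub_distrib, Finset.mul_sum]
    refine Finset.sum_congr rfl fun n _ => ?_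
    unfold x2f x2phi
    by_cases hn : n < N₀
    · by_cases hm : ω' ∈ sel n
      · rw [if_pos hn, if_pos (show n < N₀ ∧ ω' ∈ sel n from ⟨hn, hm⟩)]
        by_cases hb : M.ξ n ω' = true
        · rw [if_pos hb, if_pos (show ω' ∈ sel n ∧ M.ξ n ω' = true from ⟨hm, hb⟩)]
          ring
        · rw [if_neg hb, if_neg (show ¬ (ω' ∈ sel n ∧ M.ξ n ω' = true) from fun h => hb h.2)]
          ring
      · rw [if_pos hn, if_neg (show ¬ (n < N₀ ∧ ω' ∈ sel n) from fun h => hm h.2),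
          if_neg (show ¬ (ω' ∈ sel n ∧ M.ξ n ω' = true) from fun h => hm h.1)]
        ring
    · rw [if_neg hn, if_neg (show ¬ (n < N₀ ∧ ω' ∈ sel n) from fun h => hn h.1)]
      ring
  · congr 1
    by_cases hE : ω' ∈ M.ER θ p k
    · unfold x2AN XbarN x2SY
      rw [x2_sum hN, ← Finset.sum_add_distrib, Finset.sum_div, Finset.sum_div,
        ← Finset.sum_sub_distrib, Finset.mul_sum]
      refine Finset.sum_congr rfl fun n _ => ?_
      have hcc := x2_cc s k (M.mi θ p ω') n (M.ER_inj hθ hp hE)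
      unfold x2f
      rw [x2phi_true, x2phi_false, add_zero]
      have h1 : (cc (fun i => !(s i)) k (M.mi θ p ω') n * M.yinc h t n ω ω' +
          cc (fun _ => false) k (M.mi θ p ω') n * M.yinc h t n ω ω') / 2 =
          (if ∃ i < k, s i = true ∧ M.mi θ p ω' i = n then 0 else 1 / 2) *
            M.yinc h t n ω ω' := by
        rw [← hcc]
        ring
      rw [h1]
      by_cases hn : n < N₀
      · by_cases hm : ω' ∈ sel n
        · have h2 : ¬ ∃ i < k, s i = true ∧ M.mi θ p ω' i = n := by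
            rintro ⟨i, hi, hs, hin⟩
            exact hsel ω' hE n hm i hi hs hin.symm
          rw [if_pos hn, if_pos (show n < N₀ ∧ ω' ∈ sel n from ⟨hn, hm⟩), if_pos hm, if_neg h2]
          ring
        · rw [if_pos hn, if_neg (show ¬ (n < N₀ ∧ ω' ∈ sel n) from fun h => hm h.2),
            if_neg hm]
          ring
      · rw [if_neg hn, if_neg (show ¬ (n < N₀ ∧ ω' ∈ sel n) from fun h => hn h.1)]
        ring
    · have h0 : M.iR θ p k ω' = 0 := Set.indicator_of_notMem hE _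
      rw [h0, zero_mul]
      symm
      refine Finset.sum_eq_zero fun n _ => ?_
      unfold x2f
      rw [h0, zero_mul, zero_mul, zero_mul]

private theorem x2GN_integral [IsProbabilityMeasure P'] {lam h θ t : ℝ} (hθ : 0 < θ) (ht : 0 ≤ t)
    (p : ℕ → ℕ) (s : ℕ → Bool) (k : ℕ)
    (hp : ∀ i < k, p i < p (i + 1)) (sel : ℕ → Set Ω')
    (hselm : ∀ n, MeasurableSet[M.𝒢] (sel n))
    (hsel : ∀ ω' ∈ M.ER θ p k, ∀ n, ω' ∈ sel n → ∀ i < k, s i = true → n ≠ M.mi θ p ω' i)
    {N₀ N : ℕ} (hN : N₀ ≤ N) (ω : Ω) :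
    Integrable (fun ω' => M.x2GN lam h θ t p s k sel N₀ N ω ω') P' ∧
      ∫ ω', M.x2GN lam h θ t p s k sel N₀ N ω ω' ∂P' = 0 := by
  classical
  have hφ : ∀ b : Bool, |x2phi b| ≤ 1 := by
    intro b
    cases b
    · rw [x2phi_false]
      simp
    · rw [x2phi_true]
      simp
  have hI := fun n => M.x2_int (lam := lam) (t := t) (h := h) hθ p s k hp sel hselm hsel N₀ n ω
    (M.x2f h θ t p k sel N₀ n ω) (M.x2f_measurable h θ t p k sel hselm N₀ n ω)
    (M.x2f_integrable h θ ht p k sel hselm N₀ n ω)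
    x2phi hφ (fun ω' h0 => M.x2f_ne h0)
  have hJ : ∀ n, Integrable (fun ω' => M.x2f h θ t p k sel N₀ n ω ω' *
      (if ∃ i < k, s i = true ∧ M.mi θ p ω' i = n then
          x2phi false else (x2phi true + x2phi false) / 2)) P' := by
    intro n
    refine (M.x2f_integrable h θ ht p k sel hselm N₀ n ω).mul_bdd (c := 1) ?_
      (ae_of_all _ fun ω' => ?_)
    · refine Measurable.aestronglyMeasurable ?_
      have h1 : Measurable (fun m : ℕ → ℕ => if ∃ i < k, s i = true ∧ m i = n then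
          x2phi false else (x2phi true + x2phi false) / 2) := by
        refine Measurable.ite ?_ measurable_const measurable_const
        have h2 : {m : ℕ → ℕ | ∃ i < k, s i = true ∧ m i = n} =
            ⋃ i ∈ {i | i < k ∧ s i = true}, (fun m : ℕ → ℕ => m i) ⁻¹' {n} := by
          ext m
          simp [and_assoc]
        rw [h2]
        exact MeasurableSet.biUnion (Set.to_countable _) fun i _ =>
          (measurable_pi_apply i) (measurableSet_singleton n)
      exact h1.comp (M.measurable_mi' θ p)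
    · rw [Real.norm_eq_abs, x2phi_true, x2phi_false]
      split_ifs <;> norm_num [abs_le]
  have heq : ∀ ω', M.x2GN lam h θ t p s k sel N₀ N ω ω' = _ := fun ω' =>
    M.x2GN_eq (lam := lam) (t := t) (h := h) hθ p s k hp sel hsel hN ω ω'
  have hT : ∀ n, Integrable (fun ω' =>
      M.x2f h θ t p k sel N₀ n ω ω' * (x2WS s k (M.mi θ p ω') (fun j => M.ξ j ω') *
        M.tilt lam h t sel N₀ ω ω' * x2phi (M.ξ n ω')) -
      (1 / 2) ^ ((Finset.range k).filter (fun i => s i = true)).card *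
        (M.x2f h θ t p k sel N₀ n ω ω' * (if ∃ i < k, s i = true ∧ M.mi θ p ω' i = n then
          x2phi false else (x2phi true + x2phi false) / 2))) P' ∧
      ∫ ω', (M.x2f h θ t p k sel N₀ n ω ω' * (x2WS s k (M.mi θ p ω') (fun j => M.ξ j ω') *
        M.tilt lam h t sel N₀ ω ω' * x2phi (M.ξ n ω')) -
      (1 / 2) ^ ((Finset.range k).filter (fun i => s i = true)).card *
        (M.x2f h θ t p k sel N₀ n ω ω' * (if ∃ i < k, s i = true ∧ M.mi θ p ω' i = n then
          x2phi false else (x2phi true + x2phi false) / 2))) ∂P' = 0 := by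
    intro n
    refine ⟨(hI n).1.sub ((hJ n).const_mul _), ?_⟩
    rw [integral_sub (hI n).1 ((hJ n).const_mul _), integral_const_mul, (hI n).2, sub_self]
  rw [funext heq]
  refine ⟨integrable_finsetSum _ fun n _ => (hT n).1, ?_⟩
  exact (integral_finsetSum _ fun n _ => (hT n).1).trans
    (Finset.sum_eq_zero fun n _ => (hT n).2)

/-! ### The limit -/

private theorem x2_enorm (lam h θ t : ℝ) (p : ℕ → ℕ) (s : ℕ → Bool) (k : ℕ)
    (sel : ℕ → Set Ω') (N₀ N : ℕ) (ω : Ω) (ω' : Ω') :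
    ‖M.x2G lam h θ t p s k sel N₀ ω ω' - M.x2GN lam h θ t p s k sel N₀ N ω ω'‖ₑ ≤
      ENNReal.ofReal (2 ^ N₀) * ‖M.XE h t ω ω' - M.XN h t N ω ω'‖ₑ +
      (‖M.Xbar h θ t p (fun i => !(s i)) k ω ω' -
          M.XbarN h θ t p (fun i => !(s i)) k N ω ω'‖ₑ +
        ‖M.Xbar h θ t p (fun _ => false) k ω ω' -
          M.XbarN h θ t p (fun _ => false) k N ω ω'‖ₑ) := by
  have h1 : M.x2G lam h θ t p s k sel N₀ ω ω' - M.x2GN lam h θ t p s k sel N₀ N ω ω' =
      (M.wS θ p s k ω' * M.tilt lam h t sel N₀ ω ω') * (M.XE h t ω ω' - M.XN h t N ω ω') +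
      (-((1 / 2) ^ ((Finset.range k).filter (fun i => s i = true)).card * (M.iR θ p k ω' / 2))) *
        ((M.Xbar h θ t p (fun i => !(s i)) k ω ω' -
          M.XbarN h θ t p (fun i => !(s i)) k N ω ω') +
        (M.Xbar h θ t p (fun _ => false) k ω ω' -
          M.XbarN h θ t p (fun _ => false) k N ω ω')) := by
    unfold x2G x2GN x2AN
    rw [M.x2_XA]
    ring
  rw [h1]
  refine (enorm_add_le _ _).trans (add_le_add ?_ ?_)
  · rw [enorm_mul]
    refine mul_le_mul_left ?_ _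
    rw [Real.enorm_eq_ofReal (mul_nonneg (M.x2_wS_nonneg θ p s k ω')
      (M.x2_tilt_nonneg lam h t sel N₀ ω ω'))]
    refine ENNReal.ofReal_le_ofReal ?_
    calc M.wS θ p s k ω' * M.tilt lam h t sel N₀ ω ω' ≤ 1 * 2 ^ N₀ :=
          mul_le_mul (M.x2_wS_le θ p s k ω') (M.x2_tilt_le lam h t sel N₀ ω ω')
            (M.x2_tilt_nonneg lam h t sel N₀ ω ω') zero_le_one
      _ = 2 ^ N₀ := one_mul _
  · rw [enorm_mul, enorm_neg]
    refine le_trans (mul_le_of_le_one_left bot_le ?_) (enorm_add_le _ _)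
    have h2 : 0 ≤ M.iR θ p k ω' / 2 := div_nonneg (M.iR_nonneg θ p k ω') (by norm_num)
    rw [Real.enorm_eq_ofReal (mul_nonneg (by positivity) h2)]
    refine ENNReal.ofReal_le_one.2 (mul_le_one₀ (pow_le_one₀ (by norm_num) (by norm_num))
      h2 ?_)
    have := M.iR_le_one θ p k ω'
    linarith

private theorem x2_l1 {h t : ℝ} (hh : 0 ≤ h) (ht : 0 ≤ t) (lam θ : ℝ) (p : ℕ → ℕ)
    (s : ℕ → Bool) (k : ℕ) (sel : ℕ → Set Ω') (N₀ N : ℕ) (ω' : Ω') :
    ∫⁻ ω, ‖M.x2G lam h θ t p s k sel N₀ ω ω' - M.x2GN lam h θ t p s k sel N₀ N ω ω'‖ₑ ∂P ≤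
      (ENNReal.ofReal (2 ^ N₀) + 2) * M.bnd h θ t p k N ω' := by
  have hm1 : Measurable (fun ω => ‖M.XE h t ω ω' - M.XN h t N ω ω'‖ₑ) :=
    (((M.measurable_X h ht).sub (M.measurable_XN h t N)).comp measurable_prodMk_right).enorm
  have hm2 : ∀ e : ℕ → Bool, Measurable (fun ω => ‖M.Xbar h θ t p e k ω ω' -
      M.XbarN h θ t p e k N ω ω'‖ₑ) := fun e =>
    (((M.measurable_Xbar h θ t p e k).sub (M.measurable_XbarN h θ t p e k N)).comp
      measurable_prodMk_right).enorm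
  have hA := M.l1_X_sub_le hh ht N ω'
  have hB := fun e : ℕ → Bool => M.l1_Xbar_sub_le (θ := θ) hh ht p e k N ω'
  calc ∫⁻ ω, ‖M.x2G lam h θ t p s k sel N₀ ω ω' - M.x2GN lam h θ t p s k sel N₀ N ω ω'‖ₑ ∂P
      ≤ ∫⁻ ω, (ENNReal.ofReal (2 ^ N₀) * ‖M.XE h t ω ω' - M.XN h t N ω ω'‖ₑ +
      (‖M.Xbar h θ t p (fun i => !(s i)) k ω ω' -
          M.XbarN h θ t p (fun i => !(s i)) k N ω ω'‖ₑ +
        ‖M.Xbar h θ t p (fun _ => false) k ω ω' -
          M.XbarN h θ t p (fun _ => false) k N ω ω'‖ₑ)) ∂P :=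
        lintegral_mono fun ω => M.x2_enorm lam h θ t p s k sel N₀ N ω ω'
    _ = ENNReal.ofReal (2 ^ N₀) * ∫⁻ ω, ‖M.XE h t ω ω' - M.XN h t N ω ω'‖ₑ ∂P +
        (∫⁻ ω, ‖M.Xbar h θ t p (fun i => !(s i)) k ω ω' -
          M.XbarN h θ t p (fun i => !(s i)) k N ω ω'‖ₑ ∂P +
        ∫⁻ ω, ‖M.Xbar h θ t p (fun _ => false) k ω ω' -
          M.XbarN h θ t p (fun _ => false) k N ω ω'‖ₑ ∂P) := by
        rw [lintegral_add_left (hm1.const_mul _), lintegral_const_mul _ hm1,
          lintegral_add_left (hm2 _)]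
    _ ≤ ENNReal.ofReal (2 ^ N₀) * M.bnd h θ t p k N ω' +
        (M.bnd h θ t p k N ω' + M.bnd h θ t p k N ω') := by
        refine add_le_add (mul_le_mul_right (hA.trans ?_) _) (add_le_add ((hB _).trans ?_)
          ((hB _).trans ?_))
        · exact le_self_add
        · exact le_add_self
        · exact le_add_self
    _ = _ := by ring

private theorem x2_tendsto [IsProbabilityMeasure P'] {h t : ℝ} (hh : 0 ≤ h) (ht : 0 ≤ t)
    (lam θ : ℝ) (p : ℕ → ℕ) (s : ℕ → Bool) (k : ℕ) (sel : ℕ → Set Ω')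
    (hselm : ∀ n, MeasurableSet[M.𝒢] (sel n)) (N₀ : ℕ) :
    Tendsto (fun N => ∫⁻ ω', ∫⁻ ω, ‖M.x2G lam h θ t p s k sel N₀ ω ω' -
      M.x2GN lam h θ t p s k sel N₀ N ω ω'‖ₑ ∂P ∂P') atTop (𝓝 0) := by
  have hP := M.isProbabilityMeasure_P
  have hK : ENNReal.ofReal (2 ^ N₀) + 2 ≠ ∞ := by
    exact ENNReal.add_ne_top.2 ⟨ENNReal.ofReal_ne_top, by norm_num⟩
  have h1 := tendsto_lintegral_of_dominated_convergence (μ := P')
    (F := fun N ω' => ∫⁻ ω, ‖M.x2G lam h θ t p s k sel N₀ ω ω' -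
      M.x2GN lam h θ t p s k sel N₀ N ω ω'‖ₑ ∂P)
    (f := fun _ => 0)
    (bound := fun _ => (ENNReal.ofReal (2 ^ N₀) + 2) *
      (((ENNReal.ofReal (√t) + ENNReal.ofReal (√t)) + ENNReal.ofReal (h * t)) +
      ((ENNReal.ofReal (√t) + ENNReal.ofReal (h * t)) +
        ∑ _i ∈ Finset.range k, (ENNReal.ofReal (√t) + ENNReal.ofReal (h * t)))))
    (fun N => ((M.x2G_measurable lam h θ ht p s k sel hselm N₀).sub
      (M.x2GN_measurable lam h θ t p s k sel hselm N₀ N)).enorm.lintegral_prod_left')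
    (fun N => by
      filter_upwards [M.bnd_le hh ht θ p k] with ω' hω'
      exact (M.x2_l1 hh ht lam θ p s k sel N₀ N ω').trans (mul_le_mul_right (hω' N) _))
    (by
      rw [lintegral_const, measure_univ, mul_one, Finset.sum_const, nsmul_eq_mul]
      have h0 : ENNReal.ofReal (√t) + ENNReal.ofReal (h * t) ≠ ∞ :=
        ENNReal.add_ne_top.2 ⟨ENNReal.ofReal_ne_top, ENNReal.ofReal_ne_top⟩
      exact ENNReal.mul_ne_top hK (ENNReal.add_ne_top.2 ⟨ENNReal.add_ne_top.2
        ⟨ENNReal.add_ne_top.2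
        ⟨ENNReal.ofReal_ne_top, ENNReal.ofReal_ne_top⟩, ENNReal.ofReal_ne_top⟩,
        ENNReal.add_ne_top.2 ⟨h0, ENNReal.mul_ne_top (ENNReal.natCast_ne_top _) h0⟩⟩))
    (by
      filter_upwards [M.tendsto_bnd (h := h) ht θ p k] with ω' hω'
      have h2 : Tendsto (fun N => (ENNReal.ofReal (2 ^ N₀) + 2) * M.bnd h θ t p k N ω') atTop
          (𝓝 0) := by
        have h3 := ENNReal.Tendsto.const_mul (a := ENNReal.ofReal (2 ^ N₀) + 2) hω'
          (Or.inr hK)
        rwa [mul_zero] at h3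
      exact tendsto_of_tendsto_of_tendsto_of_le_of_le tendsto_const_nhds h2
        (fun N => bot_le) (fun N => M.x2_l1 hh ht lam θ p s k sel N₀ N ω'))
  simpa using h1

end Model

section
variable {α : ℝ} {Ω Ω' : Type} [MeasurableSpace Ω] [MeasurableSpace Ω'] {P : Measure Ω}
  {P' : Measure Ω'} [IsProbabilityMeasure P] [IsProbabilityMeasure P'] (M : Model α P P')

open Classical in
/-- VE2. Average over the signs (compare `Exchange.lean`: `ae_exchange`; the tilt is bounded by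
`2 ^ N₀`). -/
theorem ae_exchange2 {lam h θ t : ℝ} (hlam : 0 < lam) (hh : 0 ≤ h) (hθ : 0 < θ) (ht : 0 ≤ t)
    (p : ℕ → ℕ) (s : ℕ → Bool) (k : ℕ) (hp0 : p 0 = 0) (hp : ∀ i < k, p i < p (i + 1))
    (sel : ℕ → Set Ω') (hselm : ∀ n, MeasurableSet[M.𝒢] (sel n))
    (hsel : ∀ ω' ∈ M.ER θ p k, ∀ n, ω' ∈ sel n → ∀ i < k, s i = true → n ≠ M.mi θ p ω' i)
    (N₀ : ℕ) : ∀ᵐ ω ∂P,
      Integrable (fun ω' => M.wS θ p s k ω' * M.tilt lam h t sel N₀ ω ω' * M.XE h t ω ω') P' ∧
      ∫ ω', M.wS θ p s k ω' * M.tilt lam h t sel N₀ ω ω' ∂P' =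
        (1 / 2) ^ ((Finset.range k).filter (fun i => s i = true)).card * P'.real (M.ER θ p k) ∧
      ∫ ω', M.wS θ p s k ω' * M.tilt lam h t sel N₀ ω ω' * (M.XE h t ω ω' -
          ∑ n ∈ Finset.range N₀, if ω' ∈ sel n ∧ M.ξ n ω' = true then M.yinc h t n ω ω'
            else 0) ∂P' =
        (1 / 2) ^ ((Finset.range k).filter (fun i => s i = true)).card *
          ∫ ω' in M.ER θ p k, (M.XA h θ t p s k ω ω' -
            (∑ n ∈ Finset.range N₀, if ω' ∈ sel n then M.yinc h t n ω ω' else 0) / 2) ∂P' := by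
  have hP := M.isProbabilityMeasure_P
  have hi1 : ∀ᵐ ω ∂P, Integrable (fun ω' => M.wS θ p s k ω' * M.tilt lam h t sel N₀ ω ω' *
      M.XE h t ω ω') P' := by
    filter_upwards [M.ae_integrable_X hh ht] with ω hω
    refine hω.bdd_mul (c := 2 ^ N₀) (((M.x2_wS_measurable θ p s k).mul
      ((M.x2_tilt_measurable lam h t sel hselm N₀).comp
        measurable_prodMk_left))).aestronglyMeasurable (ae_of_all _ fun ω' => ?_)
    rw [Real.norm_eq_abs, abs_of_nonneg (mul_nonneg (M.x2_wS_nonneg θ p s k ω')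
      (M.x2_tilt_nonneg lam h t sel N₀ ω ω'))]
    calc M.wS θ p s k ω' * M.tilt lam h t sel N₀ ω ω' ≤ 1 * 2 ^ N₀ :=
          mul_le_mul (M.x2_wS_le θ p s k ω') (M.x2_tilt_le lam h t sel N₀ ω ω')
            (M.x2_tilt_nonneg lam h t sel N₀ ω ω') zero_le_one
      _ = 2 ^ N₀ := one_mul _
  have hi2 : ∀ ω, Integrable (fun ω' => M.wS θ p s k ω' * M.tilt lam h t sel N₀ ω ω' *
      M.x2SX h t sel N₀ ω ω') P' := by
    intro ω
    obtain ⟨C, hC0, hC1, hC2⟩ := M.x2S_bound h ht sel N₀ ω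
    refine Integrable.of_bound (((M.x2_wS_measurable θ p s k).mul
      ((M.x2_tilt_measurable lam h t sel hselm N₀).comp measurable_prodMk_left)).mul
        ((M.x2SX_measurable h t sel hselm N₀).comp
          measurable_prodMk_left)).aestronglyMeasurable (1 * 2 ^ N₀ * C)
      (ae_of_all _ fun ω' => ?_)
    rw [Real.norm_eq_abs, abs_mul, abs_of_nonneg (mul_nonneg (M.x2_wS_nonneg θ p s k ω')
      (M.x2_tilt_nonneg lam h t sel N₀ ω ω'))]
    exact mul_le_mul (mul_le_mul (M.x2_wS_le θ p s k ω') (M.x2_tilt_le lam h t sel N₀ ω ω')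
      (M.x2_tilt_nonneg lam h t sel N₀ ω ω') zero_le_one) (hC1 ω') (abs_nonneg _)
      (by positivity)
  have hi3 : ∀ ω, Integrable (fun ω' => M.iR θ p k ω' * (M.XA h θ t p s k ω ω' -
      M.x2SY h t sel N₀ ω ω' / 2)) P' := by
    intro ω
    obtain ⟨C, hC0, hC1, hC2⟩ := M.x2S_bound h ht sel N₀ ω
    have h1 : Integrable (fun ω' => M.x2SY h t sel N₀ ω ω') P' :=
      Integrable.of_bound ((M.x2SY_measurable h t sel hselm N₀).comp
          measurable_prodMk_left).aestronglyMeasurable C (ae_of_all _ fun ω' => by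
            rw [Real.norm_eq_abs]
            exact hC2 ω')
    refine ((M.x2_XA_integrable h θ ht p s k ω).sub (h1.div_const 2)).bdd_mul (c := 1)
      (M.measurable_iR θ p k).aestronglyMeasurable (ae_of_all _ fun ω' => ?_)
    rw [Real.norm_eq_abs, abs_of_nonneg (M.iR_nonneg θ p k ω')]
    exact M.iR_le_one θ p k ω'
  have hi12 : ∀ᵐ ω ∂P, Integrable (fun ω' => M.wS θ p s k ω' * M.tilt lam h t sel N₀ ω ω' *
      (M.XE h t ω ω' - M.x2SX h t sel N₀ ω ω')) P' := by
    filter_upwards [hi1] with ω hω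
    have h1 := hω.sub (hi2 ω)
    refine h1.congr (ae_of_all _ fun ω' => ?_)
    simp only [Pi.sub_apply]
    ring
  have hle : ∀ N, N₀ ≤ N → ∫⁻ ω, ‖∫ ω', M.x2G lam h θ t p s k sel N₀ ω ω' ∂P'‖ₑ ∂P ≤
      ∫⁻ ω', ∫⁻ ω, ‖M.x2G lam h θ t p s k sel N₀ ω ω' -
        M.x2GN lam h θ t p s k sel N₀ N ω ω'‖ₑ ∂P ∂P' := by
    intro N hN
    have hm : Measurable (fun q : Ω × Ω' => ‖M.x2G lam h θ t p s k sel N₀ q.1 q.2 -
        M.x2GN lam h θ t p s k sel N₀ N q.1 q.2‖ₑ) :=
      ((M.x2G_measurable lam h θ ht p s k sel hselm N₀).sub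
        (M.x2GN_measurable lam h θ t p s k sel hselm N₀ N)).enorm
    rw [← lintegral_lintegral_swap hm.aemeasurable]
    refine lintegral_mono_ae ?_
    filter_upwards [hi12] with ω hω
    have hG : Integrable (fun ω' => M.x2G lam h θ t p s k sel N₀ ω ω') P' :=
      hω.sub ((hi3 ω).const_mul _)
    obtain ⟨hN1, hN2⟩ := M.x2GN_integral (lam := lam) (t := t) (h := h) hθ ht p s k hp sel
      hselm hsel hN ω
    have h1 : ∫ ω', M.x2G lam h θ t p s k sel N₀ ω ω' ∂P' =
        ∫ ω', (M.x2G lam h θ t p s k sel N₀ ω ω' -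
          M.x2GN lam h θ t p s k sel N₀ N ω ω') ∂P' := by
      rw [integral_sub hG hN1, hN2, sub_zero]
    rw [h1]
    exact enorm_integral_le_lintegral_enorm _
  have h0 : ∫⁻ ω, ‖∫ ω', M.x2G lam h θ t p s k sel N₀ ω ω' ∂P'‖ₑ ∂P = 0 := by
    refine le_antisymm (ge_of_tendsto (M.x2_tendsto hh ht lam θ p s k sel hselm N₀) ?_) bot_le
    filter_upwards [eventually_ge_atTop N₀] with N hN
    exact hle N hN
  have hmI : Measurable (fun ω => ‖∫ ω', M.x2G lam h θ t p s k sel N₀ ω ω' ∂P'‖ₑ) :=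
    ((M.x2G_measurable lam h θ ht p s k sel
      hselm N₀).stronglyMeasurable.integral_prod_right').measurable.enorm
  rw [lintegral_eq_zero_iff hmI] at h0
  filter_upwards [h0, hi1, hi12] with ω hω hω1 hω2
  refine ⟨hω1, ?_, ?_⟩
  · -- the total mass
    have hiR : Integrable (M.iR θ p k) P' := by
      refine Integrable.of_bound (M.measurable_iR θ p k).aestronglyMeasurable 1
        (ae_of_all _ fun ω' => ?_)
      rw [Real.norm_eq_abs, abs_of_nonneg (M.iR_nonneg θ p k ω')]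
      exact M.iR_le_one θ p k ω'
    have h1 := (M.x2_int (lam := lam) (t := t) (h := h) hθ p s k hp sel hselm hsel N₀ N₀ ω
      (M.iR θ p k) (M.measurable_iR_𝒢 θ p k) hiR (fun _ => 1) (fun _ => by simp)
      (fun ω' h2 => ⟨by
        by_contra hne
        exact h2 (Set.indicator_of_notMem hne _), fun h3 => absurd h3 (lt_irrefl _)⟩)).2
    have h2 : ∀ ω', M.iR θ p k ω' * (Model.x2WS s k (M.mi θ p ω') (fun j => M.ξ j ω') *
      M.tilt lam h t sel N₀ ω ω' * 1) = M.wS θ p s k ω' * M.tilt lam h t sel N₀ ω ω' := by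
      intro ω'
      rw [M.x2_wS]
      ring
    have h3 : ∀ ω', M.iR θ p k ω' * (if ∃ i < k, s i = true ∧ M.mi θ p ω' i = N₀ then
        (1 : ℝ) else (1 + 1) / 2) = M.iR θ p k ω' := by
      intro ω'
      split_ifs <;> ring
    simp only [h2, h3] at h1
    rw [h1]
    congr 1
    unfold Model.iR
    rw [integral_indicator_const _ (M.𝒢_le _ (M.measurableSet_ER θ p k)), smul_eq_mul, mul_one]
  · simp only [Pi.zero_apply, enorm_eq_zero] at hω
    unfold Model.x2G at hω
    rw [integral_sub hω2 ((hi3 ω).const_mul _), integral_const_mul] at hω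
    have h1 : ∫ ω' in M.ER θ p k, (M.XA h θ t p s k ω ω' - M.x2SY h t sel N₀ ω ω' / 2) ∂P' =
        ∫ ω', M.iR θ p k ω' * (M.XA h θ t p s k ω ω' - M.x2SY h t sel N₀ ω ω' / 2) ∂P' := by
      rw [← integral_indicator (M.𝒢_le _ (M.measurableSet_ER θ p k))]
      refine integral_congr_ae (ae_of_all _ fun ω' => ?_)
      simp only
      by_cases hE : ω' ∈ M.ER θ p k
      · rw [Set.indicator_of_mem hE]
        have : M.iR θ p k ω' = 1 := Set.indicator_of_mem hE _
        rw [this, one_mul]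
      · rw [Set.indicator_of_notMem hE]
        have : M.iR θ p k ω' = 0 := Set.indicator_of_notMem hE _
        rw [this, zero_mul]
    have h2 := sub_eq_zero.1 hω
    rw [← h1] at h2
    exact h2

end

end Pool.Agent.Lib.MP_3d9a2b_pr
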