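import Pool.Agent.Lib.MP_3d9a2b_pr.V.Defs
import Pool.Agent.Lib.MP_3d9a2b_pr.U.Coarse
import Pool.Agent.Lib.MP_3d9a2b_pr.U.LawX

set_option autoImplicit false

/-! Task VF1: conditional expectations given the coarse increments. -/

namespace Pool.Agent.Lib.MP_3d9a2b_pr

open MeasureTheory ProbabilityTheory Filter Topology
open scoped NNReal ENNReal

private theorem gc_nonneg {f f' : ℝ → ℝ} (h0 : f 0 = 0) (hd : ∀ z, HasDerivAt f (f' z) z)
    (hn : ∀ z, 0 ≤ z → 0 ≤ f' z) {z : ℝ} (hz : 0 ≤ z) : 0 ≤ f z := by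
  have h1 : MonotoneOn f (Set.Ici 0) := by
    apply monotoneOn_of_deriv_nonneg (convex_Ici 0)
    · exact fun x _ => (hd x).continuousAt.continuousWithinAt
    · exact fun x _ => (hd x).differentiableAt.differentiableWithinAt
    · intro x hx
      rw [interior_Ici] at hx
      rw [(hd x).deriv]
      exact hn x (le_of_lt hx)
  have h2 := h1 (Set.mem_Ici.2 le_rfl) (Set.mem_Ici.2 hz) hz
  rwa [h0] at h2

private theorem gc_sinh_le {z : ℝ} (hz : 0 ≤ z) : Real.sinh z ≤ z * Real.cosh z := by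
  have h := gc_nonneg (f := fun z => z * Real.cosh z - Real.sinh z)
    (f' := fun z => z * Real.sinh z) (by norm_num) (fun x => by
      have h1 := ((hasDerivAt_id x).mul (Real.hasDerivAt_cosh x)).sub (Real.hasDerivAt_sinh x)
      exact h1.congr_deriv (by simp only [id]; ring)) (fun x hx => mul_nonneg hx (Real.sinh_nonneg_iff.2 hx)) hz
  linarith

private theorem gc_T_deriv (x : ℝ) :
    HasDerivAt (fun z => Real.sinh z / Real.cosh z) (1 - (Real.sinh x / Real.cosh x) ^ 2) x := by
  have hc := (Real.cosh_pos x).ne'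
  have h1 := (Real.hasDerivAt_sinh x).div (Real.hasDerivAt_cosh x) hc
  exact h1.congr_deriv (by field_simp)

private theorem gc_T_nonneg {z : ℝ} (hz : 0 ≤ z) : 0 ≤ Real.sinh z / Real.cosh z :=
  div_nonneg (Real.sinh_nonneg_iff.2 hz) (Real.cosh_pos z).le

private theorem gc_T_le {z : ℝ} (hz : 0 ≤ z) : Real.sinh z / Real.cosh z ≤ z := by
  rw [div_le_iff₀ (Real.cosh_pos z)]
  exact gc_sinh_le hz

private theorem gc_T_ge {z : ℝ} (hz : 0 ≤ z) : 0 ≤ Real.sinh z / Real.cosh z - z + z ^ 3 / 3 := by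
  refine gc_nonneg (f := fun z => Real.sinh z / Real.cosh z - z + z ^ 3 / 3)
    (f' := fun z => z ^ 2 - (Real.sinh z / Real.cosh z) ^ 2) (by simp) (fun x => ?_)
    (fun x hx => ?_) hz
  · have h1 := ((gc_T_deriv x).sub (hasDerivAt_id x)).add (((hasDerivAt_id x).pow 3).div_const 3)
    exact h1.congr_deriv (by simp only [id]; push_cast; ring)
  · have h1 := gc_T_nonneg hx
    have h2 := gc_T_le hx
    nlinarith

private theorem gc_log_cosh_deriv (x : ℝ) :
    HasDerivAt (fun z => Real.log (Real.cosh z)) (Real.sinh x / Real.cosh x) x :=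
  (Real.hasDerivAt_cosh x).log (Real.cosh_pos x).ne'

theorem log_cosh_ge (z : ℝ) : z ^ 2 / 2 - z ^ 4 / 12 ≤ Real.log (Real.cosh z) := by
  have key : ∀ z : ℝ, 0 ≤ z → z ^ 2 / 2 - z ^ 4 / 12 ≤ Real.log (Real.cosh z) := by
    intro z hz
    have h := gc_nonneg (f := fun z => Real.log (Real.cosh z) - z ^ 2 / 2 + z ^ 4 / 12)
      (f' := fun z => Real.sinh z / Real.cosh z - z + z ^ 3 / 3) (by simp) (fun x => by
        have h1 := ((gc_log_cosh_deriv x).sub (((hasDerivAt_id x).pow 2).div_const 2)).add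
          (((hasDerivAt_id x).pow 4).div_const 12)
        exact h1.congr_deriv (by simp only [id]; push_cast; ring)) (fun x hx => gc_T_ge hx) hz
    linarith
  rcases le_total 0 z with h | h
  · exact key z h
  · have h1 := key (-z) (by linarith)
    rw [Real.cosh_neg] at h1
    have e1 : (-z) ^ 2 = z ^ 2 := by ring
    have e2 : (-z) ^ 4 = z ^ 4 := by ring
    rwa [e1, e2] at h1

private theorem gc_log_cosh_nonneg (z : ℝ) : 0 ≤ Real.log (Real.cosh z) :=
  Real.log_nonneg (Real.one_le_cosh z)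

private theorem gc_log_cosh_le (z : ℝ) : Real.log (Real.cosh z) ≤ |z| := by
  rw [Real.log_le_iff_le_exp (Real.cosh_pos z), ← Real.cosh_abs, Real.cosh_eq]
  have h1 : Real.exp (-|z|) ≤ Real.exp |z| := Real.exp_le_exp.2 (by linarith [abs_nonneg z])
  linarith

private theorem gc_meas : Measurable fun z : ℝ => Real.log (Real.cosh z) :=
  Real.measurable_log.comp Real.continuous_cosh.measurable

private theorem gc_int_abs (c : ℝ) (v : ℝ≥0) :
    Integrable (fun z : ℝ => |c| + |z|) (gaussianReal 0 v) :=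
  (integrable_const _).add ((memLp_id_gaussianReal 1).integrable (by norm_num)).abs

private theorem gc_int (c : ℝ) (v : ℝ≥0) :
    Integrable (fun z : ℝ => Real.log (Real.cosh (c + z))) (gaussianReal 0 v) := by
  refine (gc_int_abs c v).mono' (gc_meas.comp (measurable_const.add measurable_id)).aestronglyMeasurable
    (ae_of_all _ fun z => ?_)
  rw [Real.norm_eq_abs, abs_of_nonneg (gc_log_cosh_nonneg _)]
  exact (gc_log_cosh_le _).trans (abs_add_le c z)

private theorem gc_conv (c z : ℝ) :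
    2 * Real.log (Real.cosh z) ≤ Real.log (Real.cosh (c + z)) + Real.log (Real.cosh (-c + z)) := by
  rw [← Real.log_mul (Real.cosh_pos _).ne' (Real.cosh_pos _).ne']
  have h1 : (2 : ℝ) * Real.log (Real.cosh z) = Real.log (Real.cosh z ^ 2) := by
    rw [Real.log_pow]
    norm_num
  rw [h1]
  apply Real.log_le_log (by positivity)
  rw [Real.cosh_add, Real.cosh_add, Real.cosh_neg, Real.sinh_neg]
  have h2 := Real.cosh_sq c
  have h3 := Real.cosh_sq z
  nlinarith [sq_nonneg (Real.sinh c)]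

/-- a shift of the mean increases the expectation of `log cosh` of a centred Gaussian -/
theorem log_cosh_shift (c : ℝ) (v : ℝ≥0) :
    ∫ z, Real.log (Real.cosh z) ∂gaussianReal 0 v ≤
      ∫ z, Real.log (Real.cosh (c + z)) ∂gaussianReal 0 v := by
  have h1 : ∫ z, Real.log (Real.cosh (-c + z)) ∂gaussianReal 0 v =
      ∫ z, Real.log (Real.cosh (c + z)) ∂gaussianReal 0 v := by
    have h2 := gaussianReal_map_neg (μ := 0) (v := v)
    rw [neg_zero] at h2
    have hm : Measurable fun z : ℝ => Real.log (Real.cosh (-c + z)) :=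
      gc_meas.comp (measurable_const.add measurable_id)
    have h3 : ∫ z, Real.log (Real.cosh (-c + z)) ∂((gaussianReal 0 v).map (fun x => -x)) =
        ∫ z, Real.log (Real.cosh (-c + -z)) ∂gaussianReal 0 v :=
      integral_map measurable_neg.aemeasurable hm.aestronglyMeasurable
    rw [h2] at h3
    rw [h3]
    refine integral_congr_ae (ae_of_all _ fun z => ?_)
    have e : -c + -z = -(c + z) := by ring
    simp only [e, Real.cosh_neg]
  have h0 := gc_int 0 v
  simp only [zero_add] at h0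
  have h3 : 2 * ∫ z, Real.log (Real.cosh z) ∂gaussianReal 0 v ≤
      ∫ z, Real.log (Real.cosh (c + z)) ∂gaussianReal 0 v +
      ∫ z, Real.log (Real.cosh (-c + z)) ∂gaussianReal 0 v := by
    rw [← integral_const_mul, ← integral_add (gc_int c v) (gc_int (-c) v)]
    exact integral_mono (h0.const_mul 2) ((gc_int c v).add (gc_int (-c) v)) (gc_conv c)
  rw [h1] at h3
  linarith

/-- `log cosh z ≥ 2 cosh z - cosh (2 z) / 4 - 7 / 4` -/
private theorem gc_poly (z : ℝ) :
    2 * Real.cosh z - Real.cosh (2 * z) / 4 - 7 / 4 ≤ Real.log (Real.cosh z) := by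
  have h1 : ∀ u : ℝ, 0 ≤ u → 0 ≤ Real.log (1 + u) - u + u ^ 2 / 2 := by
    intro u hu
    have hd : MonotoneOn (fun u => Real.log (1 + u) - u + u ^ 2 / 2) (Set.Ici (0 : ℝ)) := by
      have hder : ∀ x : ℝ, 0 ≤ x → HasDerivAt (fun u => Real.log (1 + u) - u + u ^ 2 / 2)
          (1 / (1 + x) - 1 + x) x := by
        intro x hx
        have h1 := ((((hasDerivAt_id x).const_add 1).log (by simp only [id]; linarith)).sub
          (hasDerivAt_id x)).add (((hasDerivAt_id x).pow 2).div_const 2)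
        exact h1.congr_deriv (by simp only [id]; push_cast; ring)
      apply monotoneOn_of_deriv_nonneg (convex_Ici 0)
      · exact fun x hx => (hder x hx).continuousAt.continuousWithinAt
      · rw [interior_Ici]
        exact fun x hx => (hder x (le_of_lt hx)).differentiableAt.differentiableWithinAt
      · intro x hx
        rw [interior_Ici] at hx
        have hx0 : 0 < x := hx
        rw [(hder x hx0.le).deriv]
        have e : 1 / (1 + x) - 1 + x = x ^ 2 / (1 + x) := by
          field_simp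
          ring
        rw [e]
        positivity
    have h2 := hd (Set.mem_Ici.2 le_rfl) (Set.mem_Ici.2 hu) hu
    simpa using h2
  have h2 := h1 (Real.cosh z - 1) (by linarith [Real.one_le_cosh z])
  have e1 : 1 + (Real.cosh z - 1) = Real.cosh z := by ring
  rw [e1] at h2
  rw [Real.cosh_two_mul, Real.sinh_sq]
  nlinarith

private theorem gc_cosh_int (s : ℝ) (v : ℝ≥0) :
    Integrable (fun z : ℝ => Real.cosh (s * z)) (gaussianReal 0 v) ∧
    ∫ z, Real.cosh (s * z) ∂gaussianReal 0 v = Real.exp (v * s ^ 2 / 2) := by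
  have h1 := integrable_exp_mul_gaussianReal (μ := 0) (v := v) s
  have h2 := integrable_exp_mul_gaussianReal (μ := 0) (v := v) (-s)
  have e : (fun z : ℝ => Real.cosh (s * z)) = fun z =>
      (Real.exp (s * z) + Real.exp (-s * z)) / 2 := by
    funext z
    rw [Real.cosh_eq, neg_mul]
  have h3 : ∀ t : ℝ, ∫ z, Real.exp (t * z) ∂gaussianReal 0 v = Real.exp (v * t ^ 2 / 2) := by
    intro t
    have := congrFun (mgf_id_gaussianReal (μ := 0) (v := v)) t
    unfold mgf at this
    simpa using this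
  rw [e]
  refine ⟨(h1.add h2).div_const 2, ?_⟩
  rw [integral_div, integral_add h1 h2, h3, h3, neg_sq]
  ring

/-- `E log cosh Z ≥ v / 2 - 13 v² / 36` for `v ≤ 1/4` -/
private theorem gc_var (v : ℝ≥0) (hv : (v : ℝ) ≤ 1 / 4) :
    (v : ℝ) / 2 - 13 / 36 * (v : ℝ) ^ 2 ≤ ∫ z, Real.log (Real.cosh z) ∂gaussianReal 0 v := by
  obtain ⟨i1, e1⟩ := gc_cosh_int 1 v
  obtain ⟨i2, e2⟩ := gc_cosh_int 2 v
  simp only [one_mul] at i1 e1
  have h0 := gc_int 0 v
  simp only [zero_add] at h0
  have h1 : ∫ z, (2 * Real.cosh z - Real.cosh (2 * z) / 4 - 7 / 4) ∂gaussianReal 0 v ≤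
      ∫ z, Real.log (Real.cosh z) ∂gaussianReal 0 v := by
    refine integral_mono (((i1.const_mul 2).sub (i2.div_const 4)).sub (integrable_const _)) h0
      gc_poly
  have h2 : ∫ z, (2 * Real.cosh z - Real.cosh (2 * z) / 4 - 7 / 4) ∂gaussianReal 0 v =
      2 * Real.exp ((v : ℝ) / 2) - Real.exp (2 * v) / 4 - 7 / 4 := by
    have j1 : Integrable (fun z : ℝ => 2 * Real.cosh z - Real.cosh (2 * z) / 4)
      (gaussianReal 0 v) := (i1.const_mul 2).sub (i2.div_const 4)
    rw [integral_sub j1 (integrable_const _),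
      integral_sub (i1.const_mul 2) (i2.div_const 4), integral_const_mul, integral_div, e1, e2,
      integral_const]
    have a1 : (v : ℝ) * 1 ^ 2 / 2 = (v : ℝ) / 2 := by ring
    have a2 : (v : ℝ) * 2 ^ 2 / 2 = 2 * v := by ring
    rw [a1, a2]
    simp
  rw [h2] at h1
  have hv0 : (0 : ℝ) ≤ v := v.2
  have h3 := Real.quadratic_le_exp_of_nonneg (x := (v : ℝ) / 2) (by linarith)
  have h4 : Real.exp (2 * (v : ℝ)) ≤ 1 + 2 * v + 2 * v ^ 2 + 16 / 9 * v ^ 3 := by
    have h5 := Real.exp_bound (x := 2 * (v : ℝ)) (n := 3) (by rw [abs_of_nonneg (by linarith)]; linarith)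
      (by norm_num)
    have h6 := (abs_le.1 h5).2
    simp only [Finset.sum_range_succ, Finset.sum_range_zero, Nat.factorial, Nat.cast_ofNat] at h6
    rw [abs_of_nonneg (by linarith : (0 : ℝ) ≤ 2 * v)] at h6
    norm_num at h6
    nlinarith
  nlinarith [pow_nonneg hv0 2, pow_nonneg hv0 3, mul_nonneg (pow_nonneg hv0 2) (by linarith : (0:ℝ) ≤ 1/4 - v)]

section
variable {α : ℝ} {Ω Ω' : Type} [MeasurableSpace Ω] [MeasurableSpace Ω'] {P : Measure Ω}
  {P' : Measure Ω'} [IsProbabilityMeasure P] [IsProbabilityMeasure P'] (M : Model α P P')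

/-- increment minus its conditional mean given the coarse increments -/
private noncomputable def gcG (θ l r : ℝ) (j : ℕ) (ω : Ω) : ℝ :=
  (M.B r.toNNReal ω - M.B l.toNNReal ω) - (r - l) / θ * ua_d M θ j ω

private noncomputable def gcD (θ : ℝ) (ω : Ω) (k : ℕ) : ℝ := ua_d M θ k ω

private noncomputable def gcX (lam h θ : ℝ) (d : ℕ → ℝ) (j : ℕ) : ℝ := lam * (d j + h * θ)

private theorem gc_X (lam h θ : ℝ) (ω : Ω) : M.X lam h θ ω = gcX lam h θ (gcD M θ ω) := by
  funext j
  exact ua_X_eq M lam h j ω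

private theorem gc_measurable_gcX (lam h θ : ℝ) : Measurable (gcX lam h θ) := by
  rw [measurable_pi_iff]
  intro j
  exact ((measurable_pi_apply j).add_const _).const_mul _

private theorem gc_measurable_D (θ : ℝ) : Measurable (gcD M θ) := by
  rw [measurable_pi_iff]
  exact fun k => ua_measurable_d M θ k

private theorem gc_measurable_G (θ l r : ℝ) (j : ℕ) : Measurable (gcG M θ l r j) :=
  ((M.measurable_B _).sub (M.measurable_B _)).sub ((ua_measurable_d M θ j).const_mul _)

private theorem gc_memLp_G (θ l r : ℝ) (j : ℕ) : MemLp (gcG M θ l r j) 2 P :=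
  (memLp_incr M.brownian.toIsPreBrownianReal _ _).sub ((ua_memLp_d M θ j).const_mul _)

private theorem gc_cov_inc_d {θ l r : ℝ} (hθ : 0 < θ) (j k : ℕ) (hl : θ * j ≤ l) (hlr : l ≤ r)
    (hr : r ≤ θ * (j + 1)) :
    cov[fun ω => M.B r.toNNReal ω - M.B l.toNNReal ω, ua_d M θ k; P] =
      if j = k then r - l else 0 := by
  have hB := M.brownian.toIsPreBrownianReal
  have hj : 0 ≤ θ * j := by positivity
  have := cov_incr_real hB (a := l) (b := r) (c := θ * k) (d := θ * (k + 1))
    (by linarith) (by linarith) (by positivity) (by positivity)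
  unfold ua_d
  rw [this]
  split_ifs with hjk
  · subst hjk
    rw [min_eq_left hr, min_eq_right (hl.trans hlr), min_eq_left (hlr.trans hr), min_eq_right hl]
    ring
  · rcases Nat.lt_or_gt_of_ne hjk with h | h
    · have h1 : θ * (j + 1) ≤ θ * k := by
        refine mul_le_mul_of_nonneg_left ?_ hθ.le
        exact_mod_cast h
      have h3 : θ * k ≤ θ * (k + 1) := by nlinarith
      have h4 : r ≤ θ * k := hr.trans h1
      have h5 : l ≤ θ * k := hlr.trans h4
      rw [min_eq_left (h4.trans h3), min_eq_left h4, min_eq_left (h5.trans h3), min_eq_left h5]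
      ring
    · have h1 : θ * (k + 1) ≤ θ * j := by
        refine mul_le_mul_of_nonneg_left ?_ hθ.le
        exact_mod_cast h
      have h3 : θ * k ≤ θ * (k + 1) := by nlinarith
      have h4 : θ * (k + 1) ≤ l := h1.trans hl
      have h5 : θ * (k + 1) ≤ r := h4.trans hlr
      rw [min_eq_right h5, min_eq_right (h3.trans h5), min_eq_right h4, min_eq_right (h3.trans h4)]
      ring

private theorem gc_cov_G_d {θ l r : ℝ} (hθ : 0 < θ) (j k : ℕ) (hl : θ * j ≤ l) (hlr : l ≤ r)
    (hr : r ≤ θ * (j + 1)) : cov[gcG M θ l r j, ua_d M θ k; P] = 0 := by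
  unfold gcG
  rw [covariance_fun_sub_left (memLp_incr M.brownian.toIsPreBrownianReal _ _)
    ((ua_memLp_d M θ j).const_mul _) (ua_memLp_d M θ k), covariance_const_mul_left,
    gc_cov_inc_d M hθ j k hl hlr hr, ua_cov_d_d M hθ]
  split_ifs
  · field_simp
    ring
  · ring

private theorem gc_var_G {θ l r : ℝ} (hθ : 0 < θ) (j : ℕ) (hl : θ * j ≤ l) (hlr : l ≤ r)
    (hr : r ≤ θ * (j + 1)) :
    cov[gcG M θ l r j, gcG M θ l r j; P] = (r - l) * (1 - (r - l) / θ) := by
  have hB := M.brownian.toIsPreBrownianReal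
  have hj : 0 ≤ θ * j := by positivity
  have hI : MemLp (fun ω => M.B r.toNNReal ω - M.B l.toNNReal ω) 2 P := memLp_incr hB _ _
  have hd : MemLp (fun ω => (r - l) / θ * ua_d M θ j ω) 2 P := (ua_memLp_d M θ j).const_mul _
  have e1 : cov[gcG M θ l r j, gcG M θ l r j; P] =
      cov[gcG M θ l r j, fun ω => M.B r.toNNReal ω - M.B l.toNNReal ω; P] -
      cov[gcG M θ l r j, fun ω => (r - l) / θ * ua_d M θ j ω; P] :=
    covariance_sub_right (gc_memLp_G M θ l r j) hI hd
  have e2 : cov[gcG M θ l r j, fun ω => M.B r.toNNReal ω - M.B l.toNNReal ω; P] =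
      cov[fun ω => M.B r.toNNReal ω - M.B l.toNNReal ω,
        fun ω => M.B r.toNNReal ω - M.B l.toNNReal ω; P] -
      cov[fun ω => (r - l) / θ * ua_d M θ j ω,
        fun ω => M.B r.toNNReal ω - M.B l.toNNReal ω; P] :=
    covariance_sub_left hI hd hI
  have e3 := cov_incr_real hB (a := l) (b := r) (c := l) (d := r)
    (by linarith) (by linarith) (by linarith) (by linarith)
  rw [min_self, min_self, min_eq_right hlr, min_eq_left hlr] at e3
  rw [e1, e2, covariance_const_mul_right, gc_cov_G_d M hθ j j hl hlr hr, e3,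
    covariance_const_mul_left, covariance_comm, gc_cov_inc_d M hθ j j hl hlr hr, if_pos rfl]
  ring

private theorem gc_gauss (θ l r : ℝ) (j : ℕ) :
    IsGaussianProcess (Sum.elim (fun (_ : Unit) => gcG M θ l r j)
      (fun (k : ℕ) => ua_d M θ k)) P := by
  have h := ua_gauss (P := P) (ι := Unit ⊕ ℕ) M.brownian.toIsPreBrownianReal
    (Sum.elim (fun _ => l.toNNReal) (fun j => (θ * j).toNNReal))
    (Sum.elim (fun _ => r.toNNReal) (fun j => (θ * (j + 1)).toNNReal))
    (Sum.elim (fun _ => 1) (fun _ => -((r - l) / θ)))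
    ((Finset.univ : Finset Unit).disjSum {j}) Sum.inr
  convert h using 2
  · funext u ω
    rw [Finset.sum_disjSum]
    simp only [Sum.elim_inl, Sum.elim_inr, gcG, ua_d, Finset.univ_unique, Finset.sum_singleton]
    ring
  · rfl

private theorem gc_indep {θ l r : ℝ} (hθ : 0 < θ) (j : ℕ) (hl : θ * j ≤ l) (hlr : l ≤ r)
    (hr : r ≤ θ * (j + 1)) : IndepFun (gcG M θ l r j) (gcD M θ) P := by
  have hG := gc_gauss M θ l r j
  have h := hG.indepFun_of_covariance_eq_zero (fun s => hG.aemeasurable (Sum.inl s))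
    (fun t => hG.aemeasurable (Sum.inr t)) (fun s t => gc_cov_G_d M hθ j t hl hlr hr)
  exact h.comp (φ := fun x : Unit → ℝ => x ()) (ψ := fun x : ℕ → ℝ => x) (by fun_prop) (by fun_prop)

private theorem gc_mean_G {θ l r : ℝ} (j : ℕ) : ∫ ω, gcG M θ l r j ω ∂P = 0 := by
  have hB := M.brownian.toIsPreBrownianReal
  unfold gcG
  rw [integral_sub ((memLp_incr hB _ _).integrable (by norm_num))
    (((ua_memLp_d M θ j).const_mul _).integrable (by norm_num)), integral_incr hB,
    integral_const_mul]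
  unfold ua_d
  rw [integral_incr hB]
  ring

private theorem gc_law_G {θ l r : ℝ} (hθ : 0 < θ) (j : ℕ) (hl : θ * j ≤ l) (hlr : l ≤ r)
    (hr : r ≤ θ * (j + 1)) :
    P.map (gcG M θ l r j) = gaussianReal 0 ((r - l) * (1 - (r - l) / θ)).toNNReal := by
  have hG := (gc_gauss M θ l r j).hasGaussianLaw_eval (Sum.inl ())
  simp only [Sum.elim_inl] at hG
  have hv : Var[gcG M θ l r j; P] = (r - l) * (1 - (r - l) / θ) := by
    rw [← covariance_self hG.aemeasurable, gc_var_G M hθ j hl hlr hr]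
  rw [hG.map_eq_gaussianReal, gc_mean_G, hv]

theorem coarse_lin {lam h θ : ℝ} (hlam : 0 < lam) (hθ : 0 < θ) (j : ℕ) {s : ℝ}
    (hs : s ∈ Set.Icc (θ * j) (θ * (j + 1))) (g : (ℕ → ℝ) → ℝ) (hg : Measurable g)
    (hg0 : ∀ x, 0 ≤ g x) (hg1 : ∀ x, g x ≤ 1) :
    ∫ ω, g (M.X lam h θ ω) * (lam * (M.y h s ω - M.y h (θ * j) ω)) ∂P =
      ∫ ω, g (M.X lam h θ ω) * ((s - θ * j) / θ * M.X lam h θ ω j) ∂P := by
  have hgd : Measurable fun d : ℕ → ℝ => g (gcX lam h θ d) := hg.comp (gc_measurable_gcX lam h θ)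
  have hgD : Measurable fun ω => g (M.X lam h θ ω) := by
    simp_rw [gc_X]
    exact hgd.comp (gc_measurable_D M θ)
  have hX2 : MemLp (fun ω => M.X lam h θ ω j) 2 P := by
    simp_rw [ua_X_eq]
    exact ((ua_memLp_d M θ j).add (memLp_const (h * θ))).const_mul lam
  have hGi : Integrable (gcG M θ (θ * j) s j) P :=
    (gc_memLp_G M θ (θ * j) s j).integrable (by norm_num)
  have hbd : ∀ ω, ‖g (M.X lam h θ ω)‖ ≤ 1 := fun ω => by
    rw [Real.norm_eq_abs, abs_of_nonneg (hg0 _)]
    exact hg1 _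
  have i1 : Integrable (fun ω => g (M.X lam h θ ω) * ((s - θ * j) / θ * M.X lam h θ ω j)) P :=
    ((hX2.integrable (by norm_num)).const_mul ((s - θ * j) / θ)).bdd_mul
      hgD.aestronglyMeasurable (ae_of_all _ hbd)
  have i2 : Integrable (fun ω => g (M.X lam h θ ω) * gcG M θ (θ * j) s j ω) P :=
    hGi.bdd_mul hgD.aestronglyMeasurable (ae_of_all _ hbd)
  have e : ∀ ω, g (M.X lam h θ ω) * (lam * (M.y h s ω - M.y h (θ * j) ω)) =
      g (M.X lam h θ ω) * ((s - θ * j) / θ * M.X lam h θ ω j) +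
      lam * (g (M.X lam h θ ω) * gcG M θ (θ * j) s j ω) := by
    intro ω
    rw [ua_X_eq]
    unfold Model.y gcG
    field_simp
    ring
  simp_rw [e]
  rw [integral_add i1 (i2.const_mul lam), integral_const_mul]
  have h0 : ∫ ω, g (M.X lam h θ ω) * gcG M θ (θ * j) s j ω ∂P = 0 := by
    have hind := (gc_indep M hθ j le_rfl hs.1 hs.2).symm.comp
      (φ := fun d : ℕ → ℝ => g (gcX lam h θ d)) (ψ := fun x : ℝ => x) hgd measurable_id
    have h1 := hind.integral_fun_mul_eq_mul_integral (hgd.comp (gc_measurable_D M θ)).aestronglyMeasurable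
      (gc_measurable_G M θ (θ * j) s j).aestronglyMeasurable
    have h2 : ∫ ω, g (M.X lam h θ ω) * gcG M θ (θ * j) s j ω ∂P =
        ∫ ω, ((fun d : ℕ → ℝ => g (gcX lam h θ d)) ∘ gcD M θ) ω *
          ((fun x : ℝ => x) ∘ gcG M θ (θ * j) s j) ω ∂P := by
      refine integral_congr_ae (ae_of_all _ fun ω => ?_)
      simp only [Function.comp, gc_X]
    rw [h2, h1]
    have h3 : ∫ ω, ((fun x : ℝ => x) ∘ gcG M θ (θ * j) s j) ω ∂P = 0 := gc_mean_G M j
    rw [h3, mul_zero]
  rw [h0, mul_zero, add_zero]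

theorem coarse_cosh {lam h θ : ℝ} (hlam : 0 < lam) (hθ : θ = (lam ^ 2)⁻¹) (j : ℕ) {l r : ℝ}
    (hl : θ * j ≤ l) (hlr : l ≤ r) (hr : r ≤ θ * (j + 1)) (g : (ℕ → ℝ) → ℝ) (hg : Measurable g)
    (hg0 : ∀ x, 0 ≤ g x) (hg1 : ∀ x, g x ≤ 1) :
    (∫ ω, g (M.X lam h θ ω) ∂P) * ((r - l) / θ / 2 - ((r - l) / θ) ^ 2) ≤
      ∫ ω, g (M.X lam h θ ω) * Real.log (Real.cosh (lam * (M.y h r ω - M.y h l ω))) ∂P := by
  have hθ0 : 0 < θ := by rw [hθ]; positivity
  set τ : ℝ := (r - l) / θ with hτ
  have hτ0 : 0 ≤ τ := div_nonneg (by linarith) hθ0.le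
  have hτ1 : τ ≤ 1 := by
    rw [hτ, div_le_one hθ0]
    nlinarith
  have hrl : r - l = θ * τ := by
    rw [hτ]
    field_simp
  have hgd : Measurable fun d : ℕ → ℝ => g (gcX lam h θ d) := hg.comp (gc_measurable_gcX lam h θ)
  -- law of `lam G`
  set v : ℝ≥0 := (τ * (1 - τ)).toNNReal with hv
  have hv0 : 0 ≤ τ * (1 - τ) := mul_nonneg hτ0 (by linarith)
  have hvc : (v : ℝ) = τ * (1 - τ) := Real.coe_toNNReal _ hv0
  set G : Ω → ℝ := fun ω => lam * gcG M θ l r j ω with hGdef
  have hGm : Measurable G := (gc_measurable_G M θ l r j).const_mul lam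
  have hlaw : P.map G = gaussianReal 0 v := by
    have h1 : P.map G = (P.map (gcG M θ l r j)).map (fun x => lam * x) := by
      rw [Measure.map_map (measurable_const_mul lam) (gc_measurable_G M θ l r j)]
      rfl
    rw [h1, gc_law_G M hθ0 j hl hlr hr, gaussianReal_map_const_mul, mul_zero]
    congr 1
    apply NNReal.eq
    rw [hvc, NNReal.coe_mul, NNReal.coe_mk, hrl]
    have e1 : θ * τ / θ = τ := by field_simp
    rw [e1, Real.coe_toNNReal _ (mul_nonneg (mul_nonneg hθ0.le hτ0) (by linarith)), hθ]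
    field_simp
  have hind : IndepFun (gcD M θ) G P := by
    exact (gc_indep M hθ0 j hl hlr hr).symm.comp (φ := fun x : ℕ → ℝ => x)
      (ψ := fun x : ℝ => lam * x) measurable_id (measurable_const_mul lam)
  have hprod : P.map (fun ω => (gcD M θ ω, G ω)) = (P.map (gcD M θ)).prod (gaussianReal 0 v) := by
    rw [← hlaw]
    exact (indepFun_iff_map_prod_eq_prod_map_map (gc_measurable_D M θ).aemeasurable
      hGm.aemeasurable).1 hind
  -- the function
  set c : (ℕ → ℝ) → ℝ := fun d => lam * (τ * d j + h * (r - l)) with hc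
  have hcm : Measurable c := by
    have h1 : Measurable fun d : ℕ → ℝ => d j := measurable_pi_apply j
    exact ((h1.const_mul τ).add_const _).const_mul lam
  set f : (ℕ → ℝ) × ℝ → ℝ := fun q => g (gcX lam h θ q.1) * Real.log (Real.cosh (c q.1 + q.2))
    with hf
  have hfm : Measurable f :=
    (hgd.comp measurable_fst).mul (gc_meas.comp ((hcm.comp measurable_fst).add measurable_snd))
  have hfe : ∀ ω, g (M.X lam h θ ω) * Real.log (Real.cosh (lam * (M.y h r ω - M.y h l ω))) =
      f (gcD M θ ω, G ω) := by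
    intro ω
    simp only [hf, hc, hGdef, gc_X]
    congr 3
    unfold Model.y gcG gcD
    rw [← hτ]
    ring
  have hint : Integrable (fun ω => f (gcD M θ ω, G ω)) P := by
    have h1 : MemLp (fun ω => c (gcD M θ ω)) 2 P := by
      simp only [hc]
      exact ((((ua_memLp_d M θ j).const_mul τ)).add (memLp_const (h * (r - l)))).const_mul lam
    have h2 : MemLp G 2 P := (gc_memLp_G M θ l r j).const_mul lam
    refine ((h1.integrable (by norm_num)).abs.add (h2.integrable (by norm_num)).abs).mono'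
      (hfm.comp ((gc_measurable_D M θ).prodMk hGm)).aestronglyMeasurable (ae_of_all _ fun ω => ?_)
    simp only [hf, Pi.add_apply]
    rw [Real.norm_eq_abs, abs_mul, abs_of_nonneg (hg0 _), abs_of_nonneg (gc_log_cosh_nonneg _)]
    calc g (gcX lam h θ (gcD M θ ω)) * Real.log (Real.cosh (c (gcD M θ ω) + G ω))
        ≤ 1 * Real.log (Real.cosh (c (gcD M θ ω) + G ω)) :=
          mul_le_mul_of_nonneg_right (hg1 _) (gc_log_cosh_nonneg _)
      _ = Real.log (Real.cosh (c (gcD M θ ω) + G ω)) := one_mul _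
      _ ≤ |c (gcD M θ ω) + G ω| := gc_log_cosh_le _
      _ ≤ |c (gcD M θ ω)| + |G ω| := abs_add_le _ _
  have hint2 : Integrable f ((P.map (gcD M θ)).prod (gaussianReal 0 v)) := by
    rw [← hprod]
    exact (integrable_map_measure hfm.aestronglyMeasurable
      ((gc_measurable_D M θ).prodMk hGm).aemeasurable).2 hint
  haveI : IsProbabilityMeasure (P.map (gcD M θ)) :=
    Measure.isProbabilityMeasure_map (gc_measurable_D M θ).aemeasurable
  set E : ℝ := ∫ z, Real.log (Real.cosh z) ∂gaussianReal 0 v with hE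
  have hE1 : τ / 2 - τ ^ 2 ≤ E := by
    have h1 := gc_var v (by rw [hvc]; nlinarith [sq_nonneg (2 * τ - 1)])
    rw [hvc] at h1
    have h2 : (τ * (1 - τ)) ^ 2 ≤ τ ^ 2 := by
      have h3 : τ * (1 - τ) ≤ τ := by nlinarith
      exact pow_le_pow_left₀ hv0 h3 2
    nlinarith
  have hgi : Integrable (fun d => g (gcX lam h θ d)) (P.map (gcD M θ)) := by
    refine (integrable_const (1 : ℝ)).mono' hgd.aestronglyMeasurable (ae_of_all _ fun d => ?_)
    rw [Real.norm_eq_abs, abs_of_nonneg (hg0 _)]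
    exact hg1 _
  have e1 : ∫ ω, g (M.X lam h θ ω) *
      Real.log (Real.cosh (lam * (M.y h r ω - M.y h l ω))) ∂P =
      ∫ d, ∫ z, f (d, z) ∂gaussianReal 0 v ∂(P.map (gcD M θ)) := by
    simp_rw [hfe]
    rw [← integral_prod f hint2, ← hprod]
    exact (integral_map ((gc_measurable_D M θ).prodMk hGm).aemeasurable
      hfm.aestronglyMeasurable).symm
  have e2 : ∫ ω, g (M.X lam h θ ω) ∂P = ∫ d, g (gcX lam h θ d) ∂(P.map (gcD M θ)) := by
    simp_rw [gc_X]
    exact (integral_map (gc_measurable_D M θ).aemeasurable hgd.aestronglyMeasurable).symm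
  rw [e1, e2, ← integral_mul_const]
  refine integral_mono (hgi.mul_const _) hint2.integral_prod_left fun d => ?_
  have e3 : ∫ z, f (d, z) ∂gaussianReal 0 v =
      g (gcX lam h θ d) * ∫ z, Real.log (Real.cosh (c d + z)) ∂gaussianReal 0 v := by
    simp only [hf]
    rw [integral_const_mul]
  simp only [e3]
  exact mul_le_mul_of_nonneg_left (hE1.trans (log_cosh_shift (c d) v)) (hg0 _)

end

end Pool.Agent.Lib.MP_3d9a2b_pr
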