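import Mathlib

set_option autoImplicit false

/-! Task VE1: Gibbs' variational principle. -/

namespace Pool.Agent.Lib.MP_3d9a2b_pr

open MeasureTheory ProbabilityTheory Filter Topology
open scoped NNReal ENNReal

/-- VE1. Gibbs' variational principle. -/
theorem gibbs {Ω' : Type} [MeasurableSpace Ω'] {P' : Measure Ω'} [IsProbabilityMeasure P']
    {F Φ r : Ω' → ℝ} (hr0 : ∀ ω, 0 ≤ r ω) (hrΦ : ∀ ω, r ω ≤ Real.exp (Φ ω))
    (hexp : Integrable (fun ω => Real.exp (F ω)) P') (hr : Integrable r P')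
    (hrF : Integrable (fun ω => r ω * (F ω - Φ ω)) P') (hq : 0 < ∫ ω, r ω ∂P') :
    Real.log (∫ ω, r ω ∂P') + (∫ ω, r ω ∂P')⁻¹ * ∫ ω, r ω * (F ω - Φ ω) ∂P' ≤
      Real.log (∫ ω, Real.exp (F ω) ∂P') := by
  set q : ℝ := ∫ ω, r ω ∂P' with hqd
  set m : ℝ := ∫ ω, r ω * (F ω - Φ ω) ∂P' with hm
  set c : ℝ := q⁻¹ * m with hc
  have hcm : c * q = m := by
    rw [hc]
    field_simp
  have hpt : ∀ ω, Real.exp c * (r ω * (1 - c) + r ω * (F ω - Φ ω)) ≤ Real.exp (F ω) := by
    intro ω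
    have h1 : Real.exp c * (1 - c + (F ω - Φ ω)) ≤ Real.exp (F ω - Φ ω) := by
      have h2 := Real.add_one_le_exp (F ω - Φ ω - c)
      have h3 : Real.exp (F ω - Φ ω) = Real.exp c * Real.exp (F ω - Φ ω - c) := by
        rw [← Real.exp_add]
        congr 1
        ring
      rw [h3]
      apply mul_le_mul_of_nonneg_left _ (Real.exp_pos c).le
      linarith
    have h4 : Real.exp (F ω) = Real.exp (Φ ω) * Real.exp (F ω - Φ ω) := by
      rw [← Real.exp_add]
      congr 1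
      ring
    calc Real.exp c * (r ω * (1 - c) + r ω * (F ω - Φ ω))
        = r ω * (Real.exp c * (1 - c + (F ω - Φ ω))) := by ring
      _ ≤ r ω * Real.exp (F ω - Φ ω) := mul_le_mul_of_nonneg_left h1 (hr0 ω)
      _ ≤ Real.exp (Φ ω) * Real.exp (F ω - Φ ω) :=
        mul_le_mul_of_nonneg_right (hrΦ ω) (Real.exp_pos _).le
      _ = Real.exp (F ω) := h4.symm
  have hint : Integrable (fun ω => Real.exp c * (r ω * (1 - c) + r ω * (F ω - Φ ω))) P' :=
    ((hr.mul_const (1 - c)).add hrF).const_mul (Real.exp c)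
  have h5 := integral_mono hint hexp hpt
  rw [integral_const_mul, integral_add (hr.mul_const (1 - c)) hrF, integral_mul_const] at h5
  have h6 : Real.exp c * q ≤ ∫ ω, Real.exp (F ω) ∂P' := by
    refine le_trans (le_of_eq ?_) h5
    rw [← hqd, ← hm, ← hcm]
    ring
  have h7 := Real.log_le_log (mul_pos (Real.exp_pos c) hq) h6
  rw [Real.log_mul (Real.exp_pos c).ne' hq.ne', Real.log_exp] at h7
  linarith

end Pool.Agent.Lib.MP_3d9a2b_pr
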