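import Pool.Agent.Lib.MP_3d9a2b_pr.V.DP
import Pool.Agent.Lib.MP_3d9a2b_pr.V.Blocks

set_option autoImplicit false

/-! Task VJ2: if blocks of `N` cells are good with probability at least `1 / 4` for a gain which
pays for the link to the next good block, then the best gain grows linearly. -/

namespace Pool.Agent.Lib.MP_3d9a2b_pr

open MeasureTheory ProbabilityTheory Filter Topology
open scoped NNReal ENNReal

/-- the best gain of a chain which ends inside the first `m` blocks, with a penalty for the number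
of blocks since the end -/
noncomputable def vU (b L₀ : ℝ) (N m : ℕ) (x : ℕ → ℝ) : ℝ :=
  Finset.sup' (Finset.range (m * N + 1)) ⟨0, by simp⟩
    (fun e => vLL b L₀ e x - |x e| - ((m - e / N : ℕ) : ℝ) / 8)

private theorem vj2_log (g : ℕ) : 2 * Real.log ((g : ℝ) + 1) ≤ (g : ℝ) / 8 + 368 / 100 := by
  have hg : (0 : ℝ) ≤ g := Nat.cast_nonneg g
  have h1 : Real.log (((g : ℝ) + 1) / 16) ≤ ((g : ℝ) + 1) / 16 - 1 :=
    Real.log_le_sub_one_of_pos (by positivity)
  rw [Real.log_div (by positivity) (by norm_num)] at h1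
  have h2 : Real.log 16 = 4 * Real.log 2 := by
    rw [show (16 : ℝ) = 2 ^ 4 by norm_num, Real.log_pow]
    norm_num
  have h3 := Real.log_two_lt_d9
  linarith

private theorem vj2_shx (x : ℕ → ℝ) (m n : ℕ) : shx n (shx m x) = shx (n + m) x := by
  funext j
  unfold shx
  rw [add_assoc]

/-- a jump and the chain before it -/
private theorem vj2_jump (b L₀ : ℝ) {e l : ℕ} (hl : 1 ≤ l) (x : ℕ → ℝ) :
    vLL b L₀ e x - |x e| - 2 * Real.log l - L₀ - |x (l + e)| ≤ vLL b L₀ (e + l) x := by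
  have h1 := vLL_add b L₀ e l x
  have h2 := vLL_jump b L₀ hl (shx e x)
  have h3 : shx e x 0 = x e := by unfold shx; rw [zero_add]
  have h4 : shx e x l = x (l + e) := rfl
  rw [h3, h4] at h2
  linarith

private theorem vj2_step (b L₀ : ℝ) {N m : ℕ} (hN : 1 ≤ N) (x : ℕ → ℝ) :
    vU b L₀ N m x - 1 / 8 ≤ vU b L₀ N (m + 1) x := by
  rw [sub_le_iff_le_add]
  unfold vU
  apply Finset.sup'_le
  intro e he
  rw [Finset.mem_range] at he
  have he1 : e ≤ m * N := Nat.lt_succ_iff.1 he
  have hem : e / N ≤ m := Nat.div_le_of_le_mul (by rw [Nat.mul_comm]; exact he1)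
  have hmem : e ∈ Finset.range ((m + 1) * N + 1) := by
    rw [Finset.mem_range, Nat.succ_mul]
    omega
  have h1 := Finset.le_sup' (f := fun e => vLL b L₀ e x - |x e| - ((m + 1 - e / N : ℕ) : ℝ) / 8) hmem
  have h2 : ((m + 1 - e / N : ℕ) : ℝ) = ((m - e / N : ℕ) : ℝ) + 1 := by
    have : m + 1 - e / N = (m - e / N) + 1 := by omega
    rw [this]
    push_cast
    ring
  beta_reduce at h1
  rw [h2] at h1
  linarith

private theorem vj2_good {b L₀ v : ℝ} {N m : ℕ} (hN : 1 ≤ N) (hL : 0 ≤ L₀) (hv : 2 * Real.log N + L₀ + 5 ≤ v)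
    {x : ℕ → ℝ} (hx : shx (m * N) x ∈ vGood b L₀ N v) :
    vU b L₀ N m x + 1 ≤ vU b L₀ N (m + 1) x := by
  obtain ⟨s', e', hse, he', hv'⟩ := hx
  have hN0 : 0 < N := hN
  have hNr : (0 : ℝ) < N := by exact_mod_cast hN0
  have hlogN : 0 ≤ Real.log N := Real.log_natCast_nonneg N
  rw [vj2_shx] at hv'
  set s : ℕ := s' + m * N with hs
  set e : ℕ := e' + m * N with he
  have hv2 : v ≤ vLL b L₀ (e' - s') (shx s x) - |x s| - |x e| := hv'
  -- the candidate `e` for `m + 1`
  have hdiv : e / N = m := by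
    rw [he, Nat.add_mul_div_right _ _ hN0, Nat.div_eq_of_lt he', zero_add]
  have hmem : e ∈ Finset.range ((m + 1) * N + 1) := by
    rw [Finset.mem_range, Nat.succ_mul]
    omega
  have hle := Finset.le_sup' (f := fun e => vLL b L₀ e x - |x e| - ((m + 1 - e / N : ℕ) : ℝ) / 8) hmem
  beta_reduce at hle
  have h2 : ((m + 1 - e / N : ℕ) : ℝ) = 1 := by
    rw [hdiv]
    have : m + 1 - m = 1 := by omega
    rw [this, Nat.cast_one]
  rw [h2] at hle
  have hle' : vLL b L₀ e x - |x e| - 1 / 8 ≤ vU b L₀ N (m + 1) x := hle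
  have h3 : vLL b L₀ s x + vLL b L₀ (e' - s') (shx s x) ≤ vLL b L₀ e x := by
    have h4 := vLL_add b L₀ s (e' - s') x
    have h5 : s + (e' - s') = e := by omega
    rwa [h5] at h4
  rw [← le_sub_iff_add_le]
  unfold vU
  apply Finset.sup'_le
  intro e0 he0
  rw [Finset.mem_range] at he0
  have he1 : e0 ≤ m * N := Nat.lt_succ_iff.1 he0
  have hem : e0 / N ≤ m := Nat.div_le_of_le_mul (by rw [Nat.mul_comm]; exact he1)
  have hgap0 : (0 : ℝ) ≤ ((m - e0 / N : ℕ) : ℝ) := Nat.cast_nonneg _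
  show vLL b L₀ e0 x - |x e0| - ((m - e0 / N : ℕ) : ℝ) / 8 ≤ vU b L₀ N (m + 1) x - 1
  rcases Nat.eq_or_lt_of_le (show e0 ≤ s by omega) with h6 | h6
  · rw [h6]
    have h7 := abs_nonneg (x s)
    rw [h6] at hgap0
    linarith
  · -- a jump
    obtain ⟨l, hl⟩ : ∃ l, s = e0 + l := ⟨s - e0, by omega⟩
    have hl1 : 1 ≤ l := by omega
    have h7 := vj2_jump b L₀ (e := e0) hl1 x
    rw [← hl, Nat.add_comm l e0, ← hl] at h7
    have hmod : N * (e0 / N) ≤ e0 := Nat.mul_div_le e0 N
    have hle2 : l ≤ (m - e0 / N + 1) * N := by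
      have h8 : (m - e0 / N + 1) * N = m * N - N * (e0 / N) + N := by
        rw [Nat.add_mul, Nat.sub_mul, Nat.mul_comm (e0 / N) N, one_mul]
      rw [h8]
      omega
    have hlr : (0 : ℝ) < l := by exact_mod_cast hl1
    have hlog : Real.log l ≤ Real.log (((m - e0 / N : ℕ) : ℝ) + 1) + Real.log N := by
      rw [← Real.log_mul (by positivity) (by positivity)]
      apply Real.log_le_log hlr
      exact_mod_cast hle2
    have h9 := vj2_log (m - e0 / N)
    linarith

private theorem vj2_last (b : ℝ) {L₀ : ℝ} {N m : ℕ} (hN : 1 ≤ N) (hL : 0 ≤ L₀) (x : ℕ → ℝ) :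
    vU b L₀ N m x - |x (m * N)| - L₀ - 2 * Real.log N - 4 ≤ vLL b L₀ (m * N) x := by
  have hN0 : 0 < N := hN
  have hNr : (0 : ℝ) < N := by exact_mod_cast hN0
  have hlogN : 0 ≤ Real.log N := Real.log_natCast_nonneg N
  have key : vU b L₀ N m x ≤ vLL b L₀ (m * N) x + |x (m * N)| + L₀ + 2 * Real.log N + 4 := by
    unfold vU
    apply Finset.sup'_le
    intro e he
    rw [Finset.mem_range] at he
    have he1 : e ≤ m * N := Nat.lt_succ_iff.1 he
    have hem : e / N ≤ m := Nat.div_le_of_le_mul (by rw [Nat.mul_comm]; exact he1)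
    have hgap0 : (0 : ℝ) ≤ ((m - e / N : ℕ) : ℝ) := Nat.cast_nonneg _
    rcases Nat.eq_or_lt_of_le he1 with h6 | h6
    · rw [h6] at hgap0 ⊢
      have h7 := abs_nonneg (x (m * N))
      linarith
    · obtain ⟨l, hl⟩ : ∃ l, m * N = e + l := ⟨m * N - e, by omega⟩
      have hl1 : 1 ≤ l := by omega
      have h7 := vj2_jump b L₀ (e := e) hl1 x
      rw [← hl, Nat.add_comm l e, ← hl] at h7
      have hmod : N * (e / N) ≤ e := Nat.mul_div_le e N
      have hle2 : l ≤ (m - e / N + 1) * N := by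
        have h8 : (m - e / N + 1) * N = m * N - N * (e / N) + N := by
          rw [Nat.add_mul, Nat.sub_mul, Nat.mul_comm (e / N) N, one_mul]
        rw [h8]
        omega
      have hlr : (0 : ℝ) < l := by exact_mod_cast hl1
      have hlog : Real.log l ≤ Real.log (((m - e / N : ℕ) : ℝ) + 1) + Real.log N := by
        rw [← Real.log_mul (by positivity) (by positivity)]
        apply Real.log_le_log hlr
        exact_mod_cast hle2
      have h9 := vj2_log (m - e / N)
      linarith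
  linarith

private theorem vj2_coord (B : ℝ) (e : ℕ) : Integrable (fun x : ℕ → ℝ => x e) (nuX 1 B) := by
  unfold nuX
  have h1 := measurePreserving_eval_infinitePi
    (fun _ : ℕ => gaussianReal (B * 1) (1 : ℝ).toNNReal) e
  have h2 : Integrable (fun y : ℝ => y) (gaussianReal (B * 1) (1 : ℝ).toNNReal) :=
    (memLp_id_gaussianReal 1).integrable le_rfl
  exact h1.integrable_comp_of_integrable h2

private theorem vj2_int (b L₀ B : ℝ) (N m : ℕ) : Integrable (vU b L₀ N m) (nuX 1 B) := by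
  have hprob : IsProbabilityMeasure (nuX 1 B) := by unfold nuX; infer_instance
  have H : (Finset.range (m * N + 1)).Nonempty := ⟨0, by simp⟩
  have h1 : vU b L₀ N m = Finset.sup' (Finset.range (m * N + 1)) H
      (fun (e : ℕ) (x : ℕ → ℝ) => vLL b L₀ e x - |x e| - ((m - e / N : ℕ) : ℝ) / 8) := by
    funext x
    rw [Finset.sup'_apply]
    rfl
  rw [h1]
  refine Finset.sup'_induction (p := fun f : (ℕ → ℝ) → ℝ => Integrable f (nuX 1 B)) H _ ?_ ?_
  · intro f hf g hg
    exact hf.sup hg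
  · intro e _
    exact ((integrable_vLL b L₀ B e).sub (vj2_coord B e).abs).sub (integrable_const _)

private theorem vj2_exp {b L₀ B v : ℝ} {N : ℕ} (hN : 1 ≤ N) (hL : 0 ≤ L₀)
    (hv : 2 * Real.log N + L₀ + 5 ≤ v) (hg : 1 / 4 ≤ (nuX 1 B).real (vGood b L₀ N v)) (m : ℕ) :
    ∫ x, vU b L₀ N 0 x ∂nuX 1 B + 5 / 32 * m ≤ ∫ x, vU b L₀ N m x ∂nuX 1 B := by
  have hprob : IsProbabilityMeasure (nuX 1 B) := by unfold nuX; infer_instance
  induction m with
  | zero => simp
  | succ m ih =>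
    set G : Set (ℕ → ℝ) := shx (m * N) ⁻¹' vGood b L₀ N v with hG
    have hGm : MeasurableSet G := (measurable_shx _) (measurableSet_vGood b L₀ N v)
    have hGp : (nuX 1 B).real G = (nuX 1 B).real (vGood b L₀ N v) := by
      conv_rhs => rw [← map_shx_nuX 1 B (m * N)]
      rw [map_measureReal_apply (measurable_shx _) (measurableSet_vGood b L₀ N v)]
    have hpt : ∀ x, vU b L₀ N m x - 1 / 8 + G.indicator (fun _ => (9 / 8 : ℝ)) x ≤
        vU b L₀ N (m + 1) x := by
      intro x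
      by_cases hx : x ∈ G
      · rw [Set.indicator_of_mem hx]
        have := vj2_good hN hL hv hx
        linarith
      · rw [Set.indicator_of_notMem hx]
        have := vj2_step b L₀ (m := m) hN x
        linarith
    have i1 : Integrable (fun x => vU b L₀ N m x - 1 / 8) (nuX 1 B) :=
      (vj2_int b L₀ B N m).sub (integrable_const _)
    have i2 : Integrable (G.indicator (fun _ => (9 / 8 : ℝ))) (nuX 1 B) :=
      (integrable_const _).indicator hGm
    have h1 := integral_mono (i1.add i2) (vj2_int b L₀ B N (m + 1)) hpt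
    have h2 : ∫ x, ((fun x => vU b L₀ N m x - 1 / 8) + G.indicator (fun _ => (9 / 8 : ℝ))) x
        ∂nuX 1 B = ∫ x, vU b L₀ N m x ∂nuX 1 B - 1 / 8 + (nuX 1 B).real G * (9 / 8) := by
      rw [integral_add' i1 i2, integral_sub (vj2_int b L₀ B N m) (integrable_const _),
        integral_indicator_const _ hGm, integral_const, smul_eq_mul, smul_eq_mul]
      simp
    rw [h2, hGp] at h1
    push_cast
    linarith

theorem growth {b L₀ B v : ℝ} {N : ℕ} (hN : 1 ≤ N) (hL : 0 ≤ L₀)
    (hv : 2 * Real.log N + L₀ + 5 ≤ v) (hg : 1 / 4 ≤ (nuX 1 B).real (vGood b L₀ N v)) :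
    ∃ ε > 0, ∃ C' : ℝ, ∀ n : ℕ, ε * n - C' ≤ ∫ x, vLL b L₀ n x ∂nuX 1 B := by
  have hprob : IsProbabilityMeasure (nuX 1 B) := by unfold nuX; infer_instance
  have hN0 : 0 < N := hN
  have hNr : (0 : ℝ) < N := by exact_mod_cast hN0
  set P0 : ℝ := ∫ x, |x 0| ∂nuX 1 B with hP0
  set U0 : ℝ := ∫ x, vU b L₀ N 0 x ∂nuX 1 B with hU0
  set K : ℝ := ∑ r ∈ Finset.range N, |∫ x, vLL b L₀ r x ∂nuX 1 B| with hK
  refine ⟨5 / 32 / N, by positivity, 5 / 32 - U0 + P0 + L₀ + 2 * Real.log N + 4 + K, ?_⟩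
  intro n
  -- the multiples of `N`
  have hmul : ∀ m : ℕ, U0 + 5 / 32 * m - P0 - L₀ - 2 * Real.log N - 4 ≤
      ∫ x, vLL b L₀ (m * N) x ∂nuX 1 B := by
    intro m
    have hco : ∫ x, |x (m * N)| ∂nuX 1 B = P0 := by
      have h1 : ∫ y, |y 0| ∂(nuX 1 B).map (shx (m * N)) = ∫ x, |x (m * N)| ∂nuX 1 B := by
        rw [integral_map (measurable_shx _).aemeasurable]
        · unfold shx
          simp only [zero_add]
        · apply Measurable.aestronglyMeasurable
          exact (measurable_pi_apply 0).abs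
      rw [← h1, map_shx_nuX]
    have i0 : Integrable (fun x => vU b L₀ N m x - |x (m * N)|) (nuX 1 B) :=
      (vj2_int b L₀ B N m).sub (vj2_coord B (m * N)).abs
    have i1 : Integrable (fun x => vU b L₀ N m x - |x (m * N)| - (L₀ + 2 * Real.log N + 4))
        (nuX 1 B) := i0.sub (integrable_const _)
    have h2 := integral_mono i1 (integrable_vLL b L₀ B (m * N)) (fun x => by
      have := vj2_last b (m := m) hN hL x
      show vU b L₀ N m x - |x (m * N)| - (L₀ + 2 * Real.log N + 4) ≤ vLL b L₀ (m * N) x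
      linarith)
    have h3 : ∫ x, (vU b L₀ N m x - |x (m * N)| - (L₀ + 2 * Real.log N + 4)) ∂nuX 1 B =
        ∫ x, vU b L₀ N m x ∂nuX 1 B - P0 - (L₀ + 2 * Real.log N + 4) := by
      rw [integral_sub i0 (integrable_const _),
        integral_sub (vj2_int b L₀ B N m) (vj2_coord B (m * N)).abs, hco, integral_const]
      simp
    rw [h3] at h2
    have h4 := vj2_exp hN hL hv hg m
    linarith
  -- the remainder
  set m : ℕ := n / N with hm
  set r : ℕ := n % N with hr
  have hrN : r < N := Nat.mod_lt n hN0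
  have hn : m * N + r = n := by
    rw [Nat.mul_comm]
    exact Nat.div_add_mod n N
  have h5 : ∫ x, vLL b L₀ (m * N) x ∂nuX 1 B + ∫ x, vLL b L₀ r x ∂nuX 1 B ≤
      ∫ x, vLL b L₀ n x ∂nuX 1 B := by
    have hsh : ∫ x, vLL b L₀ r (shx (m * N) x) ∂nuX 1 B = ∫ x, vLL b L₀ r x ∂nuX 1 B := by
      have h1 : ∫ y, vLL b L₀ r y ∂(nuX 1 B).map (shx (m * N)) =
          ∫ x, vLL b L₀ r (shx (m * N) x) ∂nuX 1 B :=
        integral_map (measurable_shx _).aemeasurable
          (measurable_vLL b L₀ r).aestronglyMeasurable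
      rw [← h1, map_shx_nuX]
    have i2 : Integrable (fun x => vLL b L₀ r (shx (m * N) x)) (nuX 1 B) := by
      have h1 : Integrable (vLL b L₀ r) ((nuX 1 B).map (shx (m * N))) := by
        rw [map_shx_nuX]
        exact integrable_vLL b L₀ B r
      exact h1.comp_measurable (measurable_shx _)
    rw [← hsh, ← integral_add (integrable_vLL b L₀ B (m * N)) i2, ← hn]
    apply integral_mono ((integrable_vLL b L₀ B (m * N)).add i2) (integrable_vLL b L₀ B (m * N + r))
    intro x
    exact vLL_add b L₀ (m * N) r x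
  have h6 : -K ≤ ∫ x, vLL b L₀ r x ∂nuX 1 B := by
    have h7 : |∫ x, vLL b L₀ r x ∂nuX 1 B| ≤ K :=
      Finset.single_le_sum (f := fun r => |∫ x, vLL b L₀ r x ∂nuX 1 B|)
        (fun _ _ => abs_nonneg _) (Finset.mem_range.2 hrN)
    have h8 := neg_abs_le (∫ x, vLL b L₀ r x ∂nuX 1 B)
    linarith
  have h7 := hmul m
  have h8 : (n : ℝ) ≤ (N : ℝ) * ((m : ℝ) + 1) := by
    have : n ≤ N * (m + 1) := by
      rw [← hn]
      nlinarith
    exact_mod_cast this
  have h9 : 5 / 32 / (N : ℝ) * n ≤ 5 / 32 * ((m : ℝ) + 1) := by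
    rw [div_mul_eq_mul_div, div_le_iff₀ hNr]
    nlinarith
  linarith

end Pool.Agent.Lib.MP_3d9a2b_pr
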