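import Pool.Agent.Lib.MP_3d9a2b_pr.V.Exch2
import Pool.Agent.Lib.MP_3d9a2b_pr.V.Gibbs

set_option autoImplicit false

/-! Task VE3: Jensen's inequality with respect to `R` only, the signs of the selected
excursions being summed exactly (this gives the terms `log cosh`). -/

namespace Pool.Agent.Lib.MP_3d9a2b_pr

open MeasureTheory ProbabilityTheory Filter Topology
open scoped NNReal ENNReal

namespace Model

variable {α : ℝ} {Ω Ω' : Type} [MeasurableSpace Ω] [mΩ' : MeasurableSpace Ω'] {P : Measure Ω}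
  {P' : Measure Ω'} (M : Model α P P')

theorem ve3_bit [IsProbabilityMeasure P'] (n : ℕ) (φ : Bool → ℝ) :
    ∫ ω', φ (M.ξ n ω') ∂P' = (φ true + φ false) / 2 := by
  classical
  have h1 : ∀ ω', φ (M.ξ n ω') = φ false + (φ true - φ false) *
      (M.ξ n ⁻¹' {true}).indicator (fun _ => (1 : ℝ)) ω' := by
    intro ω'
    rw [Set.indicator_apply]
    cases h : M.ξ n ω' <;> simp [h]
  have hm : MeasurableSet (M.ξ n ⁻¹' {true}) := M.measurable_ξ n MeasurableSet.of_discrete
  have h2 : P'.real (M.ξ n ⁻¹' {true}) = 1 / 2 := by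
    rw [measureReal_def, M.fair' n true]
    simp
  simp_rw [h1]
  rw [integral_add (integrable_const _)
    (((integrable_const _).indicator hm).const_mul _), integral_const_mul,
    integral_indicator_const _ hm, h2]
  simp
  ring

theorem ve3_bits [IsProbabilityMeasure P'] (S : Finset ℕ) (φ : ℕ → Bool → ℝ) :
    ∫ ω', ∏ j ∈ S, φ j (M.ξ j ω') ∂P' = ∏ j ∈ S, (φ j true + φ j false) / 2 := by
  have h := M.iIndep_ξ.precomp (g := fun j : S => (j : ℕ)) Subtype.val_injective
  have h2 := h.integral_fun_prod_comp (f := fun j : S => φ j)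
    (fun j => (M.measurable_ξ j).aemeasurable)
    (fun j => (measurable_of_countable _).aestronglyMeasurable)
  have h3 : ∀ ω', ∏ j ∈ S, φ j (M.ξ j ω') = ∏ j : S, φ j (M.ξ j ω') := fun ω' =>
    (Finset.prod_coe_sort S fun j => φ j (M.ξ j ω')).symm
  simp_rw [h3]
  rw [h2, ← Finset.prod_coe_sort S fun j => (φ j true + φ j false) / 2]
  exact Finset.prod_congr rfl fun j _ => M.ve3_bit j (φ j)

end Model

theorem vtw_nonneg (c : ℝ) (b : Bool) : 0 ≤ vtw c b := by
  unfold vtw
  have := Real.exp_pos c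
  split_ifs <;> positivity

theorem vtw_le_two (c : ℝ) (b : Bool) : vtw c b ≤ 2 := by
  unfold vtw
  have := Real.exp_pos c
  rw [div_le_iff₀ (by positivity)]
  split_ifs <;> nlinarith

theorem vtw_mean (c : ℝ) : (vtw c true + vtw c false) / 2 = 1 := by
  unfold vtw
  have := Real.exp_pos c
  simp only [if_true, Bool.false_eq_true, if_false]
  field_simp
  ring

theorem vtw_eq_exp (c : ℝ) (b : Bool) : vtw c b =
    Real.exp ((if b = true then c else 0) + (Real.log 2 - Real.log (1 + Real.exp c))) := by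
  unfold vtw
  have := Real.exp_pos c
  rw [Real.exp_add, Real.exp_sub, Real.exp_log (by norm_num), Real.exp_log (by positivity)]
  split_ifs
  · ring
  · rw [Real.exp_zero]; ring

theorem measurable_vtw : Measurable (fun q : ℝ × Bool => vtw q.1 q.2) := by
  unfold vtw
  refine Measurable.div ?_ ?_
  · refine Measurable.const_mul ?_ _
    refine Measurable.ite ?_ (Real.measurable_exp.comp measurable_fst) measurable_const
    exact measurable_snd (measurableSet_singleton true)
  · exact measurable_const.add (Real.measurable_exp.comp measurable_fst)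

namespace Model

variable {α : ℝ} {Ω Ω' : Type} [MeasurableSpace Ω] [mΩ' : MeasurableSpace Ω'] {P : Measure Ω}
  {P' : Measure Ω'} (M : Model α P P')

open Classical in
/-- the signs of the scenario and the tilted bits, for frozen excursions -/
theorem ve3_fixed [IsProbabilityMeasure P'] (s : ℕ → Bool) (k N₀ : ℕ) (m : ℕ → ℕ) (c : ℕ → ℝ)
    (l : ℕ → Bool) (hm : ∀ i < k, ∀ j < k, m i = m j → i = j)
    (hl : ∀ n, l n = true → ∀ i < k, s i = true → n ≠ m i) :
    ∫ ω', (∏ i ∈ Finset.range k, (if s i = true then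
        (if M.ξ (m i) ω' = true then (0 : ℝ) else 1) else 1)) *
      (∏ n ∈ Finset.range N₀, if l n = true then vtw (c n) (M.ξ n ω') else 1) ∂P' =
    (1 / 2) ^ ((Finset.range k).filter (fun i => s i = true)).card := by
  set A := (Finset.range k).filter (fun i => s i = true) with hA
  set S1 := A.image m with hS1
  set S2 := (Finset.range N₀).filter (fun n => l n = true) with hS2
  have hinj : Set.InjOn m A := by
    intro i hi j hj h
    rw [hA, Finset.coe_filter] at hi hj
    exact hm i (Finset.mem_range.1 hi.1) j (Finset.mem_range.1 hj.1) h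
  have hdisj : Disjoint S1 S2 := by
    rw [Finset.disjoint_left]
    intro n hn1 hn2
    rw [hS1, Finset.mem_image] at hn1
    obtain ⟨i, hi, hin⟩ := hn1
    rw [hA, Finset.mem_filter, Finset.mem_range] at hi
    rw [hS2, Finset.mem_filter] at hn2
    exact hl n hn2.2 i hi.1 hi.2 hin.symm
  let φ : ℕ → Bool → ℝ := fun j b => if j ∈ S1 then (if b = true then 0 else 1) else vtw (c j) b
  have h1 : ∀ ω', (∏ i ∈ Finset.range k, (if s i = true then
        (if M.ξ (m i) ω' = true then (0 : ℝ) else 1) else 1)) *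
      (∏ n ∈ Finset.range N₀, if l n = true then vtw (c n) (M.ξ n ω') else 1) =
      ∏ j ∈ S1 ∪ S2, φ j (M.ξ j ω') := by
    intro ω'
    have a1 : ∏ i ∈ Finset.range k, (if s i = true then
        (if M.ξ (m i) ω' = true then (0 : ℝ) else 1) else 1) =
        ∏ i ∈ A, (if M.ξ (m i) ω' = true then (0 : ℝ) else 1) :=
      (Finset.prod_filter _ _).symm
    have a2 : (∏ n ∈ Finset.range N₀, if l n = true then vtw (c n) (M.ξ n ω') else 1) =
        ∏ n ∈ S2, vtw (c n) (M.ξ n ω') := (Finset.prod_filter _ _).symm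
    rw [Finset.prod_union hdisj, hS1, Finset.prod_image hinj, a1, a2]
    congr 1
    · refine Finset.prod_congr rfl fun i hi => ?_
      have : m i ∈ S1 := Finset.mem_image_of_mem m hi
      simp only [φ, if_pos this]
    · refine Finset.prod_congr rfl fun n hn => ?_
      have : n ∉ S1 := fun h => Finset.disjoint_left.1 hdisj h hn
      simp only [φ, if_neg this]
  simp_rw [h1]
  rw [M.ve3_bits, Finset.prod_union hdisj]
  have h2 : ∏ j ∈ S1, (φ j true + φ j false) / 2 = (1 / 2) ^ A.card := by
    rw [← Finset.card_image_of_injOn hinj, ← hS1, ← Finset.prod_const]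
    refine Finset.prod_congr rfl fun j hj => ?_
    simp [φ, if_pos hj]
  have h3 : ∏ j ∈ S2, (φ j true + φ j false) / 2 = 1 := by
    refine Finset.prod_eq_one fun j hj => ?_
    have : j ∉ S1 := fun h => Finset.disjoint_left.1 hdisj h hj
    simp only [φ, if_neg this]
    exact vtw_mean _
  rw [h2, h3, mul_one]

open Classical in
/-- the conditional mean of `wS * tilt` -/
theorem ve3_mean [IsProbabilityMeasure P'] {lam h θ t : ℝ} (hθ : 0 < θ)
    (p : ℕ → ℕ) (s : ℕ → Bool) (k : ℕ) (hp : ∀ i < k, p i < p (i + 1))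
    (sel : ℕ → Set Ω') (hselm : ∀ n, MeasurableSet[M.𝒢] (sel n))
    (hsel : ∀ ω' ∈ M.ER θ p k, ∀ n, ω' ∈ sel n → ∀ i < k, s i = true → n ≠ M.mi θ p ω' i)
    (N₀ : ℕ) (ω : Ω) (g : Ω' → ℝ) (hg : Measurable[M.𝒢] g) (C : ℝ) (hC : ∀ ω', |g ω'| ≤ C) :
    ∫ ω', M.wS θ p s k ω' * M.tilt lam h t sel N₀ ω ω' * g ω' ∂P' =
        (1 / 2) ^ ((Finset.range k).filter (fun i => s i = true)).card *
          ∫ ω' in M.ER θ p k, g ω' ∂P' := by
  let X : Ω' → ℝ × (ℕ → ℕ) × (ℕ → ℝ) × (ℕ → Bool) := fun ω' =>
    (M.iR θ p k ω' * g ω', M.mi θ p ω', (fun n => -2 * lam * M.yinc h t n ω ω'),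
      fun n => decide (ω' ∈ sel n))
  have hX : Measurable[M.𝒢] X := by
    refine ((M.measurable_iR_𝒢 θ p k).mul hg).prodMk ((M.measurable_mi θ p).prodMk
      (Measurable.prodMk ?_ ?_))
    · exact @measurable_pi_lambda Ω' ℕ (fun _ => ℝ) M.𝒢 _ _ fun n =>
        (M.measurable_yinc_𝒢 h t n ω).const_mul _
    · refine @measurable_pi_lambda Ω' ℕ (fun _ => Bool) M.𝒢 _ _ fun n => ?_
      refine @measurable_to_bool Ω' M.𝒢 _ ?_
      have : (fun ω' => decide (ω' ∈ sel n)) ⁻¹' {true} = sel n := by
        ext ω'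
        simp
      rw [this]
      exact hselm n
  let F : (ℝ × (ℕ → ℕ) × (ℕ → ℝ) × (ℕ → Bool)) × (ℕ → Bool) → ℝ := fun q =>
    q.1.1 * ((∏ i ∈ Finset.range k, (if s i = true then
        (if q.2 (q.1.2.1 i) = true then (0 : ℝ) else 1) else 1)) *
      (∏ n ∈ Finset.range N₀, if q.1.2.2.2 n = true then vtw (q.1.2.2.1 n) (q.2 n) else 1))
  have hF : Measurable F := by
    refine (measurable_fst.comp measurable_fst).mul (Measurable.mul ?_ ?_)
    · refine Finset.measurable_fun_prod _ fun i _ => ?_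
      by_cases hs : s i = true
      · simp only [if_pos hs]
        have h1 : Measurable (fun q : (ℝ × (ℕ → ℕ) × (ℕ → ℝ) × (ℕ → Bool)) × (ℕ → Bool) =>
            q.2 (q.1.2.1 i)) := by
          have h0 : Measurable (fun q : (ℝ × (ℕ → ℕ) × (ℕ → ℝ) × (ℕ → Bool)) × (ℕ → Bool) =>
              (q.1.2.1 i, q.2)) :=
            ((measurable_pi_apply i).comp (measurable_fst.comp (measurable_snd.comp
              measurable_fst))).prodMk measurable_snd
          exact Measurable.comp (g := fun q : ℕ × (ℕ → Bool) => q.2 q.1) measurable_eval h0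
        exact (measurable_of_countable (fun b : Bool => if b = true then (0 : ℝ) else 1)).comp h1
      · simp only [if_neg hs]
        exact measurable_const
    · refine Finset.measurable_fun_prod _ fun n _ => ?_
      have hc : Measurable (fun q : (ℝ × (ℕ → ℕ) × (ℕ → ℝ) × (ℕ → Bool)) × (ℕ → Bool) =>
            q.1.2.2.1 n) := (measurable_pi_apply n).comp (measurable_fst.comp
              (measurable_snd.comp (measurable_snd.comp measurable_fst)))
      have hl : Measurable (fun q : (ℝ × (ℕ → ℕ) × (ℕ → ℝ) × (ℕ → Bool)) × (ℕ → Bool) =>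
            q.1.2.2.2 n) := (measurable_pi_apply n).comp (measurable_snd.comp
              (measurable_snd.comp (measurable_snd.comp measurable_fst)))
      have hb : Measurable (fun q : (ℝ × (ℕ → ℕ) × (ℕ → ℝ) × (ℕ → Bool)) × (ℕ → Bool) =>
            q.2 n) := (measurable_pi_apply n).comp measurable_snd
      refine Measurable.ite (hl (measurableSet_singleton true)) ?_ measurable_const
      exact Measurable.comp (g := fun q : ℝ × Bool => vtw q.1 q.2) measurable_vtw (hc.prodMk hb)
  have hC0 : 0 ≤ C := by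
    obtain ⟨ω'⟩ := nonempty_of_isProbabilityMeasure P'
    exact (abs_nonneg _).trans (hC ω')
  have hFb : ∀ ω', |F (X ω', fun n => M.ξ n ω')| ≤ C * 2 ^ N₀ := by
    intro ω'
    simp only [F, X]
    rw [abs_mul, abs_mul, abs_mul]
    have e1 : |M.iR θ p k ω'| * |g ω'| ≤ C := by
      rw [abs_of_nonneg (M.iR_nonneg θ p k ω')]
      calc _ ≤ 1 * C := mul_le_mul (M.iR_le_one θ p k ω') (hC ω') (abs_nonneg _) zero_le_one
        _ = C := one_mul C
    have e2 : |∏ i ∈ Finset.range k, (if s i = true then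
        (if M.ξ (M.mi θ p ω' i) ω' = true then (0 : ℝ) else 1) else 1)| ≤ 1 := by
      rw [Finset.abs_prod]
      refine Finset.prod_le_one (fun i _ => abs_nonneg _) fun i _ => ?_
      split_ifs <;> simp
    have e3 : |∏ n ∈ Finset.range N₀, if decide (ω' ∈ sel n) = true then
        vtw (-2 * lam * M.yinc h t n ω ω') (M.ξ n ω') else 1| ≤ 2 ^ N₀ := by
      rw [Finset.abs_prod]
      refine (Finset.prod_le_prod (fun n _ => abs_nonneg _) (g := fun _ => (2 : ℝ))
        fun n _ => ?_).trans (by simp)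
      split_ifs
      · rw [abs_of_nonneg (vtw_nonneg _ _)]
        exact vtw_le_two _ _
      · simp
    refine mul_le_mul e1 ?_ (by positivity) hC0
    calc _ ≤ 1 * 2 ^ N₀ := mul_le_mul e2 e3 (abs_nonneg _) zero_le_one
      _ = 2 ^ N₀ := one_mul _
  have hint : Integrable (fun ω' => F (X ω', fun n => M.ξ n ω')) P' := by
    refine Integrable.of_bound (hF.comp ((hX.mono M.𝒢_le le_rfl).prodMk
      M.measurable_bits)).aestronglyMeasurable (C * 2 ^ N₀) (ae_of_all _ fun ω' => ?_)
    rw [Real.norm_eq_abs]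
    exact hFb ω'
  have h0 := M.freeze X hX F hF hint
  have h1 : ∀ ω', M.wS θ p s k ω' * M.tilt lam h t sel N₀ ω ω' * g ω' =
      F (X ω', fun n => M.ξ n ω') := by
    intro ω'
    simp only [F, X, wS, tilt, decide_eq_true_eq]
    ring
  simp_rw [h1]
  rw [h0, ← integral_indicator (M.𝒢_le _ (M.measurableSet_ER θ p k)), ← integral_const_mul]
  refine integral_congr_ae (ae_of_all _ fun ω' => ?_)
  simp only [F]
  rw [integral_const_mul]
  by_cases hω' : ω' ∈ M.ER θ p k
  · rw [M.ve3_fixed s k N₀ (X ω').2.1 (X ω').2.2.1 (X ω').2.2.2 (M.ER_inj hθ hp hω')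
      (fun n hn i hi hs => hsel ω' hω' n (by simpa [X] using hn) i hi hs),
      Set.indicator_of_mem hω']
    simp only [X, iR, Set.indicator_of_mem hω', one_mul]
    ring
  · rw [Set.indicator_of_notMem hω']
    simp only [X, iR, Set.indicator_of_notMem hω']
    ring

end Model

section
variable {α : ℝ} {Ω Ω' : Type} [MeasurableSpace Ω] [MeasurableSpace Ω'] {P : Measure Ω}
  {P' : Measure Ω'} [IsProbabilityMeasure P] [IsProbabilityMeasure P'] (M : Model α P P')

theorem ve3_cosh (x : ℝ) : x - (Real.log 2 - Real.log (1 + Real.exp (-2 * x))) =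
    Real.log (Real.cosh x) := by
  have h1 : Real.cosh x = Real.exp x * ((1 + Real.exp (-2 * x)) / 2) := by
    rw [Real.cosh_eq, mul_div_assoc', mul_add, ← Real.exp_add]
    ring_nf
  rw [h1, Real.log_mul (Real.exp_pos _).ne' (by positivity), Real.log_exp,
    Real.log_div (by positivity) (by norm_num)]
  ring

open Classical in
/-- VE3. -/
theorem log_Z_ge_cosh {lam h θ t : ℝ} (hlam : 0 < lam) (hh : 0 ≤ h) (hθ : 0 < θ) (ht : 0 ≤ t)
    (p : ℕ → ℕ) (s : ℕ → Bool) (k : ℕ) (hp0 : p 0 = 0) (hp : ∀ i < k, p i < p (i + 1))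
    (hpos : 0 < P'.real (M.ER θ p k))
    (sel : ℕ → Set Ω') (hselm : ∀ n, MeasurableSet[M.𝒢] (sel n))
    (hsel : ∀ ω' ∈ M.ER θ p k, ∀ n, ω' ∈ sel n → ∀ i < k, s i = true → n ≠ M.mi θ p ω' i)
    (N₀ : ℕ) : ∀ᵐ ω ∂P,
      Real.log (P'.real (M.ER θ p k)) -
        ((Finset.range k).filter (fun i => s i = true)).card * Real.log 2 +
        (P'.real (M.ER θ p k))⁻¹ * ∫ ω' in M.ER θ p k, (-2 * lam * M.XA h θ t p s k ω ω' +
          ∑ n ∈ Finset.range N₀, if ω' ∈ sel n then
            Real.log (Real.cosh (lam * M.yinc h t n ω ω')) else 0) ∂P' ≤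
      Real.log (M.Z lam h t ω) := by
  filter_upwards [M.ae_integrable_exp hlam hh ht,
    ae_exchange2 M hlam hh hθ ht p s k hp0 hp sel hselm hsel N₀] with ω hexp hexch
  obtain ⟨hi, hq, hE⟩ := hexch
  set m := ((Finset.range k).filter (fun i => s i = true)).card with hm
  set q := P'.real (M.ER θ p k) with hqd
  obtain ⟨C, hC0, hC⟩ := M.exists_bound_yinc h ht ω
  have hselm' : ∀ n, MeasurableSet (sel n) := fun n => M.𝒢_le _ (hselm n)
  have hymeas : ∀ n, Measurable (fun ω' => M.yinc h t n ω ω') := fun n =>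
    (M.measurable_yinc_𝒢 h t n ω).mono M.𝒢_le le_rfl
  -- the `𝒢`-measurable part of the exponent
  let g1 : ℕ → Ω' → ℝ := fun n ω' =>
    Real.log 2 - Real.log (1 + Real.exp (-2 * lam * M.yinc h t n ω ω'))
  let g0 : Ω' → ℝ := fun ω' => ∑ n ∈ Finset.range N₀, if ω' ∈ sel n then g1 n ω' else 0
  let b1 : ℝ := Real.log 2 + Real.log (1 + Real.exp (2 * lam * C))
  have hexple : ∀ n ω', Real.exp (-2 * lam * M.yinc h t n ω ω') ≤ Real.exp (2 * lam * C) := by
    intro n ω'
    apply Real.exp_le_exp.2
    have := neg_le_of_abs_le (hC n ω')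
    nlinarith
  have hg1b : ∀ n ω', |g1 n ω'| ≤ b1 := by
    intro n ω'
    simp only [g1, b1]
    have e0 := Real.exp_pos (-2 * lam * M.yinc h t n ω ω')
    have e1 : 0 ≤ Real.log (1 + Real.exp (-2 * lam * M.yinc h t n ω ω')) :=
      Real.log_nonneg (by linarith)
    have e2 : Real.log (1 + Real.exp (-2 * lam * M.yinc h t n ω ω')) ≤
        Real.log (1 + Real.exp (2 * lam * C)) :=
      Real.log_le_log (by positivity) (by linarith [hexple n ω'])
    have e3 : 0 ≤ Real.log 2 := Real.log_nonneg (by norm_num)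
    rw [abs_le]
    constructor <;> linarith
  have hb1 : 0 ≤ b1 := by
    have e3 : 0 ≤ Real.log 2 := Real.log_nonneg (by norm_num)
    have e4 : 0 ≤ Real.log (1 + Real.exp (2 * lam * C)) :=
      Real.log_nonneg (by linarith [Real.exp_pos (2 * lam * C)])
    simp only [b1]
    positivity
  have hg1m : ∀ n, Measurable[M.𝒢] (g1 n) := by
    intro n
    refine measurable_const.sub (Real.measurable_log.comp (measurable_const.add
      (Real.measurable_exp.comp ((M.measurable_yinc_𝒢 h t n ω).const_mul _))))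
  have hg0m : Measurable[M.𝒢] g0 := by
    refine Finset.measurable_fun_sum _ fun n _ => ?_
    exact Measurable.ite (hselm n) (hg1m n) measurable_const
  have hg0b : ∀ ω', |g0 ω'| ≤ N₀ * b1 := by
    intro ω'
    refine (Finset.abs_sum_le_sum_abs _ _).trans ?_
    refine (Finset.sum_le_card_nsmul _ _ b1 fun n _ => ?_).trans (by simp)
    split_ifs
    · exact hg1b n ω'
    · simpa using hb1
  have hmean := M.ve3_mean (lam := lam) (h := h) (t := t) hθ p s k hp sel hselm hsel N₀ ω g0 hg0m
    (N₀ * b1) hg0b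
  rw [← hm] at hmean
  -- the density and its logarithm
  let r : Ω' → ℝ := fun ω' => M.wS θ p s k ω' * M.tilt lam h t sel N₀ ω ω'
  let Φ : Ω' → ℝ := fun ω' => ∑ n ∈ Finset.range N₀, if ω' ∈ sel n then
    (if M.ξ n ω' = true then -2 * lam * M.yinc h t n ω ω' else 0) + g1 n ω' else 0
  have hwS0 : ∀ ω', 0 ≤ M.wS θ p s k ω' := by
    intro ω'
    unfold Model.wS
    refine mul_nonneg (M.iR_nonneg θ p k ω') (Finset.prod_nonneg fun i _ => ?_)
    split_ifs <;> simp
  have hwS1 : ∀ ω', M.wS θ p s k ω' ≤ 1 := by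
    intro ω'
    unfold Model.wS
    refine mul_le_one₀ (M.iR_le_one θ p k ω') (Finset.prod_nonneg fun i _ => ?_)
      (Finset.prod_le_one (fun i _ => ?_) (fun i _ => ?_))
    all_goals split_ifs <;> simp
  have htilt : ∀ ω', M.tilt lam h t sel N₀ ω ω' = Real.exp (Φ ω') := by
    intro ω'
    simp only [Φ]
    rw [Real.exp_sum]
    unfold Model.tilt
    refine Finset.prod_congr rfl fun n _ => ?_
    split_ifs with h1 h2
    · rw [vtw_eq_exp, if_pos h2]
    · rw [vtw_eq_exp, if_neg h2]
    · rw [Real.exp_zero]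
  have htilt0 : ∀ ω', 0 ≤ M.tilt lam h t sel N₀ ω ω' := fun ω' => by
    rw [htilt]; exact (Real.exp_pos _).le
  have htilt2 : ∀ ω', M.tilt lam h t sel N₀ ω ω' ≤ 2 ^ N₀ := by
    intro ω'
    unfold Model.tilt
    refine (Finset.prod_le_prod (fun n _ => ?_) (g := fun _ => (2 : ℝ))
      fun n _ => ?_).trans (by simp)
    · split_ifs
      · exact vtw_nonneg _ _
      · exact zero_le_one
    · split_ifs
      · exact vtw_le_two _ _
      · norm_num
  have hr0 : ∀ ω', 0 ≤ r ω' := fun ω' => mul_nonneg (hwS0 ω') (htilt0 ω')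
  have hrΦ : ∀ ω', r ω' ≤ Real.exp (Φ ω') := by
    intro ω'
    simp only [r]
    rw [← htilt]
    calc _ ≤ 1 * M.tilt lam h t sel N₀ ω ω' :=
        mul_le_mul_of_nonneg_right (hwS1 ω') (htilt0 ω')
      _ = _ := one_mul _
  have hΦm : Measurable Φ := by
    refine Finset.measurable_fun_sum _ fun n _ => ?_
    refine Measurable.ite (hselm' n) (Measurable.add ?_ ((hg1m n).mono M.𝒢_le le_rfl))
      measurable_const
    exact Measurable.ite (M.measurable_ξ n (measurableSet_singleton true))
      ((hymeas n).const_mul _) measurable_const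
  have hΦb : ∀ ω', |Φ ω'| ≤ N₀ * (2 * lam * C + b1) := by
    intro ω'
    refine (Finset.abs_sum_le_sum_abs _ _).trans ?_
    refine (Finset.sum_le_card_nsmul _ _ (2 * lam * C + b1) fun n _ => ?_).trans
      (le_of_eq (by rw [Finset.card_range, nsmul_eq_mul]))
    have e1 : |(-2 : ℝ) * lam * M.yinc h t n ω ω'| ≤ 2 * lam * C := by
      rw [abs_mul, abs_mul, abs_neg, abs_of_pos hlam, abs_two]
      exact mul_le_mul_of_nonneg_left (hC n ω') (by positivity)
    split_ifs
    · exact (abs_add_le _ _).trans (add_le_add e1 (hg1b n ω'))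
    · rw [zero_add]
      exact (hg1b n ω').trans (by linarith [mul_nonneg (mul_nonneg zero_le_two hlam.le) hC0])
    · rw [abs_zero]; positivity
  have hwSm : Measurable (M.wS θ p s k) := by
    unfold Model.wS
    refine (M.measurable_iR θ p k).mul (Finset.measurable_fun_prod _ fun i _ => ?_)
    by_cases hs : s i = true
    · simp only [if_pos hs]
      have h0 : Measurable (fun ω' => (M.mi θ p ω' i, fun n => M.ξ n ω')) :=
        ((measurable_pi_apply i).comp (M.measurable_mi' θ p)).prodMk M.measurable_bits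
      have h1 : Measurable (fun ω' => M.ξ (M.mi θ p ω' i) ω') :=
        Measurable.comp (g := fun q : ℕ × (ℕ → Bool) => q.2 q.1) Model.measurable_eval h0
      exact (measurable_of_countable (fun b : Bool => if b = true then (0 : ℝ) else 1)).comp h1
    · simp only [if_neg hs]
      exact measurable_const
  have hrm : Measurable r := by
    have : Measurable (fun ω' => M.tilt lam h t sel N₀ ω ω') := by
      simp_rw [htilt]
      exact Real.measurable_exp.comp hΦm
    exact hwSm.mul this
  have hrb : ∀ ω', |r ω'| ≤ 2 ^ N₀ := by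
    intro ω'
    rw [abs_of_nonneg (hr0 ω')]
    calc _ ≤ 1 * 2 ^ N₀ := mul_le_mul (hwS1 ω') (htilt2 ω') (htilt0 ω') zero_le_one
      _ = _ := one_mul _
  have hri : Integrable r P' := Integrable.of_bound hrm.aestronglyMeasurable (2 ^ N₀)
    (ae_of_all _ fun ω' => by rw [Real.norm_eq_abs]; exact hrb ω')
  have hrΦi : Integrable (fun ω' => r ω' * Φ ω') P' := by
    refine hri.mul_bdd (c := N₀ * (2 * lam * C + b1)) hΦm.aestronglyMeasurable
      (ae_of_all _ fun ω' => ?_)
    rw [Real.norm_eq_abs]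
    exact hΦb ω'
  let F : Ω' → ℝ := fun ω' => -2 * lam * M.XE h t ω ω'
  have hrFi : Integrable (fun ω' => r ω' * F ω') P' := by
    have : (fun ω' => r ω' * F ω') = fun ω' => -2 * lam * (r ω' * M.XE h t ω ω') := by
      funext ω'
      simp only [F]
      ring
    rw [this]
    exact hi.const_mul _
  have hrF : Integrable (fun ω' => r ω' * (F ω' - Φ ω')) P' := by
    simp_rw [mul_sub]
    exact hrFi.sub hrΦi
  have hqr : ∫ ω', r ω' ∂P' = (1 / 2) ^ m * q := hq
  have hqpos : 0 < ∫ ω', r ω' ∂P' := by rw [hqr]; positivity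
  have hG := gibbs hr0 hrΦ hexp hri hrF hqpos
  change _ ≤ Real.log (∫ ω', Real.exp (-2 * lam * M.XE h t ω ω') ∂P')
  refine le_trans (le_of_eq ?_) hG
  have hlog2 : Real.log (1 / 2) = -Real.log 2 := by rw [one_div, Real.log_inv]
  rw [hqr, Real.log_mul (by positivity) hpos.ne', Real.log_pow, hlog2]
  -- the energy
  let S : Ω' → ℝ := fun ω' => ∑ n ∈ Finset.range N₀, if ω' ∈ sel n ∧ M.ξ n ω' = true then
    M.yinc h t n ω ω' else 0
  have hpt : ∀ ω', r ω' * (F ω' - Φ ω') =
      -2 * lam * (r ω' * (M.XE h t ω ω' - S ω')) - r ω' * g0 ω' := by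
    intro ω'
    have e : Φ ω' = -2 * lam * S ω' + g0 ω' := by
      simp only [Φ, S, g0]
      rw [Finset.mul_sum, ← Finset.sum_add_distrib]
      refine Finset.sum_congr rfl fun n _ => ?_
      by_cases h1 : ω' ∈ sel n <;> by_cases h2 : M.ξ n ω' = true <;> simp [h1, h2]
    rw [e]
    simp only [F]
    ring
  have hSm : Measurable S := by
    refine Finset.measurable_fun_sum _ fun n _ => ?_
    refine Measurable.ite ((hselm' n).inter (M.measurable_ξ n (measurableSet_singleton true)))
      (hymeas n) measurable_const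
  have hSb : ∀ ω', |S ω'| ≤ N₀ * C := by
    intro ω'
    refine (Finset.abs_sum_le_sum_abs _ _).trans ?_
    refine (Finset.sum_le_card_nsmul _ _ C fun n _ => ?_).trans (by simp)
    split_ifs
    · exact hC n ω'
    · simpa using hC0
  have hi1 : Integrable (fun ω' => r ω' * (M.XE h t ω ω' - S ω')) P' := by
    simp_rw [mul_sub]
    refine hi.sub (hri.mul_bdd (c := N₀ * C) hSm.aestronglyMeasurable (ae_of_all _ fun ω' => ?_))
    rw [Real.norm_eq_abs]
    exact hSb ω'
  have hi2 : Integrable (fun ω' => r ω' * g0 ω') P' := by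
    refine hri.mul_bdd (c := N₀ * b1) ((hg0m.mono M.𝒢_le le_rfl).aestronglyMeasurable)
      (ae_of_all _ fun ω' => ?_)
    rw [Real.norm_eq_abs]
    exact hg0b ω'
  have hI : ∫ ω', r ω' * (F ω' - Φ ω') ∂P' = (1 / 2) ^ m *
      ∫ ω' in M.ER θ p k, (-2 * lam * M.XA h θ t p s k ω ω' +
          ∑ n ∈ Finset.range N₀, if ω' ∈ sel n then
            Real.log (Real.cosh (lam * M.yinc h t n ω ω')) else 0) ∂P' := by
    simp_rw [hpt]
    rw [integral_sub (hi1.const_mul _) hi2, integral_const_mul]
    have e1 : ∫ ω', r ω' * (M.XE h t ω ω' - S ω') ∂P' = (1 / 2) ^ m *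
          ∫ ω' in M.ER θ p k, (M.XA h θ t p s k ω ω' -
            (∑ n ∈ Finset.range N₀, if ω' ∈ sel n then M.yinc h t n ω ω' else 0) / 2) ∂P' := hE
    have e2 : ∫ ω', r ω' * g0 ω' ∂P' = (1 / 2) ^ m * ∫ ω' in M.ER θ p k, g0 ω' ∂P' := hmean
    rw [e1, e2]
    have hXAm : Measurable (fun ω' => M.XA h θ t p s k ω ω') := by
      unfold Model.XA
      refine measurable_const.sub (Measurable.div_const ?_ _)
      refine Finset.measurable_fun_sum _ fun i _ => ?_
      by_cases hs : s i = true
      · simp only [if_pos hs]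
        have hy : Measurable (fun s => M.y h s ω) := (M.continuous_y h ω).measurable
        exact (hy.comp ((M.measurable_right_mi θ p i).min measurable_const)).sub
          (hy.comp ((M.measurable_left_mi θ p i).min measurable_const))
      · simp only [if_neg hs]
        exact measurable_const
    have hXAb : ∀ ω', |M.XA h θ t p s k ω ω'| ≤ |(M.y h t ω - M.y h 0 ω) / 2| + k * C := by
      intro ω'
      unfold Model.XA
      refine (abs_sub _ _).trans (add_le_add le_rfl ?_)
      rw [abs_div, abs_two]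
      have e5 : |∑ i ∈ Finset.range k, if s i = true then
          M.y h (min (M.right (M.mi θ p ω' i) ω') t) ω -
            M.y h (min (M.left (M.mi θ p ω' i) ω') t) ω else 0| ≤ k * C := by
        refine (Finset.abs_sum_le_sum_abs _ _).trans ?_
        refine (Finset.sum_le_card_nsmul _ _ C fun i _ => ?_).trans (by simp)
        split_ifs
        · have h1 := hC (M.mi θ p ω' i) ω'
          unfold Model.yinc at h1
          exact h1
        · simpa using hC0
      have e6 : 0 ≤ (k : ℝ) * C := by positivity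
      linarith [div_le_self (abs_nonneg (∑ i ∈ Finset.range k, if s i = true then
          M.y h (min (M.right (M.mi θ p ω' i) ω') t) ω -
            M.y h (min (M.left (M.mi θ p ω' i) ω') t) ω else 0)) (one_le_two (α := ℝ))]
    let Y : Ω' → ℝ := fun ω' => ∑ n ∈ Finset.range N₀, if ω' ∈ sel n then
      M.yinc h t n ω ω' else 0
    have hYm : Measurable Y := by
      refine Finset.measurable_fun_sum _ fun n _ => ?_
      exact Measurable.ite (hselm' n) (hymeas n) measurable_const
    have hYb : ∀ ω', |Y ω'| ≤ N₀ * C := by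
      intro ω'
      refine (Finset.abs_sum_le_sum_abs _ _).trans ?_
      refine (Finset.sum_le_card_nsmul _ _ C fun n _ => ?_).trans (by simp)
      split_ifs
      · exact hC n ω'
      · simpa using hC0
    have j1 : Integrable (fun ω' => M.XA h θ t p s k ω ω') (P'.restrict (M.ER θ p k)) :=
      Integrable.of_bound hXAm.aestronglyMeasurable _
        (ae_of_all _ fun ω' => by rw [Real.norm_eq_abs]; exact hXAb ω')
    have j2 : Integrable Y (P'.restrict (M.ER θ p k)) :=
      Integrable.of_bound hYm.aestronglyMeasurable _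
        (ae_of_all _ fun ω' => by rw [Real.norm_eq_abs]; exact hYb ω')
    have j3 : Integrable g0 (P'.restrict (M.ER θ p k)) :=
      Integrable.of_bound (hg0m.mono M.𝒢_le le_rfl).aestronglyMeasurable _
        (ae_of_all _ fun ω' => by rw [Real.norm_eq_abs]; exact hg0b ω')
    have hfin : ∫ ω' in M.ER θ p k, (-2 * lam * M.XA h θ t p s k ω ω' +
          ∑ n ∈ Finset.range N₀, if ω' ∈ sel n then
            Real.log (Real.cosh (lam * M.yinc h t n ω ω')) else 0) ∂P' =
        ∫ ω' in M.ER θ p k, (-2 * lam * (M.XA h θ t p s k ω ω' - Y ω' / 2) - g0 ω') ∂P' := by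
      refine integral_congr_ae (ae_of_all _ fun ω' => ?_)
      simp only [Y, g0, g1]
      have e7 : ∀ n, (if ω' ∈ sel n then Real.log (Real.cosh (lam * M.yinc h t n ω ω')) else 0) =
          lam * (if ω' ∈ sel n then M.yinc h t n ω ω' else 0) -
          (if ω' ∈ sel n then Real.log 2 -
            Real.log (1 + Real.exp (-2 * lam * M.yinc h t n ω ω')) else 0) := by
        intro n
        by_cases h1 : ω' ∈ sel n
        · simp only [if_pos h1]
          rw [← ve3_cosh, ← mul_assoc]
        · simp only [if_neg h1]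
          ring
      simp_rw [e7]
      rw [Finset.sum_sub_distrib, ← Finset.mul_sum]
      ring
    have j4 : Integrable (fun ω' => -2 * lam * (M.XA h θ t p s k ω ω' - Y ω' / 2))
        (P'.restrict (M.ER θ p k)) := (j1.sub (j2.div_const 2)).const_mul _
    rw [hfin, integral_sub j4 j3, integral_const_mul]
    ring
  rw [hI]
  have h2 : ((1 / 2 : ℝ) ^ m * q)⁻¹ * ((1 / 2 : ℝ) ^ m *
      ∫ ω' in M.ER θ p k, (-2 * lam * M.XA h θ t p s k ω ω' +
          ∑ n ∈ Finset.range N₀, if ω' ∈ sel n then
            Real.log (Real.cosh (lam * M.yinc h t n ω ω')) else 0) ∂P') = q⁻¹ *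
      ∫ ω' in M.ER θ p k, (-2 * lam * M.XA h θ t p s k ω ω' +
          ∑ n ∈ Finset.range N₀, if ω' ∈ sel n then
            Real.log (Real.cosh (lam * M.yinc h t n ω ω')) else 0) ∂P' := by
    rw [mul_inv, ← mul_assoc, mul_assoc _ q⁻¹, mul_comm q⁻¹, ← mul_assoc,
      inv_mul_cancel₀ (by positivity), one_mul]
  rw [h2]
  ring

end

end Pool.Agent.Lib.MP_3d9a2b_pr
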