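import Pool.Agent.Lib.MP_3d9a2b_pr.V.Defs
import Pool.Agent.Lib.MP_3d9a2b_pr.U.RegenUp

set_option autoImplicit false

/-! Task VA1: the law of `D t` has the density `rho α t (u - t)`, `u > t`. -/

namespace Pool.Agent.Lib.MP_3d9a2b_pr

open MeasureTheory ProbabilityTheory Filter Topology
open scoped NNReal ENNReal

section
variable {α : ℝ} {Ω' : Type} [MeasurableSpace Ω'] {P' : Measure Ω'} [IsProbabilityMeasure P']
  {R : Ω' → Set ℝ}

theorem rho_nonneg {α t v : ℝ} (h0 : 0 < α) (h1 : α < 1) (ht : 0 ≤ t) (hv : 0 ≤ v) :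
    0 ≤ rho α t v := by
  unfold rho
  exact mul_nonneg (one_div_nonneg.2 (beta_pos h0 (by linarith)).le)
    (div_nonneg (mul_nonneg (Real.rpow_nonneg ht _) (Real.rpow_nonneg hv _)) (add_nonneg ht hv))

theorem measurable_rho (α : ℝ) : Measurable (fun q : ℝ × ℝ => rho α q.1 q.2) := by
  unfold rho
  exact (((measurable_fst.pow_const _).mul (measurable_snd.pow_const _)).div
    (measurable_fst.add measurable_snd)).const_mul _

private theorem va1_density (h0 : 0 < α) (h1 : α < 1) {t v : ℝ} (ht : 0 < t) (hv : 0 < v) :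
    t / (t + v) ^ 2 * ((1 / beta α (1 - α)) * (t / (t + v)) ^ (α - 1) *
      (1 - t / (t + v)) ^ (1 - α - 1)) = rho α t v := by
  have htv : 0 < t + v := by linarith
  have e1 : 1 - t / (t + v) = v / (t + v) := by
    field_simp
    ring
  unfold rho
  rw [e1, Real.div_rpow ht.le htv.le, Real.div_rpow hv.le htv.le]
  have e2 : (t + v) ^ (α - 1) * (t + v) ^ (1 - α - 1) * (t + v) = 1 := by
    have e3 : (t + v) ^ (α - 1) * (t + v) ^ (1 - α - 1) * (t + v) ^ (1 : ℝ) = 1 := by
      rw [← Real.rpow_add htv, ← Real.rpow_add htv]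
      have : α - 1 + (1 - α - 1) + 1 = 0 := by ring
      rw [this, Real.rpow_zero]
    rwa [Real.rpow_one] at e3
  have e4 : t * t ^ (α - 1) = t ^ α := by
    have e5 : t ^ (1 : ℝ) * t ^ (α - 1) = t ^ α := by
      rw [← Real.rpow_add ht]
      congr 1
      ring
    rwa [Real.rpow_one] at e5
  have e6 : (1 - α - 1 : ℝ) = -α := by ring
  rw [e6] at e2 ⊢
  have hA : (t + v) ^ (α - 1) ≠ 0 := (Real.rpow_pos_of_pos htv _).ne'
  have hB : (t + v) ^ (-α) ≠ 0 := (Real.rpow_pos_of_pos htv _).ne'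
  have e7 : t / (t + v) ^ 2 * (1 / beta α (1 - α) * (t ^ (α - 1) / (t + v) ^ (α - 1)) *
      (v ^ (-α) / (t + v) ^ (-α))) =
      1 / beta α (1 - α) * ((t * t ^ (α - 1)) * v ^ (-α)) /
        ((t + v) * ((t + v) ^ (α - 1) * (t + v) ^ (-α) * (t + v))) := by
    field_simp
  rw [e7, e2, e4, mul_one, mul_div_assoc]

private theorem va1_change (h0 : 0 < α) (h1 : α < 1) {t : ℝ} (ht : 0 < t)
    (F : ℝ → ℝ≥0∞) (hF : Measurable F) :
    ∫⁻ z, F (t / z) ∂(betaMeasure α (1 - α)) =
      ∫⁻ v in Set.Ioi (0 : ℝ), F (t + v) * ENNReal.ofReal (rho α t v) := by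
  have hG : Measurable fun z : ℝ => F (t / z) := hF.comp (measurable_const.div measurable_id)
  have hmp : Measurable (betaPDF α (1 - α)) := by
    unfold betaPDF
    exact (measurable_betaPDFReal α (1 - α)).ennreal_ofReal
  have e2 : ∫⁻ z, F (t / z) ∂(betaMeasure α (1 - α)) =
      ∫⁻ z in Set.Ioo (0 : ℝ) 1, betaPDF α (1 - α) z * F (t / z) := by
    unfold betaMeasure
    rw [lintegral_withDensity_eq_lintegral_mul _ hmp hG]
    rw [← lintegral_indicator measurableSet_Ioo]
    refine lintegral_congr fun z => ?_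
    by_cases hz : z ∈ Set.Ioo (0 : ℝ) 1
    · rw [Set.indicator_of_mem hz]
      rfl
    · rw [Set.indicator_of_notMem hz, Pi.mul_apply]
      have : betaPDF α (1 - α) z = 0 := by
        unfold betaPDF betaPDFReal
        rw [if_neg (fun h => hz ⟨h.1, h.2⟩), ENNReal.ofReal_zero]
      rw [this, zero_mul]
  have himg : (fun v : ℝ => t / (t + v)) '' Set.Ioi 0 = Set.Ioo (0 : ℝ) 1 := by
    ext z
    constructor
    · rintro ⟨v, hv, rfl⟩
      have hv' : (0 : ℝ) < v := hv
      exact ⟨by positivity, (div_lt_one (by positivity)).2 (by linarith)⟩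
    · rintro ⟨hz0, hz1⟩
      refine ⟨t / z - t, ?_, ?_⟩
      · show 0 < t / z - t
        have : t < t / z := by
          rw [lt_div_iff₀ hz0]
          nlinarith
        linarith
      · show t / (t + (t / z - t)) = z
        rw [add_sub_cancel, div_div_cancel₀ ht.ne']
  have hinj : Set.InjOn (fun v : ℝ => t / (t + v)) (Set.Ioi 0) := by
    intro v hv w hw h
    have hv' : (0 : ℝ) < v := hv
    have hw' : (0 : ℝ) < w := hw
    have h2 : t / (t + v) = t / (t + w) := h
    rw [div_eq_div_iff (by positivity) (by positivity)] at h2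
    have := mul_left_cancel₀ ht.ne' h2
    linarith
  have hder : ∀ v ∈ Set.Ioi (0 : ℝ), HasDerivWithinAt (fun v : ℝ => t / (t + v))
      (-(t / (t + v) ^ 2)) (Set.Ioi 0) v := by
    intro v hv
    have hv' : (0 : ℝ) < v := hv
    have htv : t + v ≠ 0 := by positivity
    have h2 : HasDerivAt (fun v : ℝ => t + v) 1 v := (hasDerivAt_id v).const_add t
    have h3 := (hasDerivAt_const v t).div h2 htv
    have e : (0 * (t + v) - t * 1) / (t + v) ^ 2 = -(t / (t + v) ^ 2) := by ring
    rw [e] at h3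
    exact h3.hasDerivWithinAt
  rw [e2, ← himg, lintegral_image_eq_lintegral_abs_deriv_mul measurableSet_Ioi hder hinj]
  refine setLIntegral_congr_fun measurableSet_Ioi fun v hv => ?_
  have hv' : (0 : ℝ) < v := hv
  have htv : 0 < t + v := by linarith
  have hz : 0 < t / (t + v) ∧ t / (t + v) < 1 :=
    ⟨by positivity, (div_lt_one (by positivity)).2 (by linarith)⟩
  have e3 : |(-(t / (t + v) ^ 2))| = t / (t + v) ^ 2 := by
    rw [abs_neg, abs_of_pos (by positivity)]
  have e4 : t / (t / (t + v)) = t + v := div_div_cancel₀ ht.ne'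
  show ENNReal.ofReal |(-(t / (t + v) ^ 2))| *
      (betaPDF α (1 - α) (t / (t + v)) * F (t / (t / (t + v)))) =
    F (t + v) * ENNReal.ofReal (rho α t v)
  rw [e3, e4]
  unfold betaPDF betaPDFReal
  rw [if_pos hz, ← mul_assoc, ← ENNReal.ofReal_mul (by positivity), va1_density h0 h1 ht hv',
    mul_comm]

/-- the law of `D t` (change of variables `z = t / u` in the beta law of `t / D t`) -/
theorem law_D (h0 : 0 < α) (h1 : α < 1) (hR : IsStableRegenerative α R P') {t : ℝ} (ht : 0 < t)
    (F : ℝ → ℝ≥0∞) (hF : Measurable F) :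
    ∫⁻ ω, F (nextPt (R ω) t) ∂P' =
      ∫⁻ v in Set.Ioi (0 : ℝ), F (t + v) * ENNReal.ofReal (rho α t v) := by
  have hm : Measurable fun ω => t / nextPt (R ω) t := measurable_const.div (hR.measurable_nextPt t)
  have hpos : ∀ ω, 0 < nextPt (R ω) t := fun ω => lt_of_lt_of_le ht (ub_self_le (hR.unbounded ω) t)
  have hG : Measurable fun z : ℝ => F (t / z) := hF.comp (measurable_const.div measurable_id)
  rw [← va1_change h0 h1 ht F hF, ← hR.law t ht, lintegral_map hG hm]
  refine lintegral_congr fun ω => ?_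
  rw [div_div_cancel₀ ht.ne']

theorem rho_total (h0 : 0 < α) (h1 : α < 1) {t : ℝ} (ht : 0 < t) :
    ∫⁻ v in Set.Ioi (0 : ℝ), ENNReal.ofReal (rho α t v) = 1 := by
  have hprob : IsProbabilityMeasure (betaMeasure α (1 - α)) :=
    isProbabilityMeasureBeta h0 (by linarith)
  have h2 := va1_change h0 h1 ht (fun _ => 1) measurable_const
  simp only [one_mul, lintegral_const, measure_univ, mul_one] at h2
  exact h2.symm

end

end Pool.Agent.Lib.MP_3d9a2b_pr
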