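import Mathlib

set_option autoImplicit false

/-! Task VI4: deterministic estimates for the multiscale step. -/

namespace Pool.Agent.Lib.MP_3d9a2b_pr

open Filter Topology

private theorem mn_harm {D : ℕ} (hD : 1 ≤ D) :
    ∑ d ∈ Finset.Ico 1 D, (1 : ℝ) / ((d : ℝ) + 1) = (harmonic D : ℝ) - 1 := by
  have h1 : (harmonic D : ℝ) = ∑ d ∈ Finset.range D, (1 : ℝ) / ((d : ℝ) + 1) := by
    unfold harmonic
    push_cast
    simp [one_div]
  rw [h1, Finset.range_eq_Ico, Finset.sum_eq_sum_Ico_succ_bot (by omega : 0 < D)]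
  simp

private theorem mn_tel (γ : ℝ) {c h : ℕ} (hch : c ≤ h) :
    ∑ a ∈ Finset.Ico c h, Real.exp (-γ * a) * (1 - Real.exp (-γ)) =
      Real.exp (-γ * c) - Real.exp (-γ * h) := by
  induction h, hch using Nat.le_induction with
  | base => simp
  | succ n hn ih =>
    rw [Finset.sum_Ico_succ_top hn, ih]
    have : Real.exp (-γ * ((n + 1 : ℕ) : ℝ)) = Real.exp (-γ * n) * Real.exp (-γ) := by
      rw [← Real.exp_add]
      congr 1
      push_cast
      ring
    rw [this]
    ring

private theorem mn_tel_le {γ K : ℝ} (hK : 0 ≤ K) (c h : ℕ) :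
    ∑ a ∈ Finset.Ico c h, K * Real.exp (-γ * a) * (1 - Real.exp (-γ)) ≤
      K * Real.exp (-γ * c) := by
  rcases le_total c h with hch | hch
  · have e : ∑ a ∈ Finset.Ico c h, K * Real.exp (-γ * a) * (1 - Real.exp (-γ)) =
        K * ∑ a ∈ Finset.Ico c h, Real.exp (-γ * a) * (1 - Real.exp (-γ)) := by
      rw [Finset.mul_sum]
      exact Finset.sum_congr rfl fun a _ => by ring
    rw [e, mn_tel γ hch]
    apply mul_le_mul_of_nonneg_left _ hK
    have := Real.exp_pos (-γ * h)
    linarith
  · rw [Finset.Ico_eq_empty_of_le hch, Finset.sum_empty]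
    positivity

/-- `exp (-γ t) ≤ exp (-t / 2)`. -/
private theorem mn_half {γ t : ℝ} (hγ0 : 1 / 2 ≤ γ) (ht : 0 ≤ t) :
    Real.exp (-γ * t) ≤ Real.exp (-(t / 2)) := by
  apply Real.exp_le_exp.2
  nlinarith

private theorem mn_const {γ : ℝ} (hγ0 : 1 / 2 ≤ γ) :
    3 / 10000 ≤ (1 - Real.exp (-γ)) ^ 2 * Real.exp (-1) / 144 := by
  have h1 : (13 / 8 : ℝ) ≤ Real.exp (1 / 2) := by
    have := Real.quadratic_le_exp_of_nonneg (x := 1 / 2) (by norm_num)
    linarith
  have h2 : Real.exp (-(1 / 2)) ≤ 8 / 13 := by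
    rw [Real.exp_neg]
    have : (Real.exp (1 / 2))⁻¹ ≤ (13 / 8 : ℝ)⁻¹ := inv_anti₀ (by norm_num) h1
    norm_num at this ⊢
    linarith
  have h3 : Real.exp (-γ) ≤ 8 / 13 := by
    refine le_trans (Real.exp_le_exp.2 ?_) h2
    linarith
  have h4 : (36 / 100 : ℝ) ≤ Real.exp (-1) := by
    have := Real.exp_neg_one_gt_d9
    linarith
  have h5 : (5 / 13 : ℝ) ≤ 1 - Real.exp (-γ) := by linarith
  have h6 : (25 / 169 : ℝ) ≤ (1 - Real.exp (-γ)) ^ 2 := by nlinarith
  have h7 : (25 / 169 : ℝ) * (36 / 100) ≤ (1 - Real.exp (-γ)) ^ 2 * Real.exp (-1) :=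
    mul_le_mul h6 h4 (by norm_num) (by positivity)
  linarith

/-- lower bound for the double sum of one distance -/
private theorem mn_inner {γ K : ℝ} (hK : 0 ≤ K) (hγ : 0 ≤ γ) {lo hi s c : ℕ}
    (hc : lo ≤ c) (hc2 : s < c + hi) (hs : ∀ a < hi, lo + a ≤ s) :
    ((hi - c : ℕ) : ℝ) * (K ^ 2 * (1 - Real.exp (-γ)) ^ 2 * Real.exp (-γ * s)) ≤
      ∑ a ∈ Finset.Ico lo hi, K * Real.exp (-γ * a) * (1 - Real.exp (-γ)) *
        ∑ a' ∈ (Finset.Ico lo hi).filter (fun a' => s ≤ a + a'),
          K * Real.exp (-γ * a') * (1 - Real.exp (-γ)) := by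
  have hg : 0 ≤ 1 - Real.exp (-γ) := by
    have : Real.exp (-γ) ≤ 1 := Real.exp_le_one_iff.2 (by linarith)
    linarith
  have hw : ∀ a : ℕ, 0 ≤ K * Real.exp (-γ * a) * (1 - Real.exp (-γ)) := fun a => by positivity
  have h1 : ∑ a ∈ Finset.Ico c hi, (K ^ 2 * (1 - Real.exp (-γ)) ^ 2 * Real.exp (-γ * s)) =
      ((hi - c : ℕ) : ℝ) * (K ^ 2 * (1 - Real.exp (-γ)) ^ 2 * Real.exp (-γ * s)) := by
    rw [Finset.sum_const, Nat.card_Ico, nsmul_eq_mul]
  rw [← h1]
  calc ∑ a ∈ Finset.Ico c hi, (K ^ 2 * (1 - Real.exp (-γ)) ^ 2 * Real.exp (-γ * s))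
      ≤ ∑ a ∈ Finset.Ico c hi, K * Real.exp (-γ * a) * (1 - Real.exp (-γ)) *
        ∑ a' ∈ (Finset.Ico lo hi).filter (fun a' => s ≤ a + a'),
          K * Real.exp (-γ * a') * (1 - Real.exp (-γ)) := by
        apply Finset.sum_le_sum
        intro a ha
        rw [Finset.mem_Ico] at ha
        have hsa := hs a ha.2
        have hmem : s - a ∈ (Finset.Ico lo hi).filter (fun a' => s ≤ a + a') := by
          rw [Finset.mem_filter, Finset.mem_Ico]
          refine ⟨⟨by omega, by omega⟩, by omega⟩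
        have h2 := Finset.single_le_sum
          (f := fun a' : ℕ => K * Real.exp (-γ * a') * (1 - Real.exp (-γ)))
          (fun i _ => hw i) hmem
        have h3 := mul_le_mul_of_nonneg_left h2 (hw a)
        refine le_trans (le_of_eq ?_) h3
        have h4 : Real.exp (-γ * s) = Real.exp (-γ * a) * Real.exp (-γ * ((s - a : ℕ) : ℝ)) := by
          rw [← Real.exp_add]
          congr 1
          rw [Nat.cast_sub (by omega)]
          ring
        rw [h4]
        ring
    _ ≤ _ := by
        apply Finset.sum_le_sum_of_subset_of_nonneg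
        · exact Finset.Ico_subset_Ico hc le_rfl
        · intro a _ _
          exact mul_nonneg (hw a) (Finset.sum_nonneg fun i _ => hw i)

/-- deterministic estimates (see the blueprint): the window `T = [a_lo, a_hi)` of types, the
weights `β N exp (-γ a) (1 - exp (-γ))` and the thresholds `S d` -/
theorem macro_num {L₀ γ β v : ℝ} {N M : ℕ} (hγ0 : 1 / 2 ≤ γ) (hγ1 : γ ≤ 1) (hL : 0 ≤ L₀)
    (hβ : 0 < β) (hN : 1 ≤ N) (hM : 4 ≤ Real.log M) (hNγ : (N : ℝ) ^ (2 * γ - 1) ≤ 3)
    (hMγ : (M : ℝ) ^ (2 * γ - 1) ≤ 3)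
    (hcond : 8 * Real.log (4 * (1 + β) * Real.log M) + 8 ≤ Real.log M + 2 * L₀)
    (hv : 2 * Real.log ((N * M : ℕ) : ℝ) ≤ v) : ∃ (lo hi D : ℕ) (S : ℕ → ℕ),
      1 ≤ lo ∧ lo < hi ∧ 2 * Real.log N ≤ lo ∧ (hi : ℝ) ≤ v + L₀ ∧
      (∀ d, 1 ≤ d → d < D → v + 2 * Real.log (((d : ℕ) + 1 : ℝ) * N) + L₀ ≤ S d) ∧
      β * N * Real.exp (-γ * lo) ≤ 1 / 4 ∧
      (∀ a, lo ≤ a → a < hi → ∑ d ∈ Finset.Ico 1 D, ∑ a' ∈ (Finset.Ico lo hi).filter
        (fun a' => S d ≤ a + a'), β * N * Real.exp (-γ * a') * (1 - Real.exp (-γ)) ≤ 1 / 8) ∧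
      3 * (1 / 10000 * Real.exp (-γ * L₀) * Real.log M ^ 2 * β ^ 2) * (N * M : ℕ) *
          Real.exp (-γ * v) ≤
        ∑ d ∈ Finset.Ico 1 D, ((M - d : ℕ) : ℝ) * ∑ a ∈ Finset.Ico lo hi,
          β * N * Real.exp (-γ * a) * (1 - Real.exp (-γ)) *
            ∑ a' ∈ (Finset.Ico lo hi).filter (fun a' => S d ≤ a + a'),
              β * N * Real.exp (-γ * a') * (1 - Real.exp (-γ)) := by
  have hM0 : (0 : ℝ) < M := by
    rcases Nat.eq_zero_or_pos M with h | h
    · rw [h] at hM
      norm_num at hM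
    · exact_mod_cast h
  have hM1 : 1 ≤ M := by exact_mod_cast (Nat.cast_pos.1 hM0)
  have hN0 : (0 : ℝ) < N := by exact_mod_cast hN
  have hN1 : (1 : ℝ) ≤ N := by exact_mod_cast hN
  set l := Real.log M with hl
  have hl0 : 0 < l := by linarith
  set B := 4 * (1 + β) * l with hB
  have hB0 : 0 < B := by positivity
  have hB16 : 16 ≤ B := by nlinarith
  have hlB : 0 ≤ Real.log B := Real.log_nonneg (by linarith)
  have hlB1 : 1 ≤ Real.log B := by
    rw [Real.le_log_iff_exp_le hB0]
    have := Real.exp_one_lt_d9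
    linarith
  have hlN : 0 ≤ Real.log N := Real.log_nonneg hN1
  have hvl : 2 * Real.log N + 2 * l ≤ v := by
    rw [Nat.cast_mul, Real.log_mul hN0.ne' hM0.ne'] at hv
    linarith
  have hMe : (16 : ℝ) ≤ M := by
    have h1 : Real.exp 4 ≤ M := by rwa [← Real.le_log_iff_exp_le hM0]
    have h2 : (2 : ℝ) ≤ Real.exp 1 := by
      have := Real.exp_one_gt_d9
      linarith
    have h3 : Real.exp 4 = (Real.exp 1) ^ 4 := by
      rw [← Real.exp_nat_mul]
      norm_num
    have h4 : (2 : ℝ) ^ 4 ≤ (Real.exp 1) ^ 4 := pow_le_pow_left₀ (by norm_num) h2 4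
    linarith
  have hsM0 : 0 ≤ Real.sqrt M := Real.sqrt_nonneg _
  have hsMsq : Real.sqrt M * Real.sqrt M = M := Real.mul_self_sqrt hM0.le
  have hsM4 : 4 ≤ Real.sqrt M := by
    by_contra hcon
    rw [not_le] at hcon
    nlinarith
  have hsMM : Real.sqrt M ≤ M / 2 := by nlinarith
  have hlsM : Real.log (Real.sqrt M) = l / 2 := Real.log_sqrt hM0.le
  set D := ⌊Real.sqrt M⌋₊ with hD
  have hDle : (D : ℝ) ≤ Real.sqrt M := Nat.floor_le hsM0
  have hDlt : Real.sqrt M < D + 1 := Nat.lt_floor_add_one _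
  have hD1 : 1 ≤ D := by
    rw [hD]
    exact Nat.le_floor (by norm_num; linarith)
  set lo := ⌈2 * Real.log N + 2 * Real.log B⌉₊ with hlo
  have hlo1 : 2 * Real.log N + 2 * Real.log B ≤ lo := Nat.le_ceil _
  have hlo2 : (lo : ℝ) < 2 * Real.log N + 2 * Real.log B + 1 :=
    Nat.ceil_lt_add_one (by linarith)
  have hhi0 : 0 ≤ v + L₀ - 2 * Real.log B := by nlinarith
  set hi := ⌊v + L₀ - 2 * Real.log B⌋₊ with hhi
  have hhi1 : (hi : ℝ) ≤ v + L₀ - 2 * Real.log B := Nat.floor_le hhi0
  have hhi2 : v + L₀ - 2 * Real.log B < hi + 1 := Nat.lt_floor_add_one _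
  set S : ℕ → ℕ := fun d => ⌈v + 2 * Real.log (((d : ℕ) + 1 : ℝ) * N) + L₀⌉₊ with hS
  have hdN : ∀ d : ℕ, Real.log (((d : ℕ) + 1 : ℝ) * N) = Real.log ((d : ℝ) + 1) + Real.log N := by
    intro d
    exact Real.log_mul (by positivity) hN0.ne'
  have hld : ∀ d : ℕ, 0 ≤ Real.log ((d : ℝ) + 1) := fun d => Real.log_nonneg (by
    have : (0 : ℝ) ≤ d := Nat.cast_nonneg d
    linarith)
  have hS1 : ∀ d : ℕ, v + 2 * (Real.log ((d : ℝ) + 1) + Real.log N) + L₀ ≤ S d := by
    intro d
    rw [← hdN d]
    exact Nat.le_ceil _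
  have hS2 : ∀ d : ℕ, (S d : ℝ) < v + 2 * (Real.log ((d : ℝ) + 1) + Real.log N) + L₀ + 1 := by
    intro d
    rw [← hdN d]
    refine Nat.ceil_lt_add_one ?_
    rw [hdN d]
    have := hld d
    nlinarith
  have hlohi : lo < hi := by
    have : (lo : ℝ) < hi := by linarith
    exact_mod_cast this
  have hsub : ∀ d a : ℕ, a < hi →
      2 * (Real.log ((d : ℝ) + 1) + Real.log N) + 2 * Real.log B + 1 ≤ (S d : ℝ) - a := by
    intro d a ha
    have h1 := hS1 d
    have h2 : (a : ℝ) + 1 ≤ hi := by exact_mod_cast ha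
    linarith
  have hga : 0 ≤ 1 - Real.exp (-γ) := by
    have : Real.exp (-γ) ≤ 1 := Real.exp_le_one_iff.2 (by linarith)
    linarith
  have hβB : β / B ≤ 1 / (4 * l) := by
    rw [div_le_div_iff₀ hB0 (by positivity)]
    rw [hB]
    nlinarith
  have hβN : 0 ≤ β * N := by positivity
  refine ⟨lo, hi, D, S, ?_, hlohi, by linarith, by linarith, ?_, ?_, ?_, ?_⟩
  · have : (0 : ℝ) < lo := by linarith
    exact_mod_cast this
  · intro d _ _
    rw [hdN d]
    exact hS1 d
  · have h1 : Real.exp (-γ * lo) ≤ 1 / (N * B) := by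
      refine (mn_half hγ0 (Nat.cast_nonneg lo)).trans ?_
      have h2 : Real.exp (-((lo : ℝ) / 2)) ≤ Real.exp (-(Real.log N + Real.log B)) := by
        apply Real.exp_le_exp.2
        linarith
      refine h2.trans (le_of_eq ?_)
      rw [Real.exp_neg, Real.exp_add, Real.exp_log hN0, Real.exp_log hB0, one_div]
    calc β * N * Real.exp (-γ * lo) ≤ β * N * (1 / (N * B)) :=
          mul_le_mul_of_nonneg_left h1 hβN
      _ = β / B := by field_simp
      _ ≤ 1 / (4 * l) := hβB
      _ ≤ 1 / 4 := by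
          apply one_div_le_one_div_of_le (by norm_num)
          linarith
  · intro a _ ha
    have hterm : ∀ d ∈ Finset.Ico 1 D, ∑ a' ∈ (Finset.Ico lo hi).filter
        (fun a' => S d ≤ a + a'), β * N * Real.exp (-γ * a') * (1 - Real.exp (-γ)) ≤
        β / B * (1 / ((d : ℝ) + 1)) := by
      intro d _
      have hsubset : (Finset.Ico lo hi).filter (fun a' => S d ≤ a + a') ⊆
          Finset.Ico (S d - a) hi := by
        intro x hx
        rw [Finset.mem_filter, Finset.mem_Ico] at hx
        rw [Finset.mem_Ico]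
        omega
      have h1 : ∑ a' ∈ (Finset.Ico lo hi).filter
          (fun a' => S d ≤ a + a'), β * N * Real.exp (-γ * a') * (1 - Real.exp (-γ)) ≤
          ∑ a' ∈ Finset.Ico (S d - a) hi, β * N * Real.exp (-γ * a') * (1 - Real.exp (-γ)) :=
        Finset.sum_le_sum_of_subset_of_nonneg hsubset fun i _ _ => by positivity
      refine h1.trans ((mn_tel_le hβN (S d - a) hi).trans ?_)
      have h3 := hsub d a ha
      have h4 : a ≤ S d := by
        have : (a : ℝ) ≤ S d := by
          have := hld d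
          linarith
        exact_mod_cast this
      have h5 : ((S d - a : ℕ) : ℝ) = (S d : ℝ) - a := Nat.cast_sub h4
      have h6 : Real.exp (-γ * ((S d - a : ℕ) : ℝ)) ≤ 1 / (((d : ℝ) + 1) * N * B) := by
        refine (mn_half hγ0 (Nat.cast_nonneg _)).trans ?_
        have h7 : Real.exp (-(((S d - a : ℕ) : ℝ) / 2)) ≤
            Real.exp (-(Real.log ((d : ℝ) + 1) + Real.log N + Real.log B)) := by
          apply Real.exp_le_exp.2
          rw [h5]
          linarith
        refine h7.trans (le_of_eq ?_)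
        rw [Real.exp_neg, Real.exp_add, Real.exp_add, Real.exp_log (by positivity),
          Real.exp_log hN0, Real.exp_log hB0, one_div]
      calc β * N * Real.exp (-γ * ((S d - a : ℕ) : ℝ)) ≤
            β * N * (1 / (((d : ℝ) + 1) * N * B)) := mul_le_mul_of_nonneg_left h6 hβN
        _ = β / B * (1 / ((d : ℝ) + 1)) := by
            have : (d : ℝ) + 1 ≠ 0 := by positivity
            field_simp
    refine (Finset.sum_le_sum hterm).trans ?_
    rw [← Finset.mul_sum, mn_harm hD1]
    calc β / B * ((harmonic D : ℝ) - 1) ≤ β / B * (l / 2) := by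
          apply mul_le_mul_of_nonneg_left _ (by positivity)
          have h1 := harmonic_le_one_add_log D
          have h2 : Real.log D ≤ Real.log (Real.sqrt M) :=
            Real.log_le_log (by exact_mod_cast hD1) hDle
          rw [hlsM] at h2
          linarith
      _ ≤ 1 / (4 * l) * (l / 2) := mul_le_mul_of_nonneg_right hβB (by positivity)
      _ = 1 / 8 := by field_simp; norm_num
  · set W := (β * N) ^ 2 * (1 - Real.exp (-γ)) ^ 2 *
      (Real.exp (-1) * Real.exp (-γ * (v + L₀)) / (9 * N)) with hW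
    have hW0 : 0 ≤ W := by positivity
    have hterm : ∀ d ∈ Finset.Ico 1 D, (M / 2 * (l / 2) * W) * (1 / ((d : ℝ) + 1)) ≤
        ((M - d : ℕ) : ℝ) * ∑ a ∈ Finset.Ico lo hi,
          β * N * Real.exp (-γ * a) * (1 - Real.exp (-γ)) *
            ∑ a' ∈ (Finset.Ico lo hi).filter (fun a' => S d ≤ a + a'),
              β * N * Real.exp (-γ * a') * (1 - Real.exp (-γ)) := by
      intro d hd
      rw [Finset.mem_Ico] at hd
      have hdD : (d : ℝ) + 1 ≤ D := by exact_mod_cast hd.2
      have hdM : (d : ℝ) ≤ M / 2 := by linarith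
      have hdM' : d ≤ M := by
        have : (d : ℝ) ≤ M := by linarith
        exact_mod_cast this
      have hMd : (M : ℝ) / 2 ≤ ((M - d : ℕ) : ℝ) := by
        rw [Nat.cast_sub hdM']
        linarith
      have hlogd : 2 * Real.log ((d : ℝ) + 1) ≤ l := by
        have h1 : Real.log ((d : ℝ) + 1) ≤ Real.log (Real.sqrt M) :=
          Real.log_le_log (by positivity) (by linarith)
        rw [hlsM] at h1
        linarith
      set c := max lo (S d + 1 - hi) with hc
      have hin := mn_inner (γ := γ) (K := β * N) hβN (by linarith) (lo := lo) (hi := hi)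
        (s := S d) (c := c) (le_max_left _ _)
        (by
          have : S d + 1 - hi ≤ c := le_max_right _ _
          omega)
        (by
          intro a ha
          have h3 := hsub d a ha
          have h4 := hld d
          have h5 : (lo : ℝ) + a ≤ S d := by linarith
          exact_mod_cast h5)
      have hcount : l / 2 ≤ ((hi - c : ℕ) : ℝ) := by
        have h1 : c = lo ∨ c = S d + 1 - hi := by
          rcases max_choice lo (S d + 1 - hi) with h | h
          · exact Or.inl h
          · exact Or.inr h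
        rcases h1 with h1 | h1
        · rw [h1, Nat.cast_sub hlohi.le]
          linarith
        · have h2 := hS2 d
          have h3 : hi ≤ S d + 1 := by
            have h4 := hsub d lo hlohi
            have h5 := hS1 d
            have h6 := hld d
            have : (hi : ℝ) ≤ (S d : ℝ) + 1 := by linarith
            exact_mod_cast this
          have h4 : ((S d + 1 - hi : ℕ) : ℝ) = (S d : ℝ) + 1 - hi := by
            rw [Nat.cast_sub h3]
            push_cast
            ring
          have h5 : S d + 1 - hi ≤ hi := by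
            have : ((S d + 1 - hi : ℕ) : ℝ) ≤ hi := by
              rw [h4]
              linarith
            exact_mod_cast this
          rw [h1, Nat.cast_sub h5, h4]
          linarith
      have hexpS : Real.exp (-1) * Real.exp (-γ * (v + L₀)) / (9 * N) * (1 / ((d : ℝ) + 1)) ≤
          Real.exp (-γ * S d) := by
        have h1 : Real.exp (-γ * (v + 2 * (Real.log ((d : ℝ) + 1) + Real.log N) + L₀ + 1)) ≤
            Real.exp (-γ * S d) := by
          apply Real.exp_le_exp.2
          have := hS2 d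
          nlinarith
        refine le_trans ?_ h1
        have h2 : Real.exp (-γ * (v + 2 * (Real.log ((d : ℝ) + 1) + Real.log N) + L₀ + 1)) =
            Real.exp (-γ) * Real.exp (-γ * (v + L₀)) *
              (Real.exp (-(2 * γ) * Real.log ((d : ℝ) + 1)) *
                Real.exp (-(2 * γ) * Real.log N)) := by
          rw [← Real.exp_add, ← Real.exp_add, ← Real.exp_add]
          congr 1
          ring
        have h3 : ∀ x : ℝ, 1 ≤ x → x ^ (2 * γ - 1) ≤ 3 →
            1 / (3 * x) ≤ Real.exp (-(2 * γ) * Real.log x) := by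
          intro x hx hx3
          have hx0 : 0 < x := by linarith
          have e1 : Real.exp (-(2 * γ) * Real.log x) = (x ^ (2 * γ - 1) * x)⁻¹ := by
            rw [Real.rpow_def_of_pos hx0, ← Real.exp_log hx0, ← Real.exp_add, ← Real.exp_neg,
              Real.log_exp]
            congr 1
            ring
          rw [e1, one_div]
          apply inv_anti₀
          · have := Real.rpow_pos_of_pos hx0 (2 * γ - 1)
            positivity
          · exact mul_le_mul_of_nonneg_right hx3 hx0.le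
        have h4 : 1 / (3 * ((d : ℝ) + 1)) ≤ Real.exp (-(2 * γ) * Real.log ((d : ℝ) + 1)) := by
          have hd0 : (0 : ℝ) ≤ d := Nat.cast_nonneg d
          refine h3 _ (by linarith) (le_trans ?_ hMγ)
          exact Real.rpow_le_rpow (by linarith) (by linarith) (by linarith)
        have h5 : 1 / (3 * (N : ℝ)) ≤ Real.exp (-(2 * γ) * Real.log N) := h3 _ hN1 hNγ
        have h6 : Real.exp (-1) ≤ Real.exp (-γ) := Real.exp_le_exp.2 (by linarith)
        rw [h2]
        have h7 : 1 / (3 * ((d : ℝ) + 1)) * (1 / (3 * (N : ℝ))) ≤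
            Real.exp (-(2 * γ) * Real.log ((d : ℝ) + 1)) * Real.exp (-(2 * γ) * Real.log N) :=
          mul_le_mul h4 h5 (by positivity) (by positivity)
        have h8 : Real.exp (-1) * Real.exp (-γ * (v + L₀)) ≤
            Real.exp (-γ) * Real.exp (-γ * (v + L₀)) :=
          mul_le_mul_of_nonneg_right h6 (by positivity)
        have h9 := mul_le_mul h8 h7 (by positivity) (by positivity)
        refine le_trans (le_of_eq ?_) h9
        have : (d : ℝ) + 1 ≠ 0 := by positivity
        field_simp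
        norm_num
      have hS0 : 0 ≤ (β * N) ^ 2 * (1 - Real.exp (-γ)) ^ 2 := by positivity
      calc (M / 2 * (l / 2) * W) * (1 / ((d : ℝ) + 1))
          = M / 2 * (l / 2 * ((β * N) ^ 2 * (1 - Real.exp (-γ)) ^ 2 *
            (Real.exp (-1) * Real.exp (-γ * (v + L₀)) / (9 * N) * (1 / ((d : ℝ) + 1))))) := by
            rw [hW]
            ring
        _ ≤ M / 2 * (l / 2 * ((β * N) ^ 2 * (1 - Real.exp (-γ)) ^ 2 *
            Real.exp (-γ * S d))) := by
            apply mul_le_mul_of_nonneg_left _ (by positivity)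
            apply mul_le_mul_of_nonneg_left _ (by positivity)
            exact mul_le_mul_of_nonneg_left hexpS hS0
        _ ≤ M / 2 * (((hi - c : ℕ) : ℝ) * ((β * N) ^ 2 * (1 - Real.exp (-γ)) ^ 2 *
            Real.exp (-γ * S d))) := by
            apply mul_le_mul_of_nonneg_left _ (by positivity)
            exact mul_le_mul_of_nonneg_right hcount (by positivity)
        _ ≤ M / 2 * _ := mul_le_mul_of_nonneg_left hin (by positivity)
        _ ≤ _ := by
            apply mul_le_mul_of_nonneg_right hMd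
            refine Finset.sum_nonneg fun a _ => ?_
            refine mul_nonneg (by positivity) (Finset.sum_nonneg fun i _ => by positivity)
    have hsum := Finset.sum_le_sum hterm
    rw [← Finset.mul_sum, mn_harm hD1] at hsum
    refine le_trans ?_ hsum
    have hharm : l / 4 ≤ (harmonic D : ℝ) - 1 := by
      have h1 := log_add_one_le_harmonic D
      have h2 : Real.log (Real.sqrt M) ≤ Real.log ((D + 1 : ℕ) : ℝ) := by
        apply Real.log_le_log (by linarith)
        push_cast
        exact hDlt.le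
      rw [hlsM] at h2
      push_cast at h1 h2
      linarith
    calc 3 * (1 / 10000 * Real.exp (-γ * L₀) * l ^ 2 * β ^ 2) * (N * M : ℕ) *
          Real.exp (-γ * v)
        = (3 / 10000) * (l ^ 2 * β ^ 2 * N * M * (Real.exp (-γ * (v + L₀)))) := by
          have : Real.exp (-γ * (v + L₀)) = Real.exp (-γ * L₀) * Real.exp (-γ * v) := by
            rw [← Real.exp_add]
            congr 1
            ring
          rw [this]
          push_cast
          ring
      _ ≤ ((1 - Real.exp (-γ)) ^ 2 * Real.exp (-1) / 144) *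
          (l ^ 2 * β ^ 2 * N * M * (Real.exp (-γ * (v + L₀)))) :=
          mul_le_mul_of_nonneg_right (mn_const hγ0) (by positivity)
      _ = M / 2 * (l / 2) * W * (l / 4) := by
          rw [hW]
          field_simp
          ring
      _ ≤ M / 2 * (l / 2) * W * ((harmonic D : ℝ) - 1) :=
          mul_le_mul_of_nonneg_left hharm (by positivity)

end Pool.Agent.Lib.MP_3d9a2b_pr
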