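import Mathlib

set_option autoImplicit false

/-! Task VI2: second moment method for pairs of blocks. -/

namespace Pool.Agent.Lib.MP_3d9a2b_pr

open MeasureTheory ProbabilityTheory Filter Topology
open scoped NNReal ENNReal

section PairsAux

variable {M : ℕ}

private noncomputable def pX (i : Fin M) (a : ℕ) (t : Fin M → ℕ) : ℝ := if t i = a then 1 else 0

private noncomputable def pG (T : Finset ℕ) (s a : ℕ) (k : Fin M) (t : Fin M → ℕ) : ℝ :=
  if t k ∈ T ∧ s ≤ a + t k then 1 else 0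

private noncomputable def pF (T : Finset ℕ) (S : ℕ → ℕ) (i j : Fin M) (t : Fin M → ℕ) : ℝ :=
  if t i ∈ T ∧ t j ∈ T ∧ S ((j : ℕ) - i) ≤ t i + t j then 1 else 0

private theorem pX_nonneg (i : Fin M) (a : ℕ) (t : Fin M → ℕ) : 0 ≤ pX i a t := by
  unfold pX; split_ifs <;> norm_num

private theorem pX_le (i : Fin M) (a : ℕ) (t : Fin M → ℕ) : pX i a t ≤ 1 := by
  unfold pX; split_ifs <;> norm_num

private theorem pG_nonneg (T : Finset ℕ) (s a : ℕ) (k : Fin M) (t : Fin M → ℕ) :
    0 ≤ pG T s a k t := by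
  unfold pG; split_ifs <;> norm_num

private theorem pG_le (T : Finset ℕ) (s a : ℕ) (k : Fin M) (t : Fin M → ℕ) :
    pG T s a k t ≤ 1 := by
  unfold pG; split_ifs <;> norm_num

private theorem pF_nonneg (T : Finset ℕ) (S : ℕ → ℕ) (i j : Fin M) (t : Fin M → ℕ) :
    0 ≤ pF T S i j t := by
  unfold pF; split_ifs <;> norm_num

private theorem pF_le (T : Finset ℕ) (S : ℕ → ℕ) (i j : Fin M) (t : Fin M → ℕ) :
    pF T S i j t ≤ 1 := by
  unfold pF; split_ifs <;> norm_num

private theorem pG_eq (T : Finset ℕ) (s a : ℕ) (k : Fin M) (t : Fin M → ℕ) :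
    pG T s a k t = ∑ c ∈ T.filter (fun c => s ≤ a + c), pX k c t := by
  unfold pG pX
  rw [Finset.sum_ite_eq]
  simp only [Finset.mem_filter]

private theorem pF_eq (T : Finset ℕ) (S : ℕ → ℕ) (i j : Fin M) (t : Fin M → ℕ) :
    pF T S i j t = ∑ c ∈ T, pX i c t * pG T (S ((j : ℕ) - i)) c j t := by
  unfold pF pX pG
  simp only [ite_mul, one_mul, zero_mul]
  rw [Finset.sum_ite_eq]
  by_cases h : t i ∈ T <;> simp [h]

private theorem pint {μ : Measure ℕ} [IsProbabilityMeasure μ] (f : (Fin M → ℕ) → ℝ) (C : ℝ)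
    (h : ∀ t, |f t| ≤ C) : Integrable f (Measure.pi (fun _ : Fin M => μ)) :=
  Integrable.of_bound (measurable_of_countable f).aestronglyMeasurable C
    (Eventually.of_forall fun t => by rw [Real.norm_eq_abs]; exact h t)

private theorem pcyl (μ : Measure ℕ) [IsProbabilityMeasure μ] (s : Finset (Fin M))
    (v : Fin M → ℕ) :
    ∫ t, ∏ x ∈ s, pX x (v x) t ∂(Measure.pi (fun _ : Fin M => μ)) =
      ∏ x ∈ s, μ.real {v x} := by
  classical
  have h1 : (fun t : Fin M → ℕ => ∏ x ∈ s, pX x (v x) t) =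
      (Set.pi Set.univ (fun x => if x ∈ s then ({v x} : Set ℕ) else Set.univ)).indicator 1 := by
    funext t
    by_cases h : ∀ x ∈ s, t x = v x
    · have hm : t ∈ Set.pi Set.univ (fun x => if x ∈ s then ({v x} : Set ℕ) else Set.univ) := by
        intro x _
        by_cases hx : x ∈ s
        · simp [hx, h x hx]
        · simp [hx]
      rw [Set.indicator_of_mem hm, Pi.one_apply]
      apply Finset.prod_eq_one
      intro x hx
      simp [pX, h x hx]
    · push Not at h
      obtain ⟨x, hx, hne⟩ := h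
      have hm : t ∉ Set.pi Set.univ (fun x => if x ∈ s then ({v x} : Set ℕ) else Set.univ) := by
        intro hm
        have := hm x (Set.mem_univ x)
        simp [hx] at this
        exact hne this
      rw [Set.indicator_of_notMem hm]
      exact Finset.prod_eq_zero hx (by simp [pX, hne])
  rw [h1, integral_indicator_one ((Set.to_countable _).measurableSet), Measure.real,
    Measure.pi_pi, ENNReal.toReal_prod]
  have h2 : ∀ x, (μ (if x ∈ s then ({v x} : Set ℕ) else Set.univ)).toReal =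
      if x ∈ s then μ.real {v x} else 1 := by
    intro x
    by_cases hx : x ∈ s
    · simp [hx, Measure.real]
    · simp [hx]
  rw [Finset.prod_congr rfl (fun x _ => h2 x), Finset.prod_ite_mem, Finset.univ_inter]

private theorem pE2 (μ : Measure ℕ) [IsProbabilityMeasure μ] {i j : Fin M} (hij : i ≠ j)
    (a b : ℕ) :
    ∫ t, pX i a t * pX j b t ∂(Measure.pi (fun _ : Fin M => μ)) = μ.real {a} * μ.real {b} := by
  classical
  have h := pcyl μ ({i, j} : Finset (Fin M)) (fun x => if x = i then a else b)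
  rw [Finset.prod_pair hij] at h
  simp only [Finset.prod_pair hij, if_true, if_neg hij.symm] at h
  exact h

private theorem pE3 (μ : Measure ℕ) [IsProbabilityMeasure μ] {i j k : Fin M} (hij : i ≠ j)
    (hik : i ≠ k) (hjk : j ≠ k) (a b c : ℕ) :
    ∫ t, pX i a t * pX j b t * pX k c t ∂(Measure.pi (fun _ : Fin M => μ)) =
      μ.real {a} * μ.real {b} * μ.real {c} := by
  classical
  have h := pcyl μ ({i, j, k} : Finset (Fin M))
    (fun x => if x = i then a else if x = j then b else c)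
  have h1 : i ∉ ({j, k} : Finset (Fin M)) := by simp [hij, hik]
  simp only [Finset.prod_insert h1, Finset.prod_pair hjk, if_true, if_neg hij.symm,
    if_neg hik.symm, if_neg hjk.symm, ← mul_assoc] at h
  exact h

private theorem pE4 (μ : Measure ℕ) [IsProbabilityMeasure μ] {i j k l : Fin M} (hij : i ≠ j)
    (hik : i ≠ k) (hil : i ≠ l) (hjk : j ≠ k) (hjl : j ≠ l) (hkl : k ≠ l) (a b c d : ℕ) :
    ∫ t, pX i a t * pX j b t * (pX k c t * pX l d t) ∂(Measure.pi (fun _ : Fin M => μ)) =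
      μ.real {a} * μ.real {b} * (μ.real {c} * μ.real {d}) := by
  classical
  have h := pcyl μ ({i, j, k, l} : Finset (Fin M))
    (fun x => if x = i then a else if x = j then b else if x = k then c else d)
  have h1 : i ∉ ({j, k, l} : Finset (Fin M)) := by simp [hij, hik, hil]
  have h2 : j ∉ ({k, l} : Finset (Fin M)) := by simp [hjk, hjl]
  simp only [Finset.prod_insert h1, Finset.prod_insert h2, Finset.prod_pair hkl, if_true,
    if_neg hij.symm, if_neg hik.symm, if_neg hil.symm, if_neg hjk.symm, if_neg hjl.symm,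
    if_neg hkl.symm] at h
  simpa only [mul_assoc] using h

private theorem pw_eq (μ : Measure ℕ) [IsProbabilityMeasure μ] (T : Finset ℕ) (s a : ℕ) :
    μ.real {c | c ∈ T ∧ s ≤ a + c} = ∑ c ∈ T.filter (fun c => s ≤ a + c), μ.real {c} := by
  have h : {c | c ∈ T ∧ s ≤ a + c} = ((T.filter (fun c => s ≤ a + c) : Finset ℕ) : Set ℕ) := by
    ext c; simp
  rw [h]
  exact (sum_measureReal_singleton (μ := μ) (T.filter (fun c => s ≤ a + c))).symm

private theorem pabs_mul {x y : ℝ} (hx0 : 0 ≤ x) (hx : x ≤ 1) (hy0 : 0 ≤ y) (hy : y ≤ 1) :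
    0 ≤ x * y ∧ x * y ≤ 1 := ⟨mul_nonneg hx0 hy0, mul_le_one₀ hx hy0 hy⟩

/-- three distinct coordinates -/
private theorem pI1 (μ : Measure ℕ) [IsProbabilityMeasure μ] (T : Finset ℕ) {i j k : Fin M}
    (hij : i ≠ j) (hik : i ≠ k) (hjk : j ≠ k) (a b s a' : ℕ) :
    ∫ t, pX i a t * pX j b t * pG T s a' k t ∂(Measure.pi (fun _ : Fin M => μ)) =
      μ.real {a} * μ.real {b} * μ.real {c | c ∈ T ∧ s ≤ a' + c} := by
  have h1 : ∀ t : Fin M → ℕ, pX i a t * pX j b t * pG T s a' k t =
      ∑ c ∈ T.filter (fun c => s ≤ a' + c), pX i a t * pX j b t * pX k c t := by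
    intro t
    rw [pG_eq, Finset.mul_sum]
  rw [integral_congr_ae (Eventually.of_forall h1), integral_finset_sum]
  · rw [pw_eq, Finset.mul_sum]
    exact Finset.sum_congr rfl fun c _ => pE3 μ hij hik hjk a b c
  · intro c _
    refine pint _ 1 fun t => ?_
    have h2 := pabs_mul (pX_nonneg i a t) (pX_le i a t) (pX_nonneg j b t) (pX_le j b t)
    have h3 := pabs_mul h2.1 h2.2 (pX_nonneg k c t) (pX_le k c t)
    rw [abs_of_nonneg h3.1]
    exact h3.2

/-- four distinct coordinates -/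
private theorem pI2 (μ : Measure ℕ) [IsProbabilityMeasure μ] (T : Finset ℕ) (S : ℕ → ℕ)
    {i j k l : Fin M} (hij : i ≠ j)
    (hik : i ≠ k) (hil : i ≠ l) (hjk : j ≠ k) (hjl : j ≠ l) (hkl : k ≠ l) (a b : ℕ) :
    ∫ t, pX i a t * pX j b t * pF T S k l t ∂(Measure.pi (fun _ : Fin M => μ)) =
      μ.real {a} * μ.real {b} * ∑ c ∈ T, μ.real {c} *
        μ.real {d | d ∈ T ∧ S ((l : ℕ) - k) ≤ c + d} := by
  have h1 : ∀ t : Fin M → ℕ, pX i a t * pX j b t * pF T S k l t =
      ∑ c ∈ T, ∑ d ∈ T.filter (fun d => S ((l : ℕ) - k) ≤ c + d),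
        pX i a t * pX j b t * (pX k c t * pX l d t) := by
    intro t
    rw [pF_eq, Finset.mul_sum]
    apply Finset.sum_congr rfl
    intro c _
    rw [pG_eq, Finset.mul_sum, Finset.mul_sum]
  have hb : ∀ c d : ℕ, Integrable (fun t : Fin M → ℕ =>
      pX i a t * pX j b t * (pX k c t * pX l d t)) (Measure.pi (fun _ : Fin M => μ)) := by
    intro c d
    refine pint _ 1 fun t => ?_
    have h2 := pabs_mul (pX_nonneg i a t) (pX_le i a t) (pX_nonneg j b t) (pX_le j b t)
    have h3 := pabs_mul (pX_nonneg k c t) (pX_le k c t) (pX_nonneg l d t) (pX_le l d t)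
    have h4 := pabs_mul h2.1 h2.2 h3.1 h3.2
    rw [abs_of_nonneg h4.1]
    exact h4.2
  rw [integral_congr_ae (Eventually.of_forall h1), integral_finset_sum]
  · rw [Finset.mul_sum]
    apply Finset.sum_congr rfl
    intro c _
    rw [integral_finset_sum _ (fun d _ => hb c d), pw_eq, Finset.mul_sum, Finset.mul_sum]
    exact Finset.sum_congr rfl fun d _ => pE4 μ hij hik hil hjk hjl hkl a b c d
  · intro c _
    exact integrable_finset_sum _ (fun d _ => hb c d)

private theorem pI0 (μ : Measure ℕ) [IsProbabilityMeasure μ] (T : Finset ℕ) (S : ℕ → ℕ)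
    {k l : Fin M} (hkl : k ≠ l) :
    ∫ t, pF T S k l t ∂(Measure.pi (fun _ : Fin M => μ)) =
      ∑ c ∈ T, μ.real {c} * μ.real {d | d ∈ T ∧ S ((l : ℕ) - k) ≤ c + d} := by
  have h1 : ∀ t : Fin M → ℕ, pF T S k l t =
      ∑ c ∈ T, ∑ d ∈ T.filter (fun d => S ((l : ℕ) - k) ≤ c + d), pX k c t * pX l d t := by
    intro t
    rw [pF_eq]
    apply Finset.sum_congr rfl
    intro c _
    rw [pG_eq, Finset.mul_sum]
  have hb : ∀ c d : ℕ, Integrable (fun t : Fin M → ℕ => pX k c t * pX l d t)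
      (Measure.pi (fun _ : Fin M => μ)) := by
    intro c d
    refine pint _ 1 fun t => ?_
    have h3 := pabs_mul (pX_nonneg k c t) (pX_le k c t) (pX_nonneg l d t) (pX_le l d t)
    rw [abs_of_nonneg h3.1]
    exact h3.2
  rw [integral_congr_ae (Eventually.of_forall h1), integral_finset_sum]
  · apply Finset.sum_congr rfl
    intro c _
    rw [integral_finset_sum _ (fun d _ => hb c d), pw_eq, Finset.mul_sum]
    exact Finset.sum_congr rfl fun d _ => pE2 μ hkl c d
  · intro c _
    exact integrable_finset_sum _ (fun d _ => hb c d)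

/-- `X_i(a) F_{i l} ≤ X_i(a) G_l` -/
private theorem pXF1 (T : Finset ℕ) (S : ℕ → ℕ) (i l : Fin M) (a : ℕ) (t : Fin M → ℕ) :
    pX i a t * pF T S i l t ≤ pX i a t * pG T (S ((l : ℕ) - i)) a l t := by
  unfold pX pF pG
  by_cases h : t i = a
  · rw [if_pos h, one_mul, one_mul]
    split_ifs with h1 h2 h2
    · exact le_rfl
    · exfalso
      apply h2
      refine ⟨h1.2.1, ?_⟩
      rw [← h]
      exact h1.2.2
    · norm_num
    · exact le_rfl
  · rw [if_neg h, zero_mul, zero_mul]

private theorem pXF2 (T : Finset ℕ) (S : ℕ → ℕ) (i k : Fin M) (a : ℕ) (t : Fin M → ℕ) :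
    pX i a t * pF T S k i t ≤ pX i a t * pG T (S ((i : ℕ) - k)) a k t := by
  unfold pX pF pG
  by_cases h : t i = a
  · rw [if_pos h, one_mul, one_mul]
    split_ifs with h1 h2 h2
    · exact le_rfl
    · exfalso
      apply h2
      refine ⟨h1.1, ?_⟩
      rw [← h, Nat.add_comm]
      exact h1.2.2
    · norm_num
    · exact le_rfl
  · rw [if_neg h, zero_mul, zero_mul]

/-- the pairs -/
private def pP (M D : ℕ) : Finset (Fin M × Fin M) :=
  Finset.univ.filter (fun π => π.1 < π.2 ∧ (π.2 : ℕ) - π.1 < D)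

private theorem pP_mem {D : ℕ} {π : Fin M × Fin M} :
    π ∈ pP M D ↔ π.1 < π.2 ∧ (π.2 : ℕ) - π.1 < D := by
  simp [pP]

private theorem psum1 (D : ℕ) (i : Fin M) (g : ℕ → ℝ) (hg : ∀ d, 0 ≤ g d) :
    ∑ π ∈ pP M D, (if π.1 = i then g ((π.2 : ℕ) - π.1) else 0) ≤ ∑ d ∈ Finset.Ico 1 D, g d := by
  classical
  rw [← Finset.sum_filter]
  have h1 : Set.InjOn (fun π : Fin M × Fin M => (π.2 : ℕ) - π.1)
      ((pP M D).filter (fun π => π.1 = i) : Finset (Fin M × Fin M)) := by
    intro π hπ π' hπ' h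
    rw [Finset.mem_coe, Finset.mem_filter, pP_mem] at hπ hπ'
    have a1 := Fin.lt_def.mp hπ.1.1
    have a2 := Fin.lt_def.mp hπ'.1.1
    have a3 : (π.1 : ℕ) = i := by rw [hπ.2]
    have a4 : (π'.1 : ℕ) = i := by rw [hπ'.2]
    have h' : (π.2 : ℕ) - π.1 = (π'.2 : ℕ) - π'.1 := h
    apply Prod.ext
    · rw [hπ.2, hπ'.2]
    · apply Fin.ext
      omega
  rw [← Finset.sum_image (f := g) h1]
  apply Finset.sum_le_sum_of_subset_of_nonneg
  · intro d hd
    rw [Finset.mem_image] at hd
    obtain ⟨π, hπ, rfl⟩ := hd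
    rw [Finset.mem_filter, pP_mem] at hπ
    have a1 := Fin.lt_def.mp hπ.1.1
    rw [Finset.mem_Ico]
    exact ⟨by omega, hπ.1.2⟩
  · intro d _ _
    exact hg d

private theorem psum2 (D : ℕ) (i : Fin M) (g : ℕ → ℝ) (hg : ∀ d, 0 ≤ g d) :
    ∑ π ∈ pP M D, (if π.2 = i then g ((π.2 : ℕ) - π.1) else 0) ≤ ∑ d ∈ Finset.Ico 1 D, g d := by
  classical
  rw [← Finset.sum_filter]
  have h1 : Set.InjOn (fun π : Fin M × Fin M => (π.2 : ℕ) - π.1)
      ((pP M D).filter (fun π => π.2 = i) : Finset (Fin M × Fin M)) := by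
    intro π hπ π' hπ' h
    rw [Finset.mem_coe, Finset.mem_filter, pP_mem] at hπ hπ'
    have a1 := Fin.lt_def.mp hπ.1.1
    have a2 := Fin.lt_def.mp hπ'.1.1
    have a3 : (π.2 : ℕ) = i := by rw [hπ.2]
    have a4 : (π'.2 : ℕ) = i := by rw [hπ'.2]
    have h' : (π.2 : ℕ) - π.1 = (π'.2 : ℕ) - π'.1 := h
    apply Prod.ext
    · apply Fin.ext
      omega
    · rw [hπ.2, hπ'.2]
  rw [← Finset.sum_image (f := g) h1]
  apply Finset.sum_le_sum_of_subset_of_nonneg
  · intro d hd
    rw [Finset.mem_image] at hd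
    obtain ⟨π, hπ, rfl⟩ := hd
    rw [Finset.mem_filter, pP_mem] at hπ
    have a1 := Fin.lt_def.mp hπ.1.1
    rw [Finset.mem_Ico]
    exact ⟨by omega, hπ.1.2⟩
  · intro d _ _
    exact hg d

private theorem psum3 (D : ℕ) (g : ℕ → ℝ) (hg : ∀ d, 0 ≤ g d) :
    ∑ d ∈ Finset.Ico 1 D, ((M - d : ℕ) : ℝ) * g d ≤ ∑ π ∈ pP M D, g ((π.2 : ℕ) - π.1) := by
  classical
  have hmaps : ∀ π ∈ pP M D, (π.2 : ℕ) - π.1 ∈ Finset.Ico 1 D := by
    intro π hπ
    rw [pP_mem] at hπ
    have a1 := Fin.lt_def.mp hπ.1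
    rw [Finset.mem_Ico]
    exact ⟨by omega, hπ.2⟩
  rw [← Finset.sum_fiberwise_of_maps_to hmaps]
  apply Finset.sum_le_sum
  intro d hd
  rw [Finset.mem_Ico] at hd
  have h1 : ∑ π ∈ (pP M D).filter (fun π => (π.2 : ℕ) - π.1 = d), g ((π.2 : ℕ) - π.1) =
      (((pP M D).filter (fun π => (π.2 : ℕ) - π.1 = d)).card : ℝ) * g d := by
    rw [Finset.sum_congr rfl (g := fun _ => g d)]
    · rw [Finset.sum_const, nsmul_eq_mul]
    · intro π hπ
      rw [Finset.mem_filter] at hπ
      rw [hπ.2]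
  rw [h1]
  apply mul_le_mul_of_nonneg_right _ (hg d)
  have h2 : M - d ≤ ((pP M D).filter (fun π => (π.2 : ℕ) - π.1 = d)).card := by
    rw [← Finset.card_range (M - d), ← Finset.card_attach (s := Finset.range (M - d))]
    apply Finset.card_le_card_of_injOn
      (fun x : {x // x ∈ Finset.range (M - d)} =>
        ((⟨x.1, by have := Finset.mem_range.mp x.2; omega⟩,
          ⟨x.1 + d, by have := Finset.mem_range.mp x.2; omega⟩) : Fin M × Fin M))
    · intro x _
      rw [Finset.mem_coe, Finset.mem_filter, pP_mem]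
      refine ⟨⟨?_, ?_⟩, ?_⟩
      · rw [Fin.lt_def]
        show x.1 < x.1 + d
        omega
      · show x.1 + d - x.1 < D
        omega
      · show x.1 + d - x.1 = d
        omega
    · intro x _ y _ hxy
      have := congrArg (fun z : Fin M × Fin M => (z.1 : ℕ)) hxy
      exact Subtype.ext this
  exact_mod_cast h2

/-- conditional mean of the number of linked pairs -/
private theorem pcond (μ : Measure ℕ) [IsProbabilityMeasure μ] (D : ℕ) (T : Finset ℕ) (S : ℕ → ℕ)
    (hdeg : ∀ a ∈ T, ∑ d ∈ Finset.Ico 1 D, μ.real {a' | a' ∈ T ∧ S d ≤ a + a'} ≤ 1 / 8)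
    (π : Fin M × Fin M) (hπ : π ∈ pP M D) (a b : ℕ) (ha : a ∈ T) (hb : b ∈ T) :
    ∫ t, pX π.1 a t * pX π.2 b t * ∑ ρ ∈ pP M D, pF T S ρ.1 ρ.2 t
        ∂(Measure.pi (fun _ : Fin M => μ)) ≤
      μ.real {a} * μ.real {b} * (3 / 2 + ∑ ρ ∈ pP M D, ∑ c ∈ T, μ.real {c} *
        μ.real {d | d ∈ T ∧ S ((ρ.2 : ℕ) - ρ.1) ≤ c + d}) := by
  classical
  obtain ⟨i, j⟩ := π
  have hij := (pP_mem.mp hπ).1
  have hij' : i ≠ j := ne_of_lt hij
  dsimp only at hij ⊢
  have hint : ∀ k l : Fin M, Integrable (fun t : Fin M → ℕ => pX i a t * pX j b t * pF T S k l t)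
      (Measure.pi (fun _ : Fin M => μ)) := by
    intro k l
    refine pint _ 1 fun t => ?_
    have h2 := pabs_mul (pX_nonneg i a t) (pX_le i a t) (pX_nonneg j b t) (pX_le j b t)
    have h3 := pabs_mul h2.1 h2.2 (pF_nonneg T S k l t) (pF_le T S k l t)
    rw [abs_of_nonneg h3.1]
    exact h3.2
  have hintG : ∀ (s a' : ℕ) (k : Fin M), Integrable (fun t : Fin M → ℕ =>
      pX i a t * pX j b t * pG T s a' k t) (Measure.pi (fun _ : Fin M => μ)) := by
    intro s a' k
    refine pint _ 1 fun t => ?_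
    have h2 := pabs_mul (pX_nonneg i a t) (pX_le i a t) (pX_nonneg j b t) (pX_le j b t)
    have h3 := pabs_mul h2.1 h2.2 (pG_nonneg T s a' k t) (pG_le T s a' k t)
    rw [abs_of_nonneg h3.1]
    exact h3.2
  have hint2 : Integrable (fun t : Fin M → ℕ => pX i a t * pX j b t)
      (Measure.pi (fun _ : Fin M => μ)) := by
    refine pint _ 1 fun t => ?_
    have h2 := pabs_mul (pX_nonneg i a t) (pX_le i a t) (pX_nonneg j b t) (pX_le j b t)
    rw [abs_of_nonneg h2.1]
    exact h2.2
  have hm : 0 ≤ μ.real {a} * μ.real {b} := mul_nonneg measureReal_nonneg measureReal_nonneg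
  -- the individual terms
  have hterm : ∀ ρ ∈ pP M D, ∫ t, pX i a t * pX j b t * pF T S ρ.1 ρ.2 t
      ∂(Measure.pi (fun _ : Fin M => μ)) ≤ μ.real {a} * μ.real {b} *
        ((if ρ = (i, j) then 1 else 0) +
        ((if ρ.1 = i then μ.real {c | c ∈ T ∧ S ((ρ.2 : ℕ) - ρ.1) ≤ a + c} else 0) +
         (if ρ.2 = i then μ.real {c | c ∈ T ∧ S ((ρ.2 : ℕ) - ρ.1) ≤ a + c} else 0)) +
        ((if ρ.1 = j then μ.real {c | c ∈ T ∧ S ((ρ.2 : ℕ) - ρ.1) ≤ b + c} else 0) +
         (if ρ.2 = j then μ.real {c | c ∈ T ∧ S ((ρ.2 : ℕ) - ρ.1) ≤ b + c} else 0)) +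
        ∑ c ∈ T, μ.real {c} * μ.real {d | d ∈ T ∧ S ((ρ.2 : ℕ) - ρ.1) ≤ c + d}) := by
    rintro ⟨k, l⟩ hρ
    have hkl := (pP_mem.mp hρ).1
    dsimp only at hkl ⊢
    have hkl' : k ≠ l := ne_of_lt hkl
    have n1 : (0 : ℝ) ≤ if ((k, l) : Fin M × Fin M) = (i, j) then 1 else 0 := by
      split_ifs <;> norm_num
    have n2 : ∀ (P : Prop) [Decidable P] (x : ℕ), (0 : ℝ) ≤
        if P then μ.real {c | c ∈ T ∧ S ((l : ℕ) - k) ≤ x + c} else 0 := by
      intro P _ x
      split_ifs
      · exact measureReal_nonneg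
      · exact le_rfl
    have n3 : (0 : ℝ) ≤ ∑ c ∈ T, μ.real {c} * μ.real {d | d ∈ T ∧ S ((l : ℕ) - k) ≤ c + d} :=
      Finset.sum_nonneg fun c _ => mul_nonneg measureReal_nonneg measureReal_nonneg
    have key : ∀ z : ℝ, ∫ t, pX i a t * pX j b t * pF T S k l t
        ∂(Measure.pi (fun _ : Fin M => μ)) ≤ μ.real {a} * μ.real {b} * z →
        z ≤ ((if ((k, l) : Fin M × Fin M) = (i, j) then 1 else 0) +
        ((if k = i then μ.real {c | c ∈ T ∧ S ((l : ℕ) - k) ≤ a + c} else 0) +
         (if l = i then μ.real {c | c ∈ T ∧ S ((l : ℕ) - k) ≤ a + c} else 0)) +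
        ((if k = j then μ.real {c | c ∈ T ∧ S ((l : ℕ) - k) ≤ b + c} else 0) +
         (if l = j then μ.real {c | c ∈ T ∧ S ((l : ℕ) - k) ≤ b + c} else 0)) +
        ∑ c ∈ T, μ.real {c} * μ.real {d | d ∈ T ∧ S ((l : ℕ) - k) ≤ c + d}) →
        ∫ t, pX i a t * pX j b t * pF T S k l t
        ∂(Measure.pi (fun _ : Fin M => μ)) ≤ μ.real {a} * μ.real {b} *
        ((if ((k, l) : Fin M × Fin M) = (i, j) then 1 else 0) +
        ((if k = i then μ.real {c | c ∈ T ∧ S ((l : ℕ) - k) ≤ a + c} else 0) +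
         (if l = i then μ.real {c | c ∈ T ∧ S ((l : ℕ) - k) ≤ a + c} else 0)) +
        ((if k = j then μ.real {c | c ∈ T ∧ S ((l : ℕ) - k) ≤ b + c} else 0) +
         (if l = j then μ.real {c | c ∈ T ∧ S ((l : ℕ) - k) ≤ b + c} else 0)) +
        ∑ c ∈ T, μ.real {c} * μ.real {d | d ∈ T ∧ S ((l : ℕ) - k) ≤ c + d}) :=
      fun z h1 h2 => le_trans h1 (mul_le_mul_of_nonneg_left h2 hm)
    have m1 := n2 (k = i) a
    have m2 := n2 (l = i) a
    have m3 := n2 (k = j) b
    have m4 := n2 (l = j) b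
    by_cases hp : ((k, l) : Fin M × Fin M) = (i, j)
    · apply key 1
      · rw [mul_one, ← pE2 μ hij' a b]
        apply integral_mono (hint k l) hint2
        intro t
        have h2 := pabs_mul (pX_nonneg i a t) (pX_le i a t) (pX_nonneg j b t) (pX_le j b t)
        exact mul_le_of_le_one_right h2.1 (pF_le T S k l t)
      · rw [if_pos hp]
        linarith
    · by_cases h1 : k = i
      · subst h1
        have hlj : l ≠ j := fun h => hp (by rw [h])
        apply key (μ.real {c | c ∈ T ∧ S ((l : ℕ) - k) ≤ a + c})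
        · rw [← pI1 μ T hij' hkl' hlj.symm a b (S ((l : ℕ) - k)) a]
          apply integral_mono (hint k l) (hintG _ _ _)
          intro t
          have h3 := mul_le_mul_of_nonneg_left (pXF1 T S k l a t) (pX_nonneg j b t)
          show pX k a t * pX j b t * pF T S k l t ≤ pX k a t * pX j b t * pG T (S ((l : ℕ) - k)) a l t
          calc pX k a t * pX j b t * pF T S k l t = pX j b t * (pX k a t * pF T S k l t) := by ring
            _ ≤ pX j b t * (pX k a t * pG T (S ((l : ℕ) - k)) a l t) := h3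
            _ = pX k a t * pX j b t * pG T (S ((l : ℕ) - k)) a l t := by ring
        · rw [if_pos rfl]
          linarith
      · by_cases h2 : l = i
        · subst h2
          have hkj : k ≠ j := ne_of_lt (lt_trans hkl hij)
          apply key (μ.real {c | c ∈ T ∧ S ((l : ℕ) - k) ≤ a + c})
          · rw [← pI1 μ T hij' hkl'.symm hkj.symm a b (S ((l : ℕ) - k)) a]
            apply integral_mono (hint k l) (hintG _ _ _)
            intro t
            have h3 := mul_le_mul_of_nonneg_left (pXF2 T S l k a t) (pX_nonneg j b t)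
            show pX l a t * pX j b t * pF T S k l t ≤
              pX l a t * pX j b t * pG T (S ((l : ℕ) - k)) a k t
            calc pX l a t * pX j b t * pF T S k l t = pX j b t * (pX l a t * pF T S k l t) := by ring
              _ ≤ pX j b t * (pX l a t * pG T (S ((l : ℕ) - k)) a k t) := h3
              _ = pX l a t * pX j b t * pG T (S ((l : ℕ) - k)) a k t := by ring
          · rw [if_pos rfl] at m2
            rw [if_pos (show l = l from rfl)]
            linarith
        · by_cases h3 : k = j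
          · subst h3
            apply key (μ.real {c | c ∈ T ∧ S ((l : ℕ) - k) ≤ b + c})
            · rw [← pI1 μ T hij' (Ne.symm h2) hkl' a b (S ((l : ℕ) - k)) b]
              apply integral_mono (hint k l) (hintG _ _ _)
              intro t
              have h3 := mul_le_mul_of_nonneg_left (pXF1 T S k l b t) (pX_nonneg i a t)
              show pX i a t * pX k b t * pF T S k l t ≤
                pX i a t * pX k b t * pG T (S ((l : ℕ) - k)) b l t
              calc pX i a t * pX k b t * pF T S k l t = pX i a t * (pX k b t * pF T S k l t) := by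
                    ring
                _ ≤ pX i a t * (pX k b t * pG T (S ((l : ℕ) - k)) b l t) := h3
                _ = pX i a t * pX k b t * pG T (S ((l : ℕ) - k)) b l t := by ring
            · rw [if_pos (show k = k from rfl)]
              linarith
          · by_cases h4 : l = j
            · subst h4
              apply key (μ.real {c | c ∈ T ∧ S ((l : ℕ) - k) ≤ b + c})
              · rw [← pI1 μ T hij' (Ne.symm h1) (Ne.symm h3) a b (S ((l : ℕ) - k)) b]
                apply integral_mono (hint k l) (hintG _ _ _)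
                intro t
                have h3 := mul_le_mul_of_nonneg_left (pXF2 T S l k b t) (pX_nonneg i a t)
                show pX i a t * pX l b t * pF T S k l t ≤
                  pX i a t * pX l b t * pG T (S ((l : ℕ) - k)) b k t
                calc pX i a t * pX l b t * pF T S k l t = pX i a t * (pX l b t * pF T S k l t) := by
                      ring
                  _ ≤ pX i a t * (pX l b t * pG T (S ((l : ℕ) - k)) b k t) := h3
                  _ = pX i a t * pX l b t * pG T (S ((l : ℕ) - k)) b k t := by ring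
              · rw [if_pos (show l = l from rfl)]
                linarith
            · apply key (∑ c ∈ T, μ.real {c} * μ.real {d | d ∈ T ∧ S ((l : ℕ) - k) ≤ c + d})
              · exact le_of_eq (pI2 μ T S hij' (Ne.symm h1) (Ne.symm h2) (Ne.symm h3) (Ne.symm h4)
                  hkl' a b)
              · linarith
  have hsum : ∀ t : Fin M → ℕ, pX i a t * pX j b t * ∑ ρ ∈ pP M D, pF T S ρ.1 ρ.2 t =
      ∑ ρ ∈ pP M D, pX i a t * pX j b t * pF T S ρ.1 ρ.2 t := fun t => Finset.mul_sum _ _ _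
  rw [integral_congr_ae (Eventually.of_forall hsum),
    integral_finset_sum _ (fun ρ _ => hint ρ.1 ρ.2)]
  refine le_trans (Finset.sum_le_sum hterm) ?_
  rw [← Finset.mul_sum]
  apply mul_le_mul_of_nonneg_left _ hm
  rw [Finset.sum_add_distrib, Finset.sum_add_distrib, Finset.sum_add_distrib,
    Finset.sum_add_distrib, Finset.sum_add_distrib]
  have s1 : ∑ ρ ∈ pP M D, (if ρ = (i, j) then (1 : ℝ) else 0) = 1 := by
    rw [Finset.sum_ite_eq', if_pos hπ]
  have s2 := psum1 (M := M) D i (fun d => μ.real {c | c ∈ T ∧ S d ≤ a + c})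
    (fun d => measureReal_nonneg)
  have s3 := psum2 (M := M) D i (fun d => μ.real {c | c ∈ T ∧ S d ≤ a + c})
    (fun d => measureReal_nonneg)
  have s4 := psum1 (M := M) D j (fun d => μ.real {c | c ∈ T ∧ S d ≤ b + c})
    (fun d => measureReal_nonneg)
  have s5 := psum2 (M := M) D j (fun d => μ.real {c | c ∈ T ∧ S d ≤ b + c})
    (fun d => measureReal_nonneg)
  have d1 := hdeg a ha
  have d2 := hdeg b hb
  rw [s1]
  linarith

end PairsAux

/-- `Y` the number of pairs `(i, j)`, `i < j`, `j - i < D`, which are linked: `t i, t j ∈ T`,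
`S (j - i) ≤ t i + t j`. Disjoint pairs are independent, and given a linked pair the mean number of
other linked pairs which share `i` (or `j`) is at most `1 / 4`: `E Y ^ 2 ≤ 3 / 2 * E Y + (E Y) ^ 2`,
hence `P (Y ≥ 1) ≥ (E Y) ^ 2 / E Y ^ 2 ≥ min (1 / 3) (E Y / 3)`. -/
theorem pairs {M D : ℕ} (μ : Measure ℕ) [IsProbabilityMeasure μ] (T : Finset ℕ) (S : ℕ → ℕ)
    (hdeg : ∀ a ∈ T, ∑ d ∈ Finset.Ico 1 D, μ.real {a' | a' ∈ T ∧ S d ≤ a + a'} ≤ 1 / 8) :
    min (1 / 3) ((∑ d ∈ Finset.Ico 1 D, ((M - d : ℕ) : ℝ) *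
        ∑ a ∈ T, μ.real {a} * μ.real {a' | a' ∈ T ∧ S d ≤ a + a'}) / 3) ≤
      (Measure.pi (fun _ : Fin M => μ)).real {t | ∃ i j : Fin M, i < j ∧ (j : ℕ) - i < D ∧
        t i ∈ T ∧ t j ∈ T ∧ S ((j : ℕ) - i) ≤ t i + t j} := by
  classical
  obtain ⟨P, hP⟩ : ∃ P, P = Measure.pi (fun _ : Fin M => μ) := ⟨_, rfl⟩
  have hPp : IsProbabilityMeasure P := by rw [hP]; infer_instance
  obtain ⟨Y, hY⟩ : ∃ Y : (Fin M → ℕ) → ℝ, ∀ t, Y t = ∑ ρ ∈ pP M D, pF T S ρ.1 ρ.2 t :=
    ⟨_, fun _ => rfl⟩
  obtain ⟨e, he⟩ : ∃ e : ℝ, e = ∑ ρ ∈ pP M D, ∑ c ∈ T, μ.real {c} *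
        μ.real {d | d ∈ T ∧ S ((ρ.2 : ℕ) - ρ.1) ≤ c + d} := ⟨_, rfl⟩
  obtain ⟨e0, he0⟩ : ∃ e0 : ℝ, e0 = ∑ d ∈ Finset.Ico 1 D, ((M - d : ℕ) : ℝ) *
        ∑ a ∈ T, μ.real {a} * μ.real {a' | a' ∈ T ∧ S d ≤ a + a'} := ⟨_, rfl⟩
  have hee : e0 ≤ e := by
    rw [he0, he]
    exact psum3 D (fun d => ∑ a ∈ T, μ.real {a} * μ.real {a' | a' ∈ T ∧ S d ≤ a + a'})
      (fun d => Finset.sum_nonneg fun c _ => mul_nonneg measureReal_nonneg measureReal_nonneg)
  have he_nonneg : 0 ≤ e := by
    rw [he]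
    exact Finset.sum_nonneg fun ρ _ => Finset.sum_nonneg fun c _ =>
      mul_nonneg measureReal_nonneg measureReal_nonneg
  have hYb : ∀ t, 0 ≤ Y t ∧ Y t ≤ ((pP M D).card : ℝ) := by
    intro t
    rw [hY]
    refine ⟨Finset.sum_nonneg fun ρ _ => pF_nonneg T S _ _ t, ?_⟩
    have := Finset.sum_le_card_nsmul (pP M D) (fun ρ => pF T S ρ.1 ρ.2 t) 1
      (fun ρ _ => pF_le T S _ _ t)
    simpa using this
  have hYint : Integrable Y P := by
    rw [hP]
    refine pint _ ((pP M D).card : ℝ) fun t => ?_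
    rw [abs_of_nonneg (hYb t).1]
    exact (hYb t).2
  have hFY : ∀ ρ : Fin M × Fin M, Integrable (fun t => pF T S ρ.1 ρ.2 t * Y t) P := by
    intro ρ
    rw [hP]
    refine pint _ ((pP M D).card : ℝ) fun t => ?_
    rw [abs_of_nonneg (mul_nonneg (pF_nonneg T S _ _ t) (hYb t).1)]
    calc pF T S ρ.1 ρ.2 t * Y t ≤ 1 * Y t :=
          mul_le_mul_of_nonneg_right (pF_le T S _ _ t) (hYb t).1
      _ ≤ _ := by rw [one_mul]; exact (hYb t).2
  have hYint2 : Integrable (fun t => Y t ^ 2) P := by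
    rw [hP]
    refine pint _ (((pP M D).card : ℝ) ^ 2) fun t => ?_
    rw [abs_of_nonneg (by positivity)]
    exact pow_le_pow_left₀ (hYb t).1 (hYb t).2 2
  -- first moment
  have hE1 : ∫ t, Y t ∂P = e := by
    rw [integral_congr_ae (Eventually.of_forall hY), integral_finset_sum, he]
    · apply Finset.sum_congr rfl
      intro ρ hρ
      rw [hP]
      exact pI0 μ T S (ne_of_lt (pP_mem.mp hρ).1)
    · intro ρ _
      rw [hP]
      refine pint _ 1 fun t => ?_
      rw [abs_of_nonneg (pF_nonneg T S _ _ t)]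
      exact pF_le T S _ _ t
  -- second moment
  have hE2 : ∫ t, Y t ^ 2 ∂P ≤ e * (3 / 2 + e) := by
    have h1 : ∀ t, Y t ^ 2 = ∑ ρ ∈ pP M D, pF T S ρ.1 ρ.2 t * Y t := by
      intro t
      rw [← Finset.sum_mul, ← hY, sq]
    rw [integral_congr_ae (Eventually.of_forall h1), integral_finset_sum _ (fun ρ _ => hFY ρ)]
    calc ∑ ρ ∈ pP M D, ∫ t, pF T S ρ.1 ρ.2 t * Y t ∂P
        ≤ ∑ ρ ∈ pP M D, (∑ c ∈ T, μ.real {c} *
            μ.real {d | d ∈ T ∧ S ((ρ.2 : ℕ) - ρ.1) ≤ c + d}) * (3 / 2 + e) := by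
          apply Finset.sum_le_sum
          intro ρ hρ
          have h2 : ∀ t, pF T S ρ.1 ρ.2 t * Y t = ∑ c ∈ T,
              ∑ d ∈ T.filter (fun d => S ((ρ.2 : ℕ) - ρ.1) ≤ c + d),
                pX ρ.1 c t * pX ρ.2 d t * Y t := by
            intro t
            rw [pF_eq, Finset.sum_mul]
            apply Finset.sum_congr rfl
            intro c _
            rw [pG_eq, Finset.mul_sum, Finset.sum_mul]
          have hb : ∀ c d : ℕ, Integrable (fun t => pX ρ.1 c t * pX ρ.2 d t * Y t) P := by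
            intro c d
            rw [hP]
            refine pint _ ((pP M D).card : ℝ) fun t => ?_
            have h3 := pabs_mul (pX_nonneg ρ.1 c t) (pX_le ρ.1 c t) (pX_nonneg ρ.2 d t)
              (pX_le ρ.2 d t)
            rw [abs_of_nonneg (mul_nonneg h3.1 (hYb t).1)]
            calc pX ρ.1 c t * pX ρ.2 d t * Y t ≤ 1 * Y t :=
                  mul_le_mul_of_nonneg_right h3.2 (hYb t).1
              _ ≤ _ := by rw [one_mul]; exact (hYb t).2
          rw [integral_congr_ae (Eventually.of_forall h2), integral_finset_sum _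
            (fun c _ => integrable_finset_sum _ (fun d _ => hb c d)), Finset.sum_mul]
          apply Finset.sum_le_sum
          intro c hc
          rw [integral_finset_sum _ (fun d _ => hb c d), pw_eq, Finset.mul_sum, Finset.sum_mul]
          apply Finset.sum_le_sum
          intro d hd
          have hd' := (Finset.mem_filter.mp hd).1
          have h4 := pcond μ D T S hdeg ρ hρ c d hc hd'
          rw [← he, ← hP] at h4
          refine le_trans (le_of_eq ?_) h4
          apply integral_congr_ae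
          refine Eventually.of_forall fun t => ?_
          show pX ρ.1 c t * pX ρ.2 d t * Y t = _
          rw [hY]
      _ = e * (3 / 2 + e) := by rw [← Finset.sum_mul, ← he]
  -- the elementary inequality
  obtain ⟨lam, hlam⟩ : ∃ lam : ℝ, lam = 1 / (3 / 2 + e) := ⟨_, rfl⟩
  have hlam0 : lam * (3 / 2 + e) = 1 := by
    rw [hlam]
    field_simp
  have hmain : 2 * lam * e - lam ^ 2 * (e * (3 / 2 + e)) ≤
      P.real {t | ∃ i j : Fin M, i < j ∧ (j : ℕ) - i < D ∧
        t i ∈ T ∧ t j ∈ T ∧ S ((j : ℕ) - i) ≤ t i + t j} := by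
    rw [← integral_indicator_one ((Set.to_countable _).measurableSet)]
    calc 2 * lam * e - lam ^ 2 * (e * (3 / 2 + e))
        ≤ 2 * lam * ∫ t, Y t ∂P - lam ^ 2 * ∫ t, Y t ^ 2 ∂P := by
          rw [hE1]
          have := mul_le_mul_of_nonneg_left hE2 (sq_nonneg lam)
          linarith
      _ = ∫ t, (2 * lam * Y t - lam ^ 2 * Y t ^ 2) ∂P := by
          rw [integral_sub (hYint.const_mul _) (hYint2.const_mul _), integral_const_mul,
            integral_const_mul]
      _ ≤ _ := by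
          apply integral_mono ((hYint.const_mul _).sub (hYint2.const_mul _))
          · rw [hP]
            refine pint _ 1 fun t => ?_
            by_cases ht : t ∈ {t : Fin M → ℕ | ∃ i j : Fin M, i < j ∧ (j : ℕ) - i < D ∧
                t i ∈ T ∧ t j ∈ T ∧ S ((j : ℕ) - i) ≤ t i + t j}
            · rw [Set.indicator_of_mem ht]; simp
            · rw [Set.indicator_of_notMem ht]; simp
          · intro t
            show 2 * lam * Y t - lam ^ 2 * Y t ^ 2 ≤ _
            by_cases ht : t ∈ {t : Fin M → ℕ | ∃ i j : Fin M, i < j ∧ (j : ℕ) - i < D ∧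
                t i ∈ T ∧ t j ∈ T ∧ S ((j : ℕ) - i) ≤ t i + t j}
            · rw [Set.indicator_of_mem ht, Pi.one_apply]
              nlinarith [sq_nonneg (1 - lam * Y t)]
            · rw [Set.indicator_of_notMem ht]
              have h0 : Y t = 0 := by
                rw [hY]
                apply Finset.sum_eq_zero
                intro ρ hρ
                unfold pF
                rw [if_neg]
                intro h5
                exact ht ⟨ρ.1, ρ.2, (pP_mem.mp hρ).1, (pP_mem.mp hρ).2, h5⟩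
              rw [h0]
              simp
  rw [← he0, ← hP]
  refine le_trans ?_ hmain
  have h6 : 2 * lam * e - lam ^ 2 * (e * (3 / 2 + e)) = lam * e := by
    have : lam ^ 2 * (e * (3 / 2 + e)) = lam * e * (lam * (3 / 2 + e)) := by ring
    rw [this, hlam0]
    ring
  rw [h6]
  have hlp : 0 < lam := by rw [hlam]; positivity
  by_cases hc : e ≤ 3 / 2
  · refine le_trans (min_le_right _ _) ?_
    have h7 : 1 / 3 ≤ lam := by
      rw [hlam]
      apply one_div_le_one_div_of_le (by positivity)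
      linarith
    nlinarith
  · push Not at hc
    refine le_trans (min_le_left _ _) ?_
    have h7 : lam * e = 1 - lam * (3 / 2) := by linarith
    have h8 : lam ≤ 1 / 3 := by
      rw [hlam]
      apply one_div_le_one_div_of_le (by norm_num)
      linarith
    rw [h7]
    linarith

end Pool.Agent.Lib.MP_3d9a2b_pr
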