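import Pool.Agent.Lib.MP_3d9a2b_pr.V.DP
import Pool.Agent.Lib.MP_3d9a2b_pr.V.MacroNum
import Pool.Agent.Lib.MP_3d9a2b_pr.V.Dom
import Pool.Agent.Lib.MP_3d9a2b_pr.V.Pairs
import Pool.Agent.Lib.MP_3d9a2b_pr.V.Blocks

set_option autoImplicit false

/-! Task VI5: one step of the multiscale analysis: two good blocks are linked by a long
excursion. -/

namespace Pool.Agent.Lib.MP_3d9a2b_pr

open MeasureTheory ProbabilityTheory Filter Topology
open scoped NNReal ENNReal

/-- a discrete probability: weights `w a`, `a ∈ T`, the rest at `0` -/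
private noncomputable def mac_mu (w : ℕ → ℝ) (T : Finset ℕ) : Measure ℕ :=
  (∑ a ∈ T, ENNReal.ofReal (w a) • Measure.dirac a) +
    ENNReal.ofReal (1 - ∑ a ∈ T, w a) • Measure.dirac 0

private lemma mac_mu_apply (w : ℕ → ℝ) (T : Finset ℕ) (hw : ∀ a, 0 ≤ w a) (A : Set ℕ)
    [DecidablePred (· ∈ A)] (h0 : 0 ∉ A) :
    mac_mu w T A = ENNReal.ofReal (∑ a ∈ T.filter (· ∈ A), w a) := by
  classical
  unfold mac_mu
  rw [Measure.add_apply, Measure.finsetSum_apply, Measure.smul_apply,
    Measure.dirac_apply' _ (MeasurableSet.of_discrete), Set.indicator_of_notMem h0, smul_zero,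
    add_zero, ENNReal.ofReal_sum_of_nonneg (fun a _ => hw a), Finset.sum_filter]
  apply Finset.sum_congr rfl
  intro a _
  rw [Measure.smul_apply, Measure.dirac_apply' _ (MeasurableSet.of_discrete), smul_eq_mul]
  by_cases h : a ∈ A
  · simp [h]
  · simp [h]

private lemma mac_mu_prob (w : ℕ → ℝ) (T : Finset ℕ) (hw : ∀ a, 0 ≤ w a)
    (h1 : ∑ a ∈ T, w a ≤ 1) : IsProbabilityMeasure (mac_mu w T) := by
  constructor
  unfold mac_mu
  rw [Measure.add_apply, Measure.finsetSum_apply, Measure.smul_apply, measure_univ, smul_eq_mul,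
    mul_one]
  have : ∑ a ∈ T, (ENNReal.ofReal (w a) • Measure.dirac a : Measure ℕ) Set.univ =
      ENNReal.ofReal (∑ a ∈ T, w a) := by
    rw [ENNReal.ofReal_sum_of_nonneg (fun a _ => hw a)]
    apply Finset.sum_congr rfl
    intro a _
    rw [Measure.smul_apply, measure_univ, smul_eq_mul, mul_one]
  rw [this, ← ENNReal.ofReal_add (Finset.sum_nonneg fun a _ => hw a) (by linarith)]
  simp

private lemma mac_tele (C γ : ℝ) (c n : ℕ) :
    ∑ a ∈ Finset.Ico c (c + n), C * Real.exp (-γ * a) * (1 - Real.exp (-γ)) =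
      C * (Real.exp (-γ * c) - Real.exp (-γ * ((c + n : ℕ) : ℝ))) := by
  induction n with
  | zero => simp
  | succ n ih =>
    rw [← add_assoc, Finset.sum_Ico_succ_top (by omega), ih]
    have e : Real.exp (-γ * ((c + n + 1 : ℕ) : ℝ)) =
        Real.exp (-γ * ((c + n : ℕ) : ℝ)) * Real.exp (-γ) := by
      rw [← Real.exp_add]; congr 1; push_cast; ring
    rw [e]; ring

theorem macro_step {b L₀ B γ β V : ℝ} {N M : ℕ} (hγ0 : 1 / 2 ≤ γ) (hγ1 : γ ≤ 1) (hL : 0 ≤ L₀)
    (hβ : 0 < β) (hN : 1 ≤ N) (hM : 4 ≤ Real.log M) (hNγ : (N : ℝ) ^ (2 * γ - 1) ≤ 3)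
    (hMγ : (M : ℝ) ^ (2 * γ - 1) ≤ 3)
    (hcond : 8 * Real.log (4 * (1 + β) * Real.log M) + 8 ≤ Real.log M + 2 * L₀)
    (hH : vH b L₀ B γ N β V) :
    vH b L₀ B γ (N * M) (1 / 10000 * Real.exp (-γ * L₀) * Real.log M ^ 2 * β ^ 2) (V - L₀) := by
  classical
  intro v hv hvV
  obtain ⟨lo, hi, D, S, hlo1, hlohi, hlogN, hhi, hS, hβlo, hdeg, hmain⟩ :=
    macro_num hγ0 hγ1 hL hβ hN hM hNγ hMγ hcond hv
  set w : ℕ → ℝ := fun a => β * N * Real.exp (-γ * a) * (1 - Real.exp (-γ)) with hw
  set T : Finset ℕ := Finset.Ico lo hi with hT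
  set ν : Measure (ℕ → ℝ) := nuX 1 B with hν
  have : IsProbabilityMeasure ν := by rw [hν]; unfold nuX; infer_instance
  have hγpos : 0 < γ := by linarith
  have h1e : 0 ≤ 1 - Real.exp (-γ) := by
    have : Real.exp (-γ) ≤ 1 := Real.exp_le_one_iff.mpr (by linarith)
    linarith
  have hw0 : ∀ a, 0 ≤ w a := fun a => by
    simp only [hw]; positivity
  have hβN : 0 ≤ β * N := by positivity
  -- partial sums of the weights
  have hsum : ∀ c, lo ≤ c → ∑ a ∈ Finset.Ico c hi, w a ≤ β * N * Real.exp (-γ * c) := by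
    intro c _
    rcases le_or_gt c hi with h | h
    · obtain ⟨n, rfl⟩ := Nat.exists_eq_add_of_le h
      have := mac_tele (β * N) γ c n
      simp only [hw]
      rw [this]
      have h2 : 0 ≤ β * N * Real.exp (-γ * ((c + n : ℕ) : ℝ)) := by positivity
      linarith
    · rw [Finset.Ico_eq_empty (by omega), Finset.sum_empty]; positivity
  have hmono : ∀ c, lo ≤ c → β * N * Real.exp (-γ * c) ≤ 1 / 4 := by
    intro c hc
    refine le_trans ?_ hβlo
    apply mul_le_mul_of_nonneg_left _ hβN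
    apply Real.exp_le_exp.mpr
    have : (lo : ℝ) ≤ c := by exact_mod_cast hc
    nlinarith
  have hsumT : ∑ a ∈ T, w a ≤ 1 := by
    have := hsum lo le_rfl
    linarith
  set μ₁ : Measure ℕ := mac_mu w T with hμ₁
  have : IsProbabilityMeasure μ₁ := mac_mu_prob w T hw0 hsumT
  -- the type of a block
  set f : (ℕ → ℝ) → ℕ := fun x => Nat.findGreatest (fun a => lo ≤ a ∧ x ∈ vGood b L₀ N a) hi
    with hf
  have hfm : Measurable f := by
    apply measurable_findGreatest
    intro k _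
    by_cases h : lo ≤ k
    · simp only [h, true_and]
      exact measurableSet_vGood b L₀ N k
    · simp only [h, false_and]
      exact MeasurableSet.const False
  have hdep : ∀ x y : ℕ → ℝ, (∀ i < N, x i = y i) → f x = f y := by
    intro x y hxy
    simp only [hf]
    congr 1
    funext a
    rw [eq_iff_iff]
    exact and_congr_right fun _ => vGood_congr hxy
  have hfspec : ∀ x, 1 ≤ f x → lo ≤ f x ∧ x ∈ vGood b L₀ N (f x) := by
    intro x hx
    have h := Nat.findGreatest_of_ne_zero (P := fun a => lo ≤ a ∧ x ∈ vGood b L₀ N a)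
      (n := hi) (m := f x) rfl (by omega)
    exact h
  have : IsProbabilityMeasure (ν.map f) := Measure.isProbabilityMeasure_map hfm.aemeasurable
  have hdom : ∀ a : ℕ, μ₁ {t | a ≤ t} ≤ (ν.map f) {t | a ≤ t} := by
    intro a
    rcases Nat.eq_zero_or_pos a with h | h
    · subst h
      have : {t : ℕ | 0 ≤ t} = Set.univ := by ext t; simp
      rw [this, measure_univ, measure_univ]
    have h0 : (0 : ℕ) ∉ {t : ℕ | a ≤ t} := by
      intro h'
      have : a ≤ 0 := h'
      omega
    rw [hμ₁, mac_mu_apply w T hw0 _ h0]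
    have hfil : T.filter (· ∈ {t : ℕ | a ≤ t}) = Finset.Ico (max a lo) hi := by
      ext t
      simp only [hT, Finset.mem_filter, Finset.mem_Ico]
      constructor
      · rintro ⟨⟨h1, h2⟩, h3⟩
        have h3' : a ≤ t := h3
        exact ⟨max_le h3' h1, h2⟩
      · rintro ⟨h1, h2⟩
        exact ⟨⟨(le_max_right _ _).trans h1, h2⟩, ((le_max_left _ _).trans h1 : a ≤ t)⟩
    rw [hfil]
    rcases le_or_gt (max a lo) hi with hc | hc
    · have hc0 : lo ≤ max a lo := le_max_right _ _
      have h2 := hH (max a lo : ℕ)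
        (hlogN.trans (by exact_mod_cast hc0))
        (by have : ((max a lo : ℕ) : ℝ) ≤ hi := by exact_mod_cast hc
            linarith)
      rw [min_eq_right (hmono _ hc0)] at h2
      have h3 := (hsum _ hc0).trans h2
      rw [Measure.map_apply hfm MeasurableSet.of_discrete]
      refine (ENNReal.ofReal_le_ofReal h3).trans ?_
      rw [ofReal_measureReal]
      apply measure_mono
      intro x hx
      show a ≤ f x
      refine (le_max_left a lo).trans ?_
      exact Nat.le_findGreatest hc ⟨hc0, hx⟩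
    · rw [Finset.Ico_eq_empty (by omega), Finset.sum_empty]
      simp
  -- the event
  set U : Set (Fin M → ℕ) := {t | ∃ i j : Fin M, i < j ∧ (j : ℕ) - i < D ∧ lo ≤ t i ∧ lo ≤ t j ∧
    S ((j : ℕ) - i) ≤ t i + t j} with hU
  have hUup : IsUpperSet U := by
    intro s t hst hs
    obtain ⟨i, j, h1, h2, h3, h4, h5⟩ := hs
    have a1 : s i ≤ t i := hst i
    have a2 : s j ≤ t j := hst j
    exact ⟨i, j, h1, h2, h3.trans a1, h4.trans a2, by omega⟩
  have hd := dom_pi M μ₁ (ν.map f) hdom U hUup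
  have hblocks := blocks_iid 1 B N M f hfm hdep
  rw [← hν] at hblocks
  rw [← hblocks] at hd
  have hmeasmap : Measurable (fun x (k : Fin M) => f (shx (k * N) x)) := by
    apply measurable_pi_lambda
    intro k
    exact hfm.comp (measurable_shx _)
  rw [Measure.map_apply hmeasmap MeasurableSet.of_discrete] at hd
  have hincl : (fun x (k : Fin M) => f (shx (k * N) x)) ⁻¹' U ⊆ vGood b L₀ (N * M) v := by
    intro x hx
    obtain ⟨i, j, h1, h2, h3, h4, h5⟩ := hx
    have a1 := hfspec (shx (i * N) x) (hlo1.trans h3)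
    have a2 := hfspec (shx (j * N) x) (hlo1.trans h4)
    have hij : (i : ℕ) < j := h1
    refine vGood_link hij j.2 a1.2 a2.2 ?_
    have h6 := hS ((j : ℕ) - i) (by omega) h2
    have h7 : ((S ((j : ℕ) - i) : ℕ) : ℝ) ≤
        ((f (shx (i * N) x) : ℕ) : ℝ) + ((f (shx (j * N) x) : ℕ) : ℝ) := by
      exact_mod_cast h5
    linarith
  have hfinal : (Measure.pi (fun _ : Fin M => μ₁)).real U ≤ ν.real (vGood b L₀ (N * M) v) := by
    have := hd.trans (measure_mono hincl)
    exact ENNReal.toReal_mono (measure_ne_top _ _) this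
  -- the second moment bound
  have hreal1 : ∀ a ∈ T, μ₁.real {a} = w a := by
    intro a ha
    have ha' : lo ≤ a := (Finset.mem_Ico.mp ha).1
    have h0 : (0 : ℕ) ∉ ({a} : Set ℕ) := by
      intro h'
      have : (0 : ℕ) = a := h'
      omega
    rw [measureReal_def, hμ₁, mac_mu_apply w T hw0 _ h0]
    have : T.filter (· ∈ ({a} : Set ℕ)) = {a} := by
      ext t
      simp only [Finset.mem_filter, Set.mem_singleton_iff, Finset.mem_singleton]
      constructor
      · exact fun h => h.2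
      · rintro rfl; exact ⟨ha, rfl⟩
    rw [this, Finset.sum_singleton, ENNReal.toReal_ofReal (hw0 a)]
  have hreal2 : ∀ d a : ℕ, μ₁.real {a' | a' ∈ T ∧ S d ≤ a + a'} =
      ∑ a' ∈ T.filter (fun a' => S d ≤ a + a'), w a' := by
    intro d a
    have h0 : (0 : ℕ) ∉ {a' | a' ∈ T ∧ S d ≤ a + a'} := by
      intro h'
      have := (Finset.mem_Ico.mp h'.1).1
      omega
    rw [measureReal_def, hμ₁, mac_mu_apply w T hw0 _ h0]
    have : T.filter (· ∈ {a' | a' ∈ T ∧ S d ≤ a + a'}) = T.filter (fun a' => S d ≤ a + a') := by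
      ext t
      simp only [Finset.mem_filter]
      constructor
      · rintro ⟨h1, h2⟩; exact ⟨h1, h2.2⟩
      · rintro ⟨h1, h2⟩; exact ⟨h1, ⟨h1, h2⟩⟩
    rw [this, ENNReal.toReal_ofReal (Finset.sum_nonneg fun a _ => hw0 a)]
  have hp := pairs (M := M) (D := D) μ₁ T S (by
    intro a ha
    have ha' := Finset.mem_Ico.mp ha
    have h := hdeg a ha'.1 ha'.2
    refine le_trans (le_of_eq ?_) h
    apply Finset.sum_congr rfl
    intro d _
    exact hreal2 d a)
  have hsub : (Measure.pi (fun _ : Fin M => μ₁)).real {t | ∃ i j : Fin M, i < j ∧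
      (j : ℕ) - i < D ∧ t i ∈ T ∧ t j ∈ T ∧ S ((j : ℕ) - i) ≤ t i + t j} ≤
      (Measure.pi (fun _ : Fin M => μ₁)).real U := by
    apply measureReal_mono _ (measure_ne_top _ _)
    rintro t ⟨i, j, h1, h2, h3, h4, h5⟩
    exact ⟨i, j, h1, h2, (Finset.mem_Ico.mp h3).1, (Finset.mem_Ico.mp h4).1, h5⟩
  have hE : ∑ d ∈ Finset.Ico 1 D, ((M - d : ℕ) : ℝ) *
      ∑ a ∈ T, μ₁.real {a} * μ₁.real {a' | a' ∈ T ∧ S d ≤ a + a'} =
      ∑ d ∈ Finset.Ico 1 D, ((M - d : ℕ) : ℝ) * ∑ a ∈ T, w a *
        ∑ a' ∈ T.filter (fun a' => S d ≤ a + a'), w a' := by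
    apply Finset.sum_congr rfl
    intro d _
    congr 1
    apply Finset.sum_congr rfl
    intro a ha
    rw [hreal1 a ha, hreal2 d a]
  rw [hE] at hp
  refine le_trans ?_ (hp.trans (hsub.trans hfinal))
  apply min_le_min (by norm_num)
  have hmain' := hmain
  linarith

end Pool.Agent.Lib.MP_3d9a2b_pr
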