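import Mathlib

set_option autoImplicit false

/-! Task VJ1: choice of the parameters for the lower bound (real analysis only; `H N β V` will be
`vH b L₀ B γ N β V`). -/

namespace Pool.Agent.Lib.MP_3d9a2b_pr

open Filter Topology

private theorem pl_poly (A : ℝ) (n : ℕ) : ∀ᶠ l : ℝ in atTop, A * l ^ n ≤ Real.exp (l / 4) := by
  have h1 : Tendsto (fun l : ℝ => l / 4) atTop atTop := tendsto_id.atTop_div_const (by norm_num)
  have h2 := (Real.tendsto_exp_div_pow_atTop n).comp h1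
  filter_upwards [h2.eventually_ge_atTop (A * 4 ^ n), eventually_gt_atTop (0 : ℝ)] with l hl hl0
  have h3 : (0 : ℝ) < (l / 4) ^ n := by positivity
  simp only [Function.comp] at hl
  rw [le_div_iff₀ h3] at hl
  calc A * l ^ n = A * 4 ^ n * (l / 4) ^ n := by
        rw [div_pow]
        field_simp
    _ ≤ _ := hl

private theorem pl_sq (x : ℝ) (hx : 1 ≤ x) : x ≤ x ^ 2 := by nlinarith

/-- the recursion for the exponents -/
private theorem pl_exp (R : ℝ) (hR : 0 ≤ R) (i : ℕ) :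
    R / 2 + R / 2 * (2 - 2 / (2 * i + 1)) + R / (2 * ((i : ℝ) + 1) ^ 2) ≤
      R / 2 + R / 2 * (2 - 2 / (2 * ((i + 1 : ℕ) : ℝ) + 1)) := by
  have h0 : (0 : ℝ) ≤ i := Nat.cast_nonneg i
  push_cast
  have h1 : 1 / ((i : ℝ) + 1) ^ 2 ≤ 2 / (2 * i + 1) - 2 / (2 * (i + 1) + 1) := by
    rw [div_sub_div _ _ (by positivity) (by positivity), div_le_div_iff₀ (by positivity) (by positivity)]
    nlinarith
  have h2 : R / (2 * ((i : ℝ) + 1) ^ 2) = R / 2 * (1 / ((i : ℝ) + 1) ^ 2) := by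
    field_simp
  rw [h2]
  have h3 := mul_le_mul_of_nonneg_left h1 (by positivity : 0 ≤ R / 2)
  linarith

private noncomputable def pb (c₀ : ℝ) (i : ℕ) : ℝ := ((i : ℝ) + 2) ^ 4 * Real.exp (2 ^ i) * c₀ / 44

/-- the recursion for `β` -/
private theorem pl_beta (c₀ g : ℝ) (hc₀ : 0 < c₀) (i : ℕ) (hg : 44 / c₀ / ((i : ℝ) + 1) ^ 4 ≤ g) :
    pb c₀ (i + 1) ≤ g * pb c₀ i ^ 2 := by
  have h0 : (0 : ℝ) ≤ i := Nat.cast_nonneg i
  have h1 : (0 : ℝ) < Real.exp (2 ^ i) := Real.exp_pos _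
  have h2 : Real.exp (2 ^ (i + 1)) = Real.exp (2 ^ i) ^ 2 := by
    rw [← Real.exp_nat_mul]
    congr 1
    rw [pow_succ]
    push_cast
    ring
  refine le_trans ?_ (mul_le_mul_of_nonneg_right hg (sq_nonneg _))
  unfold pb
  rw [h2]
  push_cast
  have h3 : 44 / c₀ / ((i : ℝ) + 1) ^ 4 * ((((i : ℝ) + 2) ^ 4 * Real.exp (2 ^ i) * c₀ / 44) ^ 2) =
      ((i : ℝ) + 2) ^ 8 / ((i : ℝ) + 1) ^ 4 * (Real.exp (2 ^ i) ^ 2 * c₀ / 44) := by
    field_simp
  rw [h3]
  have h4 : ((i : ℝ) + 1 + 2) ^ 4 ≤ ((i : ℝ) + 2) ^ 8 / ((i : ℝ) + 1) ^ 4 := by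
    rw [le_div_iff₀ (by positivity), ← mul_pow]
    calc (((i : ℝ) + 1 + 2) * (i + 1)) ^ 4 ≤ (((i : ℝ) + 2) ^ 2) ^ 4 := by
          apply pow_le_pow_left₀ (by positivity)
          nlinarith
      _ = _ := by ring
  have h5 := mul_le_mul_of_nonneg_right h4 (by positivity : 0 ≤ Real.exp (2 ^ i) ^ 2 * c₀ / 44)
  calc ((i : ℝ) + 1 + 2) ^ 4 * Real.exp (2 ^ i) ^ 2 * c₀ / 44
      = ((i : ℝ) + 1 + 2) ^ 4 * (Real.exp (2 ^ i) ^ 2 * c₀ / 44) := by ring
    _ ≤ _ := h5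

private theorem pl_pow2 (e : ℕ) (s R : ℝ) (hR : 0 < R) (hs0 : 0 ≤ s) (hs : s ≤ 5 / (12 * R)) (he : (e : ℝ) ≤ 3 * R / 2) :
    ((2 ^ e : ℕ) : ℝ) ^ s ≤ 3 := by
  have h1 : (0 : ℝ) < ((2 ^ e : ℕ) : ℝ) := by positivity
  rw [Real.rpow_def_of_pos h1]
  have h2 : Real.log ((2 ^ e : ℕ) : ℝ) = e * Real.log 2 := by
    push_cast
    rw [Real.log_pow]
  rw [h2]
  have h3 := Real.log_two_lt_d9
  have h3' := Real.log_two_gt_d9
  have h4 : (e : ℝ) * Real.log 2 * s ≤ 1 := by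
    have he0 : (0 : ℝ) ≤ e := Nat.cast_nonneg e
    calc (e : ℝ) * Real.log 2 * s ≤ (3 * R / 2 * 1) * (5 / (12 * R)) := by
          apply mul_le_mul _ hs hs0 (by positivity)
          apply mul_le_mul he (by linarith) (by linarith) (by positivity)
      _ = 5 / 8 := by field_simp; norm_num
      _ ≤ 1 := by norm_num
  have h5 := Real.exp_one_lt_d9
  calc Real.exp (e * Real.log 2 * s) ≤ Real.exp 1 := Real.exp_le_exp.2 h4
    _ ≤ 3 := by linarith

theorem params_low (C₀ C₁ c₀ CN : ℝ) (hC₀ : 0 ≤ C₀) (hC₁ : 0 ≤ C₁) (hc₀ : 0 < c₀) (hc₀1 : c₀ ≤ 1)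
    (hCN : 1 ≤ CN) : ∃ c α₀ : ℝ, 0 < c ∧ 9 / 10 < α₀ ∧ α₀ < 1 ∧ ∀ α : ℝ, α₀ ≤ α → α < 1 →
    ∀ b L₀ B γ : ℝ, b = 1 / 2 - C₁ * (1 - α) → L₀ = Real.log (1 / (1 - α)) + C₀ →
      B = 3 / 4 + c * (1 - α) ^ (1 / 4 : ℝ) → γ = 2 * (B - b) →
      0 ≤ b ∧ b ≤ 1 / 2 ∧ 0 ≤ L₀ ∧ 1 / 2 ≤ γ ∧ γ ≤ 1 ∧ B ≤ 1 ∧
      ∀ H : ℕ → ℝ → ℝ → Prop,
        (∀ (N : ℕ) (V : ℝ), 0 ≤ V → CN * (1 + V) ≤ N → H N c₀ V) →
        (∀ (N : ℕ) (β β' V : ℝ), β' ≤ β → H N β V → H N β' V) →
        (∀ (N M : ℕ) (β V : ℝ), 0 < β → 1 ≤ N → 4 ≤ Real.log M → (N : ℝ) ^ (2 * γ - 1) ≤ 3 →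
          (M : ℝ) ^ (2 * γ - 1) ≤ 3 →
          8 * Real.log (4 * (1 + β) * Real.log M) + 8 ≤ Real.log M + 2 * L₀ → H N β V →
          H (N * M) (1 / 10000 * Real.exp (-γ * L₀) * Real.log M ^ 2 * β ^ 2) (V - L₀)) →
        ∃ (N : ℕ) (β V : ℝ), 1 ≤ N ∧ H N β V ∧ 2 * Real.log N + L₀ + 5 ≤ V ∧
          1 / 4 ≤ β * N * Real.exp (-γ * (2 * Real.log N + L₀ + 5)) := by
  obtain ⟨c, hcdef⟩ : ∃ c : ℝ, c = c₀ * Real.exp (-C₀) / 10 ^ 6 := ⟨_, rfl⟩
  have hE0 : 0 < Real.exp (-C₀) := Real.exp_pos _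
  have hE1 : Real.exp (-C₀) ≤ 1 := Real.exp_le_one_iff.2 (by linarith)
  have hc : 0 < c := by rw [hcdef]; positivity
  have hc6 : c ≤ 1 / 10 ^ 6 := by
    rw [hcdef]
    have : c₀ * Real.exp (-C₀) ≤ 1 * 1 := mul_le_mul hc₀1 hE1 hE0.le (by norm_num)
    linarith
  -- the conditions on `l = log (1 / (1 - α))`, `x = exp (l / 4)`
  have hev : ∀ᶠ l : ℝ in atTop, 1 ≤ l ∧ (4 * C₁ / c) * l ^ 0 ≤ Real.exp (l / 4) ∧
      (5 * c * (1 + C₀)) * l ^ 1 ≤ Real.exp (l / 4) ∧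
      (12 * c * (4000 * CN)) * l ^ 0 ≤ Real.exp (l / 4) ∧
      (12 * c * 1152) * l ^ 3 ≤ Real.exp (l / 4) ∧
      81 * l ^ 4 ≤ Real.exp (l / 4) ∧
      (1 / c) * l ^ 0 ≤ Real.exp (l / 4) ∧
      (12 * c * (3 * (1 + C₀) + 5)) * l ^ 2 ≤ Real.exp (l / 4) ∧
      (66 / c₀ * Real.exp (C₀ + 5)) * l ^ 0 ≤ Real.exp (l / 4) := by
    filter_upwards [eventually_ge_atTop (1 : ℝ), pl_poly (4 * C₁ / c) 0, pl_poly (5 * c * (1 + C₀)) 1,
      pl_poly (12 * c * (4000 * CN)) 0, pl_poly (12 * c * 1152) 3, pl_poly 81 4, pl_poly (1 / c) 0,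
      pl_poly (12 * c * (3 * (1 + C₀) + 5)) 2, pl_poly (66 / c₀ * Real.exp (C₀ + 5)) 0] with
      l h1 h2 h3 h4 h5 h6 h7 h8 h9
    exact ⟨h1, h2, h3, h4, h5, h6, h7, h8, h9⟩
  obtain ⟨l₀, hl₀⟩ := Filter.eventually_atTop.1 hev
  refine ⟨c, max (95 / 100) (1 - Real.exp (-l₀)), hc, ?_, ?_, ?_⟩
  · exact lt_of_lt_of_le (by norm_num) (le_max_left _ _)
  · refine max_lt (by norm_num) ?_
    have := Real.exp_pos (-l₀)
    linarith
  intro α hα hα1 b L₀ B γ hb hL hB hγ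
  have hα95 : 95 / 100 ≤ α := le_trans (le_max_left _ _) hα
  have hαl : 1 - Real.exp (-l₀) ≤ α := le_trans (le_max_right _ _) hα
  obtain ⟨η, hη⟩ : ∃ η : ℝ, η = 1 - α := ⟨_, rfl⟩
  have hη0 : 0 < η := by rw [hη]; linarith
  have hη1 : η ≤ 1 / 20 := by rw [hη]; linarith
  have hηl : η ≤ Real.exp (-l₀) := by rw [hη]; linarith
  obtain ⟨l, hl⟩ : ∃ l : ℝ, l = Real.log (1 / η) := ⟨_, rfl⟩
  have hηexp : η = Real.exp (-l) := by
    rw [hl, one_div, Real.log_inv, neg_neg, Real.exp_log hη0]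
  have hll₀ : l₀ ≤ l := by
    rw [hηexp] at hηl
    have := Real.exp_le_exp.1 hηl
    linarith
  obtain ⟨h1, h2, h3, h4, h5, h6, h7, h8, h9⟩ := hl₀ l hll₀
  obtain ⟨x, hx⟩ : ∃ x : ℝ, x = Real.exp (l / 4) := ⟨_, rfl⟩
  rw [← hx] at h2 h3 h4 h5 h6 h7 h8 h9
  simp only [pow_zero, mul_one, pow_one] at h2 h3 h4 h7 h9
  have hx0 : 0 < x := by rw [hx]; exact Real.exp_pos _
  have hx1 : 1 ≤ x := by rw [hx]; exact Real.one_le_exp (by linarith)
  have hη4 : η ^ (1 / 4 : ℝ) = 1 / x := by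
    rw [hηexp, ← Real.exp_mul, hx, show -l * (1 / 4 : ℝ) = -(l / 4) by ring, Real.exp_neg]
    exact (one_div _).symm
  have hηx : η = 1 / x ^ 4 := by
    rw [hηexp, hx, ← Real.exp_nat_mul, one_div, ← Real.exp_neg]
    congr 1
    push_cast
    ring
  obtain ⟨R, hR⟩ : ∃ R : ℝ, R = x / (12 * c) := ⟨_, rfl⟩
  have hR0 : 0 < R := by rw [hR]; positivity
  have hxR : x = 12 * c * R := by rw [hR]; field_simp
  -- `4 C₁ η ≤ c / x`
  have hC1 : 4 * C₁ * η ≤ c / x := by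
    rw [hηx]
    have h10 : 4 * C₁ ≤ c * x := by
      rw [div_le_iff₀ hc] at h2
      linarith
    have h11 : x ≤ x ^ 3 := by
      calc x = x ^ 1 := (pow_one x).symm
        _ ≤ x ^ 3 := pow_le_pow_right₀ hx1 (by norm_num)
    rw [mul_one_div, div_le_div_iff₀ (by positivity) hx0]
    calc 4 * C₁ * x ≤ c * x * x := mul_le_mul_of_nonneg_right h10 hx0.le
      _ ≤ c * x ^ 3 * x := by
          apply mul_le_mul_of_nonneg_right _ hx0.le
          exact mul_le_mul_of_nonneg_left h11 hc.le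
      _ = c * x ^ 4 := by ring
  have hcx : c / x ≤ 1 / 10 ^ 6 := by
    rw [div_le_iff₀ hx0]
    calc c ≤ 1 / 10 ^ 6 * 1 := by linarith
      _ ≤ 1 / 10 ^ 6 * x := by
          apply mul_le_mul_of_nonneg_left hx1 (by norm_num)
  have hcx0 : 0 < c / x := by positivity
  have hCη0 : 0 ≤ C₁ * η := by positivity
  rw [← hη] at hb hL hB
  rw [hη4] at hB
  have hγ' : γ = 1 / 2 + 2 * (c / x) + 2 * (C₁ * η) := by
    rw [hγ, hB, hb]
    ring
  have hs : 2 * γ - 1 ≤ 5 / (12 * R) := by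
    have h10 : 5 / (12 * R) = 5 * (c / x) := by
      rw [hR]
      field_simp
    rw [h10, hγ']
    linarith
  have hs0 : 0 ≤ 2 * γ - 1 := by rw [hγ']; linarith
  have hγ1 : γ ≤ 1 := by rw [hγ']; linarith
  have hγ12 : 1 / 2 ≤ γ := by rw [hγ']; linarith
  have hLl : L₀ = l + C₀ := by rw [hL, hl]
  have hL0 : 0 ≤ L₀ := by rw [hLl]; linarith
  refine ⟨?_, ?_, hL0, hγ12, hγ1, ?_, ?_⟩
  · rw [hb]; linarith
  · rw [hb]; linarith
  · rw [hB]
    have : c * (1 / x) = c / x := by ring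
    rw [this]; linarith
  intro H H1 H2 H3
  have hll2 : l ≤ l ^ 2 := pl_sq l h1
  have hl21 : 1 ≤ l ^ 2 := one_le_pow₀ h1
  have hLl' : L₀ ≤ (1 + C₀) * l := by
    rw [hLl]
    have h10 : C₀ * 1 ≤ C₀ * l := mul_le_mul_of_nonneg_left h1 hC₀
    linarith
  have hx81 : 81 ≤ x := by
    have h10 : (1 : ℝ) ≤ l ^ 4 := one_le_pow₀ h1
    linarith
  -- lower bound for `exp (-γ L₀)`
  have hgL : 1 / x ^ 2 * Real.exp (-C₀) / 2 ≤ Real.exp (-γ * L₀) := by
    have h10 : (γ - 1 / 2) * L₀ ≤ 1 / 2 := by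
      have h11 : γ - 1 / 2 ≤ 5 / 2 * (c / x) := by rw [hγ']; linarith
      have h12 : L₀ ≤ (1 + C₀) * l := hLl'
      calc (γ - 1 / 2) * L₀ ≤ 5 / 2 * (c / x) * ((1 + C₀) * l) :=
            mul_le_mul h11 h12 hL0 (by positivity)
        _ = (5 * c * (1 + C₀) * l) / x / 2 := by ring
        _ ≤ x / x / 2 := by
            apply div_le_div_of_nonneg_right _ (by norm_num)
            exact div_le_div_of_nonneg_right h3 hx0.le
        _ = 1 / 2 := by rw [div_self hx0.ne']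
    have h13 : -γ * L₀ = -(l / 2) + (-(C₀ / 2)) + (-((γ - 1 / 2) * L₀)) := by
      rw [hLl]; ring
    rw [h13, Real.exp_add, Real.exp_add]
    have h14 : Real.exp (-(l / 2)) = 1 / x ^ 2 := by
      rw [hx, ← Real.exp_nat_mul, one_div, ← Real.exp_neg]
      congr 1
      push_cast
      ring
    have h15 : Real.exp (-C₀) ≤ Real.exp (-(C₀ / 2)) := Real.exp_le_exp.2 (by linarith)
    have h16 : 1 / 2 ≤ Real.exp (-((γ - 1 / 2) * L₀)) := by
      have h17 := Real.add_one_le_exp (-((γ - 1 / 2) * L₀))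
      linarith
    rw [h14]
    calc 1 / x ^ 2 * Real.exp (-C₀) / 2 = 1 / x ^ 2 * Real.exp (-C₀) * (1 / 2) := by ring
      _ ≤ 1 / x ^ 2 * Real.exp (-(C₀ / 2)) * Real.exp (-((γ - 1 / 2) * L₀)) := by
          apply mul_le_mul _ h16 (by norm_num) (by positivity)
          exact mul_le_mul_of_nonneg_left h15 (by positivity)
  -- `I`
  obtain ⟨I, hI1, hI2⟩ : ∃ I : ℕ, l ≤ 2 ^ I ∧ (2 : ℝ) ^ I ≤ 2 * l := by
    have hex : ∃ n : ℕ, l ≤ (2 : ℝ) ^ n := by
      obtain ⟨n, hn⟩ := pow_unbounded_of_one_lt l (by norm_num : (1 : ℝ) < 2)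
      exact ⟨n, hn.le⟩
    classical
    refine ⟨Nat.find hex, Nat.find_spec hex, ?_⟩
    rcases Nat.eq_zero_or_pos (Nat.find hex) with h | h
    · rw [h, pow_zero]; linarith
    · have h10 := Nat.find_min hex (Nat.sub_lt h one_pos)
      push Not at h10
      have h11 : Nat.find hex = (Nat.find hex - 1) + 1 := by omega
      rw [h11, pow_succ]
      linarith
  have hIl : (I : ℝ) ≤ 2 * l := by
    have h10 : I < 2 ^ I := Nat.lt_two_pow_self
    have h11 : (I : ℝ) < (2 : ℝ) ^ I := by exact_mod_cast h10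
    linarith
  have hRbig : 4000 * CN ≤ R := by
    rw [hxR] at h4
    have := le_of_mul_le_mul_left h4 (by positivity : 0 < 12 * c)
    exact this
  have hR3 : 1152 * l ^ 3 ≤ R := by
    rw [hxR] at h5
    have h10 : 12 * c * (1152 * l ^ 3) ≤ 12 * c * R := by linarith
    exact le_of_mul_le_mul_left h10 (by positivity : 0 < 12 * c)
  have hR2 : (3 * (1 + C₀) + 5) * l ^ 2 ≤ R := by
    rw [hxR] at h8
    have h10 : 12 * c * ((3 * (1 + C₀) + 5) * l ^ 2) ≤ 12 * c * R := by linarith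
    exact le_of_mul_le_mul_left h10 (by positivity : 0 < 12 * c)
  have hlog2 := Real.log_two_gt_d9
  have hlog2' := Real.log_two_lt_d9
  -- the main induction
  have hmain : ∀ i : ℕ, i ≤ I → ∃ e : ℕ, (e : ℝ) ≤ R / 2 + R / 2 * (2 - 2 / (2 * (i : ℝ) + 1)) ∧
      H (2 ^ e) (pb c₀ i) (100 * R - i * L₀) := by
    intro i
    induction i with
    | zero =>
      intro _
      refine ⟨⌊R / 2⌋₊, ?_, ?_⟩
      · have h10 := Nat.floor_le (by positivity : 0 ≤ R / 2)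
        push_cast
        have h11 : R / 2 * (2 - 2 / (2 * (0 : ℝ) + 1)) = 0 := by norm_num
        rw [h11]
        linarith
      · have h10 : H (2 ^ ⌊R / 2⌋₊) c₀ (100 * R) := by
          apply H1 _ _ (by positivity)
          have h11 : R / 2 - 1 < ⌊R / 2⌋₊ := Nat.sub_one_lt_floor _
          have h12 : R / 4 ≤ ⌊R / 2⌋₊ * Real.log 2 := by
            have h13 : (R / 2 - 1) * 0.69 ≤ ⌊R / 2⌋₊ * Real.log 2 :=
              mul_le_mul h11.le (by linarith) (by norm_num) (Nat.cast_nonneg _)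
            linarith
          have h14 : ((2 ^ ⌊R / 2⌋₊ : ℕ) : ℝ) = Real.exp (⌊R / 2⌋₊ * Real.log 2) := by
            push_cast
            rw [Real.exp_nat_mul, Real.exp_log (by norm_num)]
          rw [h14]
          have h15 := Real.quadratic_le_exp_of_nonneg (by positivity : 0 ≤ R / 4)
          have h16 := Real.exp_le_exp.2 h12
          have h17 : CN * (1 + 100 * R) ≤ (R / 4) ^ 2 / 2 := by
            have h18 : 4000 * CN * R ≤ R * R := mul_le_mul_of_nonneg_right hRbig hR0.le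
            have h19 : CN * 1 ≤ CN * R := mul_le_mul_of_nonneg_left (by linarith) (by linarith)
            have h20 : 0 ≤ CN * R := by positivity
            have h21 : CN * (1 + 100 * R) = CN * 1 + 100 * (CN * R) := by ring
            have h22 : (R / 4) ^ 2 / 2 = R * R / 32 := by ring
            rw [h21, h22]
            linarith
          linarith
        have h11 : pb c₀ 0 ≤ c₀ := by
          unfold pb
          have h12 := Real.exp_one_lt_d9
          norm_num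
          rw [div_le_iff₀ (by norm_num)]
          have h13 : Real.exp 1 * c₀ ≤ 2.72 * c₀ := mul_le_mul_of_nonneg_right (by linarith) hc₀.le
          linarith
        have h12 := H2 _ _ _ _ h11 h10
        simpa using h12
    | succ i ih =>
      intro hi
      obtain ⟨e, he, hH⟩ := ih (by omega)
      have hi0 : (0 : ℝ) ≤ i := Nat.cast_nonneg i
      have hiI : (i : ℝ) + 1 ≤ I := by exact_mod_cast hi
      have hi2l : (i : ℝ) + 1 ≤ 2 * l := hiI.trans hIl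
      obtain ⟨t, ht⟩ : ∃ t : ℝ, t = R / (2 * ((i : ℝ) + 1) ^ 2) := ⟨_, rfl⟩
      have htR : t ≤ R / 2 := by
        rw [ht]
        apply div_le_div_of_nonneg_left hR0.le (by norm_num)
        have h10 : (1 : ℝ) ≤ ((i : ℝ) + 1) ^ 2 := one_le_pow₀ (by linarith)
        linarith
      have htl : 144 * l ≤ t := by
        rw [ht, le_div_iff₀ (by positivity)]
        have h10 : ((i : ℝ) + 1) ^ 2 ≤ (2 * l) ^ 2 := pow_le_pow_left₀ (by positivity) hi2l 2
        calc 144 * l * (2 * ((i : ℝ) + 1) ^ 2) ≤ 144 * l * (2 * (2 * l) ^ 2) := by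
              apply mul_le_mul_of_nonneg_left _ (by positivity)
              linarith
          _ = 1152 * l ^ 3 := by ring
          _ ≤ R := hR3
      have ht0 : 0 < t := by linarith
      have hfl := Nat.floor_le ht0.le
      have hfl' : t - 1 < ⌊t⌋₊ := Nat.sub_one_lt_floor _
      have hlogM : Real.log ((2 ^ ⌊t⌋₊ : ℕ) : ℝ) = ⌊t⌋₊ * Real.log 2 := by
        push_cast
        rw [Real.log_pow]
      have hM1 : t / 3 ≤ Real.log ((2 ^ ⌊t⌋₊ : ℕ) : ℝ) := by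
        rw [hlogM]
        have h13 : (t - 1) * 0.69 ≤ ⌊t⌋₊ * Real.log 2 :=
          mul_le_mul hfl'.le (by linarith) (by norm_num) (Nat.cast_nonneg _)
        linarith
      have hM2 : Real.log ((2 ^ ⌊t⌋₊ : ℕ) : ℝ) ≤ R := by
        rw [hlogM]
        have h13 : ⌊t⌋₊ * Real.log 2 ≤ t * 1 :=
          mul_le_mul hfl (by linarith) (by linarith) ht0.le
        linarith
      have hb0 : 0 < pb c₀ i := by unfold pb; positivity
      have hee : (e : ℝ) ≤ 3 * R / 2 := by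
        have h10 : 0 ≤ R / 2 * (2 / (2 * (i : ℝ) + 1)) := by positivity
        have h11 : R / 2 * (2 - 2 / (2 * (i : ℝ) + 1)) = R - R / 2 * (2 / (2 * (i : ℝ) + 1)) := by ring
        rw [h11] at he
        linarith
      have hstep := H3 (2 ^ e) (2 ^ ⌊t⌋₊) (pb c₀ i) (100 * R - i * L₀) hb0 Nat.one_le_two_pow
        (by linarith) (pl_pow2 e _ R hR0 hs0 hs hee)
        (pl_pow2 ⌊t⌋₊ _ R hR0 hs0 hs (by linarith)) ?_ hH
      · refine ⟨e + ⌊t⌋₊, ?_, ?_⟩
        · have h10 := pl_exp R hR0.le i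
          rw [← ht] at h10
          push_cast at h10 ⊢
          linarith
        · rw [← pow_add] at hstep
          have h10 : 100 * R - ((i + 1 : ℕ) : ℝ) * L₀ = 100 * R - i * L₀ - L₀ := by
            push_cast
            ring
          rw [h10]
          refine H2 _ _ _ _ ?_ hstep
          apply pl_beta c₀ _ hc₀ i
          -- the constant
          have h11 : (t / 3) ^ 2 ≤ Real.log ((2 ^ ⌊t⌋₊ : ℕ) : ℝ) ^ 2 :=
            pow_le_pow_left₀ (by positivity) hM1 2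
          have h12 : 1 / 10000 * (1 / x ^ 2 * Real.exp (-C₀) / 2) * (t / 3) ^ 2 ≤
              1 / 10000 * Real.exp (-γ * L₀) * Real.log ((2 ^ ⌊t⌋₊ : ℕ) : ℝ) ^ 2 := by
            apply mul_le_mul _ h11 (by positivity) (by positivity)
            exact mul_le_mul_of_nonneg_left hgL (by norm_num)
          refine le_trans ?_ h12
          rw [ht, hR, hcdef]
          have h13 : 1 / 10000 * (1 / x ^ 2 * Real.exp (-C₀) / 2) *
              (x / (12 * (c₀ * Real.exp (-C₀) / 10 ^ 6)) / (2 * ((i : ℝ) + 1) ^ 2) / 3) ^ 2 =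
              (10 ^ 12 / (20000 * 5184)) / (c₀ ^ 2 * Real.exp (-C₀)) / ((i : ℝ) + 1) ^ 4 := by
            field_simp
            norm_num
          rw [h13]
          apply div_le_div_of_nonneg_right _ (by positivity)
          rw [div_le_div_iff₀ hc₀ (by positivity)]
          have h14 : c₀ ^ 2 * Real.exp (-C₀) ≤ c₀ * 1 := by
            calc c₀ ^ 2 * Real.exp (-C₀) ≤ c₀ ^ 2 * 1 := mul_le_mul_of_nonneg_left hE1 (by positivity)
              _ = c₀ * c₀ := by ring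
              _ ≤ c₀ * 1 := mul_le_mul_of_nonneg_left hc₀1 hc₀.le
          linarith
      · -- the condition
        have h10 : pb c₀ i ≤ x * x ^ 8 := by
          unfold pb
          have h11 : ((i : ℝ) + 2) ^ 4 ≤ x := by
            calc ((i : ℝ) + 2) ^ 4 ≤ (3 * l) ^ 4 := pow_le_pow_left₀ (by positivity) (by linarith) 4
              _ = 81 * l ^ 4 := by ring
              _ ≤ x := h6
          have h12 : Real.exp (2 ^ i) ≤ x ^ 8 := by
            rw [hx, ← Real.exp_nat_mul]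
            apply Real.exp_le_exp.2
            push_cast
            have h13 : (2 : ℝ) ^ i ≤ 2 ^ I := pow_le_pow_right₀ (by norm_num) (by omega)
            linarith
          have h14 : ((i : ℝ) + 2) ^ 4 * Real.exp (2 ^ i) ≤ x * x ^ 8 :=
            mul_le_mul h11 h12 (Real.exp_pos _).le hx0.le
          have h15 : 0 ≤ ((i : ℝ) + 2) ^ 4 * Real.exp (2 ^ i) := by positivity
          rw [div_le_iff₀ (by norm_num)]
          have h16 : ((i : ℝ) + 2) ^ 4 * Real.exp (2 ^ i) * c₀ ≤ ((i : ℝ) + 2) ^ 4 * Real.exp (2 ^ i) * 1 :=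
            mul_le_mul_of_nonneg_left hc₀1 h15
          have h17 : 0 ≤ x * x ^ 8 := by positivity
          linarith
        have h11 : 4 * (1 + pb c₀ i) * Real.log ((2 ^ ⌊t⌋₊ : ℕ) : ℝ) ≤ Real.exp (5 * l) := by
          have h12 : Real.exp (5 * l) = x ^ 20 := by
            rw [hx, ← Real.exp_nat_mul]
            congr 1
            push_cast
            ring
          rw [h12]
          have h13 : (1 : ℝ) ≤ x * x ^ 8 := by
            calc (1 : ℝ) = 1 * 1 := by norm_num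
              _ ≤ x * x ^ 8 := mul_le_mul hx1 (one_le_pow₀ hx1) (by norm_num) hx0.le
          have h14 : R ≤ x * x := by
            rw [hR, div_le_iff₀ (by positivity)]
            have h15 : 1 ≤ x * c := by
              rw [div_le_iff₀ hc] at h7
              exact h7
            have h17 : x * 1 ≤ x * (x * c) := mul_le_mul_of_nonneg_left h15 hx0.le
            have h18 : 0 ≤ x * (x * c) := by positivity
            linarith
          have h16 : (8 : ℝ) ≤ x := by linarith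
          calc 4 * (1 + pb c₀ i) * Real.log ((2 ^ ⌊t⌋₊ : ℕ) : ℝ)
              ≤ (4 * (x * x ^ 8 + x * x ^ 8)) * (x * x) := by
                apply mul_le_mul _ (hM2.trans h14) (by linarith) (by positivity)
                linarith
            _ = 8 * x ^ 11 := by ring
            _ ≤ x * x ^ 11 := mul_le_mul_of_nonneg_right h16 (by positivity)
            _ = x ^ 12 := by ring
            _ ≤ x ^ 20 := pow_le_pow_right₀ hx1 (by norm_num)
        have h12 : Real.log (4 * (1 + pb c₀ i) * Real.log ((2 ^ ⌊t⌋₊ : ℕ) : ℝ)) ≤ 5 * l := by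
          rw [← Real.log_exp (5 * l)]
          apply Real.log_le_log _ h11
          have h13 : 0 < Real.log ((2 ^ ⌊t⌋₊ : ℕ) : ℝ) := by linarith
          positivity
        linarith
  obtain ⟨e, he, hH⟩ := hmain I le_rfl
  have hee : (e : ℝ) ≤ 3 * R / 2 := by
    have h10 : 0 ≤ R / 2 * (2 / (2 * (I : ℝ) + 1)) := by positivity
    have h11 : R / 2 * (2 - 2 / (2 * (I : ℝ) + 1)) = R - R / 2 * (2 / (2 * (I : ℝ) + 1)) := by ring
    rw [h11] at he
    linarith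
  have he0 : (0 : ℝ) ≤ e := Nat.cast_nonneg e
  have hlogN : Real.log ((2 ^ e : ℕ) : ℝ) = e * Real.log 2 := by
    push_cast
    rw [Real.log_pow]
  refine ⟨2 ^ e, pb c₀ I, 100 * R - I * L₀, Nat.one_le_two_pow, hH, ?_, ?_⟩
  · rw [hlogN]
    have h10 : (e : ℝ) * Real.log 2 ≤ 3 * R / 2 * 1 := mul_le_mul hee (by linarith) (by linarith) (by positivity)
    have h11 : (I : ℝ) * L₀ ≤ 2 * l * ((1 + C₀) * l) := by
      exact mul_le_mul hIl hLl' hL0 (by linarith)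
    have h12 : L₀ ≤ (1 + C₀) * l ^ 2 := by
      rw [hLl]
      have h14 : C₀ * 1 ≤ C₀ * l ^ 2 := mul_le_mul_of_nonneg_left hl21 hC₀
      linarith
    have h13 : 5 ≤ 5 * l ^ 2 := by linarith
    have h14 : (3 * (1 + C₀) + 5) * l ^ 2 = 2 * l * ((1 + C₀) * l) + (1 + C₀) * l ^ 2 + 5 * l ^ 2 := by ring
    linarith
  · have h10 : Real.exp (-γ * (2 * Real.log ((2 ^ e : ℕ) : ℝ) + L₀ + 5)) =
        Real.exp (-(2 * γ) * Real.log ((2 ^ e : ℕ) : ℝ)) * Real.exp (-γ * L₀) * Real.exp (-γ * 5) := by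
      rw [← Real.exp_add, ← Real.exp_add]
      congr 1
      ring
    rw [h10]
    have hN0 : (0 : ℝ) < ((2 ^ e : ℕ) : ℝ) := by positivity
    have h11 : ((2 ^ e : ℕ) : ℝ) * Real.exp (-(2 * γ) * Real.log ((2 ^ e : ℕ) : ℝ)) =
        (((2 ^ e : ℕ) : ℝ) ^ (2 * γ - 1))⁻¹ := by
      rw [← Real.rpow_neg hN0.le, Real.rpow_def_of_pos hN0]
      conv_lhs => rw [← Real.exp_log hN0]
      rw [Real.log_exp, ← Real.exp_add]
      congr 1
      ring
    have h12 : (1 : ℝ) / 3 ≤ (((2 ^ e : ℕ) : ℝ) ^ (2 * γ - 1))⁻¹ := by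
      rw [one_div]
      exact inv_anti₀ (Real.rpow_pos_of_pos hN0 _) (pl_pow2 e _ R hR0 hs0 hs hee)
    have h13 : Real.exp (-5) ≤ Real.exp (-γ * 5) := Real.exp_le_exp.2 (by linarith)
    have h14 : x ^ 4 * c₀ / 44 ≤ pb c₀ I := by
      unfold pb
      have h15 : x ^ 4 ≤ Real.exp (2 ^ I) := by
        rw [hx, ← Real.exp_nat_mul]
        apply Real.exp_le_exp.2
        push_cast
        linarith
      have h16 : (1 : ℝ) ≤ ((I : ℝ) + 2) ^ 4 := one_le_pow₀ (by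
        have : (0 : ℝ) ≤ I := Nat.cast_nonneg I
        linarith)
      apply div_le_div_of_nonneg_right _ (by norm_num)
      apply mul_le_mul_of_nonneg_right _ hc₀.le
      calc x ^ 4 = 1 * x ^ 4 := by ring
        _ ≤ _ := mul_le_mul h16 h15 (by positivity) (by positivity)
    have h15 : (x ^ 4 * c₀ / 44) * (1 / 3) * (1 / x ^ 2 * Real.exp (-C₀) / 2) * Real.exp (-5) ≤
        pb c₀ I * (((2 ^ e : ℕ) : ℝ) ^ (2 * γ - 1))⁻¹ * Real.exp (-γ * L₀) * Real.exp (-γ * 5) := by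
      have hpb : 0 < pb c₀ I := by unfold pb; positivity
      have hinv : 0 < (((2 ^ e : ℕ) : ℝ) ^ (2 * γ - 1))⁻¹ := inv_pos.2 (Real.rpow_pos_of_pos hN0 _)
      apply mul_le_mul _ h13 (Real.exp_pos _).le (by positivity)
      apply mul_le_mul _ hgL (by positivity) (by positivity)
      exact mul_le_mul h14 h12 (by norm_num) hpb.le
    have h16 : pb c₀ I * ((2 ^ e : ℕ) : ℝ) * (Real.exp (-(2 * γ) * Real.log ((2 ^ e : ℕ) : ℝ)) *
        Real.exp (-γ * L₀) * Real.exp (-γ * 5)) =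
        pb c₀ I * (((2 ^ e : ℕ) : ℝ) ^ (2 * γ - 1))⁻¹ * Real.exp (-γ * L₀) * Real.exp (-γ * 5) := by
      rw [← h11]
      ring
    rw [h16]
    refine le_trans ?_ h15
    have h17 : (x ^ 4 * c₀ / 44) * (1 / 3) * (1 / x ^ 2 * Real.exp (-C₀) / 2) * Real.exp (-5) =
        x ^ 2 * (c₀ * (Real.exp (-C₀) * Real.exp (-5))) / 264 := by
      have hx42 : x ^ 4 * (1 / x ^ 2) = x ^ 2 := by
        field_simp
      calc (x ^ 4 * c₀ / 44) * (1 / 3) * (1 / x ^ 2 * Real.exp (-C₀) / 2) * Real.exp (-5) =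
          (x ^ 4 * (1 / x ^ 2)) * (c₀ * (Real.exp (-C₀) * Real.exp (-5))) / 264 := by ring
        _ = _ := by rw [hx42]
    rw [h17, ← Real.exp_add]
    have h18 : Real.exp (-C₀ + -5) * Real.exp (C₀ + 5) = 1 := by
      rw [← Real.exp_add, show -C₀ + -5 + (C₀ + 5) = 0 by ring, Real.exp_zero]
    have h19 : 66 ≤ x * (c₀ * Real.exp (-C₀ + -5)) := by
      have h20 : 66 / c₀ * Real.exp (C₀ + 5) * (c₀ * Real.exp (-C₀ + -5)) ≤ x * (c₀ * Real.exp (-C₀ + -5)) :=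
        mul_le_mul_of_nonneg_right h9 (by positivity)
      have h21 : 66 / c₀ * Real.exp (C₀ + 5) * (c₀ * Real.exp (-C₀ + -5)) =
          66 * (Real.exp (-C₀ + -5) * Real.exp (C₀ + 5)) := by
        field_simp
      rw [h21, h18] at h20
      linarith
    have h22 : x * (c₀ * Real.exp (-C₀ + -5)) ≤ x ^ 2 * (c₀ * Real.exp (-C₀ + -5)) := by
      apply mul_le_mul_of_nonneg_right _ (by positivity)
      exact pl_sq x hx1
    linarith

end Pool.Agent.Lib.MP_3d9a2b_pr
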