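import Pool.Agent.Lib.MP_3d9a2b_pr.V.Select
import Pool.Agent.Lib.MP_3d9a2b_pr.V.Base
import Pool.Agent.Lib.MP_3d9a2b_pr.V.Macro
import Pool.Agent.Lib.MP_3d9a2b_pr.V.ParamsLow
import Pool.Agent.Lib.MP_3d9a2b_pr.V.Growth

set_option autoImplicit false

/-! Task VK1: the free energy is positive below the line of slope `3 / 4 + c (1 - α) ^ (1 / 4)`. -/

namespace Pool.Agent.Lib.MP_3d9a2b_pr

open MeasureTheory ProbabilityTheory Filter Topology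
open scoped NNReal ENNReal

theorem linear_vLL : ∃ C₀ C₁ c α₀ : ℝ, 0 ≤ C₀ ∧ 0 ≤ C₁ ∧ 0 < c ∧ 9 / 10 < α₀ ∧ α₀ < 1 ∧
    (∀ α : ℝ, α₀ ≤ α → α < 1 → ∀ b L₀ B : ℝ, b = 1 / 2 - C₁ * (1 - α) →
      L₀ = Real.log (1 / (1 - α)) + C₀ → B = 3 / 4 + c * (1 - α) ^ (1 / 4 : ℝ) →
      (∃ ε > 0, ∃ C' : ℝ, ∀ n : ℕ, ε * n - C' ≤ ∫ x, vLL b L₀ n x ∂nuX 1 B) ∧
      ∀ {Ω Ω' : Type} [MeasurableSpace Ω] [MeasurableSpace Ω'] (P : Measure Ω) (P' : Measure Ω')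
        [IsProbabilityMeasure P] [IsProbabilityMeasure P'] (M : Model α P P') (lam h t : ℝ)
        (N : ℕ), 0 < lam → 0 ≤ h → (lam ^ 2)⁻¹ * (N + 1) ≤ t →
        ∫ x, vLL b L₀ N x ∂nuX 1 (h / lam) - 1 - lam * h * (t - (lam ^ 2)⁻¹ * N) ≤
          ∫ ω, Real.log (M.Z lam h t ω) ∂P) := by
  obtain ⟨C₀, C₁, hC₀, hC₁, hsel⟩ := logZ_ge_vLL
  obtain ⟨c₀, CN, hc₀, hc₀1, hCN, hbase⟩ := base_tail
  obtain ⟨c, α₀, hc, hα₀, hα₁, hpar⟩ := params_low C₀ C₁ c₀ CN hC₀ hC₁ hc₀ hc₀1 hCN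
  refine ⟨C₀, C₁, c, α₀, hC₀, hC₁, hc, hα₀, hα₁, ?_⟩
  intro α h0 h1 b L₀ B hb hL hB
  obtain ⟨hb0, hb1, hL0, hγ0, hγ1, hB1, hmain⟩ := hpar α h0 h1 b L₀ B (2 * (B - b)) hb hL hB rfl
  refine ⟨?_, ?_⟩
  · obtain ⟨N, β, V, hN, hHH, hV, h4⟩ := hmain (vH b L₀ B (2 * (B - b)))
      (by
        intro N V hV hN v hv0 hvV
        refine hbase b L₀ B (2 * (B - b)) hb0 hb1 rfl hγ0 hγ1 N V hV hN v (le_trans ?_ hv0) hvV
        have : 0 ≤ Real.log (N : ℝ) := Real.log_natCast_nonneg N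
        linarith)
      (by
        intro N β β' V hββ hH v hv0 hvV
        refine le_trans (min_le_min_left _ ?_) (hH v hv0 hvV)
        have : 0 ≤ (N : ℝ) * Real.exp (-(2 * (B - b)) * v) := by positivity
        nlinarith)
      (by
        intro N M β V hβ hN hM hNγ hMγ hcond hH
        exact macro_step hγ0 hγ1 hL0 hβ hN hM hNγ hMγ hcond hH)
    have hge := hHH (2 * Real.log N + L₀ + 5) (by linarith) hV
    rw [min_eq_left h4] at hge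
    exact growth hN hL0 le_rfl hge
  · intro Ω Ω' _ _ P P' _ _ M lam h t N hlam hh ht
    exact hsel α (by linarith) h1 b L₀ hb hL (by linarith) P P' M lam h t N hlam hh ht

/-- `h` at the critical value: `N = ⌊lam ^ 2 t⌋ - 1`; smaller `h`: `log_Z_anti`. -/
theorem lower_half : ∃ c α₀ : ℝ, 0 < c ∧ 9 / 10 < α₀ ∧ α₀ < 1 ∧ ∀ α : ℝ, α₀ ≤ α → α < 1 →
    ∀ {Ω Ω' : Type} [MeasurableSpace Ω] [MeasurableSpace Ω'] (P : Measure Ω) (P' : Measure Ω')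
      [IsProbabilityMeasure P] [IsProbabilityMeasure P'] (M : Model α P P') (lam h : ℝ),
      0 < lam → 0 ≤ h → h ≤ (3 / 4 + c * (1 - α) ^ (1 / 4 : ℝ)) * lam →
      ∃ c' > 0, ∀ᶠ t in atTop, c' ≤ 1 / t * ∫ ω, Real.log (M.Z lam h t ω) ∂P := by
  obtain ⟨C₀, C₁, c, α₀, hC₀, hC₁, hc, hα₀, hα₁, hmain⟩ := linear_vLL
  refine ⟨c, α₀, hc, hα₀, hα₁, ?_⟩
  intro α h0 h1 Ω Ω' _ _ P P' _ _ M lam h hlam hh hle
  set B : ℝ := 3 / 4 + c * (1 - α) ^ (1 / 4 : ℝ) with hB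
  obtain ⟨⟨ε, hε, C', hgrow⟩, hsel⟩ := hmain α h0 h1 _ _ B rfl rfl rfl
  have hlam2 : 0 < lam ^ 2 := by positivity
  have hB0 : 0 ≤ B := by
    have : 0 ≤ (1 - α) ^ (1 / 4 : ℝ) := Real.rpow_nonneg (by linarith) _
    positivity
  set h₀ : ℝ := B * lam with hh₀
  have hh₀0 : 0 ≤ h₀ := by positivity
  have hBl : h₀ / lam = B := by rw [hh₀]; field_simp
  set A : ℝ := C' + 1 + lam * (h₀ * (2 * (lam ^ 2)⁻¹)) + 2 * ε with hA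
  refine ⟨ε * lam ^ 2 / 2, by positivity, ?_⟩
  filter_upwards [eventually_ge_atTop (2 * (lam ^ 2)⁻¹), eventually_gt_atTop 0,
    eventually_ge_atTop (2 * A / (ε * lam ^ 2))] with t ht1 ht0 ht2
  have hlt : 2 ≤ lam ^ 2 * t := by
    have := mul_le_mul_of_nonneg_left ht1 (by positivity : 0 ≤ lam ^ 2)
    have e : lam ^ 2 * (2 * (lam ^ 2)⁻¹) = 2 := by field_simp
    linarith
  have hfl : 2 ≤ ⌊lam ^ 2 * t⌋₊ := Nat.le_floor (by exact_mod_cast hlt)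
  obtain ⟨N, hN⟩ : ∃ N, ⌊lam ^ 2 * t⌋₊ = N + 1 := ⟨⌊lam ^ 2 * t⌋₊ - 1, by omega⟩
  have hN1 : (N : ℝ) + 1 ≤ lam ^ 2 * t := by
    have := Nat.floor_le (by positivity : 0 ≤ lam ^ 2 * t)
    rw [hN] at this
    exact_mod_cast this
  have hN2 : lam ^ 2 * t < N + 2 := by
    have := Nat.lt_floor_add_one (lam ^ 2 * t)
    rw [hN] at this
    push_cast at this
    linarith
  have hcancel : (lam ^ 2)⁻¹ * (lam ^ 2 * t) = t := by field_simp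
  have ht : (lam ^ 2)⁻¹ * (N + 1) ≤ t := by
    calc (lam ^ 2)⁻¹ * ((N : ℝ) + 1) ≤ (lam ^ 2)⁻¹ * (lam ^ 2 * t) := by gcongr
      _ = t := hcancel
  have ht' : t - (lam ^ 2)⁻¹ * N ≤ 2 * (lam ^ 2)⁻¹ := by
    have : t ≤ (lam ^ 2)⁻¹ * (N + 2) := by
      calc t = (lam ^ 2)⁻¹ * (lam ^ 2 * t) := hcancel.symm
        _ ≤ (lam ^ 2)⁻¹ * (N + 2) := by gcongr
    linarith
  have h2 := hsel P P' M lam h₀ t N hlam hh₀0 ht
  rw [hBl] at h2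
  have h3 := hgrow N
  have h4 : ∫ ω, Real.log (M.Z lam h₀ t ω) ∂P ≤ ∫ ω, Real.log (M.Z lam h t ω) ∂P :=
    integral_mono_ae (integrable_log_Z M hlam hh₀0 ht0.le) (integrable_log_Z M hlam hh ht0.le)
      (log_Z_anti M hlam hh hle ht0.le)
  have h5 : lam * h₀ * (t - (lam ^ 2)⁻¹ * N) ≤ lam * (h₀ * (2 * (lam ^ 2)⁻¹)) := by
    rw [mul_assoc]
    gcongr
  have h6 : ε * (lam ^ 2 * t) - A ≤ ∫ ω, Real.log (M.Z lam h t ω) ∂P := by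
    have : ε * (lam ^ 2 * t) ≤ ε * (N + 2) := by gcongr
    rw [hA]
    linarith
  have h7 : A ≤ ε * lam ^ 2 / 2 * t := by
    rw [div_le_iff₀ (by positivity)] at ht2
    linarith
  rw [one_div, ← div_eq_inv_mul, le_div_iff₀ ht0]
  have e : ε * (lam ^ 2 * t) = ε * lam ^ 2 / 2 * t + ε * lam ^ 2 / 2 * t := by ring
  linarith

end Pool.Agent.Lib.MP_3d9a2b_pr
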