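import Pool.Agent.Lib.MP_3d9a2b_pr.V.Lower
import Pool.Agent.Lib.MP_3d9a2b_pr.V.Deloc2

set_option autoImplicit false

/-! Task VK2: the asymptotics of the slope as `α → 1`. -/

namespace Pool.Agent.Lib.MP_3d9a2b_pr

open MeasureTheory ProbabilityTheory Filter Topology
open scoped NNReal ENNReal

theorem slope_near_one : ∃ c K α₀ : ℝ, 0 < c ∧ 0 < K ∧ 0 < α₀ ∧ α₀ < 1 ∧ ∀ α : ℝ,
    α₀ ≤ α → α < 1 →
    ∀ {Ω Ω' : Type} [MeasurableSpace Ω] [MeasurableSpace Ω'] (P : Measure Ω) (P' : Measure Ω')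
      [IsProbabilityMeasure P] [IsProbabilityMeasure P'] (M : Model α P P') (lam h : ℝ),
      0 < lam → 0 ≤ h →
      (∀ t : ℝ, 0 ≤ t → Integrable (fun ω => Real.log (M.Z lam h t ω)) P) ∧
      (h ≤ (3 / 4 + c * (1 - α) ^ (1 / 4 : ℝ)) * lam →
        ∃ c' > 0, ∀ᶠ t in atTop, c' ≤ 1 / t * ∫ ω, Real.log (M.Z lam h t ω) ∂P) ∧
      ((3 / 4 + K * (1 - α) ^ (1 / 4 : ℝ)) * lam ≤ h →
        Tendsto (fun t => 1 / t * ∫ ω, Real.log (M.Z lam h t ω) ∂P) atTop (𝓝 0)) := by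
  obtain ⟨c, α₀, hc, hα₀, hα₁, hlow⟩ := lower_half
  obtain ⟨K, α₀', hK, hα₀', hα₁', hup⟩ := deloc2
  refine ⟨c, K, max α₀ α₀', hc, hK, lt_of_lt_of_le (by linarith) (le_max_left _ _),
    max_lt hα₁ hα₁', ?_⟩
  intro α h0 h1 Ω Ω' _ _ P P' _ _ M lam h hlam hh
  have hl : α₀ ≤ α := le_trans (le_max_left _ _) h0
  have hu : α₀' ≤ α := le_trans (le_max_right _ _) h0
  refine ⟨?_, ?_, ?_⟩
  · intro t ht
    exact integrable_log_Z M hlam hh ht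
  · exact hlow α hl h1 P P' M lam h hlam hh
  · exact hup α hu h1 P P' M lam h hlam

end Pool.Agent.Lib.MP_3d9a2b_pr
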