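import Pool.Agent.Lib.MP_3d9a2b_pr.V.LawD

set_option autoImplicit false

/-! Task VA2: the Markov property of the process `D` with its explicit kernel. -/

namespace Pool.Agent.Lib.MP_3d9a2b_pr

open MeasureTheory ProbabilityTheory Filter Topology
open scoped NNReal ENNReal

/-- right continuity of `D` -/
private lemma va2_right {S : Set ℝ} (hu : ∀ t : ℝ, ∃ r ∈ S, t < r) (r : ℝ) :
    Tendsto (nextPt S) (𝓝[>] r) (𝓝 (nextPt S r)) := by
  have hne : ∀ t : ℝ, {r | r ∈ S ∧ t < r}.Nonempty := fun t => by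
    obtain ⟨r, hr, htr⟩ := hu t
    exact ⟨r, hr, htr⟩
  have hbd : ∀ t : ℝ, BddBelow {r | r ∈ S ∧ t < r} := fun t => ⟨t, fun r hr => hr.2.le⟩
  rw [tendsto_order]
  constructor
  · intro a ha
    filter_upwards [self_mem_nhdsWithin] with r' hr'
    refine lt_of_lt_of_le ha ?_
    exact csInf_le_csInf (hbd r) (hne r') fun x hx => ⟨hx.1, (lt_trans hr' hx.2)⟩
  · intro a ha
    obtain ⟨x, hx, hxa⟩ := exists_lt_of_csInf_lt (hne r) ha
    have h1 : ∀ᶠ r' in 𝓝[>] r, r' < x := by
      refine nhdsWithin_le_nhds ?_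
      exact Iio_mem_nhds hx.2
    filter_upwards [h1] with r' hr'
    exact lt_of_le_of_lt (csInf_le (hbd r') ⟨hx.1, hr'⟩) hxa

/-- dyadic approximation from the right -/
private noncomputable def va2_ap (n : ℕ) (k : ℤ) : ℝ := ((k : ℝ) + 1) / 2 ^ n

private lemma va2_ap_lt (n : ℕ) (r : ℝ) : r < va2_ap n ⌊2 ^ n * r⌋ := by
  unfold va2_ap
  rw [lt_div_iff₀ (by positivity)]
  have := Int.lt_floor_add_one (2 ^ n * r)
  linarith

private lemma va2_ap_le (n : ℕ) (r : ℝ) : va2_ap n ⌊2 ^ n * r⌋ ≤ r + (1 / 2) ^ n := by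
  unfold va2_ap
  rw [div_le_iff₀ (by positivity)]
  have := Int.floor_le (2 ^ n * r)
  have h2 : (1 / 2 : ℝ) ^ n * 2 ^ n = 1 := by
    rw [← mul_pow]; norm_num
  nlinarith

private lemma va2_ap_tendsto (r : ℝ) :
    Tendsto (fun n : ℕ => va2_ap n ⌊2 ^ n * r⌋) atTop (𝓝 r) := by
  have h1 : Tendsto (fun n : ℕ => r + (1 / 2 : ℝ) ^ n) atTop (𝓝 (r + 0)) :=
    tendsto_const_nhds.add (tendsto_pow_atTop_nhds_zero_of_lt_one (by norm_num) (by norm_num))
  rw [add_zero] at h1
  exact tendsto_of_tendsto_of_tendsto_of_le_of_le tendsto_const_nhds h1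
    (fun n => (va2_ap_lt n r).le) (fun n => va2_ap_le n r)

private lemma va2_meas_step {W : Type} [MeasurableSpace W] (y : ℝ → W → ℝ) (c : ℤ → ℝ)
    (hy : ∀ k, Measurable (y (c k))) (τ : W → ℝ) (hτ : Measurable τ) :
    Measurable fun w => y (c ⌊τ w⌋) w := by
  have h1 : Measurable fun q : ℤ × W => y (c q.1) q.2 :=
    measurable_from_prod_countable_right fun k => hy k
  exact h1.comp ((Int.measurable_floor.comp hτ).prodMk measurable_id)

/-- joint measurability of right continuous processes -/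
private lemma va2_prod {W : Type} [MeasurableSpace W] (y : ℝ → W → ℝ) {t : ℝ} (ht : 0 < t)
    (hy : ∀ r, 0 ≤ r → r ≤ t → Measurable (y r))
    (hc : ∀ w r, 0 ≤ r → r < t → Tendsto (fun s => y s w) (𝓝[>] r) (𝓝 (y r w))) :
    Measurable fun q : ℝ × W => if 0 ≤ q.1 ∧ q.1 < t then y q.1 q.2 else 0 := by
  have hms : MeasurableSet {q : ℝ × W | 0 ≤ q.1 ∧ q.1 < t} :=
    (measurableSet_le measurable_const measurable_fst).inter
      (measurableSet_lt measurable_fst measurable_const)
  have hm : ∀ n : ℕ, Measurable fun q : ℝ × W => if 0 ≤ q.1 ∧ q.1 < t then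
      y (max 0 (min t (va2_ap n ⌊2 ^ n * q.1⌋))) q.2 else 0 := by
    intro n
    refine Measurable.ite hms ?_ measurable_const
    refine va2_meas_step (W := ℝ × W) (fun r q => y r q.2) (fun k => max 0 (min t (va2_ap n k)))
      (fun k => ?_) (fun q => 2 ^ n * q.1) (measurable_fst.const_mul _)
    exact (hy _ (le_max_left _ _) (max_le ht.le (min_le_left _ _))).comp measurable_snd
  refine measurable_of_tendsto_metrizable hm ?_
  rw [tendsto_pi_nhds]
  intro q
  by_cases hq : 0 ≤ q.1 ∧ q.1 < t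
  · simp only [hq, and_self, if_true]
    refine (hc q.2 q.1 hq.1 hq.2).comp ?_
    rw [tendsto_nhdsWithin_iff]
    constructor
    · have h1 : Tendsto (fun n : ℕ => max 0 (min t (va2_ap n ⌊2 ^ n * q.1⌋))) atTop
          (𝓝 (max 0 (min t q.1))) :=
        tendsto_const_nhds.max (tendsto_const_nhds.min (va2_ap_tendsto q.1))
      rwa [min_eq_right hq.2.le, max_eq_right hq.1] at h1
    · refine Eventually.of_forall fun n => ?_
      exact lt_of_lt_of_le (lt_min hq.2 (va2_ap_lt n q.1)) (le_max_right _ _)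
  · simp only [hq, if_false]
    exact tendsto_const_nhds

section
variable {α : ℝ} {Ω' : Type} [MeasurableSpace Ω'] {P' : Measure Ω'} [IsProbabilityMeasure P']
  {R : Ω' → Set ℝ}

theorem past_le (hR : IsStableRegenerative α R P') (t : ℝ) : past R t ≤ ‹MeasurableSpace Ω'› := by
  unfold past
  exact Measurable.comap_le (measurable_pi_iff.2 fun s => hR.measurable_nextPt s)

theorem measurable_nextPt_past (R : Ω' → Set ℝ) {r t : ℝ} (h0 : 0 ≤ r) (hrt : r ≤ t) :
    Measurable[past R t] (fun ω => nextPt (R ω) r) := by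
  have h1 : Measurable[past R t] (fun ω (r : Set.Icc (0 : ℝ) t) => nextPt (R ω) r) :=
    comap_measurable _
  exact (measurable_pi_apply (⟨r, h0, hrt⟩ : Set.Icc (0 : ℝ) t)).comp h1

theorem past_mono (R : Ω' → Set ℝ) {s t : ℝ} (h : s ≤ t) : past R s ≤ past R t := by
  have h1 : @Measurable Ω' (Set.Icc (0 : ℝ) s → ℝ) (past R t) inferInstance
      (fun ω (r : Set.Icc (0 : ℝ) s) => nextPt (R ω) r) := by
    refine @measurable_pi_iff _ _ _ (past R t) _ _ |>.2 fun r => ?_
    exact measurable_nextPt_past R r.2.1 (r.2.2.trans h)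
  exact h1.comap_le

/-- joint measurability in time and `ω` (right continuity of `D`) -/
theorem measurable_nextPt_prod (hR : IsStableRegenerative α R P') {t : ℝ} (ht : 0 < t) :
    @Measurable (ℝ × Ω') ℝ (@Prod.instMeasurableSpace ℝ Ω' inferInstance (past R t)) inferInstance
      (fun q => if 0 ≤ q.1 ∧ q.1 < t then nextPt (R q.2) q.1 else 0) := by
  exact @va2_prod Ω' (past R t) (fun r ω => nextPt (R ω) r) t ht
    (fun r h0 h1 => measurable_nextPt_past R h0 h1)
    (fun ω r _ _ => va2_right (hR.unbounded ω) r)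

/-- Markov property at time `t`: the law of `D w` given the past up to time `t` has the density
`rho α (w - D t) v` at `w + v` on the event `D t < w`. -/
theorem markov (h0 : 0 < α) (h1 : α < 1) (hR : IsStableRegenerative α R P') {t w : ℝ}
    (ht : 0 ≤ t) (htw : t < w) (Ψ : Ω' → ℝ≥0∞) (hΨ : Measurable[past R t] Ψ)
    (F : ℝ → ℝ≥0∞) (hF : Measurable F) :
    ∫⁻ ω, (if nextPt (R ω) t < w then Ψ ω * F (nextPt (R ω) w) else 0) ∂P' =
      ∫⁻ ω, (if nextPt (R ω) t < w then Ψ ω * ∫⁻ v in Set.Ioi (0 : ℝ),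
        F (w + v) * ENNReal.ofReal (rho α (w - nextPt (R ω) t) v) else 0) ∂P' := by
  obtain ⟨ψ, hψ, hΨψ⟩ := hΨ.exists_eq_measurable_comp
  set X : Ω' → (Set.Icc (0 : ℝ) t → ℝ) := fun ω r => nextPt (R ω) r with hX
  set Y : Ω' → (Set.Ici (0 : ℝ) → ℝ) :=
    fun ω s => nextPt (R ω) (nextPt (R ω) t + s) - nextPt (R ω) t with hY
  set Y0 : Ω' → (Set.Ici (0 : ℝ) → ℝ) := fun ω s => nextPt (R ω) s with hY0
  have hXm : Measurable X := measurable_pi_iff.2 fun s => hR.measurable_nextPt s
  have hY0m : Measurable Y0 := measurable_pi_iff.2 fun s => hR.measurable_nextPt s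
  have hYm : AEMeasurable Y P' := G_aemeas hR ht
  let tt : Set.Icc (0 : ℝ) t := ⟨t, ht, le_refl t⟩
  -- evaluation at the random time `w - x t`
  let ev : (Set.Icc (0 : ℝ) t → ℝ) × (Set.Ici (0 : ℝ) → ℝ) → ℝ := fun q =>
    limsup (fun n : ℕ => q.2 ⟨max 0 (va2_ap n ⌊2 ^ n * (w - q.1 tt)⌋),
      Set.mem_Ici.2 (le_max_left _ _)⟩) atTop
  have hev : Measurable ev := by
    refine Measurable.limsup fun n => ?_
    refine va2_meas_step
      (fun r (q : (Set.Icc (0 : ℝ) t → ℝ) × (Set.Ici (0 : ℝ) → ℝ)) =>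
        q.2 ⟨max 0 r, Set.mem_Ici.2 (le_max_left _ _)⟩) (fun k => va2_ap n k)
      (fun k => (measurable_pi_apply _).comp measurable_snd)
      (fun q => 2 ^ n * (w - q.1 tt)) ?_
    exact ((measurable_const.sub ((measurable_pi_apply tt).comp measurable_fst)).const_mul _)
  have hseq : ∀ u : ℝ, 0 < u → Tendsto (fun n : ℕ => max 0 (va2_ap n ⌊2 ^ n * u⌋)) atTop (𝓝[>] u) := by
    intro u hu
    rw [tendsto_nhdsWithin_iff]
    constructor
    · have h2 : Tendsto (fun n : ℕ => max 0 (va2_ap n ⌊2 ^ n * u⌋)) atTop (𝓝 (max 0 u)) :=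
        tendsto_const_nhds.max (va2_ap_tendsto u)
      rwa [max_eq_right hu.le] at h2
    · refine Eventually.of_forall fun n => ?_
      exact lt_of_lt_of_le (va2_ap_lt n u) (le_max_right _ _)
  have hevY : ∀ ω, nextPt (R ω) t < w → ev (X ω, Y ω) = nextPt (R ω) w - nextPt (R ω) t := by
    intro ω hω
    refine Tendsto.limsup_eq ?_
    have e1 : nextPt (R ω) w = nextPt (R ω) (nextPt (R ω) t + (w - nextPt (R ω) t)) := by
      congr 1; ring
    rw [e1]
    have h2 := hseq (w - nextPt (R ω) t) (by linarith)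
    have h3 : Tendsto (fun s : ℝ => nextPt (R ω) t + s) (𝓝[>] (w - nextPt (R ω) t))
        (𝓝[>] (nextPt (R ω) t + (w - nextPt (R ω) t))) := by
      rw [tendsto_nhdsWithin_iff]
      constructor
      · exact (tendsto_const_nhds.add tendsto_id).mono_left nhdsWithin_le_nhds
      · filter_upwards [self_mem_nhdsWithin] with s hs
        have : w - nextPt (R ω) t < s := hs
        simp only [Set.mem_Ioi]
        linarith
    have h4 := (va2_right (hR.unbounded ω) _).comp (h3.comp h2)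
    exact h4.sub_const _
  have hevY0 : ∀ ω ω', nextPt (R ω) t < w →
      ev (X ω, Y0 ω') = nextPt (R ω') (w - nextPt (R ω) t) := by
    intro ω ω' hω
    refine Tendsto.limsup_eq ?_
    exact (va2_right (hR.unbounded ω') _).comp (hseq (w - nextPt (R ω) t) (by linarith))
  let Φ : (Set.Icc (0 : ℝ) t → ℝ) × (Set.Ici (0 : ℝ) → ℝ) → ℝ≥0∞ := fun q =>
    if q.1 tt < w then ψ q.1 * F (q.1 tt + ev q) else 0
  have hx : Measurable fun q : (Set.Icc (0 : ℝ) t → ℝ) × (Set.Ici (0 : ℝ) → ℝ) => q.1 tt :=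
    (measurable_pi_apply tt).comp measurable_fst
  have hΦ : Measurable Φ := by
    refine Measurable.ite (measurableSet_lt hx measurable_const) ?_ measurable_const
    exact (hψ.comp measurable_fst).mul (hF.comp (hx.add hev))
  have hL : ∀ ω, (if nextPt (R ω) t < w then Ψ ω * F (nextPt (R ω) w) else 0) = Φ (X ω, Y ω) := by
    intro ω
    show _ = if nextPt (R ω) t < w then ψ (X ω) * F (nextPt (R ω) t + ev (X ω, Y ω)) else 0
    split_ifs with hω
    · rw [hevY ω hω, hΨψ]
      simp only [Function.comp_apply]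
      congr 2
      ring
    · rfl
  have hXY : P'.map (fun ω => (X ω, Y ω)) = (P'.map X).prod (P'.map Y0) := by
    rw [(indepFun_iff_map_prod_eq_prod_map_map hXm.aemeasurable hYm).1 (hR.regen_indep t ht)]
    rw [show P'.map Y = P'.map Y0 from hR.regen_law t ht]
  have hpr1 : IsProbabilityMeasure (P'.map Y0) := Measure.isProbabilityMeasure_map hY0m.aemeasurable
  have hpr2 : IsProbabilityMeasure (P'.map X) := Measure.isProbabilityMeasure_map hXm.aemeasurable
  calc ∫⁻ ω, (if nextPt (R ω) t < w then Ψ ω * F (nextPt (R ω) w) else 0) ∂P'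
      = ∫⁻ ω, Φ (X ω, Y ω) ∂P' := lintegral_congr hL
    _ = ∫⁻ q, Φ q ∂(P'.map (fun ω => (X ω, Y ω))) :=
        (lintegral_map' hΦ.aemeasurable (hXm.aemeasurable.prodMk hYm)).symm
    _ = ∫⁻ q, Φ q ∂((P'.map X).prod (P'.map Y0)) := by rw [hXY]
    _ = ∫⁻ x, ∫⁻ y, Φ (x, y) ∂(P'.map Y0) ∂(P'.map X) := lintegral_prod _ hΦ.aemeasurable
    _ = ∫⁻ ω, ∫⁻ y, Φ (X ω, y) ∂(P'.map Y0) ∂P' :=
        lintegral_map (Measurable.lintegral_prod_right' hΦ) hXm
    _ = ∫⁻ ω, ∫⁻ ω', Φ (X ω, Y0 ω') ∂P' ∂P' := by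
        refine lintegral_congr fun ω => ?_
        exact lintegral_map (hΦ.comp measurable_prodMk_left) hY0m
    _ = _ := by
        refine lintegral_congr fun ω => ?_
        have e1 : ∀ ω', Φ (X ω, Y0 ω') =
            if nextPt (R ω) t < w then ψ (X ω) * F (nextPt (R ω) t + ev (X ω, Y0 ω')) else 0 :=
          fun ω' => rfl
        simp only [e1]
        split_ifs with hω
        · have hu : 0 < w - nextPt (R ω) t := by linarith
          have e2 : ∀ ω', ψ (X ω) * F (nextPt (R ω) t + ev (X ω, Y0 ω')) =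
              Ψ ω * (fun z => F (nextPt (R ω) t + z)) (nextPt (R ω') (w - nextPt (R ω) t)) := by
            intro ω'
            rw [hevY0 ω ω' hω, hΨψ]
            rfl
          have hF' : Measurable fun z => F (nextPt (R ω) t + z) :=
            hF.comp (measurable_const.add measurable_id)
          have e3 : ∫⁻ ω', Ψ ω * (fun z => F (nextPt (R ω) t + z))
              (nextPt (R ω') (w - nextPt (R ω) t)) ∂P' = Ψ ω * ∫⁻ ω', (fun z =>
              F (nextPt (R ω) t + z)) (nextPt (R ω') (w - nextPt (R ω) t)) ∂P' :=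
            lintegral_const_mul _ (hF'.comp (hR.measurable_nextPt (w - nextPt (R ω) t)))
          rw [lintegral_congr e2, e3]
          congr 1
          rw [law_D h0 h1 hR hu _ hF']
          refine lintegral_congr fun v => ?_
          congr 2
          ring
        · simp

end

end Pool.Agent.Lib.MP_3d9a2b_pr
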