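import Pool.Agent.Lib.MP_3d9a2b_pr.V.VV

set_option autoImplicit false

/-! Task VA5: weighted probability of a scenario (upper bound). -/

namespace Pool.Agent.Lib.MP_3d9a2b_pr

open MeasureTheory ProbabilityTheory Filter Topology
open scoped NNReal ENNReal

section
variable {α : ℝ} {Ω' : Type} [MeasurableSpace Ω'] {P' : Measure Ω'} [IsProbabilityMeasure P']
  {R : Ω' → Set ℝ}

/-- weight of the cell `i`, the landing point being cut at the end of the cell -/
noncomputable def va5_W (R : Ω' → Set ℝ) (θ : ℝ) (p : ℕ → ℕ) (f : ℕ → Bool) (A Bc : ℕ → ℝ)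
    (i : ℕ) (ω : Ω') : ℝ :=
  if vI f i then
    A i + Bc i * vV (R ω) θ (min (land (R ω) θ p i) (θ * (p i + 1))) (θ * (p i + 1)) else 1

open Classical in
/-- weighted indicator of the first `k` steps -/
noncomputable def va5_Phi (R : Ω' → Set ℝ) (θ κ : ℝ) (p : ℕ → ℕ) (f : ℕ → Bool) (A Bc : ℕ → ℝ) :
    ℕ → Ω' → ℝ≥0∞
  | 0, _ => 1
  | k + 1, ω => va5_Phi R θ κ p f A Bc k ω *
      ((if vStep (R ω) θ κ p f k then 1 else 0) * ENNReal.ofReal (va5_W R θ p f A Bc k ω))

/-- target of a bad step -/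
def va5_T (θ κ : ℝ) (a b : ℕ) : Set ℝ :=
  if b ≤ a + 1 then Set.Ioo (θ * (a + 1 + κ)) (θ * (a + 2)) else Set.Ico (θ * b) (θ * (b + 1))

lemma va5_T_meas (θ κ : ℝ) (a b : ℕ) : MeasurableSet (va5_T θ κ a b) := by
  unfold va5_T
  split_ifs
  · exact measurableSet_Ioo
  · exact measurableSet_Ico

lemma va5_vStep_false {S : Set ℝ} {θ κ : ℝ} {p : ℕ → ℕ} {f : ℕ → Bool} {i : ℕ} (hf : f i = false) :
    vStep S θ κ p f i ↔ nextPt S (θ * (p i + 1)) ∈ va5_T θ κ (p i) (p (i + 1)) := by
  unfold vStep va5_T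
  rw [if_neg (by simp [hf])]
  split_ifs <;> rfl

lemma va5_target {α θ κ u : ℝ} (h0 : 1 / 2 ≤ α) (h1 : α < 1) (hθ : 0 < θ) (hκ : 0 < κ)
    (hκ1 : κ ≤ 1 / 2) (hu : 0 < u) (huθ : u ≤ θ) {a b : ℕ} (hab : a < b) :
    ∫⁻ v in Set.Ioi (0 : ℝ), Set.indicator (va5_T θ κ a b) (fun _ => (1 : ℝ≥0∞)) (θ * (a + 1) + v)
      * ENNReal.ofReal (rho α u v) ≤ ENNReal.ofReal (vq α κ (b - a)) := by
  rcases Nat.lt_or_ge (a + 1) b with hb | hb
  · -- long step
    obtain ⟨m, hm⟩ : ∃ m, b = a + 1 + m := ⟨b - (a + 1), by omega⟩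
    have hm1 : 1 ≤ m := by omega
    have hT : va5_T θ κ a b = Set.Ico (θ * b) (θ * (b + 1)) := by
      unfold va5_T; rw [if_neg (by omega)]
    have hvq : vq α κ (b - a) = (1 - α) * (m : ℝ) ^ (-(1 + α)) := by
      unfold vq
      rw [if_neg (by omega)]
      have : b - a - 1 = m := by omega
      rw [this]
    have hbr : (b : ℝ) = a + 1 + m := by rw [hm]; push_cast; ring
    rw [hvq, hT]
    refine le_trans ?_ (rho_cell h0 h1 hu huθ hm1)
    refine (setLIntegral_le_lintegral _ _).trans ?_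
    rw [← lintegral_indicator measurableSet_Ico]
    refine lintegral_mono fun v => ?_
    by_cases hv : θ * (a + 1) + v ∈ Set.Ico (θ * (b : ℝ)) (θ * (b + 1))
    · rw [Set.indicator_of_mem hv, one_mul]
      have hv' : v ∈ Set.Ico (θ * (m : ℝ)) (θ * (m + 1)) := by
        rw [Set.mem_Ico, hbr] at hv
        constructor
        · nlinarith [hv.1]
        · nlinarith [hv.2]
      rw [Set.indicator_of_mem hv']
    · rw [Set.indicator_of_notMem hv, zero_mul]
      exact zero_le
  · have hb' : b = a + 1 := by omega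
    have hT : va5_T θ κ a b = Set.Ioo (θ * (a + 1 + κ)) (θ * (a + 2)) := by
      unfold va5_T; rw [if_pos hb]
    have hvq : vq α κ (b - a) = 3 * (1 - α) * κ ^ (-(1 / 2 : ℝ)) := by
      unfold vq
      rw [if_pos (by omega)]
    have hs : 0 < κ * θ := mul_pos hκ hθ
    have hsθ : κ * θ ≤ θ := by nlinarith
    have h2 := rho_tail h0 h1 hu huθ hs hsθ
    rw [mul_div_cancel_right₀ _ hθ.ne'] at h2
    rw [hvq, hT]
    refine le_trans ?_ h2
    refine (setLIntegral_le_lintegral _ _).trans ?_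
    rw [← lintegral_indicator measurableSet_Ioi]
    refine lintegral_mono fun v => ?_
    by_cases hv : θ * (a + 1) + v ∈ Set.Ioo (θ * ((a : ℝ) + 1 + κ)) (θ * (a + 2))
    · rw [Set.indicator_of_mem hv, one_mul]
      have hv' : v ∈ Set.Ioi (κ * θ) := by
        rw [Set.mem_Ioo] at hv
        rw [Set.mem_Ioi]
        nlinarith [hv.1]
      rw [Set.indicator_of_mem hv']
    · rw [Set.indicator_of_notMem hv, zero_mul]
      exact zero_le

/-- after a step the path is in the cell `p (i + 1)` -/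
lemma va5_step_mem {S : Set ℝ} {θ κ : ℝ} {p : ℕ → ℕ} {f : ℕ → Bool} {i : ℕ} (hθ : 0 < θ)
    (hκ : 0 < κ) (hκ1 : κ ≤ 1 / 2) (hp : p i < p (i + 1))
    (hf : f i = true → p (i + 1) = p i + 1) (h : vStep S θ κ p f i) :
    θ * p (i + 1) ≤ nextPt S (θ * (p i + 1)) ∧ nextPt S (θ * (p i + 1)) < θ * (p (i + 1) + 1) := by
  unfold vStep at h
  split_ifs at h with c1 c2
  · have e : (p (i + 1) : ℝ) = p i + 1 := by rw [hf c1]; push_cast; ring
    rw [Set.mem_Icc] at h
    rw [e]
    exact ⟨h.1, by nlinarith [h.2]⟩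
  · have e' : p (i + 1) = p i + 1 := by omega
    have e : (p (i + 1) : ℝ) = p i + 1 := by rw [e']; push_cast; ring
    rw [Set.mem_Ioo] at h
    rw [e]
    exact ⟨by nlinarith [h.1], by nlinarith [h.2]⟩
  · exact ⟨h.1, h.2⟩

lemma va5_step_meas {θ κ : ℝ} (hθ : 0 < θ) (p : ℕ → ℕ)
    (f : ℕ → Bool) (i : ℕ) {s : ℝ} (hs : θ * (p i + 1) ≤ s) :
    MeasurableSet[past R s] {ω | vStep (R ω) θ κ p f i} := by
  have h1 : Measurable[past R s] (fun ω => nextPt (R ω) (θ * (p i + 1))) :=
    measurable_nextPt_past R (by positivity) hs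
  unfold vStep
  split_ifs
  · exact h1 measurableSet_Icc
  · exact h1 measurableSet_Ioo
  · exact h1 measurableSet_Ico

lemma va5_W_meas (hR : IsStableRegenerative α R P') {θ : ℝ} (hθ : 0 < θ) (p : ℕ → ℕ)
    (f : ℕ → Bool) (A Bc : ℕ → ℝ) (i : ℕ) (hp : ∀ j < i, p j < p (j + 1)) {s : ℝ}
    (hs : θ * (p i + 1) ≤ s) :
    Measurable[past R s] (va5_W R θ p f A Bc i) := by
  have hw : 0 < θ * ((p i : ℝ) + 1) := by positivity
  have hz : Measurable[past R (θ * ((p i : ℝ) + 1))]
      (fun ω => min (land (R ω) θ p i) (θ * ((p i : ℝ) + 1))) := by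
    refine Measurable.min ?_ measurable_const
    cases i with
    | zero => exact measurable_const
    | succ j =>
      refine measurable_nextPt_past R (by positivity) ?_
      have h2 : (p j : ℝ) ≤ p (j + 1) := by exact_mod_cast (hp j (by omega)).le
      nlinarith
  have hz0 : ∀ ω, 0 ≤ min (land (R ω) θ p i) (θ * ((p i : ℝ) + 1)) := by
    intro ω
    refine le_min ?_ hw.le
    cases i with
    | zero => exact le_refl _
    | succ j => exact le_trans (by positivity) (ub_self_le (hR.unbounded ω) (θ * ((p j : ℝ) + 1)))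
  have h3 := measurable_vV (θ := θ) hR hw hz hz0 (fun ω => min_le_right _ _)
  have h4 := h3.mono (past_mono R hs) le_rfl
  unfold va5_W
  split_ifs
  · exact measurable_const.add (h4.const_mul _)
  · exact measurable_const

lemma va5_Phi_meas (hR : IsStableRegenerative α R P') {θ κ : ℝ} (hθ : 0 < θ) (p : ℕ → ℕ)
    (f : ℕ → Bool) (A Bc : ℕ → ℝ) (k : ℕ) (hp : ∀ i < k, p i < p (i + 1)) {s : ℝ}
    (hs : ∀ i < k, θ * (p i + 1) ≤ s) :
    Measurable[past R s] (va5_Phi R θ κ p f A Bc k) := by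
  classical
  induction k with
  | zero => exact measurable_const
  | succ k ih =>
    have h1 := ih (fun i hi => hp i (by omega)) (fun i hi => hs i (by omega))
    have h2 := va5_step_meas (R := R) (κ := κ) hθ p f k (hs k (by omega))
    have h3 := va5_W_meas hR hθ p f A Bc k (fun j hj => hp j (by omega)) (hs k (by omega))
    have h4 : Measurable[past R s] (fun ω => if vStep (R ω) θ κ p f k then (1 : ℝ≥0∞) else 0) :=
      Measurable.ite h2 measurable_const measurable_const
    have h5 : Measurable[past R s] (fun ω => va5_Phi R θ κ p f A Bc k ω *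
      ((if vStep (R ω) θ κ p f k then 1 else 0) * ENNReal.ofReal (va5_W R θ p f A Bc k ω))) :=
      h1.mul (h4.mul h3.ennreal_ofReal)
    exact h5

omit [IsProbabilityMeasure P'] in
lemma va5_comb {Φ : Ω' → ℝ≥0∞} (hΦ : Measurable Φ) (V : Ω' → ℝ) {A B c : ℝ} (hA : 0 ≤ A)
    (hB : 0 ≤ B) (hc : 0 ≤ c)
    (hV : ∫⁻ ω, Φ ω * ENNReal.ofReal (V ω) ∂P' ≤ ENNReal.ofReal c * ∫⁻ ω, Φ ω ∂P') :
    ∫⁻ ω, Φ ω * ENNReal.ofReal (A + B * V ω) ∂P' ≤ ENNReal.ofReal (A + c * B) * ∫⁻ ω, Φ ω ∂P' := by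
  calc ∫⁻ ω, Φ ω * ENNReal.ofReal (A + B * V ω) ∂P'
      ≤ ∫⁻ ω, (ENNReal.ofReal A * Φ ω + ENNReal.ofReal B * (Φ ω * ENNReal.ofReal (V ω))) ∂P' := by
        refine lintegral_mono fun ω => ?_
        have h1 : ENNReal.ofReal (A + B * V ω)
            ≤ ENNReal.ofReal A + ENNReal.ofReal B * ENNReal.ofReal (V ω) := by
          rw [← ENNReal.ofReal_mul hB]
          exact ENNReal.ofReal_add_le
        calc Φ ω * ENNReal.ofReal (A + B * V ω)
            ≤ Φ ω * (ENNReal.ofReal A + ENNReal.ofReal B * ENNReal.ofReal (V ω)) :=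
              mul_le_mul_right h1 _
          _ = _ := by ring
    _ = ENNReal.ofReal A * ∫⁻ ω, Φ ω ∂P'
        + ENNReal.ofReal B * ∫⁻ ω, Φ ω * ENNReal.ofReal (V ω) ∂P' := by
        rw [lintegral_add_left (hΦ.const_mul _), lintegral_const_mul _ hΦ,
          lintegral_const_mul' _ _ ENNReal.ofReal_ne_top]
    _ ≤ ENNReal.ofReal A * ∫⁻ ω, Φ ω ∂P'
        + ENNReal.ofReal B * (ENNReal.ofReal c * ∫⁻ ω, Φ ω ∂P') := by gcongr
    _ = ENNReal.ofReal (A + c * B) * ∫⁻ ω, Φ ω ∂P' := by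
        rw [ENNReal.ofReal_add hA (mul_nonneg hc hB), ENNReal.ofReal_mul hc]
        ring

/-- one step -/
lemma va5_succ (h0 : 1 / 2 ≤ α) (h1 : α < 1) (hR : IsStableRegenerative α R P') {θ κ : ℝ}
    (hθ : 0 < θ) (hκ : 0 < κ) (hκ1 : κ ≤ 1 / 2)
    (p : ℕ → ℕ) (f : ℕ → Bool) (k : ℕ) (hp0 : p 0 = 0) (hp : ∀ i < k + 1, p i < p (i + 1))
    (hf : ∀ i < k + 1, f i = true → p (i + 1) = p i + 1) (A Bc : ℕ → ℝ) (hA : ∀ i, 0 ≤ A i)
    (hB : ∀ i, 0 ≤ Bc i) :
    ∫⁻ ω, va5_Phi R θ κ p f A Bc (k + 1) ω ∂P' ≤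
      ENNReal.ofReal (if vI f k then A k + 12 * (1 - α) * Bc k
        else if f k then 1 else vq α κ (p (k + 1) - p k)) * ∫⁻ ω, va5_Phi R θ κ p f A Bc k ω ∂P' := by
  classical
  have hmono : ∀ i ≤ k, p i ≤ p k := by
    intro i hi
    have : ∀ j, i + j ≤ k → p i ≤ p (i + j) := by
      intro j
      induction j with
      | zero => intro _; exact le_refl _
      | succ j ihj =>
        intro hj
        have h3 := hp (i + j) (by omega)
        have h4 := ihj (by omega)
        rw [← add_assoc]; omega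
    have h5 := this (k - i) (by omega)
    rwa [Nat.add_sub_cancel' hi] at h5
  have hΦ : Measurable (va5_Phi R θ κ p f A Bc k) := by
    have h3 := va5_Phi_meas (κ := κ) hR hθ p f A Bc k (fun i hi => hp i (by omega))
      (s := θ * (p k + 1)) (by
        intro i hi
        have : (p i : ℝ) ≤ p k := by exact_mod_cast hmono i hi.le
        nlinarith)
    exact h3.mono (past_le hR _) le_rfl
  have hα : 0 ≤ 1 - α := by linarith
  -- interface cell, given the bound for `vV`
  have caseI : vI f k = true → (∫⁻ ω, va5_Phi R θ κ p f A Bc k ω * ENNReal.ofReal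
      (vV (R ω) θ (min (land (R ω) θ p k) (θ * (p k + 1))) (θ * (p k + 1))) ∂P' ≤
        ENNReal.ofReal (12 * (1 - α)) * ∫⁻ ω, va5_Phi R θ κ p f A Bc k ω ∂P') →
      ∫⁻ ω, va5_Phi R θ κ p f A Bc (k + 1) ω ∂P' ≤
      ENNReal.ofReal (if vI f k then A k + 12 * (1 - α) * Bc k
        else if f k then 1 else vq α κ (p (k + 1) - p k)) *
          ∫⁻ ω, va5_Phi R θ κ p f A Bc k ω ∂P' := by
    intro hI hV
    rw [if_pos hI]
    refine le_trans (lintegral_mono fun ω => ?_)
      (va5_comb hΦ _ (hA k) (hB k) (by positivity) hV)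
    show va5_Phi R θ κ p f A Bc k ω *
      ((if vStep (R ω) θ κ p f k then 1 else 0) * ENNReal.ofReal (va5_W R θ p f A Bc k ω)) ≤ _
    refine mul_le_mul_right ?_ _
    have e : va5_W R θ p f A Bc k ω = A k + Bc k *
        vV (R ω) θ (min (land (R ω) θ p k) (θ * (p k + 1))) (θ * (p k + 1)) := by
      unfold va5_W; rw [if_pos hI]
    rw [e]
    split_ifs
    · rw [one_mul]
    · rw [zero_mul]; exact zero_le
  have hW1 : vI f k ≠ true → ∀ ω, va5_W R θ p f A Bc k ω = 1 := by
    intro hI ω; unfold va5_W; rw [if_neg hI]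
  -- good step, no interface cell
  have caseG : vI f k ≠ true → f k = true →
      ∫⁻ ω, va5_Phi R θ κ p f A Bc (k + 1) ω ∂P' ≤
      ENNReal.ofReal (if vI f k then A k + 12 * (1 - α) * Bc k
        else if f k then 1 else vq α κ (p (k + 1) - p k)) *
          ∫⁻ ω, va5_Phi R θ κ p f A Bc k ω ∂P' := by
    intro hI hfk
    rw [if_neg hI, if_pos hfk, ENNReal.ofReal_one, one_mul]
    refine lintegral_mono fun ω => ?_
    show va5_Phi R θ κ p f A Bc k ω *
      ((if vStep (R ω) θ κ p f k then 1 else 0) * ENNReal.ofReal (va5_W R θ p f A Bc k ω)) ≤ _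
    rw [hW1 hI, ENNReal.ofReal_one, mul_one]
    split_ifs
    · rw [mul_one]
    · rw [mul_zero]; exact zero_le
  have hpk := hp k (by omega)
  -- bad step
  have caseB : f k = false → (∫⁻ ω, va5_Phi R θ κ p f A Bc k ω *
        Set.indicator (va5_T θ κ (p k) (p (k + 1))) (fun _ => (1 : ℝ≥0∞))
          (nextPt (R ω) (θ * (p k + 1))) ∂P' ≤
        ENNReal.ofReal (vq α κ (p (k + 1) - p k)) * ∫⁻ ω, va5_Phi R θ κ p f A Bc k ω ∂P') →
      ∫⁻ ω, va5_Phi R θ κ p f A Bc (k + 1) ω ∂P' ≤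
      ENNReal.ofReal (if vI f k then A k + 12 * (1 - α) * Bc k
        else if f k then 1 else vq α κ (p (k + 1) - p k)) *
          ∫⁻ ω, va5_Phi R θ κ p f A Bc k ω ∂P' := by
    intro hfk hV
    have hI : vI f k ≠ true := by unfold vI; simp [hfk]
    rw [if_neg hI, if_neg (by simp [hfk])]
    refine le_trans (lintegral_mono fun ω => ?_) hV
    show va5_Phi R θ κ p f A Bc k ω *
      ((if vStep (R ω) θ κ p f k then 1 else 0) * ENNReal.ofReal (va5_W R θ p f A Bc k ω)) ≤ _
    rw [hW1 hI, ENNReal.ofReal_one, mul_one]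
    refine mul_le_mul_right ?_ _
    by_cases hs : vStep (R ω) θ κ p f k
    · rw [if_pos hs, Set.indicator_of_mem ((va5_vStep_false hfk).1 hs)]
    · rw [if_neg hs]; exact zero_le
  cases k with
  | zero =>
    have ew : θ * ((p 0 : ℝ) + 1) = θ := by rw [hp0]; push_cast; ring
    rcases Bool.eq_false_or_eq_true (f 0) with hfk | hfk
    · refine caseI (by unfold vI; simp [hfk]) ?_
      have e1 : ∀ ω, va5_Phi R θ κ p f A Bc 0 ω * ENNReal.ofReal
          (vV (R ω) θ (min (land (R ω) θ p 0) (θ * (p 0 + 1))) (θ * (p 0 + 1)))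
          = ENNReal.ofReal (vV (R ω) θ 0 θ) := by
        intro ω
        show 1 * ENNReal.ofReal (vV (R ω) θ (min 0 (θ * (p 0 + 1))) (θ * (p 0 + 1))) = _
        rw [ew, min_eq_left hθ.le, one_mul]
      have e2 : ∫⁻ ω, va5_Phi R θ κ p f A Bc 0 ω ∂P' = 1 := by
        show ∫⁻ _, 1 ∂P' = 1
        simp
      rw [lintegral_congr e1, e2, mul_one]
      exact vV_first h0 h1 hR hθ
    · refine caseB hfk ?_
      have e2 : ∫⁻ ω, va5_Phi R θ κ p f A Bc 0 ω ∂P' = 1 := by
        show ∫⁻ _, 1 ∂P' = 1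
        simp
      rw [e2, mul_one]
      have e1 : ∀ ω, va5_Phi R θ κ p f A Bc 0 ω *
          Set.indicator (va5_T θ κ (p 0) (p (0 + 1))) (fun _ => (1 : ℝ≥0∞))
          (nextPt (R ω) (θ * (p 0 + 1)))
          = Set.indicator (va5_T θ κ (p 0) (p (0 + 1))) (fun _ => (1 : ℝ≥0∞))
          (nextPt (R ω) (θ * (p 0 + 1))) := by
        intro ω
        show 1 * _ = _
        rw [one_mul]
      have h3 := va5_target (α := α) (u := θ) h0 h1 hθ hκ hκ1 hθ le_rfl hpk
      rw [lintegral_congr e1]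
      have h4 := law_D (by linarith) h1 hR (t := θ * (p 0 + 1)) (by rw [ew]; exact hθ)
        (Set.indicator (va5_T θ κ (p 0) (p (0 + 1))) (fun _ => (1 : ℝ≥0∞)))
        (measurable_const.indicator (va5_T_meas _ _ _ _))
      rw [h4]
      have e3 : rho α (θ * ((p 0 : ℝ) + 1)) = rho α θ := by rw [ew]
      rw [e3]
      exact h3
  | succ q =>
    set t : ℝ := θ * ((p q : ℝ) + 1) with ht
    set w : ℝ := θ * ((p (q + 1) : ℝ) + 1) with hw
    have hpq := hp q (by omega)
    have hpq' : (p q : ℝ) < p (q + 1) := by exact_mod_cast hpq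
    have ht0 : 0 ≤ t := by rw [ht]; positivity
    have htw : t < w := by rw [ht, hw]; nlinarith
    have hΨ : Measurable[past R t] (va5_Phi R θ κ p f A Bc (q + 1)) := by
      refine va5_Phi_meas hR hθ p f A Bc (q + 1) (fun i hi => hp i (by omega)) ?_
      intro i hi
      have h5 : p i ≤ p q := by
        have : ∀ j, i + j ≤ q → p i ≤ p (i + j) := by
          intro j
          induction j with
          | zero => intro _; exact le_refl _
          | succ j ihj =>
            intro hj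
            have h3 := hp (i + j) (by omega)
            have h4 := ihj (by omega)
            rw [← add_assoc]; omega
        have h5 := this (q - i) (by omega)
        rwa [Nat.add_sub_cancel' (by omega)] at h5
      have h6 : (p i : ℝ) ≤ p q := by exact_mod_cast h5
      rw [ht]; nlinarith
    have hΨ0 : ∀ ω, ¬ (w - θ ≤ nextPt (R ω) t ∧ nextPt (R ω) t < w) →
        va5_Phi R θ κ p f A Bc (q + 1) ω = 0 := by
      intro ω hω
      show va5_Phi R θ κ p f A Bc q ω *
        ((if vStep (R ω) θ κ p f q then 1 else 0) * ENNReal.ofReal (va5_W R θ p f A Bc q ω)) = 0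
      rw [if_neg, zero_mul, mul_zero]
      intro hs
      have h3 := va5_step_mem hθ hκ hκ1 hpq (hf q (by omega)) hs
      exact hω ⟨by rw [hw]; linarith [h3.1], h3.2⟩
    rcases Bool.eq_false_or_eq_true (f (q + 1)) with hfk | hfk
    · by_cases hI : vI f (q + 1) = true
      · refine caseI hI ?_
        have h3 := vV_cond h0 h1 hR hθ ht0 htw _ hΨ hΨ0
        refine le_trans (lintegral_mono fun ω => ?_) h3
        by_cases hz : w - θ ≤ nextPt (R ω) t ∧ nextPt (R ω) t < w
        · have e : min (land (R ω) θ p (q + 1)) w = nextPt (R ω) t := min_eq_left hz.2.le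
          rw [e]
        · rw [hΨ0 ω hz, zero_mul, zero_mul]
      · exact caseG hI hfk
    · refine caseB hfk ?_
      set F : ℝ → ℝ≥0∞ := Set.indicator (va5_T θ κ (p (q + 1)) (p (q + 1 + 1)))
        (fun _ => (1 : ℝ≥0∞)) with hF
      have hFm : Measurable F := measurable_const.indicator (va5_T_meas _ _ _ _)
      have h3 := markov (by linarith) h1 hR ht0 htw _ hΨ F hFm
      have e1 : ∫⁻ ω, va5_Phi R θ κ p f A Bc (q + 1) ω * F (nextPt (R ω) w) ∂P' =
          ∫⁻ ω, (if nextPt (R ω) t < w then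
            va5_Phi R θ κ p f A Bc (q + 1) ω * F (nextPt (R ω) w) else 0) ∂P' := by
        refine lintegral_congr fun ω => ?_
        split_ifs with hz
        · rfl
        · rw [hΨ0 ω (fun h => hz h.2), zero_mul]
      rw [e1, h3, ← lintegral_const_mul _ hΦ]
      refine lintegral_mono fun ω => ?_
      by_cases hz : w - θ ≤ nextPt (R ω) t ∧ nextPt (R ω) t < w
      · beta_reduce
        rw [if_pos hz.2, mul_comm (ENNReal.ofReal _)]
        refine mul_le_mul_right ?_ _
        exact va5_target h0 h1 hθ hκ hκ1 (by linarith [hz.2]) (by linarith [hz.1]) hpk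
      · beta_reduce
        rw [hΨ0 ω hz]
        simp

end

/-- By induction on `k` with the Markov property at the times `θ (p i + 1)`. -/
theorem regen_weight {α : ℝ} (h0 : 1 / 2 ≤ α) (h1 : α < 1) {Ω' : Type} [MeasurableSpace Ω']
    (P' : Measure Ω') [IsProbabilityMeasure P'] (R : Ω' → Set ℝ)
    (hR : IsStableRegenerative α R P') {θ κ : ℝ} (hθ : 0 < θ) (hκ : 0 < κ) (hκ1 : κ ≤ 1 / 2)
    (p : ℕ → ℕ) (f : ℕ → Bool) (k : ℕ) (hp0 : p 0 = 0) (hp : ∀ i < k, p i < p (i + 1))
    (hf : ∀ i < k, f i = true → p (i + 1) = p i + 1) (A Bc : ℕ → ℝ) (hA : ∀ i, 0 ≤ A i)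
    (hB : ∀ i, 0 ≤ Bc i) :
    ∫ ω in {ω | ∀ i < k, vStep (R ω) θ κ p f i}, ∏ i ∈ Finset.range k,
        (if vI f i then A i + Bc i * vV (R ω) θ (land (R ω) θ p i) (θ * (p i + 1)) else 1) ∂P' ≤
      ∏ i ∈ Finset.range k, (if vI f i then A i + 12 * (1 - α) * Bc i
        else if f i then 1 else vq α κ (p (i + 1) - p i)) := by
  classical
  have hα : 0 ≤ 1 - α := by linarith
  set c : ℕ → ℝ := fun i => if vI f i then A i + 12 * (1 - α) * Bc i
        else if f i then 1 else vq α κ (p (i + 1) - p i) with hc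
  have hvq : ∀ m, 0 ≤ vq α κ m := by
    intro m
    unfold vq
    split_ifs
    · positivity
    · positivity
  have hc0 : ∀ i, 0 ≤ c i := by
    intro i
    simp only [hc]
    split_ifs
    · have := hA i; have := hB i; positivity
    · exact zero_le_one
    · exact hvq _
  -- the bound for the lower integrals
  have key : ∀ n ≤ k, ∫⁻ ω, va5_Phi R θ κ p f A Bc n ω ∂P' ≤
      ENNReal.ofReal (∏ i ∈ Finset.range n, c i) := by
    intro n
    induction n with
    | zero =>
      intro _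
      show ∫⁻ _, 1 ∂P' ≤ _
      simp
    | succ n ih =>
      intro hn
      have h2 := va5_succ h0 h1 hR hθ hκ hκ1 p f n hp0 (fun i hi => hp i (by omega))
        (fun i hi => hf i (by omega)) A Bc hA hB
      rw [Finset.prod_range_succ, mul_comm, ENNReal.ofReal_mul (hc0 n)]
      exact h2.trans (mul_le_mul_right (ih (by omega)) _)
  set E : Set Ω' := {ω | ∀ i < k, vStep (R ω) θ κ p f i} with hE
  have hEm : MeasurableSet E := by
    have : E = ⋂ i : Fin k, {ω | vStep (R ω) θ κ p f i} := by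
      ext ω
      simp only [hE, Set.mem_ofPred_eq, Set.mem_iInter]
      exact ⟨fun h i => h i i.2, fun h i hi => h ⟨i, hi⟩⟩
    rw [this]
    exact MeasurableSet.iInter fun i =>
      past_le hR _ _ (va5_step_meas hθ p f i (le_refl (θ * ((p i : ℝ) + 1))))
  set g : Ω' → ℝ := fun ω => ∏ i ∈ Finset.range k,
    (if vI f i then A i + Bc i * vV (R ω) θ (land (R ω) θ p i) (θ * (p i + 1)) else 1) with hg
  -- on `E` the landing points are in their cells
  have hland : ∀ ω ∈ E, ∀ i < k, land (R ω) θ p i ≤ θ * (p i + 1) := by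
    intro ω hω i hi
    cases i with
    | zero => show (0 : ℝ) ≤ _; positivity
    | succ j =>
      exact (va5_step_mem hθ hκ hκ1 (hp j (by omega)) (hf j (by omega)) (hω j (by omega))).2.le
  have hWW : ∀ ω ∈ E, ∀ i < k, (if vI f i then A i + Bc i *
      vV (R ω) θ (land (R ω) θ p i) (θ * (p i + 1)) else 1) = va5_W R θ p f A Bc i ω := by
    intro ω hω i hi
    unfold va5_W
    rw [min_eq_left (hland ω hω i hi)]
  have hW0 : ∀ i ω, 0 ≤ va5_W R θ p f A Bc i ω := by
    intro i ω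
    unfold va5_W
    split_ifs
    · have h2 := vV_nonneg (θ := θ) hR
        (min_le_right (land (R ω) θ p i) (θ * ((p i : ℝ) + 1))) ω
      have := hA i
      have := hB i
      positivity
    · exact zero_le_one
  have hPhi : ∀ ω ∈ E, ∀ n ≤ k, va5_Phi R θ κ p f A Bc n ω =
      ∏ i ∈ Finset.range n, ENNReal.ofReal (va5_W R θ p f A Bc i ω) := by
    intro ω hω n
    induction n with
    | zero => intro _; simp [va5_Phi]
    | succ n ih =>
      intro hn
      rw [Finset.prod_range_succ, ← ih (by omega)]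
      show va5_Phi R θ κ p f A Bc n ω *
        ((if vStep (R ω) θ κ p f n then 1 else 0) * ENNReal.ofReal (va5_W R θ p f A Bc n ω)) = _
      rw [if_pos (hω n (by omega)), one_mul]
  have h2 : ∫⁻ ω in E, ENNReal.ofReal ‖g ω‖ ∂P' ≤ ENNReal.ofReal (∏ i ∈ Finset.range k, c i) := by
    refine le_trans ?_ (key k le_rfl)
    refine le_trans ?_ (setLIntegral_le_lintegral E _)
    refine setLIntegral_mono' hEm fun ω hω => ?_
    rw [hPhi ω hω k le_rfl]
    have e1 : g ω = ∏ i ∈ Finset.range k, va5_W R θ p f A Bc i ω :=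
      Finset.prod_congr rfl fun i hi => hWW ω hω i (Finset.mem_range.1 hi)
    have e2 : 0 ≤ g ω := by rw [e1]; exact Finset.prod_nonneg fun i _ => hW0 i ω
    rw [Real.norm_of_nonneg e2, e1, ENNReal.ofReal_prod_of_nonneg fun i _ => hW0 i ω]
  have h3 : ‖∫ ω in E, g ω ∂P'‖ ≤ ENNReal.toReal (∫⁻ ω in E, ENNReal.ofReal ‖g ω‖ ∂P') :=
    norm_integral_le_lintegral_norm _
  have h4 : ENNReal.toReal (∫⁻ ω in E, ENNReal.ofReal ‖g ω‖ ∂P') ≤ ∏ i ∈ Finset.range k, c i := by
    refine ENNReal.toReal_le_of_le_ofReal (Finset.prod_nonneg fun i _ => hc0 i) h2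
  exact (Real.le_norm_self _).trans (h3.trans h4)

end Pool.Agent.Lib.MP_3d9a2b_pr
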