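import Pool.Agent.Lib.MP_3d9a2b_pr.V.CoreBits
import Pool.Agent.Lib.MP_3d9a2b_pr.V.RegenW
import Pool.Agent.Lib.MP_3d9a2b_pr.U.Recur
import Pool.Agent.Lib.MP_3d9a2b_pr.U.Partition
import Pool.Agent.Lib.MP_3d9a2b_pr.Limit

set_option autoImplicit false

/-! Task VB4: the renewal-type upper bound for the partition function. -/

namespace Pool.Agent.Lib.MP_3d9a2b_pr

open MeasureTheory ProbabilityTheory Filter Topology
open scoped NNReal ENNReal

theorem vY_succ (a κ α : ℝ) (g : Bool) (n : ℕ) (x : ℕ → ℝ) : vY a κ α g (n + 1) x =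
    (if g then vK a κ (1 - α) (x 0) else NN a (x 0)) * vY a κ α true n (shx 1 x) +
      ∑ m ∈ Finset.Ico 1 (n + 1), vq α κ m * (NN a (x 0) * vE m x) *
          vY a κ α false (n + 1 - m) (shx m x) + NN a (x 0) * vE (n + 1) x := by
  rw [vY, Finset.sum_Ico_eq_sum_range]
  congr 2
  rw [Fin.sum_univ_eq_sum_range (fun m => vq α κ (m + 1) * (NN a (x 0) * vE (m + 1) x) *
          vY a κ α false (n - m) (shx (m + 1) x)) n]
  have e : n + 1 - 1 = n := by omega
  rw [e]
  refine Finset.sum_congr rfl fun m _ => ?_
  have e2 : n + 1 - (1 + m) = n - m := by omega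
  rw [e2, add_comm 1 m]

private theorem vb4_measurable_shx (m : ℕ) : Measurable (shx m) := by
  unfold shx
  exact measurable_pi_lambda _ fun j => measurable_pi_apply _

private theorem vb4_measurable_NN (a : ℝ) : Measurable (fun x : ℕ → ℝ => NN a (x 0)) := by
  unfold NN
  fun_prop

private theorem vb4_measurable_vK (a κ η : ℝ) : Measurable (fun x : ℕ → ℝ => vK a κ η (x 0)) := by
  have h1 : Measurable (fun y : ℝ => vK a κ η y) := by
    unfold vK vKA vKB
    fun_prop
  exact h1.comp (measurable_pi_apply 0)

private theorem vb4_measurable_vE (m : ℕ) : Measurable (fun x : ℕ → ℝ => vE m x) := by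
  unfold vE
  fun_prop

theorem measurable_vY (a κ α : ℝ) (g : Bool) (n : ℕ) : Measurable (vY a κ α g n) := by
  induction n using Nat.strong_induction_on generalizing g with
  | _ n ih =>
    cases n with
    | zero =>
      have h0 : vY a κ α g 0 = fun _ => 0 := by
        funext x
        rw [vY]
      rw [h0]
      exact measurable_const
    | succ n =>
      have h1 : vY a κ α g (n + 1) = fun x =>
          (if g then vK a κ (1 - α) (x 0) else NN a (x 0)) * vY a κ α true n (shx 1 x) +
          ∑ m ∈ Finset.Ico 1 (n + 1), vq α κ m * (NN a (x 0) * vE m x) *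
          vY a κ α false (n + 1 - m) (shx m x) + NN a (x 0) * vE (n + 1) x := by
        funext x
        exact vY_succ a κ α g n x
      rw [h1]
      have hw : Measurable (fun x : ℕ → ℝ => if g then vK a κ (1 - α) (x 0) else NN a (x 0)) := by
        cases g
        · simpa using vb4_measurable_NN a
        · simpa using vb4_measurable_vK a κ (1 - α)
      refine ((hw.mul ((ih n (by omega) true).comp (vb4_measurable_shx 1))).add
        (Finset.measurable_sum _ fun m hm => ?_)).add
          ((vb4_measurable_NN a).mul (vb4_measurable_vE (n + 1)))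
      rw [Finset.mem_Ico] at hm
      exact (measurable_const.mul ((vb4_measurable_NN a).mul (vb4_measurable_vE m))).mul
        ((ih (n + 1 - m) (by omega) false).comp (vb4_measurable_shx m))

private theorem vb4_NN_ge {a x : ℝ} (ha : 0 ≤ a) : 1 ≤ NN a x := by
  unfold NN
  have h1 : 1 ≤ Real.exp (a / 2) := Real.one_le_exp (by linarith)
  have h2 : (1 : ℝ) ≤ max 1 (Real.exp (-2 * x)) := le_max_left _ _
  nlinarith

private theorem vb4_vE_ge (m : ℕ) (x : ℕ → ℝ) : 1 / 2 ≤ vE m x := by
  unfold vE
  have := Real.exp_pos (-2 * ∑ j ∈ Finset.Ico 1 m, x j)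
  linarith

private theorem vb4_vKA_nonneg (a κ x : ℝ) : 0 ≤ vKA a κ x := by
  unfold vKA
  positivity

private theorem vb4_vKB_nonneg (a κ x : ℝ) : 0 ≤ vKB a κ x := by
  unfold vKB
  positivity

private theorem vb4_vK_nonneg {a κ η x : ℝ} (hη : 0 ≤ η) : 0 ≤ vK a κ η x := by
  unfold vK
  have h1 := vb4_vKA_nonneg a κ x
  have h2 := vb4_vKB_nonneg a κ x
  positivity

private theorem vb4_vq_nonneg {α κ : ℝ} (h1 : α ≤ 1) (hκ : 0 < κ) (m : ℕ) : 0 ≤ vq α κ m := by
  unfold vq
  have h2 : 0 ≤ 1 - α := by linarith
  split_ifs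
  · positivity
  · positivity

private theorem vb4_vY_nonneg {a κ α : ℝ} (ha : 0 ≤ a) (hκ : 0 < κ) (h1 : α < 1) (n : ℕ) :
    ∀ (g : Bool) (x : ℕ → ℝ), 0 ≤ vY a κ α g n x := by
  induction n using Nat.strong_induction_on with
  | _ n ih =>
    intro g x
    cases n with
    | zero => rw [vY]
    | succ n =>
      rw [vY_succ]
      have hN := vb4_NN_ge (x := x 0) ha
      have hE := vb4_vE_ge (n + 1) x
      have hw : 0 ≤ (if g then vK a κ (1 - α) (x 0) else NN a (x 0)) := by
        split_ifs
        · exact vb4_vK_nonneg (by linarith)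
        · linarith
      have t1 := mul_nonneg hw (ih n (by omega) true (shx 1 x))
      have t2 : 0 ≤ ∑ m ∈ Finset.Ico 1 (n + 1), vq α κ m * (NN a (x 0) * vE m x) *
          vY a κ α false (n + 1 - m) (shx m x) := by
        apply Finset.sum_nonneg
        intro m hm
        rw [Finset.mem_Ico] at hm
        have hEm := vb4_vE_ge m x
        exact mul_nonneg (mul_nonneg (vb4_vq_nonneg h1.le hκ m)
          (mul_nonneg (by linarith) (by linarith))) (ih (n + 1 - m) (by omega) false _)
      have t3 : 0 ≤ NN a (x 0) * vE (n + 1) x := mul_nonneg (by linarith) (by linarith)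
      linarith

theorem vY_ge_half {a κ α : ℝ} (ha : 0 ≤ a) (hκ : 0 < κ) (h0 : 0 < α) (h1 : α < 1) (g : Bool)
    {n : ℕ} (hn : 1 ≤ n) (x : ℕ → ℝ) : 1 / 2 ≤ vY a κ α g n x := by
  obtain ⟨n, rfl⟩ : ∃ k, n = k + 1 := ⟨n - 1, by omega⟩
  rw [vY_succ]
  have hN := vb4_NN_ge (x := x 0) ha
  have hE := vb4_vE_ge (n + 1) x
  have hw : 0 ≤ (if g then vK a κ (1 - α) (x 0) else NN a (x 0)) := by
    split_ifs
    · exact vb4_vK_nonneg (by linarith)
    · linarith
  have t1 := mul_nonneg hw (vb4_vY_nonneg ha hκ h1 n true (shx 1 x))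
  have t2 : 0 ≤ ∑ m ∈ Finset.Ico 1 (n + 1), vq α κ m * (NN a (x 0) * vE m x) *
      vY a κ α false (n + 1 - m) (shx m x) := by
    apply Finset.sum_nonneg
    intro m _
    have hEm := vb4_vE_ge m x
    exact mul_nonneg (mul_nonneg (vb4_vq_nonneg h1.le hκ m)
      (mul_nonneg (by linarith) (by linarith))) (vb4_vY_nonneg ha hκ h1 _ false _)
  have t3 : 1 / 2 ≤ NN a (x 0) * vE (n + 1) x := by nlinarith
  linarith

section
variable {α : ℝ} {Ω Ω' : Type} [MeasurableSpace Ω] [MeasurableSpace Ω'] {P : Measure Ω}
  {P' : Measure Ω'} [IsProbabilityMeasure P'] (M : Model α P P')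

/-- the event that the scenario starts with the steps given by `p`, `f` -/
private def vb4E (θ κ : ℝ) (p : ℕ → ℕ) (f : ℕ → Bool) (k : ℕ) : Set Ω' :=
  {ω | ∀ i < k, vStep (M.R ω) θ κ p f i}

omit [IsProbabilityMeasure P'] in
private lemma vb4_measurable_step (θ κ : ℝ) (p : ℕ → ℕ) (f : ℕ → Bool) (i : ℕ) :
    MeasurableSet {ω | vStep (M.R ω) θ κ p f i} := by
  unfold vStep
  by_cases hf : f i = true
  · simp only [hf, if_true]
    exact (M.regen.measurable_nextPt _) measurableSet_Icc
  · simp only [hf, if_false]
    by_cases hp : p (i + 1) ≤ p i + 1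
    · simp only [hp, if_true]
      exact (M.regen.measurable_nextPt _) measurableSet_Ioo
    · simp only [hp, if_false]
      exact (M.regen.measurable_nextPt _) measurableSet_Ico

omit [IsProbabilityMeasure P'] in
private lemma vb4_measurable_E (θ κ : ℝ) (p : ℕ → ℕ) (f : ℕ → Bool) (k : ℕ) :
    MeasurableSet (vb4E M θ κ p f k) := by
  have : vb4E M θ κ p f k = ⋂ i : Fin k, {ω | vStep (M.R ω) θ κ p f i} := by
    ext ω
    simp only [vb4E, Set.mem_ofPred_eq, Set.mem_iInter]
    exact ⟨fun h i => h i i.2, fun h i hi => h ⟨i, hi⟩⟩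
  rw [this]
  exact MeasurableSet.iInter fun i => vb4_measurable_step M θ κ p f i

private lemma vb4_vStep_congr {R : Set ℝ} {θ κ : ℝ} {p q : ℕ → ℕ} {f g : ℕ → Bool} {i : ℕ}
    (h1 : q i = p i) (h2 : q (i + 1) = p (i + 1)) (h3 : g i = f i) (h : vStep R θ κ p f i) :
    vStep R θ κ q g i := by
  unfold vStep at h ⊢
  rw [h1, h2, h3]
  exact h

/-- weight of a step -/
private noncomputable def vb4W (a κ α : ℝ) (x : ℕ → ℝ) (p : ℕ → ℕ) (f : ℕ → Bool) (i : ℕ) : ℝ :=
  if vI f i then vK a κ (1 - α) (x (p i)) else if f i then NN a (x (p i)) else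
    vq α κ (p (i + 1) - p i) * (NN a (x (p i)) * vE (p (i + 1) - p i) (shx (p i) x))

private lemma vb4W_congr {a κ α : ℝ} {x : ℕ → ℝ} {p q : ℕ → ℕ} {f g : ℕ → Bool} {i : ℕ}
    (h1 : q i = p i) (h2 : q (i + 1) = p (i + 1)) (h3 : g i = f i) (h4 : g (i - 1) = f (i - 1)) :
    vb4W a κ α x q g i = vb4W a κ α x p f i := by
  unfold vb4W vI
  rw [h1, h2, h3, h4]

private lemma vb4_prefix (h0 : 1 / 2 ≤ α) (h1 : α < 1) {θ a κ : ℝ} (hθ : 0 < θ) (ha : 0 ≤ a)
    (hκ : 0 < κ) (hκ1 : κ ≤ 1 / 2) {n : ℕ} (x : ℕ → ℝ) :
    ∀ (d : ℕ) (p : ℕ → ℕ) (f : ℕ → Bool) (k : ℕ), p 0 = 0 →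
    (∀ i < k, p i < p (i + 1)) → (∀ i < k, f i = true → p (i + 1) = p i + 1) → p k < n →
    n - p k ≤ d →
    ∫ ω' in vb4E M θ κ p f k, ∏ j ∈ Finset.range n, psi a (M.pp θ j ω') (x j) ∂P' ≤
      (∏ i ∈ Finset.range k, vb4W a κ α x p f i) *
        vY a κ α (decide (k = 0) || f (k - 1)) (n - p k) (shx (p k) x) := by
  have hPP := M.isProbabilityMeasure_P
  intro d
  induction d with
  | zero => intro p f k _ _ _ h3 h4; omega
  | succ d ih =>
    intro p f k hp0 hp hf hpn hd
    set g : Ω' → ℝ := fun ω' => ∏ j ∈ Finset.range n, psi a (M.pp θ j ω') (x j) with hg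
    have hg0 : ∀ ω', 0 ≤ g ω' := fun ω' => Finset.prod_nonneg fun j _ => (uc2_psi_pos _ _ _).le
    have hgi : Integrable g P' := uc2_integrable M hθ ha x
    set W : ℝ := ∏ i ∈ Finset.range k, vb4W a κ α x p f i with hW
    set F : Set Ω' := {ω' | (∀ i < k, vStep (M.R ω') θ κ p f i) ∧
          θ * n ≤ nextPt (M.R ω') (θ * (p k + 1))} with hF
    have hFm : MeasurableSet F :=
      (vb4_measurable_E M θ κ p f k).inter ((M.regen.measurable_nextPt _) measurableSet_Ici)
    -- the continued prefixes
    set q : ℕ → ℕ → ℕ := fun m => Function.update p (k + 1) (p k + m) with hq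
    have hqi : ∀ m i, i ≤ k → q m i = p i := fun m i hi => by
      simp only [hq]
      rw [Function.update_of_ne (by omega)]
    have hqk : ∀ m, q m (k + 1) = p k + m := fun m => by
      simp only [hq]
      rw [Function.update_self]
    set u : Bool → ℕ → Bool := fun b => Function.update f k b with hu
    have hui : ∀ b i, i < k → u b i = f i := fun b i hi => by
      simp only [hu]
      rw [Function.update_of_ne (by omega)]
    have huk : ∀ b, u b k = b := fun b => by
      simp only [hu]
      rw [Function.update_self]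
    have hEm : ∀ b m, MeasurableSet (vb4E M θ κ (q m) (u b) (k + 1)) := fun b m =>
      vb4_measurable_E M θ κ _ _ _
    -- the good step is possible only if `p k + 1 < n`
    set G : Set Ω' := if p k + 1 < n then vb4E M θ κ (q 1) (u true) (k + 1) else ∅ with hG
    have hGm : MeasurableSet G := by
      rw [hG]
      split_ifs
      · exact hEm true 1
      · exact MeasurableSet.empty
    -- pointwise decomposition
    have hpt : ∀ ω', (vb4E M θ κ p f k).indicator g ω' ≤ F.indicator g ω' + G.indicator g ω' +
        ∑ m ∈ Finset.Ico 1 (n - p k), (vb4E M θ κ (q m) (u false) (k + 1)).indicator g ω' := by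
      intro ω'
      have hF0 : 0 ≤ F.indicator g ω' := Set.indicator_nonneg (fun ω _ => hg0 ω) _
      have hG0 : 0 ≤ G.indicator g ω' := Set.indicator_nonneg (fun ω _ => hg0 ω) _
      have hsum0 : 0 ≤ ∑ m ∈ Finset.Ico 1 (n - p k),
          (vb4E M θ κ (q m) (u false) (k + 1)).indicator g ω' :=
        Finset.sum_nonneg fun m _ => Set.indicator_nonneg (fun ω _ => hg0 ω) _
      by_cases hE : ω' ∈ vb4E M θ κ p f k
      swap
      · rw [Set.indicator_of_notMem hE]
        linarith
      rw [Set.indicator_of_mem hE]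
      have hext : ∀ b m, vStep (M.R ω') θ κ (q m) (u b) k →
          ω' ∈ vb4E M θ κ (q m) (u b) (k + 1) := by
        intro b m hs i hi
        rcases Nat.lt_succ_iff_lt_or_eq.1 hi with hi' | rfl
        · exact vb4_vStep_congr (hqi _ i hi'.le) (hqi _ (i + 1) hi') (hui b i hi') (hE i hi')
        · exact hs
      by_cases hD : θ * n ≤ nextPt (M.R ω') (θ * (p k + 1))
      · have hFω : ω' ∈ F := ⟨hE, hD⟩
        rw [Set.indicator_of_mem hFω]
        linarith
      · push Not at hD
        set D := nextPt (M.R ω') (θ * (p k + 1)) with hDdef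
        have hDge : θ * (p k + 1) ≤ D := uc2_le_nextPt (M.regen.unbounded ω') _
        by_cases hgood : D ≤ θ * (p k + 1 + κ)
        · -- good step
          have hlt : p k + 1 < n := by
            have h2 : θ * ((p k : ℝ) + 1) < θ * n := lt_of_le_of_lt hDge hD
            have h3 : (p k : ℝ) + 1 < n := lt_of_mul_lt_mul_left h2 hθ.le
            exact_mod_cast h3
          have hmem : ω' ∈ G := by
            rw [hG, if_pos hlt]
            apply hext
            unfold vStep
            rw [huk, hqi 1 k le_rfl]
            simp only [if_true]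
            rw [← hDdef]
            exact ⟨hDge, hgood⟩
          rw [Set.indicator_of_mem hmem]
          linarith
        · push Not at hgood
          have hD0 : 0 ≤ D / θ := by
            have : 0 ≤ D := le_trans (by positivity) hDge
            positivity
          set c := ⌊D / θ⌋₊ with hc
          have hc1 : (c : ℝ) ≤ D / θ := Nat.floor_le hD0
          have hc2 : D / θ < c + 1 := Nat.lt_floor_add_one _
          rw [le_div_iff₀ hθ] at hc1
          rw [div_lt_iff₀ hθ] at hc2
          have hc3 : p k + 1 ≤ c := by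
            apply Nat.le_floor
            rw [le_div_iff₀ hθ]
            push_cast
            linarith
          have hc4 : c < n := by
            have : (c : ℝ) < n := by
              have : (c : ℝ) * θ < n * θ := by linarith
              exact lt_of_mul_lt_mul_right this hθ.le
            exact_mod_cast this
          have hmem : c - p k ∈ Finset.Ico 1 (n - p k) := by
            rw [Finset.mem_Ico]
            omega
          have e : p k + (c - p k) = c := by omega
          have hωm : ω' ∈ vb4E M θ κ (q (c - p k)) (u false) (k + 1) := by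
            apply hext
            unfold vStep
            rw [huk, hqi _ k le_rfl, hqk, e]
            simp only [Bool.false_eq_true, if_false]
            by_cases hcc : c ≤ p k + 1
            · rw [if_pos hcc]
              have hce : c = p k + 1 := le_antisymm hcc hc3
              rw [← hDdef]
              refine ⟨hgood, ?_⟩
              rw [hce] at hc2
              push_cast at hc2
              linarith
            · rw [if_neg hcc, ← hDdef]
              exact ⟨by linarith, by linarith⟩
          have h2 := Finset.single_le_sum (f := fun m =>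
            (vb4E M θ κ (q m) (u false) (k + 1)).indicator g ω')
            (fun m _ => Set.indicator_nonneg (fun ω _ => hg0 ω) _) hmem
          rw [Set.indicator_of_mem hωm] at h2
          linarith
    -- integrate
    have hint : ∫ ω' in vb4E M θ κ p f k, g ω' ∂P' ≤ ∫ ω' in F, g ω' ∂P' +
        ∫ ω' in G, g ω' ∂P' +
        ∑ m ∈ Finset.Ico 1 (n - p k), ∫ ω' in vb4E M θ κ (q m) (u false) (k + 1), g ω' ∂P' := by
      have e1 : ∫ ω', (F.indicator g ω' + G.indicator g ω' + ∑ m ∈ Finset.Ico 1 (n - p k),
          (vb4E M θ κ (q m) (u false) (k + 1)).indicator g ω') ∂P' =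
          ∫ ω', F.indicator g ω' ∂P' + ∫ ω', G.indicator g ω' ∂P' + ∑ m ∈ Finset.Ico 1 (n - p k),
          ∫ ω', (vb4E M θ κ (q m) (u false) (k + 1)).indicator g ω' ∂P' := by
        rw [integral_add (f := fun ω' => F.indicator g ω' + G.indicator g ω')
          (g := fun ω' => ∑ m ∈ Finset.Ico 1 (n - p k),
            (vb4E M θ κ (q m) (u false) (k + 1)).indicator g ω')
          ((hgi.indicator hFm).add (hgi.indicator hGm))
          (integrable_finsetSum _ fun m _ => hgi.indicator (hEm false m)),
          integral_add (hgi.indicator hFm) (hgi.indicator hGm),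
          integral_finsetSum _ (fun m _ => hgi.indicator (hEm false m))]
      rw [← integral_indicator (vb4_measurable_E M θ κ p f k), ← integral_indicator hFm,
        ← integral_indicator hGm]
      simp_rw [← integral_indicator (hEm _ _)]
      rw [← e1]
      exact integral_mono (hgi.indicator (vb4_measurable_E M θ κ p f k))
        (((hgi.indicator hFm).add (hgi.indicator hGm)).add
          (integrable_finsetSum _ fun m _ => hgi.indicator (hEm false m))) hpt
    have hWq : ∀ b m, ∏ i ∈ Finset.range k, vb4W a κ α x (q m) (u b) i = W := by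
      intro b m
      rw [hW]
      refine Finset.prod_congr rfl fun i hi => ?_
      have hi' := Finset.mem_range.1 hi
      exact vb4W_congr (hqi _ i hi'.le) (hqi _ (i + 1) hi') (hui b i hi') (hui b (i - 1) (by omega))
    -- the last excursion
    have hlast : ∫ ω' in F, g ω' ∂P' ≤
        W * (NN a (x (p k)) * vE (n - p k) (shx (p k) x)) := by
      refine (core_bits M hθ ha hκ hκ1 x p f k hp0 hp hf hpn).trans ?_
      have hr := regen_weight h0 h1 P' M.R M.regen hθ hκ hκ1 p f k hp0 hp hf
        (fun i => vKA a κ (x (p i))) (fun i => vKB a κ (x (p i)))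
        (fun i => vb4_vKA_nonneg _ _ _) (fun i => vb4_vKB_nonneg _ _ _)
      have hE0 : ∀ m y, 0 ≤ vE m y := fun m y => by
        have := vb4_vE_ge m y
        linarith
      have hN0 : ∀ y, 0 ≤ NN a y := fun y => by
        have := vb4_NN_ge (x := y) ha
        linarith
      have hUU : 0 ≤ ∏ i ∈ Finset.range k, (if vI f i then 1 else NN a (x (p i)) *
        (if f i then 1 else vE (p (i + 1) - p i) (shx (p i) x))) := by
        apply Finset.prod_nonneg
        intro i _
        split_ifs
        · exact zero_le_one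
        · exact mul_nonneg (hN0 _) zero_le_one
        · exact mul_nonneg (hN0 _) (hE0 _ _)
      have e1 : W = (∏ i ∈ Finset.range k, (if vI f i then vKA a κ (x (p i)) +
          12 * (1 - α) * vKB a κ (x (p i)) else if f i then 1 else vq α κ (p (i + 1) - p i))) *
          ∏ i ∈ Finset.range k, (if vI f i then 1 else NN a (x (p i)) *
            (if f i then 1 else vE (p (i + 1) - p i) (shx (p i) x))) := by
        rw [hW, ← Finset.prod_mul_distrib]
        refine Finset.prod_congr rfl fun i _ => ?_
        unfold vb4W vK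
        by_cases hv : vI f i = true
        · simp only [hv, if_true, mul_one]
        · rw [if_neg hv, if_neg hv, if_neg hv]
          by_cases hfi : f i = true
          · rw [if_pos hfi, if_pos hfi, if_pos hfi, mul_one, one_mul]
          · rw [if_neg hfi, if_neg hfi, if_neg hfi]
      rw [e1]
      exact mul_le_mul_of_nonneg_right (mul_le_mul_of_nonneg_right hr hUU)
        (mul_nonneg (hN0 _) (hE0 _ _))
    -- the good step
    have hY0 : ∀ b m y, 0 ≤ vY a κ α b m y := fun b m y => vb4_vY_nonneg ha hκ h1 m b y
    have hW0 : 0 ≤ W := by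
      rw [hW]
      apply Finset.prod_nonneg
      intro i _
      unfold vb4W
      have h5 := vb4_NN_ge (x := x (p i)) ha
      have h6 := vb4_vE_ge (p (i + 1) - p i) (shx (p i) x)
      have h7 := vb4_vq_nonneg h1.le hκ (p (i + 1) - p i)
      split_ifs
      · exact vb4_vK_nonneg (by linarith)
      · linarith
      · exact mul_nonneg h7 (mul_nonneg (by linarith) (by linarith))
    set gk : Bool := decide (k = 0) || f (k - 1) with hgk
    have hshx0 : ∀ i, shx i x 0 = x i := fun i => by
      unfold shx
      rw [zero_add]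
    have hgoodI : ∫ ω' in G, g ω' ∂P' ≤ W * ((if gk then vK a κ (1 - α) (shx (p k) x 0) else
        NN a (shx (p k) x 0)) * vY a κ α true (n - p k - 1) (shx 1 (shx (p k) x))) := by
      by_cases hlt : p k + 1 < n
      · rw [hG, if_pos hlt]
        have h3 := ih (q 1) (u true) (k + 1) (by rw [hqi 1 0 (by omega), hp0]) (fun i hi => by
          rcases Nat.lt_succ_iff_lt_or_eq.1 hi with hi' | rfl
          · rw [hqi _ i hi'.le, hqi _ (i + 1) hi']
            exact hp i hi'
          · rw [hqi _ i le_rfl, hqk]
            omega) (fun i hi hfi => by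
          rcases Nat.lt_succ_iff_lt_or_eq.1 hi with hi' | rfl
          · rw [hqi _ i hi'.le, hqi _ (i + 1) hi']
            rw [hui _ i hi'] at hfi
            exact hf i hi' hfi
          · rw [hqi _ i le_rfl, hqk]) (by rw [hqk]; omega) (by rw [hqk]; omega)
        refine h3.trans (le_of_eq ?_)
        rw [Finset.prod_range_succ, hWq, hqk]
        have e0 : (decide (k + 1 = 0) || u true (k + 1 - 1)) = true := by
          rw [Nat.add_sub_cancel, huk]
          simp
        have e2 : n - (p k + 1) = n - p k - 1 := by omega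
        have e3 : vb4W a κ α x (q 1) (u true) k =
            (if gk then vK a κ (1 - α) (shx (p k) x 0) else NN a (shx (p k) x 0)) := by
          unfold vb4W vI
          rw [huk, hqi 1 k le_rfl, hshx0]
          have e4 : (decide (k = 0) || u true (k - 1)) = gk := by
            rw [hgk]
            rcases Nat.eq_zero_or_pos k with hk0 | hk0
            · simp [hk0]
            · rw [hui true (k - 1) (by omega)]
          rw [Bool.true_and, e4]
          simp only [if_true]
        rw [e0, e2, e3, uc2_shx_shx]
        ring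
      · rw [hG, if_neg hlt]
        rw [Measure.restrict_empty, integral_zero_measure]
        apply mul_nonneg hW0
        apply mul_nonneg _ (hY0 _ _ _)
        split_ifs
        · exact vb4_vK_nonneg (by linarith)
        · have := vb4_NN_ge (x := shx (p k) x 0) ha
          linarith
    -- the others
    have hrec : ∀ m ∈ Finset.Ico 1 (n - p k),
        ∫ ω' in vb4E M θ κ (q m) (u false) (k + 1), g ω' ∂P' ≤
        W * (vq α κ m * (NN a (shx (p k) x 0) * vE m (shx (p k) x)) *
          vY a κ α false (n - p k - m) (shx m (shx (p k) x))) := by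
      intro m hm
      rw [Finset.mem_Ico] at hm
      have h3 := ih (q m) (u false) (k + 1) (by rw [hqi m 0 (by omega), hp0]) (fun i hi => by
        rcases Nat.lt_succ_iff_lt_or_eq.1 hi with hi' | rfl
        · rw [hqi _ i hi'.le, hqi _ (i + 1) hi']
          exact hp i hi'
        · rw [hqi _ i le_rfl, hqk]
          omega) (fun i hi hfi => by
        rcases Nat.lt_succ_iff_lt_or_eq.1 hi with hi' | rfl
        · rw [hqi _ i hi'.le, hqi _ (i + 1) hi']
          rw [hui _ i hi'] at hfi
          exact hf i hi' hfi
        · rw [huk] at hfi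
          exact absurd hfi (by simp)) (by rw [hqk]; omega) (by rw [hqk]; omega)
      refine h3.trans (le_of_eq ?_)
      rw [Finset.prod_range_succ, hWq, hqk]
      have e0 : (decide (k + 1 = 0) || u false (k + 1 - 1)) = false := by
        rw [Nat.add_sub_cancel, huk]
        simp
      have e2 : p k + m - p k = m := by omega
      have e3 : n - (p k + m) = n - p k - m := by omega
      have e4 : vb4W a κ α x (q m) (u false) k =
          vq α κ m * (NN a (shx (p k) x 0) * vE m (shx (p k) x)) := by
        unfold vb4W vI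
        rw [huk, hqi m k le_rfl, hqk, e2, hshx0, Bool.false_and]
        simp only [Bool.false_eq_true, if_false]
      rw [e0, e3, e4, uc2_shx_shx]
      ring
    have hn : n - p k = (n - p k - 1) + 1 := by omega
    calc ∫ ω' in vb4E M θ κ p f k, g ω' ∂P'
        ≤ W * (NN a (x (p k)) * vE (n - p k) (shx (p k) x)) +
          W * ((if gk then vK a κ (1 - α) (shx (p k) x 0) else
            NN a (shx (p k) x 0)) * vY a κ α true (n - p k - 1) (shx 1 (shx (p k) x))) +
          ∑ m ∈ Finset.Ico 1 (n - p k),
            W * (vq α κ m * (NN a (shx (p k) x 0) * vE m (shx (p k) x)) *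
              vY a κ α false (n - p k - m) (shx m (shx (p k) x))) :=
          hint.trans (add_le_add (add_le_add hlast hgoodI) (Finset.sum_le_sum hrec))
      _ = W * vY a κ α gk (n - p k) (shx (p k) x) := by
          rw [← Finset.mul_sum, ← hshx0 (p k)]
          rw [hn, vY_succ, Nat.add_sub_cancel]
          ring

theorem partition2 (h0 : 1 / 2 ≤ α) (h1 : α < 1) {θ a κ : ℝ} (hθ : 0 < θ) (ha : 0 ≤ a)
    (hκ : 0 < κ) (hκ1 : κ ≤ 1 / 2) {n : ℕ} (hn : 1 ≤ n) (x : ℕ → ℝ) :
    ∫ ω', ∏ j ∈ Finset.range n, psi a (M.pp θ j ω') (x j) ∂P' ≤ vY a κ α true n x := by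
  have h2 := vb4_prefix M h0 h1 hθ ha hκ hκ1 (n := n) x n (fun _ => 0) (fun _ => true) 0 rfl
    (by simp) (by simp) hn (by simp)
  have h3 : vb4E M θ κ (fun _ => 0) (fun _ => true) 0 = Set.univ := by
    ext ω
    simp [vb4E]
  have h4 : shx 0 x = x := by
    funext j
    simp [shx]
  rw [h3] at h2
  simpa [h4] using h2

end

end Pool.Agent.Lib.MP_3d9a2b_pr
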