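import Pool.Agent.Lib.MP_3d9a2b_pr.V.Part2

set_option autoImplicit false

/-! Task VC2: the recursion for the fractional moments. -/

namespace Pool.Agent.Lib.MP_3d9a2b_pr

open MeasureTheory ProbabilityTheory Filter Topology
open scoped NNReal ENNReal

private theorem rc_zero (a κ α : ℝ) (g : Bool) (x : ℕ → ℝ) : vY a κ α g 0 x = 0 := by
  rw [vY]

private theorem rc_nonneg {a κ α : ℝ} (ha : 0 ≤ a) (hκ : 0 < κ) (h0 : 0 < α) (h1 : α < 1)
    (g : Bool) (n : ℕ) (x : ℕ → ℝ) : 0 ≤ vY a κ α g n x := by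
  rcases Nat.eq_zero_or_pos n with rfl | hn
  · rw [rc_zero]
  · linarith [vY_ge_half ha hκ h0 h1 g hn x]

private theorem rc_vK_nonneg {a κ η x : ℝ} (hη : 0 ≤ η) : 0 ≤ vK a κ η x := by
  unfold vK vKA vKB
  positivity

private theorem rc_vq_nonneg {α κ : ℝ} (hκ : 0 ≤ κ) (h1 : α ≤ 1) (m : ℕ) : 0 ≤ vq α κ m := by
  unfold vq
  have h2 : 0 ≤ 1 - α := sub_nonneg.2 h1
  split_ifs
  · exact mul_nonneg (mul_nonneg (by norm_num) h2) (Real.rpow_nonneg hκ _)
  · exact mul_nonneg h2 (Real.rpow_nonneg (Nat.cast_nonneg _) _)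

/-- weight of the first cell -/
private noncomputable def rcW (a κ α : ℝ) (g : Bool) (y : ℝ) : ℝ :=
  if g then vK a κ (1 - α) y else NN a y

private theorem rc_W_nonneg {a κ α : ℝ} (ha : 0 ≤ a) (h1 : α ≤ 1) (g : Bool) (y : ℝ) :
    0 ≤ rcW a κ α g y := by
  unfold rcW
  split_ifs
  · exact rc_vK_nonneg (sub_nonneg.2 h1)
  · linarith [NN_ge_one (x := y) ha]

private theorem rc_vE_nonneg (m : ℕ) (x : ℕ → ℝ) : 0 ≤ vE m x := by
  unfold vE
  positivity

private theorem rc_path {a κ α ζ : ℝ} (ha : 0 < a) (hκ : 0 < κ) (h0 : 1 / 2 ≤ α) (h1 : α < 1)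
    (hζ0 : 0 < ζ) (hζ1 : ζ ≤ 1) (g : Bool) (n : ℕ) (x : ℕ → ℝ) :
    ENNReal.ofReal ((vY a κ α g (n + 1) x) ^ ζ) ≤
      ENNReal.ofReal ((rcW a κ α g (x 0)) ^ ζ) * ENNReal.ofReal ((vY a κ α true n (shx 1 x)) ^ ζ)
      + ∑ m ∈ Finset.Ico 1 (n + 1), ENNReal.ofReal ((vq α κ m) ^ ζ) *
        (ENNReal.ofReal ((NN a (x 0) * vE m x) ^ ζ) *
          ENNReal.ofReal ((vY a κ α false (n + 1 - m) (shx m x)) ^ ζ))
      + ENNReal.ofReal ((NN a (x 0) * vE (n + 1) x) ^ ζ) := by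
  have hN : 0 ≤ NN a (x 0) := by linarith [NN_ge_one (x := x 0) ha.le]
  have hE : ∀ m, 0 ≤ vE m x := fun m => rc_vE_nonneg m x
  have hY : ∀ g n y, 0 ≤ vY a κ α g n y := fun g n y =>
    rc_nonneg ha.le hκ (by linarith) h1 g n y
  have hW : 0 ≤ rcW a κ α g (x 0) := rc_W_nonneg ha.le h1.le g _
  have hq : ∀ m, 0 ≤ vq α κ m := fun m => rc_vq_nonneg hκ.le h1.le m
  have e : ∀ {y : ℝ}, 0 ≤ y → ENNReal.ofReal (y ^ ζ) = (ENNReal.ofReal y) ^ ζ := fun hy =>
    (ENNReal.ofReal_rpow_of_nonneg hy hζ0.le).symm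
  have e2 : ∀ m ∈ Finset.Ico 1 (n + 1), ENNReal.ofReal ((vq α κ m) ^ ζ) *
        (ENNReal.ofReal ((NN a (x 0) * vE m x) ^ ζ) *
          ENNReal.ofReal ((vY a κ α false (n + 1 - m) (shx m x)) ^ ζ)) =
      (ENNReal.ofReal (vq α κ m * (NN a (x 0) * vE m x) *
        vY a κ α false (n + 1 - m) (shx m x))) ^ ζ := by
    intro m _
    rw [e (hq m), e (mul_nonneg hN (hE m)), e (hY _ _ _),
      ENNReal.ofReal_mul (mul_nonneg (hq m) (mul_nonneg hN (hE m))), ENNReal.ofReal_mul (hq m),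
      ENNReal.mul_rpow_of_nonneg _ _ hζ0.le, ENNReal.mul_rpow_of_nonneg _ _ hζ0.le, mul_assoc]
  rw [Finset.sum_congr rfl e2, e (hY _ _ _), e hW, e (hY _ _ _), e (mul_nonneg hN (hE _)),
    ← ENNReal.mul_rpow_of_nonneg _ _ hζ0.le, ← ENNReal.ofReal_mul hW]
  have hs : vY a κ α g (n + 1) x = rcW a κ α g (x 0) * vY a κ α true n (shx 1 x) +
      ∑ m ∈ Finset.Ico 1 (n + 1), vq α κ m * (NN a (x 0) * vE m x) *
          vY a κ α false (n + 1 - m) (shx m x) + NN a (x 0) * vE (n + 1) x :=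
    vY_succ a κ α g n x
  have hterm : ∀ m ∈ Finset.Ico 1 (n + 1), 0 ≤ vq α κ m * (NN a (x 0) * vE m x) *
          vY a κ α false (n + 1 - m) (shx m x) := fun m _ =>
    mul_nonneg (mul_nonneg (hq m) (mul_nonneg hN (hE m))) (hY _ _ _)
  rw [hs, ENNReal.ofReal_add (add_nonneg (mul_nonneg hW (hY _ _ _))
    (Finset.sum_nonneg hterm)) (mul_nonneg hN (hE _)),
    ENNReal.ofReal_add (mul_nonneg hW (hY _ _ _)) (Finset.sum_nonneg hterm),
    ENNReal.ofReal_sum_of_nonneg hterm]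
  exact (ENNReal.rpow_add_le_add_rpow _ _ hζ0.le hζ1).trans (add_le_add
    ((ENNReal.rpow_add_le_add_rpow _ _ hζ0.le hζ1).trans (add_le_add le_rfl
      (ue_rpow_sum_le _ _ hζ0 hζ1))) le_rfl)

private theorem rc_meas_W (a κ α : ℝ) (g : Bool) : Measurable (rcW a κ α g) := by
  unfold rcW
  cases g
  · simp only [Bool.false_eq_true, if_false]
    unfold NN
    fun_prop
  · simp only [if_true]
    unfold vK vKA vKB
    fun_prop

private theorem rc_meas_NE (a : ℝ) (m : ℕ) : Measurable (fun x : ℕ → ℝ => NN a (x 0) * vE m x) := by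
  unfold NN vE
  fun_prop

private theorem rc_marg (a B : ℝ) {f : ℝ → ℝ≥0∞} (hf : Measurable f) :
    ∫⁻ x, f (x 0) ∂nuX a B = ∫⁻ y, f y ∂gaussianReal (B * a) a.toNNReal := by
  unfold nuX
  exact (measurePreserving_eval_infinitePi
    (fun _ : ℕ => gaussianReal (B * a) a.toNNReal) 0).lintegral_comp hf

private theorem rc_int {a κ α B ζ : ℝ} (ha : 0 < a) (hκ : 0 < κ) (h0 : 1 / 2 ≤ α) (h1 : α < 1)
    (hζ0 : 0 < ζ) (hζ1 : ζ ≤ 1) (g : Bool) (n : ℕ) :
    ∫⁻ x, ENNReal.ofReal ((vY a κ α g (n + 1) x) ^ ζ) ∂nuX a B ≤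
      (∫⁻ y, ENNReal.ofReal ((rcW a κ α g y) ^ ζ) ∂gaussianReal (B * a) a.toNNReal) *
        (∫⁻ x, ENNReal.ofReal ((vY a κ α true n x) ^ ζ) ∂nuX a B)
      + ∑ m ∈ Finset.Ico 1 (n + 1), ENNReal.ofReal ((vq α κ m) ^ ζ) *
        ((∫⁻ x, ENNReal.ofReal ((NN a (x 0) * vE m x) ^ ζ) ∂nuX a B) *
          (∫⁻ x, ENNReal.ofReal ((vY a κ α false (n + 1 - m) x) ^ ζ) ∂nuX a B))
      + ∫⁻ x, ENNReal.ofReal ((NN a (x 0) * vE (n + 1) x) ^ ζ) ∂nuX a B := by
  have mW : Measurable (fun y : ℝ => ENNReal.ofReal ((rcW a κ α g y) ^ ζ)) :=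
    ENNReal.measurable_ofReal.comp ((rc_meas_W a κ α g).pow_const ζ)
  have mW0 : Measurable (fun x : ℕ → ℝ => ENNReal.ofReal ((rcW a κ α g (x 0)) ^ ζ)) :=
    mW.comp (measurable_pi_apply 0)
  have mE : ∀ m, Measurable (fun x : ℕ → ℝ => ENNReal.ofReal ((NN a (x 0) * vE m x) ^ ζ)) :=
    fun m => ENNReal.measurable_ofReal.comp ((rc_meas_NE a m).pow_const ζ)
  have mY : ∀ g n, Measurable (fun x => ENNReal.ofReal ((vY a κ α g n x) ^ ζ)) := fun g n =>
    ENNReal.measurable_ofReal.comp ((measurable_vY a κ α g n).pow_const ζ)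
  have mS := ue_measurable_shx
  have mEY : ∀ m, Measurable (fun x => ENNReal.ofReal ((NN a (x 0) * vE m x) ^ ζ) *
          ENNReal.ofReal ((vY a κ α false (n + 1 - m) (shx m x)) ^ ζ)) := fun m =>
    (mE m).mul ((mY false (n + 1 - m)).comp (mS m))
  have mWY : Measurable (fun x : ℕ → ℝ => ENNReal.ofReal ((rcW a κ α g (x 0)) ^ ζ) *
      ENNReal.ofReal ((vY a κ α true n (shx 1 x)) ^ ζ)) := mW0.mul ((mY true n).comp (mS 1))
  refine (lintegral_mono (rc_path ha hκ h0 h1 hζ0 hζ1 g n)).trans ?_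
  rw [lintegral_add_right _ (mE (n + 1)), lintegral_add_left mWY,
    lintegral_finsetSum _ (fun m _ => (mEY m).const_mul _)]
  refine add_le_add (add_le_add ?_ ?_) le_rfl
  · have h2 := ue_lintegral_split (gaussianReal (B * a) a.toNNReal) 1 mW0 (mY true n)
      (fun x y h => by
        show ENNReal.ofReal ((rcW a κ α g (x 0)) ^ ζ) = ENNReal.ofReal ((rcW a κ α g (y 0)) ^ ζ)
        rw [h 0 one_pos])
    have h3 := rc_marg a B mW
    unfold nuX at h3 ⊢
    rw [← h3]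
    exact h2.le
  · refine Finset.sum_le_sum fun m hm => ?_
    rw [Finset.mem_Ico] at hm
    rw [lintegral_const_mul _ (mEY m)]
    have h2 := ue_lintegral_split (gaussianReal (B * a) a.toNNReal) m (mE m)
      (mY false (n + 1 - m)) (fun x y h => by
        show ENNReal.ofReal ((NN a (x 0) * vE m x) ^ ζ) =
          ENNReal.ofReal ((NN a (y 0) * vE m y) ^ ζ)
        have e1 : vE m x = vE m y := by
          unfold vE
          rw [Finset.sum_congr rfl fun j hj => h j (Finset.mem_Ico.1 hj).2]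
        rw [h 0 (by omega), e1])
    gcongr
    unfold nuX
    exact h2.le

/-- Strong induction on `n` of the two bounds `≤ 2 C₄ / ε` (`g = true`) and
`≤ 2 C₄ (2 C₄ / ε + 1)` (`g = false`), with `(∑ a)^ζ ≤ ∑ a^ζ` and independence. -/
theorem frac_rec2 {a κ α B ζ ρ C₄ S ε : ℝ} (ha : 0 < a) (h0 : 1 / 2 ≤ α) (h1 : α < 1)
    (hκ : 0 < κ) (hζ0 : 0 < ζ) (hζ1 : ζ ≤ 1) (hρ : 0 ≤ ρ) (hC : 1 ≤ C₄) (hS0 : 0 ≤ S)
    (hS : S ≤ 1 / 2) (hε : 0 < ε)
    (h4 : ∀ m : ℕ, ∫⁻ x, ENNReal.ofReal ((NN a (x 0) * vE m x) ^ ζ) ∂nuX a B ≤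
      ENNReal.ofReal C₄)
    (hK : ∫⁻ y, ENNReal.ofReal ((vK a κ (1 - α) y) ^ ζ) ∂gaussianReal (B * a) a.toNNReal ≤
      ENNReal.ofReal ρ)
    (hq : ∀ n : ℕ, ∑ m ∈ Finset.Ico 1 n, (vq α κ m) ^ ζ * C₄ ≤ S)
    (hsum : ρ + 2 * C₄ * S + ε ≤ 1) (n : ℕ) :
    ∫⁻ x, ENNReal.ofReal ((vY a κ α true n x) ^ ζ) ∂nuX a B ≤ ENNReal.ofReal (2 * C₄ / ε) := by
  have hC0 : 0 ≤ C₄ := by linarith
  obtain ⟨A, hA⟩ : ∃ A : ℝ, A = 2 * C₄ / ε := ⟨_, rfl⟩
  have hA0 : 0 ≤ A := by rw [hA]; positivity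
  have hεA : ε * A = 2 * C₄ := by rw [hA]; field_simp
  obtain ⟨D, hD⟩ : ∃ D : ℝ, D = 2 * C₄ * (A + 1) := ⟨_, rfl⟩
  have hD0 : 0 ≤ D := by rw [hD]; positivity
  have hNmarg : ∫⁻ y, ENNReal.ofReal ((NN a y) ^ ζ) ∂gaussianReal (B * a) a.toNNReal ≤
      ENNReal.ofReal C₄ := by
    have h5 := rc_marg a B (f := fun y => ENNReal.ofReal ((NN a y) ^ ζ))
      (ENNReal.measurable_ofReal.comp ((rc_meas_W a κ α false).pow_const ζ))
    rw [← h5]
    refine le_trans (le_of_eq (lintegral_congr fun x => ?_)) (h4 1)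
    have : vE 1 x = 1 := by
      unfold vE
      simp
    rw [this, mul_one]
  have main : ∀ n : ℕ,
      ∫⁻ x, ENNReal.ofReal ((vY a κ α true n x) ^ ζ) ∂nuX a B ≤ ENNReal.ofReal A ∧
      ∫⁻ x, ENNReal.ofReal ((vY a κ α false n x) ^ ζ) ∂nuX a B ≤ ENNReal.ofReal D := by
    intro n
    induction n using Nat.strong_induction_on with
    | _ n ih =>
      rcases Nat.eq_zero_or_pos n with rfl | hn
      · simp only [rc_zero, Real.zero_rpow hζ0.ne', ENNReal.ofReal_zero, lintegral_const,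
          zero_mul]
        exact ⟨zero_le, zero_le⟩
      · obtain ⟨k, rfl⟩ : ∃ k, n = k + 1 := ⟨n - 1, by omega⟩
        have hT := (ih k (by omega)).1
        have hF : ∀ m ∈ Finset.Ico 1 (k + 1),
            ∫⁻ x, ENNReal.ofReal ((vY a κ α false (k + 1 - m) x) ^ ζ) ∂nuX a B ≤
              ENNReal.ofReal D := by
          intro m hm
          rw [Finset.mem_Ico] at hm
          exact (ih (k + 1 - m) (by omega)).2
        have hq0 : ∀ m, 0 ≤ (vq α κ m) ^ ζ := fun m =>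
          Real.rpow_nonneg (rc_vq_nonneg hκ.le h1.le m) ζ
        have hmid : ∑ m ∈ Finset.Ico 1 (k + 1), ENNReal.ofReal ((vq α κ m) ^ ζ) *
            ((∫⁻ x, ENNReal.ofReal ((NN a (x 0) * vE m x) ^ ζ) ∂nuX a B) *
              (∫⁻ x, ENNReal.ofReal ((vY a κ α false (k + 1 - m) x) ^ ζ) ∂nuX a B)) ≤
            ENNReal.ofReal (S * D) := by
          calc _ ≤ ∑ m ∈ Finset.Ico 1 (k + 1), ENNReal.ofReal ((vq α κ m) ^ ζ) *
                (ENNReal.ofReal C₄ * ENNReal.ofReal D) := by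
                refine Finset.sum_le_sum fun m hm => ?_
                gcongr
                · exact h4 m
                · exact hF m hm
            _ = ∑ m ∈ Finset.Ico 1 (k + 1), ENNReal.ofReal ((vq α κ m) ^ ζ * C₄ * D) := by
                refine Finset.sum_congr rfl fun m _ => ?_
                rw [← mul_assoc, ← ENNReal.ofReal_mul (hq0 m),
                  ← ENNReal.ofReal_mul (mul_nonneg (hq0 m) hC0)]
            _ = ENNReal.ofReal ((∑ m ∈ Finset.Ico 1 (k + 1), (vq α κ m) ^ ζ * C₄) * D) := by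
                rw [← ENNReal.ofReal_sum_of_nonneg
                  (fun m _ => mul_nonneg (mul_nonneg (hq0 m) hC0) hD0), Finset.sum_mul]
            _ ≤ ENNReal.ofReal (S * D) :=
                ENNReal.ofReal_le_ofReal (mul_le_mul_of_nonneg_right (hq (k + 1)) hD0)
        constructor
        · refine (rc_int ha hκ h0 h1 hζ0 hζ1 true k).trans ?_
          have hW : ∫⁻ y, ENNReal.ofReal ((rcW a κ α true y) ^ ζ)
              ∂gaussianReal (B * a) a.toNNReal ≤ ENNReal.ofReal ρ := hK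
          refine (add_le_add (add_le_add (mul_le_mul' hW hT) hmid) (h4 (k + 1))).trans ?_
          rw [← ENNReal.ofReal_mul hρ, ← ENNReal.ofReal_add (by positivity) (by positivity),
            ← ENNReal.ofReal_add (by positivity) hC0]
          apply ENNReal.ofReal_le_ofReal
          have h5 : (ρ + 2 * C₄ * S + ε) * A ≤ 1 * A := mul_le_mul_of_nonneg_right hsum hA0
          have h6 : 2 * C₄ * S ≤ 2 * C₄ * (1 / 2) :=
            mul_le_mul_of_nonneg_left hS (by positivity)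
          have h7 : ρ * A + S * D + C₄ = (ρ + 2 * C₄ * S + ε) * A - ε * A + 2 * C₄ * S + C₄ := by
            rw [hD]; ring
          rw [h7, hεA]
          linarith
        · refine (rc_int ha hκ h0 h1 hζ0 hζ1 false k).trans ?_
          have hW : ∫⁻ y, ENNReal.ofReal ((rcW a κ α false y) ^ ζ)
              ∂gaussianReal (B * a) a.toNNReal ≤ ENNReal.ofReal C₄ := hNmarg
          refine (add_le_add (add_le_add (mul_le_mul' hW hT) hmid) (h4 (k + 1))).trans ?_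
          rw [← ENNReal.ofReal_mul hC0, ← ENNReal.ofReal_add (by positivity) (by positivity),
            ← ENNReal.ofReal_add (by positivity) hC0]
          apply ENNReal.ofReal_le_ofReal
          have h5 : S * D ≤ 1 / 2 * D := mul_le_mul_of_nonneg_right hS hD0
          have h6 : C₄ * A + 1 / 2 * D + C₄ = D := by
            rw [hD]; ring
          linarith
  have := (main n).1
  rw [hA] at this
  exact this

end Pool.Agent.Lib.MP_3d9a2b_pr
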