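import Pool.Agent.Lib.MP_3d9a2b_pr.V.Markov
import Pool.Agent.Lib.MP_3d9a2b_pr.V.Rho

set_option autoImplicit false

/-! Task VD1: lower bound for the probability of a scenario. -/

namespace Pool.Agent.Lib.MP_3d9a2b_pr

open MeasureTheory ProbabilityTheory Filter Topology
open scoped NNReal ENNReal

/-- a scenario of the lower bound (this is `Model.ER`) -/
def ERs {Ω' : Type} (R : Ω' → Set ℝ) (θ : ℝ) (p : ℕ → ℕ) (k : ℕ) : Set Ω' :=
  {ω | ∀ i < k, nextPt (R ω) (θ * (p i + 1)) ∈ Set.Ioc (θ * p (i + 1)) (θ * (p (i + 1) + 1 / 2))}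

section
variable {α : ℝ} {Ω' : Type} [MeasurableSpace Ω'] {P' : Measure Ω'} [IsProbabilityMeasure P']
  {R : Ω' → Set ℝ}

private theorem vd1_step (h0 : 1 / 2 ≤ α) (h1 : α < 1) {θ u : ℝ} (hθ : 0 < θ) (hu : θ / 2 ≤ u)
    (huθ : u ≤ θ) {q q' : ℕ} (hq : q < q') :
    ENNReal.ofReal (if q' = q + 1 then 1 - 5 * (1 - α)
      else (1 - α) / 8 * (((q' - q : ℕ) : ℝ) ^ 2)⁻¹) ≤
    ∫⁻ v in Set.Ioi (0 : ℝ), (Set.Ioc (θ * q') (θ * (q' + 1 / 2))).indicator
      (fun _ => (1 : ℝ≥0∞)) (θ * (q + 1) + v) * ENNReal.ofReal (rho α u v) := by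
  obtain ⟨l, hl⟩ : ∃ l, q' = q + l := ⟨q' - q, by omega⟩
  have hl1 : 1 ≤ l := by omega
  have hcast : (q' : ℝ) = q + l := by rw [hl]; push_cast; ring
  have hl1' : (1 : ℝ) ≤ l := by exact_mod_cast hl1
  have hkey : ∫⁻ v in Set.Ioc (θ * (l - 1)) (θ * (l - 1 / 2)), ENNReal.ofReal (rho α u v) ≤
      ∫⁻ v in Set.Ioi (0 : ℝ), (Set.Ioc (θ * q') (θ * (q' + 1 / 2))).indicator
      (fun _ => (1 : ℝ≥0∞)) (θ * (q + 1) + v) * ENNReal.ofReal (rho α u v) := by
    rw [← lintegral_indicator measurableSet_Ioc, ← lintegral_indicator measurableSet_Ioi]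
    refine lintegral_mono fun v => ?_
    by_cases hv : v ∈ Set.Ioc (θ * ((l : ℝ) - 1)) (θ * (l - 1 / 2))
    · have hv0 : v ∈ Set.Ioi (0 : ℝ) := by
        have : 0 ≤ θ * ((l : ℝ) - 1) := mul_nonneg hθ.le (by linarith)
        exact lt_of_le_of_lt this hv.1
      have hv1 : θ * (q + 1) + v ∈ Set.Ioc (θ * (q' : ℝ)) (θ * (q' + 1 / 2)) := by
        rw [hcast]
        constructor
        · nlinarith [hv.1]
        · nlinarith [hv.2]
      rw [Set.indicator_of_mem hv, Set.indicator_of_mem hv0, Set.indicator_of_mem hv1, one_mul]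
    · rw [Set.indicator_of_notMem hv]
      exact zero_le
  refine le_trans ?_ hkey
  split_ifs with h
  · have hl' : l = 1 := by omega
    subst hl'
    have h2 := rho_low_one (θ := θ) (u := u) h0 h1 hθ (by linarith) huθ
    have h3 : θ * (((1 : ℕ) : ℝ) - 1) = 0 := by push_cast; ring
    have h4 : θ * (((1 : ℕ) : ℝ) - 1 / 2) = θ / 2 := by push_cast; ring
    rw [h3, h4]
    exact h2
  · have h2 := rho_low (θ := θ) (u := u) (l := l) h0 h1 hθ hu huθ (by omega)
    have h3 : q' - q = l := by omega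
    rw [h3]
    exact h2

private theorem vd1_mono {p : ℕ → ℕ} {k : ℕ} (hp : ∀ i < k, p i < p (i + 1)) :
    ∀ i j, i ≤ j → j ≤ k → p i ≤ p j := by
  intro i j hij
  induction j, hij using Nat.le_induction with
  | base => intro _; exact le_rfl
  | succ j _ ih =>
    intro hj
    exact (ih (by omega)).trans (hp j (by omega)).le

private theorem vd1_ER_meas {θ : ℝ} (hθ : 0 < θ) (p : ℕ → ℕ) (m : ℕ)
    (hp : ∀ i < m, p i < p (i + 1)) :
    MeasurableSet[past R (θ * (p m + 1))] (ERs R θ p (m + 1)) := by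
  have h1 : ERs R θ p (m + 1) = ⋂ i : Fin (m + 1), {ω | nextPt (R ω) (θ * (p i + 1)) ∈
      Set.Ioc (θ * p (i + 1)) (θ * (p (i + 1) + 1 / 2))} := by
    ext ω
    simp only [ERs, Set.mem_ofPred_eq, Set.mem_iInter]
    exact ⟨fun h i => h i i.2, fun h i hi => h ⟨i, hi⟩⟩
  rw [h1]
  refine MeasurableSet.iInter fun i => ?_
  have hi : (i : ℕ) ≤ m := by omega
  have h2 : (p i : ℝ) ≤ p m := by exact_mod_cast vd1_mono hp i m hi le_rfl
  exact (measurable_nextPt_past R (r := θ * (p i + 1)) (t := θ * (p m + 1)) (by positivity)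
    (mul_le_mul_of_nonneg_left (by linarith) hθ.le)) measurableSet_Ioc

private theorem vd1_main (h0 : 4 / 5 ≤ α) (h1 : α < 1) (hR : IsStableRegenerative α R P') {θ : ℝ}
    (hθ : 0 < θ) (p : ℕ → ℕ) (k : ℕ) (hp0 : p 0 = 0) (hp : ∀ i < k, p i < p (i + 1)) :
    ∏ i ∈ Finset.range k, ENNReal.ofReal (if p (i + 1) = p i + 1 then 1 - 5 * (1 - α)
      else (1 - α) / 8 * (((p (i + 1) - p i : ℕ) : ℝ) ^ 2)⁻¹) ≤ P' (ERs R θ p k) := by
  induction k with
  | zero =>
    have : ERs R θ p 0 = Set.univ := by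
      ext ω
      simp [ERs]
    rw [this]
    simp
  | succ k ih =>
    have ih' := ih fun i hi => hp i (by omega)
    rw [Finset.prod_range_succ]
    obtain ⟨c, hc⟩ : ∃ c : ℝ≥0∞, c = ENNReal.ofReal (if p (k + 1) = p k + 1 then 1 - 5 * (1 - α)
      else (1 - α) / 8 * (((p (k + 1) - p k : ℕ) : ℝ) ^ 2)⁻¹) := ⟨_, rfl⟩
    rw [← hc]
    have hFm : Measurable ((Set.Ioc (θ * (p (k + 1) : ℝ)) (θ * (p (k + 1) + 1 / 2))).indicator
        (fun _ => (1 : ℝ≥0∞))) := measurable_const.indicator measurableSet_Ioc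
    rcases Nat.eq_zero_or_pos k with rfl | hk
    · simp only [Finset.range_zero, Finset.prod_empty, one_mul]
      have hθ1 : 0 < θ * ((p 0 : ℝ) + 1) := by positivity
      have h2 := law_D (by linarith) h1 hR hθ1 _ hFm
      have h3 := vd1_step (α := α) (θ := θ) (u := θ) (q := p 0) (q' := p 1) (by linarith) h1 hθ
        (by linarith) le_rfl (hp 0 (by omega))
      have h4 : θ * ((p 0 : ℝ) + 1) = θ := by rw [hp0]; push_cast; ring
      rw [h4] at h2 h3
      rw [hc]
      refine (h3.trans h2.symm.le).trans ?_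
      rw [← lintegral_indicator_one₀]
      · refine lintegral_mono fun ω => ?_
        by_cases hω : nextPt (R ω) θ ∈ Set.Ioc (θ * (p (0 + 1) : ℝ)) (θ * (p (0 + 1) + 1 / 2))
        · rw [Set.indicator_of_mem hω, Set.indicator_of_mem]
          · rfl
          · intro i hi
            have hi0 : i = 0 := by omega
            subst hi0
            rw [h4]
            exact hω
        · rw [Set.indicator_of_notMem hω]
          exact zero_le
      · exact (past_le hR _ _ (vd1_ER_meas hθ p 0 (fun i hi => by omega))).nullMeasurableSet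
    · obtain ⟨m, rfl⟩ : ∃ m, k = m + 1 := ⟨k - 1, by omega⟩
      have hpm := hp m (by omega)
      have hpm' : (p m : ℝ) < p (m + 1) := by exact_mod_cast hpm
      have hE := vd1_ER_meas (R := R) hθ p m (fun i hi => hp i (by omega))
      have hEm : MeasurableSet (ERs R θ p (m + 1)) := past_le hR _ _ hE
      have h2 := markov (by linarith) h1 hR (t := θ * (p m + 1)) (w := θ * (p (m + 1) + 1))
        (by positivity) (mul_lt_mul_of_pos_left (by linarith) hθ)
        ((ERs R θ p (m + 1)).indicator (fun _ => (1 : ℝ≥0∞)))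
        ((@measurable_const _ _ _ (past R (θ * (p m + 1))) _).indicator hE) _ hFm
      have hlast : ∀ ω ∈ ERs R θ p (m + 1), nextPt (R ω) (θ * (p m + 1)) ∈
          Set.Ioc (θ * (p (m + 1) : ℝ)) (θ * (p (m + 1) + 1 / 2)) := fun ω hω => hω m (by omega)
      have hlt : ∀ ω ∈ ERs R θ p (m + 1), nextPt (R ω) (θ * (p m + 1)) <
          θ * ((p (m + 1) : ℝ) + 1) := fun ω hω => by
        have := (hlast ω hω).2
        nlinarith
      have hlow : c * P' (ERs R θ p (m + 1)) ≤ ∫⁻ ω, (if nextPt (R ω) (θ * (p m + 1)) <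
          θ * (p (m + 1) + 1) then (ERs R θ p (m + 1)).indicator (fun _ => (1 : ℝ≥0∞)) ω *
          ∫⁻ v in Set.Ioi (0 : ℝ), (Set.Ioc (θ * (p (m + 1 + 1) : ℝ))
            (θ * (p (m + 1 + 1) + 1 / 2))).indicator (fun _ => (1 : ℝ≥0∞))
            (θ * (p (m + 1) + 1) + v) *
            ENNReal.ofReal (rho α (θ * (p (m + 1) + 1) - nextPt (R ω) (θ * (p m + 1))) v)
          else 0) ∂P' := by
        rw [← lintegral_indicator_one hEm, ← lintegral_const_mul _ (measurable_one.indicator hEm)]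
        refine lintegral_mono fun ω => ?_
        by_cases hω : ω ∈ ERs R θ p (m + 1)
        · simp only [Set.indicator_of_mem hω, if_pos (hlt ω hω), Pi.one_apply, mul_one, one_mul]
          rw [hc]
          have h5 := hlast ω hω
          exact vd1_step (by linarith) h1 hθ (by nlinarith [h5.2]) (by nlinarith [h5.1])
            (hp (m + 1) (by omega))
        · simp only [Set.indicator_of_notMem hω, mul_zero]
          exact zero_le
      have hup : ∫⁻ ω, (if nextPt (R ω) (θ * (p m + 1)) < θ * (p (m + 1) + 1) then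
          (ERs R θ p (m + 1)).indicator (fun _ => (1 : ℝ≥0∞)) ω *
          (Set.Ioc (θ * (p (m + 1 + 1) : ℝ)) (θ * (p (m + 1 + 1) + 1 / 2))).indicator
            (fun _ => (1 : ℝ≥0∞)) (nextPt (R ω) (θ * (p (m + 1) + 1))) else 0) ∂P' ≤
          P' (ERs R θ p (m + 1 + 1)) := by
        have hE2 : MeasurableSet (ERs R θ p (m + 1 + 1)) :=
          past_le hR _ _ (vd1_ER_meas hθ p (m + 1) (fun i hi => hp i (by omega)))
        rw [← lintegral_indicator_one hE2]
        refine lintegral_mono fun ω => ?_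
        split_ifs with h6
        · by_cases hω : ω ∈ ERs R θ p (m + 1)
          · by_cases hω2 : nextPt (R ω) (θ * (p (m + 1) + 1)) ∈
              Set.Ioc (θ * (p (m + 1 + 1) : ℝ)) (θ * (p (m + 1 + 1) + 1 / 2))
            · rw [Set.indicator_of_mem hω, Set.indicator_of_mem hω2, Set.indicator_of_mem]
              · simp
              · intro i hi
                rcases Nat.lt_succ_iff_lt_or_eq.1 hi with hi' | rfl
                · exact hω i hi'
                · exact hω2
            · rw [Set.indicator_of_notMem hω2, mul_zero]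
              exact zero_le
          · rw [Set.indicator_of_notMem hω, zero_mul]
            exact zero_le
        · exact zero_le
      calc _ ≤ P' (ERs R θ p (m + 1)) * c := mul_le_mul_left ih' c
        _ = c * P' (ERs R θ p (m + 1)) := mul_comm _ _
        _ ≤ _ := (hlow.trans h2.symm.le).trans hup

/-- VD1. Induction on `k` with `markov` and `rho_low_one`, `rho_low`. -/
theorem regen_lower2 (h0 : 4 / 5 ≤ α) (h1 : α < 1) (hR : IsStableRegenerative α R P') {θ : ℝ}
    (hθ : 0 < θ) (p : ℕ → ℕ) (k : ℕ) (hp0 : p 0 = 0) (hp : ∀ i < k, p i < p (i + 1)) :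
    ∏ i ∈ Finset.range k, (if p (i + 1) = p i + 1 then 1 - 5 * (1 - α)
      else (1 - α) / 8 * (((p (i + 1) - p i : ℕ) : ℝ) ^ 2)⁻¹) ≤ P'.real (ERs R θ p k) := by
  have h2 := vd1_main h0 h1 hR hθ p k hp0 hp
  have hnn : ∀ i ∈ Finset.range k, 0 ≤ (if p (i + 1) = p i + 1 then 1 - 5 * (1 - α)
      else (1 - α) / 8 * (((p (i + 1) - p i : ℕ) : ℝ) ^ 2)⁻¹) := by
    intro i _
    split_ifs
    · linarith
    · have : 0 ≤ 1 - α := by linarith
      positivity
  rw [← ENNReal.ofReal_prod_of_nonneg hnn] at h2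
  rw [measureReal_def]
  exact (ENNReal.ofReal_le_iff_le_toReal (measure_ne_top _ _)).1 h2

private theorem vd1_future (h0 : 1 / 2 ≤ α) (h1 : α < 1) (hR : IsStableRegenerative α R P') {θ : ℝ}
    (hθ : 0 < θ) (p : ℕ → ℕ) (k : ℕ) (hp : ∀ i < k, p i < p (i + 1)) (d : ℕ) :
    ∀ i : ℕ, 0 < i → i + d = k → ∃ H : ℝ → ℝ≥0∞, Measurable H ∧ (∀ z, H z ≤ 1) ∧
      (∀ z ∈ Set.Ioc (θ * p i) (θ * (p i + 1 / 2)), ∀ z' ∈ Set.Ioc (θ * p i) (θ * (p i + 1 / 2)),
        H z ≤ 4 * H z') ∧
      ∀ Ψ : Ω' → ℝ≥0∞, Measurable[past R (θ * (p (i - 1) + 1))] Ψ →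
        ∫⁻ ω in {ω | nextPt (R ω) (θ * (p (i - 1) + 1)) ∈ Set.Ioc (θ * p i) (θ * (p i + 1 / 2)) ∧
            ∀ j, i ≤ j → j < k → nextPt (R ω) (θ * (p j + 1)) ∈
              Set.Ioc (θ * p (j + 1)) (θ * (p (j + 1) + 1 / 2))}, Ψ ω ∂P' =
          ∫⁻ ω in {ω | nextPt (R ω) (θ * (p (i - 1) + 1)) ∈
            Set.Ioc (θ * p i) (θ * (p i + 1 / 2))},
            Ψ ω * H (nextPt (R ω) (θ * (p (i - 1) + 1))) ∂P' := by
  induction d with
  | zero =>
    intro i hi0 hik
    refine ⟨fun _ => 1, measurable_const, fun _ => le_rfl, fun _ _ _ _ => by norm_num,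
      fun Ψ _ => ?_⟩
    have hset : {ω | nextPt (R ω) (θ * (p (i - 1) + 1)) ∈ Set.Ioc (θ * p i) (θ * (p i + 1 / 2)) ∧
            ∀ j, i ≤ j → j < k → nextPt (R ω) (θ * (p j + 1)) ∈
              Set.Ioc (θ * p (j + 1)) (θ * (p (j + 1) + 1 / 2))} =
        {ω | nextPt (R ω) (θ * (p (i - 1) + 1)) ∈ Set.Ioc (θ * p i) (θ * (p i + 1 / 2))} := by
      ext ω
      simp only [Set.mem_ofPred_eq]
      exact ⟨fun h => h.1, fun h => ⟨h, fun j h3 h4 => by omega⟩⟩
    rw [hset]
    simp
  | succ d ih =>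
    intro i hi0 hik
    obtain ⟨H', hH'm, hH'1, _, hH'⟩ := ih (i + 1) (by omega) (by omega)
    simp only [Nat.add_sub_cancel] at hH'
    obtain ⟨w, hw⟩ : ∃ w : ℝ, w = θ * (p i + 1) := ⟨_, rfl⟩
    obtain ⟨t, ht⟩ : ∃ t : ℝ, t = θ * (p (i - 1) + 1) := ⟨_, rfl⟩
    rw [← hw] at hH'
    have hpi : p (i - 1) < p i := by
      have := hp (i - 1) (by omega)
      rwa [Nat.sub_add_cancel hi0] at this
    have hpi' : (p (i - 1) : ℝ) < p i := by exact_mod_cast hpi
    have ht0 : 0 ≤ t := by rw [ht]; positivity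
    have htw : t < w := by
      rw [ht, hw]
      exact mul_lt_mul_of_pos_left (by linarith) hθ
    obtain ⟨F, hF⟩ : ∃ F : ℝ → ℝ≥0∞, F = (Set.Ioc (θ * (p (i + 1) : ℝ))
      (θ * (p (i + 1) + 1 / 2))).indicator H' := ⟨_, rfl⟩
    have hFm : Measurable F := by rw [hF]; exact hH'm.indicator measurableSet_Ioc
    have hF1 : ∀ y, F y ≤ 1 := by
      intro y
      rw [hF]
      by_cases hy : y ∈ Set.Ioc (θ * (p (i + 1) : ℝ)) (θ * (p (i + 1) + 1 / 2))
      · rw [Set.indicator_of_mem hy]; exact hH'1 y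
      · rw [Set.indicator_of_notMem hy]; exact zero_le
    obtain ⟨I, hI⟩ : ∃ I : ℝ → ℝ≥0∞, I = fun z => ∫⁻ v in Set.Ioi (0 : ℝ),
      F (w + v) * ENNReal.ofReal (rho α (w - z) v) := ⟨_, rfl⟩
    have hIm : Measurable I := by
      rw [hI]
      refine Measurable.lintegral_prod_right' (f := fun q : ℝ × ℝ =>
        F (w + q.2) * ENNReal.ofReal (rho α (w - q.1) q.2)) ?_
      refine (hFm.comp (measurable_const.add measurable_snd)).mul ?_
      refine ENNReal.measurable_ofReal.comp ?_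
      exact (measurable_rho α).comp ((measurable_const.sub measurable_fst).prodMk measurable_snd)
    obtain ⟨S, hS⟩ : ∃ S : Set ℝ, S = Set.Ioc (θ * (p i : ℝ)) (θ * (p i + 1 / 2)) := ⟨_, rfl⟩
    have hSm : MeasurableSet S := by rw [hS]; exact measurableSet_Ioc
    have hSw : ∀ z ∈ S, θ / 2 ≤ w - z ∧ w - z ≤ θ := by
      intro z hz
      rw [hS] at hz
      rw [hw]
      constructor
      · nlinarith [hz.2]
      · nlinarith [hz.1]
    rw [← ht, ← hS]
    refine ⟨S.indicator I, hIm.indicator hSm, fun z => ?_, fun z hz z' hz' => ?_, fun Ψ hΨ => ?_⟩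
    · by_cases hz : z ∈ S
      · rw [Set.indicator_of_mem hz, hI]
        have h2 := hSw z hz
        have h3 : 0 < w - z := by linarith
        calc ∫⁻ v in Set.Ioi (0 : ℝ), F (w + v) * ENNReal.ofReal (rho α (w - z) v)
            ≤ ∫⁻ v in Set.Ioi (0 : ℝ), ENNReal.ofReal (rho α (w - z) v) := by
              refine lintegral_mono fun v => ?_
              calc F (w + v) * ENNReal.ofReal (rho α (w - z) v)
                  ≤ 1 * ENNReal.ofReal (rho α (w - z) v) := mul_le_mul_left (hF1 _) _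
                _ = _ := one_mul _
          _ = 1 := rho_total (by linarith) h1 h3
      · rw [Set.indicator_of_notMem hz]; exact zero_le
    · rw [Set.indicator_of_mem hz, Set.indicator_of_mem hz', hI]
      have h2 := hSw z hz
      have h3 := hSw z' hz'
      rw [← lintegral_const_mul' _ _ (by norm_num)]
      refine setLIntegral_mono' measurableSet_Ioi fun v hv => ?_
      have h4 := rho_ratio (α := α) (by linarith) h1 hθ h2.1 h2.2 h3.1 h3.2 hv
      calc F (w + v) * ENNReal.ofReal (rho α (w - z) v)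
          ≤ F (w + v) * ENNReal.ofReal (4 * rho α (w - z') v) :=
            mul_le_mul_right (ENNReal.ofReal_le_ofReal h4) _
        _ = 4 * (F (w + v) * ENNReal.ofReal (rho α (w - z') v)) := by
            rw [ENNReal.ofReal_mul (by norm_num)]
            rw [show ENNReal.ofReal 4 = 4 by simp]
            ring
    · obtain ⟨A, hA⟩ : ∃ A : Set Ω', A = {ω | nextPt (R ω) t ∈ S} := ⟨_, rfl⟩
      have hAp : MeasurableSet[past R t] A := by
        rw [hA]
        exact (measurable_nextPt_past R (r := t) (t := t) ht0 le_rfl) hSm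
      have hAm : MeasurableSet A := past_le hR _ _ hAp
      have hΨA : Measurable[past R t] (A.indicator Ψ) := by
        exact hΨ.indicator hAp
      have hΨA' : Measurable[past R w] (A.indicator Ψ) := hΨA.mono (past_mono R htw.le) le_rfl
      have e1 := hH' (A.indicator Ψ) (by
        rw [hw] at hΨA'
        exact hΨA')
      have e2 := markov (by linarith) h1 hR ht0 htw (A.indicator Ψ) hΨA F hFm
      obtain ⟨C, hC⟩ : ∃ C : Set Ω', C = {ω | nextPt (R ω) w ∈ Set.Ioc (θ * (p (i + 1) : ℝ))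
        (θ * (p (i + 1) + 1 / 2)) ∧ ∀ j, i + 1 ≤ j → j < k → nextPt (R ω) (θ * (p j + 1)) ∈
              Set.Ioc (θ * (p (j + 1) : ℝ)) (θ * (p (j + 1) + 1 / 2))} := ⟨_, rfl⟩
      have hCm : MeasurableSet C := by
        have h5 : C = (fun ω => nextPt (R ω) w) ⁻¹' (Set.Ioc (θ * (p (i + 1) : ℝ))
            (θ * (p (i + 1) + 1 / 2))) ∩ ⋂ j : ℕ, ⋂ _ : i + 1 ≤ j, ⋂ _ : j < k,
            (fun ω => nextPt (R ω) (θ * (p j + 1))) ⁻¹'
              (Set.Ioc (θ * (p (j + 1) : ℝ)) (θ * (p (j + 1) + 1 / 2))) := by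
          rw [hC]
          ext ω
          simp only [Set.mem_ofPred_eq, Set.mem_inter_iff, Set.mem_preimage, Set.mem_iInter]
        rw [h5]
        refine (hR.measurable_nextPt w measurableSet_Ioc).inter ?_
        exact MeasurableSet.iInter fun j => MeasurableSet.iInter fun _ =>
          MeasurableSet.iInter fun _ => hR.measurable_nextPt _ measurableSet_Ioc
      rw [← hC] at e1
      have hBm : MeasurableSet {ω | nextPt (R ω) w ∈ Set.Ioc (θ * (p (i + 1) : ℝ))
        (θ * (p (i + 1) + 1 / 2))} := hR.measurable_nextPt w measurableSet_Ioc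
      have hset : {ω | nextPt (R ω) t ∈ S ∧ ∀ j, i ≤ j → j < k →
          nextPt (R ω) (θ * (p j + 1)) ∈ Set.Ioc (θ * (p (j + 1) : ℝ))
            (θ * (p (j + 1) + 1 / 2))} = A ∩ C := by
        ext ω
        rw [hA, hC]
        simp only [Set.mem_ofPred_eq, Set.mem_inter_iff]
        constructor
        · rintro ⟨h6, h7⟩
          refine ⟨h6, ?_, fun j hj hjk => h7 j (by omega) hjk⟩
          have := h7 i le_rfl (by omega)
          rwa [← hw] at this
        · rintro ⟨h6, h7, h8⟩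
          refine ⟨h6, fun j hj hjk => ?_⟩
          rcases Nat.eq_or_lt_of_le hj with rfl | hj'
          · rw [← hw]
            exact h7
          · exact h8 j (by omega) hjk
      rw [hset]
      have e3 : ∫⁻ ω in A ∩ C, Ψ ω ∂P' = ∫⁻ ω in C, A.indicator Ψ ω ∂P' := by
        rw [← lintegral_indicator (hAm.inter hCm), ← lintegral_indicator hCm]
        refine lintegral_congr fun ω => ?_
        rw [Set.inter_comm, Set.indicator_indicator]
      rw [e3, e1]
      have e4 : ∫⁻ ω in {ω | nextPt (R ω) w ∈ Set.Ioc (θ * (p (i + 1) : ℝ))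
          (θ * (p (i + 1) + 1 / 2))}, A.indicator Ψ ω * H' (nextPt (R ω) w) ∂P' =
          ∫⁻ ω, (if nextPt (R ω) t < w then A.indicator Ψ ω * F (nextPt (R ω) w) else 0) ∂P' := by
        rw [← lintegral_indicator hBm]
        refine lintegral_congr fun ω => ?_
        by_cases hωA : ω ∈ A
        · have h9 : nextPt (R ω) t ∈ S := by rw [hA] at hωA; exact hωA
          have h10 : nextPt (R ω) t < w := by
            have := (hSw _ h9).1
            linarith
          rw [if_pos h10, hF]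
          by_cases hωB : nextPt (R ω) w ∈ Set.Ioc (θ * (p (i + 1) : ℝ)) (θ * (p (i + 1) + 1 / 2))
          · rw [Set.indicator_of_mem (show ω ∈ {ω | nextPt (R ω) w ∈ Set.Ioc
              (θ * (p (i + 1) : ℝ)) (θ * (p (i + 1) + 1 / 2))} from hωB),
              Set.indicator_of_mem hωB]
          · rw [Set.indicator_of_notMem (show ω ∉ {ω | nextPt (R ω) w ∈ Set.Ioc
              (θ * (p (i + 1) : ℝ)) (θ * (p (i + 1) + 1 / 2))} from hωB),
              Set.indicator_of_notMem hωB, mul_zero]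
        · have h11 : A.indicator Ψ ω = 0 := Set.indicator_of_notMem hωA _
          simp [h11, Set.indicator_apply]
      rw [e4, e2, ← hA, ← lintegral_indicator hAm]
      refine lintegral_congr fun ω => ?_
      by_cases hωA : ω ∈ A
      · have h9 : nextPt (R ω) t ∈ S := by rw [hA] at hωA; exact hωA
        have h10 : nextPt (R ω) t < w := by
          have := (hSw _ h9).1
          linarith
        rw [if_pos h10, Set.indicator_of_mem hωA, Set.indicator_of_mem hωA,
          Set.indicator_of_mem h9, hI]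
      · rw [Set.indicator_of_notMem hωA, Set.indicator_of_notMem hωA, zero_mul]
        simp

/-- VD1. The probability of the steps `i, ..., k - 1` as a function of the landing point in the
cell `p i` (downward induction on `i` with `markov` and `rho_ratio`). -/
theorem future (h0 : 1 / 2 ≤ α) (h1 : α < 1) (hR : IsStableRegenerative α R P') {θ : ℝ}
    (hθ : 0 < θ) (p : ℕ → ℕ) (k : ℕ) (hp0 : p 0 = 0) (hp : ∀ i < k, p i < p (i + 1)) {i : ℕ}
    (hi0 : 0 < i) (hik : i ≤ k) : ∃ H : ℝ → ℝ≥0∞, Measurable H ∧ (∀ z, H z ≤ 1) ∧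
      (∀ z ∈ Set.Ioc (θ * p i) (θ * (p i + 1 / 2)), ∀ z' ∈ Set.Ioc (θ * p i) (θ * (p i + 1 / 2)),
        H z ≤ 4 * H z') ∧
      ∀ Ψ : Ω' → ℝ≥0∞, Measurable[past R (θ * (p (i - 1) + 1))] Ψ →
        ∫⁻ ω in {ω | nextPt (R ω) (θ * (p (i - 1) + 1)) ∈ Set.Ioc (θ * p i) (θ * (p i + 1 / 2)) ∧
            ∀ j, i ≤ j → j < k → nextPt (R ω) (θ * (p j + 1)) ∈
              Set.Ioc (θ * p (j + 1)) (θ * (p (j + 1) + 1 / 2))}, Ψ ω ∂P' =
          ∫⁻ ω in {ω | nextPt (R ω) (θ * (p (i - 1) + 1)) ∈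
            Set.Ioc (θ * p i) (θ * (p i + 1 / 2))},
            Ψ ω * H (nextPt (R ω) (θ * (p (i - 1) + 1))) ∂P' :=
  vd1_future h0 h1 hR hθ p k hp (k - i) i hi0 (by omega)

end

end Pool.Agent.Lib.MP_3d9a2b_pr
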