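import Pool.Agent.Lib.MP_3d9a2b_pr.V.JCosh
import Pool.Agent.Lib.MP_3d9a2b_pr.V.CellGain
import Pool.Agent.Lib.MP_3d9a2b_pr.V.GaussC
import Pool.Agent.Lib.MP_3d9a2b_pr.LogZ

set_option autoImplicit false

/-! Task VF2: the gain of a scenario, averaged over the environment given the coarse
increments. -/

namespace Pool.Agent.Lib.MP_3d9a2b_pr

open MeasureTheory ProbabilityTheory Filter Topology
open scoped NNReal ENNReal

private theorem vf2_lc_nonneg (z : ℝ) : 0 ≤ Real.log (Real.cosh z) :=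
  Real.log_nonneg (Real.one_le_cosh z)

private theorem vf2_lc_le (z : ℝ) : Real.log (Real.cosh z) ≤ |z| := by
  rw [Real.log_le_iff_le_exp (Real.cosh_pos z), Real.cosh_eq]
  have h1 : Real.exp z ≤ Real.exp |z| := Real.exp_le_exp.2 (le_abs_self z)
  have h2 : Real.exp (-z) ≤ Real.exp |z| := Real.exp_le_exp.2 (neg_le_abs z)
  linarith

private theorem vf2_log_sub {x : ℝ} (h0 : 0 ≤ x) (h1 : x ≤ 1 / 2) :
    -(2 * x) ≤ Real.log (1 - x) := by
  have h2 : 0 < 1 - x := by linarith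
  have h3 := Real.one_sub_inv_le_log_of_pos h2
  have h4 : (1 - x)⁻¹ ≤ 1 + 2 * x := by
    rw [inv_le_iff_one_le_mul₀ h2]
    nlinarith
  linarith

/-- the interior interface cells -/
private def vf2_II (p : ℕ → ℕ) (k : ℕ) : Finset ℕ :=
  (Finset.range k).filter (fun i => 0 < i ∧ p i = p (i - 1) + 1 ∧ p (i + 1) = p i + 1)

/-- the interface steps -/
private def vf2_I (p : ℕ → ℕ) (k : ℕ) : Finset ℕ :=
  (Finset.range k).filter (fun i => p (i + 1) = p i + 1)

/-- the long steps -/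
private def vf2_A (p : ℕ → ℕ) (k : ℕ) : Finset ℕ :=
  (Finset.range k).filter (fun i => ¬ p (i + 1) = p i + 1)

private theorem vf2_II_card (p : ℕ → ℕ) (k : ℕ) :
    (vf2_I p k).card ≤ (vf2_II p k).card + (vf2_A p k).card + 1 := by
  classical
  have h : vf2_I p k ⊆ vf2_II p k ∪ ((vf2_A p k).image (fun i => i + 1) ∪ {0}) := by
    intro i hi
    simp only [vf2_I, Finset.mem_filter, Finset.mem_range] at hi
    simp only [vf2_II, vf2_A, Finset.mem_union, Finset.mem_filter, Finset.mem_range,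
      Finset.mem_image, Finset.mem_singleton]
    by_cases h0 : i = 0
    · exact Or.inr (Or.inr h0)
    · by_cases h1 : p i = p (i - 1) + 1
      · exact Or.inl ⟨hi.1, by omega, h1, hi.2⟩
      · refine Or.inr (Or.inl ⟨i - 1, ⟨by omega, ?_⟩, by omega⟩)
        have h2 : i - 1 + 1 = i := by omega
        rw [h2]
        exact h1
  refine (Finset.card_le_card h).trans ((Finset.card_union_le _ _).trans ?_)
  have h2 := Finset.card_union_le ((vf2_A p k).image (fun i => i + 1)) {0}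
  have h3 : ((vf2_A p k).image (fun i => i + 1)).card ≤ (vf2_A p k).card := Finset.card_image_le
  simp only [Finset.card_singleton] at h2
  omega

private theorem vf2_II_sub (p : ℕ → ℕ) (k : ℕ) : (vf2_II p k).card ≤ (vf2_I p k).card := by
  apply Finset.card_le_card
  intro i hi
  simp only [vf2_II, vf2_I, Finset.mem_filter, Finset.mem_range] at hi ⊢
  exact ⟨hi.1, hi.2.2.2⟩

section
variable {α : ℝ} {Ω Ω' : Type} [MeasurableSpace Ω] [MeasurableSpace Ω'] {P : Measure Ω}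
  {P' : Measure Ω'} (M : Model α P P')

/-- the selected excursions -/
private def vf2_sel (θ : ℝ) (p : ℕ → ℕ) (k n : ℕ) : Set Ω' :=
  ⋃ i ∈ vf2_II p k, M.inCell θ (p i) n

private theorem vf2_sel_meas (θ : ℝ) (p : ℕ → ℕ) (k n : ℕ) :
    MeasurableSet[M.𝒢] (vf2_sel M θ p k n) := by
  unfold vf2_sel
  refine @Finset.measurableSet_biUnion _ _ M.𝒢 _ _ fun i _ => ?_
  have h1 : MeasurableSet[M.𝒢] (M.left n ⁻¹' Set.Ici (θ * p i)) :=
    M.measurable_left n measurableSet_Ici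
  have h2 : MeasurableSet[M.𝒢] (M.right n ⁻¹' Set.Iic (θ * (p i + 1))) :=
    M.measurable_right n measurableSet_Iic
  exact @MeasurableSet.inter _ M.𝒢 _ _ h1 h2

private theorem vf2_cell_unique {θ : ℝ} (hθ : 0 < θ) {j j' n : ℕ} {ω' : Ω'}
    (h : ω' ∈ M.inCell θ j n) (h' : ω' ∈ M.inCell θ j' n) : j = j' := by
  have h1 := M.left_lt_right n ω'
  obtain ⟨a1, a2⟩ := h
  obtain ⟨b1, b2⟩ := h'
  have h2 : θ * (j : ℝ) < θ * ((j' : ℝ) + 1) := by linarith
  have h3 : θ * (j' : ℝ) < θ * ((j : ℝ) + 1) := by linarith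
  have h4 : (j : ℝ) < (j' : ℝ) + 1 := lt_of_mul_lt_mul_left h2 hθ.le
  have h5 : (j' : ℝ) < (j : ℝ) + 1 := lt_of_mul_lt_mul_left h3 hθ.le
  have h6 : j < j' + 1 := by exact_mod_cast h4
  have h7 : j' < j + 1 := by exact_mod_cast h5
  omega

private theorem vf2_p_inj {p : ℕ → ℕ} {k : ℕ} (hp : ∀ i < k, p i < p (i + 1)) {i j : ℕ}
    (hi : i < k) (hj : j < k) (h : p i = p j) : i = j := by
  rcases lt_trichotomy i j with hij | hij | hij
  · have h1 := hp i hi
    have h2 := Model.p_mono hp (i := i + 1) (j := j) (by omega) (by omega)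
    omega
  · exact hij
  · have h1 := hp j hj
    have h2 := Model.p_mono hp (i := j + 1) (j := i) (by omega) (by omega)
    omega

open Classical in
private theorem vf2_sel_sum {θ : ℝ} (hθ : 0 < θ) {p : ℕ → ℕ} {k : ℕ}
    (hp : ∀ i < k, p i < p (i + 1)) (n : ℕ) (ω' : Ω') (f : Ω' → ℝ) :
    (if ω' ∈ vf2_sel M θ p k n then f ω' else 0) =
      ∑ i ∈ vf2_II p k, (M.inCell θ (p i) n).indicator f ω' := by
  by_cases h : ω' ∈ vf2_sel M θ p k n
  · rw [if_pos h]
    simp only [vf2_sel, Set.mem_iUnion] at h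
    obtain ⟨i, hi, hω⟩ := h
    rw [Finset.sum_eq_single i]
    · rw [Set.indicator_of_mem hω]
    · intro j hj hji
      apply Set.indicator_of_notMem
      intro hω'
      have h1 := vf2_cell_unique M hθ hω hω'
      simp only [vf2_II, Finset.mem_filter, Finset.mem_range] at hi hj
      exact hji (vf2_p_inj hp hj.1 hi.1 h1.symm)
    · intro h1
      exact absurd hi h1
  · rw [if_neg h]
    symm
    apply Finset.sum_eq_zero
    intro i hi
    apply Set.indicator_of_notMem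
    intro hω
    apply h
    simp only [vf2_sel, Set.mem_iUnion]
    exact ⟨i, hi, hω⟩

private theorem vf2_hsel {θ : ℝ} (hθ : 0 < θ) {p : ℕ → ℕ} {k : ℕ} (hp0 : p 0 = 0)
    (hp : ∀ i < k, p i < p (i + 1)) (s : ℕ → Bool)
    (hs : ∀ i, s i = true ↔ ¬ p (i + 1) = p i + 1) :
    ∀ ω' ∈ M.ER θ p k, ∀ n, ω' ∈ vf2_sel M θ p k n → ∀ i < k, s i = true →
      n ≠ M.mi θ p ω' i := by
  intro ω' hω n hn i hi hsi heq
  simp only [vf2_sel, Set.mem_iUnion] at hn
  obtain ⟨j, hj, hc1, hc2⟩ := hn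
  have h1 := M.ER_left hθ hp0 hp hω hi
  have h2 := M.ER_right hθ hp hω hi
  rw [heq] at hc1 hc2
  have h3 := (hs i).1 hsi
  have h4 := hp i hi
  have h5 : p i + 2 ≤ p (i + 1) := by omega
  have h6 : θ * (p (i + 1) : ℝ) < θ * ((p j : ℝ) + 1) := lt_of_lt_of_le h2.1 hc2
  have h7 : (p (i + 1) : ℝ) < (p j : ℝ) + 1 := lt_of_mul_lt_mul_left h6 hθ.le
  have h8 : p (i + 1) < p j + 1 := by exact_mod_cast h7
  have h9 : θ * (p j : ℝ) ≤ θ * ((p i : ℝ) + 1) := hc1.trans h1.2
  have h10 : (p j : ℝ) ≤ (p i : ℝ) + 1 := le_of_mul_le_mul_left h9 hθ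
  have h11 : p j ≤ p i + 1 := by exact_mod_cast h10
  omega

end

section
variable {α : ℝ} {Ω Ω' : Type} [MeasurableSpace Ω] [MeasurableSpace Ω'] {P : Measure Ω}
  {P' : Measure Ω'} [IsProbabilityMeasure P] [IsProbabilityMeasure P'] (M : Model α P P')

include M in
private theorem vf2_int_y (h a b : ℝ) : Integrable (fun ω => M.y h a ω - M.y h b ω) P := by
  have h1 : MemLp (fun ω => M.B a.toNNReal ω - M.B b.toNNReal ω) 2 P :=
    memLp_incr M.brownian.toIsPreBrownianReal _ _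
  have h2 := h1.integrable (by norm_num)
  have h3 : (fun ω => M.y h a ω - M.y h b ω) =
      fun ω => (M.B a.toNNReal ω - M.B b.toNNReal ω) + h * (a - b) := by
    funext ω
    unfold Model.y
    ring
  rw [h3]
  exact h2.add (integrable_const _)

private theorem vf2_int_X (lam h θ : ℝ) (j : ℕ) : Integrable (fun ω => M.X lam h θ ω j) P := by
  unfold Model.X
  exact (vf2_int_y M h _ _).const_mul _

private theorem vf2_gint (lam h θ : ℝ) {g : (ℕ → ℝ) → ℝ} (hg : Measurable g)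
    (hg0 : ∀ x, 0 ≤ g x) (hg1 : ∀ x, g x ≤ 1) {f : Ω → ℝ} (hf : Integrable f P) :
    Integrable (fun ω => g (M.X lam h θ ω) * f ω) P := by
  refine hf.bdd_mul (c := 1) (hg.comp (ua_measurable_X M lam h θ)).aestronglyMeasurable ?_
  refine ae_of_all _ fun ω => ?_
  rw [Real.norm_of_nonneg (hg0 _)]
  exact hg1 _

/-- one step of the energy identity -/
private noncomputable def vf2_T (lam h θ : ℝ) (p : ℕ → ℕ) (ω' : Ω') (i : ℕ) (ω : Ω) : ℝ :=
  if p (i + 1) = p i + 1 then - M.X lam h θ ω (p i)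
  else -(lam * (M.y h (M.left (M.mi θ p ω' i) ω') ω - M.y h (θ * p i) ω)) +
    lam * (M.y h (M.right (M.mi θ p ω' i) ω') ω - M.y h (θ * p (i + 1)) ω)

private theorem vf2_energy {lam h θ t : ℝ} (hθ : 0 < θ) {p : ℕ → ℕ} {k : ℕ} (hp0 : p 0 = 0)
    (hp : ∀ i < k, p i < p (i + 1)) (ht : θ * (p k + 1) ≤ t) (s : ℕ → Bool)
    (hs : ∀ i, s i = true ↔ ¬ p (i + 1) = p i + 1) {ω' : Ω'} (hω : ω' ∈ M.ER θ p k) (ω : Ω) :
    -2 * lam * M.XA h θ t p s k ω ω' = -(lam * (M.y h t ω - M.y h (θ * p k) ω)) +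
      ∑ i ∈ Finset.range k, vf2_T M lam h θ p ω' i ω := by
  have htel : ∑ i ∈ Finset.range k, (M.y h (θ * p (i + 1)) ω - M.y h (θ * p i) ω) =
      M.y h (θ * p k) ω - M.y h 0 ω := by
    rw [Finset.sum_range_sub (fun i => M.y h (θ * p i) ω) k, hp0]
    simp
  have hstep : ∀ i ∈ Finset.range k, vf2_T M lam h θ p ω' i ω =
      -lam * (M.y h (θ * p (i + 1)) ω - M.y h (θ * p i) ω) +
      lam * (if s i = true then
        M.y h (min (M.right (M.mi θ p ω' i) ω') t) ω - M.y h (min (M.left (M.mi θ p ω' i) ω') t) ω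
        else 0) := by
    intro i hi
    rw [Finset.mem_range] at hi
    unfold vf2_T
    by_cases hc : p (i + 1) = p i + 1
    · rw [if_pos hc, if_neg (by rw [hs i]; simpa using hc)]
      unfold Model.X
      rw [hc]
      push_cast
      ring
    · rw [if_neg hc, if_pos ((hs i).2 hc)]
      have h1 := M.ER_right hθ hp hω hi
      have h2 := M.left_lt_right (M.mi θ p ω' i) ω'
      have h3 : (p (i + 1) : ℝ) ≤ p k := by
        exact_mod_cast Model.p_mono hp (i := i + 1) (j := k) (by omega) le_rfl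
      have h4 : M.right (M.mi θ p ω' i) ω' ≤ t := by
        refine h1.2.trans (le_trans ?_ ht)
        apply mul_le_mul_of_nonneg_left _ hθ.le
        linarith
      rw [min_eq_left h4, min_eq_left (h2.le.trans h4)]
      ring
  rw [Finset.sum_congr rfl hstep, Finset.sum_add_distrib, ← Finset.mul_sum, ← Finset.mul_sum, htel]
  unfold Model.XA
  ring

private theorem vf2_T_int (lam h θ : ℝ) (p : ℕ → ℕ) (ω' : Ω') (i : ℕ) :
    Integrable (vf2_T M lam h θ p ω' i) P := by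
  unfold vf2_T
  split_ifs
  · exact (vf2_int_X M lam h θ _).neg
  · exact ((vf2_int_y M h _ _).const_mul _).neg.add ((vf2_int_y M h _ _).const_mul _)

/-- lower bound of a step -/
private theorem vf2_T_ge {lam h θ : ℝ} (hlam : 0 < lam) (hθ : 0 < θ) {p : ℕ → ℕ} {k : ℕ}
    (hp0 : p 0 = 0) (hp : ∀ i < k, p i < p (i + 1)) {g : (ℕ → ℝ) → ℝ} (hg : Measurable g)
    (hg0 : ∀ x, 0 ≤ g x) (hg1 : ∀ x, g x ≤ 1) {ω' : Ω'} (hω : ω' ∈ M.ER θ p k) {i : ℕ}
    (hi : i < k) :
    ∫ ω, g (M.X lam h θ ω) * (if p (i + 1) = p i + 1 then - M.X lam h θ ω (p i)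
      else - |M.X lam h θ ω (p i)| - |M.X lam h θ ω (p (i + 1))|) ∂P ≤
    ∫ ω, g (M.X lam h θ ω) * vf2_T M lam h θ p ω' i ω ∂P := by
  unfold vf2_T
  by_cases hc : p (i + 1) = p i + 1
  · simp only [if_pos hc]
    exact le_rfl
  · simp only [if_neg hc]
    set l := M.left (M.mi θ p ω' i) ω' with hl
    set r := M.right (M.mi θ p ω' i) ω' with hr
    have h1 : l ∈ Set.Icc (θ * p i) (θ * (p i + 1)) := M.ER_left hθ hp0 hp hω hi
    have h2 : r ∈ Set.Ioc (θ * p (i + 1)) (θ * (p (i + 1) + 1 / 2)) := M.ER_right hθ hp hω hi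
    have h3 := coarse_lin M hlam hθ (h := h) (p i) h1 g hg hg0 hg1
    have h2' : r ∈ Set.Icc (θ * (p (i + 1) : ℝ)) (θ * ((p (i + 1) : ℝ) + 1)) := by
      refine ⟨h2.1.le, h2.2.trans ?_⟩
      apply mul_le_mul_of_nonneg_left _ hθ.le
      linarith
    have h4 := coarse_lin M hlam hθ (h := h) (p (i + 1)) h2' g hg hg0 hg1
    have i1 := vf2_gint M lam h θ hg hg0 hg1 ((vf2_int_y M h l (θ * p i)).const_mul lam)
    have i2 := vf2_gint M lam h θ hg hg0 hg1 ((vf2_int_y M h r (θ * p (i + 1))).const_mul lam)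
    have hL : ∫ ω, g (M.X lam h θ ω) * (-(lam * (M.y h l ω - M.y h (θ * p i) ω)) +
        lam * (M.y h r ω - M.y h (θ * p (i + 1)) ω)) ∂P =
        - ∫ ω, g (M.X lam h θ ω) * (lam * (M.y h l ω - M.y h (θ * p i) ω)) ∂P +
        ∫ ω, g (M.X lam h θ ω) * (lam * (M.y h r ω - M.y h (θ * p (i + 1)) ω)) ∂P := by
      have i1' : Integrable (fun ω => -(g (M.X lam h θ ω) *
        (lam * (M.y h l ω - M.y h (θ * p i) ω)))) P := i1.neg
      rw [← integral_neg, ← integral_add i1' i2]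
      congr 1
      funext ω
      ring
    rw [hL, h3, h4]
    have j1 := vf2_gint M lam h θ hg hg0 hg1
      ((vf2_int_X M lam h θ (p i)).const_mul ((l - θ * p i) / θ))
    have j2 := vf2_gint M lam h θ hg hg0 hg1
      ((vf2_int_X M lam h θ (p (i + 1))).const_mul ((r - θ * p (i + 1)) / θ))
    have j1' : Integrable (fun ω => -(g (M.X lam h θ ω) *
        ((l - θ * p i) / θ * M.X lam h θ ω (p i)))) P := j1.neg
    rw [← integral_neg, ← integral_add j1' j2]
    refine integral_mono (vf2_gint M lam h θ hg hg0 hg1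
      (((vf2_int_X M lam h θ (p i)).abs.neg).sub (vf2_int_X M lam h θ (p (i + 1))).abs))
      (j1'.add j2) ?_
    intro ω
    have c1 : |(l - θ * p i) / θ| ≤ 1 := by
      rw [abs_of_nonneg (div_nonneg (by linarith [h1.1]) hθ.le), div_le_one hθ]
      linarith [h1.2]
    have c2 : |(r - θ * p (i + 1)) / θ| ≤ 1 := by
      rw [abs_of_nonneg (div_nonneg (by linarith [h2'.1]) hθ.le), div_le_one hθ]
      linarith [h2'.2]
    have d1 : (l - θ * p i) / θ * M.X lam h θ ω (p i) ≤ |M.X lam h θ ω (p i)| := by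
      refine (le_abs_self _).trans ?_
      rw [abs_mul]
      exact mul_le_of_le_one_left (abs_nonneg _) c1
    have d2 : -|M.X lam h θ ω (p (i + 1))| ≤
        (r - θ * p (i + 1)) / θ * M.X lam h θ ω (p (i + 1)) := by
      have : |(r - θ * p (i + 1)) / θ * M.X lam h θ ω (p (i + 1))| ≤
          |M.X lam h θ ω (p (i + 1))| := by
        rw [abs_mul]
        exact mul_le_of_le_one_left (abs_nonneg _) c2
      exact (neg_le_neg this).trans (neg_abs_le _)
    have hgω := hg0 (M.X lam h θ ω)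
    simp only [Pi.add_apply, Pi.neg_apply, Pi.sub_apply]
    nlinarith [mul_le_mul_of_nonneg_left d1 hgω, mul_le_mul_of_nonneg_left d2 hgω]

end

section
variable {α : ℝ} {Ω Ω' : Type} [MeasurableSpace Ω] [MeasurableSpace Ω'] {P : Measure Ω}
  {P' : Measure Ω'} [IsProbabilityMeasure P] [IsProbabilityMeasure P'] (M : Model α P P')

private theorem vf2_XA_meas (h θ t : ℝ) (p : ℕ → ℕ) (s : ℕ → Bool) (k : ℕ) :
    Measurable (fun q : Ω × Ω' => M.XA h θ t p s k q.1 q.2) := by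
  unfold Model.XA
  refine Measurable.sub ?_ (Measurable.div_const (Finset.measurable_fun_sum _ fun i _ => ?_) _)
  · exact (((M.measurable_y_left h t).sub (M.measurable_y_left h 0)).comp
      measurable_fst).div_const _
  · split_ifs
    · exact (M.measurable_y2 h ((M.measurable_right_mi θ p i).min measurable_const)).sub
        (M.measurable_y2 h ((M.measurable_left_mi θ p i).min measurable_const))
    · exact measurable_const

private theorem vf2_XA_l1 {h θ t : ℝ} (hh : 0 ≤ h) (ht : 0 ≤ t) (p : ℕ → ℕ) (s : ℕ → Bool)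
    (k : ℕ) (ω' : Ω') :
    ∫⁻ ω, ‖M.XA h θ t p s k ω ω'‖ₑ ∂P ≤ ∫⁻ ω, ‖M.y h t ω - M.y h 0 ω‖ₑ ∂P +
      k * (ENNReal.ofReal (√t) + ENNReal.ofReal (h * t)) := by
  have h1 : ∀ ω, ‖M.XA h θ t p s k ω ω'‖ₑ ≤ ‖M.y h t ω - M.y h 0 ω‖ₑ +
      ∑ i ∈ Finset.range k, ‖M.yinc h t (M.mi θ p ω' i) ω ω'‖ₑ := by
    intro ω
    simp only [Real.enorm_eq_ofReal_abs]
    rw [← ENNReal.ofReal_sum_of_nonneg (fun i _ => abs_nonneg _),
      ← ENNReal.ofReal_add (abs_nonneg _) (Finset.sum_nonneg fun i _ => abs_nonneg _)]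
    apply ENNReal.ofReal_le_ofReal
    have h2 : |∑ i ∈ Finset.range k, (if s i = true then
        M.y h (min (M.right (M.mi θ p ω' i) ω') t) ω - M.y h (min (M.left (M.mi θ p ω' i) ω') t) ω
        else 0)| ≤ ∑ i ∈ Finset.range k, |M.yinc h t (M.mi θ p ω' i) ω ω'| := by
      refine (Finset.abs_sum_le_sum_abs _ _).trans (Finset.sum_le_sum fun i _ => ?_)
      split_ifs
      · exact le_rfl
      · rw [abs_zero]
        exact abs_nonneg _
    unfold Model.XA
    refine (abs_sub _ _).trans ?_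
    rw [abs_div, abs_div, abs_two]
    have h3 := abs_nonneg (M.y h t ω - M.y h 0 ω)
    have h4 : 0 ≤ |∑ i ∈ Finset.range k, (if s i = true then
        M.y h (min (M.right (M.mi θ p ω' i) ω') t) ω - M.y h (min (M.left (M.mi θ p ω' i) ω') t) ω
        else 0)| := abs_nonneg _
    linarith
  refine (lintegral_mono h1).trans ?_
  have hm0 : Measurable (fun ω => ‖M.y h t ω - M.y h 0 ω‖ₑ) :=
    ((M.measurable_y_left h t).sub (M.measurable_y_left h 0)).enorm
  rw [lintegral_add_left hm0]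
  gcongr
  rw [lintegral_finsetSum _ (fun i _ => by
    have := M.measurable_yinc h t (M.mi θ p ω' i)
    exact (this.comp (measurable_id.prodMk measurable_const)).enorm)]
  calc ∑ i ∈ Finset.range k, ∫⁻ ω, ‖M.yinc h t (M.mi θ p ω' i) ω ω'‖ₑ ∂P
      ≤ ∑ _i ∈ Finset.range k, (ENNReal.ofReal (√t) + ENNReal.ofReal (h * t)) :=
        Finset.sum_le_sum fun i _ => M.l1_yinc_le hh ht _ _
    _ = k * (ENNReal.ofReal (√t) + ENNReal.ofReal (h * t)) := by
        rw [Finset.sum_const, Finset.card_range, nsmul_eq_mul]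

open Classical in
/-- the integrand -/
private noncomputable def vf2_F (lam h θ t : ℝ) (p : ℕ → ℕ) (s : ℕ → Bool) (k N₀ : ℕ) (ω : Ω)
    (ω' : Ω') : ℝ :=
  -2 * lam * M.XA h θ t p s k ω ω' + ∑ n ∈ Finset.range N₀, if ω' ∈ vf2_sel M θ p k n then
    Real.log (Real.cosh (lam * M.yinc h t n ω ω')) else 0

private theorem vf2_lc_meas {X : Type} [MeasurableSpace X] {f : X → ℝ} (hf : Measurable f) :
    Measurable (fun x => Real.log (Real.cosh (f x))) :=
  Real.measurable_log.comp (Real.continuous_cosh.measurable.comp hf)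

open Classical in
private theorem vf2_F_meas (lam h θ t : ℝ) (p : ℕ → ℕ) (s : ℕ → Bool) (k N₀ : ℕ) :
    Measurable (fun q : Ω × Ω' => vf2_F M lam h θ t p s k N₀ q.1 q.2) := by
  unfold vf2_F
  refine ((vf2_XA_meas M h θ t p s k).const_mul _).add (Finset.measurable_fun_sum _ fun n _ => ?_)
  refine Measurable.ite ?_ (vf2_lc_meas ((M.measurable_yinc h t n).const_mul lam)) measurable_const
  exact measurable_snd (M.𝒢_le _ (vf2_sel_meas M θ p k n))

open Classical in
private theorem vf2_F_l1 {lam h θ t : ℝ} (hlam : 0 < lam) (hh : 0 ≤ h) (ht : 0 ≤ t) (p : ℕ → ℕ)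
    (s : ℕ → Bool) (k N₀ : ℕ) (ω' : Ω') :
    ∫⁻ ω, ‖vf2_F M lam h θ t p s k N₀ ω ω'‖ₑ ∂P ≤
      ENNReal.ofReal (2 * lam) * (∫⁻ ω, ‖M.y h t ω - M.y h 0 ω‖ₑ ∂P +
      k * (ENNReal.ofReal (√t) + ENNReal.ofReal (h * t))) +
      N₀ * (ENNReal.ofReal lam * (ENNReal.ofReal (√t) + ENNReal.ofReal (h * t))) := by
  have h1 : ∀ ω, ‖vf2_F M lam h θ t p s k N₀ ω ω'‖ₑ ≤
      ENNReal.ofReal (2 * lam) * ‖M.XA h θ t p s k ω ω'‖ₑ +
      ∑ n ∈ Finset.range N₀, ENNReal.ofReal lam * ‖M.yinc h t n ω ω'‖ₑ := by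
    intro ω
    unfold vf2_F
    refine (enorm_add_le _ _).trans ?_
    gcongr
    · rw [enorm_mul]
      gcongr
      rw [Real.enorm_eq_ofReal_abs]
      apply ENNReal.ofReal_le_ofReal
      rw [abs_of_neg (by linarith)]
      linarith
    · refine (enorm_sum_le _ _).trans (Finset.sum_le_sum fun n _ => ?_)
      split_ifs
      · rw [Real.enorm_eq_ofReal (vf2_lc_nonneg _), Real.enorm_eq_ofReal_abs,
          ← ENNReal.ofReal_mul hlam.le]
        apply ENNReal.ofReal_le_ofReal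
        refine (vf2_lc_le _).trans ?_
        rw [abs_mul, abs_of_pos hlam]
      · simp
  refine (lintegral_mono h1).trans ?_
  have hm1 : Measurable (fun ω => ‖M.XA h θ t p s k ω ω'‖ₑ) :=
    ((vf2_XA_meas M h θ t p s k).comp (measurable_id.prodMk measurable_const)).enorm
  have hm2 : ∀ n, Measurable (fun ω => ‖M.yinc h t n ω ω'‖ₑ) := fun n =>
    ((M.measurable_yinc h t n).comp (measurable_id.prodMk measurable_const)).enorm
  rw [lintegral_add_left (hm1.const_mul _), lintegral_const_mul _ hm1,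
    lintegral_finsetSum _ (fun n _ => (hm2 n).const_mul _)]
  gcongr
  · exact vf2_XA_l1 M hh ht p s k ω'
  · calc ∑ n ∈ Finset.range N₀, ∫⁻ ω, ENNReal.ofReal lam * ‖M.yinc h t n ω ω'‖ₑ ∂P
        ≤ ∑ _n ∈ Finset.range N₀, ENNReal.ofReal lam *
          (ENNReal.ofReal (√t) + ENNReal.ofReal (h * t)) := by
          refine Finset.sum_le_sum fun n _ => ?_
          rw [lintegral_const_mul _ (hm2 n)]
          gcongr
          exact M.l1_yinc_le hh ht n ω'
      _ = _ := by rw [Finset.sum_const, Finset.card_range, nsmul_eq_mul]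

private theorem vf2_F_int {lam h θ t : ℝ} (hlam : 0 < lam) (hh : 0 ≤ h) (ht : 0 ≤ t) (p : ℕ → ℕ)
    (s : ℕ → Bool) (k N₀ : ℕ) {g : (ℕ → ℝ) → ℝ} (hg : Measurable g)
    (hg0 : ∀ x, 0 ≤ g x) (hg1 : ∀ x, g x ≤ 1) :
    Integrable (fun q : Ω × Ω' => g (M.X lam h θ q.1) * vf2_F M lam h θ t p s k N₀ q.1 q.2)
      (P.prod (P'.restrict (M.ER θ p k))) := by
  have hm : Measurable (fun q : Ω × Ω' => g (M.X lam h θ q.1) *
      vf2_F M lam h θ t p s k N₀ q.1 q.2) :=
    (hg.comp ((ua_measurable_X M lam h θ).comp measurable_fst)).mul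
      (vf2_F_meas M lam h θ t p s k N₀)
  refine ⟨hm.aestronglyMeasurable, ?_⟩
  unfold HasFiniteIntegral
  rw [lintegral_prod_symm' _ hm.enorm]
  set C := ENNReal.ofReal (2 * lam) * (∫⁻ ω, ‖M.y h t ω - M.y h 0 ω‖ₑ ∂P +
      k * (ENNReal.ofReal (√t) + ENNReal.ofReal (h * t))) +
      N₀ * (ENNReal.ofReal lam * (ENNReal.ofReal (√t) + ENNReal.ofReal (h * t))) with hC
  have hCfin : C < ∞ := by
    have h1 : ∫⁻ ω, ‖M.y h t ω - M.y h 0 ω‖ₑ ∂P < ∞ := (vf2_int_y M h t 0).2
    rw [hC]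
    have h2 : ENNReal.ofReal (√t) + ENNReal.ofReal (h * t) < ∞ :=
      ENNReal.add_lt_top.2 ⟨ENNReal.ofReal_lt_top, ENNReal.ofReal_lt_top⟩
    refine ENNReal.add_lt_top.2 ⟨ENNReal.mul_lt_top ENNReal.ofReal_lt_top
      (ENNReal.add_lt_top.2 ⟨h1, ENNReal.mul_lt_top (ENNReal.natCast_lt_top _) h2⟩),
      ENNReal.mul_lt_top (ENNReal.natCast_lt_top _) (ENNReal.mul_lt_top ENNReal.ofReal_lt_top h2)⟩
  calc ∫⁻ ω', ∫⁻ ω, ‖g (M.X lam h θ ω) * vf2_F M lam h θ t p s k N₀ ω ω'‖ₑ ∂P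
        ∂P'.restrict (M.ER θ p k)
      ≤ ∫⁻ _ω', C ∂P'.restrict (M.ER θ p k) := by
        refine lintegral_mono fun ω' => ?_
        refine le_trans (lintegral_mono (g := fun ω => ‖vf2_F M lam h θ t p s k N₀ ω ω'‖ₑ)
          fun ω => ?_) (vf2_F_l1 M (θ := θ) hlam hh ht p s k N₀ ω')
        rw [enorm_mul]
        have : ‖g (M.X lam h θ ω)‖ₑ ≤ 1 := by
          rw [Real.enorm_eq_ofReal (hg0 _)]
          exact ENNReal.ofReal_le_one.2 (hg1 _)
        calc ‖g (M.X lam h θ ω)‖ₑ * ‖vf2_F M lam h θ t p s k N₀ ω ω'‖ₑ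
            ≤ 1 * ‖vf2_F M lam h θ t p s k N₀ ω ω'‖ₑ := by gcongr
          _ = _ := one_mul _
    _ = C * P'.restrict (M.ER θ p k) Set.univ := by rw [lintegral_const]
    _ < ∞ := ENNReal.mul_lt_top hCfin (measure_lt_top _ _)

/-- the summand of the gain of a cell -/
private noncomputable def vf2_f (θ : ℝ) (n : ℕ) (ω' : Ω') : ℝ :=
  M.rlen θ n ω' / 2 - M.rlen θ n ω' ^ 2

/-- the partial gain of the cell `p i` -/
private noncomputable def vf2_S (θ : ℝ) (p : ℕ → ℕ) (i N : ℕ) (ω' : Ω') : ℝ :=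
  ∑ n ∈ Finset.range N, (M.inCell θ (p i) n).indicator (vf2_f M θ n) ω'

private theorem vf2_rlen_meas (θ : ℝ) (n : ℕ) : Measurable (M.rlen θ n) := by
  unfold Model.rlen
  exact ((M.measurable_right' n).sub (M.measurable_left' n)).div_const _

private theorem vf2_f_meas (θ : ℝ) (n : ℕ) : Measurable (vf2_f M θ n) := by
  unfold vf2_f
  exact ((vf2_rlen_meas M θ n).div_const _).sub ((vf2_rlen_meas M θ n).pow_const 2)

private theorem vf2_cell_meas (θ : ℝ) (j n : ℕ) : MeasurableSet (M.inCell θ j n) := by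
  have h1 : MeasurableSet (M.left n ⁻¹' Set.Ici (θ * j)) := M.measurable_left' n measurableSet_Ici
  have h2 : MeasurableSet (M.right n ⁻¹' Set.Iic (θ * (j + 1))) :=
    M.measurable_right' n measurableSet_Iic
  exact h1.inter h2

private theorem vf2_S_meas (θ : ℝ) (p : ℕ → ℕ) (i N : ℕ) : Measurable (vf2_S M θ p i N) := by
  unfold vf2_S
  exact Finset.measurable_fun_sum _ fun n _ =>
    (vf2_f_meas M θ n).indicator (vf2_cell_meas M θ (p i) n)

private theorem vf2_ind_le {θ t : ℝ} (hθ : 0 < θ) {j : ℕ} (hj : θ * (j + 1) ≤ t) (n : ℕ)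
    (ω' : Ω') : |(M.inCell θ j n).indicator (vf2_f M θ n) ω'| ≤ M.len t n ω' / θ := by
  by_cases h : ω' ∈ M.inCell θ j n
  · rw [Set.indicator_of_mem h]
    obtain ⟨h1, h2⟩ := h
    have h3 := M.left_lt_right n ω'
    have hlen : M.len t n ω' = M.right n ω' - M.left n ω' := by
      unfold Model.len
      rw [min_eq_left (h2.trans hj), min_eq_left (h3.le.trans (h2.trans hj))]
    rw [hlen]
    have h4 : M.rlen θ n ω' = (M.right n ω' - M.left n ω') / θ := rfl
    rw [← h4]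
    have h5 : 0 ≤ M.rlen θ n ω' := by
      rw [h4]
      exact div_nonneg (by linarith) hθ.le
    have h6 : M.rlen θ n ω' ≤ 1 := by
      rw [h4, div_le_one hθ]
      nlinarith
    unfold vf2_f
    rw [abs_le]
    constructor <;> nlinarith
  · rw [Set.indicator_of_notMem h, abs_zero]
    exact div_nonneg (M.len_nonneg t n ω') hθ.le

private theorem vf2_S_le {θ t : ℝ} (hθ : 0 < θ) (ht : 0 ≤ t) {p : ℕ → ℕ} {i : ℕ}
    (hj : θ * (p i + 1) ≤ t) (N : ℕ) (ω' : Ω') : |vf2_S M θ p i N ω'| ≤ t / θ := by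
  unfold vf2_S
  refine (Finset.abs_sum_le_sum_abs _ _).trans ?_
  refine (Finset.sum_le_sum fun n _ => vf2_ind_le M hθ hj n ω').trans ?_
  rw [← Finset.sum_div]
  exact div_le_div_of_nonneg_right (M.sum_len_le ht ω' N) hθ.le

private theorem vf2_S_tendsto {θ : ℝ} (hθ : 0 < θ) (p : ℕ → ℕ) (i : ℕ) (ω' : Ω') :
    Tendsto (fun N => vf2_S M θ p i N ω') atTop
      (𝓝 (∑' n, (M.inCell θ (p i) n).indicator
        (fun ω' => M.rlen θ n ω' / 2 - M.rlen θ n ω' ^ 2) ω')) := by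
  obtain ⟨h1, h2, -, -⟩ := cell_gain_path M hθ (p i) ω'
  have h3 : Summable (fun n => (M.inCell θ (p i) n).indicator
        (fun ω' => M.rlen θ n ω' / 2 - M.rlen θ n ω' ^ 2) ω') := by
    have h4 := (h1.mul_left (1 / 2)).sub h2
    refine h4.congr fun n => ?_
    by_cases h : ω' ∈ M.inCell θ (p i) n
    · simp only [Set.indicator_of_mem h]
      ring
    · simp only [Set.indicator_of_notMem h]
      ring
  exact h3.hasSum.tendsto_sum_nat

private theorem vf2_int_S_tendsto {θ t : ℝ} (hθ : 0 < θ) (ht : 0 ≤ t) {p : ℕ → ℕ} {i k : ℕ}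
    (hj : θ * (p i + 1) ≤ t) :
    Tendsto (fun N => ∫ ω' in M.ER θ p k, vf2_S M θ p i N ω' ∂P') atTop
      (𝓝 (∫ ω' in M.ER θ p k, ∑' n, (M.inCell θ (p i) n).indicator
        (fun ω' => M.rlen θ n ω' / 2 - M.rlen θ n ω' ^ 2) ω' ∂P')) := by
  refine tendsto_integral_of_dominated_convergence (fun _ => t / θ)
    (fun N => (vf2_S_meas M θ p i N).aestronglyMeasurable) (integrable_const _) ?_ ?_
  · intro N
    refine ae_of_all _ fun ω' => ?_
    rw [Real.norm_eq_abs]
    exact vf2_S_le M hθ ht hj N ω'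
  · exact ae_of_all _ fun ω' => vf2_S_tendsto M hθ p i ω'

/-- the energy constant -/
private noncomputable def vf2_E (lam h θ t : ℝ) (p : ℕ → ℕ) (k : ℕ) (ω : Ω) : ℝ :=
  -(lam * (M.y h t ω - M.y h (θ * p k) ω)) + ∑ i ∈ Finset.range k,
    (if p (i + 1) = p i + 1 then - M.X lam h θ ω (p i)
      else - |M.X lam h θ ω (p i)| - |M.X lam h θ ω (p (i + 1))|)

private theorem vf2_E_step_int (lam h θ : ℝ) (p : ℕ → ℕ) (i : ℕ) :
    Integrable (fun ω => if p (i + 1) = p i + 1 then - M.X lam h θ ω (p i)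
      else - |M.X lam h θ ω (p i)| - |M.X lam h θ ω (p (i + 1))|) P := by
  split_ifs
  · exact (vf2_int_X M lam h θ _).neg
  · exact (vf2_int_X M lam h θ _).abs.neg.sub (vf2_int_X M lam h θ _).abs

private theorem vf2_E_int (lam h θ t : ℝ) (p : ℕ → ℕ) (k : ℕ) :
    Integrable (vf2_E M lam h θ t p k) P := by
  unfold vf2_E
  exact ((vf2_int_y M h _ _).const_mul _).neg.add
    (integrable_finsetSum _ fun i _ => vf2_E_step_int M lam h θ p i)

open Classical in
/-- the average over the environment, for a fixed realisation of the scenario -/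
private theorem vf2_inner {lam h θ t : ℝ} (hlam : 0 < lam) (hθ : θ = (lam ^ 2)⁻¹)
    {p : ℕ → ℕ} {k : ℕ} (hp0 : p 0 = 0) (hp : ∀ i < k, p i < p (i + 1))
    (ht : θ * (p k + 1) ≤ t) (s : ℕ → Bool)
    (hs : ∀ i, s i = true ↔ ¬ p (i + 1) = p i + 1) (N₀ : ℕ) {g : (ℕ → ℝ) → ℝ} (hg : Measurable g)
    (hg0 : ∀ x, 0 ≤ g x) (hg1 : ∀ x, g x ≤ 1) {ω' : Ω'} (hω : ω' ∈ M.ER θ p k) :
    ∫ ω, g (M.X lam h θ ω) * vf2_E M lam h θ t p k ω ∂P +
      (∫ ω, g (M.X lam h θ ω) ∂P) * ∑ i ∈ vf2_II p k, vf2_S M θ p i N₀ ω' ≤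
    ∫ ω, g (M.X lam h θ ω) * vf2_F M lam h θ t p s k N₀ ω ω' ∂P := by
  have hθ0 : 0 < θ := by
    rw [hθ]
    positivity
  have hyint : ∀ n, Integrable (fun ω => M.yinc h t n ω ω') P := by
    intro n
    unfold Model.yinc
    exact vf2_int_y M h _ _
  have hlcint : ∀ n, Integrable (fun ω => if ω' ∈ vf2_sel M θ p k n then
      Real.log (Real.cosh (lam * M.yinc h t n ω ω')) else 0) P := by
    intro n
    split_ifs
    · refine ((hyint n).const_mul lam).abs.mono'
        (vf2_lc_meas (((M.measurable_yinc h t n).comp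
          (measurable_id.prodMk measurable_const)).const_mul lam)).aestronglyMeasurable ?_
      refine ae_of_all _ fun ω => ?_
      rw [Real.norm_of_nonneg (vf2_lc_nonneg _)]
      exact vf2_lc_le _
    · exact integrable_zero _ _ _
  have hTint : Integrable (fun ω => -(lam * (M.y h t ω - M.y h (θ * p k) ω)) +
      ∑ i ∈ Finset.range k, vf2_T M lam h θ p ω' i ω) P :=
    ((vf2_int_y M h _ _).const_mul _).neg.add
      (integrable_finsetSum _ fun i _ => vf2_T_int M lam h θ p ω' i)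
  have hF : ∀ ω, vf2_F M lam h θ t p s k N₀ ω ω' =
      (-(lam * (M.y h t ω - M.y h (θ * p k) ω)) +
      ∑ i ∈ Finset.range k, vf2_T M lam h θ p ω' i ω) +
      ∑ n ∈ Finset.range N₀, if ω' ∈ vf2_sel M θ p k n then
        Real.log (Real.cosh (lam * M.yinc h t n ω ω')) else 0 := by
    intro ω
    unfold vf2_F
    rw [vf2_energy M hθ0 hp0 hp ht s hs hω ω]
  have hsplit : ∫ ω, g (M.X lam h θ ω) * vf2_F M lam h θ t p s k N₀ ω ω' ∂P =
      (∫ ω, g (M.X lam h θ ω) * -(lam * (M.y h t ω - M.y h (θ * p k) ω)) ∂P +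
        ∑ i ∈ Finset.range k, ∫ ω, g (M.X lam h θ ω) * vf2_T M lam h θ p ω' i ω ∂P) +
      ∑ n ∈ Finset.range N₀, ∫ ω, g (M.X lam h θ ω) * (if ω' ∈ vf2_sel M θ p k n then
        Real.log (Real.cosh (lam * M.yinc h t n ω ω')) else 0) ∂P := by
    have i0 : Integrable (fun ω => g (M.X lam h θ ω) *
        -(lam * (M.y h t ω - M.y h (θ * p k) ω))) P := vf2_gint M lam h θ hg hg0 hg1
      ((vf2_int_y M h t (θ * p k)).const_mul lam).neg
    have i1 : ∀ i ∈ Finset.range k, Integrable (fun ω => g (M.X lam h θ ω) *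
        vf2_T M lam h θ p ω' i ω) P :=
      fun i _ => vf2_gint M lam h θ hg hg0 hg1 (vf2_T_int M lam h θ p ω' i)
    have i2 : ∀ n ∈ Finset.range N₀, Integrable (fun ω => g (M.X lam h θ ω) *
        (if ω' ∈ vf2_sel M θ p k n then
        Real.log (Real.cosh (lam * M.yinc h t n ω ω')) else 0)) P :=
      fun n _ => vf2_gint M lam h θ hg hg0 hg1 (hlcint n)
    have e1 : ∀ ω, g (M.X lam h θ ω) * vf2_F M lam h θ t p s k N₀ ω ω' =
        (g (M.X lam h θ ω) * -(lam * (M.y h t ω - M.y h (θ * p k) ω)) +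
        ∑ i ∈ Finset.range k, g (M.X lam h θ ω) * vf2_T M lam h θ p ω' i ω) +
        ∑ n ∈ Finset.range N₀, g (M.X lam h θ ω) * (if ω' ∈ vf2_sel M θ p k n then
        Real.log (Real.cosh (lam * M.yinc h t n ω ω')) else 0) := by
      intro ω
      rw [hF ω, mul_add, mul_add, Finset.mul_sum, Finset.mul_sum]
    have i1' := integrable_finsetSum _ i1
    have i01 : Integrable (fun ω => g (M.X lam h θ ω) *
        -(lam * (M.y h t ω - M.y h (θ * p k) ω)) + ∑ i ∈ Finset.range k, g (M.X lam h θ ω) *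
        vf2_T M lam h θ p ω' i ω) P := i0.add i1'
    rw [integral_congr_ae (ae_of_all _ e1), integral_add i01
      (integrable_finsetSum _ i2), integral_add i0 i1',
      integral_finsetSum _ i1, integral_finsetSum _ i2]
  have hEsplit : ∫ ω, g (M.X lam h θ ω) * vf2_E M lam h θ t p k ω ∂P =
      ∫ ω, g (M.X lam h θ ω) * -(lam * (M.y h t ω - M.y h (θ * p k) ω)) ∂P +
        ∑ i ∈ Finset.range k, ∫ ω, g (M.X lam h θ ω) *
          (if p (i + 1) = p i + 1 then - M.X lam h θ ω (p i)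
      else - |M.X lam h θ ω (p i)| - |M.X lam h θ ω (p (i + 1))|) ∂P := by
    have i0 : Integrable (fun ω => g (M.X lam h θ ω) *
        -(lam * (M.y h t ω - M.y h (θ * p k) ω))) P := vf2_gint M lam h θ hg hg0 hg1
      ((vf2_int_y M h t (θ * p k)).const_mul lam).neg
    have i1 : ∀ i ∈ Finset.range k, Integrable (fun ω => g (M.X lam h θ ω) *
        (if p (i + 1) = p i + 1 then - M.X lam h θ ω (p i)
      else - |M.X lam h θ ω (p i)| - |M.X lam h θ ω (p (i + 1))|)) P :=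
      fun i _ => vf2_gint M lam h θ hg hg0 hg1 (vf2_E_step_int M lam h θ p i)
    have e1 : ∀ ω, g (M.X lam h θ ω) * vf2_E M lam h θ t p k ω =
        g (M.X lam h θ ω) * -(lam * (M.y h t ω - M.y h (θ * p k) ω)) +
        ∑ i ∈ Finset.range k, g (M.X lam h θ ω) *
          (if p (i + 1) = p i + 1 then - M.X lam h θ ω (p i)
      else - |M.X lam h θ ω (p i)| - |M.X lam h θ ω (p (i + 1))|) := by
      intro ω
      unfold vf2_E
      rw [mul_add, Finset.mul_sum]
    rw [integral_congr_ae (ae_of_all _ e1), integral_add i0 (integrable_finsetSum _ i1),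
      integral_finsetSum _ i1]
  rw [hsplit, hEsplit]
  have hA : ∑ i ∈ Finset.range k, ∫ ω, g (M.X lam h θ ω) *
          (if p (i + 1) = p i + 1 then - M.X lam h θ ω (p i)
      else - |M.X lam h θ ω (p i)| - |M.X lam h θ ω (p (i + 1))|) ∂P ≤
      ∑ i ∈ Finset.range k, ∫ ω, g (M.X lam h θ ω) * vf2_T M lam h θ p ω' i ω ∂P :=
    Finset.sum_le_sum fun i hi => vf2_T_ge M hlam hθ0 hp0 hp hg hg0 hg1 hω (Finset.mem_range.1 hi)
  have hB : (∫ ω, g (M.X lam h θ ω) ∂P) * ∑ i ∈ vf2_II p k, vf2_S M θ p i N₀ ω' ≤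
      ∑ n ∈ Finset.range N₀, ∫ ω, g (M.X lam h θ ω) * (if ω' ∈ vf2_sel M θ p k n then
        Real.log (Real.cosh (lam * M.yinc h t n ω ω')) else 0) ∂P := by
    have e2 : ∑ i ∈ vf2_II p k, vf2_S M θ p i N₀ ω' =
        ∑ n ∈ Finset.range N₀, if ω' ∈ vf2_sel M θ p k n then vf2_f M θ n ω' else 0 := by
      unfold vf2_S
      rw [Finset.sum_comm]
      exact Finset.sum_congr rfl fun n _ => (vf2_sel_sum M hθ0 hp n ω' _).symm
    rw [e2, Finset.mul_sum]
    refine Finset.sum_le_sum fun n _ => ?_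
    by_cases hsel : ω' ∈ vf2_sel M θ p k n
    · simp only [if_pos hsel]
      have hsel' := hsel
      simp only [vf2_sel, Set.mem_iUnion] at hsel'
      obtain ⟨i, hi, hc1, hc2⟩ := hsel'
      simp only [vf2_II, Finset.mem_filter, Finset.mem_range] at hi
      have h3 : (p i : ℝ) ≤ p k := by
        exact_mod_cast Model.p_mono hp (i := i) (j := k) (by omega) le_rfl
      have h4 : M.right n ω' ≤ t := by
        refine hc2.trans (le_trans ?_ ht)
        apply mul_le_mul_of_nonneg_left _ hθ0.le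
        linarith
      have h5 := M.left_lt_right n ω'
      have h6 := coarse_cosh M hlam hθ (h := h) (p i) hc1 h5.le hc2 g hg hg0 hg1
      have h7 : ∀ ω, M.yinc h t n ω ω' = M.y h (M.right n ω') ω - M.y h (M.left n ω') ω := by
        intro ω
        unfold Model.yinc
        rw [min_eq_left h4, min_eq_left (h5.le.trans h4)]
      simp only [h7]
      exact h6
    · simp only [if_neg hsel, mul_zero, integral_zero]
      exact le_rfl
  linarith

/-- the inequality for finitely many excursions -/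
private theorem vf2_N {lam h θ t : ℝ} (hlam : 0 < lam) (hh : 0 ≤ h) (hθ : θ = (lam ^ 2)⁻¹)
    {p : ℕ → ℕ} {k : ℕ} (hp0 : p 0 = 0) (hp : ∀ i < k, p i < p (i + 1))
    (ht : θ * (p k + 1) ≤ t) (s : ℕ → Bool)
    (hs : ∀ i, s i = true ↔ ¬ p (i + 1) = p i + 1) (hpos : 0 < P'.real (M.ER θ p k)) (N₀ : ℕ)
    {g : (ℕ → ℝ) → ℝ} (hg : Measurable g)
    (hg0 : ∀ x, 0 ≤ g x) (hg1 : ∀ x, g x ≤ 1) :
    (∫ ω, g (M.X lam h θ ω) ∂P) * (Real.log (P'.real (M.ER θ p k)) -
        ((Finset.range k).filter (fun i => s i = true)).card * Real.log 2) +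
      ∫ ω, g (M.X lam h θ ω) * vf2_E M lam h θ t p k ω ∂P +
      (∫ ω, g (M.X lam h θ ω) ∂P) * ((P'.real (M.ER θ p k))⁻¹ *
        ∑ i ∈ vf2_II p k, ∫ ω' in M.ER θ p k, vf2_S M θ p i N₀ ω' ∂P') ≤
    ∫ ω, g (M.X lam h θ ω) * Real.log (M.Z lam h t ω) ∂P := by
  classical
  have hθ0 : 0 < θ := by
    rw [hθ]
    positivity
  have ht0 : 0 ≤ t := le_trans (by positivity) ht
  set q := P'.real (M.ER θ p k) with hq
  set c := Real.log q - ((Finset.range k).filter (fun i => s i = true)).card * Real.log 2 with hc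
  have hFint := vf2_F_int M (P' := P') hlam hh ht0 p s k N₀ (θ := θ) hg hg0 hg1
  have hgint : Integrable (fun ω => g (M.X lam h θ ω)) P := by
    have := vf2_gint M lam h θ hg hg0 hg1 (integrable_const (1 : ℝ))
    simpa using this
  have hae := log_Z_ge_cosh M hlam hh hθ0 ht0 p s k hp0 hp hpos (vf2_sel M θ p k)
    (vf2_sel_meas M θ p k) (vf2_hsel M hθ0 hp0 hp s hs) N₀
  have hL1 : Integrable (fun ω => ∫ ω' in M.ER θ p k, g (M.X lam h θ ω) *
      vf2_F M lam h θ t p s k N₀ ω ω' ∂P') P := hFint.integral_prod_left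
  have hmono : ∫ ω, (g (M.X lam h θ ω) * c + q⁻¹ * ∫ ω' in M.ER θ p k, g (M.X lam h θ ω) *
      vf2_F M lam h θ t p s k N₀ ω ω' ∂P') ∂P ≤
      ∫ ω, g (M.X lam h θ ω) * Real.log (M.Z lam h t ω) ∂P := by
    refine integral_mono_ae ((hgint.mul_const c).add (hL1.const_mul _))
      (vf2_gint M lam h θ hg hg0 hg1 (integrable_log_Z M hlam hh ht0)) ?_
    filter_upwards [hae] with ω hω
    have h1 := mul_le_mul_of_nonneg_left hω (hg0 (M.X lam h θ ω))
    rw [integral_const_mul]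
    refine le_trans (le_of_eq ?_) h1
    have h2 : ∫ ω' in M.ER θ p k, vf2_F M lam h θ t p s k N₀ ω ω' ∂P' =
      ∫ ω' in M.ER θ p k, (-2 * lam * M.XA h θ t p s k ω ω' +
          ∑ n ∈ Finset.range N₀, if ω' ∈ vf2_sel M θ p k n then
            Real.log (Real.cosh (lam * M.yinc h t n ω ω')) else 0) ∂P' := rfl
    rw [h2, hc]
    ring
  refine le_trans ?_ hmono
  rw [integral_add (hgint.mul_const c) (hL1.const_mul _), integral_mul_const, integral_const_mul,
    integral_integral_swap hFint]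
  have hlow : q * (∫ ω, g (M.X lam h θ ω) * vf2_E M lam h θ t p k ω ∂P) +
      (∫ ω, g (M.X lam h θ ω) ∂P) * ∑ i ∈ vf2_II p k, ∫ ω' in M.ER θ p k, vf2_S M θ p i N₀ ω' ∂P' ≤
      ∫ ω' in M.ER θ p k, ∫ ω, g (M.X lam h θ ω) * vf2_F M lam h θ t p s k N₀ ω ω' ∂P ∂P' := by
    have hSint : ∀ i ∈ vf2_II p k, Integrable (fun ω' => vf2_S M θ p i N₀ ω')
        (P'.restrict (M.ER θ p k)) := by
      intro i hi
      simp only [vf2_II, Finset.mem_filter, Finset.mem_range] at hi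
      have h3 : (p i : ℝ) ≤ p k := by
        exact_mod_cast Model.p_mono hp (i := i) (j := k) (by omega) le_rfl
      refine Integrable.of_bound (vf2_S_meas M θ p i N₀).aestronglyMeasurable (t / θ)
        (ae_of_all _ fun ω' => ?_)
      rw [Real.norm_eq_abs]
      apply vf2_S_le M hθ0 ht0
      refine le_trans ?_ ht
      apply mul_le_mul_of_nonneg_left _ hθ0.le
      linarith
    have e1 : ∫ ω' in M.ER θ p k, (∫ ω, g (M.X lam h θ ω) * vf2_E M lam h θ t p k ω ∂P +
      (∫ ω, g (M.X lam h θ ω) ∂P) * ∑ i ∈ vf2_II p k, vf2_S M θ p i N₀ ω') ∂P' =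
      q * (∫ ω, g (M.X lam h θ ω) * vf2_E M lam h θ t p k ω ∂P) +
      (∫ ω, g (M.X lam h θ ω) ∂P) *
        ∑ i ∈ vf2_II p k, ∫ ω' in M.ER θ p k, vf2_S M θ p i N₀ ω' ∂P' := by
      rw [integral_add (integrable_const _) ((integrable_finsetSum _ hSint).const_mul _),
        integral_const, integral_const_mul, integral_finsetSum _ hSint]
      simp only [smul_eq_mul, measureReal_restrict_apply_univ]
      rfl
    rw [← e1]
    refine setIntegral_mono_on ((integrable_const _).add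
      ((integrable_finsetSum _ hSint).const_mul _)) hFint.integral_prod_right
      (M.𝒢_le _ (M.measurableSet_ER θ p k)) ?_
    intro ω' hω'
    exact vf2_inner M hlam hθ hp0 hp ht s hs N₀ hg hg0 hg1 hω'
  have h3 := mul_le_mul_of_nonneg_left hlow (inv_nonneg.2 hpos.le)
  have h4 : q⁻¹ * (q * (∫ ω, g (M.X lam h θ ω) * vf2_E M lam h θ t p k ω ∂P) +
      (∫ ω, g (M.X lam h θ ω) ∂P) *
        ∑ i ∈ vf2_II p k, ∫ ω' in M.ER θ p k, vf2_S M θ p i N₀ ω' ∂P') =
      ∫ ω, g (M.X lam h θ ω) * vf2_E M lam h θ t p k ω ∂P +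
      (∫ ω, g (M.X lam h θ ω) ∂P) * (q⁻¹ *
        ∑ i ∈ vf2_II p k, ∫ ω' in M.ER θ p k, vf2_S M θ p i N₀ ω' ∂P') := by
    rw [mul_add, ← mul_assoc, inv_mul_cancel₀ hpos.ne', one_mul]
    ring
  rw [h4] at h3
  linarith

end

theorem scenario_lb : ∃ C₀ C₁ : ℝ, 0 ≤ C₀ ∧ 0 ≤ C₁ ∧ ∀ α : ℝ, 9 / 10 < α → α < 1 →
    ∀ {Ω Ω' : Type} [MeasurableSpace Ω] [MeasurableSpace Ω'] (P : Measure Ω) (P' : Measure Ω')
      [IsProbabilityMeasure P] [IsProbabilityMeasure P'] (M : Model α P P') (lam h θ t : ℝ),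
      0 < lam → 0 ≤ h → θ = (lam ^ 2)⁻¹ → ∀ (p : ℕ → ℕ) (k : ℕ), p 0 = 0 →
      (∀ i < k, p i < p (i + 1)) → θ * (p k + 1) ≤ t →
      ∀ g : (ℕ → ℝ) → ℝ, Measurable g → (∀ x, 0 ≤ g x) → (∀ x, g x ≤ 1) →
      ∫ ω, g (M.X lam h θ ω) * (gainS (1 / 2 - C₁ * (1 - α)) (Real.log (1 / (1 - α)) + C₀) p k
          (M.X lam h θ ω) - 1 - lam * (M.y h t ω - M.y h (θ * p k) ω)) ∂P ≤
        ∫ ω, g (M.X lam h θ ω) * Real.log (M.Z lam h t ω) ∂P := by
  refine ⟨Real.log 16 + 1 / 2, 1010, ?_, by norm_num, ?_⟩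
  · have := Real.log_nonneg (by norm_num : (1 : ℝ) ≤ 16)
    linarith
  intro α h0 h1 Ω Ω' _ _ P P' _ _ M lam h θ t hlam hh hθ p k hp0 hp ht g hg hg0 hg1
  classical
  have hθ0 : 0 < θ := by
    rw [hθ]
    positivity
  have ht0 : 0 ≤ t := le_trans (by positivity) ht
  set η := 1 - α with hη
  have hη0 : 0 < η := by rw [hη]; linarith
  have hη1 : η < 1 / 10 := by rw [hη]; linarith
  set s : ℕ → Bool := fun i => decide (¬ p (i + 1) = p i + 1) with hsdef
  have hs : ∀ i, s i = true ↔ ¬ p (i + 1) = p i + 1 := by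
    intro i
    simp [hsdef]
  set b : ℝ := 1 / 2 - 1010 * η with hb
  set L₀ : ℝ := Real.log (1 / η) + (Real.log 16 + 1 / 2) with hL₀
  -- probability of the scenario
  have hprod := regen_lower2 (by linarith : (4 : ℝ) / 5 ≤ α) h1 M.regen hθ0 p k hp0 hp
  have hprodpos : 0 < ∏ i ∈ Finset.range k, (if p (i + 1) = p i + 1 then 1 - 5 * η
      else η / 8 * (((p (i + 1) - p i : ℕ) : ℝ) ^ 2)⁻¹) := by
    refine Finset.prod_pos fun i hi => ?_
    have h2 := hp i (Finset.mem_range.1 hi)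
    split_ifs
    · linarith
    · have : (0 : ℝ) < ((p (i + 1) - p i : ℕ) : ℝ) := by
        exact_mod_cast (by omega : 0 < p (i + 1) - p i)
      positivity
  have hER : P'.real (ERs M.R θ p k) = P'.real (M.ER θ p k) := rfl
  rw [hER] at hprod
  set q := P'.real (M.ER θ p k) with hq
  have hpos : 0 < q := lt_of_lt_of_le hprodpos hprod
  set G := ∫ ω, g (M.X lam h θ ω) ∂P with hG
  have hG0 : 0 ≤ G := integral_nonneg fun ω => hg0 _
  set E₀ := ∫ ω, g (M.X lam h θ ω) * vf2_E M lam h θ t p k ω ∂P with hE₀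
  have hcardA : ((Finset.range k).filter (fun i => s i = true)).card = (vf2_A p k).card := by
    congr 1
    unfold vf2_A
    exact Finset.filter_congr fun i _ => hs i
  -- limit of the number of excursions
  have hlim : G * (Real.log q - (vf2_A p k).card * Real.log 2) + E₀ +
      G * (q⁻¹ * ∑ i ∈ vf2_II p k, ∫ ω' in M.ER θ p k, ∑' n, (M.inCell θ (p i) n).indicator
        (fun ω' => M.rlen θ n ω' / 2 - M.rlen θ n ω' ^ 2) ω' ∂P') ≤
      ∫ ω, g (M.X lam h θ ω) * Real.log (M.Z lam h t ω) ∂P := by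
    have hT : Tendsto (fun N₀ => G * (Real.log q - (vf2_A p k).card * Real.log 2) + E₀ +
      G * (q⁻¹ * ∑ i ∈ vf2_II p k, ∫ ω' in M.ER θ p k, vf2_S M θ p i N₀ ω' ∂P')) atTop
      (𝓝 (G * (Real.log q - (vf2_A p k).card * Real.log 2) + E₀ +
      G * (q⁻¹ * ∑ i ∈ vf2_II p k, ∫ ω' in M.ER θ p k, ∑' n, (M.inCell θ (p i) n).indicator
        (fun ω' => M.rlen θ n ω' / 2 - M.rlen θ n ω' ^ 2) ω' ∂P'))) := by
      refine (((tendsto_finsetSum _ fun i hi => ?_).const_mul _).const_mul _).const_add _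
      simp only [vf2_II, Finset.mem_filter, Finset.mem_range] at hi
      apply vf2_int_S_tendsto M hθ0 ht0
      have h3 : (p i : ℝ) ≤ p k := by
        exact_mod_cast Model.p_mono hp (i := i) (j := k) (by omega) le_rfl
      refine le_trans ?_ ht
      apply mul_le_mul_of_nonneg_left _ hθ0.le
      linarith
    refine le_of_tendsto' hT fun N₀ => ?_
    have := vf2_N M hlam hh hθ hp0 hp ht s hs hpos N₀ hg hg0 hg1
    rw [hcardA] at this
    exact this
  -- the cells
  have hcells : (vf2_II p k).card * (1 / 2 - 1000 * η) ≤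
      q⁻¹ * ∑ i ∈ vf2_II p k, ∫ ω' in M.ER θ p k, ∑' n, (M.inCell θ (p i) n).indicator
        (fun ω' => M.rlen θ n ω' / 2 - M.rlen θ n ω' ^ 2) ω' ∂P' := by
    have h2 : ∑ i ∈ vf2_II p k, (1 / 2 - 1000 * η) * q ≤
        ∑ i ∈ vf2_II p k, ∫ ω' in M.ER θ p k, ∑' n, (M.inCell θ (p i) n).indicator
        (fun ω' => M.rlen θ n ω' / 2 - M.rlen θ n ω' ^ 2) ω' ∂P' := by
      refine Finset.sum_le_sum fun i hi => ?_
      simp only [vf2_II, Finset.mem_filter, Finset.mem_range] at hi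
      exact cell_gain M h0.le h1 hθ0 p k hp0 hp hi.2.1 hi.1 hi.2.2.1 hi.2.2.2
    rw [Finset.sum_const, nsmul_eq_mul] at h2
    have h3 := mul_le_mul_of_nonneg_left h2 (inv_nonneg.2 hpos.le)
    refine le_trans (le_of_eq ?_) h3
    field_simp
  -- the logarithm of the probability
  set SA : ℝ := ∑ i ∈ vf2_A p k, 2 * Real.log ((p (i + 1) - p i : ℕ) : ℝ) with hSA
  have hlogq : (vf2_I p k).card * (-(10 * η)) -
      (SA + (vf2_A p k).card * (Real.log (1 / η) + Real.log 8)) ≤ Real.log q := by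
    refine le_trans ?_ (Real.log_le_log hprodpos hprod)
    rw [Real.log_prod (fun i hi => by
      have h2 := hp i (Finset.mem_range.1 hi)
      split_ifs
      · linarith
      · have : (0 : ℝ) < ((p (i + 1) - p i : ℕ) : ℝ) := by
          exact_mod_cast (by omega : 0 < p (i + 1) - p i)
        positivity)]
    have h2 : ∀ i ∈ Finset.range k, (if p (i + 1) = p i + 1 then -(10 * η)
        else -(2 * Real.log ((p (i + 1) - p i : ℕ) : ℝ) + (Real.log (1 / η) + Real.log 8))) ≤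
        Real.log (if p (i + 1) = p i + 1 then 1 - 5 * η
        else η / 8 * (((p (i + 1) - p i : ℕ) : ℝ) ^ 2)⁻¹) := by
      intro i hi
      have h2 := hp i (Finset.mem_range.1 hi)
      split_ifs
      · have := vf2_log_sub (x := 5 * η) (by linarith) (by linarith)
        linarith
      · have h3 : (0 : ℝ) < ((p (i + 1) - p i : ℕ) : ℝ) := by
          exact_mod_cast (by omega : 0 < p (i + 1) - p i)
        rw [Real.log_mul (by positivity) (by positivity), Real.log_div hη0.ne' (by norm_num),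
          Real.log_inv, Real.log_pow, one_div, Real.log_inv]
        push_cast
        linarith
    refine le_trans (le_of_eq ?_) (Finset.sum_le_sum h2)
    rw [Finset.sum_ite, Finset.sum_const, nsmul_eq_mul, Finset.sum_neg_distrib,
      Finset.sum_add_distrib, Finset.sum_const, nsmul_eq_mul]
    rfl
  -- the gain
  have hgain : ∀ ω, gainS b L₀ p k (M.X lam h θ ω) - 1 -
      lam * (M.y h t ω - M.y h (θ * p k) ω) = vf2_E M lam h θ t p k ω +
      ((vf2_I p k).card * b - (SA + (vf2_A p k).card * L₀) - 1) := by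
    intro ω
    have h2 : gainS b L₀ p k (M.X lam h θ ω) = ∑ i ∈ Finset.range k,
        (if p (i + 1) = p i + 1 then - M.X lam h θ ω (p i)
        else - |M.X lam h θ ω (p i)| - |M.X lam h θ ω (p (i + 1))|) +
        ∑ i ∈ Finset.range k, (if p (i + 1) = p i + 1 then b
          else -(2 * Real.log ((p (i + 1) - p i : ℕ) : ℝ) + L₀)) := by
      unfold gainS
      rw [← Finset.sum_add_distrib]
      refine Finset.sum_congr rfl fun i _ => ?_
      split_ifs
      · rfl
      · ring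
    have h3 : ∑ i ∈ Finset.range k, (if p (i + 1) = p i + 1 then b
          else -(2 * Real.log ((p (i + 1) - p i : ℕ) : ℝ) + L₀)) =
        (vf2_I p k).card * b - (SA + (vf2_A p k).card * L₀) := by
      rw [Finset.sum_ite, Finset.sum_const, nsmul_eq_mul, Finset.sum_neg_distrib,
        Finset.sum_add_distrib, Finset.sum_const, nsmul_eq_mul]
      rfl
    rw [h2, h3]
    unfold vf2_E
    ring
  have hgint : Integrable (fun ω => g (M.X lam h θ ω)) P := by
    have := vf2_gint M lam h θ hg hg0 hg1 (integrable_const (1 : ℝ))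
    simpa using this
  have hlhs : ∫ ω, g (M.X lam h θ ω) * (gainS b L₀ p k
          (M.X lam h θ ω) - 1 - lam * (M.y h t ω - M.y h (θ * p k) ω)) ∂P =
      E₀ + G * ((vf2_I p k).card * b - (SA + (vf2_A p k).card * L₀) - 1) := by
    have h2 : ∀ ω, g (M.X lam h θ ω) * (gainS b L₀ p k
          (M.X lam h θ ω) - 1 - lam * (M.y h t ω - M.y h (θ * p k) ω)) =
        g (M.X lam h θ ω) * vf2_E M lam h θ t p k ω +
        g (M.X lam h θ ω) * ((vf2_I p k).card * b - (SA + (vf2_A p k).card * L₀) - 1) := by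
      intro ω
      rw [hgain ω]
      ring
    rw [integral_congr_ae (ae_of_all _ h2), integral_add
      (vf2_gint M lam h θ hg hg0 hg1 (vf2_E_int M lam h θ t p k)) (hgint.mul_const _),
      integral_mul_const]
  rw [hlhs]
  refine le_trans ?_ hlim
  -- counting
  have hc1 : ((vf2_I p k).card : ℝ) ≤ (vf2_II p k).card + (vf2_A p k).card + 1 := by
    exact_mod_cast vf2_II_card p k
  have hc2 : ((vf2_II p k).card : ℝ) ≤ (vf2_I p k).card := by
    exact_mod_cast vf2_II_sub p k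
  have hlog16 : Real.log 16 = Real.log 8 + Real.log 2 := by
    rw [← Real.log_mul (by norm_num) (by norm_num)]
    norm_num
  have hfin : ((vf2_I p k).card * b - (SA + (vf2_A p k).card * L₀) - 1) ≤
      (Real.log q - (vf2_A p k).card * Real.log 2) + (vf2_II p k).card * (1 / 2 - 1000 * η) := by
    rw [hb, hL₀, hlog16]
    have h5 : ((vf2_II p k).card : ℝ) * (1000 * η) ≤ (vf2_I p k).card * (1000 * η) :=
      mul_le_mul_of_nonneg_right hc2 (by positivity)
    nlinarith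
  have h6 := mul_le_mul_of_nonneg_left hfin hG0
  have h7 := mul_le_mul_of_nonneg_left hcells hG0
  nlinarith

end Pool.Agent.Lib.MP_3d9a2b_pr
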