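import Pool.Agent.Lib.MP_3d9a2b_pr.V.DPSel
import Pool.Agent.Lib.MP_3d9a2b_pr.V.ScenLB
import Pool.Agent.Lib.MP_3d9a2b_pr.LogZ

set_option autoImplicit false

/-! Task VG3: the free energy is bounded below by the expectation of the best gain. -/

namespace Pool.Agent.Lib.MP_3d9a2b_pr

open MeasureTheory ProbabilityTheory Filter Topology
open scoped NNReal ENNReal

private theorem vg3_integral_y {α : ℝ} {Ω Ω' : Type} [MeasurableSpace Ω] [MeasurableSpace Ω']
    {P : Measure Ω} {P' : Measure Ω'} [IsProbabilityMeasure P] (M : Model α P P') (h t s : ℝ) :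
    Integrable (fun ω => M.y h t ω - M.y h s ω) P ∧
      ∫ ω, (M.y h t ω - M.y h s ω) ∂P = h * (t - s) := by
  have hB := M.brownian.toIsPreBrownianReal
  have hi := hB.integrable_eval
  have he := hB.integral_eval
  have h1 : ∀ ω, M.y h t ω - M.y h s ω = (M.B t.toNNReal ω - M.B s.toNNReal ω) + h * (t - s) := by
    intro ω
    simp only [Model.y]
    ring
  simp only [h1]
  have h2 := (hi t.toNNReal).sub (hi s.toNNReal)
  refine ⟨h2.add (integrable_const _), ?_⟩
  have h3 := integral_add h2 (integrable_const (μ := P) (h * (t - s)))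
  simp only [Pi.sub_apply] at h3
  rw [h3, integral_sub (hi _) (hi _), he, he]
  simp

/-- `scenario_lb` for the indicators of the sets of `vLL_select`, summed; `law_X`. -/
theorem logZ_ge_vLL : ∃ C₀ C₁ : ℝ, 0 ≤ C₀ ∧ 0 ≤ C₁ ∧ ∀ α : ℝ, 9 / 10 < α → α < 1 →
    ∀ b L₀ : ℝ, b = 1 / 2 - C₁ * (1 - α) → L₀ = Real.log (1 / (1 - α)) + C₀ → 0 ≤ b + L₀ →
    ∀ {Ω Ω' : Type} [MeasurableSpace Ω] [MeasurableSpace Ω'] (P : Measure Ω) (P' : Measure Ω')
      [IsProbabilityMeasure P] [IsProbabilityMeasure P'] (M : Model α P P') (lam h t : ℝ) (N : ℕ),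
      0 < lam → 0 ≤ h → (lam ^ 2)⁻¹ * (N + 1) ≤ t →
      ∫ x, vLL b L₀ N x ∂nuX 1 (h / lam) - 1 - lam * h * (t - (lam ^ 2)⁻¹ * N) ≤
        ∫ ω, Real.log (M.Z lam h t ω) ∂P := by
  obtain ⟨C₀, C₁, hC0, hC1, H⟩ := scenario_lb
  refine ⟨C₀, C₁, hC0, hC1, ?_⟩
  intro α h0 h1 b L₀ hb hL hbL Ω Ω' _ _ P P' _ _ M lam h t N hlam hh ht
  classical
  set θ : ℝ := (lam ^ 2)⁻¹ with hθ
  have hθ0 : 0 < θ := by
    rw [hθ]
    positivity
  have ht0 : 0 ≤ t := le_trans (by positivity) ht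
  obtain ⟨n, p, k, A, hAm, hAd, hAc, hA⟩ := vLL_select hbL N
  have hXm : Measurable (M.X lam h θ) := measurable_X M lam h θ
  have hlaw : P.map (M.X lam h θ) = nuX 1 (h / lam) := by
    rw [law_X M hlam hθ0]
    congr 1
    rw [hθ]
    field_simp
  have hVint : Integrable (fun ω => vLL b L₀ N (M.X lam h θ ω)) P := by
    have h2 := integrable_vLL b L₀ (h / lam) N
    rw [← hlaw] at h2
    exact (integrable_map_measure h2.aestronglyMeasurable hXm.aemeasurable).1 h2
  have hVeq : ∫ x, vLL b L₀ N x ∂nuX 1 (h / lam) = ∫ ω, vLL b L₀ N (M.X lam h θ ω) ∂P := by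
    rw [← hlaw, integral_map hXm.aemeasurable (measurable_vLL b L₀ N).aestronglyMeasurable]
  have hy := vg3_integral_y M h t (θ * N)
  have hZint := integrable_log_Z M hlam hh ht0
  -- the indicators
  set g : ℕ → (ℕ → ℝ) → ℝ := fun i => (A i).indicator 1 with hg
  have hgm : ∀ i < n, Measurable (g i) := fun i hi => measurable_one.indicator (hAm i hi)
  have hg0 : ∀ i x, 0 ≤ g i x := fun i x => Set.indicator_nonneg (fun _ _ => zero_le_one) x
  have hg1 : ∀ i x, g i x ≤ 1 := fun i x => Set.indicator_le_self' (fun _ _ => zero_le_one) x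
  have hgsum : ∀ x, ∑ i ∈ Finset.range n, g i x = 1 := by
    intro x
    obtain ⟨i, hi, hxi⟩ := hAc x
    rw [Finset.sum_eq_single_of_mem i (Finset.mem_range.2 hi)]
    · simp [hg, hxi]
    · intro j hj hji
      rw [Finset.mem_range] at hj
      have : x ∉ A j := fun hxj => Set.disjoint_left.1 (hAd j hj i hi hji) hxj hxi
      simp [hg, this]
  have hbdd : ∀ i < n, ∀ f : Ω → ℝ, Integrable f P →
      Integrable (fun ω => g i (M.X lam h θ ω) * f ω) P := by
    intro i hi f hf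
    refine hf.bdd_mul (c := 1) ((hgm i hi).comp hXm).aestronglyMeasurable ?_
    refine ae_of_all _ fun ω => ?_
    rw [Real.norm_of_nonneg (hg0 _ _)]
    exact hg1 _ _
  set f : Ω → ℝ := fun ω => vLL b L₀ N (M.X lam h θ ω) - 1 -
    lam * (M.y h t ω - M.y h (θ * N) ω) with hf
  have hfint : Integrable f P := (hVint.sub (integrable_const 1)).sub (hy.1.const_mul lam)
  have key : ∀ i ∈ Finset.range n, ∫ ω, g i (M.X lam h θ ω) * f ω ∂P ≤
      ∫ ω, g i (M.X lam h θ ω) * Real.log (M.Z lam h t ω) ∂P := by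
    intro i hi
    rw [Finset.mem_range] at hi
    obtain ⟨hp0, hp, hpk, hsel⟩ := hA i hi
    have h3 := H α h0 h1 P P' M lam h θ t hlam hh hθ (p i) (k i) hp0 hp
      (by rw [hpk]; exact ht) (g i) (hgm i hi) (hg0 i) (hg1 i)
    rw [← hb, ← hL, hpk] at h3
    refine le_trans (le_of_eq ?_) h3
    congr 1
    funext ω
    by_cases hx : M.X lam h θ ω ∈ A i
    · rw [hf]
      simp only
      rw [hsel _ hx]
    · have : g i (M.X lam h θ ω) = 0 := by simp [hg, hx]
      rw [this]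
      simp
  have hs := Finset.sum_le_sum key
  have e1 : ∑ i ∈ Finset.range n, ∫ ω, g i (M.X lam h θ ω) * f ω ∂P = ∫ ω, f ω ∂P := by
    rw [← integral_finsetSum _ fun i hi => hbdd i (Finset.mem_range.1 hi) f hfint]
    congr 1
    funext ω
    rw [← Finset.sum_mul, hgsum, one_mul]
  have e2 : ∑ i ∈ Finset.range n, ∫ ω, g i (M.X lam h θ ω) * Real.log (M.Z lam h t ω) ∂P =
      ∫ ω, Real.log (M.Z lam h t ω) ∂P := by
    rw [← integral_finsetSum _ fun i hi => hbdd i (Finset.mem_range.1 hi) _ hZint]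
    congr 1
    funext ω
    rw [← Finset.sum_mul, hgsum, one_mul]
  rw [e1, e2] at hs
  refine le_trans (le_of_eq ?_) hs
  have e3 : ∫ ω, f ω ∂P = ∫ ω, vLL b L₀ N (M.X lam h θ ω) ∂P - 1 - lam * (h * (t - θ * N)) := by
    have i1 : Integrable (fun ω => vLL b L₀ N (M.X lam h θ ω) - 1) P :=
      hVint.sub (integrable_const 1)
    have i2 : Integrable (fun ω => lam * (M.y h t ω - M.y h (θ * N) ω)) P := hy.1.const_mul lam
    have e4 : ∫ ω, f ω ∂P = ∫ ω, (vLL b L₀ N (M.X lam h θ ω) - 1) ∂P -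
        ∫ ω, lam * (M.y h t ω - M.y h (θ * N) ω) ∂P := integral_sub i1 i2
    rw [e4, integral_sub hVint (integrable_const 1), integral_const_mul, hy.2]
    simp
  rw [e3, hVeq]
  ring

end Pool.Agent.Lib.MP_3d9a2b_pr
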